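import Pool.Agent.OCX.Base

/-!
# Elementary lemmas on averages and path sums
-/

open scoped BigOperators

namespace Pool.Agent.OCX

section

variable {V : Type} [Fintype V]

theorem av_add (f g : V → ℝ) : av (fun x => f x + g x) = av f + av g := by
  unfold av
  rw [Finset.sum_add_distrib, add_div]

theorem av_sub (f g : V → ℝ) : av (fun x => f x - g x) = av f - av g := by
  unfold av
  rw [Finset.sum_sub_distrib, sub_div]

theorem av_mul_left (c : ℝ) (f : V → ℝ) : av (fun x => c * f x) = c * av f := by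
  unfold av
  rw [← Finset.mul_sum, mul_div_assoc]

theorem av_mul_right (c : ℝ) (f : V → ℝ) : av (fun x => f x * c) = av f * c := by
  rw [mul_comm, ← av_mul_left]
  congr 1
  funext x
  ring

theorem av_nonneg {f : V → ℝ} (h : ∀ x, 0 ≤ f x) : 0 ≤ av f :=
  div_nonneg (Finset.sum_nonneg fun x _ => h x) (Nat.cast_nonneg _)

theorem av_mono {f g : V → ℝ} (h : ∀ x, f x ≤ g x) : av f ≤ av g :=
  div_le_div_of_nonneg_right (Finset.sum_le_sum fun x _ => h x) (Nat.cast_nonneg _)

theorem av_const [Nonempty V] (c : ℝ) : av (fun _ : V => c) = c := by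
  unfold av
  rw [Finset.sum_const, Finset.card_univ, nsmul_eq_mul]
  have : (Fintype.card V : ℝ) ≠ 0 := Nat.cast_ne_zero.2 Fintype.card_ne_zero
  field_simp

theorem abs_av_le (f : V → ℝ) : |av f| ≤ av fun x => |f x| := by
  unfold av
  rw [abs_div, Nat.abs_cast]
  exact div_le_div_of_nonneg_right (Finset.abs_sum_le_sum_abs _ _) (Nat.cast_nonneg _)

theorem avS_univ (f : V → ℝ) : avS Set.univ f = av f := by
  unfold avS
  rw [Set.indicator_univ]

theorem avS_add (S : Set V) (f g : V → ℝ) : avS S (fun x => f x + g x) = avS S f + avS S g := by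
  unfold avS
  rw [← av_add]
  congr 1
  funext x
  by_cases hx : x ∈ S <;> simp [hx]

theorem avS_sub (S : Set V) (f g : V → ℝ) : avS S (fun x => f x - g x) = avS S f - avS S g := by
  unfold avS
  rw [← av_sub]
  congr 1
  funext x
  by_cases hx : x ∈ S <;> simp [hx]

theorem avS_mul_left (S : Set V) (c : ℝ) (f : V → ℝ) : avS S (fun x => c * f x) = c * avS S f := by
  unfold avS
  rw [← av_mul_left]
  congr 1
  funext x
  by_cases hx : x ∈ S <;> simp [hx]

theorem avS_mul_right (S : Set V) (c : ℝ) (f : V → ℝ) :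
    avS S (fun x => f x * c) = avS S f * c := by
  rw [mul_comm, ← avS_mul_left]
  congr 1
  funext x
  ring

theorem avS_const (S : Set V) (c : ℝ) : avS S (fun _ => c) = c * ms S := by
  unfold ms
  rw [← avS_mul_left]
  simp

theorem avS_congr {S : Set V} {f g : V → ℝ} (h : ∀ x ∈ S, f x = g x) : avS S f = avS S g := by
  unfold avS
  congr 1
  funext x
  by_cases hx : x ∈ S
  · simp [hx, h x hx]
  · simp [hx]

theorem avS_mono {S : Set V} {f g : V → ℝ} (h : ∀ x ∈ S, f x ≤ g x) : avS S f ≤ avS S g := by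
  unfold avS
  refine av_mono fun x => ?_
  by_cases hx : x ∈ S
  · simp [hx, h x hx]
  · simp [hx]

theorem avS_nonneg {S : Set V} {f : V → ℝ} (h : ∀ x ∈ S, 0 ≤ f x) : 0 ≤ avS S f := by
  unfold avS
  refine av_nonneg fun x => ?_
  by_cases hx : x ∈ S
  · simp [hx, h x hx]
  · simp [hx]

theorem avS_mono_set {S T : Set V} (hST : S ⊆ T) {f : V → ℝ} (h : ∀ x ∈ T, 0 ≤ f x) :
    avS S f ≤ avS T f := by
  unfold avS
  refine av_mono fun x => ?_
  by_cases hx : x ∈ S
  · simp [hx, hST hx]
  · by_cases hx' : x ∈ T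
    · simp [hx, hx', h x hx']
    · simp [hx, hx']

theorem abs_avS_le (S : Set V) (f : V → ℝ) : |avS S f| ≤ avS S fun x => |f x| := by
  unfold avS
  refine (abs_av_le _).trans (le_of_eq ?_)
  congr 1
  funext x
  by_cases hx : x ∈ S <;> simp [hx]

theorem avS_union {S T : Set V} (h : Disjoint S T) (f : V → ℝ) :
    avS (S ∪ T) f = avS S f + avS T f := by
  unfold avS
  rw [← av_add]
  congr 1
  funext x
  by_cases hx : x ∈ S
  · have hx' : x ∉ T := fun h' => Set.disjoint_left.1 h hx h'
    simp [hx, hx']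
  · by_cases hx' : x ∈ T
    · simp [hx, hx']
    · simp [hx, hx']

theorem ms_nonneg (S : Set V) : 0 ≤ ms S := avS_nonneg fun _ _ => zero_le_one

theorem ms_mono {S T : Set V} (h : S ⊆ T) : ms S ≤ ms T :=
  avS_mono_set h fun _ _ => zero_le_one

theorem ms_le_one (S : Set V) : ms S ≤ 1 := by
  rcases isEmpty_or_nonempty V with hV | hV
  · unfold ms avS av
    simp
  · calc ms S ≤ ms Set.univ := ms_mono (Set.subset_univ _)
      _ = 1 := by
        unfold ms
        rw [avS_univ, av_const]

theorem avS_le_mul_ms {S : Set V} {f : V → ℝ} {c : ℝ} (h : ∀ x ∈ S, f x ≤ c) :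
    avS S f ≤ c * ms S := by
  rw [← avS_const]
  exact avS_mono h

theorem mul_ms_le_avS {S : Set V} {f : V → ℝ} {c : ℝ} (h : ∀ x ∈ S, c ≤ f x) :
    c * ms S ≤ avS S f := by
  rw [← avS_const]
  exact avS_mono h

theorem avS_sq_le (S : Set V) (f g : V → ℝ) :
    avS S (fun x => f x * g x) ^ 2 ≤ avS S (fun x => f x ^ 2) * avS S (fun x => g x ^ 2) := by
  unfold avS av
  rw [div_pow, div_mul_div_comm, ← pow_two]
  refine div_le_div_of_nonneg_right ?_ (sq_nonneg _)
  have key := Finset.sum_mul_sq_le_sq_mul_sq Finset.univ (S.indicator f) (S.indicator g)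
  have e1 : ∀ x, S.indicator (fun x => f x * g x) x = S.indicator f x * S.indicator g x := by
    intro x
    by_cases hx : x ∈ S <;> simp [hx]
  have e2 : ∀ (f : V → ℝ) x, S.indicator (fun x => f x ^ 2) x = S.indicator f x ^ 2 := by
    intro f x
    by_cases hx : x ∈ S <;> simp [hx]
  simp only [e1, e2]
  exact key

theorem exists_mem_of_ms_pos {S : Set V} (h : 0 < ms S) : S.Nonempty := by
  by_contra hS
  rw [Set.not_nonempty_iff_eq_empty] at hS
  rw [hS] at h
  unfold ms avS av at h
  simp at h

/-- symmetry of the double sums over edges -/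
theorem avS_symm (G : SimpleGraph V) (A B : Set V) (f g : V → ℝ) :
    avS A (fun x => f x * avS (G.neighborSet x ∩ B) g) =
      avS B (fun y => g y * avS (G.neighborSet y ∩ A) f) := by
  unfold avS av
  have e1 : ∀ (A B : Set V) (f g : V → ℝ) (x : V),
      A.indicator (fun x => f x * ((∑ y, (G.neighborSet x ∩ B).indicator g y) /
        (Fintype.card V : ℝ))) x =
      (∑ y, A.indicator f x * ((G.neighborSet x ∩ B).indicator g y)) / (Fintype.card V : ℝ) := by
    intro A B f g x
    by_cases hx : x ∈ A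
    · rw [Set.indicator_of_mem hx, Set.indicator_of_mem hx, ← Finset.mul_sum, mul_div_assoc]
    · rw [Set.indicator_of_notMem hx, Set.indicator_of_notMem hx]
      simp
  simp only [e1]
  rw [← Finset.sum_div, ← Finset.sum_div, Finset.sum_comm]
  congr 2
  refine Finset.sum_congr rfl fun y _ => Finset.sum_congr rfl fun x _ => ?_
  by_cases hx : x ∈ A <;> by_cases hy : y ∈ B <;> by_cases hxy : G.Adj x y
  · have h1 : y ∈ G.neighborSet x ∩ B := ⟨hxy, hy⟩
    have h2 : x ∈ G.neighborSet y ∩ A := ⟨hxy.symm, hx⟩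
    simp only [Set.indicator_of_mem h1, Set.indicator_of_mem h2, Set.indicator_of_mem hx,
      Set.indicator_of_mem hy]
    ring
  all_goals
    have h1 : A.indicator f x * (G.neighborSet x ∩ B).indicator g y = 0 := by
      by_cases hx' : x ∈ A
      · by_cases h : y ∈ G.neighborSet x ∩ B
        · first
            | exact absurd h.1 hxy
            | exact absurd h.2 hy
            | exact absurd hx' hx
        · rw [Set.indicator_of_notMem h, mul_zero]
      · rw [Set.indicator_of_notMem hx', zero_mul]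
    have h2 : B.indicator g y * (G.neighborSet y ∩ A).indicator f x = 0 := by
      by_cases hy' : y ∈ B
      · by_cases h : x ∈ G.neighborSet y ∩ A
        · first
            | exact absurd h.1.symm hxy
            | exact absurd h.2 hx
            | exact absurd hy' hy
        · rw [Set.indicator_of_notMem h, mul_zero]
      · rw [Set.indicator_of_notMem hy', zero_mul]
    rw [h1, h2]

/-! ### path sums -/

variable {G : SimpleGraph V} {R : Set V}

theorem PS_nonneg {m : ℕ} {F : (Fin m → V) → ℝ} (h : ∀ y, IsP G R y → 0 ≤ F y) :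
    0 ≤ PS G R m F := by
  unfold PS
  refine div_nonneg (Finset.sum_nonneg fun y _ => ?_) (pow_nonneg (Nat.cast_nonneg _) _)
  exact Set.indicator_nonneg (fun y hy => h y hy) y

theorem PS_mono {m : ℕ} {F F' : (Fin m → V) → ℝ} (h : ∀ y, IsP G R y → F y ≤ F' y) :
    PS G R m F ≤ PS G R m F' := by
  unfold PS
  refine div_le_div_of_nonneg_right (Finset.sum_le_sum fun y _ => ?_)
    (pow_nonneg (Nat.cast_nonneg _) _)
  exact Set.indicator_le_indicator' fun hy => h y hy

theorem PS_add {m : ℕ} (F F' : (Fin m → V) → ℝ) :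
    PS G R m (fun y => F y + F' y) = PS G R m F + PS G R m F' := by
  unfold PS
  rw [← add_div, ← Finset.sum_add_distrib]
  congr 1
  refine Finset.sum_congr rfl fun y _ => ?_
  exact congrFun (Set.indicator_add _ F F') y

theorem PS_mul_left {m : ℕ} (c : ℝ) (F : (Fin m → V) → ℝ) :
    PS G R m (fun y => c * F y) = c * PS G R m F := by
  unfold PS
  rw [← mul_div_assoc, Finset.mul_sum]
  congr 1
  refine Finset.sum_congr rfl fun y _ => ?_
  by_cases hy : IsP G R y
  · rw [Set.indicator_of_mem (show y ∈ {y | IsP G R y} from hy),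
      Set.indicator_of_mem (show y ∈ {y | IsP G R y} from hy)]
  · rw [Set.indicator_of_notMem (show y ∉ {y | IsP G R y} from hy),
      Set.indicator_of_notMem (show y ∉ {y | IsP G R y} from hy), mul_zero]

/-- volume bound for path sums -/
theorem PS_le_prod {m : ℕ} {F : (Fin m → V) → ℝ} (S : Fin m → Set V) (a : Fin m → V → ℝ)
    (ha : ∀ i x, x ∈ S i → 0 ≤ a i x)
    (h : ∀ y, IsP G R y → F y ≤ ∏ i, (S i).indicator (a i) (y i)) :
    PS G R m F ≤ ∏ i, avS (S i) (a i) := by
  have e : ∏ i, avS (S i) (a i) =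
      (∑ y : Fin m → V, ∏ i, (S i).indicator (a i) (y i)) / (Fintype.card V : ℝ) ^ m := by
    unfold avS av
    rw [Finset.prod_div_distrib, Finset.prod_const, Finset.card_univ, Fintype.card_fin]
    congr 1
    rw [Finset.prod_univ_sum]
    rw [Fintype.piFinset_univ]
  rw [e]
  unfold PS
  refine div_le_div_of_nonneg_right (Finset.sum_le_sum fun y _ => ?_)
    (pow_nonneg (Nat.cast_nonneg _) _)
  by_cases hy : IsP G R y
  · rw [Set.indicator_of_mem (show y ∈ {y | IsP G R y} from hy)]
    exact h y hy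
  · rw [Set.indicator_of_notMem (show y ∉ {y | IsP G R y} from hy)]
    exact Finset.prod_nonneg fun i _ => Set.indicator_nonneg (fun x hx => ha i x hx) _

theorem vis_le_of_unique {V : Type} {S : Set V} {m : ℕ} {y : Fin m → V}
    (h : ∀ i j, y i ∈ S → y j ∈ S → i = j) : vis S y ≤ 1 := by
  unfold vis
  by_cases he : ∃ i, y i ∈ S
  · obtain ⟨i, hi⟩ := he
    rw [Finset.sum_eq_single i]
    · rw [Set.indicator_of_mem hi]
    · intro j _ hj
      exact Set.indicator_of_notMem (fun hj' => hj (h j i hj' hi)) _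
    · intro h'
      exact absurd (Finset.mem_univ i) h'
  · rw [Finset.sum_eq_zero]
    · exact zero_le_one
    · intro i _
      exact Set.indicator_of_notMem (fun hi => he ⟨i, hi⟩) _

theorem vis_le_two {V : Type} {S : Set V} {m : ℕ} {y : Fin m → V} (i j : Fin m)
    (h : ∀ r, y r ∈ S → r = i ∨ r = j) : vis S y ≤ 2 := by
  unfold vis
  calc ∑ r, S.indicator (fun _ => (1 : ℝ)) (y r)
      ≤ ∑ r, ((if r = i then (1 : ℝ) else 0) + (if r = j then (1 : ℝ) else 0)) := by
        refine Finset.sum_le_sum fun r _ => ?_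
        by_cases hr : y r ∈ S
        · rw [Set.indicator_of_mem hr]
          rcases h r hr with h | h
          · rw [if_pos h]
            split_ifs <;> norm_num
          · rw [if_pos h]
            split_ifs <;> norm_num
        · rw [Set.indicator_of_notMem hr]
          split_ifs <;> norm_num
    _ = 2 := by
        rw [Finset.sum_add_distrib, Finset.sum_ite_eq', Finset.sum_ite_eq']
        simp
        norm_num

theorem vis_of_subset {V : Type} {R : Set V} {m : ℕ} {y : Fin m → V} (h : ∀ i, y i ∈ R) :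
    vis R y = m := by
  unfold vis
  rw [Finset.sum_congr rfl fun i _ => Set.indicator_of_mem (h i) _]
  simp

theorem ms_singleton (x : V) : ms ({x} : Set V) = 1 / (Fintype.card V : ℝ) := by
  unfold ms avS av
  rw [Finset.sum_eq_single x]
  · rw [Set.indicator_of_mem (Set.mem_singleton x)]
  · intro y _ hy
    exact Set.indicator_of_notMem (show y ∉ ({x} : Set V) from hy) _
  · intro h
    exact absurd (Finset.mem_univ x) h

theorem avS_singleton (x : V) (f : V → ℝ) :
    avS ({x} : Set V) f = f x / (Fintype.card V : ℝ) := by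
  unfold avS av
  rw [Finset.sum_eq_single x]
  · rw [Set.indicator_of_mem (Set.mem_singleton x)]
  · intro y _ hy
    exact Set.indicator_of_notMem (show y ∉ ({x} : Set V) from hy) _
  · intro h
    exact absurd (Finset.mem_univ x) h

theorem avS_inter_add_diff (S T : Set V) (f : V → ℝ) :
    avS S f = avS (S ∩ T) f + avS (S \ T) f := by
  rw [← avS_union]
  · rw [Set.inter_union_sdiff]
  · exact Set.disjoint_left.2 fun x hx hx' => hx'.2 hx.2

theorem avS_three {A B R : Set V} (c : Cor G A B R) (f : V → ℝ) :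
    av f = avS A f + avS B f + avS R f := by
  unfold avS
  rw [← av_add, ← av_add]
  congr 1
  funext x
  rcases c.cov x with h | h | h
  · have h1 := c.dAB x h
    have h2 := c.dAR x h
    simp [h, h1, h2]
  · have h1 : x ∉ A := fun h' => c.dAB x h' h
    have h2 := c.dBR x h
    simp [h, h1, h2]
  · have h1 : x ∉ A := fun h' => c.dAR x h' h
    have h2 : x ∉ B := fun h' => c.dBR x h' h
    simp [h, h1, h2]

theorem avS_inter_three {A B R : Set V} (c : Cor G A B R) (S : Set V) (f : V → ℝ) :
    avS S f = avS (S ∩ A) f + avS (S ∩ B) f + avS (S ∩ R) f := by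
  have h := avS_three c (S.indicator f)
  unfold avS at h ⊢
  rw [h]
  congr 1
  · congr 1
    · congr 1
      rw [Set.indicator_indicator, Set.inter_comm]
    · congr 1
      rw [Set.indicator_indicator, Set.inter_comm]
  · congr 1
    rw [Set.indicator_indicator, Set.inter_comm]

theorem avS_empty (f : V → ℝ) : avS (∅ : Set V) f = 0 := by
  unfold avS av
  simp

omit [Fintype V] in
/-- no edges inside `A` -/
theorem nbr_A {A B R : Set V} (c : Cor G A B R) {x : V} (hx : x ∈ A) :
    G.neighborSet x ∩ A = ∅ := by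
  ext y
  simp only [Set.mem_inter_iff, SimpleGraph.mem_neighborSet, Set.mem_empty_iff_false, iff_false,
    not_and]
  intro h hy
  exact c.indA x hx y hy h

omit [Fintype V] in
theorem nbr_B {A B R : Set V} (c : Cor G A B R) {x : V} (hx : x ∈ B) :
    G.neighborSet x ∩ B = ∅ := by
  ext y
  simp only [Set.mem_inter_iff, SimpleGraph.mem_neighborSet, Set.mem_empty_iff_false, iff_false,
    not_and]
  intro h hy
  exact c.indB x hx y hy h

/-- the cost inequality -/
theorem cost_key {A B R : Set V} (c : Cor G A B R) {φ : V → ℝ} {lam : ℝ}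
    (hW : ∀ x, Wop G φ x = lam * φ x) (h0 : ∀ x, 0 ≤ φ x) (h2 : av (fun x => φ x ^ 2) = 1) :
    lam * (1 - 2 * avS R (fun x => φ x ^ 2)) ≤ 2 * (avS A φ * avS B φ) - 2 * Mphi G A B φ := by
  have hW' : ∀ x, φ x * avS (G.neighborSet x) φ = lam * φ x ^ 2 := by
    intro x
    have := hW x
    unfold Wop at this
    rw [this]
    ring
  have hR : avS R (fun x => φ x * avS (G.neighborSet x) φ) = lam * avS R (fun x => φ x ^ 2) := by
    rw [← avS_mul_left]
    exact avS_congr fun x _ => hW' x
  have htot : lam = avS A (fun x => φ x * avS (G.neighborSet x) φ) +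
      avS B (fun x => φ x * avS (G.neighborSet x) φ) +
      avS R (fun x => φ x * avS (G.neighborSet x) φ) := by
    rw [← avS_three c]
    have e : av (fun x => φ x * avS (G.neighborSet x) φ) = lam * av (fun x => φ x ^ 2) := by
      rw [← av_mul_left]
      congr 1
      funext x
      exact hW' x
    rw [e, h2, mul_one]
  have hA : avS A (fun x => φ x * avS (G.neighborSet x) φ) =
      (avS A φ * avS B φ - Mphi G A B φ) +
        avS A (fun x => φ x * avS (G.neighborSet x ∩ R) φ) := by
    unfold Mphi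
    rw [← avS_mul_right, ← avS_sub, ← avS_add]
    refine avS_congr fun x hx => ?_
    rw [avS_inter_three c (G.neighborSet x), nbr_A c hx, avS_empty]
    have e : avS B φ = avS (G.neighborSet x ∩ B) φ + avS (B \ G.neighborSet x) φ := by
      rw [avS_inter_add_diff B (G.neighborSet x), Set.inter_comm]
    rw [e]
    ring
  have hB : avS B (fun x => φ x * avS (G.neighborSet x) φ) =
      (avS A φ * avS B φ - Mphi G A B φ) +
        avS B (fun x => φ x * avS (G.neighborSet x ∩ R) φ) := by
    have e1 : avS B (fun x => φ x * avS (G.neighborSet x) φ) =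
        avS B (fun x => φ x * avS (G.neighborSet x ∩ A) φ) +
        avS B (fun x => φ x * avS (G.neighborSet x ∩ R) φ) := by
      rw [← avS_add]
      refine avS_congr fun x hx => ?_
      rw [avS_inter_three c (G.neighborSet x), nbr_B c hx, avS_empty]
      ring
    rw [e1, avS_symm G B A φ φ]
    congr 1
    unfold Mphi
    rw [← avS_mul_right, ← avS_sub]
    refine avS_congr fun x hx => ?_
    have e : avS B φ = avS (G.neighborSet x ∩ B) φ + avS (B \ G.neighborSet x) φ := by
      rw [avS_inter_add_diff B (G.neighborSet x), Set.inter_comm]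
    rw [e]
    ring
  have hsum : avS A (fun x => φ x * avS (G.neighborSet x ∩ R) φ) +
      avS B (fun x => φ x * avS (G.neighborSet x ∩ R) φ) ≤
      lam * avS R (fun x => φ x ^ 2) := by
    rw [avS_symm G A R φ φ, avS_symm G B R φ φ, ← avS_add, ← hR]
    refine avS_mono fun x _ => ?_
    rw [avS_inter_three c (G.neighborSet x)]
    have : 0 ≤ φ x * avS (G.neighborSet x ∩ R) φ :=
      mul_nonneg (h0 x) (avS_nonneg fun y _ => h0 y)
    nlinarith
  rw [hA, hB, hR] at htot
  linarith

/-- two rectangles of missing edges -/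
theorem Mphi_ge2 {A B X₁ X₂ Y₁ Y₂ : Set V} {φ : V → ℝ} (h0 : ∀ x, 0 ≤ φ x) (hX₁ : X₁ ⊆ B)
    (hX₂ : X₂ ⊆ B) (hY₁ : Y₁ ⊆ A) (hY₂ : Y₂ ⊆ A) (hd : Disjoint X₁ X₂ ∨ Disjoint Y₁ Y₂)
    (h1 : ∀ b ∈ X₁, ∀ a ∈ Y₁, ¬ G.Adj b a) (h2 : ∀ b ∈ X₂, ∀ a ∈ Y₂, ¬ G.Adj b a) :
    avS X₁ φ * avS Y₁ φ + avS X₂ φ * avS Y₂ φ ≤ Mphi G A B φ := by
  unfold Mphi
  have key : ∀ x ∈ A, Y₁.indicator (fun _ => avS X₁ φ) x + Y₂.indicator (fun _ => avS X₂ φ) x ≤
      avS (B \ G.neighborSet x) φ := by
    intro x _
    by_cases hx1 : x ∈ Y₁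
    · have s1 : X₁ ⊆ B \ G.neighborSet x := fun b hb =>
        ⟨hX₁ hb, fun h => h1 b hb x hx1 h.symm⟩
      by_cases hx2 : x ∈ Y₂
      · have s2 : X₂ ⊆ B \ G.neighborSet x := fun b hb =>
          ⟨hX₂ hb, fun h => h2 b hb x hx2 h.symm⟩
        have hX : Disjoint X₁ X₂ := by
          rcases hd with h | h
          · exact h
          · exact absurd hx2 (Set.disjoint_left.1 h hx1)
        rw [Set.indicator_of_mem hx1, Set.indicator_of_mem hx2, ← avS_union hX]
        exact avS_mono_set (Set.union_subset s1 s2) fun y _ => h0 y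
      · rw [Set.indicator_of_mem hx1, Set.indicator_of_notMem hx2, add_zero]
        exact avS_mono_set s1 fun y _ => h0 y
    · by_cases hx2 : x ∈ Y₂
      · have s2 : X₂ ⊆ B \ G.neighborSet x := fun b hb =>
          ⟨hX₂ hb, fun h => h2 b hb x hx2 h.symm⟩
        rw [Set.indicator_of_notMem hx1, Set.indicator_of_mem hx2, zero_add]
        exact avS_mono_set s2 fun y _ => h0 y
      · rw [Set.indicator_of_notMem hx1, Set.indicator_of_notMem hx2, add_zero]
        exact avS_nonneg fun y _ => h0 y
  have e : ∀ {X Y : Set V}, Y ⊆ A → avS X φ * avS Y φ =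
      avS A (fun x => φ x * Y.indicator (fun _ => avS X φ) x) := by
    intro X Y hY
    rw [mul_comm, ← avS_mul_right]
    unfold avS
    congr 1
    funext x
    by_cases hx : x ∈ Y
    · rw [Set.indicator_of_mem hx, Set.indicator_of_mem (hY hx), Set.indicator_of_mem hx]
    · rw [Set.indicator_of_notMem hx]
      by_cases hx' : x ∈ A
      · rw [Set.indicator_of_mem hx', Set.indicator_of_notMem hx, mul_zero]
      · rw [Set.indicator_of_notMem hx']
  rw [e hY₁, e hY₂, ← avS_add]
  refine avS_mono fun x hx => ?_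
  rw [← mul_add]
  exact mul_le_mul_of_nonneg_left (key x hx) (h0 x)

theorem Mphi_ge {A B X Y : Set V} {φ : V → ℝ} (h0 : ∀ x, 0 ≤ φ x) (hX : X ⊆ B)
    (hY : Y ⊆ A) (h1 : ∀ b ∈ X, ∀ a ∈ Y, ¬ G.Adj b a) :
    avS X φ * avS Y φ ≤ Mphi G A B φ := by
  have h := Mphi_ge2 (X₂ := ∅) (Y₂ := ∅) h0 hX (Set.empty_subset _) hY (Set.empty_subset _)
    (Or.inl (Set.disjoint_empty _)) h1 (fun b hb => absurd hb (Set.notMem_empty b))
  rw [avS_empty] at h
  linarith

/-- bounding `Kf` through the numbers of visits -/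
theorem Kf_le_add {t : ℕ} {eA eB : V → ℝ} (hA0 : ∀ x, 0 ≤ eA x) (hB0 : ∀ x, 0 ≤ eB x) {S : Set V}
    {bA bB : (Fin (2 * t + 2) → V) → ℝ}
    (hI : ∀ y, TyI t G R eA eB y → vis S y ≤ 1)
    (hA : ∀ y, TyC t G R eA y → vis S y ≤ 1 + bA y)
    (hB : ∀ y, TyC t G R eB y → vis S y ≤ 1 + bB y) :
    Kf t G R eA eB S ≤ 1 / 2 * Zf t G R eA eB +
      1 / 2 * PS G R (2 * t + 2) (fun y => wC t eA y * bA y + wC t eB y * bB y) := by
  have h1 : PS G R (2 * t + 1) (fun y => wI t eA eB y * vis S y) ≤
      PS G R (2 * t + 1) (wI t eA eB) := by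
    refine PS_mono fun y hy => ?_
    by_cases h : 0 < eB (y 0) ∧ 0 < eA (y (Fin.last (2 * t)))
    · have hv := hI y ⟨hy, h.1, h.2⟩
      have hw : 0 ≤ wI t eA eB y := by
        unfold wI
        have := hB0 (y 0)
        have := hA0 (y (Fin.last (2 * t)))
        positivity
      nlinarith
    · have hw : wI t eA eB y = 0 := by
        unfold wI
        rw [not_and_or, not_lt, not_lt] at h
        rcases h with h | h
        · rw [le_antisymm h (hB0 _)]
          ring
        · rw [le_antisymm h (hA0 _)]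
          ring
      rw [hw, zero_mul]
  have hC : ∀ (e : V → ℝ) (b : (Fin (2 * t + 2) → V) → ℝ), (∀ x, 0 ≤ e x) →
      (∀ y, TyC t G R e y → vis S y ≤ 1 + b y) → ∀ y, IsP G R y →
      wC t e y * vis S y ≤ wC t e y + wC t e y * b y := by
    intro e b he hb y hy
    by_cases h : 0 < e (y 0) ∧ 0 < e (y (Fin.last (2 * t + 1)))
    · have hv := hb y ⟨hy, h.1, h.2⟩
      have hw : 0 ≤ wC t e y := by
        unfold wC
        have := he (y 0)
        have := he (y (Fin.last (2 * t + 1)))
        positivity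
      nlinarith
    · have hw : wC t e y = 0 := by
        unfold wC
        rw [not_and_or, not_lt, not_lt] at h
        rcases h with h | h
        · rw [le_antisymm h (he _)]
          ring
        · rw [le_antisymm h (he _)]
          ring
      rw [hw]
      simp
  have h2 : PS G R (2 * t + 2) (fun y => (wC t eA y + wC t eB y) * vis S y) ≤
      PS G R (2 * t + 2) (fun y => wC t eA y + wC t eB y) +
      PS G R (2 * t + 2) (fun y => wC t eA y * bA y + wC t eB y * bB y) := by
    rw [← PS_add]
    refine PS_mono fun y hy => ?_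
    have a1 := hC eA bA hA0 hA y hy
    have a2 := hC eB bB hB0 hB y hy
    linarith
  unfold Kf Zf
  linarith

/-- `Kf R = (t + 1) Z - Φ_I` -/
theorem Kf_R {t : ℕ} (eA eB : V → ℝ) :
    Kf t G R eA eB R = (t + 1) * Zf t G R eA eB - PS G R (2 * t + 1) (wI t eA eB) := by
  have h1 : PS G R (2 * t + 1) (fun y => wI t eA eB y * vis R y) =
      (2 * t + 1) * PS G R (2 * t + 1) (wI t eA eB) := by
    rw [← PS_mul_left]
    refine PS_congr fun y hy => ?_
    rw [vis_of_subset hy.1]
    push_cast
    ring
  have h2 : PS G R (2 * t + 2) (fun y => (wC t eA y + wC t eB y) * vis R y) =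
      (2 * t + 2) * PS G R (2 * t + 2) (fun y => wC t eA y + wC t eB y) := by
    rw [← PS_mul_left]
    refine PS_congr fun y hy => ?_
    rw [vis_of_subset hy.1]
    push_cast
    ring
  unfold Kf Zf
  rw [h1, h2]
  ring

/-- positive path sums contain a path -/
theorem exists_of_PS_pos {m : ℕ} {F : (Fin m → V) → ℝ} (h : 0 < PS G R m F) :
    ∃ y, IsP G R y ∧ 0 < F y := by
  by_contra hc
  push Not at hc
  have h1 : PS G R m F ≤ PS G R m (fun _ => 0) := PS_mono fun y hy => hc y hy
  have h2 : PS G R m (fun _ => 0) = 0 := by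
    unfold PS
    simp
  linarith

end

end Pool.Agent.OCX
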