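import Pool.Agent.OCX.Stmts
import Pool.Agent.OCX.Lib

/-!
# ALP: the amplitudes `al` and path sums
-/

open scoped BigOperators

namespace Pool.Agent.OCX

namespace ALP_

variable {V : Type} [Fintype V] {G : SimpleGraph V} {R : Set V}

/-- twice the averaging operator over the neighbours in `R` -/
noncomputable def T (G : SimpleGraph V) (R : Set V) (f : V → ℝ) (x : V) : ℝ :=
  2 * avS (G.neighborSet x ∩ R) f

theorem al_succ (e : V → ℝ) (n : ℕ) :
    al G R e (n + 2) = R.indicator (T G R (al G R e (n + 1))) := rfl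

theorem avS_ind_R (S : Set V) (f : V → ℝ) : avS (S ∩ R) (R.indicator f) = avS (S ∩ R) f :=
  avS_congr fun _ hx => Set.indicator_of_mem hx.2 f

theorem T_ind (f : V → ℝ) : T G R (R.indicator f) = T G R f := by
  funext x
  unfold T
  rw [avS_ind_R]

theorem al_T (f : V → ℝ) : ∀ q : ℕ, al G R (T G R f) (q + 1) = al G R f (q + 2)
  | 0 => by
    rw [al_succ]
    change R.indicator (T G R f) = R.indicator (T G R (R.indicator f))
    rw [T_ind]
  | q + 1 => by
    rw [al_succ, al_succ, al_T f q]

omit [Fintype V] in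
theorem isP_snoc {m : ℕ} (z : Fin (m + 1) → V) (x : V) :
    IsP G R (Fin.snoc (α := fun _ => V) z x) ↔
      IsP G R z ∧ x ∈ G.neighborSet (z (Fin.last m)) ∩ R := by
  constructor
  · intro h
    refine ⟨⟨fun i => ?_, fun i j hij => ?_⟩, ?_, ?_⟩
    · have := h.1 i.castSucc
      rwa [Fin.snoc_castSucc] at this
    · have := h.2 i.castSucc j.castSucc (by simpa using hij)
      rwa [Fin.snoc_castSucc, Fin.snoc_castSucc] at this
    · have := h.2 (Fin.last m).castSucc (Fin.last (m + 1)) (by simp)
      rwa [Fin.snoc_castSucc, Fin.snoc_last] at this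
    · have := h.1 (Fin.last (m + 1))
      rwa [Fin.snoc_last] at this
  · rintro ⟨h, hx, hR⟩
    refine ⟨fun i => ?_, fun i j hij => ?_⟩
    · refine Fin.lastCases ?_ (fun i => ?_) i
      · rwa [Fin.snoc_last]
      · rw [Fin.snoc_castSucc]
        exact h.1 i
    · induction j using Fin.lastCases with
      | last =>
        induction i using Fin.lastCases with
        | last => simp at hij
        | cast i =>
          rw [Fin.snoc_castSucc, Fin.snoc_last]
          have : i = Fin.last m := by
            apply Fin.ext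
            simp at hij ⊢
            omega
          rw [this]
          exact hx
      | cast j =>
        induction i using Fin.lastCases with
        | last =>
          exfalso
          have := j.2
          simp at hij
          omega
        | cast i =>
          rw [Fin.snoc_castSucc, Fin.snoc_castSucc]
          exact h.2 i j (by simpa using hij)

theorem sum_snoc {m : ℕ} (F : (Fin (m + 1) → V) → ℝ) :
    ∑ y, F y = ∑ z : Fin m → V, ∑ x : V, F (Fin.snoc (α := fun _ => V) z x) := by
  rw [← (Fin.snocEquiv (fun _ : Fin (m + 1) => V)).sum_comp, Fintype.sum_prod_type_right]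
  rfl

theorem sum_ind_nbr (S : Set V) (g : V → ℝ) (hN : (Fintype.card V : ℝ) ≠ 0) :
    ∑ x, S.indicator g x = (Fintype.card V : ℝ) * avS S g := by
  unfold avS av
  field_simp

theorem card_ne (h : Nonempty V) : (Fintype.card V : ℝ) ≠ 0 := by
  have := Fintype.card_pos (α := V)
  positivity

theorem PS_empty [IsEmpty V] {m : ℕ} (F : (Fin (m + 1) → V) → ℝ) : PS G R (m + 1) F = 0 := by
  unfold PS
  have : Fintype.card V = 0 := Fintype.card_eq_zero
  rw [this]
  simp

theorem avS_of_empty [IsEmpty V] (S : Set V) (f : V → ℝ) : avS S f = 0 := by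
  unfold avS av
  simp

/-- append a vertex at the end -/
theorem PS_snoc {m : ℕ} (h : (Fin (m + 1) → V) → ℝ) (g : V → ℝ) :
    PS G R (m + 2) (fun y => h (Fin.init y) * g (y (Fin.last (m + 1)))) =
      PS G R (m + 1) (fun y => h y * avS (G.neighborSet (y (Fin.last m)) ∩ R) g) := by
  classical
  rcases isEmpty_or_nonempty V with hV | hV
  · rw [PS_empty, PS_empty]
  have hN := card_ne hV
  have key : ∑ y : Fin (m + 1 + 1) → V, {y | IsP G R y}.indicator
      (fun y => h (Fin.init y) * g (y (Fin.last (m + 1)))) y =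
      (Fintype.card V : ℝ) * ∑ z : Fin (m + 1) → V, {y | IsP G R y}.indicator
        (fun y => h y * avS (G.neighborSet (y (Fin.last m)) ∩ R) g) z := by
    rw [sum_snoc, Finset.mul_sum]
    refine Finset.sum_congr rfl fun z _ => ?_
    by_cases hz : IsP G R z
    · rw [Set.indicator_of_mem (show z ∈ {y | IsP G R y} from hz)]
      have := sum_ind_nbr (G.neighborSet (z (Fin.last m)) ∩ R) g hN
      calc _ = ∑ x, h z * (G.neighborSet (z (Fin.last m)) ∩ R).indicator g x := by
            refine Finset.sum_congr rfl fun x _ => ?_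
            by_cases hx : x ∈ G.neighborSet (z (Fin.last m)) ∩ R
            · rw [Set.indicator_of_mem hx, Set.indicator_of_mem
                (show _ ∈ {y | IsP G R y} from (isP_snoc z x).2 ⟨hz, hx⟩)]
              rw [Fin.init_snoc, Fin.snoc_last]
            · rw [Set.indicator_of_notMem hx, Set.indicator_of_notMem
                (fun hh : _ ∈ {y | IsP G R y} => hx ((isP_snoc z x).1 hh).2), mul_zero]
        _ = _ := by
            rw [← Finset.mul_sum, this]
            ring
    · rw [Set.indicator_of_notMem (show z ∉ {y | IsP G R y} from hz), mul_zero]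
      refine Finset.sum_eq_zero fun x _ => ?_
      exact Set.indicator_of_notMem
        (fun hh : _ ∈ {y | IsP G R y} => hz ((isP_snoc z x).1 hh).1) _
  unfold PS
  rw [key, pow_succ (Fintype.card V : ℝ) (m + 1)]
  field_simp

/-- add a vertex at the start -/
theorem PS_cons {m : ℕ} (h : (Fin (m + 1) → V) → ℝ) (g : V → ℝ) :
    PS G R (m + 2) (fun y => g (y 0) * h (Fin.tail y)) =
      PS G R (m + 1) (fun y => avS (G.neighborSet (y 0) ∩ R) g * h y) := by
  rw [← PS_rev, ← PS_rev (G := G) (R := R) (m := m + 1)]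
  have h1 := PS_snoc (G := G) (R := R) (m := m) (fun z => h (fun i => z i.rev)) g
  rw [show (fun y : Fin (m + 2) → V => g ((fun i : Fin (m + 2) => y i.rev) 0) *
      h (Fin.tail (fun i : Fin (m + 2) => y i.rev))) = fun y : Fin (m + 1 + 1) → V =>
        (fun z : Fin (m + 1) → V => h (fun i => z i.rev)) (Fin.init y) *
        g (y (Fin.last (m + 1))) from ?_, h1]
  · congr 1
    funext y
    simp only [Fin.rev_zero]
    ring
  · funext y
    have e1 : (fun i : Fin (m + 2) => y i.rev) 0 = y (Fin.last (m + 1)) := by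
      simp only [Fin.rev_zero]
    have e2 : Fin.tail (fun i : Fin (m + 2) => y i.rev) =
        fun i : Fin (m + 1) => (Fin.init y : Fin (m + 1) → V) i.rev := by
      funext i
      simp only [Fin.tail, Fin.init]
      congr 1
      rw [Fin.rev_succ]
    rw [e1, e2]
    ring

theorem PS_one (F : V → ℝ) : PS G R 1 (fun y => F (y 0)) = avS R F := by
  unfold PS avS av
  rw [sum_snoc]
  simp only [Finset.univ_unique, Finset.sum_singleton, pow_one]
  congr 1
  refine Finset.sum_congr rfl fun x _ => ?_
  have e : (Fin.snoc (α := fun _ => V) (default : Fin 0 → V) x : Fin 1 → V) = fun _ => x := by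
    funext i
    have : i = Fin.last 0 := by
      apply Fin.ext
      have := i.2
      simp only [Fin.val_last]
      omega
    rw [this, Fin.snoc_last]
  rw [e]
  by_cases hx : x ∈ R
  · rw [Set.indicator_of_mem hx]
    refine Set.indicator_of_mem ?_ _
    refine ⟨fun _ => hx, fun i j hij => ?_⟩
    have := i.2
    have := j.2
    omega
  · rw [Set.indicator_of_notMem hx]
    refine Set.indicator_of_notMem ?_ _
    intro h
    exact hx (h.1 0)

theorem key6 (S : Set V) (e : V → ℝ) : ∀ (p : ℕ) (f : V → ℝ),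
    PS G R (p + 1) (fun y => 2 ^ p * (e (y 0) * f (y (Fin.last p))) *
      S.indicator (fun _ => 1) (y (Fin.last p))) =
      avS S (fun x => al G R e (p + 1) x * al G R f 1 x) := by
  intro p
  induction p generalizing e with
  | zero =>
    intro f
    have h := PS_one (G := G) (R := R) (fun x => e x * f x * S.indicator (fun _ => 1) x)
    have e1 : (fun y : Fin 1 → V => 2 ^ 0 * (e (y 0) * f (y (Fin.last 0))) *
        S.indicator (fun _ => (1 : ℝ)) (y (Fin.last 0))) =
        fun y : Fin 1 → V => e (y 0) * f (y 0) * S.indicator (fun _ => 1) (y 0) := by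
      funext y
      simp
    change PS G R 1 (fun y : Fin 1 → V => 2 ^ 0 * (e (y 0) * f (y (Fin.last 0))) *
        S.indicator (fun _ => (1 : ℝ)) (y (Fin.last 0))) = _
    rw [e1, h]
    unfold avS
    congr 1
    funext x
    change _ = S.indicator (fun x => R.indicator e x * R.indicator f x) x
    by_cases hS : x ∈ S
    · by_cases hR : x ∈ R
      · simp [hS, hR]
      · simp [hS, hR]
    · simp [hS]
  | succ p ih =>
    intro f
    have h := PS_cons (G := G) (R := R) (m := p) (fun z => 2 ^ (p + 1) * (f (z (Fin.last p)) *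
      S.indicator (fun _ => 1) (z (Fin.last p)))) e
    have e1 : (fun y : Fin (p + 1 + 1) → V => 2 ^ (p + 1) *
        (e (y 0) * f (y (Fin.last (p + 1)))) *
        S.indicator (fun _ => (1 : ℝ)) (y (Fin.last (p + 1)))) =
        fun y : Fin (p + 2) → V => e (y 0) * (fun z : Fin (p + 1) → V => 2 ^ (p + 1) *
          (f (z (Fin.last p)) * S.indicator (fun _ => 1) (z (Fin.last p)))) (Fin.tail y) := by
      funext y
      simp only [Fin.tail, Fin.succ_last]
      ring
    rw [e1, h]
    have h2 := ih (T G R e) f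
    rw [al_T] at h2
    rw [← h2]
    congr 1
    funext y
    unfold T
    rw [pow_succ]
    ring

theorem key (S : Set V) (e : V → ℝ) (p : ℕ) : ∀ (q : ℕ) (f : V → ℝ),
    PS G R (p + q + 1) (fun y => 2 ^ (p + q) * (e (y 0) * f (y (Fin.last (p + q)))) *
      S.indicator (fun _ => 1) (y ⟨p, by omega⟩)) =
      avS S (fun x => al G R e (p + 1) x * al G R f (q + 1) x) := by
  intro q
  induction q with
  | zero =>
    intro f
    exact key6 S e p f
  | succ q ih =>
    intro f
    have h := PS_snoc (G := G) (R := R) (m := p + q) (fun z => 2 ^ (p + q + 1) * (e (z 0) *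
      S.indicator (fun _ => 1) (z ⟨p, by omega⟩))) f
    have e1 : (fun y : Fin (p + (q + 1) + 1) → V => 2 ^ (p + (q + 1)) *
        (e (y 0) * f (y (Fin.last (p + (q + 1))))) *
        S.indicator (fun _ => (1 : ℝ)) (y ⟨p, by omega⟩)) =
        fun y : Fin (p + q + 2) → V => (fun z : Fin (p + q + 1) → V => 2 ^ (p + q + 1) *
          (e (z 0) * S.indicator (fun _ => 1) (z ⟨p, by omega⟩))) (Fin.init y) *
          f (y (Fin.last (p + q + 1))) := by
      funext y
      simp only [Fin.init]
      change _ = 2 ^ (p + q + 1) * (e (y 0) * S.indicator (fun _ => (1 : ℝ)) (y ⟨p, by omega⟩)) *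
        f (y (Fin.last (p + q + 1)))
      change 2 ^ (p + q + 1) * (e (y 0) * f (y (Fin.last (p + q + 1)))) * _ = _
      ring
    change PS G R (p + q + 2) (fun y : Fin (p + (q + 1) + 1) → V => 2 ^ (p + (q + 1)) *
        (e (y 0) * f (y (Fin.last (p + (q + 1))))) *
        S.indicator (fun _ => (1 : ℝ)) (y ⟨p, by omega⟩)) = _
    rw [e1, h]
    have h2 := ih (T G R f)
    rw [al_T] at h2
    rw [← h2]
    congr 1
    funext y
    unfold T
    rw [pow_succ]
    ring

theorem key' (S : Set V) (e f : V → ℝ) {n p q : ℕ} (h : p + q = n) :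
    PS G R (n + 1) (fun y => 2 ^ n * (e (y 0) * f (y (Fin.last n))) *
      S.indicator (fun _ => 1) (y ⟨p, by omega⟩)) =
      avS S (fun x => al G R e (p + 1) x * al G R f (q + 1) x) := by
  subst h
  exact key S e p q f

theorem PS_sum {m : ℕ} {ι : Type} (s : Finset ι) (F : ι → (Fin m → V) → ℝ) :
    PS G R m (fun y => ∑ i ∈ s, F i y) = ∑ i ∈ s, PS G R m (F i) := by
  classical
  induction s using Finset.induction_on with
  | empty =>
    simp only [Finset.sum_empty]
    unfold PS
    simp
  | insert a s ha ih =>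
    simp only [Finset.sum_insert ha]
    rw [PS_add, ih]

theorem key78 (S : Set V) (e f : V → ℝ) (n : ℕ) :
    ∑ l ∈ Finset.Icc 1 (n + 1), avS S (fun x => al G R e l x * al G R f (n + 2 - l) x) =
      PS G R (n + 1) (fun y => 2 ^ n * (e (y 0) * f (y (Fin.last n))) * vis S y) := by
  have h1 : (fun y : Fin (n + 1) → V => 2 ^ n * (e (y 0) * f (y (Fin.last n))) * vis S y) =
      fun y => ∑ i : Fin (n + 1), 2 ^ n * (e (y 0) * f (y (Fin.last n))) *
        S.indicator (fun _ => (1 : ℝ)) (y i) := by
    funext y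
    unfold vis
    rw [Finset.mul_sum]
  rw [h1, PS_sum]
  have h2 : ∀ i : Fin (n + 1), PS G R (n + 1) (fun y => 2 ^ n * (e (y 0) * f (y (Fin.last n))) *
        S.indicator (fun _ => (1 : ℝ)) (y i)) =
        (fun l : ℕ => avS S (fun x => al G R e (l + 1) x * al G R f (n - l + 1) x)) (i : ℕ) := by
    intro i
    have := i.2
    exact key' (G := G) (R := R) S e f (n := n) (p := i) (q := n - i) (by omega)
  rw [Finset.sum_congr rfl fun i _ => h2 i, Fin.sum_univ_eq_sum_range
    (fun l : ℕ => avS S (fun x => al G R e (l + 1) x * al G R f (n - l + 1) x)) (n + 1)]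
  rw [← Finset.Ico_add_one_right_eq_Icc, Finset.sum_Ico_eq_sum_range]
  refine Finset.sum_congr (by simp) fun l hl => ?_
  have hl' : l < n + 1 := by simpa using hl
  have e1 : 1 + l = l + 1 := by omega
  have e2 : n + 2 - (1 + l) = n - l + 1 := by omega
  rw [e2, e1]

theorem al_notMem (e : V → ℝ) {x : V} (hx : x ∉ R) : ∀ m : ℕ, al G R e m x = 0
  | 0 => rfl
  | 1 => Set.indicator_of_notMem hx _
  | _ + 2 => Set.indicator_of_notMem hx _

theorem al_nonneg (e : V → ℝ) (he : ∀ x ∈ R, 0 ≤ e x) : ∀ (m : ℕ) (x : V), 0 ≤ al G R e m x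
  | 0, _ => le_rfl
  | 1, x => Set.indicator_nonneg he x
  | n + 2, x => by
    refine Set.indicator_nonneg (fun y _ => ?_) x
    have : 0 ≤ avS (G.neighborSet y ∩ R) (al G R e (n + 1)) :=
      avS_nonneg fun z _ => al_nonneg e he (n + 1) z
    positivity

theorem al_le (e : V → ℝ) (c : ℝ) (hc : 0 ≤ c) (he : ∀ x ∈ R, 0 ≤ e x ∧ e x ≤ c) :
    ∀ (m : ℕ) (x : V), al G R e (m + 1) x ≤ c * (2 * ms R) ^ m
  | 0, x => by
    rw [pow_zero, mul_one]
    exact Set.indicator_le' (fun y hy => (he y hy).2) (fun _ _ => hc) x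
  | n + 1, x => by
    have hm : 0 ≤ ms R := ms_nonneg R
    rw [al_succ]
    refine Set.indicator_le' (g := fun _ => c * (2 * ms R) ^ (n + 1)) (fun y _ => ?_)
      (fun _ _ => by positivity) x
    unfold T
    have h1 : avS (G.neighborSet y ∩ R) (al G R e (n + 1)) ≤
        c * (2 * ms R) ^ n * ms (G.neighborSet y ∩ R) :=
      avS_le_mul_ms fun z _ => al_le e c hc he n z
    have h2 : ms (G.neighborSet y ∩ R) ≤ ms R := ms_mono Set.inter_subset_right
    have h3 : c * (2 * ms R) ^ n * ms (G.neighborSet y ∩ R) ≤ c * (2 * ms R) ^ n * ms R :=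
      mul_le_mul_of_nonneg_left h2 (by positivity)
    rw [pow_succ]
    nlinarith

theorem al_rch (e : V → ℝ) (A : Set V) (he : ∀ x ∈ R, 0 ≤ e x)
    (hA : ∀ x ∈ R, 0 < e x → ∃ a ∈ A, G.Adj x a) :
    ∀ (m : ℕ) (x : V), al G R e m x ≠ 0 → Rch G R A m x
  | 0, _, h => (h rfl).elim
  | 1, x, h => by
    have hx : x ∈ R := Set.mem_of_indicator_ne_zero h
    have h' : e x ≠ 0 := by
      have := h
      change R.indicator e x ≠ 0 at this
      rwa [Set.indicator_of_mem hx] at this
    exact ⟨hx, hA x hx (lt_of_le_of_ne (he x hx) (Ne.symm h'))⟩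
  | n + 2, x, h => by
    have hx : x ∈ R := Set.mem_of_indicator_ne_zero h
    have h' : 2 * avS (G.neighborSet x ∩ R) (al G R e (n + 1)) ≠ 0 := by
      have := h
      change R.indicator (fun x => 2 * avS (G.neighborSet x ∩ R) (al G R e (n + 1))) x ≠ 0 at this
      rwa [Set.indicator_of_mem hx] at this
    have h2 : ∃ y ∈ G.neighborSet x ∩ R, al G R e (n + 1) y ≠ 0 := by
      by_contra hcon
      push Not at hcon
      apply h'
      rw [avS_congr (g := fun _ => 0) hcon, avS_const]
      ring
    obtain ⟨y, hy, hy2⟩ := h2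
    exact ⟨hx, y, al_rch e A he hA (n + 1) y hy2, (show G.Adj x y from hy.1).symm⟩

theorem al_aP (e : V → ℝ) (m : ℕ) {x : V} (hx : x ∈ R) :
    al G R e (m + 1) x = aP G R e m x := by
  classical
  have hN : (Fintype.card V : ℝ) ≠ 0 := card_ne ⟨x⟩
  have h := key6 (G := G) (R := R) {x} e m (fun _ => 1)
  rw [avS_singleton] at h
  have h1 : al G R (fun _ => 1) 1 x = 1 := Set.indicator_of_mem hx _
  rw [h1, mul_one] at h
  have h2 : al G R e (m + 1) x = (Fintype.card V : ℝ) * PS G R (m + 1) (fun y =>
      2 ^ m * (e (y 0) * 1) * ({x} : Set V).indicator (fun _ => 1) (y (Fin.last m))) := by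
    rw [h]
    field_simp
  rw [h2]
  unfold PS aP
  have h3 : ∑ y : Fin (m + 1) → V, {y | IsP G R y}.indicator (fun y =>
      2 ^ m * (e (y 0) * 1) * ({x} : Set V).indicator (fun _ => 1) (y (Fin.last m))) y =
      2 ^ m * ∑ y : Fin (m + 1) → V, {y | IsP G R y ∧ y (Fin.last m) = x}.indicator
        (fun y => e (y 0)) y := by
    rw [Finset.mul_sum]
    refine Finset.sum_congr rfl fun y _ => ?_
    by_cases hy : IsP G R y
    · by_cases hyx : y (Fin.last m) = x
      · rw [Set.indicator_of_mem (show y ∈ {y | IsP G R y} from hy), Set.indicator_of_mem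
          (show y ∈ {y | IsP G R y ∧ y (Fin.last m) = x} from ⟨hy, hyx⟩),
          Set.indicator_of_mem (show y (Fin.last m) ∈ ({x} : Set V) from hyx)]
        ring
      · rw [Set.indicator_of_mem (show y ∈ {y | IsP G R y} from hy), Set.indicator_of_notMem
          (show y ∉ {y | IsP G R y ∧ y (Fin.last m) = x} from fun h => hyx h.2),
          Set.indicator_of_notMem (show y (Fin.last m) ∉ ({x} : Set V) from hyx)]
        ring
    · rw [Set.indicator_of_notMem (show y ∉ {y | IsP G R y} from hy), Set.indicator_of_notMem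
          (show y ∉ {y | IsP G R y ∧ y (Fin.last m) = x} from fun h => hy h.1), mul_zero]
  rw [h3, pow_succ]
  field_simp

end ALP_

theorem alp_proof : Stmt_ALP := by
  intro V _ G R
  refine ⟨fun e m x hx => ALP_.al_aP e m hx, fun e m x hx => ALP_.al_notMem e hx m,
    fun e he m x => ALP_.al_nonneg e he m x, fun e c hc he m x => ALP_.al_le e c hc he m x,
    fun e A he hA m x h => ALP_.al_rch e A he hA m x h,
    fun e f S p q => (ALP_.key S e p q f).symm, fun t eA eB S => ?_, fun t e S => ?_⟩
  · exact ALP_.key78 S eB eA (2 * t)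
  · exact ALP_.key78 S e e (2 * t + 1)

end Pool.Agent.OCX
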