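import Pool.Agent.OCX.Stmts
import Pool.Agent.OCX.Lib

/-!
# The balancing step
-/

open scoped BigOperators

namespace Pool.Agent.OCX

namespace BAL_

theorem card_rest {k : ℕ} (i j : Fin (k + 2)) (hij : i ≠ j) :
    Fintype.card {r : Fin (k + 2) // r ≠ i ∧ r ≠ j} = k := by
  classical
  rw [Fintype.card_subtype]
  have h : (Finset.univ.filter fun r : Fin (k + 2) => r ≠ i ∧ r ≠ j) =
      ({i, j} : Finset (Fin (k + 2)))ᶜ := by
    ext r
    simp only [Finset.mem_filter, Finset.mem_univ, true_and, Finset.mem_compl, Finset.mem_insert,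
      Finset.mem_singleton, not_or]
  rw [h, Finset.card_compl, Finset.card_pair hij, Fintype.card_fin]
  omega

/-- number of functions with two prescribed values in `P` -/
theorem pair_card {n k : ℕ} (i j : Fin (k + 2)) (hij : i ≠ j) (P : Set (Fin n × Fin n)) :
    {y : Fin (k + 2) → Fin n | (y i, y j) ∈ P}.ncard ≤ P.ncard * n ^ k := by
  classical
  have h1 : (P ×ˢ (Set.univ : Set ({r : Fin (k + 2) // r ≠ i ∧ r ≠ j} → Fin n))).ncard =
      P.ncard * n ^ k := by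
    rw [Set.ncard_prod, Set.ncard_univ, Nat.card_eq_fintype_card, Fintype.card_fun,
      Fintype.card_fin, card_rest i j hij]
  rw [← h1]
  apply Set.ncard_le_ncard_of_injOn (fun y => ((y i, y j), fun r => y r.1))
  · intro y hy
    exact ⟨hy, Set.mem_univ _⟩
  · intro y _ z _ hyz
    simp only [Prod.mk.injEq] at hyz
    obtain ⟨⟨h1, h2⟩, h3⟩ := hyz
    funext r
    by_cases hr : r = i
    · rw [hr, h1]
    · by_cases hr' : r = j
      · rw [hr', h2]
      · exact congrFun h3 ⟨r, hr, hr'⟩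

/-- deleting few edges -/
theorem cwn_edge {n m : ℕ} (G H : SimpleGraph (Fin n)) :
    cwn G (m + 3) ≤ cwn H (m + 3) +
      (m + 3) ^ 2 * ({p : Fin n × Fin n | G.Adj p.1 p.2 ∧ ¬ H.Adj p.1 p.2}.ncard * n ^ (m + 1)) := by
  classical
  unfold cwn
  have hsub : cws G (m + 3) ⊆ cws H (m + 3) ∪
      ⋃ q ∈ (Finset.univ : Finset (Fin (m + 3) × Fin (m + 3))),
        {y : Fin (m + 3) → Fin n | q.1 ≠ q.2 ∧ (y q.1, y q.2) ∈
          {p : Fin n × Fin n | G.Adj p.1 p.2 ∧ ¬ H.Adj p.1 p.2}} := by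
    intro y hy
    by_cases hH : y ∈ cws H (m + 3)
    · exact Or.inl hH
    · right
      unfold cws at hH
      simp only [Set.mem_ofPred_eq, not_forall] at hH
      obtain ⟨i, j, hij, hn⟩ := hH
      simp only [Set.mem_iUnion]
      exact ⟨(i, j), Finset.mem_univ _, hij.ne, hy i j hij, hn⟩
  refine le_trans (Set.ncard_le_ncard hsub) (le_trans (Set.ncard_union_le _ _) ?_)
  refine Nat.add_le_add_left (le_trans (Finset.set_ncard_biUnion_le _ _) ?_) _
  have hb : ∀ q ∈ (Finset.univ : Finset (Fin (m + 3) × Fin (m + 3))),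
      {y : Fin (m + 3) → Fin n | q.1 ≠ q.2 ∧ (y q.1, y q.2) ∈
          {p : Fin n × Fin n | G.Adj p.1 p.2 ∧ ¬ H.Adj p.1 p.2}}.ncard ≤
      {p : Fin n × Fin n | G.Adj p.1 p.2 ∧ ¬ H.Adj p.1 p.2}.ncard * n ^ (m + 1) := by
    intro q _
    by_cases hq : q.1 = q.2
    · have : {y : Fin (m + 3) → Fin n | q.1 ≠ q.2 ∧ (y q.1, y q.2) ∈
          {p : Fin n × Fin n | G.Adj p.1 p.2 ∧ ¬ H.Adj p.1 p.2}} = ∅ := by
        ext y
        simp [hq]
      rw [this, Set.ncard_empty]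
      exact Nat.zero_le _
    · refine le_trans (Set.ncard_le_ncard (t := {y : Fin (m + 3) → Fin n | (y q.1, y q.2) ∈
          {p : Fin n × Fin n | G.Adj p.1 p.2 ∧ ¬ H.Adj p.1 p.2}}) ?_) ?_
      · intro y hy
        exact hy.2
      · exact pair_card (k := m + 1) q.1 q.2 hq _
  refine le_trans (Finset.sum_le_card_nsmul _ _ _ hb) ?_
  rw [Finset.card_univ, Fintype.card_prod, Fintype.card_fin, smul_eq_mul, sq]

/-- fibres of the starting vertex -/
theorem sum_cwx {V : Type} [Fintype V] (G : SimpleGraph V) (m : ℕ) :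
    ∑ x, cwx G (m + 3) x = cwn G (m + 3) := by
  classical
  unfold cwn cwx
  have h : cws G (m + 3) = ⋃ x : V, {y : Fin (m + 3) → V | y ∈ cws G (m + 3) ∧
      ∀ i : Fin (m + 3), (i : ℕ) = 0 → y i = x} := by
    ext y
    simp only [Set.mem_iUnion, Set.mem_ofPred_eq]
    constructor
    · intro hy
      refine ⟨y 0, hy, ?_⟩
      intro i hi
      have : i = 0 := Fin.ext hi
      rw [this]
    · rintro ⟨x, hy, -⟩
      exact hy
  conv_rhs => rw [h]
  rw [Set.ncard_iUnion_of_finite (fun x => Set.toFinite _)]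
  · rw [finsum_eq_sum_of_fintype]
  · intro x x' hxx'
    rw [Function.onFun, Set.disjoint_left]
    rintro y ⟨-, h1⟩ ⟨-, h2⟩
    exact hxx' ((h1 0 rfl).symm.trans (h2 0 rfl))

/-- induced subgraphs -/
theorem cwx_comap_le {n m : ℕ} (H : SimpleGraph (Fin n)) (S : Finset (Fin n)) (x : {x // x ∈ S}) :
    cwx (H.comap (Subtype.val : {x // x ∈ S} → Fin n)) (m + 3) x ≤ cwx H (m + 3) x.1 := by
  unfold cwx
  apply Set.ncard_le_ncard_of_injOn (fun y i => (y i).1)
  · rintro y ⟨h1, h2⟩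
    refine ⟨fun i j hij => h1 i j hij, ?_⟩
    intro i hi
    show (y i).1 = x.1
    rw [h2 i hi]
  · intro y _ z _ hyz
    funext i
    exact Subtype.ext (congrFun hyz i)

theorem cwx_comap_ge {n m : ℕ} (H : SimpleGraph (Fin n)) (S : Finset (Fin n)) (x : {x // x ∈ S}) :
    cwx H (m + 3) x.1 ≤ cwx (H.comap (Subtype.val : {x // x ∈ S} → Fin n)) (m + 3) x +
      (m + 3) * (Sᶜ.card * n ^ (m + 1)) := by
  classical
  unfold cwx
  have hsub : {y : Fin (m + 3) → Fin n | y ∈ cws H (m + 3) ∧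
      ∀ i : Fin (m + 3), (i : ℕ) = 0 → y i = x.1} ⊆
      ((fun (y : Fin (m + 3) → {x // x ∈ S}) i => (y i).1) ''
        {y : Fin (m + 3) → {x // x ∈ S} |
          y ∈ cws (H.comap (Subtype.val : {x // x ∈ S} → Fin n)) (m + 3) ∧
          ∀ i : Fin (m + 3), (i : ℕ) = 0 → y i = x}) ∪
      ⋃ i ∈ (Finset.univ : Finset (Fin (m + 3))),
        {y : Fin (m + 3) → Fin n | i ≠ 0 ∧ (y 0, y i) ∈
          (({x.1} : Set (Fin n)) ×ˢ ((Sᶜ : Finset (Fin n)) : Set (Fin n)))} := by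
    rintro y ⟨h1, h2⟩
    by_cases hS : ∀ i, y i ∈ S
    · left
      refine ⟨fun i => ⟨y i, hS i⟩, ⟨fun i j hij => h1 i j hij, ?_⟩, rfl⟩
      intro i hi
      exact Subtype.ext (h2 i hi)
    · right
      push Not at hS
      obtain ⟨i, hi⟩ := hS
      simp only [Set.mem_iUnion]
      refine ⟨i, Finset.mem_univ _, ?_, ?_⟩
      · intro h0
        apply hi
        rw [h2 i (by rw [h0]; rfl)]
        exact x.2
      · refine ⟨?_, ?_⟩
        · exact h2 0 rfl
        · show y i ∈ ((Sᶜ : Finset (Fin n)) : Set (Fin n))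
          rw [Finset.mem_coe, Finset.mem_compl]
          exact hi
  refine le_trans (Set.ncard_le_ncard hsub) (le_trans (Set.ncard_union_le _ _) ?_)
  refine Nat.add_le_add (Set.ncard_image_le) (le_trans (Finset.set_ncard_biUnion_le _ _) ?_)
  have hb : ∀ i ∈ (Finset.univ : Finset (Fin (m + 3))),
      {y : Fin (m + 3) → Fin n | i ≠ 0 ∧ (y 0, y i) ∈
          (({x.1} : Set (Fin n)) ×ˢ ((Sᶜ : Finset (Fin n)) : Set (Fin n)))}.ncard ≤
      Sᶜ.card * n ^ (m + 1) := by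
    intro i _
    by_cases hq : i = 0
    · have : {y : Fin (m + 3) → Fin n | i ≠ 0 ∧ (y 0, y i) ∈
          (({x.1} : Set (Fin n)) ×ˢ ((Sᶜ : Finset (Fin n)) : Set (Fin n)))} = ∅ := by
        ext y
        simp [hq]
      rw [this, Set.ncard_empty]
      exact Nat.zero_le _
    · refine le_trans (Set.ncard_le_ncard (t := {y : Fin (m + 3) → Fin n | (y 0, y i) ∈
          (({x.1} : Set (Fin n)) ×ˢ ((Sᶜ : Finset (Fin n)) : Set (Fin n)))}) ?_) ?_
      · intro y hy
        exact hy.2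
      · refine le_trans (pair_card (k := m + 1) 0 i (Ne.symm hq) _) ?_
        rw [Set.ncard_prod, Set.ncard_singleton, Set.ncard_coe_finset, one_mul]
  refine le_trans (Finset.sum_le_card_nsmul _ _ _ hb) ?_
  rw [Finset.card_univ, Fintype.card_fin, smul_eq_mul]

theorem cwn_comap_ge {n m : ℕ} (H : SimpleGraph (Fin n)) (S : Finset (Fin n)) :
    cwn H (m + 3) ≤ cwn (H.comap (Subtype.val : {x // x ∈ S} → Fin n)) (m + 3) +
      (m + 3) * (Sᶜ.card * n * n ^ (m + 1)) := by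
  classical
  unfold cwn
  have hsub : cws H (m + 3) ⊆
      ((fun (y : Fin (m + 3) → {x // x ∈ S}) i => (y i).1) ''
          cws (H.comap (Subtype.val : {x // x ∈ S} → Fin n)) (m + 3)) ∪
      ⋃ i ∈ (Finset.univ : Finset (Fin (m + 3))),
        {y : Fin (m + 3) → Fin n | (y i, y (if i = 0 then 1 else 0)) ∈
          (((Sᶜ : Finset (Fin n)) : Set (Fin n)) ×ˢ (Set.univ : Set (Fin n)))} := by
    intro y h1
    by_cases hS : ∀ i, y i ∈ S
    · left
      exact ⟨fun i => ⟨y i, hS i⟩, fun i j hij => h1 i j hij, rfl⟩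
    · right
      push Not at hS
      obtain ⟨i, hi⟩ := hS
      simp only [Set.mem_iUnion]
      refine ⟨i, Finset.mem_univ _, ?_, Set.mem_univ _⟩
      show y i ∈ ((Sᶜ : Finset (Fin n)) : Set (Fin n))
      rw [Finset.mem_coe, Finset.mem_compl]
      exact hi
  refine le_trans (Set.ncard_le_ncard hsub) (le_trans (Set.ncard_union_le _ _) ?_)
  refine Nat.add_le_add (Set.ncard_image_le) (le_trans (Finset.set_ncard_biUnion_le _ _) ?_)
  have hb : ∀ i ∈ (Finset.univ : Finset (Fin (m + 3))),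
      {y : Fin (m + 3) → Fin n | (y i, y (if i = 0 then 1 else 0)) ∈
          (((Sᶜ : Finset (Fin n)) : Set (Fin n)) ×ˢ (Set.univ : Set (Fin n)))}.ncard ≤
      Sᶜ.card * n * n ^ (m + 1) := by
    intro i _
    refine le_trans (pair_card (k := m + 1) i (if i = 0 then 1 else 0) ?_ _) ?_
    · by_cases hi : i = 0
      · rw [if_pos hi, hi]
        exact Fin.ne_of_val_ne (by simp)
      · rw [if_neg hi]
        exact hi
    · rw [Set.ncard_prod, Set.ncard_coe_finset, Set.ncard_univ, Nat.card_eq_fintype_card,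
        Fintype.card_fin]
  refine le_trans (Finset.sum_le_card_nsmul _ _ _ hb) ?_
  rw [Finset.card_univ, Fintype.card_fin, smul_eq_mul]

/-- the `s` smallest values -/
theorem exists_small {n : ℕ} (c : Fin n → ℕ) : ∀ s : ℕ, s ≤ n →
    ∃ L : Finset (Fin n), L.card = s ∧ ∀ z ∈ L, ∀ x, x ∉ L → c z ≤ c x := by
  intro s
  induction s with
  | zero =>
    intro _
    exact ⟨∅, rfl, fun z hz => absurd hz (Finset.notMem_empty _)⟩
  | succ s ih =>
    intro hs
    obtain ⟨L, hL, hc⟩ := ih (by omega)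
    have hne : (Lᶜ).Nonempty := by
      rw [← Finset.card_pos, Finset.card_compl, Fintype.card_fin]
      omega
    obtain ⟨x0, hx0, hmin⟩ := Finset.exists_min_image Lᶜ c hne
    rw [Finset.mem_compl] at hx0
    refine ⟨insert x0 L, by rw [Finset.card_insert_of_notMem hx0, hL], ?_⟩
    intro z hz x hx
    rw [Finset.mem_insert, not_or] at hx
    rcases Finset.mem_insert.mp hz with h | h
    · rw [h]
      exact hmin x (Finset.mem_compl.mpr hx.2)
    · exact hc z h x hx.2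

/-- values in an interval -/
theorem av_near {V : Type} [Fintype V] [Nonempty V] (f : V → ℝ) (a b ε : ℝ)
    (h1 : ∀ x, a ≤ f x) (h2 : ∀ x, f x ≤ b) (h : b - a ≤ ε) (x : V) : |f x - av f| ≤ ε := by
  have h3 : a ≤ av f := by
    have := av_mono (V := V) (f := fun _ => a) (g := f) h1
    rwa [av_const] at this
  have h4 : av f ≤ b := by
    have := av_mono (V := V) (f := f) (g := fun _ => b) h2
    rwa [av_const] at this
  rw [abs_le]
  constructor <;> linarith [h1 x, h2 x]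

end BAL_

open BAL_ in
theorem bal_proof (h1 : Stmt_BLA) (h2 : Stmt_INJ) (h3 : Stmt_REM) (h4 : Stmt_ODD)
    (h5 : Stmt_TRC) : Stmt_BAL := by
  classical
  intro t k ε hk hε
  obtain ⟨m, rfl⟩ : ∃ m, k = m + 3 := ⟨k - 3, by omega⟩
  obtain ⟨e, he⟩ : ∃ e : ℝ, e = min ε 1 := ⟨_, rfl⟩
  have he0 : 0 < e := by rw [he]; exact lt_min hε one_pos
  have he1 : e ≤ 1 := by rw [he]; exact min_le_right _ _
  have heε : e ≤ ε := by rw [he]; exact min_le_left _ _
  obtain ⟨kR, hkR⟩ : ∃ kR : ℝ, kR = ((m + 3 : ℕ) : ℝ) := ⟨_, rfl⟩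
  have hkR3 : 3 ≤ kR := by
    rw [hkR]
    push_cast
    linarith [Nat.cast_nonneg (α := ℝ) m]
  obtain ⟨w, hw⟩ : ∃ w : ℝ, w = e / (8 * 2 ^ (m + 3)) := ⟨_, rfl⟩
  have h2p : (1 : ℝ) ≤ 2 ^ (m + 3) := one_le_pow₀ (by norm_num)
  have hw0 : 0 < w := by rw [hw]; positivity
  have hwe : w ≤ e / 8 := by
    rw [hw]
    apply div_le_div_of_nonneg_left he0.le (by norm_num)
    linarith
  obtain ⟨σ, hσ⟩ : ∃ σ : ℝ, σ = w / kR := ⟨_, rfl⟩
  have hσ0 : 0 < σ := by rw [hσ]; positivity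
  have hkσ : kR * σ = w := by rw [hσ]; field_simp
  have hσw : σ ≤ w := by nlinarith
  have hσ8 : σ ≤ 1 / 8 := by linarith
  obtain ⟨n1, hn1⟩ := h3 t (σ ^ 2) (by positivity)
  refine ⟨max n1 (⌈1 / σ ^ 2⌉₊ + 1), ?_⟩
  intro n hn G hG
  have hn' : n1 ≤ n := le_trans (le_max_left _ _) hn
  have hnσ : 1 / σ ^ 2 ≤ (n : ℝ) := by
    have : ⌈1 / σ ^ 2⌉₊ ≤ n := by
      have := le_trans (le_max_right n1 (⌈1 / σ ^ 2⌉₊ + 1)) hn
      omega
    exact le_trans (Nat.le_ceil _) (by exact_mod_cast this)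
  have hnσ1 : 1 ≤ (n : ℝ) * σ ^ 2 := by
    rw [div_le_iff₀ (by positivity)] at hnσ
    exact hnσ
  have hn0 : (0 : ℝ) < n := by
    by_contra hcon
    push Not at hcon
    nlinarith [sq_nonneg σ]
  obtain ⟨H, hHG, hHo, hHe⟩ := hn1 n hn' G hG.1
  obtain ⟨s, hs⟩ : ∃ s : ℕ, s = ⌊σ * n⌋₊ := ⟨_, rfl⟩
  have hs1 : (s : ℝ) ≤ σ * n := by
    rw [hs]
    exact Nat.floor_le (by positivity)
  have hs2 : σ * n < (s : ℝ) + 1 := by
    rw [hs]
    exact Nat.lt_floor_add_one _
  have hσn : 8 ≤ σ * n := by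
    have h8 : 1 ≤ (σ * n) * σ := by linarith [hnσ1, show (σ * n) * σ = (n : ℝ) * σ ^ 2 by ring]
    nlinarith
  have hs3 : σ * n / 2 ≤ (s : ℝ) := by linarith
  have hs0 : (0 : ℝ) < s := by linarith
  have hsn : (s : ℝ) ≤ n / 8 := by nlinarith
  have hsnN : s ≤ n := by
    have : (s : ℝ) ≤ n := by linarith
    exact_mod_cast this
  obtain ⟨L, hLs, hLc⟩ := exists_small (fun z => cwx H (m + 3) z) s hsnN
  obtain ⟨T, hT⟩ : ∃ T : ℝ, T = ∑ z ∈ L, (cwx H (m + 3) z : ℝ) := ⟨_, rfl⟩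
  obtain ⟨B, hB⟩ : ∃ B : ℕ, B = {p : Fin n × Fin n | G.Adj p.1 p.2 ∧ ¬ H.Adj p.1 p.2}.ncard :=
    ⟨_, rfl⟩
  have hBle : (B : ℝ) ≤ σ ^ 2 * n ^ 2 := by
    rw [hB]
    exact hHe
  have hedge : (cwn G (m + 3) : ℝ) ≤ cwn H (m + 3) + kR ^ 2 * (B * (n : ℝ) ^ (m + 1)) := by
    have := cwn_edge (m := m) G H
    rw [← hB] at this
    rw [hkR]
    exact_mod_cast this
  obtain ⟨P, hP⟩ : ∃ P : ℝ, P = (n : ℝ) ^ (m + 1) := ⟨_, rfl⟩
  have hP0 : 0 < P := by rw [hP]; positivity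
  have hP2 : (n : ℝ) ^ (m + 2) = n * P := by rw [hP, pow_succ]; ring
  have hP3 : (n : ℝ) ^ (m + 3) = n ^ 2 * P := by rw [hP]; ring
  rw [← hP] at hedge
  -- comparison with other graphs
  have hcomp : ∀ G' : SimpleGraph (Fin n), Fr (2 * t + 3) G' →
      (cwn G' (m + 3) : ℝ) ≤ cwn H (m + 3) + kR ^ 2 * (B * P) + kR ^ 2 * (n * P) := by
    intro G' hG'
    have a1 := (h2 (Fin n) G' (m + 3) (by omega)).2
    have a2 := hG.2 G' hG'
    have a3 := (h2 (Fin n) G (m + 3) (by omega)).1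
    rw [Fintype.card_fin] at a1
    have a4 : cwn G' (m + 3) ≤ cwn G (m + 3) + (m + 3) ^ 2 * n ^ (m + 2) := by
      have : (m + 3 - 1) = m + 2 := by omega
      rw [this] at a1
      omega
    have a5 : (cwn G' (m + 3) : ℝ) ≤ cwn G (m + 3) + kR ^ 2 * (n : ℝ) ^ (m + 2) := by
      rw [hkR]
      exact_mod_cast a4
    rw [hP2] at a5
    linarith
  have hBP : kR ^ 2 * (B * P) ≤ w ^ 2 * (n ^ 2 * P) := by
    have : kR ^ 2 * (B * P) ≤ kR ^ 2 * ((σ ^ 2 * n ^ 2) * P) := by gcongr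
    have h' : kR ^ 2 * ((σ ^ 2 * (n : ℝ) ^ 2) * P) = w ^ 2 * (n ^ 2 * P) := by
      rw [← hkσ]
      ring
    linarith
  have hnP : kR ^ 2 * (n * P) ≤ w ^ 2 * (n ^ 2 * P) := by
    have h6 : (n : ℝ) * P ≤ (n * P) * (n * σ ^ 2) := by
      have : 0 < (n : ℝ) * P := by positivity
      nlinarith
    have : kR ^ 2 * (n * P) ≤ kR ^ 2 * ((n * P) * (n * σ ^ 2)) := by gcongr
    have h' : kR ^ 2 * ((n * P) * (n * σ ^ 2)) = w ^ 2 * (n ^ 2 * P) := by
      rw [← hkσ]
      ring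
    linarith
  -- cloning
  have hclone : ∀ x : Fin n, kR * s * (cwx H (m + 3) x : ℝ) ≤
      kR * T + 2 * (w ^ 2 * (n ^ 2 * P)) + kR ^ 2 * s ^ 2 * P := by
    intro x
    have b1 := h1 n (m + 3) H L x (by omega)
    have b2 := hcomp (H.comap fun y => if y ∈ L then x else y)
      ((h4 t).2.1 (Fin n) _ ((h4 t).2.2 (Fin n) (Fin n) H _ hHo))
    have e1 : (m + 3 - 2) = m + 1 := by omega
    rw [e1, hLs] at b1
    have b3 : (cwn H (m + 3) : ℝ) + kR * s * (cwx H (m + 3) x : ℝ) ≤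
        (cwn (H.comap fun y => if y ∈ L then x else y) (m + 3) : ℝ) + kR * T +
          kR ^ 2 * (s : ℝ) ^ 2 * P := by
      rw [hkR, hT, hP]
      exact_mod_cast b1
    linarith
  have hT0 : 0 ≤ T := by
    rw [hT]
    exact Finset.sum_nonneg fun z _ => Nat.cast_nonneg _
  have hup : ∀ x : Fin n, (cwx H (m + 3) x : ℝ) ≤ T / s + 5 * (w * (n * P)) := by
    intro x
    have c1 := hclone x
    have hks : 0 < kR * s := by positivity
    have c2 : 2 * (w ^ 2 * (n ^ 2 * P)) ≤ kR * s * (4 * (w * (n * P))) := by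
      have : w * n ≤ 2 * (kR * s) := by
        have : kR * (σ * n / 2) ≤ kR * s := by gcongr
        have h' : kR * (σ * n / 2) = w * n / 2 := by rw [← hkσ]; ring
        linarith
      have h'' : 2 * (w ^ 2 * (n ^ 2 * P)) = (w * n) * (2 * (w * (n * P))) := by ring
      have h3' : (w * n) * (2 * (w * (n * P))) ≤ (2 * (kR * s)) * (2 * (w * (n * P))) := by
        gcongr
      linarith [show (2 * (kR * s)) * (2 * (w * (n * P))) = kR * s * (4 * (w * (n * P))) by ring]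
    have c3 : kR ^ 2 * s ^ 2 * P ≤ kR * s * (w * (n * P)) := by
      have : kR * s ≤ w * n := by
        have : kR * s ≤ kR * (σ * n) := by gcongr
        linarith [show kR * (σ * n) = w * n by rw [← hkσ]; ring]
      have h'' : kR ^ 2 * s ^ 2 * P = (kR * s) * ((kR * s) * P) := by ring
      have h3' : (kR * s) * ((kR * s) * P) ≤ (kR * s) * ((w * n) * P) := by gcongr
      linarith [show (kR * s) * ((w * n) * P) = kR * s * (w * (n * P)) by ring]
    have c4 : kR * T = kR * s * (T / s) := by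
      field_simp
    have c5 : kR * s * (cwx H (m + 3) x : ℝ) ≤ kR * s * (T / s + 5 * (w * (n * P))) := by
      linarith [show kR * s * (T / s + 5 * (w * (n * P))) =
        kR * s * (T / s) + kR * s * (4 * (w * (n * P))) + kR * s * (w * (n * P)) by ring]
    exact le_of_mul_le_mul_left c5 hks
  have hlow : ∀ x : Fin n, x ∉ L → T / s ≤ (cwx H (m + 3) x : ℝ) := by
    intro x hx
    rw [div_le_iff₀ hs0, hT]
    have : ∑ z ∈ L, (cwx H (m + 3) z : ℝ) ≤ ∑ _z ∈ L, (cwx H (m + 3) x : ℝ) :=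
      Finset.sum_le_sum fun z hz => by exact_mod_cast hLc z hz x hx
    rw [Finset.sum_const, hLs, nsmul_eq_mul] at this
    linarith
  have hcc : (Lᶜ : Finset (Fin n)).card = n - s := by
    rw [Finset.card_compl, hLs, Fintype.card_fin]
  have hccR : ((Lᶜ : Finset (Fin n)).card : ℝ) = n - s := by
    rw [hcc, Nat.cast_sub hsnN]
  have hne : (Lᶜ : Finset (Fin n)).Nonempty := by
    rw [← Finset.card_pos]
    have : (0 : ℝ) < ((Lᶜ : Finset (Fin n)).card : ℝ) := by
      rw [hccR]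
      linarith
    exact_mod_cast this
  haveI : Nonempty {x // x ∈ Lᶜ} := ⟨⟨hne.choose, hne.choose_spec⟩⟩
  obtain ⟨Sc, hSc⟩ : ∃ Sc : ℝ, Sc = (Fintype.card {x // x ∈ Lᶜ} : ℝ) := ⟨_, rfl⟩
  have hScv : Sc = n - s := by
    rw [hSc, Fintype.card_coe, hccR]
  have hSc0 : 0 < Sc := by rw [hScv]; linarith
  have hScn : Sc ≤ n := by rw [hScv]; linarith
  have hSch : n / 2 ≤ Sc := by rw [hScv]; linarith
  obtain ⟨D, hD⟩ : ∃ D : ℝ, D = Sc ^ (m + 2) := ⟨_, rfl⟩
  have hD0 : 0 < D := by rw [hD]; positivity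
  have htr : ∀ x : {x // x ∈ Lᶜ},
      hh (H.comap (Subtype.val : {x // x ∈ Lᶜ} → Fin n)) (m + 3) x =
        (cwx (H.comap (Subtype.val : {x // x ∈ Lᶜ} → Fin n)) (m + 3) x : ℝ) / D := by
    intro x
    have := h5 {x // x ∈ Lᶜ} (H.comap (Subtype.val : {x // x ∈ Lᶜ} → Fin n)) (m + 3) x (by omega)
    have e1 : (m + 3 - 1) = m + 2 := by omega
    rw [e1, ← hSc, ← hD] at this
    rw [eq_div_iff hD0.ne']
    exact this
  have hav : av (hh (H.comap (Subtype.val : {x // x ∈ Lᶜ} → Fin n)) (m + 3)) =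
      (cwn (H.comap (Subtype.val : {x // x ∈ Lᶜ} → Fin n)) (m + 3) : ℝ) / Sc ^ (m + 3) := by
    unfold av
    rw [Finset.sum_congr rfl (fun x _ => htr x), ← Finset.sum_div, ← sum_cwx, ← hSc, hD,
      div_div, ← pow_succ]
    push_cast
    rfl
  have hcl : (Lᶜ : Finset (Fin n))ᶜ.card = s := by rw [compl_compl, hLs]
  refine ⟨Lᶜ, H, hHG, ?_, ?_, hne, hHo, ?_, ?_⟩
  · rw [hccR]
    nlinarith
  · have hσε : σ ^ 2 ≤ ε := by nlinarith
    refine le_trans hHe ?_
    gcongr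
  · have hE : 6 * (w * (n * P)) ≤ ε * D := by
      have d1 : ((n : ℝ) / 2) ^ (m + 2) ≤ D := by
        rw [hD]
        gcongr
      rw [div_pow, hP2] at d1
      have d2 : w * (n * P) = e / 16 * ((n * P) / 2 ^ (m + 2)) := by
        rw [hw, pow_succ (2 : ℝ) (m + 2)]
        field_simp
        ring
      rw [d2]
      have d3 : 0 ≤ (n * P) / 2 ^ (m + 2) := by positivity
      nlinarith
    apply av_near _ ((T / s - w * (n * P)) / D) ((T / s + 5 * (w * (n * P))) / D)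
    · intro x
      rw [htr x]
      apply div_le_div_of_nonneg_right _ hD0.le
      have f1 := hlow x.1 (Finset.mem_compl.mp x.2)
      have f2 := cwx_comap_ge (m := m) H Lᶜ x
      rw [hcl] at f2
      have f3 : (cwx H (m + 3) x.1 : ℝ) ≤
          (cwx (H.comap (Subtype.val : {x // x ∈ Lᶜ} → Fin n)) (m + 3) x : ℝ) +
            kR * (s * P) := by
        rw [hkR, hP]
        exact_mod_cast f2
      have f4 : kR * (s * P) ≤ w * (n * P) := by
        have : kR * (s * P) ≤ kR * ((σ * n) * P) := by gcongr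
        linarith [show kR * ((σ * n) * P) = w * (n * P) by rw [← hkσ]; ring]
      linarith
    · intro x
      rw [htr x]
      apply div_le_div_of_nonneg_right _ hD0.le
      have f1 := hup x.1
      have f2 := cwx_comap_le (m := m) H Lᶜ x
      have f3 : (cwx (H.comap (Subtype.val : {x // x ∈ Lᶜ} → Fin n)) (m + 3) x : ℝ) ≤
          (cwx H (m + 3) x.1 : ℝ) := by exact_mod_cast f2
      linarith
    · rw [← sub_div, div_le_iff₀ hD0]
      linarith
  · intro G' hG'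
    have g1 := hcomp G' hG'
    have g2 := cwn_comap_ge (m := m) H Lᶜ
    rw [hcl] at g2
    have g3 : (cwn H (m + 3) : ℝ) ≤
        (cwn (H.comap (Subtype.val : {x // x ∈ Lᶜ} → Fin n)) (m + 3) : ℝ) +
          kR * (s * n * P) := by
      rw [hkR, hP]
      exact_mod_cast g2
    have g4 : kR * (s * n * P) ≤ w * (n ^ 2 * P) := by
      have : kR * (s * n * P) ≤ kR * ((σ * n) * n * P) := by gcongr
      linarith [show kR * ((σ * n) * n * P) = w * (n ^ 2 * P) by rw [← hkσ]; ring]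
    rw [hav]
    have hn3 : (0 : ℝ) < (n : ℝ) ^ (m + 3) := by positivity
    have g5 : (cwn (H.comap (Subtype.val : {x // x ∈ Lᶜ} → Fin n)) (m + 3) : ℝ) /
        (n : ℝ) ^ (m + 3) ≤
        (cwn (H.comap (Subtype.val : {x // x ∈ Lᶜ} → Fin n)) (m + 3) : ℝ) / Sc ^ (m + 3) := by
      apply div_le_div_of_nonneg_left (Nat.cast_nonneg _) (by positivity)
      gcongr
    refine le_trans ?_ g5
    rw [sub_le_iff_le_add, div_le_iff₀ hn3, add_mul, div_mul_cancel₀ _ hn3.ne', hP3]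
    have hnn : 0 < (n : ℝ) ^ 2 * P := by positivity
    have g6 : w + 2 * w ^ 2 ≤ ε := by nlinarith
    nlinarith

end Pool.Agent.OCX
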