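import Pool.Agent.OCX.Stmts
import Pool.Agent.OCX.Lib

/-!
# BAS: first consequences of the amplitude system
-/

open scoped BigOperators

namespace Pool.Agent.OCX

theorem BAS_log (t : ℕ) (c : ℝ) (hc : 0 < c) :
    ∃ k0 : ℕ, ∀ k : ℕ, k0 ≤ k → (t + 1) * Real.log k / k ≤ c := by
  have h := (Real.tendsto_pow_log_div_mul_add_atTop 1 0 1 one_ne_zero).comp
    tendsto_natCast_atTop_atTop
  have hc' : 0 < c / (t + 1) := div_pos hc (by positivity)
  have h2 := h.eventually (gt_mem_nhds hc')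
  obtain ⟨k0, hk⟩ := Filter.eventually_atTop.1 h2
  refine ⟨k0, fun k hk0 => ?_⟩
  have h3 := hk k hk0
  simp only [Function.comp_apply, pow_one, one_mul, add_zero] at h3
  have ht : (0 : ℝ) < (t : ℝ) + 1 := by positivity
  rw [lt_div_iff₀ ht] at h3
  calc ((t : ℝ) + 1) * Real.log k / k = Real.log k / k * (t + 1) := by ring
    _ ≤ c := h3.le

/-- working hypotheses -/
structure BAS_H {V : Type} [Fintype V] (t k : ℕ) (κ ξ : ℝ) (G : SimpleGraph V) (ν γ δ : ℝ)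
    (u v : V → ℝ) : Prop where
  sys : Sys t k ξ G ν γ δ u v
  b1 : Bas1 t k κ ν γ δ u v
  p0 : 0 < κ
  p1 : κ ≤ 1 / 20
  kk : 10 ≤ k
  sm : 1 / 2 - (ν + γ) + ms (cR κ u v) ≤ (κ / 1000) ^ 2

section

variable {V : Type} [Fintype V] {t k : ℕ} {κ ξ : ℝ} {G : SimpleGraph V} {ν γ δ : ℝ}
    {u v : V → ℝ}

theorem BAS_H.swap (h : BAS_H t k κ ξ G ν γ δ u v) : BAS_H t k κ ξ G ν γ δ v u where
  sys := h.sys.swap
  b1 := h.b1.swap
  p0 := h.p0
  p1 := h.p1
  kk := h.kk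
  sm := by
    rw [cR_comm]
    exact h.sm

theorem BAS_H.eps (h : BAS_H t k κ ξ G ν γ δ u v) :
    (1 / (k : ℝ)) ^ (10 * t + 20) ≤ δ / 10 := by
  have h1 := h.b1.eps
  have hk : (10 : ℝ) ≤ k := by exact_mod_cast h.kk
  have h2 : (1 / (k : ℝ)) ^ 2 ≤ 1 / 10 := by
    rw [div_pow, one_pow, div_le_div_iff₀ (by positivity) (by norm_num)]
    nlinarith
  have h3 := mul_le_mul_of_nonneg_left h2 h.b1.d0.le
  linarith

theorem BAS_H.dd (h : BAS_H t k κ ξ G ν γ δ u v) : δ ≤ κ / 2000 := by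
  have h1 := h.b1.dk
  have h2 := h.p0
  have h3 := h.p1
  nlinarith

theorem BAS_H.gg (h : BAS_H t k κ ξ G ν γ δ u v) : γ ≤ δ := by
  have h1 := h.b1.gam2
  have hk : (10 : ℝ) ≤ k := by exact_mod_cast h.kk
  have h2 := h.dd
  have h3 := h.p1
  have h4 := h.sys.l2
  have h5 := h.b1.d0
  have h6 := h.b1.nu
  have h7 := h.sys.g0
  refine h1.trans ?_
  rw [div_le_iff₀ (by positivity)]
  have e1 : (1 + δ) * (ν + γ) ≤ 2 * (1 / 2) :=
    mul_le_mul (by linarith) h4 (by linarith) (by norm_num)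
  have e2 : δ * ((1 + δ) * (ν + γ)) ≤ δ * (2 * k) :=
    mul_le_mul_of_nonneg_left (by linarith) h5.le
  linarith

theorem BAS_H.eta0 (h : BAS_H t k κ ξ G ν γ δ u v) : 0 ≤ 1 / 2 - (ν + γ) := by
  have := h.sys.l2
  linarith

theorem BAS_H.rs (h : BAS_H t k κ ξ G ν γ δ u v) : ms (cR κ u v) ≤ κ / 20000000 := by
  have h1 := h.sm
  have h2 := h.eta0
  have h3 := h.p0
  have h4 := h.p1
  nlinarith

theorem BAS_H.es (h : BAS_H t k κ ξ G ν γ δ u v) : 1 / 2 - (ν + γ) ≤ κ / 20000000 := by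
  have h1 := h.sm
  have h2 := ms_nonneg (cR κ u v)
  have h3 := h.p0
  have h4 := h.p1
  nlinarith

omit [Fintype V] in
theorem BAS_om_le (x : V) : om u v x ≤ 1 := by
  unfold om
  nlinarith [sq_nonneg (u x - v x)]

/-- `|v| ≤ δ` on `A` -/
theorem BAS_vA (h : BAS_H t k κ ξ G ν γ δ u v) {x : V} (hx : x ∈ cA κ u) : |v x| ≤ δ := by
  have hx' : 1 - κ ≤ u x := hx
  have h1 := h.p1
  have h2 := h.eps
  have h3 := h.sys.kkt x
  have h4 := h.b1.phi3 x
  have h5 := h.sys.pos x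
  have h6 := h.b1.d0
  have h7 := h.dd
  have hδ : δ ≤ 1 / 40000 := by linarith
  have hu : 19 / 20 ≤ u x := by linarith
  rw [abs_le] at h3
  obtain ⟨h3a, h3b⟩ := h3
  have e1 : (u x - v x) ^ 2 = (u x + v x) ^ 2 - 4 * u x * v x := by ring
  have e2 : (u x + v x) ^ 2 ≤ 441 / 100 := by nlinarith
  have e3 := sq_nonneg (u x - v x)
  have e4 : 4 * u x * v x ≤ δ * 2 := by nlinarith
  -- `ψ ^ 2 ≤ 4.5`
  have e5 : (u x - v x) ^ 2 ≤ 9 / 2 := by
    by_contra hc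
    have hc' : 9 / 2 < (u x - v x) ^ 2 := not_le.1 hc
    have e6 : -(4 * u x * v x) ≤ δ / 10 + δ * ((u x - v x) ^ 2 - 1) := by linarith
    have e7 : (u x - v x) ^ 2 ≤ 441 / 100 + δ / 10 + δ * ((u x - v x) ^ 2 - 1) := by linarith
    have e8 : δ * ((u x - v x) ^ 2 - 1) ≤ 1 / 40000 * ((u x - v x) ^ 2 - 1) :=
      mul_le_mul_of_nonneg_right hδ (by linarith)
    linarith
  have e9 : |4 * u x * v x| ≤ 36 / 10 * δ := by
    rw [abs_le]
    constructor <;> nlinarith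
  rw [abs_mul, abs_of_nonneg (by linarith : (0 : ℝ) ≤ 4 * u x)] at e9
  have e10 : 38 / 10 * |v x| ≤ 4 * u x * |v x| :=
    mul_le_mul_of_nonneg_right (by linarith) (abs_nonneg _)
  have e11 := abs_nonneg (v x)
  linarith

theorem BAS_dis (h : BAS_H t k κ ξ G ν γ δ u v) {x : V} (hx : x ∈ cA κ u) : x ∉ cA κ v := by
  intro hx2
  have hx2' : 1 - κ ≤ v x := hx2
  have h1 := BAS_vA h hx
  have h2 := h.p1
  have h3 := h.dd
  have h4 := le_abs_self (v x)
  linarith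

omit [Fintype V] in
theorem BAS_cov (κ : ℝ) (u v : V → ℝ) (x : V) : x ∈ cA κ u ∨ x ∈ cA κ v ∨ x ∈ cR κ u v := by
  by_cases h1 : 1 - κ ≤ u x
  · exact Or.inl h1
  · by_cases h2 : 1 - κ ≤ v x
    · exact Or.inr (Or.inl h2)
    · exact Or.inr (Or.inr ⟨not_le.1 h1, not_le.1 h2⟩)

omit [Fintype V] in
theorem BAS_dAR {x : V} (hx : x ∈ cA κ u) : x ∉ cR κ u v := by
  intro hx2
  have h1 : 1 - κ ≤ u x := hx
  have h2 := hx2.1
  linarith

theorem BAS_three (h : BAS_H t k κ ξ G ν γ δ u v) (S : Set V) (f : V → ℝ) :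
    avS S f = avS (S ∩ cA κ u) f + avS (S ∩ cA κ v) f + avS (S ∩ cR κ u v) f := by
  rw [avS_inter_add_diff S (cA κ u) f, avS_inter_add_diff (S \ cA κ u) (cA κ v) f, ← add_assoc]
  have e1 : (S \ cA κ u) ∩ cA κ v = S ∩ cA κ v := by
    ext x
    constructor
    · rintro ⟨⟨h1, h2⟩, h3⟩
      exact ⟨h1, h3⟩
    · rintro ⟨h1, h3⟩
      exact ⟨⟨h1, fun h4 => BAS_dis h h4 h3⟩, h3⟩
  have e2 : (S \ cA κ u) \ cA κ v = S ∩ cR κ u v := by
    ext x
    constructor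
    · rintro ⟨⟨h1, h2⟩, h3⟩
      rcases BAS_cov κ u v x with h4 | h4 | h4
      · exact absurd h4 h2
      · exact absurd h4 h3
      · exact ⟨h1, h4⟩
    · rintro ⟨h1, h3⟩
      refine ⟨⟨h1, fun h4 => BAS_dAR h4 h3⟩, fun h4 => ?_⟩
      rw [cR_comm] at h3
      exact BAS_dAR h4 h3
  rw [e1, e2]

theorem BAS_wv (h : BAS_H t k κ ξ G ν γ δ u v) {x : V} (hx : x ∈ cA κ u) :
    ν * (1 - κ) - γ * δ ≤ avS (G.neighborSet x) v := by
  have h1 : avS (G.neighborSet x) v = ν * u x + γ * v x := h.sys.hv x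
  rw [h1]
  have hx' : 1 - κ ≤ u x := hx
  have h2 := BAS_vA h hx
  have h3 := h.b1.nu
  have h4 := h.sys.g0
  have h5 := neg_abs_le (v x)
  have e1 : ν * (1 - κ) ≤ ν * u x := mul_le_mul_of_nonneg_left hx' (by linarith)
  have e2 : γ * (-δ) ≤ γ * v x := mul_le_mul_of_nonneg_left (by linarith) h4
  linarith

theorem BAS_num (h : BAS_H t k κ ξ G ν γ δ u v) :
    91 / 200 ≤ ν * (1 - κ) - γ * δ - ms (cR κ u v) := by
  have h1 := h.b1.nu
  have h2 := h.p1
  have h3 := h.p0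
  have h4 := h.gg
  have h5 := h.dd
  have h6 := h.rs
  have h7 := h.sys.g0
  have h8 := h.b1.d0
  have e1 : 12 / 25 * (19 / 20) ≤ ν * (1 - κ) :=
    mul_le_mul h1 (by linarith) (by norm_num) (by linarith)
  have e2 : γ * δ ≤ 1 / 1000 * (1 / 1000) :=
    mul_le_mul (by linarith) (by linarith) h8.le (by norm_num)
  linarith

theorem BAS_cs (h : BAS_H t k κ ξ G ν γ δ u v) (S : Set V) : avS S v ^ 2 ≤ 1 / 2 * ms S := by
  have h1 := avS_sq_le S v (fun _ => 1)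
  simp only [mul_one, one_pow] at h1
  have h2 : avS S (fun x => v x ^ 2) ≤ 1 / 2 := by
    rw [← h.sys.v2, ← avS_univ]
    exact avS_mono_set (Set.subset_univ _) fun x _ => sq_nonneg _
  exact h1.trans (mul_le_mul_of_nonneg_right h2 (ms_nonneg S))

/-- two disjoint sets cannot both have large amplitude -/
theorem BAS_two (h : BAS_H t k κ ξ G ν γ δ u v) {S T : Set V} (hS : 91 / 200 ≤ avS S v)
    (hT : 91 / 200 ≤ avS T v) : ¬ Disjoint S T := by
  intro hd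
  have h1 := avS_union hd v
  have h2 := BAS_cs h (S ∪ T)
  have h3 := ms_le_one (S ∪ T)
  rw [h1] at h2
  nlinarith

theorem BAS_tri (h : BAS_H t k κ ξ G ν γ δ u v) {x y : V} (hxy : G.Adj x y) :
    Disjoint (G.neighborSet x) (G.neighborSet y) := by
  refine Set.disjoint_left.2 fun z hz hz' => ?_
  refine wk_no_common h.sys.og (SimpleGraph.Walk.cons hxy SimpleGraph.Walk.nil) ?_ ?_ hz hz'
  · exact ⟨0, rfl⟩
  · rw [SimpleGraph.Walk.length_cons, SimpleGraph.Walk.length_nil]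
    omega

theorem BAS_indA (h : BAS_H t k κ ξ G ν γ δ u v) {x y : V} (hx : x ∈ cA κ u) (hy : y ∈ cA κ u) :
    ¬ G.Adj x y := by
  intro hxy
  have h1 := BAS_wv h hx
  have h2 := BAS_wv h hy
  have h3 := BAS_num h
  have h4 := ms_nonneg (cR κ u v)
  exact BAS_two h (by linarith) (by linarith) (BAS_tri h hxy)

theorem BAS_nA (h : BAS_H t k κ ξ G ν γ δ u v) {x : V} (hx : x ∈ cA κ u) :
    G.neighborSet x ∩ cA κ u = ∅ := by
  ext y
  simp only [Set.mem_inter_iff, SimpleGraph.mem_neighborSet, Set.mem_empty_iff_false, iff_false,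
    not_and]
  intro h1 hy
  exact BAS_indA h hx hy h1

theorem BAS_Rv (h : BAS_H t k κ ξ G ν γ δ u v) (S : Set V) :
    avS (S ∩ cR κ u v) v ≤ ms (cR κ u v) := by
  have h1 : avS (S ∩ cR κ u v) v ≤ 1 * ms (S ∩ cR κ u v) := by
    refine avS_le_mul_ms fun x hx => ?_
    have h1 := h.b1.Rpos x hx.2
    have h2 := h.b1.phiR x hx.2
    have h3 := h.p0
    linarith [h1.1]
  rw [one_mul] at h1
  exact h1.trans (ms_mono Set.inter_subset_right)

theorem BAS_nB (h : BAS_H t k κ ξ G ν γ δ u v) {x : V} (hx : x ∈ cA κ u) :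
    ν * (1 - κ) - γ * δ - ms (cR κ u v) ≤ avS (G.neighborSet x ∩ cA κ v) v := by
  have h1 := BAS_wv h hx
  have h2 := BAS_three h (G.neighborSet x) v
  rw [BAS_nA h hx, avS_empty] at h2
  have h3 := BAS_Rv h (G.neighborSet x)
  linarith

theorem BAS_conA (h : BAS_H t k κ ξ G ν γ δ u v) {x y : V} (hx : x ∈ cA κ u) (hy : y ∈ cA κ u) :
    ∃ z ∈ cA κ v, G.Adj x z ∧ G.Adj y z := by
  have h1 := BAS_nB h hx
  have h2 := BAS_nB h hy
  have h3 := BAS_num h
  have h4 := BAS_two h (by linarith) (by linarith : 91 / 200 ≤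
    avS (G.neighborSet y ∩ cA κ v) v) (S := G.neighborSet x ∩ cA κ v)
  rw [Set.not_disjoint_iff] at h4
  obtain ⟨z, hz1, hz2⟩ := h4
  exact ⟨z, hz1.2, hz1.1, hz2.1⟩

theorem BAS_mn (h : BAS_H t k κ ξ G ν γ δ u v) {x : V} (hx : x ∈ cA κ u) :
    2 / 5 ≤ ms (G.neighborSet x ∩ cA κ v) := by
  have h1 := BAS_nB h hx
  have h3 := BAS_num h
  have h4 := BAS_cs h (G.neighborSet x ∩ cA κ v)
  nlinarith

theorem BAS_sum (h : BAS_H t k κ ξ G ν γ δ u v) :
    ms (cA κ u) + ms (cA κ v) + ms (cR κ u v) = 1 := by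
  have := h.sys.ne
  have h1 := BAS_three h Set.univ (fun _ => (1 : ℝ))
  simp only [Set.univ_inter] at h1
  rw [avS_univ, av_const] at h1
  exact h1.symm

theorem BAS_con2 (h : BAS_H t k κ ξ G ν γ δ u v) {x y : V} (hx : x ∈ cA κ u) (hy : y ∈ cA κ v)
    (hc : ¬ ∃ z ∈ cA κ v, ∃ w ∈ cA κ u, G.Adj x z ∧ G.Adj z w ∧ G.Adj w y) :
    4 / 5 ≤ ms (cA κ u) := by
  have h1 := BAS_mn h hx
  obtain ⟨z, hz⟩ := exists_mem_of_ms_pos (by linarith : 0 < ms (G.neighborSet x ∩ cA κ v))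
  have h2 := BAS_mn h.swap hz.2
  have h3 := BAS_mn h.swap hy
  have hd : Disjoint (G.neighborSet z ∩ cA κ u) (G.neighborSet y ∩ cA κ u) := by
    refine Set.disjoint_left.2 fun w hw hw' => hc ⟨z, hz.2, w, hw.2, hz.1, hw.1, ?_⟩
    exact SimpleGraph.Adj.symm hw'.1
  have h4 := avS_union hd (fun _ => (1 : ℝ))
  have h5 : ms ((G.neighborSet z ∩ cA κ u) ∪ (G.neighborSet y ∩ cA κ u)) ≤ ms (cA κ u) :=
    ms_mono (Set.union_subset Set.inter_subset_right Set.inter_subset_right)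
  unfold ms at h2 h3 h5 ⊢
  linarith

theorem BAS_cor (h : BAS_H t k κ ξ G ν γ δ u v) : Cor G (cA κ u) (cA κ v) (cR κ u v) where
  dAB := fun x hx => BAS_dis h hx
  dAR := fun x hx => BAS_dAR hx
  dBR := fun x hx => by
    rw [cR_comm]
    exact BAS_dAR hx
  cov := BAS_cov κ u v
  indA := fun x hx y hy => BAS_indA h hx hy
  indB := fun x hx y hy => BAS_indA h.swap hx hy
  conA := fun x hx y hy => BAS_conA h hx hy
  conB := fun x hx y hy => BAS_conA h.swap hx hy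
  conAB := fun x hx y hy => by
    by_contra hc
    have h1 := BAS_con2 h hx hy hc
    have h2 := BAS_con2 h.swap hy hx (fun ⟨z, hz, w, hw, e1, e2, e3⟩ =>
      hc ⟨w, hw, z, hz, e3.symm, e2.symm, e1.symm⟩)
    have h3 := BAS_sum h
    have h4 := ms_nonneg (cR κ u v)
    linarith

theorem BAS_W (h : BAS_H t k κ ξ G ν γ δ u v) (x : V) :
    Wop G (fun x => u x + v x) x = (ν + γ) * (u x + v x) := by
  have h1 := h.sys.hu x
  have h2 := h.sys.hv x
  unfold Wop at h1 h2 ⊢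
  rw [avS_add, h1, h2]
  ring

theorem BAS_p2 (h : BAS_H t k κ ξ G ν γ δ u v) : av (fun x => (u x + v x) ^ 2) = 1 := by
  have e : (fun x => (u x + v x) ^ 2) = fun x => (u x ^ 2 + v x ^ 2) + 2 * (u x * v x) := by
    funext x
    ring
  rw [e, av_add, av_add, av_mul_left, h.sys.u2, h.sys.v2, h.sys.uv]
  norm_num

theorem BAS_Rp (h : BAS_H t k κ ξ G ν γ δ u v) {x : V} (hx : x ∈ cR κ u v) :
    u x + v x ≤ 1 := by
  have h2 := h.b1.phiR x hx
  have h3 := h.p0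
  linarith

theorem BAS_ab (h : BAS_H t k κ ξ G ν γ δ u v) :
    1 / 4 - (1 / 2 - (ν + γ) + ms (cR κ u v)) ≤ ms (cA κ u) * ms (cA κ v) := by
  have hc := cost_key (BAS_cor h) (BAS_W h) h.sys.pos (BAS_p2 h)
  have hM : 0 ≤ Mphi G (cA κ u) (cA κ v) (fun x => u x + v x) :=
    avS_nonneg fun x _ => mul_nonneg (h.sys.pos x) (avS_nonneg fun y _ => h.sys.pos y)
  have hR : avS (cR κ u v) (fun x => (u x + v x) ^ 2) ≤ ms (cR κ u v) := by
    have : avS (cR κ u v) (fun x => (u x + v x) ^ 2) ≤ 1 * ms (cR κ u v) := by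
      refine avS_le_mul_ms fun x hx => ?_
      have e1 := BAS_Rp h hx
      have e2 := h.sys.pos x
      nlinarith
    linarith
  have hR0 : 0 ≤ avS (cR κ u v) (fun x => (u x + v x) ^ 2) := avS_nonneg fun x _ => sq_nonneg _
  have h3 := avS_three (BAS_cor h) (fun x => (u x + v x) ^ 2)
  rw [BAS_p2 h] at h3
  have hA := avS_sq_le (cA κ u) (fun _ => (1 : ℝ)) (fun x => u x + v x)
  have hB := avS_sq_le (cA κ v) (fun _ => (1 : ℝ)) (fun x => u x + v x)
  simp only [one_mul, one_pow] at hA hB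
  have ma0 : 0 ≤ avS (cA κ u) (fun x => (u x + v x) ^ 2) := avS_nonneg fun x _ => sq_nonneg _
  have mb0 : 0 ≤ avS (cA κ v) (fun x => (u x + v x) ^ 2) := avS_nonneg fun x _ => sq_nonneg _
  have pa0 : 0 ≤ avS (cA κ u) (fun x => u x + v x) := avS_nonneg fun x _ => h.sys.pos x
  have pb0 : 0 ≤ avS (cA κ v) (fun x => u x + v x) := avS_nonneg fun x _ => h.sys.pos x
  have ea : avS (cA κ u) (fun _ => (1 : ℝ)) = ms (cA κ u) := rfl
  have eb : avS (cA κ v) (fun _ => (1 : ℝ)) = ms (cA κ v) := rfl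
  rw [ea] at hA
  rw [eb] at hB
  have a0 := ms_nonneg (cA κ u)
  have b0 := ms_nonneg (cA κ v)
  have r0 := ms_nonneg (cR κ u v)
  have hrs := h.rs
  have hes := h.es
  have he0 := h.eta0
  have hp1 := h.p1
  have hnu := h.b1.nu
  have hg0 := h.sys.g0
  generalize ms (cA κ u) = a at *
  generalize ms (cA κ v) = b at *
  generalize ms (cR κ u v) = r at *
  generalize avS (cA κ u) (fun x => (u x + v x) ^ 2) = ma at *
  generalize avS (cA κ v) (fun x => (u x + v x) ^ 2) = mb at *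
  generalize avS (cR κ u v) (fun x => (u x + v x) ^ 2) = mr at *
  generalize avS (cA κ u) (fun x => u x + v x) = pa at *
  generalize avS (cA κ v) (fun x => u x + v x) = pb at *
  have l1 : (ν + γ) * (1 - 2 * r) ≤ 2 * (pa * pb) := by
    have : (ν + γ) * (1 - 2 * r) ≤ (ν + γ) * (1 - 2 * mr) :=
      mul_le_mul_of_nonneg_left (by linarith) (by linarith)
    linarith
  have l2 : (pa * pb) ^ 2 ≤ (a * b) * (1 / 4) := by
    have e1 : (pa * pb) ^ 2 ≤ (a * ma) * (b * mb) := by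
      rw [mul_pow]
      exact mul_le_mul hA hB (sq_nonneg _) (mul_nonneg a0 ma0)
    have e2 : ma * mb ≤ 1 / 4 := by nlinarith [sq_nonneg (ma - mb)]
    have e3 : (a * ma) * (b * mb) = (a * b) * (ma * mb) := by ring
    rw [e3] at e1
    exact e1.trans (mul_le_mul_of_nonneg_left e2 (mul_nonneg a0 b0))
  have l3 : 1 / 2 - (1 / 2 - (ν + γ) + r) ≤ (ν + γ) * (1 - 2 * r) := by
    nlinarith
  have l4 : 0 ≤ 1 / 2 - (1 / 2 - (ν + γ) + r) := by linarith
  have l5 : (1 / 2 - (1 / 2 - (ν + γ) + r)) ^ 2 ≤ (2 * (pa * pb)) ^ 2 :=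
    pow_le_pow_left₀ l4 (l3.trans l1) 2
  nlinarith [sq_nonneg (1 / 2 - (ν + γ) + r)]

theorem BAS_sq (h : BAS_H t k κ ξ G ν γ δ u v) :
    Real.sqrt (1 / 2 - (ν + γ) + ms (cR κ u v)) ^ 2 = 1 / 2 - (ν + γ) + ms (cR κ u v) ∧
    0 ≤ Real.sqrt (1 / 2 - (ν + γ) + ms (cR κ u v)) ∧
    Real.sqrt (1 / 2 - (ν + γ) + ms (cR κ u v)) ≤ κ / 1000 := by
  have h1 := h.eta0
  have h2 := ms_nonneg (cR κ u v)
  refine ⟨Real.sq_sqrt (by linarith), Real.sqrt_nonneg _, ?_⟩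
  have h3 := Real.sqrt_le_sqrt h.sm
  rwa [Real.sqrt_sq (by linarith [h.p0])] at h3

theorem BAS_mA (h : BAS_H t k κ ξ G ν γ δ u v) :
    |ms (cA κ u) - 1 / 2| ≤ 2 * Real.sqrt (1 / 2 - (ν + γ) + ms (cR κ u v)) := by
  have h1 := BAS_ab h
  obtain ⟨h2, h3, h4⟩ := BAS_sq h
  have h5 := BAS_sum h
  have h6 := ms_nonneg (cR κ u v)
  have h7 := h.eta0
  have h8 := h.p1
  rw [← h2] at h1
  have h9 : ms (cR κ u v) ≤ Real.sqrt (1 / 2 - (ν + γ) + ms (cR κ u v)) ^ 2 := by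
    rw [h2]
    linarith
  clear h2
  have a0 := ms_nonneg (cA κ u)
  have b0 := ms_nonneg (cA κ v)
  generalize Real.sqrt (1 / 2 - (ν + γ) + ms (cR κ u v)) = s at *
  generalize ms (cA κ u) = a at *
  generalize ms (cA κ v) = b at *
  generalize ms (cR κ u v) = r at *
  have e1 : (a - b) ^ 2 ≤ (2 * s) ^ 2 := by nlinarith
  have e2 := abs_le_of_sq_le_sq e1 (by linarith)
  rw [abs_le] at e2
  have e3 : r ≤ s := by nlinarith
  rw [abs_le]
  constructor <;> linarith [e2.1, e2.2]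

theorem BAS_EB (h : BAS_H t k κ ξ G ν γ δ u v) :
    avS (cA κ v) (fun x => u x + v x) ≤
      1 / 2 + 4 * Real.sqrt (1 / 2 - (ν + γ) + ms (cR κ u v)) := by
  have h1 := (abs_le.1 (BAS_mA h.swap)).2
  rw [cR_comm] at h1
  obtain ⟨h2, h3, h4⟩ := BAS_sq h
  have h5 := avS_sq_le (cA κ v) (fun _ => (1 : ℝ)) (fun x => u x + v x - 1)
  simp only [one_mul, one_pow] at h5
  have e1 : avS (cA κ v) (fun x => (u x + v x - 1) ^ 2) ≤ 4 * (1 / 2 - (ν + γ)) := by
    refine le_trans ?_ h.b1.phi2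
    rw [← avS_univ]
    exact avS_mono_set (Set.subset_univ _) fun x _ => sq_nonneg _
  have e2 : avS (cA κ v) (fun x => (u x + v x - 1) ^ 2) ≥ 0 := avS_nonneg fun x _ => sq_nonneg _
  have e3 : avS (cA κ v) (fun x => u x + v x - 1) =
      avS (cA κ v) (fun x => u x + v x) - ms (cA κ v) := by
    rw [avS_sub]
    rfl
  have e4 : avS (cA κ v) (fun _ => (1 : ℝ)) ≤ 1 := ms_le_one _
  have e5 : avS (cA κ v) (fun x => u x + v x - 1) ^ 2 ≤
      (2 * Real.sqrt (1 / 2 - (ν + γ) + ms (cR κ u v))) ^ 2 := by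
    rw [mul_pow, h2]
    have := ms_nonneg (cR κ u v)
    nlinarith
  have e6 := (abs_le.1 (abs_le_of_sq_le_sq e5 (by linarith))).2
  linarith

theorem BAS_pA (h : BAS_H t k κ ξ G ν γ δ u v) {x : V} (hx : x ∈ cA κ u) :
    u x + v x ≤ 1 + 10 * Real.sqrt (1 / 2 - (ν + γ) + ms (cR κ u v)) := by
  have h1 := BAS_W h x
  unfold Wop at h1
  rw [BAS_three h (G.neighborSet x), BAS_nA h hx, avS_empty] at h1
  have h2 := BAS_EB h
  obtain ⟨h3, h4, h5⟩ := BAS_sq h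
  have h6 : avS (G.neighborSet x ∩ cA κ v) (fun x => u x + v x) ≤
      avS (cA κ v) (fun x => u x + v x) :=
    avS_mono_set Set.inter_subset_right fun y _ => h.sys.pos y
  have h7 : avS (G.neighborSet x ∩ cR κ u v) (fun x => u x + v x) ≤ ms (cR κ u v) := by
    have e1 : avS (G.neighborSet x ∩ cR κ u v) (fun x => u x + v x) ≤
        1 * ms (G.neighborSet x ∩ cR κ u v) := avS_le_mul_ms fun y hy => BAS_Rp h hy.2
    have e2 : ms (G.neighborSet x ∩ cR κ u v) ≤ ms (cR κ u v) := ms_mono Set.inter_subset_right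
    linarith
  have h8 := h.eta0
  have h9 := ms_nonneg (cR κ u v)
  have h10 := h.p1
  have h11 := h.b1.nu
  have h12 := h.sys.g0
  generalize Real.sqrt (1 / 2 - (ν + γ) + ms (cR κ u v)) = s at *
  generalize ms (cR κ u v) = r at *
  by_contra hc
  have hc' := not_le.1 hc
  have e1 : (ν + γ) * (1 + 10 * s) < (ν + γ) * (u x + v x) :=
    mul_lt_mul_of_pos_left hc' (by linarith)
  have e2 : s ^ 2 ≤ s / 20000 := by nlinarith
  have e3 : (1 / 2 - (ν + γ)) * s ≤ 1 / 2000 * s :=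
    mul_le_mul_of_nonneg_right (by nlinarith) h4
  nlinarith

theorem BAS_dA (h : BAS_H t k κ ξ G ν γ δ u v) {x : V} (hx : x ∈ cA κ u) :
    ms (cA κ v \ G.neighborSet x) ≤ κ := by
  have h1 := BAS_nB h hx
  have h2 := avS_inter_add_diff (cA κ v) (G.neighborSet x) v
  rw [Set.inter_comm (cA κ v)] at h2
  have h3 : avS (cA κ v) v ≤ avS (cA κ v) (fun x => u x + v x) + δ := by
    have e1 : avS (cA κ v) v ≤ avS (cA κ v) (fun x => (u x + v x) + δ) := by
      refine avS_mono fun y hy => ?_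
      have := (abs_le.1 (BAS_vA h.swap hy)).1
      linarith
    rw [avS_add, avS_const] at e1
    have e2 : δ * ms (cA κ v) ≤ δ * 1 := mul_le_mul_of_nonneg_left (ms_le_one _) h.b1.d0.le
    linarith
  have h4 := BAS_EB h
  obtain ⟨-, h5, h6⟩ := BAS_sq h
  have h7 : (1 - κ) * ms (cA κ v \ G.neighborSet x) ≤ avS (cA κ v \ G.neighborSet x) v :=
    mul_ms_le_avS fun y hy => hy.1
  have h8 := h.rs
  have h9 := h.es
  have h10 := h.dd
  have h11 := h.gg
  have h12 := h.p0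
  have h13 := h.p1
  have h14 := h.sys.g0
  have h15 := h.b1.d0
  generalize ms (cA κ v \ G.neighborSet x) = m at *
  generalize Real.sqrt (1 / 2 - (ν + γ) + ms (cR κ u v)) = s at *
  generalize ms (cR κ u v) = r at *
  have e1 : γ * δ ≤ δ * 1 := by
    rw [mul_comm]
    exact mul_le_mul_of_nonneg_left (by linarith) h15.le
  have e2 : ν * κ ≤ 1 / 2 * κ := mul_le_mul_of_nonneg_right (by linarith [h.sys.l2]) h12.le
  have e3 : (1 - κ) * m ≤ κ / 2 + κ / 10 := by linarith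
  have e4 : κ / 2 + κ / 10 ≤ (1 - κ) * κ := by nlinarith
  exact le_of_mul_le_mul_left (e3.trans e4) (by linarith)

end

theorem bas_proof (h1 : Stmt_BAS1) : Stmt_BAS := by
  intro t κ hκ0 hκ1
  obtain ⟨k1, hk1⟩ := h1 t κ hκ0 hκ1
  obtain ⟨k2, hk2⟩ := BAS_log t ((κ / 1000) ^ 2 / (1 + 16 / κ ^ 2)) (by positivity)
  refine ⟨max (max k1 k2) 10, ?_⟩
  intro k hk V _ G ν γ δ ξ u v hξ hs
  have e1 : k1 ≤ k := by omega
  have e2 : k2 ≤ k := by omega
  have e3 : 10 ≤ k := by omega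
  have hb := hk1 k e1 V G ν γ δ ξ u v hξ hs
  have h2 := hk2 k e2
  have hh : BAS_H t k κ ξ G ν γ δ u v := by
    refine ⟨hs, hb, hκ0, hκ1, e3, ?_⟩
    have h3 := hb.eta.trans h2
    rw [le_div_iff₀ (by positivity)] at h3
    have h4 := hb.msR
    have h5 : (1 / 2 - (ν + γ)) * (1 + 16 / κ ^ 2) =
        (1 / 2 - (ν + γ)) + 16 * (1 / 2 - (ν + γ)) / κ ^ 2 := by ring
    linarith
  have key : ∀ x, u x + v x ≤ 1 + 10 * Real.sqrt (1 / 2 - (ν + γ) + ms (cR κ u v)) := by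
    intro x
    rcases BAS_cov κ u v x with hx | hx | hx
    · exact BAS_pA hh hx
    · have := BAS_pA hh.swap hx
      rw [cR_comm, add_comm (v x)] at this
      exact this
    · have := BAS_Rp hh hx
      have := (BAS_sq hh).2.1
      linarith
  refine ⟨hb.eta, hb.nu, hb.d0, hb.dk, hb.dge, hb.eps, hb.gam1, hb.gam2, hb.phi2, hb.ome, hb.Rpos,
    hb.msR, BAS_mA hh, ?_, key, ?_, ?_, ?_, fun a ha => BAS_dA hh ha,
    fun b hb' => BAS_dA hh.swap hb', BAS_cor hh⟩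
  · have := BAS_mA hh.swap
    rw [cR_comm] at this
    exact this
  · intro x
    have := key x
    have := (BAS_sq hh).2.2
    linarith
  · intro x hx
    have := BAS_vA hh hx
    linarith [hb.d0]
  · intro x hx
    have := BAS_vA hh.swap hx
    linarith [hb.d0]

end Pool.Agent.OCX
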