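import Pool.Agent.OCX.Stmts
import Pool.Agent.OCX.Lib

/-! Squad OCX, module BAS1: first consequences of the amplitude system. -/

open Filter Topology

namespace Pool.Agent.OCX
namespace BAS1_

variable {V : Type} [Fintype V]

/-- `4 / e ^ 2 >= 1 / 2` -/
theorem four_exp : (1 / 2 : ℝ) ≤ 4 * Real.exp (-2) := by
  have h1 : Real.exp 1 < 2.7182818286 := Real.exp_one_lt_d9
  have h2 : Real.exp 2 = Real.exp 1 ^ 2 := by
    rw [← Real.exp_nat_mul]; norm_num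
  have h3 : Real.exp 2 ≤ 8 := by
    rw [h2]
    have h0 : 0 < Real.exp 1 := Real.exp_pos 1
    nlinarith
  rw [Real.exp_neg, ← div_eq_mul_inv, le_div_iff₀ (Real.exp_pos 2)]
  linarith

theorem four_exp_pow (t : ℕ) : (1 / 2 : ℝ) ^ (t + 1) ≤ 4 ^ (t + 1) * Real.exp (-(2 * t + 2)) := by
  have h : Real.exp (-(2 * t + 2)) = Real.exp (-2) ^ (t + 1) := by
    rw [← Real.exp_nat_mul]
    congr 1
    push_cast
    ring
  rw [h, ← mul_pow]
  exact pow_le_pow_left₀ (by norm_num) four_exp _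

theorem dge_aux {t k : ℕ} (hk : 1 ≤ k) {ξ δ E : ℝ} (hξ : ξ ≤ 1 / 2)
    (h : 4 ^ (t + 1) * (1 / (k : ℝ)) ^ (2 * t + 1) * Real.exp (-(2 * t + 2) + E) * (1 - ξ) ≤ δ) :
    (1 / (k : ℝ)) ^ (2 * t + 1) * (1 / 2) ^ (t + 2) * Real.exp E ≤ δ := by
  have hk0 : (0 : ℝ) < k := by exact_mod_cast hk
  refine le_trans ?_ h
  rw [Real.exp_add]
  have h1 := four_exp_pow t
  have hp : 0 ≤ (1 / (k : ℝ)) ^ (2 * t + 1) := by positivity
  have hE : 0 ≤ Real.exp E := (Real.exp_pos E).le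
  calc (1 / (k : ℝ)) ^ (2 * t + 1) * (1 / 2) ^ (t + 2) * Real.exp E
      = (1 / (k : ℝ)) ^ (2 * t + 1) * Real.exp E * ((1 / 2 : ℝ) ^ (t + 1) * (1 / 2)) := by
        rw [pow_succ (1 / 2 : ℝ) (t + 1)]; ring
    _ ≤ (1 / (k : ℝ)) ^ (2 * t + 1) * Real.exp E *
        ((4 ^ (t + 1) * Real.exp (-(2 * t + 2))) * (1 - ξ)) := by
        refine mul_le_mul_of_nonneg_left ?_ (mul_nonneg hp hE)
        refine mul_le_mul h1 (by linarith) (by norm_num) ?_
        exact mul_nonneg (by positivity) (Real.exp_pos _).le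
    _ = _ := by ring

theorem exp_aux {d : ℝ} (h0 : 0 ≤ d) (h1 : d ≤ 1 / 2) : Real.exp (-(d * (1 + d))) ≤ 1 - d := by
  have hq := Real.quadratic_le_exp_of_nonneg (x := d * (1 + d)) (by positivity)
  rw [Real.exp_neg]
  have he : 0 < Real.exp (d * (1 + d)) := Real.exp_pos _
  rw [inv_le_iff_one_le_mul₀ he]
  have h2 : 1 ≤ (1 - d) * (1 + d * (1 + d) + (d * (1 + d)) ^ 2 / 2) := by
    have e : (1 - d) * (1 + d * (1 + d) + (d * (1 + d)) ^ 2 / 2) - 1 =
        d ^ 2 * ((1 + d) ^ 2 * (1 - d) - 2 * d) / 2 := by ring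
    have h3 : 0 ≤ (1 + d) ^ 2 * (1 - d) - 2 * d := by nlinarith [mul_nonneg h0 h0]
    have h4 : 0 ≤ d ^ 2 * ((1 + d) ^ 2 * (1 - d) - 2 * d) / 2 := by positivity
    linarith
  calc (1 : ℝ) ≤ (1 - d) * (1 + d * (1 + d) + (d * (1 + d)) ^ 2 / 2) := h2
    _ ≤ (1 - d) * Real.exp (d * (1 + d)) := mul_le_mul_of_nonneg_left hq (by linarith)

/-- the bounds for `γ` -/
theorem gam_aux {k : ℕ} (hk : 1 ≤ k) {ν γ δ : ℝ} (g0 : 0 ≤ γ) (gn : γ < ν)
    (hd : δ = 1 - ((ν - γ) / (ν + γ)) ^ k) (d0 : 0 < δ) (d1 : δ ≤ 1 / 2) :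
    δ * (ν + γ) / (2 * k) ≤ γ ∧ γ ≤ δ * (1 + δ) * (ν + γ) / (2 * k) := by
  have hk0 : (0 : ℝ) < k := by exact_mod_cast hk
  have hk1 : (1 : ℝ) ≤ k := by exact_mod_cast hk
  have hl : 0 < ν + γ := by linarith
  obtain ⟨z, hz⟩ : ∃ z : ℝ, z = 2 * γ / (ν + γ) := ⟨_, rfl⟩
  have hz1 : (ν - γ) / (ν + γ) = 1 - z := by
    rw [hz]; field_simp; ring
  have hz0 : 0 ≤ z := by rw [hz]; positivity
  have hz2 : z < 1 := by rw [hz, div_lt_one hl]; linarith
  have hgz : γ = z * (ν + γ) / 2 := by rw [hz]; field_simp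
  rw [hz1] at hd
  constructor
  · have hb : 1 + (k : ℝ) * (-z) ≤ (1 + (-z)) ^ k := one_add_mul_le_pow (by linarith) k
    have h1 : δ ≤ k * z := by
      have : (1 + (-z)) = 1 - z := by ring
      rw [this] at hb
      linarith
    rw [div_le_iff₀ (by positivity)]
    calc δ * (ν + γ) ≤ (k * z) * (ν + γ) := mul_le_mul_of_nonneg_right h1 hl.le
      _ = (z * (ν + γ) / 2) * (2 * k) := by ring
      _ = γ * (2 * k) := by rw [← hgz]
  · have h2 : z ≤ δ * (1 + δ) / k := by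
      by_contra hc
      push Not at hc
      have hw0 : 0 ≤ δ * (1 + δ) / k := by positivity
      have h3 : (1 - z) ^ k < (1 - δ * (1 + δ) / k) ^ k :=
        pow_lt_pow_left₀ (by linarith) (by linarith) (by omega)
      have h4 : 1 - δ * (1 + δ) / k ≤ Real.exp (-(δ * (1 + δ) / k)) := by
        have := Real.add_one_le_exp (-(δ * (1 + δ) / k))
        linarith
      have h5 : (1 - δ * (1 + δ) / k) ^ k ≤ Real.exp (-(δ * (1 + δ) / k)) ^ k :=
        pow_le_pow_left₀ (by linarith) h4 k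
      have h6 : Real.exp (-(δ * (1 + δ) / k)) ^ k = Real.exp (-(δ * (1 + δ))) := by
        rw [← Real.exp_nat_mul]
        congr 1
        field_simp
      have h7 := exp_aux d0.le d1
      linarith
    rw [le_div_iff₀ (by positivity)]
    rw [le_div_iff₀ hk0] at h2
    calc γ * (2 * k) = (z * k) * (ν + γ) := by
          have : γ * (2 * k) = (z * (ν + γ) / 2) * (2 * k) := by rw [← hgz]
          rw [this]; ring
      _ ≤ (δ * (1 + δ)) * (ν + γ) := mul_le_mul_of_nonneg_right h2 hl.le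

/-- conditions on `k` -/
theorem k0_exists (t : ℕ) (κ : ℝ) : ∃ k0 : ℕ, ∀ k : ℕ, k0 ≤ k →
    1 ≤ k ∧ (2 : ℝ) ^ (t + 2) ≤ k ∧ (100 / κ ^ 2) ^ 3 < k ∧ (t + 1) * Real.log k / k ≤ 1 / 100 := by
  have h1 : Tendsto (fun x : ℝ => Real.log x ^ 1 / (1 * x + 0)) atTop (𝓝 0) :=
    Real.tendsto_pow_log_div_mul_add_atTop 1 0 1 one_ne_zero
  have h2 : Tendsto (fun k : ℕ => (t + 1 : ℝ) * (Real.log (k : ℝ) ^ 1 / (1 * (k : ℝ) + 0))) atTop
      (𝓝 ((t + 1 : ℝ) * 0)) := (h1.comp tendsto_natCast_atTop_atTop).const_mul _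
  rw [mul_zero] at h2
  have h3 : ∀ᶠ k : ℕ in atTop, (t + 1 : ℝ) * (Real.log (k : ℝ) ^ 1 / (1 * (k : ℝ) + 0)) ≤ 1 / 100 :=
    h2.eventually_le_const (by norm_num)
  have h4 : ∀ᶠ k : ℕ in atTop, (2 : ℝ) ^ (t + 2) ≤ (k : ℝ) :=
    tendsto_natCast_atTop_atTop.eventually_ge_atTop _
  have h5 : ∀ᶠ k : ℕ in atTop, (100 / κ ^ 2) ^ 3 < (k : ℝ) :=
    tendsto_natCast_atTop_atTop.eventually_gt_atTop _
  have h6 : ∀ᶠ k : ℕ in atTop, 1 ≤ k := eventually_ge_atTop 1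
  obtain ⟨k0, hk0⟩ := eventually_atTop.1 ((h3.and h4).and (h5.and h6))
  refine ⟨k0, fun k hk => ?_⟩
  obtain ⟨⟨a, b⟩, c, d⟩ := hk0 k hk
  refine ⟨d, b, c, ?_⟩
  rw [pow_one, one_mul, add_zero] at a
  rw [mul_div_assoc]
  exact a

/-! ### the top eigenfunction -/

omit [Fintype V] in
theorem disj_nbr {t : ℕ} {G : SimpleGraph V} (og : OddG t G) {x y : V} (h : G.Adj x y) :
    Disjoint (G.neighborSet x) (G.neighborSet y) := by
  rw [Set.disjoint_left]
  intro z hz hz'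
  rw [SimpleGraph.mem_neighborSet] at hz hz'
  have key := og x (SimpleGraph.Walk.cons h (SimpleGraph.Walk.cons hz'
    (SimpleGraph.Walk.cons hz.symm SimpleGraph.Walk.nil)))
  simp only [SimpleGraph.Walk.length_cons, SimpleGraph.Walk.length_nil] at key
  have := key ⟨1, by norm_num⟩
  omega

theorem top_ineq {t : ℕ} {G : SimpleGraph V} (og : OddG t G) {φ : V → ℝ} {lam : ℝ}
    (hW : ∀ x, Wop G φ x = lam * φ x) (h0 : ∀ x, 0 ≤ φ x) (h2 : av (fun x => φ x ^ 2) = 1)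
    (hl : 0 < lam) : 2 * lam * av (fun x => φ x ^ 3) ≤ av φ := by
  have hW' : ∀ x, avS (G.neighborSet x) φ = lam * φ x := hW
  have hedge : ∀ x y, G.Adj x y → lam * (φ x + φ y) ≤ av φ := by
    intro x y h
    have e : lam * (φ x + φ y) = avS (G.neighborSet x ∪ G.neighborSet y) φ := by
      rw [avS_union (disj_nbr og h), hW' x, hW' y]; ring
    rw [e, ← avS_univ φ]
    exact avS_mono_set (Set.subset_univ _) fun x _ => h0 x
  have hpt : ∀ x, lam ^ 2 * φ x ^ 3 + lam * (φ x * avS (G.neighborSet x) (fun y => φ y ^ 2)) ≤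
      lam * av φ * φ x ^ 2 := by
    intro x
    have h1 : avS (G.neighborSet x) (fun y => φ y * (lam * (φ x + φ y))) ≤
        avS (G.neighborSet x) (fun y => φ y * av φ) :=
      avS_mono fun y hy => mul_le_mul_of_nonneg_left (hedge x y hy) (h0 y)
    rw [avS_mul_right, hW' x] at h1
    have h3 : avS (G.neighborSet x) (fun y => φ y * (lam * (φ x + φ y))) =
        lam * φ x * avS (G.neighborSet x) φ + lam * avS (G.neighborSet x) (fun y => φ y ^ 2) := by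
      rw [← avS_mul_left, ← avS_mul_left, ← avS_add]
      exact avS_congr fun y _ => by ring
    rw [h3, hW' x] at h1
    have h4 := mul_le_mul_of_nonneg_left h1 (h0 x)
    linarith
  have hav := av_mono hpt
  rw [av_add, av_mul_left, av_mul_left, av_mul_left, h2] at hav
  have hs : av (fun x => φ x * avS (G.neighborSet x) (fun y => φ y ^ 2)) =
      lam * av (fun x => φ x ^ 3) := by
    have h5 := avS_symm G Set.univ Set.univ φ (fun y => φ y ^ 2)
    rw [avS_univ, avS_univ] at h5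
    simp only [Set.inter_univ] at h5
    rw [h5, ← av_mul_left]
    congr 1
    funext y
    rw [hW' y]; ring
  rw [hs] at hav
  have h6 : lam * (2 * lam * av (fun x => φ x ^ 3)) ≤ lam * av φ := by linarith
  exact le_of_mul_le_mul_left h6 hl

theorem phi3_aux {G : SimpleGraph V} {φ : V → ℝ} {lam : ℝ}
    (hW : ∀ x, Wop G φ x = lam * φ x) (h2 : av (fun x => φ x ^ 2) = 1)
    (hl : 12 / 25 ≤ lam) (x : V) : φ x ≤ 21 / 10 := by
  have hW' : avS (G.neighborSet x) φ = lam * φ x := hW x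
  have h1 := avS_sq_le (G.neighborSet x) φ (fun _ => 1)
  simp only [mul_one, one_pow] at h1
  have h3 : avS (G.neighborSet x) (fun y => φ y ^ 2) ≤ 1 := by
    rw [← h2, ← avS_univ (fun y => φ y ^ 2)]
    exact avS_mono_set (Set.subset_univ _) fun x _ => sq_nonneg _
  have h3' : 0 ≤ avS (G.neighborSet x) (fun y => φ y ^ 2) := avS_nonneg fun x _ => sq_nonneg _
  have h4 : avS (G.neighborSet x) (fun _ => (1 : ℝ)) ≤ 1 := ms_le_one _
  have h4' : 0 ≤ avS (G.neighborSet x) (fun _ => (1 : ℝ)) := ms_nonneg _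
  have h5 : (lam * φ x) ^ 2 ≤ 1 := by
    rw [← hW']
    refine h1.trans ?_
    exact mul_le_one₀ h3 h4' h4
  have h6 : lam * φ x ≤ 1 := by nlinarith
  by_contra hc
  push Not at hc
  have : 12 / 25 * (21 / 10 : ℝ) ≤ lam * φ x :=
    mul_le_mul hl hc.le (by norm_num) (by linarith)
  linarith

theorem av_one_lo [Nonempty V] {t : ℕ} {G : SimpleGraph V} (og : OddG t G) {φ : V → ℝ} {lam : ℝ}
    (hW : ∀ x, Wop G φ x = lam * φ x) (h0 : ∀ x, 0 ≤ φ x) (h2 : av (fun x => φ x ^ 2) = 1)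
    (hl : 12 / 25 ≤ lam) :
    1 - 2 * (1 / 2 - lam) ≤ av φ ∧ av φ ≤ 1 ∧
      av (fun x => (φ x - 1) ^ 2) = 2 * (1 - av φ) ∧ av (fun x => (φ x + 1) ^ 2) = 2 * (1 + av φ) := by
  have h3 := top_ineq og hW h0 h2 (by linarith)
  have hb := fun x => phi3_aux hW h2 hl x
  have hpos : 0 < av φ := by
    have h4 : av (fun x => φ x ^ 2) ≤ av (fun x => 21 / 10 * φ x) :=
      av_mono fun x => by nlinarith [h0 x, hb x]
    rw [h2, av_mul_left] at h4
    linarith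
  have e1 : av (fun x => (φ x - 1) ^ 2) = 2 * (1 - av φ) := by
    have : (fun x => (φ x - 1) ^ 2) = fun x => (φ x ^ 2 - 2 * φ x) + 1 := by funext x; ring
    rw [this, av_add (fun x => φ x ^ 2 - 2 * φ x) (fun _ => 1), av_sub, av_mul_left, h2, av_const]
    ring
  have e2 : av (fun x => (φ x + 1) ^ 2) = 2 * (1 + av φ) := by
    have : (fun x => (φ x + 1) ^ 2) = fun x => (φ x ^ 2 + 2 * φ x) + 1 := by funext x; ring
    rw [this, av_add (fun x => φ x ^ 2 + 2 * φ x) (fun _ => 1), av_add, av_mul_left, h2, av_const]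
    ring
  have hle1 : av φ ≤ 1 := by
    have : 0 ≤ av (fun x => (φ x - 1) ^ 2) := av_nonneg fun x => sq_nonneg _
    rw [e1] at this
    linarith
  refine ⟨?_, hle1, e1, e2⟩
  -- Cauchy-Schwarz in the form av (φ (m φ - 1)²) ≥ 0
  have h5 : 0 ≤ av (fun x => φ x * (av φ * φ x - 1) ^ 2) :=
    av_nonneg fun x => mul_nonneg (h0 x) (sq_nonneg _)
  have e3 : av (fun x => φ x * (av φ * φ x - 1) ^ 2) =
      av φ ^ 2 * av (fun x => φ x ^ 3) - 2 * av φ + av φ := by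
    have : (fun x => φ x * (av φ * φ x - 1) ^ 2) =
        fun x => (av φ ^ 2 * φ x ^ 3 - (2 * av φ) * φ x ^ 2) + φ x := by funext x; ring
    rw [this, av_add (fun x => av φ ^ 2 * φ x ^ 3 - (2 * av φ) * φ x ^ 2) φ, av_sub, av_mul_left,
      av_mul_left, h2]
    ring
  rw [e3] at h5
  have h6 : 1 ≤ av φ * av (fun x => φ x ^ 3) := by
    have : av φ * 1 ≤ av φ * (av φ * av (fun x => φ x ^ 3)) := by linarith
    exact le_of_mul_le_mul_left this hpos
  have h7 : 2 * lam ≤ av φ ^ 2 := by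
    calc 2 * lam ≤ 2 * lam * (av φ * av (fun x => φ x ^ 3)) := by
          have : 0 ≤ 2 * lam := by linarith
          nlinarith
      _ = av φ * (2 * lam * av (fun x => φ x ^ 3)) := by ring
      _ ≤ av φ * av φ := mul_le_mul_of_nonneg_left h3 hpos.le
      _ = _ := by ring
  nlinarith

/-- the average of `|om|` -/
theorem ome_aux [Nonempty V] {φ om : V → ℝ} {η δ eps : ℝ} (h0 : ∀ x, 0 ≤ φ x)
    (hη : 0 ≤ η) (hd0 : 0 ≤ δ) (hd : δ ≤ 1 / 100) (he : eps ≤ δ)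
    (hom : ∀ x, |om x| ≤ |1 - φ x ^ 2| + δ * |om x| + eps)
    (h1 : av (fun x => (φ x - 1) ^ 2) ≤ 4 * η) (h2 : av (fun x => (φ x + 1) ^ 2) ≤ 4) :
    av (fun x => |om x|) ≤ 5 * Real.sqrt η + 4 * δ := by
  have h3 : av (fun x => |1 - φ x ^ 2|) ≤ 4 * Real.sqrt η := by
    have h4 := avS_sq_le Set.univ (fun x => |φ x - 1|) (fun x => φ x + 1)
    rw [avS_univ, avS_univ, avS_univ] at h4
    have e1 : (fun x => |φ x - 1| * (φ x + 1)) = fun x => |1 - φ x ^ 2| := by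
      funext x
      have : 1 - φ x ^ 2 = -((φ x - 1) * (φ x + 1)) := by ring
      rw [this, abs_neg, abs_mul, abs_of_nonneg (show (0 : ℝ) ≤ φ x + 1 by linarith [h0 x])]
    have e2 : (fun x => |φ x - 1| ^ 2) = fun x => (φ x - 1) ^ 2 := by
      funext x; exact sq_abs _
    rw [e1, e2] at h4
    have h5 : av (fun x => |1 - φ x ^ 2|) ^ 2 ≤ 4 * η * 4 := by
      refine h4.trans ?_
      exact mul_le_mul h1 h2 (av_nonneg fun x => sq_nonneg _) (by linarith)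
    have h6 : (4 * Real.sqrt η) ^ 2 = 4 * η * 4 := by
      rw [mul_pow, Real.sq_sqrt hη]; ring
    rw [← h6] at h5
    exact le_of_sq_le_sq h5 (by positivity)
  have h7 := av_mono hom
  rw [av_add (fun x => |1 - φ x ^ 2| + δ * |om x|) (fun _ => eps), av_add, av_mul_left,
    av_const] at h7
  have h8 : 0 ≤ av (fun x => |om x|) := av_nonneg fun x => abs_nonneg _
  have h9 := Real.sqrt_nonneg η
  nlinarith

/-- the vertices of the rest -/
theorem R_aux {k : ℕ} {κ δ e a b : ℝ} (hκ0 : 0 < κ) (hκ : κ ≤ 1 / 20)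
    (hkk : (1 / (k : ℝ)) ^ 2 ≤ κ / 2)
    (hδ0 : 0 < δ) (hδ : δ ≤ κ ^ 2 / 100) (he : e ≤ δ * (1 / (k : ℝ)) ^ 2) (hp : 0 ≤ a + b)
    (ha : a < 1 - κ) (hab : |4 * a * b - δ * (1 - (a - b) ^ 2)| ≤ e) : 0 < b := by
  by_contra hb
  push Not at hb
  have hκκ : κ ^ 2 ≤ κ / 20 := by
    calc κ ^ 2 = κ * κ := by ring
      _ ≤ κ * (1 / 20) := mul_le_mul_of_nonneg_left hκ hκ0.le
      _ = κ / 20 := by ring
  have hq1 : (1 / (k : ℝ)) ^ 2 ≤ 1 := by linarith
  obtain ⟨h1, h2⟩ := abs_le.1 hab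
  have ha0 : 0 ≤ a := by linarith
  have h3 : 4 * a * b ≤ 0 := mul_nonpos_of_nonneg_of_nonpos (by linarith) hb
  have h4 : δ * (1 - (a - b) ^ 2) ≤ δ * (1 / (k : ℝ)) ^ 2 := by linarith
  have h5 : 1 - (a - b) ^ 2 ≤ (1 / (k : ℝ)) ^ 2 := le_of_mul_le_mul_left h4 hδ0
  -- ψ = a - b ≥ 1 - κ / 2
  have h6 : 1 - κ / 2 ≤ a - b := by
    have h7 : 0 ≤ a - b := by linarith
    by_contra hc
    push Not at hc
    have h9 : (a - b) ^ 2 ≤ (1 - κ / 2) ^ 2 := pow_le_pow_left₀ h7 hc.le 2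
    have e1 : (1 - κ / 2) ^ 2 = 1 - κ + κ ^ 2 / 4 := by ring
    linarith
  have h8 : κ / 2 ≤ -b := by linarith
  have h10 : 48 / 100 ≤ a := by linarith
  have h11 : 4 * a * (-b) ≤ 4 * δ := by
    have h12 : (a - b) ^ 2 ≤ 2 ^ 2 := pow_le_pow_left₀ (by linarith) (by linarith) 2
    have h13 : e ≤ δ := by
      calc e ≤ δ * (1 / (k : ℝ)) ^ 2 := he
        _ ≤ δ * 1 := mul_le_mul_of_nonneg_left hq1 hδ0.le
        _ = δ := mul_one δ
    have h16 : δ * (a - b) ^ 2 ≤ δ * 2 ^ 2 := mul_le_mul_of_nonneg_left h12 hδ0.le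
    linarith
  have h14 : 4 * (48 / 100) * (κ / 2) ≤ 4 * a * (-b) := by
    have : (48 / 100) * (κ / 2) ≤ a * (-b) := mul_le_mul h10 h8 (by linarith) ha0
    linarith
  linarith

end BAS1_

open BAS1_ in
theorem bas1_proof : Stmt_BAS1 := by
  intro t κ hκ0 hκ
  obtain ⟨k0, hk0⟩ := k0_exists t κ
  refine ⟨k0, fun k hk V _ G ν γ δ ξ u v hξ h => ?_⟩
  obtain ⟨k1, k2, k3, k4⟩ := hk0 k hk
  have : Nonempty V := h.ne
  have hkp : (0 : ℝ) < k := by exact_mod_cast k1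
  have hk1 : (1 : ℝ) ≤ k := by exact_mod_cast k1
  have hl := h.l2
  have hg0 := h.g0
  have hgn := h.gn
  have hlp : 0 < ν + γ := by linarith
  have hη0 : 0 ≤ 1 / 2 - (ν + γ) := by linarith
  have hdge : (1 / (k : ℝ)) ^ (2 * t + 1) * (1 / 2) ^ (t + 2) *
      Real.exp (2 * k * (1 / 2 - (ν + γ))) ≤ δ := dge_aux k1 hξ h.ext
  have hd0 : 0 < δ := lt_of_lt_of_le (by positivity) hdge
  have hdk : δ ≤ κ ^ 2 / 100 := by
    by_contra hc
    push Not at hc
    have hκ2 : 0 < κ ^ 2 / 100 := by positivity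
    have h1 : (κ ^ 2 / 100) ^ 3 < δ ^ 3 := pow_lt_pow_left₀ hc hκ2.le (by norm_num)
    have h2 : (κ ^ 2 / 100) ^ 3 * k < 1 := by
      calc (κ ^ 2 / 100) ^ 3 * k < δ ^ 3 * k := mul_lt_mul_of_pos_right h1 hkp
        _ ≤ 1 := h.dsm
    have h3 : (κ ^ 2 / 100) ^ 3 * (100 / κ ^ 2) ^ 3 = 1 := by
      rw [← mul_pow]
      have : κ ^ 2 / 100 * (100 / κ ^ 2) = 1 := by field_simp
      rw [this, one_pow]
    have h4 : (κ ^ 2 / 100) ^ 3 * (100 / κ ^ 2) ^ 3 < (κ ^ 2 / 100) ^ 3 * k :=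
      mul_lt_mul_of_pos_left k3 (by positivity)
    linarith
  have hκκ : κ ^ 2 ≤ κ / 20 := by
    calc κ ^ 2 = κ * κ := by ring
      _ ≤ κ * (1 / 20) := mul_le_mul_of_nonneg_left hκ hκ0.le
      _ = κ / 20 := by ring
  have hκ2 : κ ^ 2 ≤ 1 / 400 := by linarith
  have hd1 : δ ≤ 1 / 100 := by linarith
  have heta : 1 / 2 - (ν + γ) ≤ (t + 1) * Real.log k / k := by
    have h1 : Real.exp (2 * k * (1 / 2 - (ν + γ))) ≤ (k : ℝ) ^ (2 * t + 2) := by
      have e1 : (1 / (k : ℝ)) ^ (2 * t + 1) * (1 / 2) ^ (t + 2) *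
          Real.exp (2 * k * (1 / 2 - (ν + γ))) =
          Real.exp (2 * k * (1 / 2 - (ν + γ))) / ((k : ℝ) ^ (2 * t + 1) * 2 ^ (t + 2)) := by
        rw [one_div_pow, one_div_pow]
        field_simp
      rw [e1, div_le_iff₀ (by positivity)] at hdge
      calc Real.exp (2 * k * (1 / 2 - (ν + γ))) ≤ δ * ((k : ℝ) ^ (2 * t + 1) * 2 ^ (t + 2)) := hdge
        _ ≤ 1 * ((k : ℝ) ^ (2 * t + 1) * k) := by
            refine mul_le_mul (by linarith) ?_ (by positivity) (by norm_num)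
            exact mul_le_mul_of_nonneg_left k2 (by positivity)
        _ = (k : ℝ) ^ (2 * t + 2) := by rw [one_mul, ← pow_succ]
    have h2 : 2 * k * (1 / 2 - (ν + γ)) ≤ (2 * t + 2) * Real.log k := by
      have h3 := Real.log_le_log (Real.exp_pos _) h1
      rw [Real.log_exp, Real.log_pow] at h3
      push_cast at h3
      exact h3
    rw [le_div_iff₀ hkp]
    linarith
  have hη1 : 1 / 2 - (ν + γ) ≤ 1 / 100 := heta.trans k4
  obtain ⟨hgam1, hgam2⟩ := gam_aux k1 hg0 hgn h.del hd0 (by linarith)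
  have hγ : γ ≤ 1 / 100 := by
    refine hgam2.trans ?_
    rw [div_le_iff₀ (by positivity)]
    have h1 : δ * (1 + δ) * (ν + γ) ≤ (1 / 100) * 2 * (1 / 2) := by
      refine mul_le_mul (mul_le_mul hd1 (by linarith) (by linarith) (by norm_num)) hl hlp.le
        (by norm_num)
    linarith
  have hnu : 12 / 25 ≤ ν := by linarith
  have hlam : 12 / 25 ≤ ν + γ := by linarith
  have heps : (1 / (k : ℝ)) ^ (10 * t + 20) ≤ δ * (1 / (k : ℝ)) ^ 2 := by
    have hkk2 : (2 : ℝ) ≤ k := by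
      calc (2 : ℝ) = 2 ^ 1 := by norm_num
        _ ≤ 2 ^ (t + 2) := pow_le_pow_right₀ (by norm_num) (by omega)
        _ ≤ k := k2
    have hk2' : 1 / (k : ℝ) ≤ 1 / 2 := one_div_le_one_div_of_le (by norm_num) hkk2
    have hkn : 0 ≤ 1 / (k : ℝ) := by positivity
    have h1 : (1 / (k : ℝ)) ^ (8 * t + 17) ≤ (1 / 2) ^ (t + 2) := by
      calc (1 / (k : ℝ)) ^ (8 * t + 17) ≤ (1 / 2) ^ (8 * t + 17) := pow_le_pow_left₀ hkn hk2' _
        _ ≤ (1 / 2) ^ (t + 2) := pow_le_pow_of_le_one (by norm_num) (by norm_num) (by omega)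
    have h2 : (1 / (k : ℝ)) ^ (2 * t + 1) * (1 / 2) ^ (t + 2) ≤ δ := by
      refine le_trans ?_ hdge
      have h3 : (1 : ℝ) ≤ Real.exp (2 * k * (1 / 2 - (ν + γ))) :=
        Real.one_le_exp (by positivity)
      exact le_mul_of_one_le_right (by positivity) h3
    have e1 : (1 / (k : ℝ)) ^ (10 * t + 20) =
        (1 / (k : ℝ)) ^ (2 * t + 1) * (1 / (k : ℝ)) ^ (8 * t + 17) * (1 / (k : ℝ)) ^ 2 := by
      rw [← pow_add, ← pow_add]
      congr 1
      omega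
    rw [e1]
    refine mul_le_mul_of_nonneg_right ?_ (by positivity)
    exact (mul_le_mul_of_nonneg_left h1 (by positivity)).trans h2
  -- eigenfunctions
  have hWφ : ∀ x, Wop G (fun x => u x + v x) x = (ν + γ) * (u x + v x) := by
    intro x
    have h1 := h.hu x
    have h2 := h.hv x
    unfold Wop at h1 h2 ⊢
    rw [avS_add, h1, h2]; ring
  have hφ2 : av (fun x => (u x + v x) ^ 2) = 1 := by
    have e : (fun x => (u x + v x) ^ 2) = fun x => (u x ^ 2 + v x ^ 2) + 2 * (u x * v x) := by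
      funext x; ring
    rw [e, av_add (fun x => u x ^ 2 + v x ^ 2), av_add, av_mul_left, h.u2, h.v2, h.uv]
    norm_num
  obtain ⟨a1, a2, a3, a4⟩ := av_one_lo h.og hWφ h.pos hφ2 hlam
  have hphi2 : av (fun x => (u x + v x - 1) ^ 2) ≤ 4 * (1 / 2 - (ν + γ)) := by
    rw [a3]; linarith
  have hkinv : (1 / (k : ℝ)) ^ 2 ≤ κ / 2 := by
    have h1 : (100 / κ ^ 2) ^ 3 ≤ (k : ℝ) := k3.le
    have h2 : 2 / κ ≤ (100 / κ ^ 2) ^ 3 := by
      have h3 : 2 / κ ≤ 100 / κ ^ 2 := by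
        rw [div_le_div_iff₀ hκ0 (by positivity)]
        linarith
      have h4 : 1 ≤ 100 / κ ^ 2 := by
        rw [le_div_iff₀ (by positivity)]; linarith
      calc 2 / κ ≤ 100 / κ ^ 2 := h3
        _ = (100 / κ ^ 2) ^ 1 := (pow_one _).symm
        _ ≤ (100 / κ ^ 2) ^ 3 := pow_le_pow_right₀ h4 (by norm_num)
    have h5 : 2 / κ ≤ (k : ℝ) := h2.trans h1
    have h6 : 1 / (k : ℝ) ≤ κ / 2 := by
      rw [div_le_div_iff₀ hkp (by norm_num)]
      rw [div_le_iff₀ hκ0] at h5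
      linarith
    calc (1 / (k : ℝ)) ^ 2 = (1 / (k : ℝ)) * (1 / (k : ℝ)) := by ring
      _ ≤ (κ / 2) * 1 := mul_le_mul h6 (by rw [div_le_one hkp]; exact hk1) (by positivity)
          (by positivity)
      _ = κ / 2 := mul_one _
  have hRpos : ∀ x ∈ cR κ u v, 0 < u x ∧ 0 < v x ∧ κ / 2 ≤ om u v x := by
    intro x hx
    have hv0 : 0 < v x := R_aux hκ0 hκ hkinv hd0 hdk heps (h.pos x) hx.1 (h.kkt x)
    have hu0 : 0 < u x := by
      refine R_aux hκ0 hκ hkinv hd0 hdk heps (a := v x) (b := u x) ?_ hx.2 (h.swap.kkt x)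
      rw [add_comm]; exact h.pos x
    refine ⟨hu0, hv0, ?_⟩
    unfold om
    have h1 := hx.1
    have h2 := hx.2
    have h3 : -(1 - κ) ≤ u x - v x := by linarith
    have h4 : u x - v x ≤ 1 - κ := by linarith
    have h5 : (u x - v x) ^ 2 ≤ (1 - κ) ^ 2 := sq_le_sq' h3 h4
    have e1 : (1 - κ) ^ 2 = 1 - 2 * κ + κ ^ 2 := by ring
    linarith
  have heps1 : (1 / (k : ℝ)) ^ (10 * t + 20) ≤ δ := by
    refine heps.trans ?_
    have : (1 / (k : ℝ)) ^ 2 ≤ 1 := by linarith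
    calc δ * (1 / (k : ℝ)) ^ 2 ≤ δ * 1 := mul_le_mul_of_nonneg_left this hd0.le
      _ = δ := mul_one δ
  refine ⟨heta, hnu, hd0, hdk, hdge, heps, hgam1, hgam2, hphi2, ?_, phi3_aux hWφ hφ2 hlam, hRpos,
    ?_, ?_⟩
  · refine ome_aux (φ := fun x => u x + v x) h.pos hη0 hd0.le hd1 heps1 ?_ hphi2 ?_
    · intro x
      have h1 := h.kkt x
      have e : om u v x = (1 - (u x + v x) ^ 2) + δ * om u v x +
          (4 * u x * v x - δ * (1 - (u x - v x) ^ 2)) := by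
        unfold om; ring
      calc |om u v x| = |(1 - (u x + v x) ^ 2) + δ * om u v x +
          (4 * u x * v x - δ * (1 - (u x - v x) ^ 2))| := by rw [← e]
        _ ≤ |(1 - (u x + v x) ^ 2) + δ * om u v x| +
            |4 * u x * v x - δ * (1 - (u x - v x) ^ 2)| := abs_add_le _ _
        _ ≤ (|1 - (u x + v x) ^ 2| + |δ * om u v x|) + (1 / (k : ℝ)) ^ (10 * t + 20) :=
            add_le_add (abs_add_le _ _) h1
        _ = _ := by rw [abs_mul, abs_of_pos hd0]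
    · rw [a4]; linarith
  · intro x hx
    obtain ⟨h1, h2, h3⟩ := hRpos x hx
    have h4 := (abs_le.1 (h.kkt x)).2
    have h5 : om u v x ≤ 1 := by
      unfold om
      linarith [sq_nonneg (u x - v x)]
    have h6 : (u x - v x) ^ 2 ≤ (1 - κ) ^ 2 := sq_le_sq' (by linarith [hx.2]) (by linarith [hx.1])
    have h7 : (u x + v x) ^ 2 ≤ (1 - κ) ^ 2 + 2 * δ := by
      have e : (u x + v x) ^ 2 = (u x - v x) ^ 2 + 4 * u x * v x := by ring
      have h8 : δ * (1 - (u x - v x) ^ 2) ≤ δ * 1 := mul_le_mul_of_nonneg_left h5 hd0.le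
      linarith
    have h9 : (1 - κ) ^ 2 + 2 * δ ≤ (1 - κ / 2) ^ 2 := by
      have e1 : (1 - κ) ^ 2 = 1 - 2 * κ + κ ^ 2 := by ring
      have e2 : (1 - κ / 2) ^ 2 = 1 - κ + κ ^ 2 / 4 := by ring
      linarith
    exact le_of_sq_le_sq (h7.trans h9) (by linarith)
  · have h1 : (κ / 2) ^ 2 * ms (cR κ u v) ≤ avS (cR κ u v) (fun x => (u x + v x - 1) ^ 2) := by
      refine mul_ms_le_avS fun x hx => ?_
      obtain ⟨h1, h2, h3⟩ := hRpos x hx
      have h4 := (abs_le.1 (h.kkt x)).2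
      have h5 : om u v x ≤ 1 := by
        unfold om
        linarith [sq_nonneg (u x - v x)]
      have h6 : (u x - v x) ^ 2 ≤ (1 - κ) ^ 2 :=
        sq_le_sq' (by linarith [hx.2]) (by linarith [hx.1])
      have h7 : (u x + v x) ^ 2 ≤ (1 - κ) ^ 2 + 2 * δ := by
        have e : (u x + v x) ^ 2 = (u x - v x) ^ 2 + 4 * u x * v x := by ring
        have h8 : δ * (1 - (u x - v x) ^ 2) ≤ δ * 1 := mul_le_mul_of_nonneg_left h5 hd0.le
        linarith
      have h9 : (1 - κ) ^ 2 + 2 * δ ≤ (1 - κ / 2) ^ 2 := by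
        have e1 : (1 - κ) ^ 2 = 1 - 2 * κ + κ ^ 2 := by ring
        have e2 : (1 - κ / 2) ^ 2 = 1 - κ + κ ^ 2 / 4 := by ring
        linarith
      have h10 : u x + v x ≤ 1 - κ / 2 := le_of_sq_le_sq (h7.trans h9) (by linarith)
      have e3 : (u x + v x - 1) ^ 2 = (1 - (u x + v x)) ^ 2 := by ring
      rw [e3]
      exact pow_le_pow_left₀ (by linarith) (by linarith) 2
    have h2 : avS (cR κ u v) (fun x => (u x + v x - 1) ^ 2) ≤ av (fun x => (u x + v x - 1) ^ 2) := by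
      rw [← avS_univ (fun x => (u x + v x - 1) ^ 2)]
      exact avS_mono_set (Set.subset_univ _) fun x _ => sq_nonneg _
    rw [le_div_iff₀ (by positivity)]
    have e4 : ms (cR κ u v) * κ ^ 2 = 4 * ((κ / 2) ^ 2 * ms (cR κ u v)) := by ring
    rw [e4]
    linarith

end Pool.Agent.OCX
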