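import Pool.Agent.OCX.Stmts

/-!
# OCX, module BLA: replacing the vertices of `L` by copies of `x`
-/

set_option autoImplicit false

open scoped BigOperators
open Finset

namespace Pool.Agent.OCX

namespace BLA_

variable {n m : ℕ}

theorem mem_cws_add (H : SimpleGraph (Fin n)) (i : Fin (m + 1)) (y : Fin (m + 1) → Fin n)
    (hy : y ∈ cws H (m + 1)) : (fun j => y (j + i)) ∈ cws H (m + 1) := by
  intro a b hab
  refine hy _ _ ?_
  rw [SimpleGraph.cycleGraph_adj'] at hab ⊢
  rw [add_sub_add_right_eq_sub, add_sub_add_right_eq_sub]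
  exact hab

open Classical in
/-- closed walks as a finset -/
noncomputable def cwf (H : SimpleGraph (Fin n)) (k : ℕ) : Finset (Fin k → Fin n) :=
  univ.filter fun y => y ∈ cws H k

theorem mem_cwf (H : SimpleGraph (Fin n)) (k : ℕ) (y : Fin k → Fin n) :
    y ∈ cwf H k ↔ y ∈ cws H k := by simp [cwf]

theorem cwn_eq (H : SimpleGraph (Fin n)) (k : ℕ) : cwn H k = (cwf H k).card := by
  unfold cwn
  rw [← Set.ncard_coe_finset]
  congr 1
  ext y
  simp [mem_cwf]

open Classical in
theorem cwx_eq (H : SimpleGraph (Fin n)) (i : Fin (m + 1)) (z : Fin n) :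
    cwx H (m + 1) z = ((cwf H (m + 1)).filter fun y => y i = z).card := by
  have h0 : cwx H (m + 1) z = ((cwf H (m + 1)).filter fun y => y 0 = z).card := by
    unfold cwx
    rw [← Set.ncard_coe_finset]
    congr 1
    ext y
    simp only [Set.mem_setOf_eq, coe_filter, mem_cwf]
    constructor
    · rintro ⟨h1, h2⟩
      exact ⟨h1, h2 0 rfl⟩
    · rintro ⟨h1, h2⟩
      refine ⟨h1, fun j hj => ?_⟩
      have : j = 0 := Fin.ext (by simpa using hj)
      rw [this]; exact h2
  rw [h0]
  refine card_bij (fun y _ => fun j => y (j - i)) ?_ ?_ ?_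
  · intro y hy
    rw [mem_filter, mem_cwf] at hy ⊢
    refine ⟨?_, ?_⟩
    · have := mem_cws_add H (-i) y hy.1
      simpa [sub_eq_add_neg] using this
    · simpa using hy.2
  · intro y hy y' hy' h
    funext j
    have := congrFun h (j + i)
    simpa using this
  · intro y hy
    rw [mem_filter, mem_cwf] at hy
    refine ⟨fun j => y (j + i), ?_, ?_⟩
    · rw [mem_filter, mem_cwf]
      exact ⟨mem_cws_add H i y hy.1, by simpa using hy.2⟩
    · funext j
      simp

open Classical in
theorem card_two {k : ℕ} (i j : Fin k) (hij : i ≠ j) (x z : Fin n) :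
    (univ.filter fun w : Fin k → Fin n => w i = x ∧ w j = z).card ≤ n ^ (k - 2) := by
  have hsub : (univ.filter fun w : Fin k → Fin n => w i = x ∧ w j = z) ⊆
      Fintype.piFinset (fun l : Fin k =>
        if l = i then ({x} : Finset (Fin n)) else if l = j then {z} else univ) := by
    intro w hw
    rw [mem_filter] at hw
    rw [Fintype.mem_piFinset]
    intro l
    split_ifs with h1 h2
    · rw [h1, mem_singleton]; exact hw.2.1
    · rw [h2, mem_singleton]; exact hw.2.2
    · exact mem_univ _
  refine (card_le_card hsub).trans ?_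
  rw [Fintype.card_piFinset]
  rw [← mul_prod_erase univ _ (mem_univ i)]
  have hj : j ∈ univ.erase i := mem_erase.2 ⟨hij.symm, mem_univ _⟩
  rw [← mul_prod_erase (univ.erase i) _ hj]
  have hc : ∏ l ∈ (univ.erase i).erase j,
      (if l = i then ({x} : Finset (Fin n)) else if l = j then {z} else univ).card = n ^ (k - 2) := by
    have : ∀ l ∈ (univ.erase i).erase j,
        (if l = i then ({x} : Finset (Fin n)) else if l = j then {z} else univ).card = n := by
      intro l hl
      rw [mem_erase, mem_erase] at hl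
      rw [if_neg hl.2.1, if_neg hl.1, card_univ, Fintype.card_fin]
    rw [prod_congr rfl this, prod_const, card_erase_of_mem hj, card_erase_of_mem (mem_univ _),
      card_univ, Fintype.card_fin]
    rfl
  rw [hc, if_pos rfl, if_neg hij.symm, if_pos rfl, card_singleton, card_singleton, one_mul, one_mul]

end BLA_

open BLA_ in
open Classical in
theorem bla_proof : Stmt_BLA := by
  intro n k H L x hk
  obtain ⟨m, rfl⟩ : ∃ m, k = m + 1 := ⟨k - 1, by omega⟩
  set φ : Fin n → Fin n := fun y => if y ∈ L then x else y with hφ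
  have hφn : ∀ y, y ∉ L → φ y = y := fun y hy => if_neg hy
  have hφp : ∀ y, y ∈ L → φ y = x := fun y hy => if_pos hy
  let H' := H.comap φ
  have hH' : (H.comap fun y => if y ∈ L then x else y) = H' := rfl
  -- walks avoiding `L`
  let A : Finset (Fin (m + 1) → Fin n) := (cwf H (m + 1)).filter fun y => ∀ i, y i ∉ L
  let W : Fin (m + 1) → Finset (Fin (m + 1) → Fin n) := fun i =>
    (cwf H (m + 1)).filter fun w => w i = x ∧ ∀ j, j ≠ i → w j ∉ L
  let B : Fin (m + 1) → Finset (Fin (m + 1) → Fin n) := fun i =>
    (L ×ˢ W i).image fun p => Function.update p.2 i p.1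
  have hA : cwn H (m + 1) ≤ A.card + (m + 1) * ∑ z ∈ L, cwx H (m + 1) z := by
    rw [cwn_eq]
    have hsub : cwf H (m + 1) ⊆ A ∪ (univ : Finset (Fin (m + 1))).biUnion fun i =>
        L.biUnion fun z => (cwf H (m + 1)).filter fun y => y i = z := by
      intro y hy
      rw [mem_union]
      by_cases h : ∀ i, y i ∉ L
      · left
        exact mem_filter.2 ⟨hy, h⟩
      · right
        push_neg at h
        obtain ⟨i, hi⟩ := h
        rw [mem_biUnion]
        refine ⟨i, mem_univ _, ?_⟩
        rw [mem_biUnion]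
        exact ⟨y i, hi, mem_filter.2 ⟨hy, rfl⟩⟩
    refine (card_le_card hsub).trans ((card_union_le _ _).trans ?_)
    refine Nat.add_le_add_left ?_ _
    refine card_biUnion_le.trans ?_
    have : ∀ i ∈ (univ : Finset (Fin (m + 1))),
        (L.biUnion fun z => (cwf H (m + 1)).filter fun y => y i = z).card ≤
          ∑ z ∈ L, cwx H (m + 1) z := by
      intro i _
      refine card_biUnion_le.trans (le_of_eq ?_)
      exact sum_congr rfl fun z _ => (cwx_eq H i z).symm
    refine (sum_le_sum this).trans (le_of_eq ?_)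
    rw [sum_const, card_univ, Fintype.card_fin, smul_eq_mul]
  have hW : ∀ i, cwx H (m + 1) x ≤ (W i).card + (m + 1) * (L.card * n ^ (m + 1 - 2)) := by
    intro i
    rw [cwx_eq H i x]
    have hsub : ((cwf H (m + 1)).filter fun y => y i = x) ⊆
        W i ∪ (univ.erase i).biUnion fun j =>
          L.biUnion fun z => univ.filter fun w : Fin (m + 1) → Fin n => w i = x ∧ w j = z := by
      intro y hy
      rw [mem_filter] at hy
      rw [mem_union]
      by_cases h : ∀ j, j ≠ i → y j ∉ L
      · left
        exact mem_filter.2 ⟨hy.1, hy.2, h⟩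
      · right
        push_neg at h
        obtain ⟨j, hji, hj⟩ := h
        rw [mem_biUnion]
        refine ⟨j, mem_erase.2 ⟨hji, mem_univ _⟩, ?_⟩
        rw [mem_biUnion]
        exact ⟨y j, hj, mem_filter.2 ⟨mem_univ _, hy.2, rfl⟩⟩
    refine (card_le_card hsub).trans ((card_union_le _ _).trans ?_)
    refine Nat.add_le_add_left ?_ _
    refine card_biUnion_le.trans ?_
    have : ∀ j ∈ univ.erase i,
        (L.biUnion fun z => univ.filter fun w : Fin (m + 1) → Fin n => w i = x ∧ w j = z).card ≤
          L.card * n ^ (m + 1 - 2) := by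
      intro j hj
      refine card_biUnion_le.trans ?_
      refine (sum_le_sum fun z _ => card_two i j (mem_erase.1 hj).1.symm x z).trans (le_of_eq ?_)
      rw [sum_const, smul_eq_mul]
    refine (sum_le_sum this).trans ?_
    rw [sum_const, smul_eq_mul]
    refine Nat.mul_le_mul_right _ ?_
    refine (card_le_univ _).trans (le_of_eq ?_)
    rw [Fintype.card_fin]
  have hBmem : ∀ i, ∀ y ∈ B i, y i ∈ L ∧ ∀ j, j ≠ i → y j ∉ L := by
    intro i y hy
    rw [mem_image] at hy
    obtain ⟨p, hp, rfl⟩ := hy
    rw [mem_product] at hp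
    have hw := (mem_filter.1 hp.2).2
    refine ⟨by simpa using hp.1, fun j hj => ?_⟩
    rw [Function.update_of_ne hj]
    exact hw.2 j hj
  have hBcard : ∀ i, (B i).card = L.card * (W i).card := by
    intro i
    rw [← card_product]
    refine card_image_of_injOn ?_
    intro p hp q hq hpq
    rw [mem_coe, mem_product] at hp hq
    have hp2 := (mem_filter.1 hp.2).2
    have hq2 := (mem_filter.1 hq.2).2
    have h1 : p.1 = q.1 := by
      have := congrFun hpq i
      simpa using this
    refine Prod.ext h1 ?_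
    funext j
    by_cases hj : j = i
    · rw [hj, hp2.1, hq2.1]
    · have := congrFun hpq j
      simpa [Function.update_of_ne hj] using this
  have hB' : ∀ i, B i ⊆ cwf H' (m + 1) := by
    intro i y hy
    have hyL := hBmem i y hy
    rw [mem_image] at hy
    obtain ⟨p, hp, rfl⟩ := hy
    rw [mem_product] at hp
    have hw := mem_filter.1 hp.2
    have hcw := (mem_cwf H (m + 1) p.2).1 hw.1
    rw [mem_cwf]
    have key : ∀ j, φ (Function.update p.2 i p.1 j) = p.2 j := by
      intro j
      by_cases hj : j = i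
      · rw [hj, Function.update_self, hφp _ hp.1, hw.2.1]
      · rw [Function.update_of_ne hj]
        exact hφn _ (hw.2.2 j hj)
    intro a b hab
    change H.Adj (φ _) (φ _)
    rw [key, key]
    exact hcw a b hab
  have hA' : A ⊆ cwf H' (m + 1) := by
    intro y hy
    obtain ⟨h1, h2⟩ := mem_filter.1 hy
    rw [mem_cwf] at h1 ⊢
    intro a b hab
    change H.Adj (φ _) (φ _)
    rw [hφn _ (h2 a), hφn _ (h2 b)]
    exact h1 a b hab
  have hdis : (↑(univ : Finset (Fin (m + 1))) : Set (Fin (m + 1))).PairwiseDisjoint B := by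
    intro i _ j _ hij
    change Disjoint (B i) (B j)
    rw [Finset.disjoint_left]
    intro y hyi hyj
    exact (hBmem i y hyi).2 j (Ne.symm hij) (hBmem j y hyj).1
  have hdis2 : Disjoint A (univ.biUnion B) := by
    rw [Finset.disjoint_left]
    intro y hyA hyB
    rw [mem_biUnion] at hyB
    obtain ⟨i, _, hi⟩ := hyB
    exact (mem_filter.1 hyA).2 i (hBmem i y hi).1
  have hsum : A.card + ∑ i : Fin (m + 1), L.card * (W i).card ≤ cwn H' (m + 1) := by
    rw [cwn_eq]
    have h1 : (univ.biUnion B).card = ∑ i : Fin (m + 1), L.card * (W i).card := by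
      rw [card_biUnion hdis]
      exact sum_congr rfl fun i _ => hBcard i
    rw [← h1, ← card_union_of_disjoint hdis2]
    refine card_le_card (union_subset hA' ?_)
    rw [biUnion_subset]
    exact fun i _ => hB' i
  have hW2 : (m + 1) * (L.card * cwx H (m + 1) x) ≤
      ∑ i : Fin (m + 1), L.card * (W i).card +
        (m + 1) * (L.card * ((m + 1) * (L.card * n ^ (m + 1 - 2)))) := by
    have h1 : ∑ i : Fin (m + 1), L.card * cwx H (m + 1) x ≤
        ∑ i : Fin (m + 1), (L.card * (W i).card + L.card * ((m + 1) * (L.card * n ^ (m + 1 - 2)))) := by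
      refine sum_le_sum fun i _ => ?_
      rw [← Nat.mul_add]
      exact Nat.mul_le_mul_left _ (hW i)
    rw [sum_add_distrib, sum_const, sum_const, card_univ, Fintype.card_fin, smul_eq_mul,
      smul_eq_mul] at h1
    exact h1
  rw [hH']
  calc cwn H (m + 1) + (m + 1) * L.card * cwx H (m + 1) x
      ≤ (A.card + (m + 1) * ∑ z ∈ L, cwx H (m + 1) z) +
        (∑ i : Fin (m + 1), L.card * (W i).card +
          (m + 1) * (L.card * ((m + 1) * (L.card * n ^ (m + 1 - 2))))) := by
        refine Nat.add_le_add hA ?_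
        rw [mul_assoc]; exact hW2
    _ = (A.card + ∑ i : Fin (m + 1), L.card * (W i).card) + (m + 1) * ∑ z ∈ L, cwx H (m + 1) z +
        (m + 1) ^ 2 * L.card ^ 2 * n ^ (m + 1 - 2) := by ring
    _ ≤ cwn H' (m + 1) + (m + 1) * ∑ z ∈ L, cwx H (m + 1) z +
        (m + 1) ^ 2 * L.card ^ 2 * n ^ (m + 1 - 2) := by
        exact Nat.add_le_add_right (Nat.add_le_add_right hsum _) _

end Pool.Agent.OCX
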