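import Pool.Agent.OCX.Stmts
import Pool.Agent.OCX.Lib

/-!
# OCX, module BOO: bootstrapping (helper29)
-/

open scoped BigOperators

namespace Pool.Agent.OCX

namespace BOO_

noncomputable section

variable {V : Type} [Fintype V]

theorem ee_nonneg {G : SimpleGraph V} {ν : ℝ} {A : Set V} {u : V → ℝ} (hν : 0 ≤ ν)
    (hu : ∀ x ∈ A, 0 ≤ u x) (x : V) : 0 ≤ ee G ν A u x := by
  unfold ee
  exact div_nonneg (avS_nonneg fun y hy => hu y hy.2) hν

theorem ee_le_two {G : SimpleGraph V} {ν : ℝ} {A : Set V} {u : V → ℝ} (hν : 12 / 25 ≤ ν)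
    (h2 : av (fun x => u x ^ 2) = 1 / 2) (x : V) : ee G ν A u x ≤ 2 := by
  unfold ee
  set S : Set V := G.neighborSet x ∩ A
  have h3 := avS_sq_le S u (fun _ => (1 : ℝ))
  have h4 : avS S (fun x => u x ^ 2) ≤ 1 / 2 := by
    rw [← h2, ← avS_univ]
    exact avS_mono_set (Set.subset_univ _) fun y _ => sq_nonneg _
  have h5 : avS S (fun _ => (1 : ℝ) ^ 2) ≤ 1 := by
    have e : avS S (fun _ => (1 : ℝ) ^ 2) = ms S := by
      unfold ms
      congr 1
      funext _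
      norm_num
    rw [e]
    exact ms_le_one S
  have h6 : 0 ≤ avS S (fun _ => (1 : ℝ) ^ 2) := avS_nonneg fun _ _ => by norm_num
  have h7 : 0 ≤ avS S (fun x => u x ^ 2) := avS_nonneg fun _ _ => sq_nonneg _
  have e8 : avS S (fun x => u x * 1) = avS S u := by
    congr 1
    funext y
    rw [mul_one]
  rw [e8] at h3
  have h9 : avS S u ^ 2 ≤ 1 / 2 := by nlinarith
  have h10 : avS S u ≤ 24 / 25 := by nlinarith
  rw [div_le_iff₀ (by linarith)]
  linarith

theorem ee_pos_iff {G : SimpleGraph V} {ν : ℝ} {A : Set V} {u : V → ℝ} (hν : 0 < ν)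
    (hu : ∀ x ∈ A, 0 < u x) (x : V) : 0 < ee G ν A u x ↔ ∃ a ∈ A, G.Adj x a := by
  unfold ee
  constructor
  · intro h
    by_contra hc
    push Not at hc
    have e : G.neighborSet x ∩ A = ∅ := by
      ext y
      simp only [Set.mem_inter_iff, SimpleGraph.mem_neighborSet, Set.mem_empty_iff_false,
        iff_false, not_and]
      exact fun h1 h2 => hc y h2 h1
    rw [e, avS_empty, zero_div] at h
    exact lt_irrefl _ h
  · rintro ⟨a, ha, hadj⟩
    refine div_pos ?_ hν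
    have h1 : avS ({a} : Set V) u ≤ avS (G.neighborSet x ∩ A) u := by
      refine avS_mono_set ?_ fun y hy => (hu y hy.2).le
      rw [Set.singleton_subset_iff]
      exact ⟨hadj, ha⟩
    refine lt_of_lt_of_le ?_ h1
    rw [avS_singleton]
    have : Nonempty V := ⟨a⟩
    exact div_pos (hu a ha) (by exact_mod_cast Fintype.card_pos)

theorem PS_one_le (G : SimpleGraph V) (R : Set V) (m : ℕ) :
    PS G R m (fun _ => (1 : ℝ)) ≤ ms R ^ m := by
  have h := PS_le_prod (G := G) (R := R) (m := m) (F := fun _ => (1 : ℝ)) (fun _ => R)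
    (fun _ _ => (1 : ℝ)) (fun _ _ _ => zero_le_one) (fun y hy => by
      rw [Finset.prod_congr rfl fun i _ => Set.indicator_of_mem (hy.1 i) _]
      simp)
  refine h.trans (le_of_eq ?_)
  rw [Finset.prod_const, Finset.card_univ, Fintype.card_fin]
  rfl

theorem PS_const_le {G : SimpleGraph V} {R : Set V} {m : ℕ} {F : (Fin m → V) → ℝ} {c : ℝ}
    (hc : 0 ≤ c) (h : ∀ y, IsP G R y → F y ≤ c) : PS G R m F ≤ c * ms R ^ m := by
  calc PS G R m F ≤ PS G R m (fun _ => c * 1) := PS_mono fun y hy => by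
        rw [mul_one]
        exact h y hy
    _ = c * PS G R m (fun _ => (1 : ℝ)) := PS_mul_left c _
    _ ≤ c * ms R ^ m := mul_le_mul_of_nonneg_left (PS_one_le G R m) hc

/-- the first numerical step -/
theorem num1 {k d δ ρ a θ T ν γ r O Q Z U E ε : ℝ} (hk : 1 ≤ k) (hδ : 0 < δ)
    (hd : d * k = δ) (hρ : 0 < ρ) (hρ1 : ρ ≤ 1) (hθ : 0 ≤ θ) (hθa : θ ≤ a)
    (ha : a * (100 * T) ≤ ρ) (hT : 1 ≤ T) (hν : 12 / 25 ≤ ν) (hν2 : ν ≤ 1 / 2) (hγ : 0 ≤ γ)
    (hl : ν + γ ≤ 1 / 2) (hδs : δ ≤ 1 / 40000) (g1 : d * (ν + γ) / 2 ≤ γ)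
    (g2 : γ ≤ d * (1 + δ) * (ν + γ) / 2) (hr : 0 ≤ r) (hO : ρ * r ≤ O)
    (hQ : 0 ≤ Q) (hZ0 : 0 ≤ Z) (hZ : |Q - Z| ≤ a * Z + E) (hE : E ≤ a * d)
    (hfl : |ν * Q - γ| ≤ θ * (γ + δ * r)) (hkkt : δ * O - ε * r ≤ 4 * U)
    (hε : ε * r / 4 ≤ θ * d) (hU : U ≤ (1 + a) * (T * Z) + E) :
    O * k ≤ 3 * T ∧ d ≤ 13 / 5 * Z := by
  have hk0 : 0 < k := by linarith
  have hd0 : 0 < d := by
    by_contra h
    push Not at h
    have : d * k ≤ 0 := mul_nonpos_of_nonpos_of_nonneg h hk0.le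
    linarith
  have ha0 : 0 ≤ a := hθ.trans hθa
  have haT : a * T ≤ 1 / 100 := by nlinarith
  have ha1 : a ≤ 1 / 100 := by nlinarith
  have hrO : a * T * r ≤ O / 100 := by
    have : a * T ≤ ρ / 100 := by linarith
    have := mul_le_mul_of_nonneg_right this hr
    linarith
  have hO0 : 0 ≤ O := (mul_nonneg hρ.le hr).trans hO
  -- upper bound for `γ`
  have g3 : γ ≤ 251 / 1000 * d := by
    have e1 : (1 + δ) * (ν + γ) ≤ 502 / 1000 := by nlinarith
    have e2 : d * ((1 + δ) * (ν + γ)) ≤ d * (502 / 1000) := mul_le_mul_of_nonneg_left e1 hd0.le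
    nlinarith
  have hδr : 0 ≤ δ * r := mul_nonneg hδ.le hr
  have hfl1 := (abs_le.mp hfl).1
  have hfl2 := (abs_le.mp hfl).2
  have hZ1 := (abs_le.mp hZ).1
  have hZ2 := (abs_le.mp hZ).2
  -- `Q` from above
  have q1 : Q ≤ 25 / 12 * (254 / 1000 * d + θ * (δ * r)) := by
    have e1 : ν * Q ≤ γ + θ * (γ + δ * r) := by linarith
    have e2 : θ * γ ≤ 1 / 100 * γ := mul_le_mul_of_nonneg_right (hθa.trans ha1) hγ
    have e3 : 12 / 25 * Q ≤ ν * Q := mul_le_mul_of_nonneg_right hν hQ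
    nlinarith
  have q2 : θ * (δ * r) ≤ a * (δ * r) := mul_le_mul_of_nonneg_right hθa hδr
  have z1 : (1 - a) * Z ≤ 530 / 1000 * d + 25 / 12 * (a * (δ * r)) + a * d := by
    nlinarith
  have z2 : Z ≤ 546 / 1000 * d + 213 / 100 * (a * (δ * r)) := by
    have e1 : 99 / 100 * Z ≤ (1 - a) * Z := mul_le_mul_of_nonneg_right (by linarith) hZ0
    have e2 : a * d ≤ 1 / 100 * d := mul_le_mul_of_nonneg_right ha1 hd0.le
    have e3 : 0 ≤ a * (δ * r) := mul_nonneg ha0 hδr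
    linarith
  have z3 : T * Z ≤ 546 / 1000 * (T * d) + 213 / 10000 * (δ * O) := by
    have e1 := mul_le_mul_of_nonneg_left z2 (by linarith : (0 : ℝ) ≤ T)
    have e2 : δ * (a * T * r) ≤ δ * (O / 100) := mul_le_mul_of_nonneg_left hrO hδ.le
    nlinarith
  have hTd : d ≤ T * d := by nlinarith
  have hTZ0 : 0 ≤ T * Z := mul_nonneg (by linarith) hZ0
  have o1 : δ * O / 4 ≤ 101 / 100 * (T * Z) + 2 * (a * d) := by
    have e1 : (1 + a) * (T * Z) ≤ 101 / 100 * (T * Z) :=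
      mul_le_mul_of_nonneg_right (by linarith) hTZ0
    have e2 : θ * d ≤ a * d := mul_le_mul_of_nonneg_right hθa hd0.le
    linarith
  have o2 : δ * O ≤ 13 / 5 * (T * d) := by
    have e2 : a * d ≤ 1 / 100 * (T * d) := by
      have := mul_le_mul_of_nonneg_right ha1 hd0.le
      linarith
    have e3 : 0 ≤ δ * O := mul_nonneg hδ.le hO0
    linarith
  have o3 : O * k ≤ 13 / 5 * T := by
    rw [← hd] at o2
    have : d * (O * k) ≤ d * (13 / 5 * T) := by linarith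
    exact le_of_mul_le_mul_left this hd0
  refine ⟨by linarith, ?_⟩
  -- the lower bound
  have r1 : a * (δ * r) ≤ 3 / 100 * d := by
    have e1 : δ * (a * T * r) ≤ δ * (O / 100) := mul_le_mul_of_nonneg_left hrO hδ.le
    have e2 : δ * (a * r) * T ≤ 26 / 1000 * d * T := by nlinarith
    have e3 : δ * (a * r) ≤ 26 / 1000 * d := le_of_mul_le_mul_right e2 (by linarith)
    linarith
  have g4 : 24 / 100 * d ≤ γ := by
    have : d * (12 / 25) ≤ d * (ν + γ) := mul_le_mul_of_nonneg_left (by linarith) hd0.le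
    linarith
  have l1 : 2 / 10 * d ≤ ν * Q := by
    have e2 : θ * γ ≤ 1 / 100 * γ := mul_le_mul_of_nonneg_right (hθa.trans ha1) hγ
    nlinarith
  have l2 : ν * Q ≤ 1 / 2 * Q := mul_le_mul_of_nonneg_right hν2 hQ
  have l3 : 4 / 10 * d ≤ Q := by linarith
  have e1 : a * Z ≤ 1 / 100 * Z := mul_le_mul_of_nonneg_right ha1 hZ0
  have e2 : a * d ≤ 1 / 100 * d := mul_le_mul_of_nonneg_right ha1 hd0.le
  linarith

/-- the second numerical step -/
theorem num2 {t : ℕ} {k δ c η r Z : ℝ} (hk : 1 ≤ k) (hη : 0 ≤ η) (hr : 0 ≤ r)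
    (hc : 1 ≤ c) (hrc : r ≤ c / k) (hZ : δ / k ≤ 13 / 5 * Z)
    (hZ2 : Z ≤ 2 ^ (2 * t + 1) * (6 * η) * r ^ (2 * t + 1) + 2 ^ (2 * t + 4) * r ^ (2 * t + 2))
    (hd : (1 / k) ^ (2 * t + 1) * (1 / 2) ^ (t + 2) * Real.exp (2 * k * η) ≤ δ) :
    η * k ≤ 2 ^ (t + 2) * (48 * 4 ^ t * c ^ (2 * t + 2)) ∧
      δ ≤ 48 * 4 ^ t * c ^ (2 * t + 2) *
        (1 + 2 ^ (t + 2) * (48 * 4 ^ t * c ^ (2 * t + 2))) * (1 / k) ^ (2 * t + 1) := by
  have hk0 : 0 < k := by linarith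
  set x : ℝ := (1 / k) ^ (2 * t + 1) with hx
  have hx0 : 0 < x := by positivity
  set D : ℝ := 48 * 4 ^ t * c ^ (2 * t + 2) with hD
  have hD1 : 1 ≤ D := by
    have e1 : (1 : ℝ) ≤ c ^ (2 * t + 2) := one_le_pow₀ hc
    have e2 : (1 : ℝ) ≤ 4 ^ t := one_le_pow₀ (by norm_num)
    rw [hD]
    nlinarith
  have r1 : r ^ (2 * t + 1) ≤ c ^ (2 * t + 2) * x := by
    calc r ^ (2 * t + 1) ≤ (c / k) ^ (2 * t + 1) := pow_le_pow_left₀ hr hrc _
      _ = c ^ (2 * t + 1) * x := by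
          rw [hx, ← mul_pow]
          congr 1
          ring
      _ ≤ c ^ (2 * t + 2) * x :=
          mul_le_mul_of_nonneg_right (pow_le_pow_right₀ hc (by omega)) hx0.le
  have r2 : k * r ^ (2 * t + 2) ≤ c ^ (2 * t + 2) * x := by
    calc k * r ^ (2 * t + 2) ≤ k * (c / k) ^ (2 * t + 2) :=
          mul_le_mul_of_nonneg_left (pow_le_pow_left₀ hr hrc _) hk0.le
      _ = c ^ (2 * t + 2) * x := by
          rw [hx, div_pow, one_div, inv_pow, pow_succ k (2 * t + 1)]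
          field_simp
  have h4 : (2 : ℝ) ^ (2 * t) = 4 ^ t := by
    rw [pow_mul]
    norm_num
  have z1 : k * Z ≤ 16 * 4 ^ t * c ^ (2 * t + 2) * (1 + η * k) * x := by
    have e1 : k * Z ≤ 12 * 4 ^ t * (η * k) * r ^ (2 * t + 1) +
        16 * 4 ^ t * (k * r ^ (2 * t + 2)) := by
      have e2 := mul_le_mul_of_nonneg_left hZ2 hk0.le
      refine e2.trans (le_of_eq ?_)
      rw [pow_succ (2 : ℝ) (2 * t), pow_add (2 : ℝ) (2 * t) 4, h4]
      ring
    have e3 : 12 * 4 ^ t * (η * k) * r ^ (2 * t + 1) ≤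
        12 * 4 ^ t * (η * k) * (c ^ (2 * t + 2) * x) :=
      mul_le_mul_of_nonneg_left r1 (by positivity)
    have e4 : 16 * 4 ^ t * (k * r ^ (2 * t + 2)) ≤ 16 * 4 ^ t * (c ^ (2 * t + 2) * x) :=
      mul_le_mul_of_nonneg_left r2 (by positivity)
    have e5 : 0 ≤ 4 ^ t * (η * k) * (c ^ (2 * t + 2) * x) := by positivity
    nlinarith
  have d1 : δ ≤ D * (1 + η * k) * x := by
    have e1 : δ ≤ 13 / 5 * (k * Z) := by
      rw [div_le_iff₀ hk0] at hZ
      linarith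
    have e2 : 0 ≤ 4 ^ t * c ^ (2 * t + 2) * (1 + η * k) * x := by positivity
    rw [hD]
    nlinarith
  have hz0 : 0 ≤ η * k := mul_nonneg hη hk0.le
  have e1 : (1 / 2 : ℝ) ^ (t + 2) * Real.exp (2 * k * η) ≤ D * (1 + η * k) := by
    have : x * ((1 / 2 : ℝ) ^ (t + 2) * Real.exp (2 * k * η)) ≤ x * (D * (1 + η * k)) := by
      calc x * ((1 / 2 : ℝ) ^ (t + 2) * Real.exp (2 * k * η))
          = x * (1 / 2 : ℝ) ^ (t + 2) * Real.exp (2 * k * η) := by ring
        _ ≤ D * (1 + η * k) * x := hd.trans d1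
        _ = _ := by ring
    exact le_of_mul_le_mul_left this hx0
  have e2 : Real.exp (2 * k * η) = Real.exp (η * k) * Real.exp (η * k) := by
    rw [← Real.exp_add]
    congr 1
    ring
  have e3 := Real.add_one_le_exp (η * k)
  have e4 : Real.exp (η * k) ≤ 2 ^ (t + 2) * D := by
    rw [e2] at e1
    have h2 : (0 : ℝ) < (1 / 2 : ℝ) ^ (t + 2) := by positivity
    have h3 : (2 : ℝ) ^ (t + 2) * (1 / 2 : ℝ) ^ (t + 2) = 1 := by
      rw [← mul_pow]
      norm_num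
    have h5 : (1 / 2 : ℝ) ^ (t + 2) * Real.exp (η * k) * (1 + η * k) ≤ D * (1 + η * k) := by
      have : (1 / 2 : ℝ) ^ (t + 2) * Real.exp (η * k) * (1 + η * k) ≤
          (1 / 2 : ℝ) ^ (t + 2) * Real.exp (η * k) * Real.exp (η * k) :=
        mul_le_mul_of_nonneg_left (by linarith) (by positivity)
      linarith
    have h6 : (1 / 2 : ℝ) ^ (t + 2) * Real.exp (η * k) ≤ D :=
      le_of_mul_le_mul_right h5 (by linarith)
    have h7 := mul_le_mul_of_nonneg_left h6 (by positivity : (0 : ℝ) ≤ 2 ^ (t + 2))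
    calc Real.exp (η * k) = 2 ^ (t + 2) * (1 / 2 : ℝ) ^ (t + 2) * Real.exp (η * k) := by
          rw [h3, one_mul]
      _ = 2 ^ (t + 2) * ((1 / 2 : ℝ) ^ (t + 2) * Real.exp (η * k)) := by ring
      _ ≤ _ := h7
  have e5 : η * k ≤ 2 ^ (t + 2) * D := by linarith
  refine ⟨e5, d1.trans ?_⟩
  refine mul_le_mul_of_nonneg_right ?_ hx0.le
  exact mul_le_mul_of_nonneg_left (by linarith) (by linarith)

theorem pow_id {n : ℕ} {k θ h : ℝ} (hk : 0 < k) :
    θ * h * k / k ^ (n + 2) = θ * (((1 / k) ^ n * h) / k) := by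
  have e : k ^ (n + 2) = k ^ n * (k * k) := by
    rw [pow_add]
    ring
  have e2 : (1 / k) ^ n = 1 / k ^ n := by
    rw [div_pow, one_pow]
  rw [e, e2]
  have hx : 0 < k ^ n := by positivity
  generalize k ^ n = x at hx ⊢
  field_simp

/-- powers of logarithms are small -/
theorem log_small (n : ℕ) {c : ℝ} (hc : 0 < c) :
    ∃ k0 : ℕ, ∀ k : ℕ, k0 ≤ k → Real.log k ^ n ≤ c * k := by
  have h := (Real.isLittleO_pow_log_id_atTop (n := n)).bound hc
  have h2 := tendsto_natCast_atTop_atTop (R := ℝ) |>.eventually h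
  rw [Filter.eventually_atTop] at h2
  obtain ⟨k0, hk0⟩ := h2
  refine ⟨k0, fun k hk => ?_⟩
  have h3 := hk0 k hk
  simp only [id_eq, Real.norm_eq_abs, Nat.abs_cast] at h3
  exact (le_abs_self _).trans h3

end

end BOO_

open BOO_ in
theorem boo_proof (h1 : Stmt_BAS) (h2 : Stmt_FEX) (h3 : Stmt_EXP) (h4 : Stmt_MCO) :
    Stmt_BOO := by
  intro t ρ hρ hρ1
  obtain ⟨M, hM, hexp⟩ := h3 t
  have hT : (1 : ℝ) ≤ (t : ℝ) + 1 := by
    have : (0 : ℝ) ≤ t := Nat.cast_nonneg t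
    linarith
  have hM0 : 0 < M := by linarith
  set T : ℝ := (t : ℝ) + 1 with hTdef
  have hT0 : 0 < T := by linarith
  set θ : ℝ := ρ / (100 * T * M) with hθdef
  have hθ0 : 0 < θ := by positivity
  have ha : M * θ * (100 * T) = ρ := by
    rw [hθdef]
    field_simp
  have hMθ0 : 0 < M * θ := by positivity
  have hMθ : M * θ ≤ 1 / 100 := by nlinarith
  set c : ℝ := 3 * T / ρ with hc
  have hc1 : 1 ≤ c := by
    rw [hc, le_div_iff₀ hρ]
    linarith
  set D : ℝ := 48 * 4 ^ t * c ^ (2 * t + 2) with hD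
  have hD0 : 0 < D := by positivity
  have hE0 : 0 < (2 : ℝ) ^ (t + 2) * D := by positivity
  refine ⟨D * (1 + 2 ^ (t + 2) * D) + 2 ^ (t + 2) * D + c + 3 * T + 1, ?_, ?_⟩
  · have : 0 < D * (1 + 2 ^ (t + 2) * D) := by positivity
    linarith
  intro κ hκ hκ2
  obtain ⟨k1, hk1⟩ := h1 t κ hκ hκ2
  obtain ⟨k2, hk2⟩ := h2 t κ ρ θ hκ hκ2 hρ hρ1 hθ0
  obtain ⟨k3, hk3⟩ := h4 t κ hκ hκ2
  -- largeness
  obtain ⟨k4, hk4⟩ := log_small (2 * t + 3)
    (c := θ * (1 / 2) ^ (t + 2) / (16 * T / κ ^ 2) ^ (2 * t + 3)) (by positivity)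
  obtain ⟨k5, hk5⟩ := exists_nat_ge (1 / (4 * θ))
  refine ⟨k1 + k2 + k3 + k4 + k5 + 1, ?_⟩
  intro k hk V _ G ν γ δ ξ u v hξ S hom
  have hB := hk1 k (by omega) V G ν γ δ ξ u v hξ S
  obtain ⟨hν2, heu, hev, hfl⟩ := hk2 k (by omega) V G ν γ δ ξ u v hξ S hom
  have hM4 := hk3 k (by omega) V G ν γ δ ξ u v hξ S
  have hlog := hk4 k (by omega)
  have hne := S.ne
  have hk1' : (1 : ℝ) ≤ k := by exact_mod_cast (by omega : 1 ≤ k)
  have hk0 : (0 : ℝ) < k := by linarith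
  have hkθ : 1 / (4 * θ) ≤ (k : ℝ) := hk5.trans (by exact_mod_cast (by omega : k5 ≤ k))
  have hkθ' : 1 / (4 * (k : ℝ)) ≤ θ := by
    rw [div_le_iff₀ (by positivity)] at hkθ ⊢
    linarith
  have hδ := hB.d0
  have hν := hB.nu
  have hν0 : 0 < ν := by linarith
  set η : ℝ := 1 / 2 - (ν + γ) with hη
  have hη0 : 0 ≤ η := by
    have := S.l2
    rw [hη]
    linarith
  set R := cR κ u v with hR
  set A := cA κ u with hA
  set B := cA κ v with hBdef
  set r : ℝ := ms R with hr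
  have hr0 : 0 ≤ r := ms_nonneg R
  have hr1 : r ≤ 1 := ms_le_one R
  have hδs : δ ≤ 1 / 40000 := by
    have := hB.dk
    nlinarith
  -- (i)
  have hri : r ^ (2 * t + 3) ≤ θ * (δ / k) := by
    have e1 : r ≤ 16 * T / κ ^ 2 * (Real.log k / k) := by
      refine hB.msR.trans ?_
      have := hB.eta
      calc 16 * (1 / 2 - (ν + γ)) / κ ^ 2 ≤ 16 * ((t + 1) * Real.log k / k) / κ ^ 2 := by
            gcongr
        _ = _ := by
            rw [hTdef]
            ring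
    have e2 : 0 ≤ Real.log k := Real.log_nonneg hk1'
    have e3 : r ^ (2 * t + 3) ≤ (16 * T / κ ^ 2 * (Real.log k / k)) ^ (2 * t + 3) :=
      pow_le_pow_left₀ hr0 e1 _
    have e4 : (16 * T / κ ^ 2 * (Real.log k / k)) ^ (2 * t + 3) =
        (16 * T / κ ^ 2) ^ (2 * t + 3) * Real.log k ^ (2 * t + 3) / k ^ (2 * t + 3) := by
      rw [mul_pow, div_pow (Real.log k)]
      ring
    have e5 : (16 * T / κ ^ 2) ^ (2 * t + 3) * Real.log k ^ (2 * t + 3) ≤
        θ * (1 / 2) ^ (t + 2) * k := by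
      have h5 : (0 : ℝ) < (16 * T / κ ^ 2) ^ (2 * t + 3) := by positivity
      calc (16 * T / κ ^ 2) ^ (2 * t + 3) * Real.log k ^ (2 * t + 3)
          ≤ (16 * T / κ ^ 2) ^ (2 * t + 3) *
            (θ * (1 / 2) ^ (t + 2) / (16 * T / κ ^ 2) ^ (2 * t + 3) * k) :=
            mul_le_mul_of_nonneg_left hlog h5.le
        _ = θ * (1 / 2) ^ (t + 2) * k := by
            field_simp
    have e6 : (1 / (k : ℝ)) ^ (2 * t + 1) * (1 / 2) ^ (t + 2) ≤ δ := by
      have := hB.dge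
      have h1 : 1 ≤ Real.exp (2 * k * (1 / 2 - (ν + γ))) := Real.one_le_exp (by positivity)
      have h2 : (0 : ℝ) ≤ (1 / (k : ℝ)) ^ (2 * t + 1) * (1 / 2) ^ (t + 2) := by positivity
      nlinarith
    calc r ^ (2 * t + 3) ≤ θ * (1 / 2) ^ (t + 2) * k / k ^ (2 * t + 3) := by
          refine e3.trans (le_of_eq_of_le e4 ?_)
          gcongr
      _ = θ * (((1 / (k : ℝ)) ^ (2 * t + 1) * (1 / 2) ^ (t + 2)) / k) := by
          exact pow_id hk0
      _ ≤ θ * (δ / k) := by gcongr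
  -- amplitudes
  have hu2 := S.u2
  have hv2 := S.v2
  have hAu : ∀ x ∈ A, 0 < u x := fun x hx => by
    have : 1 - κ ≤ u x := hx
    linarith
  have hBv : ∀ x ∈ B, 0 < v x := fun x hx => by
    have : 1 - κ ≤ v x := hx
    linarith
  set eA : V → ℝ := ee G ν A u with heA
  set eB : V → ℝ := ee G ν B v with heB
  have hA0 : ∀ x, 0 ≤ eA x := ee_nonneg hν0.le fun x hx => (hAu x hx).le
  have hB0 : ∀ x, 0 ≤ eB x := ee_nonneg hν0.le fun x hx => (hBv x hx).le
  have hA2 : ∀ x, eA x ≤ 2 := ee_le_two hν hu2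
  have hB2 : ∀ x, eB x ≤ 2 := ee_le_two hν hv2
  have huvR : ∀ x ∈ R, 0 < u x ∧ u x ≤ 1 ∧ 0 < v x ∧ v x ≤ 1 := by
    intro x hx
    have h5 := hB.Rpos x hx
    have h6 : u x < 1 - κ ∧ v x < 1 - κ := hx
    exact ⟨h5.1, by linarith [h6.1], h5.2.1, by linarith [h6.2]⟩
  have hγ := S.g0
  have hl := S.l2
  obtain ⟨hE1, hE2, -, -⟩ := hexp V G A B R eA eB u v ν θ S.og hB.cor
    (fun x => ⟨hA0 x, hA2 x⟩) (fun x => ⟨hB0 x, hB2 x⟩)
    (fun x _ => ee_pos_iff hν0 hAu x) (fun x _ => ee_pos_iff hν0 hBv x) hθ0.le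
    (by
      rw [le_div_iff₀ hM0]
      linarith) hν0 (by linarith) hν2 huvR heu hev
  have hER := (hE1 R (Set.Subset.refl R)).2
  set Z : ℝ := Zf t G R eA eB with hZdef
  set E : ℝ := M * ms R ^ (2 * t + 3) with hEdef
  have hPSI0 : 0 ≤ PS G R (2 * t + 1) (wI t eA eB) := by
    refine PS_nonneg fun y _ => ?_
    unfold wI
    have := hB0 (y 0)
    have := hA0 (y (Fin.last (2 * t)))
    positivity
  have hPSC0 : 0 ≤ PS G R (2 * t + 2) (fun y => wC t eA y + wC t eB y) := by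
    refine PS_nonneg fun y _ => ?_
    unfold wC
    have := hB0 (y 0)
    have := hA0 (y 0)
    have := hA0 (y (Fin.last (2 * t + 1)))
    have := hB0 (y (Fin.last (2 * t + 1)))
    positivity
  have hZ0 : 0 ≤ Z := by
    rw [hZdef]
    unfold Zf
    linarith
  have hU : avS R (fun x => u x * v x) ≤ (1 + M * θ) * (T * Z) + E := by
    refine hER.trans ?_
    have e1 : Kf t G R eA eB R ≤ T * Z := by
      rw [Kf_R]
      linarith
    have e2 : (1 + M * θ) * Kf t G R eA eB R ≤ (1 + M * θ) * (T * Z) :=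
      mul_le_mul_of_nonneg_left e1 (by linarith)
    have e3 : M * ms R ^ (2 * t + 2) * ms R = E := by
      rw [hEdef, pow_succ (ms R) (2 * t + 2)]
      ring
    linarith
  have hQ0 : 0 ≤ avS R (fun x => u x * eA x + v x * eB x) := by
    refine avS_nonneg fun x hx => ?_
    have h5 := huvR x hx
    have := mul_nonneg h5.1.le (hA0 x)
    have := mul_nonneg h5.2.2.1.le (hB0 x)
    linarith
  have hOr : ρ * r ≤ avS R (om u v) := mul_ms_le_avS hom
  have heps := hB.eps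
  set ε : ℝ := (1 / (k : ℝ)) ^ (10 * t + 20) with hε
  have hε0 : 0 ≤ ε := by positivity
  have hkk : δ * avS R (om u v) - ε * r ≤ 4 * avS R (fun x => u x * v x) := by
    rw [← avS_mul_left, ← avS_mul_left, hr, ← avS_const, ← avS_sub]
    refine avS_mono fun x _ => ?_
    have h5 := (abs_le.mp (S.kkt x)).1
    unfold om
    rw [← hε] at h5
    linarith
  have hεr : ε * r / 4 ≤ θ * (δ / k) := by
    have e1 : ε * r ≤ δ * (1 / (k : ℝ)) ^ 2 * 1 :=
      mul_le_mul heps hr1 hr0 (by positivity)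
    have e2 : δ * (1 / (k : ℝ)) ^ 2 * 1 / 4 = 1 / (4 * (k : ℝ)) * (δ / k) := by
      field_simp
    have e3 : 1 / (4 * (k : ℝ)) * (δ / k) ≤ θ * (δ / k) :=
      mul_le_mul_of_nonneg_right hkθ' (by positivity)
    linarith
  have hEd : E ≤ M * θ * (δ / k) := by
    rw [hEdef]
    calc M * ms R ^ (2 * t + 3) ≤ M * (θ * (δ / k)) := mul_le_mul_of_nonneg_left hri hM0.le
      _ = _ := by ring
  obtain ⟨hOk, hdZ⟩ := num1 (k := (k : ℝ)) (d := δ / k) (δ := δ) (ρ := ρ) (a := M * θ) (θ := θ)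
    (T := T) (ν := ν) (γ := γ) (r := r) (O := avS R (om u v))
    (Q := avS R (fun x => u x * eA x + v x * eB x)) (Z := Z)
    (U := avS R (fun x => u x * v x)) (E := E) (ε := ε) hk1' hδ (div_mul_cancel₀ δ hk0.ne')
    hρ hρ1 hθ0.le (by nlinarith) ha.le hT hν (by linarith) hγ hl hδs
    (by
      refine le_of_eq_of_le ?_ hB.gam1
      ring)
    (by
      refine hB.gam2.trans (le_of_eq ?_)
      ring)
    hr0 hOr hQ0 hZ0 hE2 hEd hfl hkk hεr hU
  have hrc : r ≤ c / k := by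
    rw [le_div_iff₀ hk0, hc, le_div_iff₀ hρ]
    have := mul_le_mul_of_nonneg_right hOr hk0.le
    linarith
  -- (vi)
  have hZ2 : Z ≤ 2 ^ (2 * t + 1) * (6 * η) * r ^ (2 * t + 1) + 2 ^ (2 * t + 4) * r ^ (2 * t + 2) := by
    have e1 : PS G R (2 * t + 1) (wI t eA eB) ≤ 2 ^ (2 * t) * (6 * η) * ms R ^ (2 * t + 1) := by
      refine PS_const_le (by positivity) fun y hy => ?_
      unfold wI
      refine mul_le_mul_of_nonneg_left ?_ (by positivity)
      have h6 := hM4 (G.neighborSet (y 0) ∩ B) (G.neighborSet (y (Fin.last (2 * t))) ∩ A)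
        Set.inter_subset_right Set.inter_subset_right (by
          intro b hb a ha
          obtain ⟨p, hp⟩ := hy.walk 0 (2 * t) (by omega)
          have e0 : (⟨0, by omega⟩ : Fin (2 * t + 1)) = 0 := rfl
          have e2 : (⟨0 + 2 * t, by omega⟩ : Fin (2 * t + 1)) = Fin.last (2 * t) := by
            apply Fin.ext
            simp
          have hp' : ∃ p : G.Walk (y 0) (y (Fin.last (2 * t))), p.length = 2 * t := by
            rw [← e2]
            exact ⟨p, hp⟩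
          obtain ⟨q, hq⟩ := hp'
          exact wk_no_edge S.og q (by rw [hq]; exact even_two_mul t) (by rw [hq]) hb.1 ha.1)
      rw [heA, heB]
      exact h6
    have e2 : PS G R (2 * t + 2) (fun y => wC t eA y + wC t eB y) ≤
        2 ^ (2 * t + 4) * ms R ^ (2 * t + 2) := by
      refine PS_const_le (by positivity) fun y _ => ?_
      unfold wC
      have f1 : eA (y 0) * eA (y (Fin.last (2 * t + 1))) ≤ 2 * 2 :=
        mul_le_mul (hA2 _) (hA2 _) (hA0 _) (by norm_num)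
      have f2 : eB (y 0) * eB (y (Fin.last (2 * t + 1))) ≤ 2 * 2 :=
        mul_le_mul (hB2 _) (hB2 _) (hB0 _) (by norm_num)
      have f3 : (0 : ℝ) < 2 ^ (2 * t + 1) := by positivity
      have f4 : (2 : ℝ) ^ (2 * t + 4) = 2 ^ (2 * t + 1) * 8 := by
        rw [show 2 * t + 4 = 2 * t + 1 + 3 by ring, pow_add _ _ 3]
        norm_num
      rw [f4]
      nlinarith
    have e3 : Z = 2 * PS G R (2 * t + 1) (wI t eA eB) +
        PS G R (2 * t + 2) (fun y => wC t eA y + wC t eB y) := rfl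
    have e4 : (2 : ℝ) ^ (2 * t + 1) = 2 * 2 ^ (2 * t) := by
      rw [pow_succ]
      ring
    rw [e3, e4]
    linarith
  obtain ⟨hη2, hδ2⟩ := num2 (t := t) hk1' hη0 hr0 hc1 hrc hdZ hZ2 hB.dge
  have hDD : 0 < D * (1 + 2 ^ (t + 2) * D) := by positivity
  refine ⟨?_, ?_, ?_, ?_⟩
  · rw [le_div_iff₀ hk0]
    have : η * k ≤ 2 ^ (t + 2) * D := hη2
    change η * (k : ℝ) ≤ _
    linarith
  · rw [le_div_iff₀ hk0]
    rw [le_div_iff₀ hk0] at hrc
    change r * (k : ℝ) ≤ _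
    linarith
  · rw [mul_comm]
    linarith
  · have hx0 : (0 : ℝ) ≤ (1 / (k : ℝ)) ^ (2 * t + 1) := by positivity
    refine hδ2.trans (mul_le_mul_of_nonneg_right ?_ hx0)
    linarith

end Pool.Agent.OCX
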