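import Pool.Agent.OCX.Stmts

/-!
# OCX, module BUE: every edge of the blow-up lies on many closed walks
-/

set_option autoImplicit false

open scoped BigOperators

namespace Pool.Agent.OCX

namespace BUE_

theorem cyc_adj {k : ℕ} {i j : Fin k} (h : (SimpleGraph.cycleGraph k).Adj i j) :
    (i : ℕ) + 1 = j ∨ (j : ℕ) + 1 = i ∨ ((i : ℕ) = 0 ∧ (j : ℕ) + 1 = k) ∨
      ((j : ℕ) = 0 ∧ (i : ℕ) + 1 = k) := by
  rw [SimpleGraph.cycleGraph_adj'] at h
  have hi := i.isLt
  have hj := j.isLt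
  have key : ∀ a b : Fin k, (a - b).val = 1 → (b : ℕ) + 1 = a ∨ ((a : ℕ) = 0 ∧ (b : ℕ) + 1 = k) := by
    intro a b hab
    have ha := a.isLt
    have hb := b.isLt
    rw [Fin.sub_def] at hab
    simp only at hab
    rcases le_or_gt (b : ℕ) a with hle | hlt
    · have h1 : k - (b : ℕ) + a = (a - b) + k := by omega
      rw [h1, Nat.add_mod_right, Nat.mod_eq_of_lt (by omega)] at hab
      omega
    · rw [Nat.mod_eq_of_lt (by omega)] at hab
      omega
  rcases h with h | h
  · rcases key i j h with h1 | h1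
    · exact Or.inr (Or.inl h1)
    · exact Or.inr (Or.inr (Or.inl h1))
  · rcases key j i h with h1 | h1
    · exact Or.inl h1
    · exact Or.inr (Or.inr (Or.inr h1))

theorem other (t : ℕ) {c i : Fin (2 * t + 5)} (h : (SimpleGraph.cycleGraph (2 * t + 5)).Adj c i) :
    ∃ j, (SimpleGraph.cycleGraph (2 * t + 5)).Adj c j ∧ i ≠ j := by
  have e : ∀ u v : Fin (2 * t + 5), (SimpleGraph.cycleGraph (2 * t + 5)).Adj u v ↔
      u - v = 1 ∨ v - u = 1 := fun u v => SimpleGraph.cycleGraph_adj (n := 2 * t + 3)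
  have hne : (c + 1 : Fin (2 * t + 5)) ≠ c - 1 := by
    intro h1
    have h2 : (1 : Fin (2 * t + 5)) + 1 = 0 := by
      have h3 : c + 1 + 1 = c := by rw [h1, sub_add_cancel]
      have h4 : c + (1 + 1) = c + 0 := by rw [← add_assoc, h3, add_zero]
      exact add_left_cancel h4
    have h5 := congrArg Fin.val h2
    rw [Fin.val_add, Fin.val_one', Nat.mod_eq_of_lt (show 1 < 2 * t + 5 by omega),
      Nat.mod_eq_of_lt (show 1 + 1 < 2 * t + 5 by omega)] at h5
    simp at h5
  by_cases hi : i = c + 1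
  · refine ⟨c - 1, (e _ _).mpr (Or.inl (sub_sub_cancel _ _)), ?_⟩
    rw [hi]
    exact hne
  · exact ⟨c + 1, (e _ _).mpr (Or.inr (add_sub_cancel_left _ _)), hi⟩

/-- the pattern of a closed walk through a given edge -/
theorem pattern (h1 : Stmt_CYW) (t m : ℕ) (hk : Odd (m + 2)) (hk2 : 2 * t + 5 ≤ m + 2)
    {c i : Fin (2 * t + 5)} (h : (SimpleGraph.cycleGraph (2 * t + 5)).Adj c i) :
    ∃ φ : Fin (m + 2) → Fin (2 * t + 5), φ 0 = c ∧ φ 1 = i ∧
      ∀ a b : Fin (m + 2), (SimpleGraph.cycleGraph (m + 2)).Adj a b →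
        (SimpleGraph.cycleGraph (2 * t + 5)).Adj (φ a) (φ b) := by
  obtain ⟨j, hj, hij⟩ := other t h
  obtain ⟨-, -, h3⟩ := h1 t i j
  obtain ⟨p, hp⟩ := h3 (m + 2) hk hk2 c h hj hij
  have hp' : p.length = m := by omega
  let φ : Fin (m + 2) → Fin (2 * t + 5) := fun a => if (a : ℕ) = 0 then c else p.getVert (a - 1)
  have hφ0 : ∀ a : Fin (m + 2), (a : ℕ) = 0 → φ a = c := fun a ha => if_pos ha
  have hφ1 : ∀ a : Fin (m + 2), (a : ℕ) ≠ 0 → φ a = p.getVert (a - 1) := fun a ha => if_neg ha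
  have step : ∀ a b : Fin (m + 2), (a : ℕ) + 1 = b →
      (SimpleGraph.cycleGraph (2 * t + 5)).Adj (φ a) (φ b) := by
    intro a b hab
    have hb := b.isLt
    rw [hφ1 b (by omega)]
    by_cases ha : (a : ℕ) = 0
    · rw [hφ0 a ha, show (b : ℕ) - 1 = 0 by omega, SimpleGraph.Walk.getVert_zero]
      exact h
    · rw [hφ1 a ha, show (b : ℕ) - 1 = (a - 1) + 1 by omega]
      exact p.adj_getVert_succ (by omega)
  have wrap : ∀ a b : Fin (m + 2), (a : ℕ) = 0 → (b : ℕ) + 1 = m + 2 →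
      (SimpleGraph.cycleGraph (2 * t + 5)).Adj (φ a) (φ b) := by
    intro a b ha hb
    rw [hφ0 a ha, hφ1 b (by omega), show (b : ℕ) - 1 = p.length by omega,
      SimpleGraph.Walk.getVert_length]
    exact hj
  refine ⟨φ, hφ0 0 rfl, ?_, ?_⟩
  · have h4 : ((1 : Fin (m + 2)) : ℕ) = 1 := by simp
    rw [hφ1 1 (by omega), h4, Nat.sub_self, SimpleGraph.Walk.getVert_zero]
  · intro a b hab
    rcases cyc_adj hab with h5 | h5 | ⟨h5, h6⟩ | ⟨h5, h6⟩
    · exact step a b h5
    · exact (step b a h5).symm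
    · exact wrap a b h5 h6
    · exact (wrap b a h5 h6).symm

end BUE_

open BUE_ in
theorem bue_proof (h1 : Stmt_CYW) : Stmt_BUE := by
  classical
  intro t k n c G F hkodd hk hc hcls
  obtain ⟨m, rfl⟩ : ∃ m, k = m + 2 := ⟨k - 2, by omega⟩
  -- missing pairs
  let miss : Finset (Fin n × Fin n) :=
    Finset.univ.filter fun p => (BU t F).Adj p.1 p.2 ∧ ¬ G.Adj p.1 p.2
  have hmiss : {p : Fin n × Fin n | (BU t F).Adj p.1 p.2 ∧ ¬ G.Adj p.1 p.2} = (miss : Set _) := by
    ext p
    simp [miss]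
  have hpat : ∀ p : Fin n × Fin n, ∃ φ : Fin (m + 2) → Fin (2 * t + 5), p ∈ miss →
      (φ 0 = F p.1 ∧ φ 1 = F p.2 ∧
        ∀ a b : Fin (m + 2), (SimpleGraph.cycleGraph (m + 2)).Adj a b →
          (SimpleGraph.cycleGraph (2 * t + 5)).Adj (φ a) (φ b)) := by
    intro p
    by_cases hp : p ∈ miss
    · have hadj : (SimpleGraph.cycleGraph (2 * t + 5)).Adj (F p.1) (F p.2) := by
        have := (Finset.mem_filter.mp hp).2.1
        exact this
      obtain ⟨φ, hφ⟩ := pattern h1 t m hkodd hk hadj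
      exact ⟨φ, fun _ => hφ⟩
    · exact ⟨fun _ => 0, fun h => absurd h hp⟩
  choose φ hφ using hpat
  let cl : Fin (2 * t + 5) → Finset (Fin n) := fun i => Finset.univ.filter fun x => F x = i
  have hcl : ∀ i, c * n ≤ ((cl i).card : ℝ) := by
    intro i
    have h2 : ({x | F x = i} : Set (Fin n)) = (cl i : Set (Fin n)) := by
      ext x
      simp [cl]
    have h3 := hcls i
    rw [h2, Set.ncard_coe_finset] at h3
    exact h3
  let D : Fin n × Fin n → Finset (Fin (m + 2) → Fin n) := fun p =>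
    Fintype.piFinset fun i : Fin (m + 2) =>
      if i = 0 then {p.1} else if i = 1 then {p.2} else cl (φ p i)
  have hne01 : (1 : Fin (m + 2)) ≠ 0 := by
    intro h
    have := congrArg Fin.val h
    simp at this
  have hD0 : ∀ p, ∀ y ∈ D p, y 0 = p.1 := by
    intro p y hy
    have := Fintype.mem_piFinset.mp hy 0
    simpa using this
  have hD1 : ∀ p, ∀ y ∈ D p, y 1 = p.2 := by
    intro p y hy
    have := Fintype.mem_piFinset.mp hy 1
    simpa [hne01] using this
  have hDF : ∀ p ∈ miss, ∀ y ∈ D p, ∀ i, F (y i) = φ p i := by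
    intro p hp y hy i
    obtain ⟨h2, h3, -⟩ := hφ p hp
    by_cases hi0 : i = 0
    · rw [hi0, hD0 p y hy, h2]
    · by_cases hi1 : i = 1
      · rw [hi1, hD1 p y hy, h3]
      · have := Fintype.mem_piFinset.mp hy i
        rw [if_neg hi0, if_neg hi1] at this
        exact (Finset.mem_filter.mp this).2
  have hDcard : ∀ p, (c * n) ^ m ≤ ((D p).card : ℝ) := by
    intro p
    have h2 : (D p).card = ∏ i : Fin m, (cl (φ p i.succ.succ)).card := by
      rw [Fintype.card_piFinset, Fin.prod_univ_succ, Fin.prod_univ_succ]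
      have e1 : ((0 : Fin (m + 1)).succ : Fin (m + 2)) = 1 := rfl
      rw [if_pos rfl, e1, if_neg hne01, if_pos rfl, Finset.card_singleton, Finset.card_singleton,
        one_mul, one_mul]
      apply Finset.prod_congr rfl
      intro i _
      have e2 : (i.succ.succ : Fin (m + 2)) ≠ 0 := Fin.succ_ne_zero _
      have e3 : (i.succ.succ : Fin (m + 2)) ≠ 1 := by
        intro h
        rw [← e1] at h
        exact Fin.succ_ne_zero _ (Fin.succ_injective _ h)
      rw [if_neg e2, if_neg e3]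
    rw [h2]
    push_cast
    calc (c * n) ^ m = ∏ _i : Fin m, (c * n) := by simp
      _ ≤ ∏ i : Fin m, ((cl (φ p i.succ.succ)).card : ℝ) :=
          Finset.prod_le_prod (fun _ _ => mul_nonneg hc (Nat.cast_nonneg _)) fun i _ => hcl _
  -- disjointness of the D p
  have hdisj : Set.PairwiseDisjoint (miss : Set (Fin n × Fin n)) D := by
    intro p _ q _ hpq
    rw [Function.onFun, Finset.disjoint_left]
    intro y hy1 hy2
    apply hpq
    exact Prod.ext ((hD0 p y hy1).symm.trans (hD0 q y hy2)) ((hD1 p y hy1).symm.trans (hD1 q y hy2))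
  let U : Finset (Fin (m + 2) → Fin n) := miss.biUnion D
  have hUcard : (c * n) ^ m * (miss.card : ℝ) ≤ (U.card : ℝ) := by
    rw [Finset.card_biUnion (fun p hp q hq hpq => hdisj hp hq hpq)]
    push_cast
    calc (c * n) ^ m * (miss.card : ℝ) = ∑ _p ∈ miss, (c * n) ^ m := by
          rw [Finset.sum_const, nsmul_eq_mul]
          ring
      _ ≤ ∑ p ∈ miss, ((D p).card : ℝ) := Finset.sum_le_sum fun p _ => hDcard p
  have hsub : cws (G ⊓ BU t F) (m + 2) ∪ (U : Set (Fin (m + 2) → Fin n)) ⊆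
      cws (BU t F) (m + 2) := by
    rintro y (hy | hy)
    · intro i j hij
      exact (hy i j hij).2
    · obtain ⟨p, hp, hyp⟩ := Finset.mem_biUnion.mp (Finset.mem_coe.mp hy)
      intro i j hij
      show (SimpleGraph.cycleGraph (2 * t + 5)).Adj (F (y i)) (F (y j))
      rw [hDF p hp y hyp i, hDF p hp y hyp j]
      exact (hφ p hp).2.2 i j hij
  have hdis : Disjoint (cws (G ⊓ BU t F) (m + 2)) (U : Set (Fin (m + 2) → Fin n)) := by
    rw [Set.disjoint_left]
    intro y hy1 hy2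
    obtain ⟨p, hp, hyp⟩ := Finset.mem_biUnion.mp (Finset.mem_coe.mp hy2)
    have h01 : (SimpleGraph.cycleGraph (m + 2)).Adj 0 1 := by
      rw [SimpleGraph.cycleGraph_adj]
      exact Or.inr (sub_zero _)
    have h2 := (hy1 0 1 h01).1
    rw [hD0 p y hyp, hD1 p y hyp] at h2
    exact (Finset.mem_filter.mp hp).2.2 h2
  have hcount : cwn (G ⊓ BU t F) (m + 2) + U.card ≤ cwn (BU t F) (m + 2) := by
    unfold cwn
    rw [← Set.ncard_coe_finset U, ← Set.ncard_union_eq hdis (Set.toFinite _) (Set.toFinite _)]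
    exact Set.ncard_le_ncard hsub (Set.toFinite _)
  have hcount' : (cwn (G ⊓ BU t F) (m + 2) : ℝ) + (U.card : ℝ) ≤ cwn (BU t F) (m + 2) := by
    exact_mod_cast hcount
  rw [hmiss, Set.ncard_coe_finset, show m + 2 - 2 = m by omega]
  linarith

end Pool.Agent.OCX
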