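import Pool.Agent.OCX.Stmts
import Pool.Agent.OCX.Lib

/-!
# CMA: the combinatorial system, part 1
-/

open scoped BigOperators

namespace Pool.Agent.OCX

namespace CMA_

variable {V : Type} [Fintype V] {G : SimpleGraph V}

theorem ee_nonneg {κ ν : ℝ} {u : V → ℝ} (hκ : κ ≤ 1 / 20) (hν : 0 < ν) (x : V) :
    0 ≤ ee G ν (cA κ u) u x := by
  unfold ee
  refine div_nonneg (avS_nonneg fun y hy => ?_) hν.le
  have : 1 - κ ≤ u y := hy.2
  linarith

theorem ee_pos_iff {κ ν : ℝ} {u : V → ℝ} (hκ : κ ≤ 1 / 20) (hν : 0 < ν) (x : V) :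
    0 < ee G ν (cA κ u) u x ↔ ∃ a ∈ cA κ u, G.Adj x a := by
  constructor
  · intro h
    by_contra hc
    push Not at hc
    have h1 : G.neighborSet x ∩ cA κ u = ∅ := by
      ext y
      simp only [Set.mem_inter_iff, SimpleGraph.mem_neighborSet, Set.mem_empty_iff_false,
        iff_false, not_and]
      intro h2 h3
      exact hc y h3 h2
    unfold ee at h
    rw [h1, avS_empty] at h
    simp at h
  · rintro ⟨a, ha, hxa⟩
    unfold ee
    refine div_pos ?_ hν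
    have hsub : ({a} : Set V) ⊆ G.neighborSet x ∩ cA κ u := by
      intro y hy
      rw [Set.mem_singleton_iff] at hy
      subst hy
      exact ⟨hxa, ha⟩
    have h1 : (1 - κ) * ms (G.neighborSet x ∩ cA κ u) ≤ avS (G.neighborSet x ∩ cA κ u) u :=
      mul_ms_le_avS fun y hy => hy.2
    have h2 := ms_mono hsub
    rw [ms_singleton] at h2
    have : Nonempty V := ⟨a⟩
    have h3 : (0 : ℝ) < 1 / (Fintype.card V : ℝ) := by
      have : 0 < Fintype.card V := Fintype.card_pos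
      positivity
    have h4 : 0 < ms (G.neighborSet x ∩ cA κ u) := lt_of_lt_of_le h3 h2
    have h5 : 0 < (1 - κ) * ms (G.neighborSet x ∩ cA κ u) := mul_pos (by linarith) h4
    linarith

theorem sA {κ ν D : ℝ} {u : V → ℝ} (hκ : κ ≤ 1 / 20) (hν : 0 < ν) (hD : 0 ≤ D)
    (hA : ms (cA κ u) ≤ 1 / 2 + D) (h2 : av (fun x => u x ^ 2) = 1 / 2)
    (hn : 1 / ν ≤ 2 * (1 + D)) {x y : V}
    (h : ∀ a ∈ cA κ u, G.Adj x a → ¬ G.Adj y a) :
    ee G ν (cA κ u) u x + ee G ν (cA κ u) u y ≤ (1 + D) ^ 2 := by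
  have hu0 : ∀ a ∈ cA κ u, 0 ≤ u a := fun a ha => by
    have : 1 - κ ≤ u a := ha
    linarith
  have hdis : Disjoint (G.neighborSet x ∩ cA κ u) (G.neighborSet y ∩ cA κ u) := by
    rw [Set.disjoint_left]
    intro a ha hb
    exact h a ha.2 ha.1 hb.1
  have h3 : avS (G.neighborSet x ∩ cA κ u) u + avS (G.neighborSet y ∩ cA κ u) u ≤
      avS (cA κ u) u := by
    rw [← avS_union hdis]
    refine avS_mono_set ?_ hu0
    rintro a (ha | ha)
    · exact ha.2
    · exact ha.2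
  have h4 : avS (cA κ u) u ^ 2 ≤ ms (cA κ u) * avS (cA κ u) (fun x => u x ^ 2) := by
    have := avS_sq_le (cA κ u) (fun _ => 1) u
    simp only [one_mul, one_pow] at this
    exact this
  have h5 : avS (cA κ u) (fun x => u x ^ 2) ≤ 1 / 2 := by
    rw [← h2, ← avS_univ]
    exact avS_mono_set (Set.subset_univ _) fun x _ => sq_nonneg _
  have h50 : 0 ≤ avS (cA κ u) (fun x => u x ^ 2) := avS_nonneg fun x _ => sq_nonneg _
  have h6 : avS (cA κ u) u ^ 2 ≤ (1 / 2 + D / 2) ^ 2 := by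
    have h7 : ms (cA κ u) * avS (cA κ u) (fun x => u x ^ 2) ≤ (1 / 2 + D) * (1 / 2) :=
      mul_le_mul hA h5 h50 (by linarith)
    nlinarith [sq_nonneg D]
  have h8 : avS (cA κ u) u ≤ 1 / 2 + D / 2 := abs_le_of_sq_le_sq' h6 (by linarith) |>.2
  have h9 : 0 ≤ avS (cA κ u) u := avS_nonneg hu0
  unfold ee
  rw [← add_div]
  calc (avS (G.neighborSet x ∩ cA κ u) u + avS (G.neighborSet y ∩ cA κ u) u) / ν
      ≤ avS (cA κ u) u / ν := div_le_div_of_nonneg_right h3 hν.le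
    _ = avS (cA κ u) u * (1 / ν) := by ring
    _ ≤ (1 / 2 + D / 2) * (2 * (1 + D)) :=
        mul_le_mul h8 hn (by positivity) (by linarith)
    _ = (1 + D) ^ 2 := by ring

/-- bound of `u` on `R` by the amplitude received from the core -/
theorem u_le {ν D e : ℝ} {u v : V → ℝ} {R : Set V} (hν : 12 / 25 ≤ ν) (hD : 0 ≤ D)
    (hv : ∀ x ∈ R, v x ≤ 11 / 10) (hR : ms R ≤ D) {x : V} (hu : u x ≤ 11 / 10)
    (h : |u x - (e + avS (G.neighborSet x ∩ R) v / ν)| ≤ D * u x) :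
    u x ≤ e + 5 * D := by
  have h1 : avS (G.neighborSet x ∩ R) v ≤ 11 / 10 * ms (G.neighborSet x ∩ R) :=
    avS_le_mul_ms fun y hy => hv y hy.2
  have h2 : ms (G.neighborSet x ∩ R) ≤ D := (ms_mono Set.inter_subset_right).trans hR
  have h3 : avS (G.neighborSet x ∩ R) v / ν ≤ 3 * D := by
    rw [div_le_iff₀ (by linarith)]
    nlinarith
  have h4 := (abs_le.1 h).2
  have h5 : D * u x ≤ D * (11 / 10) := mul_le_mul_of_nonneg_left hu hD
  linarith

theorem exp_le {x : ℝ} (hx : x ≤ 1 / 2) (h0 : 0 ≤ x) : Real.exp x ≤ 1 + 2 * x := by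
  have h1 := Real.one_sub_le_exp_neg x
  have h2 : Real.exp x * Real.exp (-x) = 1 := by
    rw [← Real.exp_add]
    simp
  have h3 := Real.exp_pos x
  have h4 : Real.exp x * (1 - x) ≤ 1 :=
    (mul_le_mul_of_nonneg_left h1 h3.le).trans h2.le
  have h5 : (1 : ℝ) ≤ (1 + 2 * x) * (1 - x) := by nlinarith
  have h6 : 0 < 1 - x := by linarith
  have h7 : Real.exp x * (1 - x) ≤ (1 + 2 * x) * (1 - x) := h4.trans h5
  exact le_of_mul_le_mul_right h7 h6

end CMA_

theorem cma_proof (h1 : Stmt_BAS) (_h2 : Stmt_BOO) (h3 : Stmt_ST2) (h4 : Stmt_CST)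
    (h5 : Stmt_RCT) (h6 : Stmt_PKT) : Stmt_CMA := by
  intro t ρ hρ hρ1
  obtain ⟨C3, hC3, h3⟩ := h3 t ρ hρ hρ1
  obtain ⟨C4, hC4, h4⟩ := h4 t ρ hρ hρ1
  obtain ⟨C5, hC5, h5⟩ := h5 t ρ hρ hρ1
  obtain ⟨C6, hC6, h6⟩ := h6 t ρ hρ hρ1
  refine ⟨C3 ^ 2 + 5 * C3 + 2 * C4 + C5 + C6, by nlinarith, ?_⟩
  intro C hC κ hκ hκ1
  obtain ⟨k1, h1⟩ := h1 t κ hκ hκ1
  obtain ⟨k3, h3⟩ := h3 κ hκ hκ1
  obtain ⟨k4, h4⟩ := h4 κ hκ hκ1
  obtain ⟨k5, h5⟩ := h5 κ hκ hκ1
  obtain ⟨k6, h6⟩ := h6 κ hκ hκ1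
  refine ⟨max (max (max k1 k3) (max k4 k5)) (max k6 (⌈2 * C4⌉₊ + 1)), ?_⟩
  intro k hk V _ G ν γ δ ξ u v hξ hS hom
  have hk1 : k1 ≤ k := le_trans (le_trans (le_trans (le_max_left _ _) (le_max_left _ _))
    (le_max_left _ _)) hk
  have hk3 : k3 ≤ k := le_trans (le_trans (le_trans (le_max_right _ _) (le_max_left _ _))
    (le_max_left _ _)) hk
  have hk4 : k4 ≤ k := le_trans (le_trans (le_trans (le_max_left _ _) (le_max_right _ _))
    (le_max_left _ _)) hk
  have hk5 : k5 ≤ k := le_trans (le_trans (le_trans (le_max_right _ _) (le_max_right _ _))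
    (le_max_left _ _)) hk
  have hk6 : k6 ≤ k := le_trans (le_trans (le_max_left _ _) (le_max_right _ _)) hk
  have hk7 : ⌈2 * C4⌉₊ + 1 ≤ k := le_trans (le_trans (le_max_right _ _) (le_max_right _ _)) hk
  have hkn : 1 ≤ k := by omega
  have hkr : (1 : ℝ) ≤ k := by exact_mod_cast hkn
  have hk0 : (0 : ℝ) < k := by linarith
  have hk2 : 2 * C4 ≤ k := by
    have e1 : 2 * C4 ≤ (⌈2 * C4⌉₊ : ℝ) := Nat.le_ceil _
    have e2 : ((⌈2 * C4⌉₊ + 1 : ℕ) : ℝ) ≤ k := by exact_mod_cast hk7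
    push_cast at e2
    linarith
  have b := h1 k hk1 V G ν γ δ ξ u v hξ hS
  have s := h3 k hk3 V G ν γ δ ξ u v hξ hS hom
  obtain ⟨c1, c2, c3⟩ := h4 k hk4 V G ν γ δ ξ u v hξ hS hom
  obtain ⟨r1, -, -⟩ := h5 k hk5 V G ν γ δ ξ u v hξ hS hom
  obtain ⟨p1, p2, -, -⟩ := h6 k hk6 V G ν γ δ ξ u v hξ hS hom
  have hν : 0 < ν := by linarith [b.nu]
  have hC1 : 1 ≤ C := le_trans (by nlinarith) hC
  have hCk : ∀ D : ℝ, D ≤ C → D / k ≤ C / k := fun D hD => div_le_div_of_nonneg_right hD hk0.le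
  have hD0 : 0 ≤ C3 / k := div_nonneg (by linarith) hk0.le
  have hsq : (1 + C3 / k) ^ 2 ≤ 1 + C / k := by
    have e1 : (C3 / k) ^ 2 ≤ C3 ^ 2 / k := by
      rw [div_pow, div_le_div_iff₀ (by positivity) hk0]
      have : (k : ℝ) ≤ k ^ 2 := by nlinarith
      exact mul_le_mul_of_nonneg_left this (sq_nonneg _)
    have e2 : (1 + C3 / k) ^ 2 = 1 + 2 * (C3 / k) + (C3 / k) ^ 2 := by ring
    have e3 : 2 * (C3 / k) + C3 ^ 2 / k = (C3 ^ 2 + 2 * C3) / k := by ring
    have e4 := hCk (C3 ^ 2 + 2 * C3) (by nlinarith)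
    linarith
  have hfive : 5 * (C3 / k) ≤ C / k := by
    have e1 := hCk (5 * C3) (by nlinarith)
    have e2 : 5 * (C3 / k) = 5 * C3 / k := by ring
    linarith
  have hphi : ∀ x ∈ cR κ u v, u x ≤ 11 / 10 ∧ v x ≤ 11 / 10 := by
    intro x hx
    have e1 := b.Rpos x hx
    have e2 := b.phi0 x
    exact ⟨by linarith [e1.2.1], by linarith [e1.1]⟩
  have eBp : ∀ x ∈ cR κ u v, (0 < ee G ν (cA κ v) v x ↔ ∃ b ∈ cA κ v, G.Adj x b) :=
    fun x _ => CMA_.ee_pos_iff hκ1 hν x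
  have eAp : ∀ x ∈ cR κ u v, (0 < ee G ν (cA κ u) u x ↔ ∃ a ∈ cA κ u, G.Adj x a) :=
    fun x _ => CMA_.ee_pos_iff hκ1 hν x
  refine
    { ne := hS.ne
      k1 := hkn
      C1 := hC1
      og := hS.og
      cor := b.cor
      eA0 := fun x => CMA_.ee_nonneg hκ1 hν x
      eB0 := fun x => CMA_.ee_nonneg hκ1 hν x
      eAp := eAp
      eBp := eBp
      sA := ?_
      sB := ?_
      om1 := ?_
      om2 := fun x hx => (b.Rpos x hx).2.2
      om3 := ?_
      rect := ?_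
      kkt := ?_
      tot := ?_
      d0 := b.d0
      dC := ?_
      c0 := c2
      cC := ?_
      oR := ?_
      ext := ?_ }
  · intro x _ y _ h
    have hA : ms (cA κ u) ≤ 1 / 2 + C3 / k := by linarith [(abs_le.1 s.mA).2]
    exact (CMA_.sA hκ1 hν hD0 hA hS.u2 s.nu h).trans hsq
  · intro x _ y _ h
    have hB : ms (cA κ v) ≤ 1 / 2 + C3 / k := by linarith [(abs_le.1 s.mB).2]
    exact (CMA_.sA hκ1 hν hD0 hB hS.v2 s.nu h).trans hsq
  · intro x hx
    have hu := CMA_.u_le (u := u) (v := v) (R := cR κ u v) (G := G) b.nu hD0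
      (fun y hy => (hphi y hy).2) s.boo.msR (hphi x hx).1 (s.eu x hx)
    have hv := CMA_.u_le (u := v) (v := u) (R := cR κ u v) (G := G) b.nu hD0
      (fun y hy => (hphi y hy).1) s.boo.msR (hphi x hx).2 (s.ev x hx)
    obtain ⟨q1, q2, -⟩ := b.Rpos x hx
    have m1 := le_max_left (ee G ν (cA κ u) u x) (ee G ν (cA κ v) v x)
    have m2 := le_max_right (ee G ν (cA κ u) u x) (ee G ν (cA κ v) v x)
    have habs : |u x - v x| ≤ max (ee G ν (cA κ u) u x) (ee G ν (cA κ v) v x) + C / k := by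
      rw [abs_le]
      constructor <;> linarith
    have h8 : (u x - v x) ^ 2 ≤
        (max (ee G ν (cA κ u) u x) (ee G ν (cA κ v) v x) + C / k) ^ 2 := by
      rw [← sq_abs (u x - v x)]
      exact pow_le_pow_left₀ (abs_nonneg _) habs 2
    unfold om
    linarith
  · intro x _
    unfold om
    linarith [sq_nonneg (u x - v x)]
  · intro x hx y hy hbx hay hno
    have key := r1 (G.neighborSet x ∩ cA κ v) (G.neighborSet y ∩ cA κ u)
      Set.inter_subset_right Set.inter_subset_right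
      (fun b hb a ha => hno b hb.2 a ha.2 hb.1 ha.1)
    obtain ⟨b', hb', hxb⟩ := (eBp x hx).1 hbx
    obtain ⟨a', ha', hya⟩ := (eAp y hy).1 hay
    refine ⟨?_, key.2.1 ⟨a', hya, ha'⟩, key.2.2 ⟨b', hxb, hb'⟩⟩
    refine key.1.trans ?_
    have := hCk C5 (by nlinarith)
    linarith
  · intro S hS'
    refine (p1 S hS').trans ?_
    have e1 := hCk C6 (by nlinarith)
    exact mul_le_mul_of_nonneg_right (mul_le_mul_of_nonneg_right e1 b.d0.le) (ms_nonneg _)
  · refine p2.trans ?_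
    have e1 := hCk C6 (by nlinarith)
    exact mul_le_mul_of_nonneg_right e1 (div_nonneg b.d0.le hk0.le)
  · refine s.boo.dC.trans ?_
    exact mul_le_mul_of_nonneg_right (by nlinarith) (by positivity)
  · exact c3.trans (by nlinarith)
  · exact s.boo.oR.trans (by nlinarith)
  · have hext := hS.ext
    have hx0 := hS.xi
    by_cases hneg : 1 - ξ - C / k ≤ 0
    · have e1 : 4 ^ (t + 1) * (1 / (k : ℝ)) ^ (2 * t + 1) *
          Real.exp (-(2 * t + 2) + k * avS (cR κ u v) (om u v) +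
            cost k G (cA κ u) (cA κ v) (fun x => u x + v x)) * (1 - ξ - C / k) ≤ 0 :=
        mul_nonpos_of_nonneg_of_nonpos (by positivity) hneg
      exact e1.trans b.d0.le
    · push Not at hneg
      refine le_trans ?_ hext
      have e1 : Real.exp (-(2 * t + 2) + k * avS (cR κ u v) (om u v) +
            cost k G (cA κ u) (cA κ v) (fun x => u x + v x)) ≤
          Real.exp (-(2 * t + 2) + 2 * k * (1 / 2 - (ν + γ))) * Real.exp (C4 / k) := by
        rw [← Real.exp_add]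
        apply Real.exp_le_exp.2
        linarith
      have e2 : Real.exp (C4 / k) ≤ 1 + 2 * (C4 / k) :=
        CMA_.exp_le (by rw [div_le_iff₀ hk0]; linarith) (div_nonneg (by linarith) hk0.le)
      have e3 : 2 * (C4 / k) ≤ C / k := by
        have e4 := hCk (2 * C4) (by nlinarith)
        have e5 : 2 * (C4 / k) = 2 * C4 / k := by ring
        linarith
      have e4 : 0 ≤ C4 / k := div_nonneg (by linarith) hk0.le
      have e5 : Real.exp (C4 / k) * (1 - ξ - C / k) ≤ 1 - ξ := by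
        calc Real.exp (C4 / k) * (1 - ξ - C / k) ≤ (1 + 2 * (C4 / k)) * (1 - ξ - C / k) :=
              mul_le_mul_of_nonneg_right e2 hneg.le
          _ ≤ 1 - ξ := by nlinarith
      have e6 : 0 ≤ 4 ^ (t + 1) * (1 / (k : ℝ)) ^ (2 * t + 1) *
          Real.exp (-(2 * t + 2) + 2 * k * (1 / 2 - (ν + γ))) := by positivity
      calc 4 ^ (t + 1) * (1 / (k : ℝ)) ^ (2 * t + 1) *
          Real.exp (-(2 * t + 2) + k * avS (cR κ u v) (om u v) +
            cost k G (cA κ u) (cA κ v) (fun x => u x + v x)) * (1 - ξ - C / k)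
          ≤ 4 ^ (t + 1) * (1 / (k : ℝ)) ^ (2 * t + 1) *
          (Real.exp (-(2 * t + 2) + 2 * k * (1 / 2 - (ν + γ))) * Real.exp (C4 / k)) *
            (1 - ξ - C / k) := by
            apply mul_le_mul_of_nonneg_right _ hneg.le
            exact mul_le_mul_of_nonneg_left e1 (by positivity)
        _ = 4 ^ (t + 1) * (1 / (k : ℝ)) ^ (2 * t + 1) *
          Real.exp (-(2 * t + 2) + 2 * k * (1 / 2 - (ν + γ))) *
            (Real.exp (C4 / k) * (1 - ξ - C / k)) := by ring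
        _ ≤ 4 ^ (t + 1) * (1 / (k : ℝ)) ^ (2 * t + 1) *
          Real.exp (-(2 * t + 2) + 2 * k * (1 / 2 - (ν + γ))) * (1 - ξ) :=
            mul_le_mul_of_nonneg_left e5 e6

end Pool.Agent.OCX
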