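import Pool.Agent.OCX.Stmts
import Pool.Agent.OCX.Lib

/-!
# CMX: the combinatorial system, part 2
-/

open scoped BigOperators

namespace Pool.Agent.OCX

namespace CMX_

variable {V : Type} [Fintype V]

theorem dk_le {t k : ℕ} {C1 δ : ℝ} (hk : 1 ≤ k) (hC1 : 1 ≤ C1)
    (h : δ ≤ C1 * (1 / (k : ℝ)) ^ (2 * t + 1)) : δ ≤ C1 / k := by
  have hk' : (1 : ℝ) ≤ k := by exact_mod_cast hk
  have h0 : (0 : ℝ) < k := by linarith
  have h1 : (1 / (k : ℝ)) ^ (2 * t + 1) ≤ 1 / (k : ℝ) := by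
    have h2 : 0 ≤ 1 / (k : ℝ) := by positivity
    have h3 : 1 / (k : ℝ) ≤ 1 := by
      rw [div_le_one h0]
      exact hk'
    calc (1 / (k : ℝ)) ^ (2 * t + 1) ≤ (1 / (k : ℝ)) ^ 1 :=
          pow_le_pow_of_le_one h2 h3 (by omega)
      _ = 1 / (k : ℝ) := pow_one _
  calc δ ≤ C1 * (1 / (k : ℝ)) ^ (2 * t + 1) := h
    _ ≤ C1 * (1 / (k : ℝ)) := mul_le_mul_of_nonneg_left h1 (by linarith)
    _ = C1 / k := by ring

theorem half {t k : ℕ} {κ C1 C2 C : ℝ} {G : SimpleGraph V} {ν γ δ ξ : ℝ} {u v : V → ℝ}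
    (hk : 1 ≤ k) (hκ0 : 0 < κ) (hκ : κ ≤ 1 / 20)
    (hs : Sys t k ξ G ν γ δ u v) (hb : Bas t k κ G ν γ δ u v) (ho : Boo t k κ C1 ν γ δ u v)
    (h2 : St2 t k κ C2 G ν γ δ u v) (hC1 : 1 ≤ C1) (hC2 : 1 ≤ C2)
    (hC : 10 * (C1 + C2) ≤ C) :
    (∀ x ∈ cR κ u v, |u x - ee G ν (cA κ v) v x| ≤ C / k) ∧
    (∀ x ∈ cA κ u, u x ≤ 1 + C / k) ∧
    (∀ z ∈ cA κ u, |v z - avS (G.neighborSet z ∩ cR κ u v) u / ν| ≤ C * δ / k) := by
  have hk' : (1 : ℝ) ≤ k := by exact_mod_cast hk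
  have hk0 : (0 : ℝ) < k := by linarith
  have hν : 0 < ν := by linarith [hb.nu]
  have hδ : δ ≤ 1 / 1000 := by
    have := hb.dk
    nlinarith
  have hδk := dk_le hk hC1 ho.dC
  have hinv : 1 / ν ≤ 21 / 10 := by
    rw [div_le_iff₀ hν]
    linarith [hb.nu]
  have hinv0 : 0 < 1 / ν := by positivity
  have hCk : 0 < 1 / (k : ℝ) := by positivity
  have ek : ∀ a : ℝ, a / k = a * (1 / k) := fun a => by ring
  refine ⟨fun x hx => ?_, fun x hx => ?_, fun z hz => ?_⟩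
  · -- uR
    have a1 := h2.eu x hx
    obtain ⟨b1, b2, b3⟩ := hb.Rpos x hx
    have b4 : u x ≤ 1 := by
      have := hx.1
      linarith
    have T0 : 0 ≤ avS (G.neighborSet x ∩ cR κ u v) v :=
      avS_nonneg fun y hy => (hb.Rpos y hy.2).2.1.le
    have T1 : avS (G.neighborSet x ∩ cR κ u v) v ≤ C1 / k := by
      calc avS (G.neighborSet x ∩ cR κ u v) v ≤ avS (cR κ u v) v :=
            avS_mono_set Set.inter_subset_right fun y hy => (hb.Rpos y hy).2.1.le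
        _ ≤ 1 * ms (cR κ u v) := avS_le_mul_ms fun y hy => by
            have := hy.2
            linarith
        _ = ms (cR κ u v) := one_mul _
        _ ≤ C1 / k := ho.msR
    have T2 : avS (G.neighborSet x ∩ cR κ u v) v / ν ≤ C1 / k * (21 / 10) := by
      calc avS (G.neighborSet x ∩ cR κ u v) v / ν
          = avS (G.neighborSet x ∩ cR κ u v) v * (1 / ν) := by ring
        _ ≤ C1 / k * (21 / 10) := mul_le_mul T1 hinv hinv0.le (by positivity)
    have T3 : 0 ≤ avS (G.neighborSet x ∩ cR κ u v) v / ν := div_nonneg T0 hν.le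
    have e1 : C2 / k * u x ≤ C2 / k := by
      have : 0 ≤ C2 / (k : ℝ) := by positivity
      nlinarith
    rw [abs_le] at a1 ⊢
    have hfin : C2 / (k : ℝ) + C1 / k * (21 / 10) ≤ C / k := by
      rw [ek, ek C1, ek C]
      nlinarith
    constructor <;> linarith [a1.1, a1.2]
  · -- uA
    have a1 := h2.phi x
    have a2 := hb.vA x hx
    rw [abs_le] at a2
    have hfin : C2 / (k : ℝ) + 2 * (C1 / k) ≤ C / k := by
      rw [ek, ek C1, ek C]
      nlinarith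
    linarith [a2.1]
  · -- vA
    have c := hb.cor
    have a1 := hs.hu z
    unfold Wop at a1
    rw [avS_inter_three c (G.neighborSet z) u, nbr_A c hz, avS_empty, zero_add] at a1
    have e1 : v z - avS (G.neighborSet z ∩ cR κ u v) u / ν =
        (avS (G.neighborSet z ∩ cA κ v) u - γ * u z) * (1 / ν) := by
      field_simp
      linarith
    have a2 : |avS (G.neighborSet z ∩ cA κ v) u| ≤ C2 * δ / k := by
      calc |avS (G.neighborSet z ∩ cA κ v) u|
          ≤ avS (G.neighborSet z ∩ cA κ v) (fun x => |u x|) := abs_avS_le _ _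
        _ ≤ avS (cA κ v) (fun x => |u x|) :=
            avS_mono_set Set.inter_subset_right fun y _ => abs_nonneg _
        _ ≤ C2 * δ / k := h2.uB
    have a3 := hb.vA z hz
    rw [abs_le] at a3
    have a4 := hb.phi0 z
    have a5 : 1 - κ ≤ u z := hz
    have a6 : u z ≤ 2 := by linarith [a3.1]
    have a7 : 0 ≤ u z := by linarith
    have a8 : γ ≤ δ / (2 * k) := by
      have h1 := hb.gam2
      have h3 : δ * (1 + δ) * (ν + γ) ≤ δ := by
        have h4 := hs.l2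
        have h5 := hb.d0
        have h6 : 0 ≤ ν + γ := by linarith [hs.g0]
        have h7 : (1 + δ) * (ν + γ) ≤ 1 := by nlinarith
        nlinarith
      have h4 : δ * (1 + δ) * (ν + γ) / (2 * k) ≤ δ / (2 * k) :=
        div_le_div_of_nonneg_right h3 (by positivity)
      linarith
    have a9 : |γ * u z| ≤ δ / k := by
      rw [abs_of_nonneg (mul_nonneg hs.g0 a7)]
      calc γ * u z ≤ δ / (2 * k) * 2 := mul_le_mul a8 a6 a7 (le_trans hs.g0 a8)
        _ = δ / k := by field_simp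
    rw [e1, abs_mul, abs_of_pos hinv0]
    have b1 : |avS (G.neighborSet z ∩ cA κ v) u - γ * u z| ≤ (C2 + 1) * (δ / k) := by
      calc |avS (G.neighborSet z ∩ cA κ v) u - γ * u z|
          ≤ |avS (G.neighborSet z ∩ cA κ v) u| + |γ * u z| := abs_sub _ _
        _ ≤ C2 * δ / k + δ / k := add_le_add a2 a9
        _ = (C2 + 1) * (δ / k) := by ring
    have hd : 0 ≤ δ / (k : ℝ) := div_nonneg hb.d0.le hk0.le
    calc |avS (G.neighborSet z ∩ cA κ v) u - γ * u z| * (1 / ν)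
        ≤ (C2 + 1) * (δ / k) * (21 / 10) :=
          mul_le_mul b1 hinv hinv0.le (mul_nonneg (by linarith) hd)
      _ = ((C2 + 1) * (21 / 10)) * (δ / k) := by ring
      _ ≤ C * (δ / k) := mul_le_mul_of_nonneg_right (by nlinarith) hd
      _ = C * δ / k := by ring

theorem om_mono {c c' e w a : ℝ} (hc : c ≤ c') (hu : 0 ≤ 1 + c - e)
    (h : 1 - (1 + c - e) ^ 2 - c ≤ w) (ha : a ≤ 1 + c - e) :
    1 - (1 + c' - e) ^ 2 - c' ≤ w ∧ a ≤ 1 + c' - e := by
  refine ⟨?_, by linarith⟩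
  have : (1 + c - e) ^ 2 ≤ (1 + c' - e) ^ 2 := pow_le_pow_left₀ hu (by linarith) 2
  linarith

theorem aP_nonneg {G : SimpleGraph V} {R : Set V} {e : V → ℝ} (he : ∀ x, 0 ≤ e x) (m : ℕ)
    (x : V) : 0 ≤ aP G R e m x := by
  unfold aP
  refine div_nonneg (mul_nonneg (by positivity) (Finset.sum_nonneg fun y _ => ?_))
    (pow_nonneg (Nat.cast_nonneg _) _)
  exact Set.indicator_nonneg (fun y _ => he _) y

theorem ee_nonneg {G : SimpleGraph V} {ν κ : ℝ} {u : V → ℝ} (hν : 0 < ν) (hκ : κ ≤ 1) (x : V) :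
    0 ≤ ee G ν (cA κ u) u x := by
  unfold ee
  refine div_nonneg (avS_nonneg fun y hy => ?_) hν.le
  have : 1 - κ ≤ u y := hy.2
  linarith

theorem ex_mono {c c' C C' a b : ℝ} (hc : c ≤ c') (hC : C ≤ C') (ha : 0 ≤ a) (hb : 0 ≤ b)
    {w : ℝ} (h : w ≤ (1 + c) * a + C * b) : w ≤ (1 + c') * a + C' * b := by
  nlinarith [mul_le_mul_of_nonneg_right hc ha, mul_le_mul_of_nonneg_right hC hb]

end CMX_

open CMX_ in
theorem cmx_proof (h1 : Stmt_BAS) (h2 : Stmt_BOO) (h3 : Stmt_ST2) (h4 : Stmt_RCT)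
    (h5 : Stmt_PKT) : Stmt_CMX := by
  intro t ρ hρ hρ1
  obtain ⟨C1, hC1, H1⟩ := h2 t ρ hρ hρ1
  obtain ⟨C2, hC2, H2⟩ := h3 t ρ hρ hρ1
  obtain ⟨C3, hC3, H3⟩ := h4 t ρ hρ hρ1
  obtain ⟨C4, hC4, H4⟩ := h5 t ρ hρ hρ1
  refine ⟨10 * (C1 + C2) + C3 + C4, by linarith, fun C hC κ hκ0 hκ => ?_⟩
  obtain ⟨k0, K0⟩ := h1 t κ hκ0 hκ
  obtain ⟨k1, K1⟩ := H1 κ hκ0 hκ
  obtain ⟨k2, K2⟩ := H2 κ hκ0 hκ
  obtain ⟨k3, K3⟩ := H3 κ hκ0 hκ
  obtain ⟨k4, K4⟩ := H4 κ hκ0 hκ
  refine ⟨1 + k0 + k1 + k2 + k3 + k4, fun k hk V _ G ν γ δ ξ u v hξ hs hom => ?_⟩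
  have hk1 : 1 ≤ k := by omega
  have hk' : (1 : ℝ) ≤ k := by exact_mod_cast hk1
  have hk0 : (0 : ℝ) < k := by linarith
  have hb := K0 k (by omega) V G ν γ δ ξ u v hξ hs
  have ho := K1 k (by omega) V G ν γ δ ξ u v hξ hs hom
  have hst := K2 k (by omega) V G ν γ δ ξ u v hξ hs hom
  have hr := K3 k (by omega) V G ν γ δ ξ u v hξ hs hom
  have hp := K4 k (by omega) V G ν γ δ ξ u v hξ hs hom
  have hom' : ∀ x ∈ cR κ v u, ρ ≤ om v u x := by
    intro x hx
    rw [cR_comm] at hx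
    rw [om_comm]
    exact hom x hx
  have hr' := K3 k (by omega) V G ν γ δ ξ v u hξ hs.swap hom'
  have hcc : ∀ {a b : ℝ}, a ≤ b → a / (k : ℝ) ≤ b / k := fun h =>
    div_le_div_of_nonneg_right h hk0.le
  have hν : 0 < ν := by linarith [hb.nu]
  obtain ⟨a1, a2, a3⟩ := half hk1 hκ0 hκ hs hb ho hst hC1 hC2 (show 10 * (C1 + C2) ≤ C by linarith)
  obtain ⟨b1, b2, b3⟩ := half hk1 hκ0 hκ hs.swap hb.swap ho.swap hst.swap hC1 hC2
    (show 10 * (C1 + C2) ≤ C by linarith)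
  have hC2C : C2 / (k : ℝ) ≤ C / k := hcc (by linarith)
  have hC3C : C3 / (k : ℝ) ≤ C / k := hcc (by linarith)
  have hC4C : C4 / (k : ℝ) ≤ C / k := hcc (by linarith)
  refine
    { nu := hb.nu
      nu2 := by linarith [hs.l2, hs.g0]
      nui := by linarith [hst.nu]
      mA := hst.mA.trans hC2C
      mB := hst.mB.trans hC2C
      degA := hb.degA
      degB := hb.degB
      uR := a1
      vR := fun x hx => b1 x (by rw [cR_comm]; exact hx)
      uA := a2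
      vB := b2
      omA := ?_
      omB := ?_
      vA := a3
      uB := ?_
      kkt := ?_
      exu := ?_
      exv := ?_
      rec2 := ?_ }
  · intro z hz X hX hXz
    obtain ⟨c1, c2⟩ := hr.2.2 z hz X hX hXz
    have hz' : 1 - κ ≤ u z := hz
    exact om_mono hC3C (by linarith) c1 c2
  · intro z hz X hX hXz
    obtain ⟨c1, c2⟩ := hr'.2.2 z hz X hX hXz
    have hz' : 1 - κ ≤ v z := hz
    rw [om_comm]
    exact om_mono hC3C (by linarith) c1 c2
  · intro z hz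
    have := b3 z hz
    rw [cR_comm]
    exact this
  · intro x
    have c1 := hs.kkt x
    have c2 := hb.eps
    have e1 : u x * v x - δ / 4 * om u v x =
        (4 * u x * v x - δ * (1 - (u x - v x) ^ 2)) / 4 := by
      unfold om
      ring
    rw [e1, abs_div, abs_of_pos (by norm_num : (0 : ℝ) < 4)]
    have c3 : 0 ≤ δ * (1 / (k : ℝ)) ^ 2 := mul_nonneg hb.d0.le (by positivity)
    calc |4 * u x * v x - δ * (1 - (u x - v x) ^ 2)| / 4
        ≤ δ * (1 / (k : ℝ)) ^ 2 := by linarith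
      _ ≤ C * (δ * (1 / (k : ℝ)) ^ 2) := by nlinarith
      _ = C * δ / k ^ 2 := by
        rw [one_div, inv_pow]
        ring
  · intro x hx hx0
    have c1 := hp.2.2.1 x hx hx0
    refine ex_mono hC4C (show C4 ≤ C by linarith) ?_ (by positivity) c1
    exact add_nonneg (aP_nonneg (ee_nonneg hν (by linarith)) _ _)
      (aP_nonneg (ee_nonneg hν (by linarith)) _ _)
  · intro x hx hx0
    have c1 := hp.2.2.2 x hx hx0
    refine ex_mono hC4C (show C4 ≤ C by linarith) ?_ (by positivity) c1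
    exact add_nonneg (aP_nonneg (ee_nonneg hν (by linarith)) _ _)
      (aP_nonneg (ee_nonneg hν (by linarith)) _ _)
  · intro X₁ X₂ Y₁ Y₂ d1 d2 d3 d4 d5 d6 d7
    have c1 := hr.2.1 X₁ X₂ Y₁ Y₂ d1 d2 d3 d4 d5 d6 d7
    linarith

end Pool.Agent.OCX
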