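import Pool.Agent.OCX.Stmts
import Pool.Agent.OCX.Lib

/-!
# OCX, module CST: the cost inequality
-/

open scoped BigOperators

namespace Pool.Agent.OCX

noncomputable section

namespace CST_

variable {V : Type} [Fintype V]

lemma Vr_nonneg (A : Set V) (φ : V → ℝ) : 0 ≤ Vr A φ := by
  have h := avS_sq_le A φ (fun _ => (1 : ℝ))
  have e1 : avS A (fun x => φ x * 1) = avS A φ := avS_congr fun x _ => by ring
  have e2 : avS A (fun _ => (1 : ℝ) ^ 2) = ms A := by
    unfold ms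
    exact avS_congr fun x _ => by ring
  rw [e1, e2] at h
  unfold Vr
  linarith

lemma Mphi_nonneg (G : SimpleGraph V) (A B : Set V) {φ : V → ℝ} (h0 : ∀ x, 0 ≤ φ x) :
    0 ≤ Mphi G A B φ := by
  unfold Mphi
  exact avS_nonneg fun x _ => mul_nonneg (h0 x) (avS_nonneg fun y _ => h0 y)

lemma main {t k : ℕ} {κ C : ℝ} (hC : 1 ≤ C) (hk : 1 ≤ k) {G : SimpleGraph V} {ν γ δ ξ : ℝ}
    {u v : V → ℝ} (S : Sys t k ξ G ν γ δ u v) (hb : Bas t k κ G ν γ δ u v)
    (hs : St2 t k κ C G ν γ δ u v) (hom : ∀ x ∈ cR κ u v, 0 ≤ om u v x) :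
    k * avS (cR κ u v) (om u v) + cost k G (cA κ u) (cA κ v) (fun x => u x + v x) ≤
        2 * k * (1 / 2 - (ν + γ)) + (2 * C + 12 * C ^ 2) / k ∧
      0 ≤ cost k G (cA κ u) (cA κ v) (fun x => u x + v x) ∧
      cost k G (cA κ u) (cA κ v) (fun x => u x + v x) ≤ 2 * C + 12 * C ^ 2 := by
  have := S.ne
  have hkr : (1 : ℝ) ≤ (k : ℝ) := by exact_mod_cast hk
  have hk0 : (0 : ℝ) < (k : ℝ) := by linarith
  set A := cA κ u with hA
  set B := cA κ v with hB
  set R := cR κ u v with hR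
  set φ : V → ℝ := fun x => u x + v x with hφ
  have cor : Cor G A B R := hb.cor
  have hφ0 : ∀ x, 0 ≤ φ x := S.pos
  set c : ℝ := C / k with hc
  have hc0 : 0 ≤ c := by positivity
  have hlam : 0 ≤ 1 / 2 - (ν + γ) := by linarith [S.l2]
  set η : ℝ := 1 / 2 - (ν + γ) with hη
  have hηc : η ≤ c := hs.boo.eta
  -- second moments
  have h2 : av (fun x => φ x ^ 2) = 1 := by
    have e : (fun x => φ x ^ 2) = fun x => (u x ^ 2 + v x ^ 2) + 2 * (u x * v x) := by
      funext x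
      simp only [hφ]
      ring
    rw [e, av_add, av_add, av_mul_left, S.u2, S.v2, S.uv]
    norm_num
  have hW : ∀ x, Wop G φ x = (ν + γ) * φ x := by
    intro x
    have e : Wop G φ x = Wop G u x + Wop G v x := avS_add (G.neighborSet x) u v
    rw [e, S.hu, S.hv]
    simp only [hφ]
    ring
  have key := cost_key cor hW hφ0 h2
  have hsum1 : ms A + ms B + ms R = 1 := by
    have := avS_three cor (fun _ : V => (1 : ℝ))
    rw [av_const] at this
    unfold ms
    linarith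
  have hsum2 : avS A (fun x => φ x ^ 2) + avS B (fun x => φ x ^ 2) +
      avS R (fun x => φ x ^ 2) = 1 := by
    have := avS_three cor (fun x : V => φ x ^ 2)
    rw [h2] at this
    linarith
  set a := ms A with ha
  set b := ms B with hb'
  set r := ms R with hr
  set ma := avS A (fun x => φ x ^ 2) with hma
  set mb := avS B (fun x => φ x ^ 2) with hmb
  set r2 := avS R (fun x => φ x ^ 2) with hr2
  set x1 := avS A φ with hx1
  set y1 := avS B φ with hy1
  set M := Mphi G A B φ with hM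
  have hM0 : 0 ≤ M := Mphi_nonneg G A B hφ0
  have hVa : 0 ≤ Vr A φ := Vr_nonneg A φ
  have hVb : 0 ≤ Vr B φ := Vr_nonneg B φ
  have eVa : Vr A φ = a * ma - x1 ^ 2 := rfl
  have eVb : Vr B φ = b * mb - y1 ^ 2 := rfl
  have hr0 : 0 ≤ r := ms_nonneg R
  have hrc : r ≤ c := hs.boo.msR
  have hr20 : 0 ≤ r2 := avS_nonneg fun x _ => sq_nonneg _
  have hr2c : r2 ≤ 2 * r := by
    apply avS_le_mul_ms
    intro x _
    have h1 : φ x ≤ 11 / 10 := hb.phi0 x
    have h2 := hφ0 x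
    nlinarith
  have hab1 : |a - 1 / 2| ≤ c := hs.mA
  have hab2 : |b - 1 / 2| ≤ c := hs.mB
  rw [abs_le] at hab1 hab2
  have hpA : ma ≤ 1 / 2 + c := hs.pA
  have hpB : mb ≤ 1 / 2 + c := hs.pB
  -- product bound
  have hd1 : |a - b| ≤ 2 * c := by
    rw [abs_le]
    constructor <;> linarith [hab1.1, hab1.2, hab2.1, hab2.2]
  have hd2 : |ma - mb| ≤ 4 * c := by
    rw [abs_le]
    constructor <;> linarith
  have hprod : (a - b) * (ma - mb) ≤ 8 * c ^ 2 := by
    have h1 : (a - b) * (ma - mb) ≤ |a - b| * |ma - mb| := by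
      rw [← abs_mul]
      exact le_abs_self _
    have h2 : |a - b| * |ma - mb| ≤ (2 * c) * (4 * c) :=
      mul_le_mul hd1 hd2 (abs_nonneg _) (by linarith)
    nlinarith
  have hrr : r * r2 ≤ 2 * c ^ 2 := by
    have h1 : r * r2 ≤ c * (2 * c) := by
      apply mul_le_mul hrc (by linarith) hr20 hc0
    nlinarith
  have hηr : 0 ≤ η * r2 := mul_nonneg hlam hr20
  have e1 : ν + γ = 1 / 2 - η := by rw [hη]; ring
  rw [e1] at key
  have hxy : 2 * (x1 * y1) ≤ x1 ^ 2 + y1 ^ 2 := by nlinarith [sq_nonneg (x1 - y1)]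
  have hmain : 2 * M + Vr A φ + Vr B φ ≤ η - (r - r2) / 2 + 5 * c ^ 2 := by
    rw [eVa, eVb]
    have e2 : a * ma + b * mb = ((a + b) * (ma + mb) + (a - b) * (ma - mb)) / 2 := by ring
    have e3 : a + b = 1 - r := by linarith
    have e4 : ma + mb = 1 - r2 := by linarith
    rw [e3, e4] at e2
    nlinarith
  -- the bound of E_R om
  have hδ0 : 0 ≤ δ := hb.d0.le
  have heps0 : (0 : ℝ) ≤ (1 / (k : ℝ)) ^ (10 * t + 20) := by positivity
  have heps : (1 / (k : ℝ)) ^ (10 * t + 20) ≤ δ := by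
    refine le_trans hb.eps ?_
    have h1 : (1 / (k : ℝ)) ^ 2 ≤ 1 := by
      apply pow_le_one₀ (by positivity)
      rw [div_le_one hk0]
      exact hkr
    nlinarith
  have hom1 : avS R (om u v) ≤ r - r2 + 2 * δ * r := by
    have h1 : avS R (om u v) ≤ avS R (fun x => (1 - φ x ^ 2) + 2 * δ) := by
      apply avS_mono
      intro x _
      have h3 := (abs_le.1 (S.kkt x)).2
      have h4 : 1 - (u x - v x) ^ 2 ≤ 1 := by nlinarith [sq_nonneg (u x - v x)]
      have h5 : δ * (1 - (u x - v x) ^ 2) ≤ δ := by nlinarith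
      have e5 : om u v x = 1 - φ x ^ 2 + 4 * u x * v x := by
        simp only [om, hφ]
        ring
      rw [e5]
      linarith
    have h2 : avS R (fun x => (1 - φ x ^ 2) + 2 * δ) = r - r2 + 2 * δ * r := by
      rw [avS_add, avS_sub, avS_const, avS_const, ← hr, ← hr2, one_mul]
    linarith
  have hδc : δ ≤ c := by
    refine le_trans hs.boo.dC ?_
    have h1 : (1 / (k : ℝ)) ^ (2 * t + 1) ≤ 1 / (k : ℝ) := by
      rw [pow_succ]
      have h2 : (1 / (k : ℝ)) ^ (2 * t) ≤ 1 := by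
        apply pow_le_one₀ (by positivity)
        rw [div_le_one hk0]
        exact hkr
      have h3 : (0 : ℝ) ≤ 1 / k := by positivity
      nlinarith
    have h4 : C * (1 / (k : ℝ)) ^ (2 * t + 1) ≤ C * (1 / (k : ℝ)) :=
      mul_le_mul_of_nonneg_left h1 (by linarith)
    rw [hc]
    have e : C * (1 / (k : ℝ)) = C / k := by ring
    linarith
  have hδr : δ * r ≤ c ^ 2 := by
    have : δ * r ≤ c * c := mul_le_mul hδc hrc hr0 hc0
    nlinarith
  have ecost : cost k G A B φ = 2 * k * (2 * M + Vr A φ + Vr B φ) := rfl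
  have hcost0 : 0 ≤ cost k G A B φ := by
    rw [ecost]
    have : 0 ≤ 2 * M + Vr A φ + Vr B φ := by linarith
    positivity
  have hcost1 : cost k G A B φ ≤ 2 * k * (η - (r - r2) / 2 + 5 * c ^ 2) := by
    rw [ecost]
    exact mul_le_mul_of_nonneg_left hmain (by positivity)
  have hom2 : (k : ℝ) * avS R (om u v) ≤ k * (r - r2 + 2 * δ * r) :=
    mul_le_mul_of_nonneg_left hom1 hk0.le
  have hkc : (k : ℝ) * c ^ 2 = C ^ 2 / k := by
    rw [hc]
    field_simp
  have hkd : (k : ℝ) * (δ * r) ≤ C ^ 2 / k := by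
    rw [← hkc]
    exact mul_le_mul_of_nonneg_left hδr hk0.le
  have hfirst : (k : ℝ) * avS R (om u v) + cost k G A B φ ≤ 2 * k * η + 12 * (C ^ 2 / k) := by
    have e6 : 2 * (k : ℝ) * (η - (r - r2) / 2 + 5 * c ^ 2) =
        2 * k * η - k * (r - r2) + 10 * (k * c ^ 2) := by ring
    have e7 : (k : ℝ) * (r - r2 + 2 * δ * r) = k * (r - r2) + 2 * (k * (δ * r)) := by ring
    rw [e6, hkc] at hcost1
    rw [e7] at hom2
    linarith
  have hom3 : 0 ≤ (k : ℝ) * avS R (om u v) :=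
    mul_nonneg hk0.le (avS_nonneg hom)
  have hCk : C ^ 2 / k ≤ C ^ 2 := div_le_self (by positivity) hkr
  refine ⟨?_, hcost0, ?_⟩
  · have h1 : 12 * (C ^ 2 / (k : ℝ)) ≤ (2 * C + 12 * C ^ 2) / k := by
      have e : (2 * C + 12 * C ^ 2) / (k : ℝ) = 2 * (C / k) + 12 * (C ^ 2 / k) := by ring
      rw [e, ← hc]
      linarith
    linarith
  · have h1 : 2 * (k : ℝ) * η ≤ 2 * C := by
      have h2 : (k : ℝ) * η ≤ k * c := mul_le_mul_of_nonneg_left hηc hk0.le
      have e : (k : ℝ) * c = C := by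
        rw [hc]
        field_simp
      rw [e] at h2
      linarith
    linarith

end CST_

open CST_ in
theorem cst_proof (h1 : Stmt_BAS) (h2 : Stmt_BOO) (h3 : Stmt_ST2) : Stmt_CST := by
  intro t ρ hρ hρ1
  obtain ⟨C, hC, H⟩ := h3 t ρ hρ hρ1
  refine ⟨2 * C + 12 * C ^ 2, by nlinarith, ?_⟩
  intro κ hκ hκ2
  obtain ⟨k1, H1⟩ := H κ hκ hκ2
  obtain ⟨k2, H2⟩ := h1 t κ hκ hκ2
  refine ⟨max (max k1 k2) 1, ?_⟩
  intro k hk V _ G ν γ δ ξ u v hξ S hom
  have hk1 : k1 ≤ k := le_trans (le_trans (le_max_left _ _) (le_max_left _ _)) hk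
  have hk2 : k2 ≤ k := le_trans (le_trans (le_max_right _ _) (le_max_left _ _)) hk
  have hk3 : 1 ≤ k := le_trans (le_max_right _ _) hk
  exact main hC hk3 S (H2 k hk2 V G ν γ δ ξ u v hξ S) (H1 k hk1 V G ν γ δ ξ u v hξ S hom)
    (fun x hx => le_trans hρ.le (hom x hx))

end

end Pool.Agent.OCX
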