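import Pool.Agent.OCX.Stmts
import Pool.Agent.OCX.Lib

/-!
# OCX, module CYW: walks in the cycle
-/

namespace Pool.Agent.OCX

open SimpleGraph

namespace CYW_

theorem adj_succ {t : ℕ} (i : Fin (2 * t + 5)) : (cycleGraph (2 * t + 5)).Adj i (i + 1) := by
  rw [cycleGraph_adj]
  right
  exact add_sub_cancel_left i 1

theorem iter {t : ℕ} (i : Fin (2 * t + 5)) : ∀ d : ℕ, ∃ j : Fin (2 * t + 5),
    (j : ℕ) = ((i : ℕ) + d) % (2 * t + 5) ∧
    ∃ p : (cycleGraph (2 * t + 5)).Walk i j, p.length = d := by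
  intro d
  induction d with
  | zero =>
    refine ⟨i, ?_, Walk.nil, rfl⟩
    rw [add_zero, Nat.mod_eq_of_lt i.2]
  | succ d ih =>
    obtain ⟨j, hj, p, hp⟩ := ih
    refine ⟨j + 1, ?_, p.concat (adj_succ j), ?_⟩
    · rw [Fin.val_add, hj]
      have h1 : ((1 : Fin (2 * t + 5)) : ℕ) = 1 := rfl
      rw [h1, Nat.mod_add_mod, add_assoc]
    · rw [Walk.length_concat, hp]

/-- going back and forth -/
theorem ext {t : ℕ} {i j : Fin (2 * t + 5)} (p : (cycleGraph (2 * t + 5)).Walk i j) :
    ∀ s : ℕ, ∃ q : (cycleGraph (2 * t + 5)).Walk i j, q.length = p.length + 2 * s := by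
  intro s
  induction s with
  | zero => exact ⟨p, by simp⟩
  | succ s ih =>
    obtain ⟨q, hq⟩ := ih
    refine ⟨Walk.cons (adj_succ i) (Walk.cons (adj_succ i).symm q), ?_⟩
    rw [Walk.length_cons, Walk.length_cons, hq]
    ring

/-- the two ways around -/
theorem ways {t : ℕ} (i j : Fin (2 * t + 5)) : ∃ d : ℕ, d < 2 * t + 5 ∧
    (j : ℕ) = ((i : ℕ) + d) % (2 * t + 5) ∧
    (∃ p : (cycleGraph (2 * t + 5)).Walk i j, p.length = d) ∧
    (∃ p : (cycleGraph (2 * t + 5)).Walk i j, p.length = 2 * t + 5 - d) := by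
  have hi := i.2
  have hj := j.2
  refine ⟨((j : ℕ) + (2 * t + 5) - i) % (2 * t + 5), Nat.mod_lt _ (by omega), ?_, ?_, ?_⟩
  · rw [Nat.add_mod_mod]
    have h1 : (i : ℕ) + ((j : ℕ) + (2 * t + 5) - i) = j + (2 * t + 5) := by omega
    rw [h1, Nat.add_mod_right, Nat.mod_eq_of_lt hj]
  · obtain ⟨j', hj', p, hp⟩ := iter i (((j : ℕ) + (2 * t + 5) - i) % (2 * t + 5))
    have h2 : j' = j := by
      apply Fin.ext
      rw [hj', Nat.add_mod_mod]
      have h1 : (i : ℕ) + ((j : ℕ) + (2 * t + 5) - i) = j + (2 * t + 5) := by omega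
      rw [h1, Nat.add_mod_right, Nat.mod_eq_of_lt hj]
    subst h2
    exact ⟨p, hp⟩
  · obtain ⟨i', hi', p, hp⟩ := iter j (2 * t + 5 - ((j : ℕ) + (2 * t + 5) - i) % (2 * t + 5))
    have h2 : i' = i := by
      apply Fin.ext
      rw [hi']
      rcases le_or_gt (i : ℕ) j with h | h
      · have h3 : ((j : ℕ) + (2 * t + 5) - i) % (2 * t + 5) = j - i := by
          have : (j : ℕ) + (2 * t + 5) - i = (j - i) + (2 * t + 5) := by omega
          rw [this, Nat.add_mod_right, Nat.mod_eq_of_lt (by omega)]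
        rw [h3]
        have : (j : ℕ) + (2 * t + 5 - (j - i)) = i + (2 * t + 5) := by omega
        rw [this, Nat.add_mod_right, Nat.mod_eq_of_lt hi]
      · have h3 : ((j : ℕ) + (2 * t + 5) - i) % (2 * t + 5) = (j : ℕ) + (2 * t + 5) - i :=
          Nat.mod_eq_of_lt (by omega)
        rw [h3]
        have : (j : ℕ) + (2 * t + 5 - ((j : ℕ) + (2 * t + 5) - i)) = i := by omega
        rw [this, Nat.mod_eq_of_lt hi]
    subst h2
    exact ⟨p.reverse, by rw [Walk.length_reverse, hp]⟩

theorem ext_to {t : ℕ} {i j : Fin (2 * t + 5)} {a b : ℕ} (hp : ∃ p : (cycleGraph (2 * t + 5)).Walk i j,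
    p.length = a) (hab : a ≤ b) (he : Even (b - a)) :
    ∃ p : (cycleGraph (2 * t + 5)).Walk i j, p.length = b := by
  obtain ⟨p, hp⟩ := hp
  obtain ⟨s, hs⟩ := he
  obtain ⟨q, hq⟩ := ext p s
  exact ⟨q, by omega⟩

theorem val_succ {t : ℕ} (i : Fin (2 * t + 5)) : ((i + 1 : Fin (2 * t + 5)) : ℕ) =
    ((i : ℕ) + 1) % (2 * t + 5) := by
  rw [Fin.val_add]
  rfl

theorem adj_of {t : ℕ} {i j : Fin (2 * t + 5)} (h : (j : ℕ) = ((i : ℕ) + 1) % (2 * t + 5)) :
    (cycleGraph (2 * t + 5)).Adj i j := by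
  have : j = i + 1 := Fin.ext (by rw [val_succ, h])
  rw [this]
  exact adj_succ i

theorem adj_iff {t : ℕ} {i j : Fin (2 * t + 5)} : (cycleGraph (2 * t + 5)).Adj i j ↔
    i = j + 1 ∨ j = i + 1 := by
  rw [cycleGraph_adj, sub_eq_iff_eq_add, sub_eq_iff_eq_add, add_comm 1 j, add_comm 1 i]

end CYW_

open CYW_ in
theorem cyw_proof : Stmt_CYW := by
  intro t i j
  obtain ⟨d, hd, hdj, hp, hq⟩ := ways i j
  have hi := i.2
  have hj := j.2
  refine ⟨?_, ?_, ?_⟩
  · rcases Nat.even_or_odd d with he | ho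
    · rcases Nat.lt_or_ge d (2 * t + 3) with h1 | h1
      · right
        refine ext_to hp (by omega) ?_
        rw [Nat.even_sub (by omega)]
        have : Even (2 * t + 2) := ⟨t + 1, by ring⟩
        tauto
      · left
        have h2 : d = 2 * t + 4 := by
          obtain ⟨e, he⟩ := he
          omega
        have h3 : (i : ℕ) = ((j : ℕ) + 1) % (2 * t + 5) := by
          rw [hdj, h2, Nat.mod_add_mod, add_assoc]
          rw [Nat.add_mod_right, Nat.mod_eq_of_lt hi]
        exact (adj_of h3).symm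
    · rcases Nat.lt_or_ge d 2 with h1 | h1
      · left
        have h2 : d = 1 := by
          obtain ⟨e, he⟩ := ho
          omega
        rw [h2] at hdj
        exact adj_of hdj
      · right
        obtain ⟨e, he⟩ := ho
        refine ext_to hq (by omega) ?_
        exact ⟨e - 1, by omega⟩
  · rcases Nat.even_or_odd d with he | ho
    · rcases Nat.lt_or_ge d 4 with h1 | h1
      · obtain ⟨e, he⟩ := he
        have h2 : d = 0 ∨ d = 2 := by omega
        rcases h2 with h2 | h2
        · left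
          apply Fin.ext
          rw [hdj, h2, add_zero, Nat.mod_eq_of_lt hi]
        · right; left
          refine ⟨i + 1, (adj_succ i).symm, ?_⟩
          apply adj_of
          rw [val_succ, hdj, h2, Nat.mod_add_mod]
      · right; right
        obtain ⟨e, he⟩ := he
        exact ext_to hq (by omega) ⟨e - 2, by omega⟩
    · rcases Nat.lt_or_ge d (2 * t + 2) with h1 | h1
      · right; right
        obtain ⟨e, he⟩ := ho
        exact ext_to hp (by omega) ⟨t - e, by omega⟩
      · right; left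
        have h2 : d = 2 * t + 3 := by
          obtain ⟨e, he⟩ := ho
          omega
        refine ⟨j + 1, ?_, (adj_succ j).symm⟩
        apply adj_of
        rw [val_succ, hdj, h2]
        have e1 : ∀ a : ℕ, (a % (2 * t + 5) + 1 + 1) % (2 * t + 5) = (a + 2) % (2 * t + 5) :=
          fun a => by rw [add_assoc, Nat.mod_add_mod]
        rw [Nat.mod_add_mod, e1]
        have : (i : ℕ) + (2 * t + 3) + 2 = i + (2 * t + 5) := by ring
        rw [this, Nat.add_mod_right, Nat.mod_eq_of_lt hi]
  · intro k hk hk5 c hci hcj hij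
    -- `i` and `j` are the two neighbours of `c`: `d = 2` or `d = 2 t + 3`
    have h1 : d = 2 ∨ d = 2 * t + 3 := by
      rw [adj_iff] at hci hcj
      rcases hci with h2 | h2 <;> rcases hcj with h3 | h3
      · exact absurd (add_right_cancel (h2.symm.trans h3)) hij
      · -- c = i + 1, j = c + 1
        left
        have h4 := congrArg Fin.val h3
        rw [val_succ, h2, val_succ, Nat.mod_add_mod, hdj] at h4
        have h5 : ((i : ℕ) + d) % (2 * t + 5) = ((i : ℕ) + 2) % (2 * t + 5) := h4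
        have h6 : d % (2 * t + 5) = 2 % (2 * t + 5) := Nat.ModEq.add_left_cancel' _ h5
        rw [Nat.mod_eq_of_lt hd, Nat.mod_eq_of_lt (by omega)] at h6
        exact h6
      · -- c = j + 1, i = c + 1
        right
        have h4 := congrArg Fin.val h2
        rw [val_succ, h3, val_succ, Nat.mod_add_mod, hdj] at h4
        have h5 : (i : ℕ) % (2 * t + 5) = ((i : ℕ) + (d + 2)) % (2 * t + 5) := by
          rw [Nat.mod_eq_of_lt hi]
          conv_lhs => rw [h4]
          rw [add_assoc, Nat.mod_add_mod]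
          congr 1
        have h6 : (0 + (i : ℕ)) % (2 * t + 5) = ((d + 2) + (i : ℕ)) % (2 * t + 5) := by
          rw [zero_add, add_comm (d + 2)]; exact h5
        have h7 : 0 % (2 * t + 5) = (d + 2) % (2 * t + 5) := Nat.ModEq.add_right_cancel' _ h6
        rw [Nat.zero_mod] at h7
        have h8 : 2 * t + 5 ∣ d + 2 := Nat.dvd_of_mod_eq_zero h7.symm
        obtain ⟨e, he⟩ := h8
        have h9 : e = 1 := by
          rcases Nat.lt_or_ge e 1 with h10 | h10
          · interval_cases e; omega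
          · rcases Nat.lt_or_ge 1 e with h11 | h11
            · have : (2 * t + 5) * 2 ≤ (2 * t + 5) * e := Nat.mul_le_mul_left _ h11
              omega
            · omega
        rw [h9] at he
        omega
      · exact absurd (h2.trans h3.symm) hij
    obtain ⟨e, he⟩ := hk
    rcases h1 with h1 | h1
    · refine ext_to hq (by omega) ⟨e - t - 2, by omega⟩
    · refine ext_to hp (by omega) ⟨e - t - 2, by omega⟩

end Pool.Agent.OCX
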