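import Pool.Agent.OCX.Stmts
import Pool.Agent.OCX.Lib

open scoped BigOperators

namespace Pool.Agent.OCX

namespace EMB_

theorem core {n : ℕ} (θ : ℝ) (hθ : 0 < θ) (G H : SimpleGraph (Fin n))
    (hM : (({p : Fin n × Fin n | H.Adj p.1 p.2 ∧ ¬ G.Adj p.1 p.2}.ncard : ℕ) : ℝ) ≤
      θ ^ 2 / 8 * (n : ℝ) ^ 2) :
    ∀ (m : ℕ) (S : Fin (m + 1) → Finset (Fin n)),
      (∀ i, θ * n ≤ ((S i).card : ℝ)) →
      (∀ i j : Fin (m + 1), (i : ℕ) + 1 = j → ∀ x ∈ S i, ∀ y ∈ S j, H.Adj x y) →
      ∃ Q ⊆ S 0, θ * n / 2 ≤ (Q.card : ℝ) ∧ ∀ x ∈ Q, ∀ X : Finset (Fin n), x ∉ X →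
        (X.card : ℝ) + m < θ * n / 4 →
        ∃ y : Fin (m + 1) → Fin n, Function.Injective y ∧ y 0 = x ∧ (∀ i, y i ∈ S i) ∧
          (∀ i, y i ∉ X) ∧ ∀ i j : Fin (m + 1), (i : ℕ) + 1 = j → G.Adj (y i) (y j) := by
  classical
  intro m
  induction m with
  | zero =>
    intro S hS hH
    refine ⟨S 0, subset_rfl, ?_, ?_⟩
    · have h1 := hS 0
      have h2 : 0 ≤ θ * n := by positivity
      linarith
    · intro x hx X hxX _
      refine ⟨fun _ => x, fun i j _ => Fin.ext (by omega), rfl, ?_, fun _ => hxX, ?_⟩
      · intro i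
        have : i = 0 := Fin.ext (by
          have := i.2
          simp)
        rw [this]
        exact hx
      · intro i j hij
        have h1 := i.2
        have h2 := j.2
        omega
  | succ m ih =>
    intro S hS hH
    obtain ⟨Q, hQS, hQc, hQ⟩ := ih (fun i => S i.succ) (fun i => hS _)
      (fun i j hij x hx y hy => hH i.succ j.succ (by
        rw [Fin.val_succ, Fin.val_succ]
        omega) x hx y hy)
    obtain ⟨P, hP⟩ : ∃ P, P = (S 0).filter fun x =>
      θ * n / 4 ≤ ((Q.filter fun z => G.Adj x z).card : ℝ) := ⟨_, rfl⟩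
    refine ⟨P, hP ▸ Finset.filter_subset _ _, ?_, ?_⟩
    · obtain ⟨B, hB⟩ : ∃ B, B = (S 0).filter fun x =>
        ¬ θ * n / 4 ≤ ((Q.filter fun z => G.Adj x z).card : ℝ) := ⟨_, rfl⟩
      have hPB : P.card + B.card = (S 0).card := by
        rw [hP, hB]
        exact Finset.card_filter_add_card_filter_not _
      have hPB' : (P.card : ℝ) + B.card = (S 0).card := by exact_mod_cast hPB
      have h0 := hS 0
      rcases Nat.eq_zero_or_pos n with hn | hn
      · have : (n : ℝ) = 0 := by rw [hn]; simp
        rw [this]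
        simp
      have hn' : (0 : ℝ) < n := by exact_mod_cast hn
      have hsum : ∑ x ∈ B, ((Q.filter fun z => ¬ G.Adj x z).card : ℝ) ≤
          θ ^ 2 / 8 * (n : ℝ) ^ 2 := by
        refine le_trans ?_ hM
        have e1 : ∑ x ∈ B, (Q.filter fun z => ¬ G.Adj x z).card =
            ((B ×ˢ Q).filter fun p => ¬ G.Adj p.1 p.2).card := by
          rw [Finset.card_filter, Finset.sum_product]
          refine Finset.sum_congr rfl fun x _ => ?_
          rw [Finset.card_filter]
        have e2 : ((B ×ˢ Q).filter fun p => ¬ G.Adj p.1 p.2).card ≤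
            {p : Fin n × Fin n | H.Adj p.1 p.2 ∧ ¬ G.Adj p.1 p.2}.ncard := by
          rw [← Set.ncard_coe_finset]
          refine Set.ncard_le_ncard ?_ (Set.toFinite _)
          intro p hp
          rw [Finset.mem_coe, Finset.mem_filter, Finset.mem_product] at hp
          refine ⟨?_, hp.2⟩
          have hpB : p.1 ∈ S 0 := by
            have := hp.1.1
            rw [hB] at this
            exact (Finset.mem_filter.1 this).1
          have hpQ : p.2 ∈ S (Fin.succ 0) := hQS hp.1.2
          refine hH 0 (Fin.succ 0) ?_ _ hpB _ hpQ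
          rfl
        rw [← e1] at e2
        exact_mod_cast e2
      have hlow : (B.card : ℝ) * (θ * n / 4) ≤
          ∑ x ∈ B, ((Q.filter fun z => ¬ G.Adj x z).card : ℝ) := by
        rw [← nsmul_eq_mul]
        refine Finset.card_nsmul_le_sum _ _ _ fun x hx => ?_
        rw [hB, Finset.mem_filter] at hx
        have h1 := not_le.1 hx.2
        have h2 : (Q.filter fun z => G.Adj x z).card + (Q.filter fun z => ¬ G.Adj x z).card =
            Q.card := Finset.card_filter_add_card_filter_not _
        have h3 : ((Q.filter fun z => G.Adj x z).card : ℝ) +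
            (Q.filter fun z => ¬ G.Adj x z).card = Q.card := by exact_mod_cast h2
        linarith
      have hBc : (B.card : ℝ) ≤ θ * n / 2 := by
        have h1 := hlow.trans hsum
        have h2 : (B.card : ℝ) * (θ * n / 4) ≤ (θ * n / 2) * (θ * n / 4) := by
          refine h1.trans (le_of_eq ?_)
          ring
        exact le_of_mul_le_mul_right h2 (by positivity)
      linarith
    · intro x hx X hxX hc
      rw [hP, Finset.mem_filter] at hx
      have hxN := hx.2
      have hcard : (insert x X).card < (Q.filter fun z => G.Adj x z).card := by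
        have h1 : (((insert x X).card : ℕ) : ℝ) = X.card + 1 := by
          rw [Finset.card_insert_of_notMem hxX]
          push_cast
          ring
        have h2 : (((insert x X).card : ℕ) : ℝ) < ((Q.filter fun z => G.Adj x z).card : ℝ) := by
          rw [h1]
          push_cast at hc
          have : (0 : ℝ) ≤ m := Nat.cast_nonneg _
          linarith
        exact_mod_cast h2
      obtain ⟨z, hz, hzX⟩ := Finset.exists_mem_notMem_of_card_lt_card hcard
      rw [Finset.mem_filter] at hz
      obtain ⟨y, hy1, hy2, hy3, hy4, hy5⟩ := hQ z hz.1 (insert x X) hzX (by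
        rw [Finset.card_insert_of_notMem hxX]
        push_cast at hc ⊢
        linarith)
      refine ⟨Fin.cons x y, ?_, rfl, ?_, ?_, ?_⟩
      · rw [Fin.cons_injective_iff]
        refine ⟨?_, hy1⟩
        rintro ⟨i, hi⟩
        exact hy4 i (by rw [hi]; exact Finset.mem_insert_self _ _)
      · intro i
        refine Fin.cases ?_ (fun j => ?_) i
        · exact hx.1
        · exact hy3 j
      · intro i
        refine Fin.cases ?_ (fun j => ?_) i
        · exact hxX
        · intro h
          exact hy4 j (Finset.mem_insert_of_mem h)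
      · intro i j hij
        rcases Fin.eq_zero_or_eq_succ i with hi | ⟨i', hi⟩
        · rcases Fin.eq_zero_or_eq_succ j with hj | ⟨j', hj⟩
          · rw [hi, hj] at hij
            simp at hij
          · have : j' = 0 := by
              rw [hi, hj, Fin.val_succ] at hij
              apply Fin.ext
              simp at hij
              simp
              omega
            rw [hi, hj, this]
            show G.Adj x (y 0)
            rw [hy2]
            exact hz.2
        · rcases Fin.eq_zero_or_eq_succ j with hj | ⟨j', hj⟩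
          · rw [hi, hj, Fin.val_succ] at hij
            simp at hij
          · rw [hi, hj]
            show G.Adj (y i') (y j')
            refine hy5 i' j' ?_
            rw [hi, hj, Fin.val_succ, Fin.val_succ] at hij
            omega

end EMB_

open EMB_

theorem emb_proof : Stmt_EMB := by
  classical
  intro t m θ hθ
  refine ⟨θ ^ 2 / 8, by positivity, ⌈4 * ((m : ℝ) + 5) / θ⌉₊, ?_⟩
  intro n hn G F hM S a X hSF hSc ha hX
  have hn' : 4 * ((m : ℝ) + 5) / θ ≤ n := (Nat.le_ceil _).trans (by exact_mod_cast hn)
  rw [div_le_iff₀ hθ] at hn'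
  obtain ⟨Q, hQS, hQc, hQ⟩ := core θ hθ G (BU t F) hM m (fun i => (S i).toFinset)
    (fun i => by
      rw [← Set.ncard_eq_toFinset_card']
      exact hSc i)
    (fun i j hij x hx y hy => by
      rw [Set.mem_toFinset] at hx hy
      show (SimpleGraph.cycleGraph (2 * t + 5)).Adj (F x) (F y)
      rw [hSF i x hx, hSF j y hy]
      exact ha i j hij)
  have hXc : (X.card : ℝ) ≤ 4 := by exact_mod_cast hX
  have hm : (0 : ℝ) ≤ m := Nat.cast_nonneg _
  have hcard : X.card < Q.card := by
    have : (X.card : ℝ) < Q.card := by linarith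
    exact_mod_cast this
  obtain ⟨x, hx, hxX⟩ := Finset.exists_mem_notMem_of_card_lt_card hcard
  obtain ⟨y, hy1, hy2, hy3, hy4, hy5⟩ := hQ x hx X hxX (by linarith)
  exact ⟨y, hy1, fun i => Set.mem_toFinset.1 (hy3 i), hy4, hy5⟩

end Pool.Agent.OCX
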