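import Pool.Agent.OCX.Stmts
import Pool.Agent.OCX.Lib

/-!
# EVC: closed walks of even length
-/

open scoped BigOperators

namespace Pool.Agent.OCX

namespace EVC_

/-- number of closed walks = sum over the starting vertex -/
theorem cwn_eq_sum {n r : ℕ} (G : SimpleGraph (Fin n)) (hr : 0 < r) :
    cwn G r = ∑ x, cwx G r x := by
  classical
  unfold cwn cwx
  have h1 : cws G r = ((cws G r).toFinite.toFinset : Set (Fin r → Fin n)) := by simp
  have h2 : (cws G r).ncard = (cws G r).toFinite.toFinset.card :=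
    Set.ncard_eq_toFinset_card _ _
  rw [h2, Finset.card_eq_sum_card_fiberwise (f := fun y : Fin r → Fin n => y ⟨0, hr⟩)
    (t := Finset.univ) (fun y _ => Finset.mem_coe.2 (Finset.mem_univ _))]
  refine Finset.sum_congr rfl fun x _ => ?_
  rw [Set.ncard_eq_toFinset_card _ (Set.toFinite _)]
  congr 1
  ext y
  simp only [Finset.mem_filter, Set.Finite.mem_toFinset, Set.mem_ofPred_eq]
  constructor
  · rintro ⟨h3, h4⟩
    refine ⟨h3, fun i hi => ?_⟩
    have : i = ⟨0, hr⟩ := Fin.ext hi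
    rw [this]
    exact h4
  · rintro ⟨h3, h4⟩
    exact ⟨h3, h4 _ rfl⟩

/-- number of edges as an average -/
theorem av_Wop {n : ℕ} (G : SimpleGraph (Fin n)) (hn : 0 < n) :
    av (fun x => (1 : ℝ) * Wop G (fun _ => 1) x) =
      (({p : Fin n × Fin n | G.Adj p.1 p.2}.ncard : ℕ) : ℝ) / (n : ℝ) ^ 2 := by
  classical
  have hn' : (n : ℝ) ≠ 0 := Nat.cast_ne_zero.2 hn.ne'
  have h1 : (({p : Fin n × Fin n | G.Adj p.1 p.2}.ncard : ℕ) : ℝ) =
      ∑ x, ∑ y, (G.neighborSet x).indicator (fun _ => (1 : ℝ)) y := by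
    rw [Set.ncard_eq_toFinset_card _ (Set.toFinite _), Finset.card_eq_sum_ones,
      ← Finset.sum_product']
    push_cast
    rw [show ((Set.toFinite {p : Fin n × Fin n | G.Adj p.1 p.2}).toFinset) =
      (Finset.univ ×ˢ Finset.univ).filter fun p : Fin n × Fin n => G.Adj p.1 p.2 from by
        ext p; simp]
    rw [Finset.sum_filter]
    refine Finset.sum_congr rfl fun p _ => ?_
    simp only [Set.indicator, SimpleGraph.mem_neighborSet]
  unfold av Wop avS av
  rw [h1, Fintype.card_fin, Finset.sum_div]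
  rw [Finset.sum_div]
  refine Finset.sum_congr rfl fun x _ => ?_
  rw [one_mul, div_div, pow_two]

end EVC_

theorem evc_proof (h1 : Stmt_SPA) (h2 : Stmt_TRC) : Stmt_EVC := by
  intro n r G hr
  rcases Nat.eq_zero_or_pos n with hn | hn
  · subst hn
    simp only [Nat.cast_zero, div_zero]
    rw [zero_pow (by omega)]
    exact Nat.cast_nonneg _
  have : Nonempty (Fin n) := ⟨⟨0, hn⟩⟩
  have hn' : (0 : ℝ) < n := Nat.cast_pos.2 hn
  obtain ⟨lam, q, q1, -, -, q4, q5, q6⟩ := h1 (Fin n) G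
  -- the number of closed walks
  have e1 : (cwn G (2 * r) : ℝ) = (n : ℝ) ^ (2 * r) * ∑ i, lam i ^ (2 * r) := by
    rw [EVC_.cwn_eq_sum G (show 0 < 2 * r by omega)]
    push_cast
    have e2 : ∀ x, (cwx G (2 * r) x : ℝ) = (∑ i, lam i ^ (2 * r) * q i x ^ 2) *
        (n : ℝ) ^ (2 * r - 1) := by
      intro x
      rw [← h2 (Fin n) G (2 * r) x (by omega), q4, Fintype.card_fin]
    rw [Finset.sum_congr rfl fun x _ => e2 x, ← Finset.sum_mul, Finset.sum_comm]
    have e3 : ∀ i, ∑ x, lam i ^ (2 * r) * q i x ^ 2 = lam i ^ (2 * r) * n := by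
      intro i
      rw [← Finset.mul_sum]
      have e4 := q1 i
      unfold av at e4
      rw [Fintype.card_fin, div_eq_iff hn'.ne', one_mul] at e4
      rw [e4]
    rw [Finset.sum_congr rfl fun i _ => e3 i, ← Finset.sum_mul, mul_assoc, ← pow_succ']
    rw [show 2 * r - 1 + 1 = 2 * r by omega, mul_comm]
  -- an eigenvalue
  have e5 := q5 fun _ => 1
  have e6 := q6 fun _ => 1
  rw [EVC_.av_Wop G hn] at e6
  simp only [one_pow] at e5
  rw [av_const] at e5
  set e : ℝ := (({p : Fin n × Fin n | G.Adj p.1 p.2}.ncard : ℕ) : ℝ) with he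
  have he0 : 0 ≤ e := Nat.cast_nonneg _
  have e7 : ∃ i, e / (n : ℝ) ^ 2 ≤ lam i := by
    by_contra hc
    push Not at hc
    have e8 : ∑ i, lam i * av (fun x => 1 * q i x) ^ 2 <
        ∑ i, e / (n : ℝ) ^ 2 * av (fun x => 1 * q i x) ^ 2 := by
      refine Finset.sum_lt_sum (fun i _ => mul_le_mul_of_nonneg_right (hc i).le (sq_nonneg _)) ?_
      by_contra hc2
      push Not at hc2
      have e9 : ∀ i, av (fun x => 1 * q i x) ^ 2 = 0 := by
        intro i
        have e10 := hc2 i (Finset.mem_univ _)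
        nlinarith [hc i, sq_nonneg (av fun x => 1 * q i x)]
      rw [Finset.sum_congr rfl fun i _ => e9 i] at e5
      simp at e5
    rw [← e6, ← Finset.mul_sum, ← e5, mul_one] at e8
    exact lt_irrefl _ e8
  obtain ⟨i, hi⟩ := e7
  have e11 : (e / (n : ℝ) ^ 2) ^ (2 * r) ≤ ∑ i, lam i ^ (2 * r) :=
    (pow_le_pow_left₀ (by positivity) hi _).trans
      (Finset.single_le_sum (f := fun i => lam i ^ (2 * r))
        (fun j _ => (even_two_mul r).pow_nonneg _) (Finset.mem_univ i))
  rw [e1]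
  have e12 : (e / n) ^ (2 * r) = (n : ℝ) ^ (2 * r) * (e / (n : ℝ) ^ 2) ^ (2 * r) := by
    rw [← mul_pow]
    congr 1
    field_simp
  rw [e12]
  exact mul_le_mul_of_nonneg_left e11 (by positivity)

end Pool.Agent.OCX
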