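import Pool.Agent.OCX.Stmts
import Pool.Agent.OCX.Lib

/-! Module EX1: the extremal graph is a near blow-up of the cycle. -/

set_option autoImplicit false

open scoped BigOperators

namespace Pool.Agent.OCX

namespace EX1_

variable {V : Type} [Fintype V]

/-- the closed walks, sorted by their starting vertex -/
theorem sum_cwx (G : SimpleGraph V) (k : ℕ) (hk : 0 < k) : ∑ x, cwx G k x = cwn G k := by
  classical
  have h1 : ∀ x, cwx G k x = ((Finset.univ.filter (fun y : Fin k → V => y ∈ cws G k)).filter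
      (fun y => y ⟨0, hk⟩ = x)).card := by
    intro x
    unfold cwx
    rw [← Set.ncard_coe_finset]
    congr 1
    ext y
    simp only [Set.mem_ofPred_eq, Finset.coe_filter, Finset.mem_filter, Finset.mem_univ, true_and]
    constructor
    · rintro ⟨h, h0⟩
      exact ⟨h, h0 _ rfl⟩
    · rintro ⟨h, h0⟩
      refine ⟨h, fun i hi => ?_⟩
      have : i = ⟨0, hk⟩ := Fin.ext hi
      rw [this, h0]
  have h2 : cwn G k = (Finset.univ.filter (fun y : Fin k → V => y ∈ cws G k)).card := by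
    unfold cwn
    rw [← Set.ncard_coe_finset]
    congr 1
    ext y
    simp
  rw [Finset.sum_congr rfl (fun x _ => h1 x), h2]
  exact (Finset.card_eq_sum_card_fiberwise (fun y _ => Finset.mem_coe.mpr (Finset.mem_univ _))).symm

/-- the number of closed walks at a vertex of a blow-up depends only on the class -/
theorem cwx_le {t k : ℕ} (hk : 0 < k) (F : V → Fin (2 * t + 5)) {x x' : V} (h : F x = F x') :
    cwx (BU t F) k x ≤ cwx (BU t F) k x' := by
  classical
  unfold cwx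
  refine Set.ncard_le_ncard_of_injOn (fun y => Function.update y ⟨0, hk⟩ x') ?_ ?_ (Set.toFinite _)
  · rintro y ⟨hy, hy0⟩
    have key : ∀ i, F (Function.update y ⟨0, hk⟩ x' i) = F (y i) := by
      intro i
      by_cases hi : i = ⟨0, hk⟩
      · rw [hi, Function.update_self, ← h, hy0 _ rfl]
      · rw [Function.update_of_ne hi]
    refine ⟨?_, ?_⟩
    · intro i j hij
      have h1 : (SimpleGraph.cycleGraph (2 * t + 5)).Adj (F (y i)) (F (y j)) := hy i j hij
      change (SimpleGraph.cycleGraph (2 * t + 5)).Adj (F (Function.update y ⟨0, hk⟩ x' i))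
        (F (Function.update y ⟨0, hk⟩ x' j))
      rw [key, key]
      exact h1
    · intro i hi
      have : i = ⟨0, hk⟩ := Fin.ext hi
      change Function.update y ⟨0, hk⟩ x' i = x'
      rw [this, Function.update_self]
  · rintro y ⟨_, hy0⟩ z ⟨_, hz0⟩ hyz
    funext i
    by_cases hi : i = ⟨0, hk⟩
    · rw [hi, hy0 _ rfl, hz0 _ rfl]
    · have := congr_fun hyz i
      simp only [Function.update_of_ne hi] at this
      exact this

theorem cwx_eq {t k : ℕ} (hk : 0 < k) (F : V → Fin (2 * t + 5)) {x x' : V} (h : F x = F x') :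
    cwx (BU t F) k x = cwx (BU t F) k x' :=
  le_antisymm (cwx_le hk F h) (cwx_le hk F h.symm)

/-- trivial bound -/
theorem cwx_le_pow (G : SimpleGraph V) {k : ℕ} (hk : 0 < k) (x : V) :
    cwx G k x ≤ Fintype.card V ^ (k - 1) := by
  classical
  unfold cwx
  have h1 : {y : Fin k → V | y ∈ cws G k ∧ ∀ i : Fin k, (i : ℕ) = 0 → y i = x}.ncard ≤
      (Set.univ : Set ({l : Fin k // l ≠ ⟨0, hk⟩} → V)).ncard := by
    refine Set.ncard_le_ncard_of_injOn (fun y => fun l => y l.1) (fun _ _ => Set.mem_univ _) ?_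
      (Set.toFinite _)
    rintro y ⟨_, hy0⟩ z ⟨_, hz0⟩ hyz
    funext i
    by_cases hi : i = ⟨0, hk⟩
    · rw [hi, hy0 _ rfl, hz0 _ rfl]
    · exact congr_fun hyz ⟨i, hi⟩
  refine h1.trans ?_
  rw [Set.ncard_univ, Nat.card_eq_fintype_card, Fintype.card_fun]
  have h2 : Fintype.card {l : Fin k // l ≠ ⟨0, hk⟩} = k - 1 := by
    rw [Fintype.card_subtype_compl (fun l : Fin k => l = ⟨0, hk⟩), Fintype.card_fin,
      Fintype.card_subtype_eq]
  rw [h2]

/-- functions with two prescribed values -/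
theorem card_pair {k : ℕ} (i j : Fin k) (hij : i ≠ j) (P : Set (V × V)) :
    {y : Fin k → V | (y i, y j) ∈ P}.ncard ≤ P.ncard * Fintype.card V ^ (k - 2) := by
  classical
  have h1 : {y : Fin k → V | (y i, y j) ∈ P}.ncard ≤
      (P ×ˢ (Set.univ : Set ({l : Fin k // l ∉ ({i, j} : Finset (Fin k))} → V))).ncard := by
    refine Set.ncard_le_ncard_of_injOn (fun y => ((y i, y j), fun l => y l.1)) ?_ ?_
      (Set.toFinite _)
    · intro y hy
      exact ⟨hy, Set.mem_univ _⟩
    · intro y _ z _ hyz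
      have e1 := congr_arg Prod.fst hyz
      have e2 := congr_arg Prod.snd hyz
      have e3 := congr_arg Prod.fst e1
      have e4 := congr_arg Prod.snd e1
      funext l
      by_cases hl : l ∈ ({i, j} : Finset (Fin k))
      · rw [Finset.mem_insert, Finset.mem_singleton] at hl
        rcases hl with rfl | rfl
        · exact e3
        · exact e4
      · exact congr_fun e2 ⟨l, hl⟩
  refine h1.trans ?_
  rw [Set.ncard_prod, Set.ncard_univ, Nat.card_eq_fintype_card, Fintype.card_fun]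
  have h2 : Fintype.card {l : Fin k // l ∉ ({i, j} : Finset (Fin k))} = k - 2 := by
    rw [Fintype.card_subtype_compl (fun l : Fin k => l ∈ ({i, j} : Finset (Fin k))),
      Fintype.card_fin, Fintype.card_coe, Finset.card_pair hij]
  rw [h2]

/-- closed walks through few pairs -/
theorem cwn_le (G B : SimpleGraph V) (k : ℕ) :
    cwn G k ≤ cwn (G ⊓ B) k + k ^ 2 *
      ({p : V × V | G.Adj p.1 p.2 ∧ ¬ B.Adj p.1 p.2}.ncard * Fintype.card V ^ (k - 2)) := by
  classical
  set P : Set (V × V) := {p : V × V | G.Adj p.1 p.2 ∧ ¬ B.Adj p.1 p.2} with hP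
  have key : cws G k ⊆ cws (G ⊓ B) k ∪
      ((Finset.univ : Finset (Fin k × Fin k)).biUnion (fun q =>
        if q.1 ≠ q.2 then (Finset.univ.filter (fun y : Fin k → V => (y q.1, y q.2) ∈ P)) else ∅) :
          Finset (Fin k → V)) := by
    intro y hy
    by_cases h : y ∈ cws (G ⊓ B) k
    · exact Or.inl h
    · right
      have h' : ∃ i j : Fin k, (SimpleGraph.cycleGraph k).Adj i j ∧ ¬ (G ⊓ B).Adj (y i) (y j) := by
        by_contra hcon
        push Not at hcon
        exact h hcon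
      obtain ⟨i, j, hij, hn⟩ := h'
      rw [Finset.mem_coe, Finset.mem_biUnion]
      refine ⟨(i, j), Finset.mem_univ _, ?_⟩
      rw [if_pos hij.ne, Finset.mem_filter]
      refine ⟨Finset.mem_univ _, hy i j hij, fun hb => hn ⟨hy i j hij, hb⟩⟩
  have h2 : ((Finset.univ : Finset (Fin k × Fin k)).biUnion (fun q =>
        if q.1 ≠ q.2 then (Finset.univ.filter (fun y : Fin k → V => (y q.1, y q.2) ∈ P)) else ∅)).card
      ≤ k ^ 2 * (P.ncard * Fintype.card V ^ (k - 2)) := by
    refine Finset.card_biUnion_le.trans ?_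
    have : ∀ q ∈ (Finset.univ : Finset (Fin k × Fin k)), (if q.1 ≠ q.2 then
        (Finset.univ.filter (fun y : Fin k → V => (y q.1, y q.2) ∈ P)) else ∅).card ≤
        P.ncard * Fintype.card V ^ (k - 2) := by
      intro q _
      by_cases hq : q.1 ≠ q.2
      · rw [if_pos hq, ← Set.ncard_coe_finset]
        refine le_trans (le_of_eq ?_) (card_pair q.1 q.2 hq P)
        congr 1
        ext y
        simp
      · rw [if_neg hq, Finset.card_empty]
        exact Nat.zero_le _
    refine (Finset.sum_le_card_nsmul _ _ _ this).trans (le_of_eq ?_)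
    rw [Finset.card_univ, Fintype.card_prod, Fintype.card_fin, smul_eq_mul, sq]
  unfold cwn
  refine (Set.ncard_le_ncard key (Set.toFinite _)).trans ((Set.ncard_union_le _ _).trans ?_)
  rw [Set.ncard_coe_finset]
  exact Nat.add_le_add_left h2 _

/-- closed walks of the subgraph -/
theorem cwx_sub {n t k : ℕ} (S : Finset (Fin n)) (H : SimpleGraph (Fin n))
    (f : {x // x ∈ S} → Fin (2 * t + 5)) (F : Fin n → Fin (2 * t + 5))
    (hF : ∀ x : {x // x ∈ S}, F x.1 = f x)
    (hf : ∀ x y, (H.comap (Subtype.val : {x // x ∈ S} → Fin n)).Adj x y →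
        (SimpleGraph.cycleGraph (2 * t + 5)).Adj (f x) (f y)) (x : {x // x ∈ S}) :
    cwx (H.comap (Subtype.val : {x // x ∈ S} → Fin n)) k x ≤ cwx (BU t F) k x.1 := by
  unfold cwx
  refine Set.ncard_le_ncard_of_injOn (fun y i => (y i).1) ?_ ?_ (Set.toFinite _)
  · rintro y ⟨hy, hy0⟩
    refine ⟨?_, ?_⟩
    · intro i j hij
      change (SimpleGraph.cycleGraph (2 * t + 5)).Adj (F (y i).1) (F (y j).1)
      rw [hF, hF]
      exact hf _ _ (hy i j hij)
    · intro i hi
      change (y i).1 = x.1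
      rw [hy0 i hi]
  · intro y _ z _ hyz
    funext i
    exact Subtype.ext (congr_fun hyz i)

theorem bad_le {n t : ℕ} (G H : SimpleGraph (Fin n)) (S : Finset (Fin n))
    (f : {x // x ∈ S} → Fin (2 * t + 5)) (F : Fin n → Fin (2 * t + 5))
    (hF : ∀ x : {x // x ∈ S}, F x.1 = f x)
    (hf : ∀ x y, (H.comap (Subtype.val : {x // x ∈ S} → Fin n)).Adj x y →
        (SimpleGraph.cycleGraph (2 * t + 5)).Adj (f x) (f y)) :
    {p : Fin n × Fin n | G.Adj p.1 p.2 ∧ ¬ (BU t F).Adj p.1 p.2}.ncard ≤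
      {p : Fin n × Fin n | G.Adj p.1 p.2 ∧ ¬ H.Adj p.1 p.2}.ncard + 2 * ((n - S.card) * n) := by
  classical
  have key : {p : Fin n × Fin n | G.Adj p.1 p.2 ∧ ¬ (BU t F).Adj p.1 p.2} ⊆
      {p : Fin n × Fin n | G.Adj p.1 p.2 ∧ ¬ H.Adj p.1 p.2} ∪
        (((Sᶜ : Finset (Fin n)) : Set (Fin n)) ×ˢ (Set.univ : Set (Fin n)) ∪
          (Set.univ : Set (Fin n)) ×ˢ ((Sᶜ : Finset (Fin n)) : Set (Fin n))) := by
    rintro ⟨a, b⟩ ⟨hG, hB⟩
    by_cases hH : H.Adj a b
    · right
      by_cases ha : a ∈ S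
      · by_cases hb : b ∈ S
        · exfalso
          apply hB
          have := hf ⟨a, ha⟩ ⟨b, hb⟩ hH
          rw [← hF, ← hF] at this
          exact this
        · right
          exact ⟨Set.mem_univ _, by simpa using hb⟩
      · left
        exact ⟨by simpa using ha, Set.mem_univ _⟩
    · left
      exact ⟨hG, hH⟩
  refine (Set.ncard_le_ncard key (Set.toFinite _)).trans ((Set.ncard_union_le _ _).trans ?_)
  refine Nat.add_le_add_left ((Set.ncard_union_le _ _).trans (le_of_eq ?_)) _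
  rw [Set.ncard_prod, Set.ncard_prod, Set.ncard_coe_finset, Set.ncard_univ, Finset.card_compl,
    Nat.card_eq_fintype_card, Fintype.card_fin]
  ring

theorem ms_ncard (S : Set V) : ms S = (S.ncard : ℝ) / Fintype.card V := by
  classical
  unfold ms avS av
  congr 1
  rw [Set.ncard_eq_toFinset_card', Finset.card_eq_sum_ones, Nat.cast_sum]
  rw [← Finset.sum_indicator_subset _ (Finset.subset_univ S.toFinset)]
  refine Finset.sum_congr rfl fun x _ => ?_
  by_cases hx : x ∈ S
  · rw [Set.indicator_of_mem hx, Set.indicator_of_mem (by simpa using hx)]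
    simp
  · rw [Set.indicator_of_notMem hx, Set.indicator_of_notMem (by simpa using hx)]

theorem consts (k K d : ℝ) (hk : 0 ≤ k) (hK : 0 ≤ K) (hd : 0 ≤ d) :
    3 ≤ 3 * (k + 2) ^ 2 * (K + 1) * (1 + d) ∧ K * (k ^ 2 * 3) ≤ 3 * (k + 2) ^ 2 * (K + 1) * (1 + d) ∧
    (k + 2) * d ≤ 3 * (k + 2) ^ 2 * (K + 1) * (1 + d) ∧
    k + 2 ≤ 3 * (k + 2) ^ 2 * (K + 1) * (1 + d) := by
  have a1 : 1 ≤ (k + 2) ^ 2 := by nlinarith
  have a2 : k + 2 ≤ (k + 2) ^ 2 := by nlinarith
  have a3 : k ^ 2 ≤ (k + 2) ^ 2 := by nlinarith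
  have b1 : 1 ≤ (k + 2) ^ 2 * (K + 1) := by nlinarith
  have b2 : k + 2 ≤ (k + 2) ^ 2 * (K + 1) := by nlinarith
  have b3 : K * k ^ 2 ≤ (k + 2) ^ 2 * (K + 1) := by nlinarith
  have c1 : (k + 2) ^ 2 * (K + 1) ≤ (k + 2) ^ 2 * (K + 1) * (1 + d) := by nlinarith
  have c2 : (k + 2) * d ≤ (k + 2) ^ 2 * (K + 1) * (1 + d) := by
    have := mul_le_mul b2 (by linarith : d ≤ 1 + d) hd (by linarith)
    exact this
  refine ⟨by nlinarith, by nlinarith, by nlinarith, by nlinarith⟩

end EX1_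

open EX1_

theorem ex1_proof (h1 : Stmt_BUE) (h2 : Stmt_INJ) (h3 : Stmt_ODD) (h4 : Stmt_TRC) : Stmt_EX1 := by
  intro t k c ε1 hk hk5 hc hε1
  set K : ℝ := (2 / c) ^ (k - 2) with hKdef
  have hK0 : 0 ≤ K := by positivity
  have h2c : 0 ≤ 2 / c := by positivity
  obtain ⟨hM1, hM2, hM3, hM4⟩ := consts (k : ℝ) K (2 / c) (Nat.cast_nonneg k) hK0 h2c
  set M : ℝ := 3 * ((k : ℝ) + 2) ^ 2 * (K + 1) * (1 + 2 / c) with hMdef
  have hM0 : 0 < M := by linarith
  set ε : ℝ := min (1 / 2) (ε1 / (2 * M)) with hεdef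
  have hε : 0 < ε := lt_min (by norm_num) (by positivity)
  have hε2 : ε ≤ 1 / 2 := min_le_left _ _
  have hεM : M * ε ≤ ε1 / 2 := by
    have : ε ≤ ε1 / (2 * M) := min_le_right _ _
    calc M * ε ≤ M * (ε1 / (2 * M)) := mul_le_mul_of_nonneg_left this hM0.le
      _ = ε1 / 2 := by field_simp
  refine ⟨ε, hε, ⌈2 * K * k ^ 2 / ε1⌉₊ + 1, ?_⟩
  intro n hn G hG S H hB f hf hcl
  have hk0 : 0 < k := by omega
  have hn0 : 0 < n := by omega
  have hnR : (0 : ℝ) < n := by exact_mod_cast hn0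
  have hnbig : 2 * K * k ^ 2 / ε1 ≤ n := by
    have e1 : (⌈2 * K * k ^ 2 / ε1⌉₊ : ℝ) ≤ n := by exact_mod_cast (by omega : ⌈2 * K * k ^ 2 / ε1⌉₊ ≤ n)
    exact (Nat.le_ceil _).trans e1
  have hKn : K * k ^ 2 * n ≤ ε1 / 2 * n ^ 2 := by
    rw [div_le_iff₀ hε1] at hnbig
    nlinarith
  have hSn : S.card ≤ n := by
    have := Finset.card_le_univ S
    rwa [Fintype.card_fin] at this
  have hSR : (S.card : ℝ) ≤ n := by exact_mod_cast hSn
  have hsm := hB.sm
  have hShalf : (n : ℝ) / 2 ≤ S.card := by nlinarith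
  have hS0 : (0 : ℝ) < S.card := by linarith
  have : Nonempty {x // x ∈ S} := hB.ne.to_subtype
  have hcardS : Fintype.card {x // x ∈ S} = S.card := Fintype.card_coe S
  set F : Fin n → Fin (2 * t + 5) := fun x => if h : x ∈ S then f ⟨x, h⟩ else 0 with hFdef
  have hF : ∀ x : {x // x ∈ S}, F x.1 = f x := fun x => by
    rw [hFdef]
    simp only [x.2, dite_true]
  -- class sizes
  have hcl2 : ∀ i, c / 2 * n ≤ (({x | F x = i}.ncard : ℕ) : ℝ) := by
    intro i
    have e1 := hcl i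
    rw [ms_ncard, hcardS, le_div_iff₀ hS0] at e1
    have e2 : ({x | f x = i}.ncard : ℕ) ≤ {x | F x = i}.ncard := by
      refine Set.ncard_le_ncard_of_injOn Subtype.val ?_ Subtype.val_injective.injOn (Set.toFinite _)
      intro x hx
      change F x.1 = i
      rw [hF]
      exact hx
    have e3 : (({x | f x = i}.ncard : ℕ) : ℝ) ≤ (({x | F x = i}.ncard : ℕ) : ℝ) := by
      exact_mod_cast e2
    nlinarith
  -- bad pairs
  have hbad : (({p : Fin n × Fin n | G.Adj p.1 p.2 ∧ ¬ (BU t F).Adj p.1 p.2}.ncard : ℕ) : ℝ) ≤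
      3 * ε * n ^ 2 := by
    have e1 := bad_le G H S f F hF hf
    have e2 : (({p : Fin n × Fin n | G.Adj p.1 p.2 ∧ ¬ (BU t F).Adj p.1 p.2}.ncard : ℕ) : ℝ) ≤
        (({p : Fin n × Fin n | G.Adj p.1 p.2 ∧ ¬ H.Adj p.1 p.2}.ncard : ℕ) : ℝ) +
          2 * (((n : ℝ) - S.card) * n) := by
      have e3 : (((n - S.card : ℕ)) : ℝ) = (n : ℝ) - S.card := by
        push_cast [Nat.cast_sub hSn]
        ring
      rw [← e3]
      exact_mod_cast e1
    have e4 := hB.ed
    have e5 : ((n : ℝ) - S.card) * n ≤ ε * n * n := mul_le_mul_of_nonneg_right hsm hnR.le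
    nlinarith
  have hFr : Fr (2 * t + 3) (BU t F) := (h3 t).2.1 _ _ ((h3 t).1 _ F)
  refine ⟨av (hh (H.comap (Subtype.val : {x // x ∈ S} → Fin n)) k), F, ⟨hcl2, ?_, ?_, ?_⟩⟩
  · -- missing pairs
    have e1 := h1 t k n (c / 2) G F hk hk5 (by positivity) hcl2
    have e2 := (h2 (Fin n) (BU t F) k (by omega)).2
    have e3 := hG.2 (BU t F) hFr
    have e4 := (h2 (Fin n) G k (by omega)).1
    have e5 := cwn_le G (BU t F) k
    rw [Fintype.card_fin] at e2 e5
    set mis : ℝ := (({p : Fin n × Fin n | (BU t F).Adj p.1 p.2 ∧ ¬ G.Adj p.1 p.2}.ncard : ℕ) : ℝ)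
      with hmis
    set bad : ℝ := (({p : Fin n × Fin n | G.Adj p.1 p.2 ∧ ¬ (BU t F).Adj p.1 p.2}.ncard : ℕ) : ℝ)
      with hbd
    have e6 : (cwn (BU t F) k : ℝ) ≤ cwn (G ⊓ BU t F) k + k ^ 2 * (bad * n ^ (k - 2)) +
        k ^ 2 * n ^ (k - 1) := by
      have : cwn (BU t F) k ≤ cwn (G ⊓ BU t F) k + k ^ 2 *
          ({p : Fin n × Fin n | G.Adj p.1 p.2 ∧ ¬ (BU t F).Adj p.1 p.2}.ncard * n ^ (k - 2)) +
            k ^ 2 * n ^ (k - 1) := by omega
      rw [hbd]
      exact_mod_cast this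
    have e7 : (n : ℝ) ^ (k - 1) = n * n ^ (k - 2) := by
      rw [← pow_succ']
      congr 1
      omega
    have hnk : (0 : ℝ) < (n : ℝ) ^ (k - 2) := pow_pos hnR _
    have e8 : (c / 2 * n) ^ (k - 2) * mis ≤ (k ^ 2 * (3 * ε * n ^ 2) + k ^ 2 * n) * n ^ (k - 2) := by
      rw [e7] at e6
      have : k ^ 2 * (bad * (n : ℝ) ^ (k - 2)) ≤ k ^ 2 * ((3 * ε * n ^ 2) * n ^ (k - 2)) := by
        gcongr
      linarith
    have e9 : (c / 2) ^ (k - 2) * mis ≤ k ^ 2 * (3 * ε * n ^ 2) + k ^ 2 * n := by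
      rw [mul_pow, mul_right_comm] at e8
      exact le_of_mul_le_mul_right e8 hnk
    have e10 : K * (c / 2) ^ (k - 2) = 1 := by
      rw [hKdef, ← mul_pow]
      have : 2 / c * (c / 2) = 1 := by field_simp
      rw [this, one_pow]
    have e11 : mis ≤ K * (k ^ 2 * (3 * ε * n ^ 2) + k ^ 2 * n) := by
      calc mis = K * ((c / 2) ^ (k - 2) * mis) := by rw [← mul_assoc, e10, one_mul]
        _ ≤ _ := mul_le_mul_of_nonneg_left e9 hK0
    have e12 : K * (k ^ 2 * 3) * ε ≤ ε1 / 2 :=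
      (mul_le_mul_of_nonneg_right hM2 hε.le).trans hεM
    have e13 : K * (k ^ 2 * 3) * ε * n ^ 2 ≤ ε1 / 2 * n ^ 2 :=
      mul_le_mul_of_nonneg_right e12 (by positivity)
    calc mis ≤ K * (k ^ 2 * (3 * ε * n ^ 2) + k ^ 2 * n) := e11
      _ = K * (k ^ 2 * 3) * ε * n ^ 2 + K * k ^ 2 * n := by ring
      _ ≤ ε1 / 2 * n ^ 2 + ε1 / 2 * n ^ 2 := add_le_add e13 hKn
      _ = ε1 * n ^ 2 := by ring
  · -- bad pairs
    refine hbad.trans (mul_le_mul_of_nonneg_right ?_ (by positivity))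
    have : 3 * ε ≤ M * ε := mul_le_mul_of_nonneg_right hM1 hε.le
    linarith
  · -- balance
    set τ : ℝ := av (hh (H.comap (Subtype.val : {x // x ∈ S} → Fin n)) k) with hτ
    have hnk1 : (0 : ℝ) < (n : ℝ) ^ (k - 1) := pow_pos hnR _
    -- lower bound
    have hlow : ∀ x, τ - k * ε ≤ (cwx (BU t F) k x : ℝ) / n ^ (k - 1) := by
      intro x
      have hex : ∃ x' : {x // x ∈ S}, F x = F x'.1 := by
        have e1 : 0 < ms {y | f y = F x} := lt_of_lt_of_le hc (hcl _)
        obtain ⟨y, hy⟩ := exists_mem_of_ms_pos e1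
        refine ⟨y, ?_⟩
        rw [hF]
        exact hy.symm
      obtain ⟨x', hx'⟩ := hex
      rw [cwx_eq hk0 F hx']
      have e1 := cwx_sub (k := k) S H f F hF hf x'
      have e2 := h4 {x // x ∈ S} (H.comap (Subtype.val : {x // x ∈ S} → Fin n)) k x' (by omega)
      have e3 := cwx_le_pow (H.comap (Subtype.val : {x // x ∈ S} → Fin n)) hk0 x'
      rw [hcardS] at e2 e3
      set h : ℝ := hh (H.comap (Subtype.val : {x // x ∈ S} → Fin n)) k x' with hh'
      have hSk : (0 : ℝ) < (S.card : ℝ) ^ (k - 1) := pow_pos hS0 _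
      have e4 : (cwx (H.comap (Subtype.val : {x // x ∈ S} → Fin n)) k x' : ℝ) ≤
          (S.card : ℝ) ^ (k - 1) := by exact_mod_cast e3
      have e5 : (cwx (H.comap (Subtype.val : {x // x ∈ S} → Fin n)) k x' : ℝ) ≤
          cwx (BU t F) k x'.1 := by exact_mod_cast e1
      have hh1 : h ≤ 1 := by
        rw [← e2] at e4
        exact le_of_mul_le_mul_right (by linarith) hSk
      have hh0 : 0 ≤ h := by
        have : 0 ≤ h * (S.card : ℝ) ^ (k - 1) := by
          rw [e2]
          positivity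
        exact nonneg_of_mul_nonneg_left this hSk
      have hba := hB.ba x'
      rw [abs_le] at hba
      have hhτ : τ - ε ≤ h := by linarith [hba.1]
      have e6 : 1 - (k - 1 : ℕ) * ε ≤ ((S.card : ℝ) / n) ^ (k - 1) := by
        have e7 : 1 - ε ≤ (S.card : ℝ) / n := by
          rw [le_div_iff₀ hnR]
          linarith
        have e8 := one_add_mul_le_pow (a := -ε) (by linarith) (k - 1)
        calc 1 - (k - 1 : ℕ) * ε = 1 + (k - 1 : ℕ) * (-ε) := by ring
          _ ≤ (1 + -ε) ^ (k - 1) := e8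
          _ ≤ ((S.card : ℝ) / n) ^ (k - 1) := by
            apply pow_le_pow_left₀ (by linarith)
            linarith
      have e9 : ((k - 1 : ℕ) : ℝ) = (k : ℝ) - 1 := by
        push_cast [Nat.cast_sub (by omega : 1 ≤ k)]
        ring
      rw [e9] at e6
      have hk1 : (0 : ℝ) ≤ (k : ℝ) - 1 := by
        rw [← e9]
        positivity
      have e10 : h * (1 - ((k : ℝ) - 1) * ε) ≤ h * ((S.card : ℝ) / n) ^ (k - 1) :=
        mul_le_mul_of_nonneg_left e6 hh0
      have e11 : h * ((S.card : ℝ) / n) ^ (k - 1) ≤ (cwx (BU t F) k x'.1 : ℝ) / n ^ (k - 1) := by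
        rw [div_pow, ← mul_div_assoc, e2]
        exact div_le_div_of_nonneg_right e5 hnk1.le
      have e12 : h * (((k : ℝ) - 1) * ε) ≤ 1 * (((k : ℝ) - 1) * ε) :=
        mul_le_mul_of_nonneg_right hh1 (mul_nonneg hk1 hε.le)
      nlinarith
    -- upper bound
    have hsum : ∑ x, ((cwx (BU t F) k x : ℝ) / n ^ (k - 1)) ≤ n * (τ + ε) := by
      rw [← Finset.sum_div, ← Nat.cast_sum, sum_cwx _ _ hk0]
      have e1 := hB.op (BU t F) hFr
      have e2 : (n : ℝ) ^ k = n * n ^ (k - 1) := by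
        rw [← pow_succ']
        congr 1
        omega
      rw [e2] at e1
      rw [div_le_iff₀ hnk1]
      have e3 : (cwn (BU t F) k : ℝ) / (n * n ^ (k - 1)) ≤ τ + ε := by linarith
      rw [div_le_iff₀ (by positivity)] at e3
      linarith
    intro x
    have hx1 := hlow x
    have hx2 : (cwx (BU t F) k x : ℝ) / n ^ (k - 1) ≤ τ - k * ε + (k + 2) * ε * (2 / c) := by
      set v : ℝ := (cwx (BU t F) k x : ℝ) / n ^ (k - 1) with hv
      have e1 : ∑ x', ((cwx (BU t F) k x' : ℝ) / n ^ (k - 1) - (τ - k * ε)) ≤ n * ((k + 2) * ε) := by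
        rw [Finset.sum_sub_distrib, Finset.sum_const, Finset.card_univ, Fintype.card_fin,
          nsmul_eq_mul]
        have : (n : ℝ) * ε ≥ 0 := by positivity
        nlinarith
      have e2 : ∑ x' ∈ Finset.univ.filter (fun x' => F x' = F x), (v - (τ - k * ε)) ≤
          ∑ x', ((cwx (BU t F) k x' : ℝ) / n ^ (k - 1) - (τ - k * ε)) := by
        rw [Finset.sum_filter]
        refine Finset.sum_le_sum fun x' _ => ?_
        by_cases hxx : F x' = F x
        · rw [if_pos hxx, cwx_eq hk0 F hxx]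
        · rw [if_neg hxx]
          linarith [hlow x']
      rw [Finset.sum_const, nsmul_eq_mul] at e2
      have e3 : (c / 2 * n : ℝ) ≤ ((Finset.univ.filter (fun x' => F x' = F x)).card : ℝ) := by
        refine (hcl2 (F x)).trans (le_of_eq ?_)
        rw [← Set.ncard_coe_finset]
        congr 2
        ext y
        simp
      have e4 : c / 2 * n * (v - (τ - k * ε)) ≤ n * ((k + 2) * ε) :=
        (mul_le_mul_of_nonneg_right e3 (by linarith)).trans (e2.trans e1)
      have e5 : c / 2 * (v - (τ - k * ε)) ≤ (k + 2) * ε := by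
        have : (c / 2 * (v - (τ - k * ε))) * n ≤ ((k + 2) * ε) * n := by linarith
        exact le_of_mul_le_mul_right this hnR
      have e6 : v - (τ - k * ε) ≤ (k + 2) * ε * (2 / c) := by
        have e7 : (2 / c) * (c / 2 * (v - (τ - k * ε))) ≤ (2 / c) * ((k + 2) * ε) :=
          mul_le_mul_of_nonneg_left e5 h2c
        have e8 : (2 / c) * (c / 2 * (v - (τ - k * ε))) = v - (τ - k * ε) := by
          field_simp
        rw [e8] at e7
        linarith
      linarith
    have e1 : (k + 2) * ε * (2 / c) ≤ ε1 / 2 := by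
      have := mul_le_mul_of_nonneg_right hM3 hε.le
      calc (k + 2) * ε * (2 / c) = ((k : ℝ) + 2) * (2 / c) * ε := by ring
        _ ≤ M * ε := this
        _ ≤ ε1 / 2 := hεM
    have e2 : k * ε ≤ ε1 / 2 := by
      have := mul_le_mul_of_nonneg_right hM4 hε.le
      nlinarith
    have e3 : 0 ≤ (k : ℝ) * ε := by positivity
    rw [abs_le]
    constructor
    · linarith
    · linarith

end Pool.Agent.OCX
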