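import Pool.Agent.OCX.Stmts
import Pool.Agent.OCX.Lib

/-!
# OCX module EX2: every vertex of an extremal graph lies on many closed walks
-/

open scoped BigOperators

namespace Pool.Agent.OCX

namespace EX2_

/-- functions with prescribed values on a set of coordinates -/
theorem card_pi {k n : ℕ} (T : Finset (Fin k)) (S : Fin k → Finset (Fin n)) :
    (Fintype.piFinset (fun j => if j ∈ T then S j else (Finset.univ : Finset (Fin n)))).card =
      (∏ j ∈ T, (S j).card) * n ^ (k - T.card) := by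
  classical
  rw [Fintype.card_piFinset]
  have h1 : ∀ j : Fin k, (if j ∈ T then S j else (Finset.univ : Finset (Fin n))).card =
      if j ∈ T then (S j).card else n := by
    intro j
    split_ifs
    · rfl
    · simp
  rw [Finset.prod_congr rfl (fun j _ => h1 j), Finset.prod_ite]
  have h2 : (Finset.univ.filter fun j : Fin k => j ∈ T) = T := by
    ext j; simp
  have h3 : (Finset.univ.filter fun j : Fin k => ¬ j ∈ T) = Tᶜ := by
    ext j; simp
  rw [h2, h3, Finset.prod_const, Finset.card_compl, Fintype.card_fin]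

/-- one coordinate restricted -/
theorem count1 {k n : ℕ} (o i : Fin k) (hi : i ≠ o) (u : Fin n) (S : Set (Fin n)) :
    {y : Fin k → Fin n | y o = u ∧ y i ∈ S}.ncard ≤ S.ncard * n ^ (k - 2) := by
  classical
  have h1 := card_pi (n := n) ({o, i} : Finset (Fin k))
    (fun j => if j = o then {u} else S.toFinite.toFinset)
  rw [Finset.prod_pair hi.symm, Finset.card_pair hi.symm] at h1
  rw [if_pos rfl, if_neg hi, Finset.card_singleton, one_mul,
    ← Set.ncard_eq_toFinset_card S S.toFinite] at h1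
  rw [← h1, ← Set.ncard_coe_finset]
  apply Set.ncard_le_ncard _ (Set.toFinite _)
  intro y hy
  simp only [Finset.mem_coe, Fintype.mem_piFinset]
  intro j
  by_cases hj : j = o
  · subst hj
    simp [hy.1]
  · by_cases hj2 : j = i
    · subst hj2
      rw [if_pos (by simp), if_neg hi]
      exact S.toFinite.mem_toFinset.2 hy.2
    · simp [hj, hj2]

/-- two coordinates restricted -/
theorem count2 {k n : ℕ} (o i j : Fin k) (hi : i ≠ o) (hj : j ≠ o) (hij : i ≠ j) (u : Fin n)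
    (P : Set (Fin n × Fin n)) :
    {y : Fin k → Fin n | y o = u ∧ (y i, y j) ∈ P}.ncard ≤ P.ncard * n ^ (k - 3) := by
  classical
  have h1 : ∀ p : Fin n × Fin n,
      (Fintype.piFinset (fun l => if l ∈ ({o, i, j} : Finset (Fin k)) then
        (if l = o then {u} else if l = i then {p.1} else {p.2}) else
          (Finset.univ : Finset (Fin n)))).card = n ^ (k - 3) := by
    intro p
    rw [card_pi]
    have h3 : ({o, i, j} : Finset (Fin k)).card = 3 := by
      rw [Finset.card_eq_three]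
      exact ⟨o, i, j, hi.symm, hj.symm, hij, rfl⟩
    rw [h3, Finset.prod_eq_one, one_mul]
    intro l _
    split_ifs <;> simp
  have h2 : {y : Fin k → Fin n | y o = u ∧ (y i, y j) ∈ P} ⊆
      ((P.toFinite.toFinset.biUnion fun p => Fintype.piFinset (fun l =>
        if l ∈ ({o, i, j} : Finset (Fin k)) then
        (if l = o then {u} else if l = i then {p.1} else {p.2}) else
          (Finset.univ : Finset (Fin n))) : Finset (Fin k → Fin n)) : Set (Fin k → Fin n)) := by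
    intro y hy
    simp only [Finset.coe_biUnion, Set.mem_iUnion]
    refine ⟨(y i, y j), ?_, ?_⟩
    · exact Finset.mem_coe.2 (P.toFinite.mem_toFinset.2 hy.2)
    · simp only [Finset.mem_coe, Fintype.mem_piFinset]
      intro l
      by_cases hl : l = o
      · subst hl
        simp [hy.1]
      · by_cases hl2 : l = i
        · subst hl2
          simp [hi]
        · by_cases hl3 : l = j
          · subst hl3
            simp [hl, hl2]
          · simp [hl, hl2, hl3]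
  refine (Set.ncard_le_ncard h2 (Finset.finite_toSet _)).trans ?_
  rw [Set.ncard_coe_finset]
  refine Finset.card_biUnion_le.trans ?_
  rw [Finset.sum_congr rfl (fun p _ => h1 p), Finset.sum_const, smul_eq_mul,
    ← Set.ncard_eq_toFinset_card P P.toFinite]

/-- finite unions -/
theorem ncard_iUnion_le' {ι α : Type} [Fintype ι] (s : ι → Set α) (b : ι → ℕ)
    (h : ∀ i, (s i).ncard ≤ b i) : (⋃ i, s i).ncard ≤ ∑ i, b i := by
  classical
  have h1 := Finset.set_ncard_biUnion_le (Finset.univ : Finset ι) s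
  have h2 : (⋃ i ∈ (Finset.univ : Finset ι), s i) = ⋃ i, s i := by simp
  rw [h2] at h1
  exact h1.trans (Finset.sum_le_sum fun i _ => h i)

/-- missing neighbours -/
def Mi {t n : ℕ} (G : SimpleGraph (Fin n)) (F : Fin n → Fin (2 * t + 5)) (x : Fin n) :
    Set (Fin n) := {w | (BU t F).Adj x w ∧ ¬ G.Adj x w}

/-- missing pairs -/
def Mp {t n : ℕ} (G : SimpleGraph (Fin n)) (F : Fin n → Fin (2 * t + 5)) :
    Set (Fin n × Fin n) := {p | (BU t F).Adj p.1 p.2 ∧ ¬ G.Adj p.1 p.2}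

/-- the comparison of the closed walks -/
theorem walk_le {t k n : ℕ} (hk : 3 ≤ k) (G : SimpleGraph (Fin n)) (F : Fin n → Fin (2 * t + 5))
    (z : Fin n) (u : Fin (2 * t + 3) → Fin n) (u0 : Fin n) (hF : ∀ i, F (u i) = F u0) (M : ℕ)
    (hM : ∀ i, (Mi G F (u i)).ncard ≤ M) :
    cwx (BU t F) k u0 ≤ cwx (rpl G z {w | ∀ i, G.Adj (u i) w}) k z + k * n ^ (k - 2) +
      k * ((2 * t + 3) * (M * n ^ (k - 2))) + k * (k * ((Mp G F).ncard * n ^ (k - 3))) := by
  classical
  have hk0 : 0 < k := by omega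
  set o : Fin k := ⟨0, hk0⟩ with ho
  set N : Set (Fin n) := {w | ∀ i, G.Adj (u i) w} with hN
  set W : Set (Fin k → Fin n) := {y | y ∈ cws (BU t F) k ∧ ∀ i : Fin k, (i : ℕ) = 0 → y i = u0}
    with hW
  set Gd : Set (Fin k → Fin n) := {y | y ∈ W ∧ (∀ i, i ≠ o → y i ≠ z) ∧
    (∀ i, i ≠ o → (SimpleGraph.cycleGraph k).Adj o i → y i ∈ N) ∧
    (∀ i j, i ≠ o → j ≠ o → (SimpleGraph.cycleGraph k).Adj i j → G.Adj (y i) (y j))} with hGd
  set B1 : Set (Fin k → Fin n) := ⋃ i : Fin k, {y | i ≠ o ∧ y o = u0 ∧ y i ∈ ({z} : Set (Fin n))}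
    with hB1
  set B2 : Set (Fin k → Fin n) := ⋃ i : Fin k, ⋃ l : Fin (2 * t + 3),
    {y | i ≠ o ∧ y o = u0 ∧ y i ∈ Mi G F (u l)} with hB2
  set B3 : Set (Fin k → Fin n) := ⋃ i : Fin k, ⋃ j : Fin k,
    {y | (i ≠ o ∧ j ≠ o ∧ i ≠ j) ∧ y o = u0 ∧ (y i, y j) ∈ Mp G F} with hB3
  have hsub : W ⊆ Gd ∪ B1 ∪ B2 ∪ B3 := by
    intro y hy
    by_contra hcon
    simp only [Set.mem_union, not_or] at hcon
    obtain ⟨⟨⟨h1, h2⟩, h3⟩, h4⟩ := hcon
    have hyo : y o = u0 := hy.2 o rfl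
    apply h1
    refine ⟨hy, ?_, ?_, ?_⟩
    · intro i hi hyi
      exact h2 (Set.mem_iUnion.2 ⟨i, hi, hyo, hyi⟩)
    · intro i hi hadj l
      by_contra hl
      refine h3 (Set.mem_iUnion.2 ⟨i, Set.mem_iUnion.2 ⟨l, hi, hyo, ?_, hl⟩⟩)
      have := hy.1 o i hadj
      rw [hyo] at this
      change (SimpleGraph.cycleGraph (2 * t + 5)).Adj (F (u l)) (F (y i))
      rw [hF l]
      exact this
    · intro i j hi hj hadj
      by_contra hl
      exact h4 (Set.mem_iUnion.2 ⟨i, Set.mem_iUnion.2 ⟨j, ⟨hi, hj, hadj.ne⟩, hyo, hy.1 i j hadj,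
        hl⟩⟩)
  have hc : W.ncard ≤ Gd.ncard + B1.ncard + B2.ncard + B3.ncard := by
    refine (Set.ncard_le_ncard hsub (Set.toFinite _)).trans ?_
    refine (Set.ncard_union_le _ _).trans ?_
    have h1 := Set.ncard_union_le (Gd ∪ B1) B2
    have h2 := Set.ncard_union_le Gd B1
    omega
  have hG : Gd.ncard ≤ cwx (rpl G z N) k z := by
    unfold cwx
    refine Set.ncard_le_ncard_of_injOn (fun y => Function.update y o z) ?_ ?_ (Set.toFinite _)
    · intro y hy
      obtain ⟨hyW, h1, h2, h3⟩ := hy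
      refine ⟨?_, ?_⟩
      · intro i j hadj
        by_cases hi : i = o
        · rw [hi] at hadj ⊢
          have hj : j ≠ o := hadj.ne'
          rw [Function.update_self, Function.update_of_ne hj]
          exact Or.inr (Or.inl ⟨rfl, h1 j hj, h2 j hj hadj⟩)
        · by_cases hj : j = o
          · rw [hj] at hadj ⊢
            rw [Function.update_self, Function.update_of_ne hi]
            exact Or.inr (Or.inr ⟨rfl, h1 i hi, h2 i hi hadj.symm⟩)
          · rw [Function.update_of_ne hi, Function.update_of_ne hj]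
            exact Or.inl ⟨h1 i hi, h1 j hj, h3 i j hi hj hadj⟩
      · intro i hi
        have : i = o := Fin.ext hi
        rw [this, Function.update_self]
    · intro y hy y' hy' h
      funext i
      by_cases hi : i = o
      · rw [hi, hy.1.2 _ rfl, hy'.1.2 _ rfl]
      · have := congrFun h i
        simpa [Function.update_of_ne hi] using this
  have hb1 : B1.ncard ≤ k * n ^ (k - 2) := by
    have h1 : ∀ i : Fin k, {y : Fin k → Fin n | i ≠ o ∧ y o = u0 ∧
        y i ∈ ({z} : Set (Fin n))}.ncard ≤ n ^ (k - 2) := by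
      intro i
      by_cases hi : i = o
      · simp [hi]
      · have h := count1 o i hi u0 ({z} : Set (Fin n))
        rw [Set.ncard_singleton, one_mul] at h
        refine (Set.ncard_le_ncard ?_ (Set.toFinite _)).trans h
        intro y hy
        exact hy.2
    have h2 := ncard_iUnion_le' _ _ h1
    rw [Finset.sum_const, Finset.card_univ, Fintype.card_fin, smul_eq_mul] at h2
    exact h2
  have hb2 : B2.ncard ≤ k * ((2 * t + 3) * (M * n ^ (k - 2))) := by
    have h1 : ∀ (i : Fin k) (l : Fin (2 * t + 3)), {y : Fin k → Fin n | i ≠ o ∧ y o = u0 ∧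
        y i ∈ Mi G F (u l)}.ncard ≤ M * n ^ (k - 2) := by
      intro i l
      by_cases hi : i = o
      · simp [hi]
      · have h := count1 o i hi u0 (Mi G F (u l))
        refine (Set.ncard_le_ncard ?_ (Set.toFinite _)).trans
          (h.trans (Nat.mul_le_mul_right _ (hM l)))
        intro y hy
        exact hy.2
    have h2 := ncard_iUnion_le' _ _ fun i : Fin k => ncard_iUnion_le' _ _ (h1 i)
    simpa using h2
  have hb3 : B3.ncard ≤ k * (k * ((Mp G F).ncard * n ^ (k - 3))) := by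
    have h1 : ∀ (i j : Fin k), {y : Fin k → Fin n | (i ≠ o ∧ j ≠ o ∧ i ≠ j) ∧ y o = u0 ∧
        (y i, y j) ∈ Mp G F}.ncard ≤ (Mp G F).ncard * n ^ (k - 3) := by
      intro i j
      by_cases hi : i ≠ o ∧ j ≠ o ∧ i ≠ j
      · have h := count2 o i j hi.1 hi.2.1 hi.2.2 u0 (Mp G F)
        refine (Set.ncard_le_ncard ?_ (Set.toFinite _)).trans h
        intro y hy
        exact hy.2
      · have : {y : Fin k → Fin n | (i ≠ o ∧ j ≠ o ∧ i ≠ j) ∧ y o = u0 ∧
            (y i, y j) ∈ Mp G F} = ∅ := by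
          ext y
          simp only [Set.mem_ofPred_eq, Set.mem_empty_iff_false, iff_false]
          exact fun h => hi h.1
        rw [this]
        simp
    have h2 := ncard_iUnion_le' _ _ fun i : Fin k => ncard_iUnion_le' _ _ (h1 i)
    simpa using h2
  have hfin : cwx (BU t F) k u0 = W.ncard := rfl
  omega

theorem sum_Mi {t n : ℕ} (G : SimpleGraph (Fin n)) (F : Fin n → Fin (2 * t + 5)) :
    ∑ x, (Mi G F x).ncard = (Mp G F).ncard := by
  classical
  rw [Set.ncard_eq_toFinset_card (Mp G F) (Set.toFinite _),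
    Finset.card_eq_sum_card_fiberwise (f := Prod.fst) (t := (Finset.univ : Finset (Fin n)))
      (fun _ _ => Finset.mem_coe.2 (Finset.mem_univ _))]
  refine Finset.sum_congr rfl fun x _ => ?_
  rw [← Set.ncard_coe_finset]
  refine Set.ncard_congr (fun w _ => (x, w)) ?_ ?_ ?_
  · intro w hw
    simp only [Finset.coe_filter, Set.Finite.mem_toFinset]
    exact ⟨hw, rfl⟩
  · intro a b _ _ h
    exact (Prod.ext_iff.1 h).2
  · intro p hp
    simp only [Finset.coe_filter, Set.Finite.mem_toFinset] at hp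
    obtain ⟨h1, h2⟩ := hp
    refine ⟨p.2, ?_, ?_⟩
    · rw [← h2]
      exact h1
    · rw [← h2]

theorem markov {t n : ℕ} (G : SimpleGraph (Fin n)) (F : Fin n → Fin (2 * t + 5)) (r : ℝ) :
    (({x | r < ((Mi G F x).ncard : ℝ)}.ncard : ℕ) : ℝ) * r ≤ ((Mp G F).ncard : ℝ) := by
  classical
  rw [← sum_Mi, Nat.cast_sum, Set.ncard_eq_toFinset_card _ (Set.toFinite _)]
  calc (((Set.toFinite {x | r < ((Mi G F x).ncard : ℝ)}).toFinset.card : ℕ) : ℝ) * r
      = ∑ x ∈ (Set.toFinite {x | r < ((Mi G F x).ncard : ℝ)}).toFinset, r := by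
        rw [Finset.sum_const, nsmul_eq_mul]
    _ ≤ ∑ x ∈ (Set.toFinite {x | r < ((Mi G F x).ncard : ℝ)}).toFinset,
          ((Mi G F x).ncard : ℝ) := by
        refine Finset.sum_le_sum fun x hx => ?_
        rw [Set.Finite.mem_toFinset] at hx
        exact le_of_lt hx
    _ ≤ ∑ x, ((Mi G F x).ncard : ℝ) :=
        Finset.sum_le_sum_of_subset_of_nonneg (Finset.subset_univ _) fun _ _ _ => Nat.cast_nonneg _

/-- many good vertices in a class -/
theorem choose_u {t n : ℕ} (G : SimpleGraph (Fin n)) (F : Fin n → Fin (2 * t + 5)) (c s : ℝ)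
    (hs : 0 < s) (hn : 0 < n) (hcl : c * n ≤ (({x | F x = 0}.ncard : ℕ) : ℝ))
    (hmis : ((Mp G F).ncard : ℝ) ≤ s ^ 2 * n ^ 2) (hbig : (2 * t + 4 : ℝ) ≤ (c - s) * n)
    (z : Fin n) : ∃ u : Fin (2 * t + 3) → Fin n, Function.Injective u ∧ (∀ i, u i ≠ z) ∧
      (∀ i, F (u i) = 0) ∧ ∀ i, ((Mi G F (u i)).ncard : ℝ) ≤ s * n := by
  classical
  have hn' : (0 : ℝ) < n := Nat.cast_pos.2 hn
  have hm := markov G F (s * n)
  have hBd : (({x | s * n < ((Mi G F x).ncard : ℝ)}.ncard : ℕ) : ℝ) ≤ s * n := by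
    have h1 : (({x | s * n < ((Mi G F x).ncard : ℝ)}.ncard : ℕ) : ℝ) * (s * n) ≤
        (s * n) * (s * n) := by
      calc _ ≤ ((Mp G F).ncard : ℝ) := hm
        _ ≤ s ^ 2 * n ^ 2 := hmis
        _ = _ := by ring
    exact le_of_mul_le_mul_right h1 (by positivity)
  have hsub : {x | F x = 0} ⊆ {x | F x = 0 ∧ x ≠ z ∧ ((Mi G F x).ncard : ℝ) ≤ s * n} ∪ {z} ∪
      {x | s * n < ((Mi G F x).ncard : ℝ)} := by
    intro x hx
    by_cases h1 : x = z
    · exact Or.inl (Or.inr h1)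
    · by_cases h2 : ((Mi G F x).ncard : ℝ) ≤ s * n
      · exact Or.inl (Or.inl ⟨hx, h1, h2⟩)
      · exact Or.inr (not_le.1 h2)
  have hcard : {x | F x = 0}.ncard ≤
      {x | F x = 0 ∧ x ≠ z ∧ ((Mi G F x).ncard : ℝ) ≤ s * n}.ncard + 1 +
        {x | s * n < ((Mi G F x).ncard : ℝ)}.ncard := by
    refine (Set.ncard_le_ncard hsub (Set.toFinite _)).trans ?_
    refine (Set.ncard_union_le _ _).trans ?_
    have h2 := Set.ncard_union_le {x | F x = 0 ∧ x ≠ z ∧ ((Mi G F x).ncard : ℝ) ≤ s * n} {z}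
    rw [Set.ncard_singleton] at h2
    omega
  have hcard' : (({x | F x = 0}.ncard : ℕ) : ℝ) ≤
      ({x | F x = 0 ∧ x ≠ z ∧ ((Mi G F x).ncard : ℝ) ≤ s * n}.ncard : ℝ) + 1 +
        ({x | s * n < ((Mi G F x).ncard : ℝ)}.ncard : ℝ) := by exact_mod_cast hcard
  have hU : 2 * t + 3 ≤ {x | F x = 0 ∧ x ≠ z ∧ ((Mi G F x).ncard : ℝ) ≤ s * n}.ncard := by
    have : ((2 * t + 3 : ℕ) : ℝ) ≤
        ({x | F x = 0 ∧ x ≠ z ∧ ((Mi G F x).ncard : ℝ) ≤ s * n}.ncard : ℝ) := by
      push_cast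
      nlinarith
    exact_mod_cast this
  rw [Set.ncard_eq_toFinset_card _ (Set.toFinite _)] at hU
  obtain ⟨T, hT, hTc⟩ := Finset.exists_subset_card_eq hU
  have hmem : ∀ i, T.orderEmbOfFin hTc i ∈
      {x | F x = 0 ∧ x ≠ z ∧ ((Mi G F x).ncard : ℝ) ≤ s * n} := by
    intro i
    have := hT (Finset.orderEmbOfFin_mem T hTc i)
    rwa [Set.Finite.mem_toFinset] at this
  exact ⟨fun i => T.orderEmbOfFin hTc i, (T.orderEmbOfFin hTc).injective,
    fun i => (hmem i).2.1, fun i => (hmem i).1, fun i => (hmem i).2.2⟩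

end EX2_

theorem ex2_proof (h1 : Stmt_EX2A) (h2 : Stmt_EX2B) : Stmt_EX2 := by
  intro t k c θ _ hk hc hθ
  have hk3 : 3 ≤ k := by omega
  have hkR : (0 : ℝ) < k := by
    have : 0 < k := by omega
    exact_mod_cast this
  set Q : ℝ := 1 + k * (2 * t + 3) + k ^ 2 with hQ
  have hQ0 : 0 < Q := by positivity
  set s : ℝ := min (min 1 (c / 2)) (θ / (2 * Q)) with hs
  have hs0 : 0 < s := by
    refine lt_min (lt_min one_pos (by positivity)) (by positivity)
  have hs1 : s ≤ 1 := (min_le_left _ _).trans (min_le_left _ _)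
  have hs2 : s ≤ c / 2 := (min_le_left _ _).trans (min_le_right _ _)
  have hs3 : s * (2 * Q) ≤ θ := by
    have := min_le_right (min 1 (c / 2)) (θ / (2 * Q))
    rw [← hs] at this
    rwa [le_div_iff₀ (by positivity)] at this
  obtain ⟨n1, hn1⟩ := exists_nat_ge ((2 * t + 4) * 2 / c)
  obtain ⟨n2, hn2⟩ := exists_nat_ge (2 * (k ^ 2 + k) / θ)
  refine ⟨s ^ 2, by positivity, max (max n1 n2) 1, ?_⟩
  intro n hn G hG τ F hNB z
  have hn1' : n1 ≤ n := ((le_max_left _ _).trans (le_max_left _ _)).trans hn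
  have hn2' : n2 ≤ n := ((le_max_right _ _).trans (le_max_left _ _)).trans hn
  have hn0 : 0 < n := lt_of_lt_of_le one_pos ((le_max_right _ _).trans hn)
  have hnR : (0 : ℝ) < n := Nat.cast_pos.2 hn0
  have hnA : (2 * t + 4) * 2 / c ≤ n := hn1.trans (by exact_mod_cast hn1')
  have hnB : 2 * ((k : ℝ) ^ 2 + k) / θ ≤ n := hn2.trans (by exact_mod_cast hn2')
  rw [div_le_iff₀ hc] at hnA
  rw [div_le_iff₀ hθ] at hnB
  have hmis : ((EX2_.Mp G F).ncard : ℝ) ≤ s ^ 2 * n ^ 2 := hNB.mis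
  obtain ⟨u, hinj, huz, huF, huM⟩ := EX2_.choose_u G F c s hs0 hn0 (hNB.cl 0) hmis
    (by
      have := mul_le_mul_of_nonneg_right hs2 hnR.le
      linarith) z
  set N : Set (Fin n) := {w | ∀ i, G.Adj (u i) w} with hN
  have hfr : Fr (2 * t + 3) (rpl G z N) := h1 t n G z u hG.1 hinj huz
  have hle : cwx (rpl G z N) k z ≤ cwx G k z + k ^ 2 * n ^ (k - 2) := h2 t k n G z N hk3 hG hfr
  have hw := EX2_.walk_le hk3 G F z u (u 0) (fun i => by rw [huF i, huF 0]) ⌊s * n⌋₊
    (fun i => Nat.le_floor (huM i))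
  rw [← hN] at hw
  have hfl : ((⌊s * n⌋₊ : ℕ) : ℝ) ≤ s * n := Nat.floor_le (by positivity)
  have hbal := (abs_le.1 (hNB.bal (u 0))).1
  set P : ℝ := (n : ℝ) ^ (k - 1) with hP
  have hP0 : 0 < P := by positivity
  have hp2 : (n : ℝ) ^ (k - 2) * n = P := by
    rw [hP, ← pow_succ]
    congr 1
    omega
  have hp3 : (n : ℝ) ^ (k - 3) * n ^ 2 = P := by
    rw [hP, ← pow_add]
    congr 1
    omega
  have hw' : (cwx (BU t F) k (u 0) : ℝ) ≤ cwx G k z + k ^ 2 * n ^ (k - 2) + k * n ^ (k - 2) +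
      k * ((2 * t + 3) * (⌊s * n⌋₊ * n ^ (k - 2))) +
      k * (k * ((EX2_.Mp G F).ncard * n ^ (k - 3))) := by
    have : cwx (BU t F) k (u 0) ≤ cwx G k z + k ^ 2 * n ^ (k - 2) + k * n ^ (k - 2) +
      k * ((2 * t + 3) * (⌊s * n⌋₊ * n ^ (k - 2))) +
      k * (k * ((EX2_.Mp G F).ncard * n ^ (k - 3))) := by omega
    exact_mod_cast this
  have e2 : ((⌊s * n⌋₊ : ℕ) : ℝ) * (n : ℝ) ^ (k - 2) ≤ s * P := by
    calc ((⌊s * n⌋₊ : ℕ) : ℝ) * (n : ℝ) ^ (k - 2) ≤ (s * n) * (n : ℝ) ^ (k - 2) := by gcongr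
      _ = s * ((n : ℝ) ^ (k - 2) * n) := by ring
      _ = s * P := by rw [hp2]
  have e3 : ((EX2_.Mp G F).ncard : ℝ) * (n : ℝ) ^ (k - 3) ≤ s * P := by
    calc ((EX2_.Mp G F).ncard : ℝ) * (n : ℝ) ^ (k - 3) ≤ (s ^ 2 * n ^ 2) * (n : ℝ) ^ (k - 3) := by
          gcongr
      _ = s ^ 2 * ((n : ℝ) ^ (k - 3) * n ^ 2) := by ring
      _ = s ^ 2 * P := by rw [hp3]
      _ ≤ s * P := by
          have : s ^ 2 ≤ s := by
            rw [pow_two]
            exact mul_le_of_le_one_left hs0.le hs1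
          gcongr
  have e1 : ((k : ℝ) ^ 2 + k) * n ^ (k - 2) ≤ θ / 2 * P := by
    rw [← hp2]
    have h3 : (0 : ℝ) ≤ (n : ℝ) ^ (k - 2) := by positivity
    have h4 : ((k : ℝ) ^ 2 + k) ≤ θ / 2 * n := by linarith
    calc ((k : ℝ) ^ 2 + k) * n ^ (k - 2) ≤ (θ / 2 * n) * n ^ (k - 2) := by gcongr
      _ = θ / 2 * ((n : ℝ) ^ (k - 2) * n) := by ring
  have e4 : (cwx (BU t F) k (u 0) : ℝ) ≤ cwx G k z + (θ / 2 + (k * (2 * t + 3) + k ^ 2) * s) * P := by
    have f2 : (k : ℝ) * ((2 * t + 3) * (⌊s * n⌋₊ * n ^ (k - 2))) ≤ k * ((2 * t + 3) * (s * P)) := by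
      gcongr
    have f3 : (k : ℝ) * (k * ((EX2_.Mp G F).ncard * n ^ (k - 3))) ≤ k * (k * (s * P)) := by
      gcongr
    linarith
  have e5 : (cwx (BU t F) k (u 0) : ℝ) / P ≤
      cwx G k z / P + (θ / 2 + (k * (2 * t + 3) + k ^ 2) * s) := by
    rw [div_le_iff₀ hP0, add_mul, div_mul_cancel₀ _ hP0.ne']
    exact e4
  have e6 : s ^ 2 ≤ s := by
    rw [pow_two]
    exact mul_le_of_le_one_left hs0.le hs1
  have e7 : s ^ 2 + (θ / 2 + (k * (2 * t + 3) + k ^ 2) * s) ≤ θ := by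
    have : s * Q ≤ θ / 2 := by linarith
    rw [hQ] at this
    linarith
  linarith

end Pool.Agent.OCX
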