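import Pool.Agent.OCX.Stmts
import Pool.Agent.OCX.Lib

/-!
# EX2A: cloning a common neighbourhood keeps the graph free (MP_e73810_co)
-/

namespace Pool.Agent.OCX

namespace EX2A_

theorem rpl_adj_of_ne {W : Type} {G : SimpleGraph W} {z : W} {N : Set W} {a b : W}
    (ha : a ≠ z) (hb : b ≠ z) (h : (rpl G z N).Adj a b) : G.Adj a b := by
  rcases h with ⟨_, _, h⟩ | ⟨h, _⟩ | ⟨h, _⟩
  · exact h
  · exact absurd h ha
  · exact absurd h hb

theorem rpl_adj_left {W : Type} {G : SimpleGraph W} {z : W} {N : Set W} {b : W}
    (h : (rpl G z N).Adj z b) : b ∈ N := by
  rcases h with ⟨h, _⟩ | ⟨_, _, h⟩ | ⟨_, h, _⟩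
  · exact absurd rfl h
  · exact h
  · exact absurd rfl h

end EX2A_

open EX2A_ in
theorem ex2a_proof : Stmt_EX2A := by
  intro t n G z u hF hu huz y hy hyi
  classical
  by_cases hz : ∃ p, y p = z
  · obtain ⟨p, hp⟩ := hz
    have hne : ∀ i, i ≠ p → y i ≠ z := by
      intro i hi h
      exact hi (hyi (h.trans hp.symm))
    have hj : ∃ j, ∀ i, y i ≠ u j := by
      by_contra hno
      push Not at hno
      choose f hf using hno
      have hfi : Function.Injective f := by
        intro a b hab
        apply hu
        rw [← hf a, ← hf b, hab]
      obtain ⟨j, hj⟩ := (Finite.injective_iff_surjective.1 hfi) p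
      have := hf j
      rw [hj, hp] at this
      exact huz j this.symm
    obtain ⟨j, hj⟩ := hj
    refine hF (Function.update y p (u j)) ?_ ?_
    · intro a b hab
      by_cases ha : a = p
      · subst ha
        have hb : b ≠ a := hab.ne.symm
        rw [Function.update_self, Function.update_of_ne hb]
        have h := hy a b hab
        rw [hp] at h
        exact rpl_adj_left h j
      · by_cases hb : b = p
        · subst hb
          rw [Function.update_self, Function.update_of_ne ha]
          have h := (hy a b hab).symm
          rw [hp] at h
          exact (rpl_adj_left h j).symm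
        · rw [Function.update_of_ne ha, Function.update_of_ne hb]
          exact rpl_adj_of_ne (hne a ha) (hne b hb) (hy a b hab)
    · intro a b hab
      by_cases ha : a = p
      · by_cases hb : b = p
        · rw [ha, hb]
        · rw [ha, Function.update_self, Function.update_of_ne hb] at hab
          exact absurd hab.symm (hj b)
      · by_cases hb : b = p
        · rw [hb, Function.update_self, Function.update_of_ne ha] at hab
          exact absurd hab (hj a)
        · rw [Function.update_of_ne ha, Function.update_of_ne hb] at hab
          exact hyi hab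
  · push Not at hz
    exact hF y (fun a b hab => rpl_adj_of_ne (hz a) (hz b) (hy a b hab)) hyi

end Pool.Agent.OCX
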