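import Pool.Agent.OCX.Stmts

/-!
# EX3A: the dense classes seen by a vertex are the neighbours of one class
-/

open scoped BigOperators

namespace Pool.Agent.OCX

namespace EX3A_

theorem cyc_adj (n : ℕ) (u v : Fin (n + 3)) : (SimpleGraph.cycleGraph (n + 3)).Adj u v ↔
    ((u : ℕ) + 1 = v ∨ (v : ℕ) + 1 = u ∨ ((u : ℕ) = 0 ∧ (v : ℕ) + 1 = n + 3) ∨
      ((v : ℕ) = 0 ∧ (u : ℕ) + 1 = n + 3)) := by
  have key : ∀ a b : Fin (n + 3), ((a - b : Fin (n + 3)) : ℕ) = 1 ↔
      ((b : ℕ) + 1 = a ∨ ((a : ℕ) = 0 ∧ (b : ℕ) + 1 = n + 3)) := by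
    intro a b
    have ha := a.2
    have hb := b.2
    rw [Fin.val_sub]
    by_cases h : (b : ℕ) ≤ a
    · have e : n + 3 - (b : ℕ) + a = (n + 3) + (a - b) := by omega
      rw [e, Nat.add_mod_left, Nat.mod_eq_of_lt (by omega)]
      omega
    · rw [Nat.mod_eq_of_lt (by omega)]
      omega
  rw [SimpleGraph.cycleGraph_adj', key, key]
  omega

/-- two distinct vertices with a common neighbour: nothing else shares a neighbour with both -/
theorem two_only (t : ℕ) {c i j k c1 c2 : Fin (2 * t + 5)} (hij : i ≠ j) (hki : k ≠ i) (hkj : k ≠ j)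
    (h1 : (SimpleGraph.cycleGraph (2 * t + 5)).Adj c i)
    (h2 : (SimpleGraph.cycleGraph (2 * t + 5)).Adj c j)
    (h3 : (SimpleGraph.cycleGraph (2 * t + 5)).Adj c1 i)
    (h4 : (SimpleGraph.cycleGraph (2 * t + 5)).Adj c1 k)
    (h5 : (SimpleGraph.cycleGraph (2 * t + 5)).Adj c2 j)
    (h6 : (SimpleGraph.cycleGraph (2 * t + 5)).Adj c2 k) : False := by
  have e : 2 * t + 5 = (2 * t + 2) + 3 := rfl
  have a1 := (cyc_adj (2 * t + 2) c i).1 h1
  have a2 := (cyc_adj (2 * t + 2) c j).1 h2
  have a3 := (cyc_adj (2 * t + 2) c1 i).1 h3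
  have a4 := (cyc_adj (2 * t + 2) c1 k).1 h4
  have a5 := (cyc_adj (2 * t + 2) c2 j).1 h5
  have a6 := (cyc_adj (2 * t + 2) c2 k).1 h6
  have b1 : (i : ℕ) ≠ j := fun h => hij (Fin.ext h)
  have b2 : (k : ℕ) ≠ i := fun h => hki (Fin.ext h)
  have b3 : (k : ℕ) ≠ j := fun h => hkj (Fin.ext h)
  have c1' := i.2
  have c2' := j.2
  have c3' := k.2
  omega

end EX3A_

open EX3A_ in
theorem ex3a_proof (h1 : Stmt_CYW) (h2 : Stmt_EMB) : Stmt_EX3A := by
  intro t c θ hc hθ
  obtain ⟨ε, hε, n0, hn0⟩ := h2 t (2 * t + 1) (min c θ) (lt_min hc hθ)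
  refine ⟨ε, hε, n0, fun n hn G F hF hcl hmis z => ?_⟩
  -- two dense classes have a common neighbour
  have key : ∀ i j : Fin (2 * t + 5),
      θ * n ≤ (({x | F x = i ∧ G.Adj z x}.ncard : ℕ) : ℝ) →
      θ * n ≤ (({x | F x = j ∧ G.Adj z x}.ncard : ℕ) : ℝ) → i ≠ j →
      ∃ c, (SimpleGraph.cycleGraph (2 * t + 5)).Adj c i ∧
        (SimpleGraph.cycleGraph (2 * t + 5)).Adj c j := by
    intro i j hi hj hij
    rcases (h1 t i j).2.1 with h | h | ⟨p, hp⟩
    · exact absurd h hij
    · exact h
    · exfalso
      have hn' : (0 : ℝ) ≤ n := Nat.cast_nonneg _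
      have hS : ∀ r : Fin (2 * t + 1 + 1), min c θ * n ≤ ((({x | F x = p.getVert r ∧
          ((r : ℕ) = 0 → G.Adj z x) ∧ ((r : ℕ) = 2 * t + 1 → G.Adj z x)}.ncard : ℕ)) : ℝ) := by
        intro r
        have hm1 : min c θ * n ≤ c * n := mul_le_mul_of_nonneg_right (min_le_left _ _) hn'
        have hm2 : min c θ * n ≤ θ * n := mul_le_mul_of_nonneg_right (min_le_right _ _) hn'
        by_cases hr0 : (r : ℕ) = 0
        · have e : {x | F x = p.getVert r ∧ ((r : ℕ) = 0 → G.Adj z x) ∧
              ((r : ℕ) = 2 * t + 1 → G.Adj z x)} = {x | F x = i ∧ G.Adj z x} := by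
            ext x
            simp only [Set.mem_ofPred_eq, hr0, SimpleGraph.Walk.getVert_zero]
            constructor
            · exact fun h => ⟨h.1, h.2.1 (by trivial)⟩
            · exact fun h => ⟨h.1, fun _ => h.2, fun _ => h.2⟩
          rw [e]
          exact hm2.trans hi
        · by_cases hrl : (r : ℕ) = 2 * t + 1
          · have e : {x | F x = p.getVert r ∧ ((r : ℕ) = 0 → G.Adj z x) ∧
                ((r : ℕ) = 2 * t + 1 → G.Adj z x)} = {x | F x = j ∧ G.Adj z x} := by
              have ej : p.getVert (2 * t + 1) = j := by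
                rw [← hp]
                exact p.getVert_length
              ext x
              simp only [Set.mem_ofPred_eq, hrl, ej]
              constructor
              · exact fun h => ⟨h.1, h.2.2 (by trivial)⟩
              · exact fun h => ⟨h.1, fun _ => h.2, fun _ => h.2⟩
            rw [e]
            exact hm2.trans hj
          · have e : {x | F x = p.getVert r ∧ ((r : ℕ) = 0 → G.Adj z x) ∧
                ((r : ℕ) = 2 * t + 1 → G.Adj z x)} = {x | F x = p.getVert r} := by
              ext x
              simp only [Set.mem_ofPred_eq]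
              constructor
              · exact fun h => h.1
              · exact fun h => ⟨h, fun h' => absurd h' hr0, fun h' => absurd h' hrl⟩
            rw [e]
            exact hm1.trans (hcl _)
      have hA : ∀ r s : Fin (2 * t + 1 + 1), (r : ℕ) + 1 = s →
          (SimpleGraph.cycleGraph (2 * t + 5)).Adj (p.getVert r) (p.getVert s) := by
        intro r s hrs
        have := p.adj_getVert_succ (i := (r : ℕ)) (by
          rw [hp]
          have := s.2
          omega)
        rw [hrs] at this
        exact this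
      obtain ⟨y, hyi, hyS, hyX, hyG⟩ := hn0 n hn G F hmis
        (fun r => {x | F x = p.getVert r ∧ ((r : ℕ) = 0 → G.Adj z x) ∧
          ((r : ℕ) = 2 * t + 1 → G.Adj z x)})
        (fun r => p.getVert r) {z} (fun r x hx => hx.1) hS hA (by simp)
      -- the cycle
      refine hF (Fin.cons z y : Fin (2 * t + 2 + 1) → Fin n) ?_ ?_
      · intro a b hab
        have hab' := (cyc_adj (2 * t) a b).1 hab
        clear hab
        have hz0 : G.Adj z (y 0) := (hyS 0).2.1 rfl
        have hzl : G.Adj z (y (Fin.last (2 * t + 1))) := (hyS (Fin.last _)).2.2 rfl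
        revert hab'
        refine Fin.cases ?_ (fun a => ?_) a
        · refine Fin.cases ?_ (fun b => ?_) b
          · intro h
            simp only [Fin.val_zero] at h
            omega
          · intro h
            rw [Fin.cons_zero, Fin.cons_succ]
            simp only [Fin.val_zero, Fin.val_succ] at h
            by_cases hb : (b : ℕ) = 0
            · have : b = 0 := Fin.ext hb
              rw [this]
              exact hz0
            · have : b = Fin.last (2 * t + 1) := Fin.ext (by
                simp only [Fin.val_last]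
                omega)
              rw [this]
              exact hzl
        · refine Fin.cases ?_ (fun b => ?_) b
          · intro h
            rw [Fin.cons_zero, Fin.cons_succ]
            simp only [Fin.val_zero, Fin.val_succ] at h
            by_cases hb : (a : ℕ) = 0
            · have : a = 0 := Fin.ext hb
              rw [this]
              exact hz0.symm
            · have : a = Fin.last (2 * t + 1) := Fin.ext (by
                simp only [Fin.val_last]
                omega)
              rw [this]
              exact hzl.symm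
          · intro h
            rw [Fin.cons_succ, Fin.cons_succ]
            simp only [Fin.val_succ] at h
            have ha := a.2
            have hb := b.2
            rcases h with h | h | h | h
            · exact hyG a b (by omega)
            · exact (hyG b a (by omega)).symm
            · omega
            · omega
      · refine Fin.cons_injective_iff.2 ⟨?_, hyi⟩
        rintro ⟨r, hr⟩
        exact hyX r (by simp [hr])
  have hnb : ∀ j : Fin (2 * t + 5), ∃ i, (SimpleGraph.cycleGraph (2 * t + 5)).Adj i j := by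
    intro j
    by_cases hj : (j : ℕ) = 0
    · exact ⟨⟨1, by omega⟩, (cyc_adj (2 * t + 2) _ _).2 (by simp only; omega)⟩
    · exact ⟨⟨(j : ℕ) - 1, by have := j.2; omega⟩,
        (cyc_adj (2 * t + 2) _ _).2 (by simp only; omega)⟩
  by_cases hD : ∃ i, θ * n ≤ (({x | F x = i ∧ G.Adj z x}.ncard : ℕ) : ℝ)
  · obtain ⟨i, hi⟩ := hD
    by_cases hD2 : ∃ j, θ * n ≤ (({x | F x = j ∧ G.Adj z x}.ncard : ℕ) : ℝ) ∧ i ≠ j
    · obtain ⟨j, hj, hij⟩ := hD2
      obtain ⟨c0, ha, hb⟩ := key i j hi hj hij
      refine ⟨c0, fun k hk => ?_⟩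
      by_cases hki : k = i
      · rw [hki]
        exact ha
      · by_cases hkj : k = j
        · rw [hkj]
          exact hb
        · obtain ⟨c1, ha1, hb1⟩ := key i k hi hk (Ne.symm hki)
          obtain ⟨c2, ha2, hb2⟩ := key j k hj hk (Ne.symm hkj)
          exact (two_only t hij hki hkj ha hb ha1 hb1 ha2 hb2).elim
    · push Not at hD2
      obtain ⟨c0, h0⟩ := hnb i
      refine ⟨c0, fun k hk => ?_⟩
      rw [← hD2 k hk]
      exact h0
  · push Not at hD
    refine ⟨0, fun k hk => ?_⟩
    have := hD k
    linarith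

end Pool.Agent.OCX
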