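import Pool.Agent.OCX.BUE
import Pool.Agent.OCX.Lib

/-!
# Module EX3B: a vertex on many closed walks is joined to almost all of the two classes
-/

open scoped BigOperators

namespace Pool.Agent.OCX

namespace EX3B_

theorem prod_out {k : ℕ} (T : Finset (Fin k)) (f : Fin k → ℕ) (n : ℕ)
    (h : ∀ b, b ∉ T → f b = n) : ∏ b, f b = (∏ b ∈ T, f b) * n ^ (k - T.card) := by
  rw [← Finset.prod_mul_prod_compl T f]
  congr 1
  rw [Finset.prod_congr rfl (g := fun _ => n) (fun b hb => h b (Finset.mem_compl.1 hb)),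
    Finset.prod_const, Finset.card_compl, Fintype.card_fin]

/-- sequences with `y o = x0` and `y a ∈ S` -/
theorem cnt1 {k n : ℕ} (x0 : Fin n) (o a : Fin k) (ha : o ≠ a) (S : Finset (Fin n)) :
    (Finset.univ.filter fun y : Fin k → Fin n => y o = x0 ∧ y a ∈ S).card ≤
      S.card * n ^ (k - 2) := by
  classical
  have hsub : (Finset.univ.filter fun y : Fin k → Fin n => y o = x0 ∧ y a ∈ S) ⊆
      Fintype.piFinset (fun b => if b = o then {x0} else if b = a then S else Finset.univ) := by
    intro y hy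
    rw [Finset.mem_filter] at hy
    rw [Fintype.mem_piFinset]
    intro b
    by_cases hb : b = o
    · subst hb
      simp [hy.2.1]
    · by_cases hb2 : b = a
      · subst hb2
        simp [hb, hy.2.2]
      · simp [hb, hb2]
  refine (Finset.card_le_card hsub).trans (le_of_eq ?_)
  rw [Fintype.card_piFinset, prod_out {o, a} _ n, Finset.prod_pair ha, Finset.card_pair ha]
  · simp [ha.symm]
  · intro b hb
    simp only [Finset.mem_insert, Finset.mem_singleton, not_or] at hb
    simp [hb.1, hb.2]

/-- sequences with `y o = x0` and `(y a, y b) ∈ P` -/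
theorem cnt2 {k n : ℕ} (x0 : Fin n) (o a b : Fin k) (ha : o ≠ a) (hb : o ≠ b) (hab : a ≠ b)
    (P : Finset (Fin n × Fin n)) :
    (Finset.univ.filter fun y : Fin k → Fin n => y o = x0 ∧ (y a, y b) ∈ P).card ≤
      P.card * n ^ (k - 3) := by
  classical
  let D : Fin n × Fin n → Finset (Fin k → Fin n) := fun p =>
    Fintype.piFinset (fun d => if d = o then {x0} else if d = a then {p.1} else
      if d = b then {p.2} else Finset.univ)
  have hsub : (Finset.univ.filter fun y : Fin k → Fin n => y o = x0 ∧ (y a, y b) ∈ P) ⊆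
      P.biUnion D := by
    intro y hy
    rw [Finset.mem_filter] at hy
    rw [Finset.mem_biUnion]
    refine ⟨(y a, y b), hy.2.2, ?_⟩
    rw [Fintype.mem_piFinset]
    intro d
    by_cases hd : d = o
    · subst hd
      simp [hy.2.1]
    · by_cases hd2 : d = a
      · subst hd2
        simp [hd]
      · by_cases hd3 : d = b
        · subst hd3
          simp [hd, hd2]
        · simp [hd, hd2, hd3]
  refine (Finset.card_le_card hsub).trans (Finset.card_biUnion_le_card_mul _ _ _ fun p _ => ?_)
  refine le_of_eq ?_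
  have hmem : o ∉ ({a, b} : Finset (Fin k)) := by simp [ha, hb]
  have hcard : ({o, a, b} : Finset (Fin k)).card = 3 := by
    rw [Finset.card_insert_of_notMem hmem, Finset.card_pair hab]
  rw [Fintype.card_piFinset, prod_out {o, a, b} _ n, Finset.prod_insert hmem,
    Finset.prod_pair hab, hcard]
  · simp [ha.symm, hb.symm, hab.symm]
  · intro d hd
    simp only [Finset.mem_insert, Finset.mem_singleton, not_or] at hd
    simp [hd.1, hd.2.1, hd.2.2]

end EX3B_

open EX3B_ in
theorem ex3b_proof (h1 : Stmt_CYW) : Stmt_EX3B := by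
  classical
  intro t k c θ hkodd hk hc hθ
  obtain ⟨m, rfl⟩ : ∃ m, k = m + 2 := ⟨k - 2, by omega⟩
  have hm : 3 ≤ m := by omega
  set M : ℝ := 3 + 2 * (2 * t + 5) + (m + 2) with hM
  have hMpos : 0 < M := by positivity
  refine ⟨θ * c ^ (m + 1) / M, by positivity, 0, fun n _ G τ F hNB z i hz hcw j hij => ?_⟩
  set ε : ℝ := θ * c ^ (m + 1) / M with hε
  have hεpos : 0 < ε := by positivity
  have hεM : ε * M = θ * c ^ (m + 1) := div_mul_cancel₀ _ hMpos.ne'
  by_contra hcon
  rw [not_le] at hcon
  have hn : 0 < n := z.pos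
  have hn' : (0 : ℝ) < n := by exact_mod_cast hn
  let cl : Fin (2 * t + 5) → Finset (Fin n) := fun i => Finset.univ.filter fun x => F x = i
  have hcl' : ∀ i, (({x | F x = i} : Set (Fin n)).ncard) = (cl i).card := by
    intro i
    rw [← Set.ncard_coe_finset]
    congr 1
    ext x
    simp [cl]
  have hcl : ∀ i, c * n ≤ ((cl i).card : ℝ) := by
    intro i
    rw [← hcl']
    exact hNB.cl i
  let nb : Fin (2 * t + 5) → Finset (Fin n) := fun i =>
    Finset.univ.filter fun x => F x = i ∧ G.Adj z x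
  have hnb : ∀ i, (({x | F x = i ∧ G.Adj z x} : Set (Fin n)).ncard) = (nb i).card := by
    intro i
    rw [← Set.ncard_coe_finset]
    congr 1
    ext x
    simp [nb]
  obtain ⟨x0, hx0⟩ : ∃ x0, F x0 = i := by
    have h2 : (0 : ℝ) < (cl i).card := lt_of_lt_of_le (by positivity) (hcl i)
    have h3 : 0 < (cl i).card := by exact_mod_cast h2
    obtain ⟨x, hx⟩ := Finset.card_pos.1 h3
    exact ⟨x, (Finset.mem_filter.1 hx).2⟩
  obtain ⟨φ, hφ0, hφ1, hφ⟩ := BUE_.pattern h1 t m hkodd hk hij
  let X : Finset (Fin n) := Finset.univ.filter fun x => F x = j ∧ ¬ G.Adj z x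
  have hX : θ * (c * n) ≤ (X.card : ℝ) := by
    have e : (nb j).card + X.card = (cl j).card := by
      have h2 := Finset.card_filter_add_card_filter_not (s := cl j) (p := fun x => G.Adj z x)
      have h3 : (cl j).filter (fun x => G.Adj z x) = nb j := by
        simp only [cl, nb, Finset.filter_filter]
      have h4 : (cl j).filter (fun x => ¬ G.Adj z x) = X := by
        simp only [cl, X, Finset.filter_filter]
      rw [h3, h4] at h2
      exact h2
    have e' : ((nb j).card : ℝ) + X.card = (cl j).card := by exact_mod_cast e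
    rw [hcl', hnb] at hcon
    have h5 := mul_le_mul_of_nonneg_left (hcl j) hθ.le
    linarith
  have hne01 : (1 : Fin (m + 2)) ≠ 0 := by
    intro h
    have := congrArg Fin.val h
    simp at this
  let D : Finset (Fin (m + 2) → Fin n) := Fintype.piFinset fun a : Fin (m + 2) =>
    if a = 0 then {x0} else if a = 1 then X else cl (φ a)
  -- lower bound for `D`
  have hD : θ * c ^ (m + 1) * (n : ℝ) ^ (m + 1) ≤ (D.card : ℝ) := by
    have e1 : (D.card : ℝ) = ∏ a : Fin (m + 2),
        (((if a = 0 then {x0} else if a = 1 then X else cl (φ a) : Finset (Fin n)).card : ℕ) : ℝ) := by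
      rw [Fintype.card_piFinset]
      push_cast
      rfl
    rw [e1, ← Finset.prod_mul_prod_compl ({0, 1} : Finset (Fin (m + 2))),
      Finset.prod_pair hne01.symm]
    have e2 : (c * (n : ℝ)) ^ m ≤ ∏ a ∈ ({0, 1} : Finset (Fin (m + 2)))ᶜ,
        (((if a = 0 then {x0} else if a = 1 then X else cl (φ a) : Finset (Fin n)).card : ℕ) : ℝ) := by
      have e3 : (c * (n : ℝ)) ^ m = ∏ a ∈ ({0, 1} : Finset (Fin (m + 2)))ᶜ, (c * (n : ℝ)) := by
        rw [Finset.prod_const, Finset.card_compl, Fintype.card_fin, Finset.card_pair hne01.symm]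
        rfl
      rw [e3]
      refine Finset.prod_le_prod (fun _ _ => by positivity) fun a ha => ?_
      rw [Finset.mem_compl, Finset.mem_insert, Finset.mem_singleton, not_or] at ha
      rw [if_neg ha.1, if_neg ha.2]
      exact hcl _
    rw [if_pos rfl, if_neg hne01, if_pos rfl, Finset.card_singleton, Nat.cast_one, one_mul]
    calc θ * c ^ (m + 1) * (n : ℝ) ^ (m + 1) = (θ * (c * n)) * (c * (n : ℝ)) ^ m := by
          rw [mul_pow, pow_succ, pow_succ]
          ring
      _ ≤ _ := mul_le_mul hX e2 (by positivity) (Nat.cast_nonneg _)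
  -- the walks
  let E1 : Finset (Fin (m + 2) → Fin n) := Finset.univ.filter fun y =>
    y ∈ cws G (m + 2) ∧ y 0 = z
  let E2 : Finset (Fin (m + 2) → Fin n) := Finset.univ.filter fun y =>
    y ∈ cws (BU t F) (m + 2) ∧ y 0 = x0
  have hcwx : ∀ (H : SimpleGraph (Fin n)) (x : Fin n), cwx H (m + 2) x =
      (Finset.univ.filter fun y : Fin (m + 2) → Fin n => y ∈ cws H (m + 2) ∧ y 0 = x).card := by
    intro H x
    unfold cwx
    rw [← Set.ncard_coe_finset]
    congr 1
    ext y
    simp only [Set.mem_ofPred_eq, Finset.coe_filter, Finset.mem_univ, true_and]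
    refine and_congr_right fun _ => ⟨fun h => h 0 rfl, fun h a ha => ?_⟩
    have : a = 0 := Fin.ext ha
    rw [this]
    exact h
  -- the exceptional walks
  let S : Finset (Fin n) := Finset.univ.filter fun x =>
    G.Adj z x ∧ ¬ (SimpleGraph.cycleGraph (2 * t + 5)).Adj i (F x)
  have hS : (S.card : ℝ) ≤ (2 * t + 5) * (ε * n) := by
    have h2 : S ⊆ (Finset.univ.filter fun j' =>
        ¬ (SimpleGraph.cycleGraph (2 * t + 5)).Adj i j').biUnion nb := by
      intro x hx
      rw [Finset.mem_filter] at hx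
      rw [Finset.mem_biUnion]
      refine ⟨F x, ?_, ?_⟩
      · rw [Finset.mem_filter]
        exact ⟨Finset.mem_univ _, hx.2.2⟩
      · rw [Finset.mem_filter]
        exact ⟨Finset.mem_univ _, rfl, hx.2.1⟩
    have h3 : (S.card : ℝ) ≤ ∑ j' ∈ Finset.univ.filter (fun j' =>
        ¬ (SimpleGraph.cycleGraph (2 * t + 5)).Adj i j'), ((nb j').card : ℝ) := by
      exact_mod_cast (Finset.card_le_card h2).trans Finset.card_biUnion_le
    refine h3.trans ?_
    have h4 : ∑ j' ∈ Finset.univ.filter (fun j' =>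
        ¬ (SimpleGraph.cycleGraph (2 * t + 5)).Adj i j'), ((nb j').card : ℝ) ≤
        ∑ j' ∈ Finset.univ.filter (fun j' =>
        ¬ (SimpleGraph.cycleGraph (2 * t + 5)).Adj i j'), (ε * n) := by
      refine Finset.sum_le_sum fun j' hj' => ?_
      rw [Finset.mem_filter] at hj'
      by_contra hlt
      rw [not_le] at hlt
      refine hj'.2 (hz j' ?_)
      rw [hnb]
      exact hlt.le
    refine h4.trans ?_
    rw [Finset.sum_const, nsmul_eq_mul]
    refine mul_le_mul_of_nonneg_right ?_ (by positivity)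
    have h5 : (Finset.univ.filter (fun j' =>
        ¬ (SimpleGraph.cycleGraph (2 * t + 5)).Adj i j')).card ≤ 2 * t + 5 := by
      refine (Finset.card_le_univ _).trans ?_
      rw [Fintype.card_fin]
    exact_mod_cast h5
  let P : Finset (Fin n × Fin n) := Finset.univ.filter fun p =>
    G.Adj p.1 p.2 ∧ ¬ (BU t F).Adj p.1 p.2
  have hP : (P.card : ℝ) ≤ ε * n ^ 2 := by
    have h2 : (({p : Fin n × Fin n | G.Adj p.1 p.2 ∧ ¬ (BU t F).Adj p.1 p.2}).ncard) = P.card := by
      rw [← Set.ncard_coe_finset]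
      congr 1
      ext p
      simp [P]
    rw [← h2]
    exact hNB.bad
  let B1 : Fin (m + 2) → Finset (Fin (m + 2) → Fin n) := fun a =>
    Finset.univ.filter fun y => y 0 = x0 ∧ y a ∈ S
  let B3 : Fin (m + 2) → Finset (Fin (m + 2) → Fin n) := fun a =>
    Finset.univ.filter fun y => y 0 = x0 ∧ a ≠ 0 ∧ ∃ b : Fin (m + 2), (a : ℕ) + 1 = b ∧
      (y a, y b) ∈ P
  have hB1 : ∀ a, a ≠ 0 → ((B1 a).card : ℝ) ≤ (2 * t + 5) * ε * (n : ℝ) ^ (m + 1) := by
    intro a ha
    have h2 : (B1 a).card ≤ S.card * n ^ m := cnt1 x0 0 a ha.symm S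
    have h3 : ((B1 a).card : ℝ) ≤ S.card * (n : ℝ) ^ m := by exact_mod_cast h2
    refine h3.trans ((mul_le_mul_of_nonneg_right hS (by positivity)).trans (le_of_eq ?_))
    rw [pow_succ]
    ring
  have hB3 : ∀ a, ((B3 a).card : ℝ) ≤ ε * (n : ℝ) ^ (m + 1) := by
    intro a
    by_cases ha : a ≠ 0 ∧ (a : ℕ) + 1 < m + 2
    · have h2 : (B3 a).card ≤ P.card * n ^ (m - 1) := by
        refine le_trans (Finset.card_le_card ?_) (cnt2 x0 0 a ⟨(a : ℕ) + 1, ha.2⟩ ha.1.symm ?_ ?_ P)
        · intro y hy
          rw [Finset.mem_filter] at hy ⊢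
          obtain ⟨-, h3, -, b, hb, h4⟩ := hy
          refine ⟨Finset.mem_univ _, h3, ?_⟩
          have : b = ⟨(a : ℕ) + 1, ha.2⟩ := Fin.ext hb.symm
          rw [← this]
          exact h4
        · intro h
          have := congrArg Fin.val h
          simp at this
        · intro h
          have := congrArg Fin.val h
          simp at this
      have h3 : ((B3 a).card : ℝ) ≤ P.card * (n : ℝ) ^ (m - 1) := by exact_mod_cast h2
      refine h3.trans ((mul_le_mul_of_nonneg_right hP (by positivity)).trans (le_of_eq ?_))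
      rw [mul_assoc, ← pow_add]
      congr 2
      omega
    · have h2 : B3 a = ∅ := by
        refine Finset.eq_empty_of_forall_notMem fun y hy => ?_
        rw [Finset.mem_filter] at hy
        obtain ⟨-, -, h3, b, hb, -⟩ := hy
        refine ha ⟨h3, ?_⟩
        rw [hb]
        exact b.2
      rw [h2, Finset.card_empty, Nat.cast_zero]
      positivity
  -- the replacement of the first vertex
  let Φ : (Fin (m + 2) → Fin n) → (Fin (m + 2) → Fin n) := fun y => Function.update y 0 x0
  have hΦ0 : ∀ y, Φ y 0 = x0 := fun y => Function.update_self _ _ _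
  have hΦ1 : ∀ y a, a ≠ 0 → Φ y a = y a := fun y a ha => Function.update_of_ne ha _ _
  have hinj : Set.InjOn Φ (E1 : Set (Fin (m + 2) → Fin n)) := by
    intro y hy y' hy' heq
    have h2 := (Finset.mem_filter.1 (Finset.mem_coe.1 hy)).2.2
    have h3 := (Finset.mem_filter.1 (Finset.mem_coe.1 hy')).2.2
    funext a
    by_cases ha : a = 0
    · rw [ha, h2, h3]
    · rw [← hΦ1 y a ha, ← hΦ1 y' a ha, heq]
  have hlastne : Fin.last (m + 1) ≠ (0 : Fin (m + 2)) := by
    intro h
    have := congrArg Fin.val h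
    simp at this
  have hsub : E1.image Φ ⊆ (E2 \ D) ∪ (B1 1 ∪ B1 (Fin.last (m + 1)) ∪
      Finset.univ.biUnion B3) := by
    intro y' hy'
    rw [Finset.mem_image] at hy'
    obtain ⟨y, hy, rfl⟩ := hy'
    obtain ⟨-, hyw, hy0⟩ := Finset.mem_filter.1 hy
    rw [Finset.mem_union]
    by_cases hbad : Φ y ∈ (B1 1 ∪ B1 (Fin.last (m + 1)) ∪ Finset.univ.biUnion B3)
    · exact Or.inr hbad
    left
    rw [Finset.mem_union, Finset.mem_union, not_or, not_or] at hbad
    obtain ⟨⟨hb1, hb2⟩, hb3⟩ := hbad
    -- the first and the last vertex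
    have first : ∀ a, a ≠ 0 → Φ y ∉ B1 a → G.Adj z (y a) → (BU t F).Adj (Φ y 0) (Φ y a) := by
      intro a ha hna hadj
      rw [hΦ0, hΦ1 y a ha]
      show (SimpleGraph.cycleGraph (2 * t + 5)).Adj (F x0) (F (y a))
      rw [hx0]
      by_contra hcon2
      refine hna (Finset.mem_filter.2 ⟨Finset.mem_univ _, hΦ0 y, ?_⟩)
      rw [hΦ1 y a ha]
      exact Finset.mem_filter.2 ⟨Finset.mem_univ _, hadj, hcon2⟩
    have step : ∀ a b : Fin (m + 2), (SimpleGraph.cycleGraph (m + 2)).Adj a b →
        (a : ℕ) + 1 = b → (BU t F).Adj (Φ y a) (Φ y b) := by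
      intro a b hab h2
      have hb0 : b ≠ 0 := by
        intro h
        rw [h] at h2
        simp at h2
      by_cases ha : a = 0
      · have hb' : b = 1 := by
          apply Fin.ext
          rw [← h2, ha]
          simp
        subst ha
        rw [hb'] at hab ⊢
        refine first 1 hne01 hb1 ?_
        have := hyw _ _ hab
        rw [hy0] at this
        exact this
      · by_contra hcon2
        refine hb3 (Finset.mem_biUnion.2 ⟨a, Finset.mem_univ _, Finset.mem_filter.2
          ⟨Finset.mem_univ _, hΦ0 y, ha, b, h2, Finset.mem_filter.2 ⟨Finset.mem_univ _, ?_, ?_⟩⟩⟩)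
        · show G.Adj (Φ y a) (Φ y b)
          rw [hΦ1 y a ha, hΦ1 y b hb0]
          exact hyw _ _ hab
        · exact hcon2
    have wrap : ∀ a b : Fin (m + 2), (SimpleGraph.cycleGraph (m + 2)).Adj a b →
        (a : ℕ) = 0 → (b : ℕ) + 1 = m + 2 → (BU t F).Adj (Φ y a) (Φ y b) := by
      intro a b hab h2 h3
      have ha : a = 0 := Fin.ext h2
      have hb : b = Fin.last (m + 1) := by
        apply Fin.ext
        rw [Fin.val_last]
        omega
      rw [ha, hb] at hab ⊢
      refine first _ hlastne hb2 ?_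
      have := hyw _ _ hab
      rw [hy0] at this
      exact this
    rw [Finset.mem_sdiff]
    constructor
    · refine Finset.mem_filter.2 ⟨Finset.mem_univ _, ?_, hΦ0 y⟩
      intro a b hab
      rcases BUE_.cyc_adj hab with h5 | h5 | ⟨h5, h6⟩ | ⟨h5, h6⟩
      · exact step a b hab h5
      · exact (step b a hab.symm h5).symm
      · exact wrap a b hab h5 h6
      · exact (wrap b a hab.symm h5 h6).symm
    · intro hD1
      have h2 := Fintype.mem_piFinset.1 hD1 1
      rw [if_neg hne01, if_pos rfl, hΦ1 y 1 hne01] at h2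
      have h3 := (Finset.mem_filter.1 h2).2.2
      apply h3
      have hadj01 : (SimpleGraph.cycleGraph (m + 2)).Adj 0 1 := by
        rw [SimpleGraph.cycleGraph_adj']
        right
        simp
      have := hyw _ _ hadj01
      rw [hy0] at this
      exact this
  have hDE2 : D ⊆ E2 := by
    intro y hy
    have hy' := Fintype.mem_piFinset.1 hy
    have h2 : y 0 = x0 := by
      have := hy' 0
      simpa using this
    have h3 : ∀ a, F (y a) = φ a := by
      intro a
      have := hy' a
      by_cases ha : a = 0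
      · rw [ha, h2, hφ0]
        exact hx0
      · by_cases ha1 : a = 1
        · rw [if_neg ha, if_pos ha1] at this
          rw [(Finset.mem_filter.1 this).2.1, ha1, hφ1]
        · rw [if_neg ha, if_neg ha1] at this
          exact (Finset.mem_filter.1 this).2
    refine Finset.mem_filter.2 ⟨Finset.mem_univ _, fun a b hab => ?_, h2⟩
    show (SimpleGraph.cycleGraph (2 * t + 5)).Adj (F (y a)) (F (y b))
    rw [h3, h3]
    exact hφ a b hab
  have hcard : (E1.card : ℝ) + D.card ≤ E2.card + (2 * ((2 * t + 5) * ε * (n : ℝ) ^ (m + 1)) +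
      (m + 2) * (ε * (n : ℝ) ^ (m + 1))) := by
    have h2 : E1.card ≤ (E2 \ D).card + ((B1 1).card + (B1 (Fin.last (m + 1))).card +
        ∑ a, (B3 a).card) := by
      rw [← Finset.card_image_of_injOn hinj]
      refine (Finset.card_le_card hsub).trans ((Finset.card_union_le _ _).trans ?_)
      refine Nat.add_le_add_left ?_ _
      refine (Finset.card_union_le _ _).trans ?_
      exact Nat.add_le_add (Finset.card_union_le _ _) Finset.card_biUnion_le
    have h3 : (E2 \ D).card + D.card = E2.card := Finset.card_sdiff_add_card_eq_card hDE2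
    have h4 : (E1.card : ℝ) ≤ (E2 \ D).card + ((B1 1).card + (B1 (Fin.last (m + 1))).card +
        ∑ a, ((B3 a).card : ℝ)) := by exact_mod_cast h2
    have h5 : ((E2 \ D).card : ℝ) + D.card = E2.card := by exact_mod_cast h3
    have h6 : ∑ a, ((B3 a).card : ℝ) ≤ (m + 2) * (ε * (n : ℝ) ^ (m + 1)) := by
      refine (Finset.sum_le_sum fun a _ => hB3 a).trans (le_of_eq ?_)
      rw [Finset.sum_const, Finset.card_univ, Fintype.card_fin, nsmul_eq_mul]
      push_cast
      ring
    have h7 := hB1 1 hne01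
    have h8 := hB1 (Fin.last (m + 1)) hlastne
    linarith
  have hNpos : (0 : ℝ) < (n : ℝ) ^ (m + 1) := by positivity
  have hτ1 : (τ - ε) * (n : ℝ) ^ (m + 1) ≤ E1.card := by
    have h2 := hcw
    rw [hcwx G z] at h2
    have h3 : (m + 2 - 1 : ℕ) = m + 1 := rfl
    rw [h3, le_div_iff₀ hNpos] at h2
    exact h2
  have hτ2 : (E2.card : ℝ) ≤ (τ + ε) * (n : ℝ) ^ (m + 1) := by
    have h2 := (abs_le.1 (hNB.bal x0)).2
    rw [hcwx (BU t F) x0] at h2
    have h3 : (m + 2 - 1 : ℕ) = m + 1 := rfl
    rw [h3, sub_le_iff_le_add, div_le_iff₀ hNpos] at h2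
    linarith
  have hfin : θ * c ^ (m + 1) * (n : ℝ) ^ (m + 1) ≤
      (ε * (2 + 2 * (2 * t + 5) + (m + 2))) * (n : ℝ) ^ (m + 1) := by
    nlinarith [hcard, hτ1, hτ2, hD]
  have hfin2 := le_of_mul_le_mul_right hfin hNpos
  rw [← hεM, hM] at hfin2
  linarith

end Pool.Agent.OCX
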