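import Pool.Agent.OCX.Stmts
import Pool.Agent.OCX.Lib

open scoped BigOperators

namespace Pool.Agent.OCX

namespace EX4_

theorem cyc_adj {m : ℕ} {i j : Fin m} (h : (SimpleGraph.cycleGraph m).Adj i j) :
    (i : ℕ) + 1 = j ∨ (j : ℕ) + 1 = i ∨ ((i : ℕ) = 0 ∧ (j : ℕ) + 1 = m) ∨
      ((j : ℕ) = 0 ∧ (i : ℕ) + 1 = m) := by
  rw [SimpleGraph.cycleGraph_adj'] at h
  have hi := i.isLt
  have hj := j.isLt
  rcases h with h | h
  · rcases le_or_gt j i with h1 | h1
    · rw [Fin.sub_val_of_le h1] at h; omega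
    · rw [Fin.coe_sub_iff_lt.2 h1] at h
      have : (i : ℕ) < j := h1
      omega
  · rcases le_or_gt i j with h1 | h1
    · rw [Fin.sub_val_of_le h1] at h; omega
    · rw [Fin.coe_sub_iff_lt.2 h1] at h
      have : (j : ℕ) < i := h1
      omega

theorem nb_ne {t : ℕ} {i i' : Fin (2 * t + 5)} (h : i' ≠ i) :
    ∃ j, (SimpleGraph.cycleGraph (2 * t + 5)).Adj i' j ∧
      ¬ (SimpleGraph.cycleGraph (2 * t + 5)).Adj i j := by
  by_contra hc
  push Not at hc
  have h1 := hc (i' + 1) (by rw [SimpleGraph.cycleGraph_adj]; right; abel)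
  have h2 := hc (i' - 1) (by rw [SimpleGraph.cycleGraph_adj]; left; abel)
  rw [SimpleGraph.cycleGraph_adj] at h1 h2
  have e1 : i - i' = 1 + 1 := by
    rcases h1 with h1 | h1
    · have : i - i' = (i - (i' + 1)) + 1 := by abel
      rw [this, h1]
    · exact absurd (by
        have : i' - i = (i' + 1 - i) - 1 := by abel
        rw [h1] at this
        have h3 : i' - i = 0 := by rw [this]; abel
        exact sub_eq_zero.1 h3) h
  have e2 : i - i' = -(1 + 1) := by
    rcases h2 with h2 | h2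
    · exact absurd (by
        have : i' - i = 1 - (i - (i' - 1)) := by abel
        rw [h2] at this
        have h3 : i' - i = 0 := by rw [this]; abel
        exact sub_eq_zero.1 h3) h
    · have : i - i' = -((i' - 1 - i) + 1) := by abel
      rw [this, h2]
  rw [e1] at e2
  have h4 : (1 + 1 : Fin (2 * t + 5)) + (1 + 1) = 0 := by
    nth_rewrite 1 [e2]
    abel
  have h5 := congrArg Fin.val h4
  have h7 : ((1 : Fin (2 * t + 5)) : ℕ) = 1 := Fin.val_one _
  have h6 : ((1 + 1 : Fin (2 * t + 5)) : ℕ) = 2 := by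
    rw [Fin.val_add, h7, Nat.mod_eq_of_lt (by omega)]
  rw [Fin.val_add, h6, Nat.mod_eq_of_lt (by omega)] at h5
  simp at h5

/-- a path of `2 t + 1` vertices, closed through the edge `x y`, is a cycle of length `2 t + 3` -/
theorem close {t n : ℕ} {G : SimpleGraph (Fin n)} (hF : Fr (2 * t + 3) G) {x y : Fin n}
    (hxy : G.Adj x y) (w : Fin (2 * t + 1) → Fin n) (hw : Function.Injective w)
    (hx : ∀ i, w i ≠ x) (hy : ∀ i, w i ≠ y) (h0 : G.Adj x (w 0))
    (hl : G.Adj y (w (Fin.last (2 * t))))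
    (hs : ∀ i j : Fin (2 * t + 1), (i : ℕ) + 1 = j → G.Adj (w i) (w j)) : False := by
  classical
  set z : Fin (2 * t + 3) → Fin n := fun i =>
    if (i : ℕ) = 0 then x else if h : (i : ℕ) - 1 < 2 * t + 1 then w ⟨(i : ℕ) - 1, h⟩ else y
    with hz
  have z0 : ∀ i : Fin (2 * t + 3), (i : ℕ) = 0 → z i = x := by
    intro i hi
    rw [hz]; simp only [hi, if_true]
  have z1 : ∀ (i : Fin (2 * t + 3)) (j : Fin (2 * t + 1)), (i : ℕ) = j + 1 → z i = w j := by
    intro i j hi
    rw [hz]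
    have a1 : ¬ ((i : ℕ) = 0) := by omega
    have a2 : (i : ℕ) - 1 < 2 * t + 1 := by have := j.isLt; omega
    simp only [a1, if_false, a2, dif_pos]
    congr 1
    exact Fin.ext (by simp only; omega)
  have z2 : ∀ i : Fin (2 * t + 3), (i : ℕ) = 2 * t + 2 → z i = y := by
    intro i hi
    rw [hz]
    have a1 : ¬ ((i : ℕ) = 0) := by omega
    have a2 : ¬ ((i : ℕ) - 1 < 2 * t + 1) := by omega
    simp only [a1, if_false, a2, dif_neg, not_false_eq_true]
  have tri : ∀ i : Fin (2 * t + 3), (i : ℕ) = 0 ∨ (∃ j : Fin (2 * t + 1), (i : ℕ) = j + 1) ∨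
      (i : ℕ) = 2 * t + 2 := by
    intro i
    have := i.isLt
    by_cases h1 : (i : ℕ) = 0
    · exact Or.inl h1
    · by_cases h2 : (i : ℕ) = 2 * t + 2
      · exact Or.inr (Or.inr h2)
      · exact Or.inr (Or.inl ⟨⟨(i : ℕ) - 1, by omega⟩, by simp only; omega⟩)
  have up : ∀ i j : Fin (2 * t + 3), (i : ℕ) + 1 = j → G.Adj (z i) (z j) := by
    intro i j hij
    rcases tri i with hi | ⟨i', hi⟩ | hi
    · rw [z0 i hi, z1 j 0 (by simp; omega)]; exact h0
    · rcases tri j with hj | ⟨j', hj⟩ | hj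
      · omega
      · rw [z1 i i' hi, z1 j j' hj]; exact hs i' j' (by omega)
      · rw [z1 i (Fin.last (2 * t)) (by simp; omega), z2 j hj]; exact hl.symm
    · have := j.isLt; omega
  refine hF z ?_ ?_
  · intro i j hij
    rcases cyc_adj hij with h | h | ⟨h1, h2⟩ | ⟨h1, h2⟩
    · exact up i j h
    · exact (up j i h).symm
    · rw [z0 i h1, z2 j (by omega)]; exact hxy
    · rw [z0 j h1, z2 i (by omega)]; exact hxy.symm
  · intro i j hij
    have hxy' := hxy.ne
    rcases tri i with hi | ⟨i', hi⟩ | hi <;> rcases tri j with hj | ⟨j', hj⟩ | hj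
    · exact Fin.ext (by omega)
    · rw [z0 i hi, z1 j j' hj] at hij
      exact absurd hij.symm (hx j')
    · rw [z0 i hi, z2 j hj] at hij
      exact absurd hij hxy'
    · rw [z0 j hj, z1 i i' hi] at hij
      exact absurd hij (hx i')
    · rw [z1 i i' hi, z1 j j' hj] at hij
      have := hw hij
      subst this
      exact Fin.ext (by omega)
    · rw [z2 j hj, z1 i i' hi] at hij
      exact absurd hij (hy i')
    · rw [z0 j hj, z2 i hi] at hij
      exact absurd hij.symm hxy'
    · rw [z2 i hi, z1 j j' hj] at hij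
      exact absurd hij.symm (hy j')
    · exact Fin.ext (by omega)

/-- few missing neighbours -/
theorem miss {t n : ℕ} {θ : ℝ} {G : SimpleGraph (Fin n)} {F F' : Fin n → Fin (2 * t + 5)}
    (h : Rob t θ G F F') (z : Fin n) (j : Fin (2 * t + 5))
    (hj : (SimpleGraph.cycleGraph (2 * t + 5)).Adj (F' z) j) :
    (({x | F x = j ∧ ¬ G.Adj z x}.ncard : ℕ) : ℝ) ≤ θ * (({x | F x = j}.ncard : ℕ) : ℝ) := by
  have h1 := h z j hj
  have h2 : ({x | F x = j}.ncard : ℕ) =
      {x | F x = j ∧ G.Adj z x}.ncard + {x | F x = j ∧ ¬ G.Adj z x}.ncard := by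
    rw [← Set.ncard_union_eq]
    · congr 1
      ext x
      simp only [Set.mem_ofPred_eq, Set.mem_union]
      tauto
    · rw [Set.disjoint_left]
      rintro x ⟨_, hx⟩ ⟨_, hx'⟩
      exact hx' hx
  have h3 : (({x | F x = j}.ncard : ℕ) : ℝ) =
      (({x | F x = j ∧ G.Adj z x}.ncard : ℕ) : ℝ) +
        (({x | F x = j ∧ ¬ G.Adj z x}.ncard : ℕ) : ℝ) := by
    exact_mod_cast h2
  linarith

end EX4_

open EX4_ in
theorem ex4_proof (h1 : Stmt_CYW) (h2 : Stmt_EMB) : Stmt_EX4 := by
  classical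
  intro t k c hc
  obtain ⟨ε1, hε1, n1, hE⟩ := h2 t (2 * t) (c / 2) (by positivity)
  refine ⟨1 / 4, by norm_num, min ε1 (c ^ 2 / 8), lt_min hε1 (by positivity),
    max n1 (⌈2 * k / c⌉₊ + 1), ?_⟩
  intro n hn G hF τ F F' hNB hR
  have hn1 : n1 ≤ n := le_trans (le_max_left _ _) hn
  have hn2 : ⌈2 * k / c⌉₊ + 1 ≤ n := le_trans (le_max_right _ _) hn
  have hnk : 2 * (k : ℝ) / c ≤ n := by
    have a1 := Nat.le_ceil (2 * (k : ℝ) / c)
    have a2 : ((⌈2 * (k : ℝ) / c⌉₊ : ℕ) : ℝ) ≤ n := by exact_mod_cast (by omega : ⌈2 * (k : ℝ) / c⌉₊ ≤ n)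
    linarith
  have hn0 : (0 : ℝ) < n := by exact_mod_cast (by omega : 0 < n)
  have hkn : (k : ℝ) ≤ c * n / 2 := by
    rw [div_le_iff₀ hc] at hnk
    linarith
  have hmis : (({p : Fin n × Fin n | (BU t F).Adj p.1 p.2 ∧ ¬ G.Adj p.1 p.2}.ncard : ℕ) : ℝ) ≤
      ε1 * n ^ 2 := by
    refine le_trans hNB.mis ?_
    exact mul_le_mul_of_nonneg_right (min_le_left _ _) (by positivity)
  have hbad : (({p : Fin n × Fin n | G.Adj p.1 p.2 ∧ ¬ (BU t F).Adj p.1 p.2}.ncard : ℕ) : ℝ) ≤
      c ^ 2 / 8 * n ^ 2 := by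
    refine le_trans hNB.bad ?_
    exact mul_le_mul_of_nonneg_right (min_le_right _ _) (by positivity)
  constructor
  · intro x y hxy
    change (SimpleGraph.cycleGraph (2 * t + 5)).Adj (F' x) (F' y)
    rcases (h1 t (F' x) (F' y)).1 with h | ⟨p, hp⟩
    · exact h
    exfalso
    set a : Fin (2 * t + 1) → Fin (2 * t + 5) := fun i => p.getVert ((i : ℕ) + 1) with ha
    have hstep : ∀ i : ℕ, i < 2 * t + 2 → (SimpleGraph.cycleGraph (2 * t + 5)).Adj
        (p.getVert i) (p.getVert (i + 1)) := fun i hi => p.adj_getVert_succ (by omega)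
    have hsz : ∀ i : Fin (2 * t + 1), c / 2 * n ≤ (({w | F w = a i ∧
        ((i : ℕ) = 0 → G.Adj x w) ∧ ((i : ℕ) = 2 * t → G.Adj y w)}.ncard : ℕ) : ℝ) := by
      intro i
      -- size
      have hcl := hNB.cl (a i)
      have hm1 : (({w | F w = a i ∧ ¬ ((i : ℕ) = 0 → G.Adj x w)}.ncard : ℕ) : ℝ) ≤
          1 / 4 * (({w | F w = a i}.ncard : ℕ) : ℝ) := by
        by_cases h0 : (i : ℕ) = 0
        · have h3 := miss hR x (a i) (by
            have := hstep 0 (by omega)
            rw [SimpleGraph.Walk.getVert_zero] at this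
            rw [ha]; simp only [h0]; exact this)
          refine le_trans (le_of_eq ?_) h3
          congr 2
          ext w
          simp [h0]
        · have : {w | F w = a i ∧ ¬ ((i : ℕ) = 0 → G.Adj x w)} = ∅ := by
            ext w
            simp [h0]
          rw [this, Set.ncard_empty]
          push_cast
          positivity
      have hm2 : (({w | F w = a i ∧ ¬ ((i : ℕ) = 2 * t → G.Adj y w)}.ncard : ℕ) : ℝ) ≤
          1 / 4 * (({w | F w = a i}.ncard : ℕ) : ℝ) := by
        by_cases h0 : (i : ℕ) = 2 * t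
        · have h3 := miss hR y (a i) (by
            have := hstep (2 * t + 1) (by omega)
            rw [show 2 * t + 1 + 1 = p.length from by omega, SimpleGraph.Walk.getVert_length]
              at this
            rw [ha]; simp only [h0]; exact this.symm)
          refine le_trans (le_of_eq ?_) h3
          congr 2
          ext w
          simp [h0]
        · have : {w | F w = a i ∧ ¬ ((i : ℕ) = 2 * t → G.Adj y w)} = ∅ := by
            ext w
            simp [h0]
          rw [this, Set.ncard_empty]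
          push_cast
          positivity
      have hsub : {w | F w = a i} ⊆
          ({w | F w = a i ∧ ((i : ℕ) = 0 → G.Adj x w) ∧ ((i : ℕ) = 2 * t → G.Adj y w)} ∪
            {w | F w = a i ∧ ¬ ((i : ℕ) = 0 → G.Adj x w)}) ∪
            {w | F w = a i ∧ ¬ ((i : ℕ) = 2 * t → G.Adj y w)} := by
        intro w hw
        simp only [Set.mem_ofPred_eq, Set.mem_union] at hw ⊢
        tauto
      have hcard : ({w | F w = a i}.ncard : ℕ) ≤
          {w | F w = a i ∧ ((i : ℕ) = 0 → G.Adj x w) ∧ ((i : ℕ) = 2 * t → G.Adj y w)}.ncard +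
            {w | F w = a i ∧ ¬ ((i : ℕ) = 0 → G.Adj x w)}.ncard +
            {w | F w = a i ∧ ¬ ((i : ℕ) = 2 * t → G.Adj y w)}.ncard := by
        refine le_trans (Set.ncard_le_ncard hsub (Set.toFinite _)) ?_
        refine le_trans (Set.ncard_union_le _ _) ?_
        exact Nat.add_le_add_right (Set.ncard_union_le _ _) _
      have hcard' : (({w | F w = a i}.ncard : ℕ) : ℝ) ≤
          (({w | F w = a i ∧ ((i : ℕ) = 0 → G.Adj x w) ∧
            ((i : ℕ) = 2 * t → G.Adj y w)}.ncard : ℕ) : ℝ) +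
            (({w | F w = a i ∧ ¬ ((i : ℕ) = 0 → G.Adj x w)}.ncard : ℕ) : ℝ) +
            (({w | F w = a i ∧ ¬ ((i : ℕ) = 2 * t → G.Adj y w)}.ncard : ℕ) : ℝ) := by
        exact_mod_cast hcard
      linarith
    have hst : ∀ i j : Fin (2 * t + 1), (i : ℕ) + 1 = j →
        (SimpleGraph.cycleGraph (2 * t + 5)).Adj (a i) (a j) := by
      intro i j hij
      have := hstep ((i : ℕ) + 1) (by have := j.isLt; omega)
      rw [ha]
      simp only
      rw [← hij]
      exact this
    obtain ⟨w, hw1, hw2, hw3, hw4⟩ := hE n hn1 G F hmis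
      (fun i => {w | F w = a i ∧ ((i : ℕ) = 0 → G.Adj x w) ∧ ((i : ℕ) = 2 * t → G.Adj y w)}) a
      {x, y} (fun i w hw => hw.1) hsz hst (le_trans Finset.card_le_two (by norm_num))
    refine close hF hxy w hw1 (fun i hi => hw3 i (by rw [hi]; simp))
        (fun i hi => hw3 i (by rw [hi]; simp)) ?_ ?_ hw4
    · exact (hw2 0).2.1 (by simp)
    · exact (hw2 (Fin.last _)).2.2 (by simp)
  · intro i
    set Z : Finset (Fin n) := Finset.univ.filter fun z => F z = i ∧ F' z ≠ i with hZ
    set Bd : Finset (Fin n × Fin n) :=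
      Finset.univ.filter fun p => G.Adj p.1 p.2 ∧ ¬ (BU t F).Adj p.1 p.2 with hBd
    have hBc : ((Bd.card : ℕ) : ℝ) ≤ c ^ 2 / 8 * n ^ 2 := by
      refine le_trans (le_of_eq ?_) hbad
      rw [Set.ncard_eq_toFinset_card']
      congr 2
      ext p
      simp [hBd]
    have hz : ∀ z ∈ Z, 3 / 4 * c * n ≤ (((Bd.filter fun p => p.1 = z).card : ℕ) : ℝ) := by
      intro z hz
      rw [hZ, Finset.mem_filter] at hz
      obtain ⟨_, hz1, hz2⟩ := hz
      obtain ⟨j, hj1, hj2⟩ := nb_ne hz2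
      have h3 := hR z j hj1
      have h4 := hNB.cl j
      have h5 : ({x | F x = j ∧ G.Adj z x}.ncard : ℕ) ≤ (Bd.filter fun p => p.1 = z).card := by
        rw [Set.ncard_eq_toFinset_card']
        refine Finset.card_le_card_of_injOn (fun x => (z, x)) ?_ ?_
        · intro x hx
          simp only [Set.coe_toFinset, Set.mem_ofPred_eq] at hx
          simp only [hBd, Finset.coe_filter, Finset.mem_filter, Finset.mem_univ, true_and,
            Set.mem_ofPred_eq, and_true]
          refine ⟨hx.2, ?_⟩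
          show ¬ (SimpleGraph.cycleGraph (2 * t + 5)).Adj (F z) (F x)
          rw [hz1, hx.1]
          exact hj2
        · intro x _ y _ hxy
          exact (Prod.mk.injEq _ _ _ _ ▸ hxy : _ ∧ _).2
      have h6 : (({x | F x = j ∧ G.Adj z x}.ncard : ℕ) : ℝ) ≤
          (((Bd.filter fun p => p.1 = z).card : ℕ) : ℝ) := by exact_mod_cast h5
      linarith
    have hsum : (Z.card : ℝ) * (3 / 4 * c * n) ≤ ((Bd.card : ℕ) : ℝ) := by
      have e1 : Bd.card = ∑ z, (Bd.filter fun p => p.1 = z).card :=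
        Finset.card_eq_sum_card_fiberwise (fun _ _ => Finset.mem_coe.2 (Finset.mem_univ _))
      rw [e1]
      push_cast
      calc (Z.card : ℝ) * (3 / 4 * c * n) = ∑ _z ∈ Z, (3 / 4 * c * n) := by
            rw [Finset.sum_const, nsmul_eq_mul]
        _ ≤ ∑ z ∈ Z, (((Bd.filter fun p => p.1 = z).card : ℕ) : ℝ) := Finset.sum_le_sum hz
        _ ≤ ∑ z, (((Bd.filter fun p => p.1 = z).card : ℕ) : ℝ) :=
            Finset.sum_le_sum_of_subset_of_nonneg (Finset.subset_univ _)
              (fun _ _ _ => Nat.cast_nonneg _)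
    have hZc : (Z.card : ℝ) ≤ c * n / 2 := by
      have h3 : (Z.card : ℝ) * (3 / 4 * c * n) ≤ c ^ 2 / 8 * n ^ 2 := le_trans hsum hBc
      have h4 : (0 : ℝ) < c * n := by positivity
      have h5 : (Z.card : ℝ) * (c * n) ≤ (c * n / 2) * (c * n) := by nlinarith
      exact le_of_mul_le_mul_right h5 h4
    have hcl := hNB.cl i
    have hsub : ({x | F x = i}.ncard : ℕ) ≤ {x | F' x = i}.ncard + Z.card := by
      have e1 : Z.card = (Z : Set (Fin n)).ncard := (Set.ncard_coe_finset Z).symm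
      rw [e1]
      refine le_trans (Set.ncard_le_ncard ?_ (Set.toFinite _)) (Set.ncard_union_le _ _)
      intro x hx
      simp only [Set.mem_ofPred_eq, Set.mem_union, hZ, Finset.coe_filter, Finset.mem_univ,
        true_and] at hx ⊢
      tauto
    have hsub' : (({x | F x = i}.ncard : ℕ) : ℝ) ≤ (({x | F' x = i}.ncard : ℕ) : ℝ) + Z.card := by
      exact_mod_cast hsub
    have : (k : ℝ) ≤ (({x | F' x = i}.ncard : ℕ) : ℝ) := by linarith
    exact_mod_cast this

end Pool.Agent.OCX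

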