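import Pool.Agent.OCX.Stmts
import Pool.Agent.OCX.BUE

/-!
# OCX, module EX5: no edge of the blow-up is missing
-/

set_option autoImplicit false

open scoped BigOperators

namespace Pool.Agent.OCX

open BUE_ in
theorem ex5_proof (h1 : Stmt_CYW) (h2 : Stmt_ODD) : Stmt_EX5 := by
  classical
  intro t k n G F hkodd hk hM hle hcls
  obtain ⟨m, rfl⟩ : ∃ m, k = m + 2 := ⟨k - 2, by omega⟩
  by_contra hne
  -- a missing edge
  have hex : ∃ a b, (BU t F).Adj a b ∧ ¬ G.Adj a b := by
    by_contra hcon
    push Not at hcon
    exact hne (le_antisymm hle fun a b hab => hcon a b hab)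
  obtain ⟨a, b, hab, hG⟩ := hex
  have hadj : (SimpleGraph.cycleGraph (2 * t + 5)).Adj (F a) (F b) := hab
  obtain ⟨φ, hφ0, hφ1, hφ⟩ := pattern h1 t m hkodd hk hadj
  have hne01 : (1 : Fin (m + 2)) ≠ 0 := by
    intro h
    have := congrArg Fin.val h
    simp at this
  have hab' : a ≠ b := hab.ne
  let cl : Fin (2 * t + 5) → Finset (Fin n) := fun i => Finset.univ.filter fun x => F x = i
  have hcl : ∀ i, m + 2 ≤ (cl i).card := by
    intro i
    have h3 : ({x | F x = i} : Set (Fin n)) = (cl i : Set (Fin n)) := by
      ext x
      simp [cl]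
    have h4 := hcls i
    rw [h3, Set.ncard_coe_finset] at h4
    exact h4
  let s : Fin (m + 2) → Finset (Fin n) := fun i =>
    if i = 0 then {a} else if i = 1 then {b} else cl (φ i)
  have hall : ∀ A : Finset (Fin (m + 2)), A.card ≤ (A.biUnion s).card := by
    intro A
    by_cases hA : ∃ i ∈ A, i ≠ 0 ∧ i ≠ 1
    · obtain ⟨i, hi, hi0, hi1⟩ := hA
      have h3 : cl (φ i) ⊆ A.biUnion s := by
        intro x hx
        rw [Finset.mem_biUnion]
        refine ⟨i, hi, ?_⟩
        show x ∈ if i = 0 then {a} else if i = 1 then {b} else cl (φ i)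
        rw [if_neg hi0, if_neg hi1]
        exact hx
      calc A.card ≤ Fintype.card (Fin (m + 2)) := Finset.card_le_univ A
        _ = m + 2 := Fintype.card_fin _
        _ ≤ (cl (φ i)).card := hcl _
        _ ≤ _ := Finset.card_le_card h3
    · push Not at hA
      have h3 : A.card ≤ (A.biUnion s).card := by
        let f : Fin (m + 2) → Fin n := fun i => if i = 0 then a else b
        have hinj : Set.InjOn f A := by
          intro i hi j hj hij
          have hi' := hA i hi
          have hj' := hA j hj
          by_cases h5 : i = 0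
          · by_cases h6 : j = 0
            · rw [h5, h6]
            · exfalso
              simp only [f, if_pos h5, if_neg h6] at hij
              exact hab' hij
          · by_cases h6 : j = 0
            · exfalso
              simp only [f, if_neg h5, if_pos h6] at hij
              exact hab' hij.symm
            · rw [hi' h5, hj' h6]
        rw [← Finset.card_image_of_injOn hinj]
        apply Finset.card_le_card
        intro x hx
        obtain ⟨i, hi, rfl⟩ := Finset.mem_image.mp hx
        rw [Finset.mem_biUnion]
        refine ⟨i, hi, ?_⟩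
        by_cases h5 : i = 0
        · simp [f, s, h5]
        · have h6 := hA i hi h5
          simp [f, s, h6, hne01]
      exact h3
  obtain ⟨y, hyinj, hys⟩ := (Finset.all_card_le_biUnion_card_iff_exists_injective s).mp hall
  have hy0 : y 0 = a := by
    have := hys 0
    simpa [s] using this
  have hy1 : y 1 = b := by
    have := hys 1
    simpa [s, hne01] using this
  have hyF : ∀ i, F (y i) = φ i := by
    intro i
    by_cases hi0 : i = 0
    · rw [hi0, hy0, hφ0]
    · by_cases hi1 : i = 1
      · rw [hi1, hy1, hφ1]
      · have := hys i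
        simp only [s, if_neg hi0, if_neg hi1] at this
        exact (Finset.mem_filter.mp this).2
  have hycws : y ∈ cws (BU t F) (m + 2) := by
    intro i j hij
    show (SimpleGraph.cycleGraph (2 * t + 5)).Adj (F (y i)) (F (y j))
    rw [hyF i, hyF j]
    exact hφ i j hij
  have hynot : y ∉ cws G (m + 2) := by
    intro hy
    have h01 : (SimpleGraph.cycleGraph (m + 2)).Adj 0 1 := by
      rw [SimpleGraph.cycleGraph_adj]
      exact Or.inr (sub_zero _)
    have h3 := hy 0 1 h01
    rw [hy0, hy1] at h3
    exact hG h3
  have hlt : lc G (m + 2) < lc (BU t F) (m + 2) := by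
    unfold lc
    apply Set.ncard_lt_ncard _ (Set.toFinite _)
    refine ⟨?_, ?_⟩
    · rintro z ⟨hz1, hz2⟩
      exact ⟨fun i j hij => hle (hz1 i j hij), hz2⟩
    · intro hsub
      exact hynot (hsub ⟨hycws, hyinj⟩).1
  obtain ⟨hb1, hb2, -⟩ := h2 t
  have := hM.2 (BU t F) (hb2 (Fin n) (BU t F) (hb1 (Fin n) F))
  omega

end Pool.Agent.OCX
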