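import Pool.Agent.OCX.Stmts
import Pool.Agent.OCX.Lib

/-!
# OCX, module EXP: the path expansion
-/

open scoped BigOperators

namespace Pool.Agent.OCX

namespace EXP_

/-! ### abstract lemmas on sequences -/

lemma sum_Icc_one (F : ℕ → ℝ) (m : ℕ) :
    ∑ l ∈ Finset.Icc 1 m, F l = ∑ j ∈ Finset.range m, F (j + 1) := by
  induction m with
  | zero => simp
  | succ m ih =>
    rw [Finset.sum_Icc_succ_top (by omega), ih, Finset.sum_range_succ]

lemma pow_le_lin (y : ℝ) (hy : 0 ≤ y) (m : ℕ) (h : 2 * m * y ≤ 1) :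
    (1 + y) ^ m ≤ 1 + 2 * m * y := by
  induction m with
  | zero => simp
  | succ m ih =>
    have h1 : 2 * (m : ℝ) * y ≤ 1 := by
      have h2 : 2 * (m : ℝ) * y ≤ 2 * ((m + 1 : ℕ) : ℝ) * y := by
        push_cast
        nlinarith
      exact h2.trans h
    have h3 := ih h1
    rw [pow_succ]
    push_cast
    have h4 : (1 + y) ^ m * (1 + y) ≤ (1 + 2 * m * y) * (1 + y) :=
      mul_le_mul_of_nonneg_right h3 (by linarith)
    have h5 : 2 * (m : ℝ) * y * y ≤ 1 * y := mul_le_mul_of_nonneg_right h1 hy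
    nlinarith

lemma conv (t : ℕ) (a b : ℕ → ℝ) (ρ : ℝ) (hρ : 0 ≤ ρ) (hρ2 : ρ ≤ 2)
    (ha : ∀ j, 0 ≤ a j ∧ a j ≤ 2 * ρ ^ j) (hb : ∀ j, 0 ≤ b j ∧ b j ≤ 2 * ρ ^ j)
    (h0 : ∀ i j, i + j < 2 * t → a i * b j = 0) :
    (∑ j ∈ Finset.range (2 * t + 1), a j * b (2 * t - j) +
      ∑ j ∈ Finset.range (2 * t + 2), a j * b (2 * t + 1 - j)) ≤
      (∑ j ∈ Finset.range (2 * t + 2), a j) * (∑ j ∈ Finset.range (2 * t + 2), b j) ∧
    (∑ j ∈ Finset.range (2 * t + 2), a j) * (∑ j ∈ Finset.range (2 * t + 2), b j) ≤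
      (∑ j ∈ Finset.range (2 * t + 1), a j * b (2 * t - j) +
        ∑ j ∈ Finset.range (2 * t + 2), a j * b (2 * t + 1 - j)) +
      ((2 * t + 2 : ℕ) : ℝ) * (((2 * t + 2 : ℕ) : ℝ) * (4 * 2 ^ (2 * t) * ρ ^ (2 * t + 2))) := by
  set c : ℝ := 4 * 2 ^ (2 * t) * ρ ^ (2 * t + 2) with hc
  have hc0 : 0 ≤ c := by positivity
  have hrow : ∀ i ∈ Finset.range (2 * t + 2), ∑ j ∈ Finset.range (2 * t + 2), a i * b j =
      (if i ≤ 2 * t then a i * b (2 * t - i) else 0) + a i * b (2 * t + 1 - i) +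
        ∑ j ∈ Finset.range (2 * t + 2), (if 2 * t + 2 ≤ i + j then a i * b j else 0) := by
    intro i hi
    rw [Finset.mem_range] at hi
    have e1 : ∀ j ∈ Finset.range (2 * t + 2), a i * b j =
        (if j = 2 * t - i then (if i ≤ 2 * t then a i * b j else 0) else 0) +
        (if j = 2 * t + 1 - i then a i * b j else 0) +
        (if 2 * t + 2 ≤ i + j then a i * b j else 0) := by
      intro j hj
      rw [Finset.mem_range] at hj
      rcases lt_trichotomy (i + j) (2 * t) with h | h | h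
      · rw [h0 i j h]
        simp
      · rw [if_pos (by omega), if_pos (by omega), if_neg (by omega), if_neg (by omega)]
        ring
      · rcases Nat.lt_or_ge (i + j) (2 * t + 2) with h' | h'
        · have h2 : j = 2 * t + 1 - i := by omega
          rw [if_pos h2, if_neg (by omega : ¬ 2 * t + 2 ≤ i + j)]
          by_cases h3 : j = 2 * t - i
          · rw [if_pos h3, if_neg (by omega)]
            ring
          · rw [if_neg h3]
            ring
        · rw [if_pos h', if_neg (by omega : ¬ j = 2 * t + 1 - i)]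
          by_cases h3 : j = 2 * t - i
          · rw [if_pos h3, if_neg (by omega)]
            ring
          · rw [if_neg h3]
            ring
    rw [Finset.sum_congr rfl e1, Finset.sum_add_distrib, Finset.sum_add_distrib]
    congr 1
    congr 1
    · rw [Finset.sum_ite_eq', if_pos (Finset.mem_range.2 (by omega))]
    · rw [Finset.sum_ite_eq', if_pos (Finset.mem_range.2 (by omega))]
  have hprod : (∑ j ∈ Finset.range (2 * t + 2), a j) * (∑ j ∈ Finset.range (2 * t + 2), b j) =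
      (∑ j ∈ Finset.range (2 * t + 1), a j * b (2 * t - j) +
        ∑ j ∈ Finset.range (2 * t + 2), a j * b (2 * t + 1 - j)) +
      ∑ i ∈ Finset.range (2 * t + 2), ∑ j ∈ Finset.range (2 * t + 2),
        (if 2 * t + 2 ≤ i + j then a i * b j else 0) := by
    rw [Finset.sum_mul_sum, Finset.sum_congr rfl hrow, Finset.sum_add_distrib,
      Finset.sum_add_distrib]
    congr 2
    rw [show 2 * t + 2 = (2 * t + 1) + 1 from rfl, Finset.sum_range_succ, if_neg (by omega),
      add_zero]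
    refine Finset.sum_congr rfl fun i hi => ?_
    rw [Finset.mem_range] at hi
    rw [if_pos (by omega)]
  have hr0 : ∀ i ∈ Finset.range (2 * t + 2), 0 ≤ ∑ j ∈ Finset.range (2 * t + 2),
      (if 2 * t + 2 ≤ i + j then a i * b j else 0) := by
    intro i _
    refine Finset.sum_nonneg fun j _ => ?_
    split_ifs
    · exact mul_nonneg (ha i).1 (hb j).1
    · exact le_rfl
  have hr1 : ∀ i ∈ Finset.range (2 * t + 2), ∑ j ∈ Finset.range (2 * t + 2),
      (if 2 * t + 2 ≤ i + j then a i * b j else 0) ≤ ((2 * t + 2 : ℕ) : ℝ) * c := by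
    intro i hi
    rw [Finset.mem_range] at hi
    have : ∀ j ∈ Finset.range (2 * t + 2), (if 2 * t + 2 ≤ i + j then a i * b j else 0) ≤ c := by
      intro j hj
      rw [Finset.mem_range] at hj
      split_ifs with h
      · have h1 : a i * b j ≤ (2 * ρ ^ i) * (2 * ρ ^ j) :=
          mul_le_mul (ha i).2 (hb j).2 (hb j).1 (by positivity)
        have h2 : (2 * ρ ^ i) * (2 * ρ ^ j) = 4 * (ρ ^ (2 * t + 2) * ρ ^ (i + j - (2 * t + 2))) := by
          rw [← pow_add, show 2 * t + 2 + (i + j - (2 * t + 2)) = i + j by omega, pow_add]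
          ring
        have h3 : ρ ^ (i + j - (2 * t + 2)) ≤ 2 ^ (2 * t) := by
          calc ρ ^ (i + j - (2 * t + 2)) ≤ 2 ^ (i + j - (2 * t + 2)) :=
                pow_le_pow_left₀ hρ hρ2 _
            _ ≤ 2 ^ (2 * t) := pow_le_pow_right₀ (by norm_num) (by omega)
        have h4 : ρ ^ (2 * t + 2) * ρ ^ (i + j - (2 * t + 2)) ≤ ρ ^ (2 * t + 2) * 2 ^ (2 * t) :=
          mul_le_mul_of_nonneg_left h3 (by positivity)
        rw [hc]
        calc a i * b j ≤ _ := h1
          _ = _ := h2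
          _ ≤ 4 * (ρ ^ (2 * t + 2) * 2 ^ (2 * t)) := by linarith
          _ = 4 * 2 ^ (2 * t) * ρ ^ (2 * t + 2) := by ring
      · exact hc0
    have h2 := Finset.sum_le_sum this
    rw [Finset.sum_const, Finset.card_range, nsmul_eq_mul] at h2
    exact h2
  have hs0 := Finset.sum_nonneg hr0
  have hs1 := Finset.sum_le_sum hr1
  rw [Finset.sum_const, Finset.card_range, nsmul_eq_mul] at hs1
  rw [hprod]
  constructor
  · linarith
  · linarith

lemma diag1 (t : ℕ) (α β : ℕ → ℝ) :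
    ∑ j ∈ Finset.range (2 * t + 1), (if Even j then α (j + 1) else β (j + 1)) *
      (if Even (2 * t - j) then β (2 * t - j + 1) else α (2 * t - j + 1)) =
    ∑ l ∈ Finset.Icc 1 (2 * t + 1), α l * β (2 * t + 2 - l) := by
  rw [sum_Icc_one]
  set f : ℕ → ℝ := fun j => if Even j then α (j + 1) * β (2 * t - j + 1) else 0 with hf
  set g : ℕ → ℝ := fun j => if Even j then 0 else β (j + 1) * α (2 * t - j + 1) with hg
  have e1 : ∀ j ∈ Finset.range (2 * t + 1), (if Even j then α (j + 1) else β (j + 1)) *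
      (if Even (2 * t - j) then β (2 * t - j + 1) else α (2 * t - j + 1)) = f j + g j := by
    intro j hj
    rw [Finset.mem_range] at hj
    by_cases he : Even j
    · have h2 : Even (2 * t - j) := by
        rcases he with ⟨r, hr⟩
        exact ⟨t - r, by omega⟩
      simp only [hf, hg, if_pos he, if_pos h2, add_zero]
    · have h2 : ¬ Even (2 * t - j) := by
        intro h
        apply he
        rcases h with ⟨r, hr⟩
        exact ⟨t - r, by omega⟩
      simp only [hf, hg, if_neg he, if_neg h2, zero_add]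
  rw [Finset.sum_congr rfl e1, Finset.sum_add_distrib]
  have e2 : ∑ j ∈ Finset.range (2 * t + 1), g j = ∑ j ∈ Finset.range (2 * t + 1), g (2 * t - j) := by
    rw [← Finset.sum_range_reflect]
    refine Finset.sum_congr rfl fun j _ => ?_
    rw [show 2 * t + 1 - 1 - j = 2 * t - j by omega]
  rw [e2, ← Finset.sum_add_distrib]
  refine Finset.sum_congr rfl fun j hj => ?_
  rw [Finset.mem_range] at hj
  by_cases he : Even j
  · have h2 : Even (2 * t - j) := by
      rcases he with ⟨r, hr⟩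
      exact ⟨t - r, by omega⟩
    simp only [hf, hg, if_pos he, if_pos h2, add_zero]
    rw [show 2 * t + 2 - (j + 1) = 2 * t - j + 1 by omega]
  · have h2 : ¬ Even (2 * t - j) := by
      intro h
      apply he
      rcases h with ⟨r, hr⟩
      exact ⟨t - r, by omega⟩
    simp only [hf, hg, if_neg he, if_neg h2, zero_add]
    rw [show 2 * t + 2 - (j + 1) = 2 * t - j + 1 by omega, show 2 * t - (2 * t - j) = j by omega]
    ring

lemma half1 (t : ℕ) (F : ℕ → ℝ) (hF : ∀ j, j ≤ 2 * t + 1 → F (2 * t + 1 - j) = F j) :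
    ∑ j ∈ Finset.range (2 * t + 2), (if Even j then F j else 0) =
      1 / 2 * ∑ j ∈ Finset.range (2 * t + 2), F j ∧
    ∑ j ∈ Finset.range (2 * t + 2), (if Even j then 0 else F j) =
      1 / 2 * ∑ j ∈ Finset.range (2 * t + 2), F j := by
  have e1 : ∑ j ∈ Finset.range (2 * t + 2), (if Even j then F j else 0) =
      ∑ j ∈ Finset.range (2 * t + 2), (if Even j then 0 else F j) := by
    rw [← Finset.sum_range_reflect]
    refine Finset.sum_congr rfl fun j hj => ?_
    rw [Finset.mem_range] at hj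
    rw [show 2 * t + 2 - 1 - j = 2 * t + 1 - j by omega, hF j (by omega)]
    by_cases he : Even j
    · have h2 : ¬ Even (2 * t + 1 - j) := by
        intro h
        rcases h with ⟨r, hr⟩
        rcases he with ⟨s, hs⟩
        omega
      rw [if_pos he, if_neg h2]
    · have h2 : Even (2 * t + 1 - j) := by
        rw [Nat.not_even_iff_odd] at he
        rcases he with ⟨s, hs⟩
        exact ⟨t - s, by omega⟩
      rw [if_neg he, if_pos h2]
  have e2 : ∑ j ∈ Finset.range (2 * t + 2), (if Even j then F j else 0) +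
      ∑ j ∈ Finset.range (2 * t + 2), (if Even j then 0 else F j) =
      ∑ j ∈ Finset.range (2 * t + 2), F j := by
    rw [← Finset.sum_add_distrib]
    refine Finset.sum_congr rfl fun j _ => ?_
    split_ifs <;> ring
  constructor
  · linarith
  · linarith

lemma diag2 (t : ℕ) (α β : ℕ → ℝ) :
    ∑ j ∈ Finset.range (2 * t + 2), (if Even j then α (j + 1) else β (j + 1)) *
      (if Even (2 * t + 1 - j) then β (2 * t + 1 - j + 1) else α (2 * t + 1 - j + 1)) =
    1 / 2 * (∑ l ∈ Finset.Icc 1 (2 * t + 2), β l * β (2 * t + 3 - l) +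
      ∑ l ∈ Finset.Icc 1 (2 * t + 2), α l * α (2 * t + 3 - l)) := by
  rw [sum_Icc_one, sum_Icc_one]
  have hα := half1 t (fun j => α (j + 1) * α (2 * t + 3 - (j + 1))) (fun j hj => by
    show _ = _
    rw [show 2 * t + 1 - j + 1 = 2 * t + 3 - (j + 1) by omega,
      show 2 * t + 3 - (2 * t + 3 - (j + 1)) = j + 1 by omega]
    ring)
  have hβ := half1 t (fun j => β (j + 1) * β (2 * t + 3 - (j + 1))) (fun j hj => by
    show _ = _
    rw [show 2 * t + 1 - j + 1 = 2 * t + 3 - (j + 1) by omega,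
      show 2 * t + 3 - (2 * t + 3 - (j + 1)) = j + 1 by omega]
    ring)
  rw [mul_add, ← hα.1, ← hβ.2, ← Finset.sum_add_distrib]
  refine Finset.sum_congr rfl fun j hj => ?_
  rw [Finset.mem_range] at hj
  by_cases he : Even j
  · have h2 : ¬ Even (2 * t + 1 - j) := by
      intro h
      rcases h with ⟨r, hr⟩
      rcases he with ⟨s, hs⟩
      omega
    rw [if_pos he, if_neg h2, if_pos he, if_pos he,
      show 2 * t + 3 - (j + 1) = 2 * t + 1 - j + 1 by omega]
    ring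
  · have h2 : Even (2 * t + 1 - j) := by
      rw [Nat.not_even_iff_odd] at he
      rcases he with ⟨s, hs⟩
      exact ⟨t - s, by omega⟩
    rw [if_neg he, if_pos h2, if_neg he, if_neg he,
      show 2 * t + 3 - (j + 1) = 2 * t + 1 - j + 1 by omega]
    ring

/-! ### the partial sums -/

variable {V : Type} [Fintype V]

lemma avS_sum {ι : Type} (S : Set V) (s : Finset ι) (F : ι → V → ℝ) :
    avS S (fun x => ∑ j ∈ s, F j x) = ∑ j ∈ s, avS S (F j) := by
  classical
  induction s using Finset.induction_on with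
  | empty =>
    simp only [Finset.sum_empty]
    rw [avS_const, zero_mul]
  | insert a s ha ih =>
    rw [Finset.sum_insert ha, ← ih, ← avS_add]
    congr 1
    funext x
    rw [Finset.sum_insert ha]

/-- terms of the partial sums -/
noncomputable def tm (G : SimpleGraph V) (R : Set V) (e f : V → ℝ) (j : ℕ) (x : V) : ℝ :=
  if Even j then al G R e (j + 1) x else al G R f (j + 1) x

/-- partial sums -/
noncomputable def Un (G : SimpleGraph V) (R : Set V) (e f : V → ℝ) (n : ℕ) (x : V) : ℝ :=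
  ∑ j ∈ Finset.range n, tm G R e f j x

lemma tm_succ {G : SimpleGraph V} {R : Set V} (e f : V → ℝ) (j : ℕ) {x : V} (hx : x ∈ R) :
    tm G R e f (j + 1) x = 2 * avS (G.neighborSet x ∩ R) (tm G R f e j) := by
  unfold tm
  by_cases he : Even j
  · have h2 : ¬ Even (j + 1) := by
      rw [Nat.even_add_one]
      exact fun h => h he
    rw [if_neg h2]
    simp only [if_pos he]
    show R.indicator (fun x => 2 * avS (G.neighborSet x ∩ R) (al G R f (j + 1))) x = _
    rw [Set.indicator_of_mem hx]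
  · have h2 : Even (j + 1) := by
      rw [Nat.even_add_one]
      exact he
    rw [if_pos h2]
    simp only [if_neg he]
    show R.indicator (fun x => 2 * avS (G.neighborSet x ∩ R) (al G R e (j + 1))) x = _
    rw [Set.indicator_of_mem hx]

lemma tm_zero {G : SimpleGraph V} {R : Set V} (e f : V → ℝ) {x : V} (hx : x ∈ R) :
    tm G R e f 0 x = e x := by
  unfold tm
  rw [if_pos (by decide)]
  show R.indicator e x = e x
  rw [Set.indicator_of_mem hx]

lemma Un_succ {G : SimpleGraph V} {R : Set V} (e f : V → ℝ) (n : ℕ) {x : V} (hx : x ∈ R) :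
    Un G R e f (n + 1) x = e x + 2 * avS (G.neighborSet x ∩ R) (Un G R f e n) := by
  unfold Un
  rw [Finset.sum_range_succ', tm_zero e f hx, add_comm, avS_sum, Finset.mul_sum]
  congr 1
  exact Finset.sum_congr rfl fun j _ => tm_succ e f j hx

/-- the hypotheses -/
structure Hy (t : ℕ) (G : SimpleGraph V) (A B R : Set V) (eA eB u v : V → ℝ) (ν ϑ : ℝ) :
    Prop where
  og : OddG t G
  cor : Cor G A B R
  hA : ∀ x, 0 ≤ eA x ∧ eA x ≤ 2
  hB : ∀ x, 0 ≤ eB x ∧ eB x ≤ 2
  pA : ∀ x ∈ R, (0 < eA x ↔ ∃ a ∈ A, G.Adj x a)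
  pB : ∀ x ∈ R, (0 < eB x ↔ ∃ b ∈ B, G.Adj x b)
  t0 : 0 ≤ ϑ
  t1 : ϑ ≤ 1 / 2
  n0 : 0 < ν
  n1 : ν ≤ 1 / 2
  n2 : 1 / ν ≤ 2 * (1 + ϑ)
  uv : ∀ x ∈ R, 0 < u x ∧ u x ≤ 1 ∧ 0 < v x ∧ v x ≤ 1
  eu : ∀ x ∈ R, |u x - (eB x + avS (G.neighborSet x ∩ R) v / ν)| ≤ ϑ * u x
  ev : ∀ x ∈ R, |v x - (eA x + avS (G.neighborSet x ∩ R) u / ν)| ≤ ϑ * v x

variable {t : ℕ} {G : SimpleGraph V} {A B R : Set V} {eA eB u v : V → ℝ} {ν ϑ : ℝ}

lemma Hy.swap (h : Hy t G A B R eA eB u v ν ϑ) : Hy t G B A R eB eA v u ν ϑ where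
  og := h.og
  cor := h.cor.swap
  hA := h.hB
  hB := h.hA
  pA := h.pB
  pB := h.pA
  t0 := h.t0
  t1 := h.t1
  n0 := h.n0
  n1 := h.n1
  n2 := h.n2
  uv := fun x hx => ⟨(h.uv x hx).2.2.1, (h.uv x hx).2.2.2, (h.uv x hx).1, (h.uv x hx).2.1⟩
  eu := h.ev
  ev := h.eu

lemma Hy.av0 (h : Hy t G A B R eA eB u v ν ϑ) (x : V) : 0 ≤ avS (G.neighborSet x ∩ R) v :=
  avS_nonneg fun y hy => (h.uv y hy.2).2.2.1.le

lemma Hy.low1 (h : Hy t G A B R eA eB u v ν ϑ) {x : V} (hx : x ∈ R) :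
    eB x + 2 * avS (G.neighborSet x ∩ R) v ≤ (1 + ϑ) * u x := by
  have h1 := (abs_le.1 (h.eu x hx)).1
  have h2 : 2 * avS (G.neighborSet x ∩ R) v ≤ avS (G.neighborSet x ∩ R) v / ν := by
    rw [le_div_iff₀ h.n0]
    nlinarith [h.av0 x, h.n1]
  linarith

lemma Hy.upp1 (h : Hy t G A B R eA eB u v ν ϑ) {x : V} (hx : x ∈ R) :
    u x ≤ (1 + 4 * ϑ) * (eB x + 2 * avS (G.neighborSet x ∩ R) v) := by
  have h1 := (abs_le.1 (h.eu x hx)).2
  have h0 := h.av0 x
  have h2 : avS (G.neighborSet x ∩ R) v / ν ≤ (1 + ϑ) * (2 * avS (G.neighborSet x ∩ R) v) := by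
    rw [div_eq_mul_one_div]
    calc avS (G.neighborSet x ∩ R) v * (1 / ν) ≤ avS (G.neighborSet x ∩ R) v * (2 * (1 + ϑ)) :=
          mul_le_mul_of_nonneg_left h.n2 h0
      _ = _ := by ring
  have hB := (h.hB x).1
  have ht0 := h.t0
  have ht1 := h.t1
  set s := avS (G.neighborSet x ∩ R) v with hs
  have h3 : (1 - ϑ) * u x ≤ (1 + ϑ) * (eB x + 2 * s) := by nlinarith
  have h4 : (1 + ϑ) * (eB x + 2 * s) ≤ (1 - ϑ) * ((1 + 4 * ϑ) * (eB x + 2 * s)) := by
    have h5 : 1 + ϑ ≤ (1 - ϑ) * (1 + 4 * ϑ) := by nlinarith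
    have h6 : 0 ≤ eB x + 2 * s := by linarith
    calc (1 + ϑ) * (eB x + 2 * s) ≤ ((1 - ϑ) * (1 + 4 * ϑ)) * (eB x + 2 * s) :=
          mul_le_mul_of_nonneg_right h5 h6
      _ = _ := by ring
  exact le_of_mul_le_mul_left (h3.trans h4) (by linarith)

lemma Hy.low (h : Hy t G A B R eA eB u v ν ϑ) : ∀ n : ℕ,
    (∀ x ∈ R, Un G R eB eA n x ≤ (1 + ϑ) ^ n * u x) ∧
    (∀ x ∈ R, Un G R eA eB n x ≤ (1 + ϑ) ^ n * v x) := by
  have step : ∀ {A B : Set V} {eA eB u v : V → ℝ} (h : Hy t G A B R eA eB u v ν ϑ) (n : ℕ),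
      (∀ x ∈ R, Un G R eA eB n x ≤ (1 + ϑ) ^ n * v x) →
      ∀ x ∈ R, Un G R eB eA (n + 1) x ≤ (1 + ϑ) ^ (n + 1) * u x := by
    intro A B eA eB u v h n ih x hx
    rw [Un_succ eB eA n hx]
    have h1 : avS (G.neighborSet x ∩ R) (Un G R eA eB n) ≤
        (1 + ϑ) ^ n * avS (G.neighborSet x ∩ R) v := by
      rw [← avS_mul_left]
      exact avS_mono fun y hy => ih y hy.2
    have h2 : 1 ≤ (1 + ϑ) ^ n := one_le_pow₀ (by linarith [h.t0])
    have h3 := h.low1 hx
    have hB := (h.hB x).1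
    calc eB x + 2 * avS (G.neighborSet x ∩ R) (Un G R eA eB n)
        ≤ (1 + ϑ) ^ n * eB x + 2 * ((1 + ϑ) ^ n * avS (G.neighborSet x ∩ R) v) := by
          have := mul_le_mul_of_nonneg_right h2 hB
          linarith
      _ = (1 + ϑ) ^ n * (eB x + 2 * avS (G.neighborSet x ∩ R) v) := by ring
      _ ≤ (1 + ϑ) ^ n * ((1 + ϑ) * u x) := mul_le_mul_of_nonneg_left h3 (by linarith)
      _ = (1 + ϑ) ^ (n + 1) * u x := by ring
  intro n
  induction n with
  | zero =>
    constructor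
    · intro x hx
      simp only [Un, Finset.range_zero, Finset.sum_empty, pow_zero, one_mul]
      exact (h.uv x hx).1.le
    · intro x hx
      simp only [Un, Finset.range_zero, Finset.sum_empty, pow_zero, one_mul]
      exact (h.uv x hx).2.2.1.le
  | succ n ih => exact ⟨step h n ih.2, step h.swap n ih.1⟩

lemma Hy.upp (h : Hy t G A B R eA eB u v ν ϑ) : ∀ n : ℕ,
    (∀ x ∈ R, u x ≤ (1 + 4 * ϑ) ^ n * (Un G R eB eA n x + (2 * ms R) ^ n)) ∧
    (∀ x ∈ R, v x ≤ (1 + 4 * ϑ) ^ n * (Un G R eA eB n x + (2 * ms R) ^ n)) := by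
  have step : ∀ {A B : Set V} {eA eB u v : V → ℝ} (h : Hy t G A B R eA eB u v ν ϑ) (n : ℕ),
      (∀ x ∈ R, v x ≤ (1 + 4 * ϑ) ^ n * (Un G R eA eB n x + (2 * ms R) ^ n)) →
      ∀ x ∈ R, u x ≤ (1 + 4 * ϑ) ^ (n + 1) * (Un G R eB eA (n + 1) x + (2 * ms R) ^ (n + 1)) := by
    intro A B eA eB u v h n ih x hx
    rw [Un_succ eB eA n hx]
    have h1 : avS (G.neighborSet x ∩ R) v ≤
        (1 + 4 * ϑ) ^ n * (avS (G.neighborSet x ∩ R) (Un G R eA eB n) + (2 * ms R) ^ n * ms R) := by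
      calc avS (G.neighborSet x ∩ R) v
          ≤ avS (G.neighborSet x ∩ R)
            (fun y => (1 + 4 * ϑ) ^ n * (Un G R eA eB n y + (2 * ms R) ^ n)) :=
            avS_mono fun y hy => ih y hy.2
        _ = (1 + 4 * ϑ) ^ n * (avS (G.neighborSet x ∩ R) (Un G R eA eB n) +
              (2 * ms R) ^ n * ms (G.neighborSet x ∩ R)) := by
            rw [avS_mul_left, avS_add, avS_const]
        _ ≤ _ := by
            refine mul_le_mul_of_nonneg_left ?_ (pow_nonneg (by linarith [h.t0]) _)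
            have h2 : ms (G.neighborSet x ∩ R) ≤ ms R := ms_mono Set.inter_subset_right
            have h3 : (0 : ℝ) ≤ (2 * ms R) ^ n := pow_nonneg (by linarith [ms_nonneg R]) _
            have := mul_le_mul_of_nonneg_left h2 h3
            linarith
    have h2 : 1 ≤ (1 + 4 * ϑ) ^ n := one_le_pow₀ (by linarith [h.t0])
    have h3 := h.upp1 hx
    have hB := (h.hB x).1
    have h4 := mul_le_mul_of_nonneg_right h2 hB
    calc u x ≤ (1 + 4 * ϑ) * (eB x + 2 * avS (G.neighborSet x ∩ R) v) := h3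
      _ ≤ (1 + 4 * ϑ) * ((1 + 4 * ϑ) ^ n * (eB x +
            2 * (avS (G.neighborSet x ∩ R) (Un G R eA eB n) + (2 * ms R) ^ n * ms R))) := by
          refine mul_le_mul_of_nonneg_left ?_ (by linarith [h.t0])
          rw [mul_add]
          linarith
      _ = _ := by ring
  intro n
  induction n with
  | zero =>
    constructor
    · intro x hx
      simp only [Un, Finset.range_zero, Finset.sum_empty, pow_zero, one_mul, zero_add]
      exact (h.uv x hx).2.1
    · intro x hx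
      simp only [Un, Finset.range_zero, Finset.sum_empty, pow_zero, one_mul, zero_add]
      exact (h.uv x hx).2.2.2
  | succ n ih => exact ⟨step h n ih.2, step h.swap n ih.1⟩


/-- the terms have the parity property -/
lemma Hy.tm0 (hal : Stmt_ALP) (h : Hy t G A B R eA eB u v ν ϑ) (j : ℕ) (x : V) :
    0 ≤ tm G R eB eA j x := by
  obtain ⟨-, -, p3, -, -, -, -, -⟩ := hal V G R
  unfold tm
  split_ifs
  · exact p3 eB (fun x _ => (h.hB x).1) _ _
  · exact p3 eA (fun x _ => (h.hA x).1) _ _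

lemma Hy.tm1 (hal : Stmt_ALP) (h : Hy t G A B R eA eB u v ν ϑ) (j : ℕ) (x : V) :
    tm G R eB eA j x ≤ 2 * (2 * ms R) ^ j := by
  obtain ⟨-, -, -, p4, -, -, -, -⟩ := hal V G R
  unfold tm
  split_ifs
  · exact p4 eB 2 (by norm_num) (fun x _ => h.hB x) _ _
  · exact p4 eA 2 (by norm_num) (fun x _ => h.hA x) _ _

lemma Hy.tmv (hal : Stmt_ALP) (h : Hy t G A B R eA eB u v ν ϑ) (i j : ℕ) (x : V)
    (hij : i + j < 2 * t) : tm G R eB eA i x * tm G R eA eB j x = 0 := by
  obtain ⟨-, -, -, -, p5, -, -, -⟩ := hal V G R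
  by_contra hne
  have h1 : tm G R eB eA i x ≠ 0 := left_ne_zero_of_mul hne
  have h2 : tm G R eA eB j x ≠ 0 := right_ne_zero_of_mul hne
  have qA : ∀ m, al G R eA m x ≠ 0 → Rch G R A m x :=
    fun m hm => p5 eA A (fun x _ => (h.hA x).1) (fun x hx h0 => (h.pA x hx).1 h0) m x hm
  have qB : ∀ m, al G R eB m x ≠ 0 → Rch G R B m x :=
    fun m hm => p5 eB B (fun x _ => (h.hB x).1) (fun x hx h0 => (h.pB x hx).1 h0) m x hm
  unfold tm at h1 h2
  by_cases hi : Even i
  · rw [if_pos hi] at h1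
    by_cases hj : Even j
    · rw [if_pos hj] at h2
      have := og1 h.og h.cor (qA _ h2) (qB _ h1) (by
        rcases hi with ⟨r, hr⟩
        rcases hj with ⟨s, hs⟩
        exact ⟨r + s + 1, by omega⟩)
      omega
    · rw [if_neg hj] at h2
      rw [Nat.not_even_iff_odd] at hj
      have := ogB h.og h.cor (qB _ h2) (qB _ h1) (by
        rcases hi with ⟨r, hr⟩
        rcases hj with ⟨s, hs⟩
        exact ⟨r + s + 1, by omega⟩)
      omega
  · rw [if_neg hi] at h1
    rw [Nat.not_even_iff_odd] at hi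
    by_cases hj : Even j
    · rw [if_pos hj] at h2
      have := ogA h.og h.cor (qA _ h2) (qA _ h1) (by
        rcases hi with ⟨r, hr⟩
        rcases hj with ⟨s, hs⟩
        exact ⟨r + s + 1, by omega⟩)
      omega
    · rw [if_neg hj] at h2
      rw [Nat.not_even_iff_odd] at hj
      have := og1 h.og h.cor (qA _ h1) (qB _ h2) (by
        rcases hi with ⟨r, hr⟩
        rcases hj with ⟨s, hs⟩
        exact ⟨r + s + 2, by omega⟩)
      omega

/-- the diagonal part of the product -/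
noncomputable def Dg (t : ℕ) (G : SimpleGraph V) (R : Set V) (eA eB : V → ℝ) (x : V) : ℝ :=
  ∑ l ∈ Finset.Icc 1 (2 * t + 1), al G R eB l x * al G R eA (2 * t + 2 - l) x +
    1 / 2 * (∑ l ∈ Finset.Icc 1 (2 * t + 2), al G R eA l x * al G R eA (2 * t + 3 - l) x +
      ∑ l ∈ Finset.Icc 1 (2 * t + 2), al G R eB l x * al G R eB (2 * t + 3 - l) x)

lemma avS_Dg (hal : Stmt_ALP) (t : ℕ) (G : SimpleGraph V) (R : Set V) (eA eB : V → ℝ)
    (S : Set V) : avS S (Dg t G R eA eB) = Kf t G R eA eB S := by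
  obtain ⟨-, -, -, -, -, -, p7, p8⟩ := hal V G R
  unfold Dg
  rw [avS_add, avS_mul_left, avS_add, avS_sum, avS_sum, avS_sum, p7 t eA eB S, p8 t eA S,
    p8 t eB S]
  unfold Kf
  rw [← PS_add]
  congr 2
  refine PS_congr fun y _ => ?_
  ring

lemma Hy.prod (hal : Stmt_ALP) (h : Hy t G A B R eA eB u v ν ϑ) (x : V) :
    Dg t G R eA eB x ≤ Un G R eB eA (2 * t + 2) x * Un G R eA eB (2 * t + 2) x ∧
    Un G R eB eA (2 * t + 2) x * Un G R eA eB (2 * t + 2) x ≤ Dg t G R eA eB x +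
      ((2 * t + 2 : ℕ) : ℝ) * (((2 * t + 2 : ℕ) : ℝ) *
        (4 * 2 ^ (2 * t) * (2 * ms R) ^ (2 * t + 2))) := by
  have hr0 := ms_nonneg R
  have hr1 := ms_le_one R
  have key := conv t (fun j => tm G R eB eA j x) (fun j => tm G R eA eB j x) (2 * ms R)
    (by linarith) (by linarith) (fun j => ⟨h.tm0 hal j x, h.tm1 hal j x⟩)
    (fun j => ⟨h.swap.tm0 hal j x, h.swap.tm1 hal j x⟩) (fun i j hij => h.tmv hal i j x hij)
  have e1 := diag1 t (fun l => al G R eB l x) (fun l => al G R eA l x)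
  have e2 := diag2 t (fun l => al G R eB l x) (fun l => al G R eA l x)
  have e3 : ∑ j ∈ Finset.range (2 * t + 1), tm G R eB eA j x * tm G R eA eB (2 * t - j) x +
      ∑ j ∈ Finset.range (2 * t + 2), tm G R eB eA j x * tm G R eA eB (2 * t + 1 - j) x =
      Dg t G R eA eB x := by
    unfold Dg
    rw [← e1, ← e2]
    rfl
  rw [e3] at key
  exact key

lemma Un_bd (h : Hy t G A B R eA eB u v ν ϑ) (hal : Stmt_ALP) (n : ℕ) (x : V) :
    0 ≤ Un G R eB eA n x ∧ Un G R eB eA n x ≤ n * (2 * 2 ^ n) := by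
  constructor
  · exact Finset.sum_nonneg fun j _ => h.tm0 hal j x
  · have : ∀ j ∈ Finset.range n, tm G R eB eA j x ≤ 2 * 2 ^ n := by
      intro j hj
      rw [Finset.mem_range] at hj
      refine (h.tm1 hal j x).trans ?_
      have h1 : (2 * ms R) ^ j ≤ 2 ^ j :=
        pow_le_pow_left₀ (by linarith [ms_nonneg R]) (by linarith [ms_le_one R]) _
      have h2 : (2 : ℝ) ^ j ≤ 2 ^ n := pow_le_pow_right₀ (by norm_num) (by omega)
      linarith
    have h2 := Finset.sum_le_sum this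
    rw [Finset.sum_const, Finset.card_range, nsmul_eq_mul] at h2
    exact h2

/-- `U eA` has only two terms -/
lemma Hy.ueA (hal : Stmt_ALP) (h : Hy t G A B R eA eB u v ν ϑ) {x : V} (hx : x ∈ R) :
    Un G R eB eA (2 * t + 2) x * eA x =
      al G R eB (2 * t + 1) x * al G R eA 1 x + al G R eA (2 * t + 2) x * al G R eA 1 x := by
  have e0 : eA x = tm G R eA eB 0 x := (tm_zero eA eB hx).symm
  have e1 : al G R eA 1 x = tm G R eA eB 0 x := by
    unfold tm
    rw [if_pos (by decide)]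
  rw [e1, ← e0]
  unfold Un
  rw [Finset.sum_range_succ, Finset.sum_range_succ, add_mul, add_mul, Finset.sum_mul]
  have h1 : ∑ j ∈ Finset.range (2 * t), tm G R eB eA j x * eA x = 0 := by
    refine Finset.sum_eq_zero fun j hj => ?_
    rw [Finset.mem_range] at hj
    rw [e0]
    exact h.tmv hal j 0 x (by omega)
  have h2 : tm G R eB eA (2 * t) x = al G R eB (2 * t + 1) x := by
    unfold tm
    rw [if_pos ⟨t, by omega⟩]
  have h3 : tm G R eB eA (2 * t + 1) x = al G R eA (2 * t + 2) x := by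
    unfold tm
    rw [if_neg]
    intro he
    rcases he with ⟨r, hr⟩
    omega
  rw [h1, h2, h3, zero_add]

lemma Hy.third (hal : Stmt_ALP) (h : Hy t G A B R eA eB u v ν ϑ) {x : V} (hx : x ∈ R)
    (h0 : 0 < eA x) : Un G R eB eA (2 * t + 2) x =
      aP G R eB (2 * t) x + aP G R eA (2 * t + 1) x := by
  obtain ⟨p1, -, -, -, -, -, -, -⟩ := hal V G R
  have h1 := h.ueA hal hx
  have e1 : al G R eA 1 x = eA x := by
    show R.indicator eA x = eA x
    rw [Set.indicator_of_mem hx]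
  rw [e1, ← add_mul] at h1
  have h2 := mul_right_cancel₀ h0.ne' h1
  rw [h2, ← p1 eB (2 * t) x hx, ← p1 eA (2 * t + 1) x hx]

/-- averages of `U eA` -/
lemma Hy.second (hal : Stmt_ALP) (h : Hy t G A B R eA eB u v ν ϑ) :
    avS R (fun x => Un G R eB eA (2 * t + 2) x * eA x) =
      PS G R (2 * t + 1) (wI t eA eB) + PS G R (2 * t + 2) (wC t eA) := by
  obtain ⟨-, -, -, -, -, p6, -, -⟩ := hal V G R
  have e1 : avS R (fun x => Un G R eB eA (2 * t + 2) x * eA x) =
      avS R (fun x => al G R eB (2 * t + 1) x * al G R eA 1 x +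
        al G R eA (2 * t + 2) x * al G R eA 1 x) := avS_congr fun x hx => h.ueA hal hx
  rw [e1, avS_add]
  have e2 := p6 eB eA R (2 * t) 0
  have e3 := p6 eA eA R (2 * t + 1) 0
  have f2 : avS R (fun x => al G R eB (2 * t + 1) x * al G R eA 1 x) =
      PS G R (2 * t + 1) (wI t eA eB) := by
    refine Eq.trans e2 ?_
    refine PS_congr fun y hy => ?_
    rw [Set.indicator_of_mem (hy.1 _), mul_one]
    rfl
  have f3 : avS R (fun x => al G R eA (2 * t + 2) x * al G R eA 1 x) =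
      PS G R (2 * t + 2) (wC t eA) := by
    refine Eq.trans e3 ?_
    refine PS_congr fun y hy => ?_
    rw [Set.indicator_of_mem (hy.1 _), mul_one]
    rfl
  rw [f2, f3]

lemma Hy.second' (hal : Stmt_ALP) (h : Hy t G A B R eA eB u v ν ϑ) :
    avS R (fun x => Un G R eB eA (2 * t + 2) x * eA x + Un G R eA eB (2 * t + 2) x * eB x) =
      Zf t G R eA eB := by
  have e1 : PS G R (2 * t + 1) (wI t eB eA) = PS G R (2 * t + 1) (wI t eA eB) := by
    rw [← PS_rev (wI t eA eB)]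
    refine PS_congr fun y _ => ?_
    rw [wI_rev]
  rw [avS_add, h.second hal, h.swap.second hal, e1]
  unfold Zf
  rw [PS_add]
  ring


lemma Hy.Dg0 (hal : Stmt_ALP) (h : Hy t G A B R eA eB u v ν ϑ) (x : V) :
    0 ≤ Dg t G R eA eB x := by
  obtain ⟨-, -, p3, -, -, -, -, -⟩ := hal V G R
  have qA := p3 eA (fun x _ => (h.hA x).1)
  have qB := p3 eB (fun x _ => (h.hB x).1)
  unfold Dg
  have a1 : 0 ≤ ∑ l ∈ Finset.Icc 1 (2 * t + 1), al G R eB l x * al G R eA (2 * t + 2 - l) x :=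
    Finset.sum_nonneg fun l _ => mul_nonneg (qB _ _) (qA _ _)
  have a2 : 0 ≤ ∑ l ∈ Finset.Icc 1 (2 * t + 2), al G R eA l x * al G R eA (2 * t + 3 - l) x :=
    Finset.sum_nonneg fun l _ => mul_nonneg (qA _ _) (qA _ _)
  have a3 : 0 ≤ ∑ l ∈ Finset.Icc 1 (2 * t + 2), al G R eB l x * al G R eB (2 * t + 3 - l) x :=
    Finset.sum_nonneg fun l _ => mul_nonneg (qB _ _) (qB _ _)
  linarith

/-- the constant -/
noncomputable def M1 (t : ℕ) : ℝ :=
  2 ^ (2 * t + 2) * (2 * (((2 * t + 2 : ℕ) : ℝ) * (2 * 2 ^ (2 * t + 2))) + 2 ^ (2 * t + 2)) +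
    ((2 * t + 2 : ℕ) : ℝ) * (((2 * t + 2 : ℕ) : ℝ) * (4 * 2 ^ (2 * t) * 2 ^ (2 * t + 2)))

lemma M1_nonneg (t : ℕ) : 0 ≤ M1 t := by
  unfold M1
  positivity

lemma Hy.prod2 (hal : Stmt_ALP) (h : Hy t G A B R eA eB u v ν ϑ) (x : V) :
    (Un G R eB eA (2 * t + 2) x + (2 * ms R) ^ (2 * t + 2)) *
      (Un G R eA eB (2 * t + 2) x + (2 * ms R) ^ (2 * t + 2)) ≤
    Dg t G R eA eB x + M1 t * ms R ^ (2 * t + 2) := by
  have hr0 := ms_nonneg R
  have hr1 := ms_le_one R
  have k1 := (h.prod hal x).2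
  have k2 := Un_bd h hal (2 * t + 2) x
  have k3 := Un_bd h.swap hal (2 * t + 2) x
  rw [mul_pow] at k1 ⊢
  unfold M1
  set N : ℝ := ((2 * t + 2 : ℕ) : ℝ) with hN
  set U := Un G R eB eA (2 * t + 2) x with hU
  set W := Un G R eA eB (2 * t + 2) x with hW
  set s : ℝ := ms R ^ (2 * t + 2) with hs
  have hs0 : 0 ≤ s := pow_nonneg hr0 _
  have hs1 : s ≤ 1 := pow_le_one₀ hr0 hr1
  set T : ℝ := (2 : ℝ) ^ (2 * t + 2) with hT
  have hT0 : 0 ≤ T := by positivity
  have e1 : (U + T * s) * (W + T * s) = U * W + (T * s) * (U + W) + (T * s) * (T * s) := by ring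
  have e2 : (T * s) * (U + W) ≤ (T * s) * (2 * (N * (2 * T))) :=
    mul_le_mul_of_nonneg_left (by linarith [k2.2, k3.2]) (mul_nonneg hT0 hs0)
  have e3 : (T * s) * (T * s) ≤ (T * s) * T := by
    refine mul_le_mul_of_nonneg_left ?_ (mul_nonneg hT0 hs0)
    calc T * s ≤ T * 1 := mul_le_mul_of_nonneg_left hs1 hT0
      _ = T := mul_one T
  rw [e1]
  nlinarith

end EXP_

open EXP_ in
theorem exp_proof (h1 : Stmt_ALP) : Stmt_EXP := by
  intro t
  have hM1 := M1_nonneg t
  set N : ℝ := ((2 * t + 2 : ℕ) : ℝ) with hN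
  have hN0 : 0 ≤ N := Nat.cast_nonneg _
  have hT1 : (1 : ℝ) ≤ 2 ^ (2 * t + 2) := one_le_pow₀ (by norm_num)
  set T : ℝ := (2 : ℝ) ^ (2 * t + 2) with hT
  refine ⟨16 * N + 2 * M1 t + 8 * T + 2, by linarith, ?_⟩
  set M : ℝ := 16 * N + 2 * M1 t + 8 * T + 2 with hM
  intro V _ _ G A B R eA eB u v ν ϑ og cor hA hB pA pB t0 t1 n0 n1 n2 huv heu hev
  have hMpos : 0 < M := by linarith
  have hMt : M * ϑ ≤ 1 := by
    have := mul_le_mul_of_nonneg_left t1 hMpos.le
    rwa [mul_one_div_cancel hMpos.ne'] at this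
  have hNt : 16 * N * ϑ ≤ 1 := by
    have : 16 * N * ϑ ≤ M * ϑ := mul_le_mul_of_nonneg_right (by linarith) t0
    linarith
  have ht2 : ϑ ≤ 1 / 2 := by
    have : 2 * ϑ ≤ M * ϑ := mul_le_mul_of_nonneg_right (by linarith) t0
    linarith
  have hy : Hy t G A B R eA eB u v ν ϑ :=
    ⟨og, cor, hA, hB, pA, pB, t0, ht2, n0, n1, n2, huv, heu, hev⟩
  have hr0 := ms_nonneg R
  have hr1 := ms_le_one R
  set n : ℕ := 2 * t + 2 with hn
  have hnt : 0 ≤ N * ϑ := mul_nonneg hN0 t0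
  -- powers
  have q1 : (1 + 4 * ϑ) ^ n ≤ 1 + 8 * N * ϑ := by
    have := pow_le_lin (4 * ϑ) (by linarith) n (by rw [← hN]; nlinarith)
    rw [← hN] at this
    linarith
  have q2 : (1 + 4 * ϑ) ^ n * (1 + 4 * ϑ) ^ n ≤ 1 + 16 * N * ϑ := by
    have := pow_le_lin (4 * ϑ) (by linarith) (n + n) (by push_cast; rw [← hN]; nlinarith)
    rw [pow_add] at this
    push_cast at this
    rw [← hN] at this
    linarith
  have q3 : (1 + ϑ) ^ n ≤ 1 + 2 * N * ϑ := by
    have := pow_le_lin ϑ t0 n (by rw [← hN]; nlinarith)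
    rw [← hN] at this
    linarith
  have q4 : (1 + ϑ) ^ n * (1 + ϑ) ^ n ≤ 1 + 4 * N * ϑ := by
    have := pow_le_lin ϑ t0 (n + n) (by push_cast; rw [← hN]; nlinarith)
    rw [pow_add] at this
    push_cast at this
    rw [← hN] at this
    linarith
  have hU := (hy.low n).1
  have hW := (hy.low n).2
  have gU := (hy.upp n).1
  have gW := (hy.upp n).2
  have hρ : (2 * ms R) ^ n = T * ms R ^ n := by rw [mul_pow]
  have hrn0 : 0 ≤ ms R ^ n := pow_nonneg hr0 _
  have hone : ∀ c : ℝ, 0 ≤ c → c ≤ M → ∀ X Z : ℝ, 0 ≤ X → 0 ≤ Z → Z ≤ (1 + c * ϑ) * X →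
      (1 - M * ϑ) * Z ≤ X := by
    intro c hc0 hcM X Z hX hZ hZX
    have a1 : (1 - M * ϑ) * Z ≤ (1 - M * ϑ) * ((1 + c * ϑ) * X) :=
      mul_le_mul_of_nonneg_left hZX (by linarith)
    have a2 : (1 - M * ϑ) * (1 + c * ϑ) ≤ 1 := by
      have b1 : c * ϑ ≤ M * ϑ := mul_le_mul_of_nonneg_right hcM t0
      have b2 : 0 ≤ M * ϑ * (c * ϑ) :=
        mul_nonneg (mul_nonneg hMpos.le t0) (mul_nonneg hc0 t0)
      nlinarith
    calc (1 - M * ϑ) * Z ≤ _ := a1
      _ = ((1 - M * ϑ) * (1 + c * ϑ)) * X := by ring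
      _ ≤ 1 * X := mul_le_mul_of_nonneg_right a2 hX
      _ = X := one_mul X
  refine ⟨?_, ?_, ?_, ?_⟩
  · intro S hS
    have hX : 0 ≤ avS S (fun x => u x * v x) :=
      avS_nonneg fun x hx => mul_nonneg (huv x (hS hx)).1.le (huv x (hS hx)).2.2.1.le
    have hK : 0 ≤ Kf t G R eA eB S := by
      rw [← avS_Dg h1]
      exact avS_nonneg fun x _ => hy.Dg0 h1 x
    constructor
    · refine hone (4 * N) (by linarith) (by linarith) _ _ hX hK ?_
      rw [← avS_Dg h1, ← avS_mul_left]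
      refine avS_mono fun x hx => ?_
      have b1 := (hy.prod h1 x).1
      have b2 : Un G R eB eA n x * Un G R eA eB n x ≤
          ((1 + ϑ) ^ n * u x) * ((1 + ϑ) ^ n * v x) :=
        mul_le_mul (hU x (hS hx)) (hW x (hS hx)) (Un_bd hy.swap h1 n x).1
          (mul_nonneg (pow_nonneg (by linarith) _) (huv x (hS hx)).1.le)
      have b3 : 0 ≤ u x * v x := mul_nonneg (huv x (hS hx)).1.le (huv x (hS hx)).2.2.1.le
      calc Dg t G R eA eB x ≤ Un G R eB eA n x * Un G R eA eB n x := b1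
        _ ≤ ((1 + ϑ) ^ n * u x) * ((1 + ϑ) ^ n * v x) := b2
        _ = ((1 + ϑ) ^ n * (1 + ϑ) ^ n) * (u x * v x) := by ring
        _ ≤ (1 + 4 * N * ϑ) * (u x * v x) := mul_le_mul_of_nonneg_right q4 b3
    · have hms := ms_nonneg S
      have b1 : avS S (fun x => u x * v x) ≤
          avS S (fun x => (1 + 16 * N * ϑ) * (Dg t G R eA eB x + M1 t * ms R ^ n)) := by
        refine avS_mono fun x hx => ?_
        have c1 := gU x (hS hx)
        have c2 := gW x (hS hx)
        have c3 := hy.prod2 h1 x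
        have c4 : 0 ≤ Dg t G R eA eB x + M1 t * ms R ^ n :=
          add_nonneg (hy.Dg0 h1 x) (mul_nonneg hM1 hrn0)
        have c5 : 0 ≤ (1 + 4 * ϑ) ^ n := pow_nonneg (by linarith) _
        calc u x * v x ≤ ((1 + 4 * ϑ) ^ n * (Un G R eB eA n x + (2 * ms R) ^ n)) *
              ((1 + 4 * ϑ) ^ n * (Un G R eA eB n x + (2 * ms R) ^ n)) :=
              mul_le_mul c1 c2 (huv x (hS hx)).2.2.1.le (mul_nonneg c5
                (add_nonneg (Un_bd hy h1 n x).1 (pow_nonneg (by linarith) _)))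
          _ = ((1 + 4 * ϑ) ^ n * (1 + 4 * ϑ) ^ n) * ((Un G R eB eA n x + (2 * ms R) ^ n) *
              (Un G R eA eB n x + (2 * ms R) ^ n)) := by ring
          _ ≤ ((1 + 4 * ϑ) ^ n * (1 + 4 * ϑ) ^ n) * (Dg t G R eA eB x + M1 t * ms R ^ n) :=
              mul_le_mul_of_nonneg_left c3 (mul_nonneg c5 c5)
          _ ≤ (1 + 16 * N * ϑ) * (Dg t G R eA eB x + M1 t * ms R ^ n) :=
              mul_le_mul_of_nonneg_right q2 c4
      rw [avS_mul_left, avS_add, avS_const, avS_Dg h1] at b1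
      refine b1.trans ?_
      have c1 : (1 + 16 * N * ϑ) * Kf t G R eA eB S ≤ (1 + M * ϑ) * Kf t G R eA eB S := by
        refine mul_le_mul_of_nonneg_right ?_ hK
        have : 16 * N * ϑ ≤ M * ϑ := mul_le_mul_of_nonneg_right (by linarith) t0
        linarith
      have c0 : 0 ≤ M1 t * ms R ^ n * ms S := mul_nonneg (mul_nonneg hM1 hrn0) hms
      have c2 : (1 + 16 * N * ϑ) * (M1 t * ms R ^ n * ms S) ≤ 2 * (M1 t * ms R ^ n * ms S) :=
        mul_le_mul_of_nonneg_right (by linarith) c0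
      have c3 : 2 * (M1 t * ms R ^ n * ms S) ≤ M * ms R ^ n * ms S := by
        have : 2 * M1 t * (ms R ^ n * ms S) ≤ M * (ms R ^ n * ms S) :=
          mul_le_mul_of_nonneg_right (by linarith) (mul_nonneg hrn0 hms)
        nlinarith
      nlinarith
  · have hX : 0 ≤ avS R (fun x => u x * eA x + v x * eB x) :=
      avS_nonneg fun x hx => add_nonneg (mul_nonneg (huv x hx).1.le (hA x).1)
        (mul_nonneg (huv x hx).2.2.1.le (hB x).1)
    have hZ : 0 ≤ Zf t G R eA eB := by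
      rw [← hy.second' h1]
      exact avS_nonneg fun x hx => add_nonneg (mul_nonneg (Un_bd hy h1 n x).1 (hA x).1)
        (mul_nonneg (Un_bd hy.swap h1 n x).1 (hB x).1)
    have hr3 : 0 ≤ ms R ^ (2 * t + 3) := pow_nonneg hr0 _
    have lo : (1 - M * ϑ) * Zf t G R eA eB ≤ avS R (fun x => u x * eA x + v x * eB x) := by
      refine hone (2 * N) (by linarith) (by linarith) _ _ hX hZ ?_
      rw [← hy.second' h1, ← avS_mul_left]
      refine avS_mono fun x hx => ?_
      have b1 := mul_le_mul_of_nonneg_right (hU x hx) (hA x).1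
      have b2 := mul_le_mul_of_nonneg_right (hW x hx) (hB x).1
      have b3 : 0 ≤ u x * eA x + v x * eB x := add_nonneg (mul_nonneg (huv x hx).1.le (hA x).1)
        (mul_nonneg (huv x hx).2.2.1.le (hB x).1)
      calc Un G R eB eA n x * eA x + Un G R eA eB n x * eB x
          ≤ (1 + ϑ) ^ n * u x * eA x + (1 + ϑ) ^ n * v x * eB x := add_le_add b1 b2
        _ = (1 + ϑ) ^ n * (u x * eA x + v x * eB x) := by ring
        _ ≤ (1 + 2 * N * ϑ) * (u x * eA x + v x * eB x) := mul_le_mul_of_nonneg_right q3 b3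
    have up : avS R (fun x => u x * eA x + v x * eB x) ≤
        (1 + 8 * N * ϑ) * (Zf t G R eA eB + 4 * (T * ms R ^ n) * ms R) := by
      rw [← hy.second' h1, ← avS_const, ← avS_add, ← avS_mul_left]
      refine avS_mono fun x hx => ?_
      have b1 := mul_le_mul_of_nonneg_right (gU x hx) (hA x).1
      have b2 := mul_le_mul_of_nonneg_right (gW x hx) (hB x).1
      have b4 : 0 ≤ Un G R eB eA n x * eA x + Un G R eA eB n x * eB x :=
        add_nonneg (mul_nonneg (Un_bd hy h1 n x).1 (hA x).1)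
          (mul_nonneg (Un_bd hy.swap h1 n x).1 (hB x).1)
      have b5 : 0 ≤ T * ms R ^ n := mul_nonneg (by linarith) hrn0
      have b6 : (T * ms R ^ n) * (eA x + eB x) ≤ (T * ms R ^ n) * 4 :=
        mul_le_mul_of_nonneg_left (by linarith [(hA x).2, (hB x).2]) b5
      rw [hρ] at b1 b2
      have c5 : 0 ≤ (1 + 4 * ϑ) ^ n := pow_nonneg (by linarith) _
      calc u x * eA x + v x * eB x
          ≤ (1 + 4 * ϑ) ^ n * (Un G R eB eA n x + T * ms R ^ n) * eA x +
            (1 + 4 * ϑ) ^ n * (Un G R eA eB n x + T * ms R ^ n) * eB x := add_le_add b1 b2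
        _ = (1 + 4 * ϑ) ^ n * ((Un G R eB eA n x * eA x + Un G R eA eB n x * eB x) +
            (T * ms R ^ n) * (eA x + eB x)) := by ring
        _ ≤ (1 + 4 * ϑ) ^ n * ((Un G R eB eA n x * eA x + Un G R eA eB n x * eB x) +
            4 * (T * ms R ^ n)) := mul_le_mul_of_nonneg_left (by linarith) c5
        _ ≤ (1 + 8 * N * ϑ) * ((Un G R eB eA n x * eA x + Un G R eA eB n x * eB x) +
            4 * (T * ms R ^ n)) := mul_le_mul_of_nonneg_right q1 (by linarith)
    have er : ms R ^ n * ms R = ms R ^ (2 * t + 3) := by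
      rw [← pow_succ]
    have e4 : 4 * (T * ms R ^ n) * ms R = 4 * T * ms R ^ (2 * t + 3) := by
      rw [← er]
      ring
    rw [e4] at up
    rw [abs_le]
    have d1 : 8 * N * ϑ * Zf t G R eA eB ≤ M * ϑ * Zf t G R eA eB := by
      refine mul_le_mul_of_nonneg_right ?_ hZ
      exact mul_le_mul_of_nonneg_right (by linarith) t0
    have d2 : (1 + 8 * N * ϑ) * (4 * T * ms R ^ (2 * t + 3)) ≤
        2 * (4 * T * ms R ^ (2 * t + 3)) :=
      mul_le_mul_of_nonneg_right (by linarith) (mul_nonneg (by linarith) hr3)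
    have d3 : 8 * T * ms R ^ (2 * t + 3) ≤ M * ms R ^ (2 * t + 3) :=
      mul_le_mul_of_nonneg_right (by linarith) hr3
    have d4 : 0 ≤ M * ms R ^ (2 * t + 3) := mul_nonneg hMpos.le hr3
    constructor
    · linarith
    · linarith
  · intro x hx h0
    have e1 := hy.third h1 hx h0
    have b1 := gU x hx
    rw [e1, hρ] at b1
    have b2 := (Un_bd hy h1 n x).1
    rw [e1] at b2
    refine b1.trans ?_
    have b5 : 0 ≤ T * ms R ^ n := mul_nonneg (by linarith) hrn0
    set s := aP G R eB (2 * t) x + aP G R eA (2 * t + 1) x with hs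
    have c1 : (1 + 4 * ϑ) ^ n * (s + T * ms R ^ n) ≤ (1 + 8 * N * ϑ) * (s + T * ms R ^ n) :=
      mul_le_mul_of_nonneg_right q1 (by linarith)
    have c2 : 8 * N * ϑ * s ≤ M * ϑ * s := by
      refine mul_le_mul_of_nonneg_right ?_ b2
      exact mul_le_mul_of_nonneg_right (by linarith) t0
    have c3 : (1 + 8 * N * ϑ) * (T * ms R ^ n) ≤ 2 * (T * ms R ^ n) :=
      mul_le_mul_of_nonneg_right (by linarith) b5
    have c4 : 2 * T * ms R ^ n ≤ M * ms R ^ n := mul_le_mul_of_nonneg_right (by linarith) hrn0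
    linarith
  · intro x hx h0
    have e1 := hy.swap.third h1 hx h0
    have b1 := gW x hx
    rw [e1, hρ] at b1
    have b2 := (Un_bd hy.swap h1 n x).1
    rw [e1] at b2
    refine b1.trans ?_
    have b5 : 0 ≤ T * ms R ^ n := mul_nonneg (by linarith) hrn0
    set s := aP G R eA (2 * t) x + aP G R eB (2 * t + 1) x with hs
    have c1 : (1 + 4 * ϑ) ^ n * (s + T * ms R ^ n) ≤ (1 + 8 * N * ϑ) * (s + T * ms R ^ n) :=
      mul_le_mul_of_nonneg_right q1 (by linarith)
    have c2 : 8 * N * ϑ * s ≤ M * ϑ * s := by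
      refine mul_le_mul_of_nonneg_right ?_ b2
      exact mul_le_mul_of_nonneg_right (by linarith) t0
    have c3 : (1 + 8 * N * ϑ) * (T * ms R ^ n) ≤ 2 * (T * ms R ^ n) :=
      mul_le_mul_of_nonneg_right (by linarith) b5
    have c4 : 2 * T * ms R ^ n ≤ M * ms R ^ n := mul_le_mul_of_nonneg_right (by linarith) hrn0
    linarith

end Pool.Agent.OCX
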