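import Pool.Agent.OCX.Stmts
import Pool.Agent.OCX.Lib

/-! Module FB: the elementary bound for the end factors of crossings of type II. -/

set_option autoImplicit false

namespace Pool.Agent.OCX

namespace FB_

theorem reduce {q a b h : ℝ} (hq : 0 < q) (hq4 : q ≤ 1 / 4) (ha : 0 ≤ a) (hb : 0 ≤ b) (hh : 0 ≤ h)
    (hX : 0 ≤ 1 - (a + b + 2 * h) ^ 2 + a * b * (a * b - 8 * q / 15)) :
    a * b ≤ 1 / 2 * (1 - q / 4) * ((1 - (a + h) ^ 2) * (1 - (b + h) ^ 2)) := by
  have hp : 0 ≤ a * b := mul_nonneg ha hb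
  have e1 : (1 + a * b) ^ 2 - (a + b + 2 * h) ^ 2 ≤ (1 - (a + h) ^ 2) * (1 - (b + h) ^ 2) := by
    have e2 : (1 - (a + h) ^ 2) * (1 - (b + h) ^ 2) =
        (1 + (a + h) * (b + h)) ^ 2 - (a + b + 2 * h) ^ 2 := by ring
    have e3 : a * b ≤ (a + h) * (b + h) := mul_le_mul (by linarith) (by linarith) hb (by linarith)
    have e4 : (1 + a * b) ^ 2 ≤ (1 + (a + h) * (b + h)) ^ 2 :=
      pow_le_pow_left₀ (by linarith) (by linarith) 2
    linarith
  have e5 : 0 ≤ 1 / 2 * (1 - q / 4) := by linarith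
  refine le_trans ?_ (mul_le_mul_of_nonneg_left e1 e5)
  have e6 : 1 - (a + b + 2 * h) ^ 2 + (a * b) ^ 2 ≥ 8 * q / 15 * (a * b) := by nlinarith
  have e7 : (1 - q / 4) * (8 * q / 15) ≥ q / 2 := by nlinarith
  have e8 : (1 - q / 4) * (1 - (a + b + 2 * h) ^ 2 + (a * b) ^ 2) ≥ q / 2 * (a * b) := by
    have e9 := mul_le_mul_of_nonneg_left e6.le (by linarith : 0 ≤ 1 - q / 4)
    have e10 := mul_le_mul_of_nonneg_right e7.le hp
    linarith
  nlinarith

end FB_

open FB_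

theorem fb_proof : Stmt_FB := by
  intro q hq hq4
  refine ⟨q ^ 2 / 120, by positivity, ?_⟩
  intro a b ha hb haM hbM hs
  set h : ℝ := q ^ 2 / 120 with hh
  have hh0 : 0 ≤ h := by positivity
  have hq2 : q ^ 2 ≤ q / 4 := by nlinarith
  have hhq : h ≤ q / 480 := by
    rw [hh]
    linarith
  have hh1 : h ≤ 1 / 1920 := by linarith
  refine reduce hq hq4 ha hb hh0 ?_
  have hp : 0 ≤ a * b := mul_nonneg ha hb
  by_cases hc : a + b < 1 - q / 8
  · have e1 : (a + b + 2 * h) ^ 2 ≤ 1 - q / 8 + 2 * h := by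
      have e2 : 0 ≤ a + b + 2 * h := by linarith
      have e3 : a + b + 2 * h ≤ 1 - q / 8 + 2 * h := by linarith
      have e4 : 1 - q / 8 + 2 * h ≤ 1 := by linarith
      nlinarith
    have e5 : a * b * (a * b - 8 * q / 15) ≥ -(16 * q ^ 2 / 225) := by
      nlinarith [sq_nonneg (a * b - 4 * q / 15)]
    nlinarith
  · push Not at hc
    have e1 : (1 - q + h) * (a + b - (1 - q + h)) ≤ a * b := by
      nlinarith [mul_nonneg (sub_nonneg.mpr haM) (sub_nonneg.mpr hbM)]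
    have e2 : 13 / 20 * q ≤ a * b := by
      refine le_trans ?_ e1
      have e3 : 3 / 4 ≤ 1 - q + h := by linarith
      have e4 : 7 * q / 8 - q / 480 ≤ a + b - (1 - q + h) := by linarith
      have e5 := mul_le_mul e3 e4 (by linarith) (by linarith)
      linarith
    have e6 : 91 / 1200 * q ^ 2 ≤ a * b * (a * b - 8 * q / 15) := by
      have e7 : 7 / 60 * q ≤ a * b - 8 * q / 15 := by linarith
      have e8 := mul_le_mul e2 e7 (by positivity) hp
      linarith
    have e9 : (a + b + 2 * h) ^ 2 ≤ (1 + 3 * h) ^ 2 :=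
      pow_le_pow_left₀ (by linarith) (by linarith) 2
    have e10 : (1 + 3 * h) ^ 2 ≤ 1 + 7 * h := by nlinarith
    have e11 : 7 * h = 7 * q ^ 2 / 120 := by
      rw [hh]
      ring
    have e12 : 0 ≤ q ^ 2 := sq_nonneg q
    linarith

end Pool.Agent.OCX
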