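import Pool.Agent.OCX.Stmts
import Pool.Agent.OCX.Lib

/-!
# Odd cycles: FEX, smallness of the error terms and the flux, before bootstrapping
-/

open scoped BigOperators

namespace Pool.Agent.OCX

namespace FEX_

theorem smallness (t : ℕ) {s c : ℝ} (hs : 0 < s) (hc : 0 < c) : ∃ k0 : ℕ, 1 ≤ k0 ∧ ∀ k : ℕ,
    k0 ≤ k → (t + 1) * Real.log k / k ≤ c ∧ 1 / (k : ℝ) ≤ s ∧
      ∀ δ : ℝ, δ ^ 3 * k ≤ 1 → δ ≤ s := by
  have h1 : Filter.Tendsto (fun k : ℕ => ((t : ℝ) + 1) * (Real.log k / k)) Filter.atTop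
      (nhds 0) := by
    have h2 : Filter.Tendsto (fun x : ℝ => Real.log x / x) Filter.atTop (nhds 0) :=
      Real.isLittleO_log_id_atTop.tendsto_div_nhds_zero
    have h3 := (h2.comp tendsto_natCast_atTop_atTop).const_mul ((t : ℝ) + 1)
    rw [mul_zero] at h3
    exact h3
  have h4 := h1.eventually (gt_mem_nhds hc)
  rw [Filter.eventually_atTop] at h4
  obtain ⟨a, ha⟩ := h4
  obtain ⟨b, hb⟩ := exists_nat_ge (1 / s)
  obtain ⟨d, hd⟩ := exists_nat_ge (1 / s ^ 3)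
  refine ⟨max (max a b) (max d 1), le_max_of_le_right (le_max_right _ _), fun k hk => ?_⟩
  have ka : a ≤ k := (le_max_left a b).trans ((le_max_left _ _).trans hk)
  have kb : b ≤ k := (le_max_right a b).trans ((le_max_left _ _).trans hk)
  have kd : d ≤ k := (le_max_left d 1).trans ((le_max_right _ _).trans hk)
  have k1 : 1 ≤ k := (le_max_right d 1).trans ((le_max_right _ _).trans hk)
  have hk0 : (0 : ℝ) < k := by exact_mod_cast k1
  refine ⟨?_, ?_, ?_⟩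
  · have := (ha k ka).le
    rw [mul_div_assoc]
    exact this
  · have h5 : 1 / s ≤ k := hb.trans (by exact_mod_cast kb)
    rw [div_le_iff₀ hs] at h5
    rw [div_le_iff₀ hk0]
    linarith
  · intro δ hδ
    have h5 : 1 / s ^ 3 ≤ k := hd.trans (by exact_mod_cast kd)
    rw [div_le_iff₀ (by positivity)] at h5
    by_contra hcon
    push Not at hcon
    have h6 : s ^ 3 < δ ^ 3 := pow_lt_pow_left₀ hcon hs.le (by norm_num)
    nlinarith

variable {V : Type} [Fintype V] {G : SimpleGraph V} {t k : ℕ} {κ ρ θ s ν γ δ ξ : ℝ}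
  {u v : V → ℝ}

/-- the amplitude `u` is small on `B` -/
theorem smallB (hκ1 : κ ≤ 1 / 20) (hs : 0 < s) (hs1 : s ≤ 1 / 1000)
    (h : Sys t k ξ G ν γ δ u v) (hb : Bas t k κ G ν γ δ u v)
    (he : 1 / 2 - (ν + γ) ≤ s ^ 2) (hδ : δ ≤ s) (hk : 1 / (k : ℝ) ≤ s) :
    avS (cA κ v) (fun x => |u x|) ≤ 10 * s * δ := by
  have hne := h.ne
  set ε : ℝ := (1 / (k : ℝ)) ^ (10 * t + 20) with hε
  have hε0 : 0 ≤ ε := by positivity
  have hd := hb.d0
  have p1 : ∀ x ∈ cA κ v, |u x| ≤ δ * |om u v x| + ε := by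
    intro x hx
    have hx' : 1 - κ ≤ v x := hx
    have h1 := h.kkt x
    have h2 : |4 * u x * v x| ≤ |4 * u x * v x - δ * (1 - (u x - v x) ^ 2)| +
        |δ * (1 - (u x - v x) ^ 2)| := by
      have := abs_add_le (4 * u x * v x - δ * (1 - (u x - v x) ^ 2))
        (δ * (1 - (u x - v x) ^ 2))
      rwa [sub_add_cancel] at this
    rw [abs_mul δ, abs_of_pos hd] at h2
    have h3 : |4 * u x * v x| = 4 * |u x| * v x := by
      rw [abs_mul, abs_mul, abs_of_pos (by norm_num : (0 : ℝ) < 4),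
        abs_of_pos (by linarith : 0 < v x)]
    have h4 : |u x| ≤ 4 * |u x| * v x := by
      have := abs_nonneg (u x)
      nlinarith
    unfold om
    linarith
  have hsq : Real.sqrt (1 / 2 - (ν + γ)) ≤ s := Real.sqrt_le_iff.2 ⟨hs.le, he⟩
  calc avS (cA κ v) (fun x => |u x|) ≤ avS (cA κ v) (fun x => δ * |om u v x| + ε) :=
        avS_mono p1
    _ = δ * avS (cA κ v) (fun x => |om u v x|) + ε * ms (cA κ v) := by
        rw [avS_add, avS_mul_left, avS_const]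
    _ ≤ δ * av (fun x => |om u v x|) + ε * 1 := by
        refine add_le_add (mul_le_mul_of_nonneg_left ?_ hd.le)
          (mul_le_mul_of_nonneg_left (ms_le_one _) hε0)
        rw [← avS_univ]
        exact avS_mono_set (Set.subset_univ _) fun _ _ => abs_nonneg _
    _ ≤ δ * (5 * Real.sqrt (1 / 2 - (ν + γ)) + 4 * δ) + δ * (1 / (k : ℝ)) ^ 2 := by
        refine add_le_add (mul_le_mul_of_nonneg_left hb.ome hd.le) ?_
        rw [mul_one]
        exact hb.eps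
    _ ≤ δ * (5 * s + 4 * s) + δ * s := by
        have hk2 : (1 / (k : ℝ)) ^ 2 ≤ s := by
          have : 0 ≤ 1 / (k : ℝ) := by positivity
          nlinarith
        gcongr
    _ = 10 * s * δ := by ring

/-- lower bound of the amplitude `u` on `R` -/
theorem uge (hκ : 0 < κ) (_hρ : 0 < ρ) (hρ1 : ρ ≤ 1) (hs : 0 < s) (hsρ : s ≤ ρ / 1000)
    (h : Sys t k ξ G ν γ δ u v) (hb : Bas t k κ G ν γ δ u v) (hk : 1 / (k : ℝ) ≤ s)
    (ho : ∀ x ∈ cR κ u v, ρ ≤ om u v x) : ∀ x ∈ cR κ u v, δ * ρ / 5 ≤ u x := by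
  intro x hx
  have hd := hb.d0
  obtain ⟨q1, q2, _⟩ := hb.Rpos x hx
  have hx2 : v x < 1 - κ := hx.2
  have h1 := abs_le.1 (h.kkt x)
  have h2 := ho x hx
  unfold om at h2
  have h3 := hb.eps
  have hk2 : (1 / (k : ℝ)) ^ 2 ≤ ρ / 5 := by
    have : 0 ≤ 1 / (k : ℝ) := by positivity
    nlinarith
  have h4 : δ * (1 / (k : ℝ)) ^ 2 ≤ δ * (ρ / 5) := mul_le_mul_of_nonneg_left hk2 hd.le
  have h5 : δ * ρ ≤ δ * (1 - (u x - v x) ^ 2) := mul_le_mul_of_nonneg_left h2 hd.le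
  have h6 : u x * v x ≤ u x * 1 := mul_le_mul_of_nonneg_left (by linarith) q1.le
  nlinarith [h1.1]

/-- the equation for `u` on `R` -/
theorem eqR (hκ : 0 < κ) (hκ1 : κ ≤ 1 / 20) (hρ : 0 < ρ) (hρ1 : ρ ≤ 1) (hθ : 0 < θ)
    (hs : 0 < s) (hsρ : s ≤ ρ / 1000) (hsθ : s ≤ θ * ρ / 1000)
    (h : Sys t k ξ G ν γ δ u v) (hb : Bas t k κ G ν γ δ u v)
    (he : 1 / 2 - (ν + γ) ≤ s ^ 2) (hδ : δ ≤ s) (hk : 1 / (k : ℝ) ≤ s)
    (ho : ∀ x ∈ cR κ u v, ρ ≤ om u v x) : ∀ x ∈ cR κ u v,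
    |u x - (ee G ν (cA κ v) v x + avS (G.neighborSet x ∩ cR κ u v) v / ν)| ≤ θ * u x := by
  intro x hx
  have hd := hb.d0
  have hν : 0 < ν := by linarith [hb.nu]
  have hs1 : s ≤ 1 / 1000 := by linarith
  obtain ⟨q1, q2, _⟩ := hb.Rpos x hx
  have hx2 : v x < 1 - κ := hx.2
  have e1 := h.hv x
  unfold Wop at e1
  rw [avS_inter_three hb.cor (G.neighborSet x) v] at e1
  have b1 : |avS (G.neighborSet x ∩ cA κ u) v| ≤ 10 * s * δ := by
    have hsw := smallB hκ1 hs hs1 h.swap hb.swap he hδ hk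
    calc |avS (G.neighborSet x ∩ cA κ u) v| ≤
          avS (G.neighborSet x ∩ cA κ u) (fun y => |v y|) := abs_avS_le _ _
      _ ≤ avS (cA κ u) (fun y => |v y|) :=
          avS_mono_set Set.inter_subset_right fun _ _ => abs_nonneg _
      _ ≤ _ := hsw
  have hk0 : 0 ≤ 1 / (k : ℝ) := by positivity
  have b2 : γ ≤ δ * s := by
    have h1 := hb.gam2
    have h2 : δ * (1 + δ) * (ν + γ) / (2 * k) = δ * (1 + δ) * (ν + γ) * (1 / (k : ℝ)) / 2 := by
      rw [div_eq_mul_inv, mul_inv, one_div]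
      ring
    rw [h2] at h1
    have h3 : (1 + δ) * (ν + γ) ≤ 1 := by
      have := h.l2
      nlinarith
    have h4 : 0 ≤ (1 + δ) * (ν + γ) := by
      have := h.g0
      positivity
    calc γ ≤ δ * (1 + δ) * (ν + γ) * (1 / (k : ℝ)) / 2 := h1
      _ = δ * (((1 + δ) * (ν + γ)) * (1 / (k : ℝ))) / 2 := by ring
      _ ≤ δ * (1 * s) / 2 := by
          gcongr
      _ ≤ δ * s := by nlinarith [mul_pos hd hs]
  have b3 : |γ * v x| ≤ δ * s := by
    rw [abs_of_nonneg (mul_nonneg h.g0 q2.le)]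
    calc γ * v x ≤ γ * 1 := mul_le_mul_of_nonneg_left (by linarith) h.g0
      _ ≤ δ * s := by linarith
  have e2 : ν * (u x - (ee G ν (cA κ v) v x + avS (G.neighborSet x ∩ cR κ u v) v / ν)) =
      avS (G.neighborSet x ∩ cA κ u) v - γ * v x := by
    unfold ee
    have : ν * (u x - (avS (G.neighborSet x ∩ cA κ v) v / ν +
        avS (G.neighborSet x ∩ cR κ u v) v / ν)) = ν * u x -
        (avS (G.neighborSet x ∩ cA κ v) v + avS (G.neighborSet x ∩ cR κ u v) v) := by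
      field_simp
    rw [this]
    linarith
  have hu := uge hκ hρ hρ1 hs hsρ h hb hk ho x hx
  have e3 : |ν * (u x - (ee G ν (cA κ v) v x + avS (G.neighborSet x ∩ cR κ u v) v / ν))| ≤
      ν * (θ * u x) := by
    rw [e2]
    calc |avS (G.neighborSet x ∩ cA κ u) v - γ * v x| ≤
          |avS (G.neighborSet x ∩ cA κ u) v| + |γ * v x| := abs_sub _ _
      _ ≤ 10 * s * δ + δ * s := add_le_add b1 b3
      _ = 11 * s * δ := by ring
      _ ≤ 12 / 25 * (θ * (δ * ρ / 5)) := by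
          nlinarith [mul_le_mul_of_nonneg_left hsθ hd.le, mul_pos (mul_pos hθ hρ) hd]
      _ ≤ ν * (θ * u x) := by
          have := hb.nu
          gcongr
  rw [abs_mul, abs_of_pos hν] at e3
  exact le_of_mul_le_mul_left e3 hν

/-- the error terms of the flux -/
theorem fluxE (hκ : 0 < κ) (hκ1 : κ ≤ 1 / 20) (hs : 0 < s) (hs1 : s ≤ 1 / 1000)
    (h : Sys t k ξ G ν γ δ u v) (hb : Bas t k κ G ν γ δ u v)
    (he : 1 / 2 - (ν + γ) ≤ s ^ 2) (hδ : δ ≤ s) (hk : 1 / (k : ℝ) ≤ s) :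
    |avS (cR κ u v) (fun x => u x * avS (G.neighborSet x ∩ cA κ v) u)| ≤
      10 * s * δ * ms (cR κ u v) := by
  have hB := smallB hκ1 hs hs1 h hb he hδ hk
  refine (abs_avS_le _ _).trans (avS_le_mul_ms fun x hx => ?_)
  obtain ⟨q1, _, _⟩ := hb.Rpos x hx
  have hx1 : u x < 1 - κ := hx.1
  rw [abs_mul, abs_of_pos q1]
  have b1 : |avS (G.neighborSet x ∩ cA κ v) u| ≤ 10 * s * δ := by
    calc |avS (G.neighborSet x ∩ cA κ v) u| ≤
          avS (G.neighborSet x ∩ cA κ v) (fun y => |u y|) := abs_avS_le _ _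
      _ ≤ avS (cA κ v) (fun y => |u y|) :=
          avS_mono_set Set.inter_subset_right fun _ _ => abs_nonneg _
      _ ≤ _ := hB
  calc u x * |avS (G.neighborSet x ∩ cA κ v) u| ≤ 1 * |avS (G.neighborSet x ∩ cA κ v) u| :=
        mul_le_mul_of_nonneg_right (by linarith) (abs_nonneg _)
    _ ≤ 10 * s * δ := by
        rw [one_mul]
        exact b1

/-- bounds of the squares -/
theorem sqB (hs : 0 < s) (hb : Bas t k κ G ν γ δ u v) (hδ : δ ≤ s) :
    0 ≤ avS (cA κ v) (fun x => u x ^ 2) ∧ avS (cA κ v) (fun x => u x ^ 2) ≤ 4 * s ^ 2 := by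
  refine ⟨avS_nonneg fun x _ => sq_nonneg _, ?_⟩
  have hd := hb.d0
  have p : ∀ x ∈ cA κ v, u x ^ 2 ≤ 4 * s ^ 2 := by
    intro x hx
    have h1 := abs_le.1 (hb.uB x hx)
    nlinarith [h1.1, h1.2]
  calc avS (cA κ v) (fun x => u x ^ 2) ≤ 4 * s ^ 2 * ms (cA κ v) := avS_le_mul_ms p
    _ ≤ 4 * s ^ 2 * 1 := mul_le_mul_of_nonneg_left (ms_le_one _) (by positivity)
    _ = 4 * s ^ 2 := mul_one _

theorem sqR (hκ : 0 < κ) (hb : Bas t k κ G ν γ δ u v) :
    0 ≤ avS (cR κ u v) (fun x => u x ^ 2) ∧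
      avS (cR κ u v) (fun x => u x ^ 2) ≤ ms (cR κ u v) := by
  refine ⟨avS_nonneg fun x _ => sq_nonneg _, ?_⟩
  have p : ∀ x ∈ cR κ u v, u x ^ 2 ≤ 1 := by
    intro x hx
    obtain ⟨q1, _, _⟩ := hb.Rpos x hx
    have hx1 : u x < 1 - κ := hx.1
    nlinarith
  have := avS_le_mul_ms p
  linarith

end FEX_

open FEX_ in
theorem fex_proof (h1 : Stmt_BAS) (h2 : Stmt_FLX) : Stmt_FEX := by
  intro t κ ρ θ hκ hκ1 hρ hρ1 hθ
  obtain ⟨ka, hka⟩ := h1 t κ hκ hκ1
  set θ' : ℝ := min 1 θ with hθ'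
  have t0 : 0 < θ' := lt_min one_pos hθ
  have t1 : θ' ≤ 1 := min_le_left _ _
  have t2 : θ' ≤ θ := min_le_right _ _
  set s : ℝ := θ' * ρ / 1000 with hs
  have s0 : 0 < s := by positivity
  have sθ : s ≤ θ' / 1000 := by
    rw [hs]
    have : θ' * ρ ≤ θ' * 1 := mul_le_mul_of_nonneg_left hρ1 t0.le
    linarith
  have sρ : s ≤ ρ / 1000 := by
    rw [hs]
    have : θ' * ρ ≤ 1 * ρ := mul_le_mul_of_nonneg_right t1 hρ.le
    linarith
  have sθρ : s ≤ θ * ρ / 1000 := by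
    rw [hs]
    have : θ' * ρ ≤ θ * ρ := mul_le_mul_of_nonneg_right t2 hρ.le
    linarith
  have s1 : s ≤ 1 / 1000 := by linarith
  obtain ⟨kb, kb1, hkb⟩ := smallness t s0 (c := s ^ 2 * κ ^ 2 / 16) (by positivity)
  refine ⟨max ka kb, fun k hk V _ G ν γ δ ξ u v hξ h ho => ?_⟩
  have hb := hka k ((le_max_left _ _).trans hk) V G ν γ δ ξ u v hξ h
  obtain ⟨m1, m2, m3⟩ := hkb k ((le_max_right _ _).trans hk)
  have hk1 : 1 ≤ k := kb1.trans ((le_max_right _ _).trans hk)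
  have hk0 : (0 : ℝ) < k := by exact_mod_cast hk1
  have hδ : δ ≤ s := m3 δ h.dsm
  have hd := hb.d0
  have hν : 0 < ν := by linarith [hb.nu]
  have he' : 1 / 2 - (ν + γ) ≤ s ^ 2 * κ ^ 2 / 16 := hb.eta.trans m1
  have he : 1 / 2 - (ν + γ) ≤ s ^ 2 := by
    have : s ^ 2 * κ ^ 2 ≤ s ^ 2 * 1 := mul_le_mul_of_nonneg_left (by nlinarith) (by positivity)
    nlinarith [sq_nonneg s]
  have hr : ms (cR κ u v) ≤ s ^ 2 := by
    refine hb.msR.trans ?_
    rw [div_le_iff₀ (by positivity)]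
    linarith
  have hr0 : 0 ≤ ms (cR κ u v) := ms_nonneg _
  have hγ : γ ≤ δ * s := by
    have h1 := hb.gam2
    have h2 : δ * (1 + δ) * (ν + γ) / (2 * k) = δ * (1 + δ) * (ν + γ) * (1 / (k : ℝ)) / 2 := by
      rw [div_eq_mul_inv, mul_inv, one_div]
      ring
    rw [h2] at h1
    have h3 : (1 + δ) * (ν + γ) ≤ 1 := by
      have := h.l2
      nlinarith
    have h4 : 0 ≤ (1 + δ) * (ν + γ) := by
      have := h.g0
      positivity
    calc γ ≤ δ * (1 + δ) * (ν + γ) * (1 / (k : ℝ)) / 2 := h1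
      _ = δ * (((1 + δ) * (ν + γ)) * (1 / (k : ℝ))) / 2 := by ring
      _ ≤ δ * (1 * s) / 2 := by
          gcongr
      _ ≤ δ * s := by nlinarith [mul_pos hd s0]
  refine ⟨?_, eqR hκ hκ1 hρ hρ1 hθ s0 sρ sθρ h hb he hδ m2 ho, ?_, ?_⟩
  · rw [div_le_iff₀ hν]
    have n1 : 1 / 2 - s ≤ ν := by nlinarith
    nlinarith
  · have ho' : ∀ x ∈ cR κ v u, ρ ≤ om v u x := by
      rw [cR_comm, om_comm]
      exact ho
    have := eqR hκ hκ1 hρ hρ1 hθ s0 sρ sθρ h.swap hb.swap he hδ m2 ho'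
    rw [cR_comm κ v u] at this
    exact this
  · have f1 := h2 V G ν γ u v (cA κ u) (cA κ v) (cR κ u v) h.hu hb.cor
    have f2 := h2 V G ν γ v u (cA κ v) (cA κ u) (cR κ u v) h.hv hb.cor.swap
    have c1 : avS (cA κ u) (fun x => v x * u x) = avS (cA κ u) (fun x => u x * v x) :=
      avS_congr fun x _ => mul_comm _ _
    have c2 : avS (cA κ v) (fun x => v x * u x) = avS (cA κ v) (fun x => u x * v x) :=
      avS_congr fun x _ => mul_comm _ _
    rw [c1, c2] at f2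
    have g1 : ν * avS (cR κ u v) (fun x => u x * ee G ν (cA κ u) u x +
        v x * ee G ν (cA κ v) v x) =
        avS (cR κ u v) (fun x => u x * avS (G.neighborSet x ∩ cA κ u) u) +
        avS (cR κ u v) (fun x => v x * avS (G.neighborSet x ∩ cA κ v) v) := by
      rw [← avS_mul_left, ← avS_add]
      refine avS_congr fun x _ => ?_
      unfold ee
      field_simp
    have r1 := fluxE hκ hκ1 s0 s1 h hb he hδ m2
    have r2 := fluxE hκ hκ1 s0 s1 h.swap hb.swap he hδ m2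
    rw [cR_comm κ v u] at r2
    have u2 : avS (cA κ u) (fun x => u x ^ 2) + avS (cA κ v) (fun x => u x ^ 2) +
        avS (cR κ u v) (fun x => u x ^ 2) = 1 / 2 := by
      rw [← avS_three hb.cor]
      exact h.u2
    have v2 : avS (cA κ u) (fun x => v x ^ 2) + avS (cA κ v) (fun x => v x ^ 2) +
        avS (cR κ u v) (fun x => v x ^ 2) = 1 / 2 := by
      rw [← avS_three hb.cor]
      exact h.v2
    obtain ⟨a1, a2⟩ := sqB s0 hb hδ
    obtain ⟨a3, a4⟩ := sqB s0 hb.swap hδ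
    obtain ⟨a5, a6⟩ := sqR hκ hb
    obtain ⟨a7, a8⟩ := sqR hκ hb.swap
    rw [cR_comm κ v u] at a7 a8
    rw [g1]
    set Auu := avS (cA κ u) (fun x => u x ^ 2)
    set Buu := avS (cA κ v) (fun x => u x ^ 2)
    set Ruu := avS (cR κ u v) (fun x => u x ^ 2)
    set Avv := avS (cA κ u) (fun x => v x ^ 2)
    set Bvv := avS (cA κ v) (fun x => v x ^ 2)
    set Rvv := avS (cR κ u v) (fun x => v x ^ 2)
    set P1 := avS (cR κ u v) (fun x => u x * avS (G.neighborSet x ∩ cA κ u) u)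
    set P2 := avS (cR κ u v) (fun x => v x * avS (G.neighborSet x ∩ cA κ v) v)
    set Q1 := avS (cR κ u v) (fun x => u x * avS (G.neighborSet x ∩ cA κ v) u)
    set Q2 := avS (cR κ u v) (fun x => v x * avS (G.neighborSet x ∩ cA κ u) v)
    set r := ms (cR κ u v)
    have key : P1 + P2 - γ = -(γ * (2 * Buu + 2 * Avv + Ruu + Rvv)) + Q1 + Q2 := by
      have : γ * (2 * Buu + 2 * Avv + Ruu + Rvv) =
          γ - (γ * Auu - γ * Buu + (γ * Bvv - γ * Avv)) := by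
        have e1 : Ruu = 1 / 2 - Auu - Buu := by linarith
        have e2 : Rvv = 1 / 2 - Avv - Bvv := by linarith
        rw [e1, e2]
        ring
      rw [this]
      linarith
    rw [key]
    have w1 : 0 ≤ 2 * Buu + 2 * Avv + Ruu + Rvv := by linarith
    have w2 : 2 * Buu + 2 * Avv + Ruu + Rvv ≤ θ := by
      have : 18 * s ^ 2 ≤ θ := by nlinarith
      linarith
    have w3 : γ * (2 * Buu + 2 * Avv + Ruu + Rvv) ≤ γ * θ :=
      mul_le_mul_of_nonneg_left w2 h.g0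
    have w4 : 0 ≤ γ * (2 * Buu + 2 * Avv + Ruu + Rvv) := mul_nonneg h.g0 w1
    have w5 : 20 * s * (δ * r) ≤ θ * (δ * r) :=
      mul_le_mul_of_nonneg_right (by linarith) (by positivity)
    have q1 := abs_le.1 r1
    have q2 := abs_le.1 r2
    rw [abs_le]
    constructor
    · nlinarith [q1.1, q2.1]
    · nlinarith [q1.2, q2.2]

end Pool.Agent.OCX
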