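import Pool.Agent.OCX.Stmts
import Pool.Agent.OCX.Lib

/-!
# FLX: the flux identity
-/

open scoped BigOperators

namespace Pool.Agent.OCX

theorem flx_proof : Stmt_FLX := by
  intro V _ G ν γ u v A B R hW c
  have hA : avS A (fun x => u x * Wop G u x) =
      avS A (fun x => u x * avS (G.neighborSet x ∩ B) u) +
        avS A (fun x => u x * avS (G.neighborSet x ∩ R) u) := by
    rw [← avS_add]
    refine avS_congr fun x hx => ?_
    unfold Wop
    rw [avS_inter_three c (G.neighborSet x) u, nbr_A c hx, avS_empty]
    ring
  have hB : avS B (fun x => u x * Wop G u x) =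
      avS B (fun x => u x * avS (G.neighborSet x ∩ A) u) +
        avS B (fun x => u x * avS (G.neighborSet x ∩ R) u) := by
    rw [← avS_add]
    refine avS_congr fun x hx => ?_
    unfold Wop
    rw [avS_inter_three c (G.neighborSet x) u, nbr_B c hx, avS_empty]
    ring
  have hW' : ∀ S : Set V, avS S (fun x => u x * Wop G u x) =
      ν * avS S (fun x => u x * v x) + γ * avS S (fun x => u x ^ 2) := by
    intro S
    rw [← avS_mul_left, ← avS_mul_left, ← avS_add]
    refine avS_congr fun x _ => ?_
    rw [hW x]
    ring
  rw [hW' A, avS_symm G A R u u] at hA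
  rw [hW' B, avS_symm G B R u u, ← avS_symm G A B u u] at hB
  linarith

end Pool.Agent.OCX
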