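import Pool.Agent.OCX.Stmts
import Pool.Agent.OCX.Lib

/-!
# FRE: freeness in terms of closed walks (MP_e73810_co)
-/

namespace Pool.Agent.OCX

theorem fre_proof : Stmt_FRE := by
  intro V _ G l
  constructor
  · intro h y hy hi
    exact h ⟨⟨⟨y, fun {i j} hij => hy i j hij⟩, hi⟩⟩
  · rintro h ⟨f⟩
    exact h f (fun i j hij => f.toHom.map_rel hij) f.injective

end Pool.Agent.OCX
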