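import Pool.Agent.OCX.Stmts
import Pool.Agent.OCX.Lib

/-!
# GM1: the masses of the sets `G_j` when no crossing of type II has two fat ends
-/

open scoped BigOperators

namespace Pool.Agent.OCX

namespace GM1_

section

variable {V : Type} [Fintype V] {G : SimpleGraph V} {A B R : Set V}

omit [Fintype V] in
/-- `Gj` is contained in `R` -/
theorem gj_sub {t : ℕ} {eA : V → ℝ} {κ0 : ℝ} (j : ℕ) : Gj t G R eA κ0 j ⊆ R := by
  rintro x ⟨y, hy, -, h, rfl⟩
  exact hy.1.1 _

omit [Fintype V] in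
/-- `Gj` is empty for large `j` -/
theorem gj_empty {t : ℕ} {eA : V → ℝ} {κ0 : ℝ} {j : ℕ} (hj : 2 * t + 2 ≤ j) :
    Gj t G R eA κ0 j = ∅ := by
  ext x
  constructor
  · rintro ⟨y, -, -, h, -⟩
    omega
  · intro h
    exact absurd h (Set.notMem_empty x)

/-- crossings with both ends at most `κ0` -/
noncomputable def bb {V : Type} (t : ℕ) (κ0 : ℝ) (e : V → ℝ) (y : Fin (2 * t + 2) → V) : ℝ :=
  open Classical in
  if e (y 0) ≤ κ0 ∧ e (y (Fin.last (2 * t + 1))) ≤ κ0 then 1 else 0

/-- the set of the vertices with small amplitudes -/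
def sm {V : Type} (R : Set V) (κ0 : ℝ) (eA eB : V → ℝ) : Set V :=
  {x | x ∈ R ∧ eA x ≤ κ0 ∧ eB x ≤ κ0}

omit [Fintype V] in
/-- the crossings of type II with small ends stay in `sm` -/
theorem wC_le {t k : ℕ} {κ κ0 C : ℝ} {eA eB : V → ℝ} {cc : ℝ}
    (hf : Gfa t k κ C G A B R eA eB cc) (hA0 : ∀ x, 0 ≤ eA x) (h2 : 2 * κ ≤ κ0) (hκ : 0 < κ)
    (y : Fin (2 * t + 2) → V) (hy : IsP G R y) :
    wC t eA y * bb t κ0 eA y ≤ 2 ^ (2 * t + 1) * κ0 ^ 2 *
      ∏ i, (sm R κ0 eA eB).indicator (fun _ => (1 : ℝ)) (y i) := by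
  have hr : 0 ≤ ∏ i, (sm R κ0 eA eB).indicator (fun _ => (1 : ℝ)) (y i) :=
    Finset.prod_nonneg fun i _ => Set.indicator_nonneg (fun _ _ => zero_le_one) _
  have hκ0 : 0 < κ0 := by linarith
  have hr' : 0 ≤ 2 ^ (2 * t + 1) * κ0 ^ 2 *
      ∏ i, (sm R κ0 eA eB).indicator (fun _ => (1 : ℝ)) (y i) := by positivity
  unfold bb
  split_ifs with hb
  · by_cases h : 0 < eA (y 0) ∧ 0 < eA (y (Fin.last (2 * t + 1)))
    · have hty : TyC t G R eA y := ⟨hy, h.1, h.2⟩
      have hs : ∀ i, y i ∈ sm R κ0 eA eB := by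
        intro i
        refine ⟨hy.1 i, ?_, (hf.a2 y hty i).trans h2⟩
        by_cases h0 : 0 < (i : ℕ)
        · by_cases h1 : (i : ℕ) < 2 * t + 1
          · rw [hf.a3 y hty i h0 h1]
            exact hκ0.le
          · have e : i = Fin.last (2 * t + 1) := by
              apply Fin.ext
              rw [Fin.val_last]
              have := i.2
              omega
            rw [e]
            exact hb.2
        · have e : i = 0 := by
            apply Fin.ext
            rw [Fin.val_zero]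
            omega
          rw [e]
          exact hb.1
      rw [Finset.prod_congr rfl fun i _ => Set.indicator_of_mem (hs i) _]
      rw [Finset.prod_const_one, mul_one, mul_one]
      unfold wC
      refine mul_le_mul_of_nonneg_left ?_ (by positivity)
      rw [pow_two]
      exact mul_le_mul hb.1 hb.2 (hA0 _) hκ0.le
    · have hw : wC t eA y = 0 := by
        unfold wC
        rw [not_and_or, not_lt, not_lt] at h
        rcases h with h | h
        · rw [le_antisymm h (hA0 _)]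
          ring
        · rw [le_antisymm h (hA0 _)]
          ring
      rw [hw, zero_mul]
      exact hr'
  · rw [mul_zero]
    exact hr'

theorem PS_le {t k : ℕ} {κ κ0 C : ℝ} {eA eB : V → ℝ} {cc : ℝ}
    (hf : Gfa t k κ C G A B R eA eB cc) (hf' : Gfa t k κ C G B A R eB eA cc)
    (hA0 : ∀ x, 0 ≤ eA x) (hB0 : ∀ x, 0 ≤ eB x) (h2 : 2 * κ ≤ κ0) (hκ : 0 < κ) :
    PS G R (2 * t + 2) (fun y => wC t eA y * bb t κ0 eA y + wC t eB y * bb t κ0 eB y) ≤
      2 ^ (2 * t + 2) * κ0 ^ 2 * ms (sm R κ0 eA eB) ^ (2 * t + 2) := by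
  have e1 : PS G R (2 * t + 2) (fun y => ∏ i, (sm R κ0 eA eB).indicator
      (fun _ => (1 : ℝ)) (y i)) ≤ ms (sm R κ0 eA eB) ^ (2 * t + 2) := by
    have h := PS_le_prod (G := G) (R := R) (m := 2 * t + 2)
      (F := fun y => ∏ i, (sm R κ0 eA eB).indicator (fun _ => (1 : ℝ)) (y i))
      (fun _ => sm R κ0 eA eB) (fun _ _ => 1) (fun _ _ _ => zero_le_one) (fun y _ => le_rfl)
    rw [Finset.prod_const, Finset.card_univ, Fintype.card_fin] at h
    exact h
  have e2 : PS G R (2 * t + 2) (fun y => wC t eA y * bb t κ0 eA y + wC t eB y * bb t κ0 eB y) ≤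
      PS G R (2 * t + 2) (fun y => (2 ^ (2 * t + 2) * κ0 ^ 2) *
        ∏ i, (sm R κ0 eA eB).indicator (fun _ => (1 : ℝ)) (y i)) := by
    refine PS_mono fun y hy => ?_
    have a1 := wC_le hf hA0 h2 hκ y hy
    have a2 := wC_le hf' hB0 h2 hκ y hy
    have e3 : sm R κ0 eB eA = sm R κ0 eA eB := by
      ext x
      show (x ∈ R ∧ eB x ≤ κ0 ∧ eA x ≤ κ0) ↔ (x ∈ R ∧ eA x ≤ κ0 ∧ eB x ≤ κ0)
      tauto
    rw [e3] at a2
    have e4 : (2 : ℝ) ^ (2 * t + 2) = 2 ^ (2 * t + 1) + 2 ^ (2 * t + 1) := by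
      rw [pow_succ]
      ring
    rw [e4]
    linarith
  refine e2.trans ?_
  rw [PS_mul_left]
  exact mul_le_mul_of_nonneg_left e1 (by positivity)

end

end GM1_

open GM1_ in
theorem gm1_proof (h1 : Stmt_GRA) (h2 : Stmt_GRB) (h3 : Stmt_VM) : Stmt_GM1 := by
  intro t
  refine ⟨16 * (4 * t + 6) ^ (2 * t + 2) + 1, ?_, ?_⟩
  · have : (0 : ℝ) ≤ 16 * (4 * t + 6) ^ (2 * t + 2) := by positivity
    linarith
  intro κ κ0 hκ hκ20 h2κ hκ0 C
  obtain ⟨KV, -, hV⟩ := h3 t
  obtain ⟨kV, hkV⟩ := hV κ hκ hκ20 C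
  obtain ⟨m1, hm1⟩ := exists_nat_ge ((2 * C + 8 * C ^ 2 / κ) / κ0 ^ 2)
  obtain ⟨m2, hm2⟩ := exists_nat_ge (20 * C)
  refine ⟨max kV (max m1 m2), ?_⟩
  intro k hk V _ G A B R eA eB ω ξ δ cc hξ hC hT j hj
  have hk1 : kV ≤ k := (le_max_left _ _).trans hk
  have hk2 : m1 ≤ k := (le_max_left _ _).trans ((le_max_right _ _).trans hk)
  have hk3 : m2 ≤ k := (le_max_right _ _).trans ((le_max_right _ _).trans hk)
  have hkp : (0 : ℝ) < k := by
    have := hC.k1
    exact_mod_cast this
  have hC1 := hC.C1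
  have hδ := hC.d0
  have hκ0p : 0 < κ0 := by linarith
  have hf := h1 t k κ C V G A B R eA eB ω ξ δ cc hκ hC
  have hf' := h1 t k κ C V G B A R eB eA ω ξ δ cc hκ hC.swap
  have hb := h2 t k κ κ0 C V G A B R eA eB ω ξ δ cc hκ h2κ hC
  obtain ⟨v1, v2, v3, -, v5⟩ := hkV k hk1 V G A B R eA eB ω ξ δ cc hξ hC
  -- small quantities
  have s1 : 2 * C / k + 8 * C ^ 2 / κ / k ≤ κ0 ^ 2 := by
    have a : (2 * C + 8 * C ^ 2 / κ) / κ0 ^ 2 ≤ k := hm1.trans (by exact_mod_cast hk2)
    rw [div_le_iff₀ (by positivity)] at a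
    rw [← add_div, div_le_iff₀ hkp]
    linarith
  have s2 : C / k ≤ 1 / 20 := by
    have a : 20 * C ≤ k := hm2.trans (by exact_mod_cast hk3)
    rw [div_le_iff₀ hkp]
    linarith
  have s3 : 0 ≤ C / k := by positivity
  by_cases hj2 : 2 * t + 2 ≤ j
  · rw [gj_empty hj2, avS_empty, mul_zero]
    positivity
  rw [not_le] at hj2
  set S := Gj t G R eA κ0 j with hS
  have hSR : S ⊆ R := gj_sub j
  -- visits
  have hI : ∀ y, TyI t G R eA eB y → vis S y ≤ 1 := by
    intro y hy
    refine vis_le_of_unique fun i i' hi hi' => ?_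
    have a1 := hb.g1 y hy i j hi
    have a2 := hb.g1 y hy i' j hi'
    apply Fin.ext
    omega
  have hA : ∀ y, TyC t G R eA y → vis S y ≤ 1 + bb t κ0 eA y := by
    intro y hy
    unfold bb
    split_ifs with hbb
    · have hv : vis S y ≤ 2 := by
        refine vis_le_two ⟨j, hj2⟩ ⟨2 * t + 1 - j, by omega⟩ fun r hr => ?_
        rcases hb.g2 y hy r j hr with h | h
        · left
          apply Fin.ext
          exact h.1
        · right
          apply Fin.ext
          show (r : ℕ) = 2 * t + 1 - j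
          have := h.1
          omega
      linarith
    · rw [add_zero]
      refine vis_le_of_unique fun i i' hi hi' => ?_
      have key : ∀ i i' : Fin (2 * t + 2), ((i : ℕ) = j ∧ ∃ z, TyC t G R eA z ∧ κ0 < eA (z 0) ∧
          (∀ r : Fin (2 * t + 2), (i : ℕ) ≤ r → z r = y r)) →
          ((i' : ℕ) + j = 2 * t + 1 ∧ ∃ z, TyC t G R eA z ∧ κ0 < eA (z 0) ∧
          (∀ r : Fin (2 * t + 2), (r : ℕ) ≤ i' → z r.rev = y r)) → False := by
        rintro i i' ⟨-, z, hz, hz0, hzr⟩ ⟨-, z', hz', hz'0, hz'r⟩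
        apply hbb
        constructor
        · have a := hT z' hz' hz'0
          have e := hz'r 0 (by rw [Fin.val_zero]; exact Nat.zero_le _)
          rw [Fin.rev_zero] at e
          rw [e] at a
          exact not_lt.1 a
        · have a := hT z hz hz0
          have e := hzr (Fin.last (2 * t + 1)) (by
            rw [Fin.val_last]
            have := i.2
            omega)
          rw [e] at a
          exact not_lt.1 a
      rcases hb.g2 y hy i j hi with h | h <;> rcases hb.g2 y hy i' j hi' with h' | h'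
      · apply Fin.ext
        have := h.1
        have := h'.1
        omega
      · exact (key i i' h h').elim
      · exact (key i' i h' h).elim
      · apply Fin.ext
        have := h.1
        have := h'.1
        omega
  have hB : ∀ y, TyC t G R eB y → vis S y ≤ 1 + bb t κ0 eB y := by
    intro y hy
    unfold bb
    split_ifs with hbb
    · have hv : vis S y ≤ 2 := by
        refine vis_le_two ⟨j - 1, by omega⟩ ⟨2 * t + 2 - j, by omega⟩ fun r hr => ?_
        rcases hb.g3 y hy r j hr with h | h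
        · left
          apply Fin.ext
          show (r : ℕ) = j - 1
          have := h.1
          omega
        · right
          apply Fin.ext
          show (r : ℕ) = 2 * t + 2 - j
          have := h.1
          omega
      linarith
    · rw [add_zero]
      refine vis_le_of_unique fun i i' hi hi' => ?_
      have key : ∀ i i' : Fin (2 * t + 2), ((i : ℕ) + 1 = j ∧ eB (y 0) ≤ 2 * κ) →
          ((i' : ℕ) + j = 2 * t + 2 ∧ eB (y (Fin.last (2 * t + 1))) ≤ 2 * κ) → False := by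
        rintro i i' ⟨-, a1⟩ ⟨-, a2⟩
        exact hbb ⟨a1.trans h2κ, a2.trans h2κ⟩
      rcases hb.g3 y hy i j hi with h | h <;> rcases hb.g3 y hy i' j hi' with h' | h'
      · apply Fin.ext
        have := h.1
        have := h'.1
        omega
      · exact (key i i' h h').elim
      · exact (key i' i h' h).elim
      · apply Fin.ext
        have := h.1
        have := h'.1
        omega
  have hK := Kf_le_add (G := G) (R := R) hC.eA0 hC.eB0 hI hA hB
  have hPS := PS_le hf hf' hC.eA0 hC.eB0 h2κ hκ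
  set P := PS G R (2 * t + 2) (fun y => wC t eA y * bb t κ0 eA y + wC t eB y * bb t κ0 eB y)
    with hP
  -- masses
  have hω0 : ∀ x ∈ R, 0 ≤ ω x := fun x hx => (by linarith : (0 : ℝ) ≤ κ / 2).trans (hC.om2 x hx)
  have m0 : k * avS R ω ≤ 2 * t + 3 := by
    have a := (abs_le.1 v3).2
    have b : κ ^ 2 ≤ 1 := by nlinarith
    linarith
  have m3 : ms (sm R κ0 eA eB) ≤ (4 * t + 6) / k := by
    have a : 1 / 2 * ms (sm R κ0 eA eB) ≤ avS (sm R κ0 eA eB) ω := by
      refine mul_ms_le_avS fun x hx => ?_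
      have b := hC.om1 x hx.1
      have c : max (eA x) (eB x) ≤ κ0 := max_le hx.2.1 hx.2.2
      have d : 0 ≤ max (eA x) (eB x) := (hC.eA0 x).trans (le_max_left _ _)
      have e : (max (eA x) (eB x) + C / k) ^ 2 ≤ (1 / 4 + 1 / 20) ^ 2 := by
        apply pow_le_pow_left₀ (by linarith)
        linarith
      norm_num at e
      linarith
    have b : avS (sm R κ0 eA eB) ω ≤ avS R ω := avS_mono_set (fun x hx => hx.1) hω0
    rw [le_div_iff₀ hkp]
    have c : k * ms (sm R κ0 eA eB) ≤ 2 * (k * avS R ω) := by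
      have := mul_le_mul_of_nonneg_left (a.trans b) hkp.le
      linarith
    linarith
  have m4 : k * ms S ≤ 2 * C / κ := by
    have a : κ / 2 * ms S ≤ avS R ω :=
      (mul_ms_le_avS fun x hx => hC.om2 x (hSR hx)).trans (avS_mono_set hSR hω0)
    have b := hC.oR
    rw [le_div_iff₀ hκ]
    have c := mul_le_mul_of_nonneg_left a hkp.le
    nlinarith
  -- the bound of the path sum
  have hPk : 2 * k * P ≤ δ * (16 * (4 * t + 6) ^ (2 * t + 2) * κ0 ^ 2) := by
    have a : ms (sm R κ0 eA eB) ^ (2 * t + 2) ≤ ((4 * t + 6) / k) ^ (2 * t + 2) :=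
      pow_le_pow_left₀ (ms_nonneg _) m3 _
    have b : P ≤ 2 ^ (2 * t + 2) * κ0 ^ 2 * ((4 * t + 6) / k) ^ (2 * t + 2) :=
      hPS.trans (mul_le_mul_of_nonneg_left a (by positivity))
    have c : (4 : ℝ) ^ (t + 1) ≤ 8 * (δ * (k : ℝ) ^ (2 * t + 1)) := by
      unfold DD at v5
      rw [le_div_iff₀ (by positivity)] at v5
      linarith
    have d : (2 : ℝ) ^ (2 * t + 2) = 4 ^ (t + 1) := by
      rw [show 2 * t + 2 = 2 * (t + 1) by ring, pow_mul]
      norm_num
    rw [d] at b
    calc 2 * k * P ≤ 2 * k * (4 ^ (t + 1) * κ0 ^ 2 * ((4 * t + 6) / k) ^ (2 * t + 2)) :=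
          mul_le_mul_of_nonneg_left b (by positivity)
      _ ≤ 2 * k * ((8 * (δ * (k : ℝ) ^ (2 * t + 1))) * κ0 ^ 2 *
            ((4 * t + 6) / k) ^ (2 * t + 2)) := by
          refine mul_le_mul_of_nonneg_left ?_ (by positivity)
          refine mul_le_mul_of_nonneg_right ?_ (by positivity)
          exact mul_le_mul_of_nonneg_right c (by positivity)
      _ = δ * (16 * (4 * t + 6) ^ (2 * t + 2) * κ0 ^ 2) := by
          rw [div_pow]
          have e : (k : ℝ) ^ (2 * t + 2) = k ^ (2 * t + 1) * k := pow_succ _ _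
          rw [e]
          field_simp
          ring
  -- conclusion
  have k1 := (abs_le.1 (hC.kkt S hSR)).1
  have k2 := (abs_le.1 hC.tot).2
  have hms := ms_nonneg S
  have e1 : δ * (k * avS S ω) ≤ δ * (1 + 2 * C / k + 4 * C / k * (k * ms S)) + 2 * k * P := by
    have a : δ / 4 * avS S ω ≤ 1 / 2 * (δ / (2 * k) + C / k * (δ / k)) + 1 / 2 * P +
        C / k * δ * ms S := by linarith
    have b := mul_le_mul_of_nonneg_left a (by positivity : (0 : ℝ) ≤ 4 * k)
    have c : 4 * k * (1 / 2 * (δ / (2 * k) + C / k * (δ / k)) + 1 / 2 * P + C / k * δ * ms S) =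
        δ * (1 + 2 * C / k + 4 * C / k * (k * ms S)) + 2 * k * P := by
      field_simp
      ring
    rw [c] at b
    linarith
  have e2 : 4 * C / k * (k * ms S) ≤ 8 * C ^ 2 / κ / k := by
    calc 4 * C / k * (k * ms S) ≤ 4 * C / k * (2 * C / κ) :=
          mul_le_mul_of_nonneg_left m4 (by positivity)
      _ = 8 * C ^ 2 / κ / k := by
          field_simp
          ring
  have e3 : δ * (k * avS S ω) ≤ δ * (1 + (16 * (4 * t + 6) ^ (2 * t + 2) + 1) * κ0 ^ 2) := by
    have a : δ * (1 + 2 * C / k + 4 * C / k * (k * ms S)) ≤ δ * (1 + κ0 ^ 2) :=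
      mul_le_mul_of_nonneg_left (by linarith) hδ.le
    calc δ * (k * avS S ω) ≤ δ * (1 + κ0 ^ 2) + δ * (16 * (4 * t + 6) ^ (2 * t + 2) * κ0 ^ 2) := by
          linarith
      _ = δ * (1 + (16 * (4 * t + 6) ^ (2 * t + 2) + 1) * κ0 ^ 2) := by ring
  exact le_of_mul_le_mul_left e3 hδ

end Pool.Agent.OCX
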