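import Pool.Agent.OCX.Stmts
import Pool.Agent.OCX.Lib

/-!
# GM2: masses of the sets `Gj`
-/

open scoped BigOperators

namespace Pool.Agent.OCX

theorem gm2_proof (h1 : Stmt_GRB) : Stmt_GM2 := by
  intro t κ κ0 hκ hκ1 hκ0 C
  refine ⟨⌈(4 * C + 8 * C ^ 2 / κ) / (2 * κ ^ 2)⌉₊ + 1, ?_⟩
  intro k hk V _ G A B R eA eB ω ξ δ cc hξ h j
  have gb := h1 t k κ κ0 C V G A B R eA eB ω ξ δ cc hκ hκ0 h
  have hk1 : (1 : ℝ) ≤ k := by exact_mod_cast h.k1
  have hkpos : (0 : ℝ) < k := by linarith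
  have hC := h.C1
  have hδ := h.d0
  have hkk : (4 * C + 8 * C ^ 2 / κ) / (2 * κ ^ 2) ≤ k := by
    have a1 := Nat.le_ceil ((4 * C + 8 * C ^ 2 / κ) / (2 * κ ^ 2))
    have a2 : ((⌈(4 * C + 8 * C ^ 2 / κ) / (2 * κ ^ 2)⌉₊ + 1 : ℕ) : ℝ) ≤ k := by
      exact_mod_cast hk
    push_cast at a2
    linarith
  have hkk' : 4 * C + 8 * C ^ 2 / κ ≤ k * (2 * κ ^ 2) := by
    rwa [div_le_iff₀ (by positivity)] at hkk
  set S : Set V := Gj t G R eA κ0 j with hS
  have hSR : S ⊆ R := by
    rintro x ⟨y, hy, -, hj, rfl⟩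
    exact hy.1.1 _
  have hm : ms S ≤ 2 * C / (κ * k) := by
    have a1 : ms S ≤ ms R := ms_mono hSR
    have a2 : κ / 2 * ms R ≤ avS R ω := mul_ms_le_avS fun x hx => h.om2 x hx
    have a3 := h.oR
    have a4 : ms R ≤ 2 * C / (κ * k) := by
      rw [le_div_iff₀ (by positivity)]
      nlinarith
    linarith
  have hm0 : 0 ≤ ms S := ms_nonneg S
  have hkkt := h.kkt S hSR
  have htot := h.tot
  rw [abs_le] at hkkt htot
  have hK := Kf_le_add (G := G) (R := R) (t := t) (S := S) (bA := fun _ => 1) (bB := fun _ => 1)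
    h.eA0 h.eB0 ?_ ?_ ?_
  rotate_left
  · intro y hy
    refine vis_le_of_unique fun i i' hi hi' => ?_
    have a1 := gb.g1 y hy i j hi
    have a2 := gb.g1 y hy i' j hi'
    exact Fin.ext (by omega)
  · intro y hy
    have a : vis S y ≤ 2 := by
      refine vis_le_two ⟨j % (2 * t + 2), Nat.mod_lt _ (by omega)⟩
        ⟨(2 * t + 1 - j) % (2 * t + 2), Nat.mod_lt _ (by omega)⟩ fun r hr => ?_
      have hr2 := r.2
      rcases gb.g2 y hy r j hr with ⟨h3, -⟩ | ⟨h3, -⟩
      · left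
        refine Fin.ext ?_
        show (r : ℕ) = j % (2 * t + 2)
        rw [Nat.mod_eq_of_lt (by omega)]
        exact h3
      · right
        refine Fin.ext ?_
        show (r : ℕ) = (2 * t + 1 - j) % (2 * t + 2)
        rw [Nat.mod_eq_of_lt (by omega)]
        omega
    linarith
  · intro y hy
    have a : vis S y ≤ 2 := by
      refine vis_le_two ⟨(j - 1) % (2 * t + 2), Nat.mod_lt _ (by omega)⟩
        ⟨(2 * t + 2 - j) % (2 * t + 2), Nat.mod_lt _ (by omega)⟩ fun r hr => ?_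
      have hr2 := r.2
      rcases gb.g3 y hy r j hr with ⟨h3, -⟩ | ⟨h3, -⟩
      · left
        refine Fin.ext ?_
        show (r : ℕ) = (j - 1) % (2 * t + 2)
        rw [Nat.mod_eq_of_lt (by omega)]
        omega
      · right
        refine Fin.ext ?_
        show (r : ℕ) = (2 * t + 2 - j) % (2 * t + 2)
        rcases Nat.eq_zero_or_pos j with hj | hj
        · omega
        · rw [Nat.mod_eq_of_lt (by omega)]
          omega
    linarith
  have hI0 : 0 ≤ PS G R (2 * t + 1) (wI t eA eB) := by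
    refine PS_nonneg fun y _ => ?_
    have := h.eB0 (y 0)
    have := h.eA0 (y (Fin.last (2 * t)))
    unfold wI
    positivity
  have hZ : Zf t G R eA eB = 2 * PS G R (2 * t + 1) (wI t eA eB) +
    PS G R (2 * t + 2) (fun y => wC t eA y + wC t eB y) := rfl
  have e1 : (fun y : Fin (2 * t + 2) → V => wC t eA y * 1 + wC t eB y * 1) =
      fun y => wC t eA y + wC t eB y := by
    funext y
    ring
  rw [e1] at hK
  have hKZ : Kf t G R eA eB S ≤ Zf t G R eA eB := by linarith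
  -- final estimate
  have e2 : δ / 4 * avS S ω ≤ δ / (2 * k) + C / k * (δ / k) + C / k * δ * (2 * C / (κ * k)) := by
    have : C / k * δ * ms S ≤ C / k * δ * (2 * C / (κ * k)) :=
      mul_le_mul_of_nonneg_left hm (by positivity)
    linarith
  have e3 : k * avS S ω ≤ 2 + (4 * C + 8 * C ^ 2 / κ) / k := by
    have e4 : k * avS S ω = 4 * k / δ * (δ / 4 * avS S ω) := by
      field_simp
    have e5 : 4 * k / δ * (δ / (2 * k) + C / k * (δ / k) + C / k * δ * (2 * C / (κ * k))) =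
        2 + (4 * C + 8 * C ^ 2 / κ) / k := by
      field_simp
      ring
    rw [e4, ← e5]
    exact mul_le_mul_of_nonneg_left e2 (by positivity)
  have e6 : (4 * C + 8 * C ^ 2 / κ) / k ≤ 2 * κ ^ 2 := by
    rw [div_le_iff₀ hkpos]
    linarith
  linarith

end Pool.Agent.OCX
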