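import Pool.Agent.OCX.Stmts
import Pool.Agent.OCX.Lib

/-!
# Module GRA: graph facts about the crossings
-/

namespace Pool.Agent.OCX

namespace GRA_

section

variable {V : Type} {G : SimpleGraph V} {A B R : Set V}

theorem wk {m : ℕ} {y : Fin m → V} (hy : IsP G R y) (i j : Fin m) (hij : (i : ℕ) ≤ j) :
    ∃ p : G.Walk (y i) (y j), p.length = (j : ℕ) - i := by
  obtain ⟨i, hi⟩ := i
  obtain ⟨j, hj⟩ := j
  obtain ⟨n, rfl⟩ := Nat.exists_eq_add_of_le hij
  obtain ⟨p, hp⟩ := hy.walk i n hj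
  refine ⟨p, ?_⟩
  simp only
  omega

theorem rw' {l : ℕ} {x : V} (h : Rch G R B l x) :
    ∃ w ∈ R, (∃ b ∈ B, G.Adj w b) ∧ ∃ p : G.Walk w x, p.length + 1 = l := by
  obtain ⟨m, rfl⟩ := Nat.exists_eq_add_of_le' h.pos
  obtain ⟨z, hz, h0, hl⟩ := Rch.path h
  obtain ⟨p, hp⟩ := wk hz 0 (Fin.last m) (Nat.zero_le _)
  refine ⟨z 0, hz.1 _, h0, p.copy rfl hl, ?_⟩
  rw [SimpleGraph.Walk.length_copy, hp]
  simp

end

section

variable {V : Type} [Fintype V] {G : SimpleGraph V} {A B R : Set V} {t k : ℕ} {κ C ξ : ℝ}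
  {eA eB ω : V → ℝ} {δ cc : ℝ}

theorem rct (h : Cmb t k κ C ξ G A B R eA eB ω δ cc) {x y : V} (hx : x ∈ R) (hy : y ∈ R)
    (h1 : 0 < eB x) (h2 : 0 < eA y) (p : G.Walk x y) (he : Even p.length)
    (hl : p.length ≤ 2 * t) :
    k * eB x * eA y * (1 + (eB x + eA y) / 2) ≤ cc + C / k ∧ eB x ≤ 2 * κ ∧ eA y ≤ 2 * κ :=
  h.rect x hx y hy h1 h2 fun _ _ _ _ hxb hya => wk_no_edge h.og p he hl hxb hya

theorem chA (h : Cmb t k κ C ξ G A B R eA eB ω δ cc) {m : ℕ} {y : Fin (m + 1) → V}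
    (hy : IsP G R y) (h0 : 0 < eA (y 0)) (i : Fin (m + 1)) : Rch G R A (i + 1) (y i) :=
  hy.rch ((h.eAp _ (hy.1 _)).1 h0) i.1 i.2

theorem chA' (h : Cmb t k κ C ξ G A B R eA eB ω δ cc) {m : ℕ} {y : Fin (m + 1) → V}
    (hy : IsP G R y) (h0 : 0 < eA (y (Fin.last m))) (i : Fin (m + 1)) :
    Rch G R A (m + 1 - i) (y i) :=
  hy.rch_last ((h.eAp _ (hy.1 _)).1 h0) i.1 i.2

theorem chB (h : Cmb t k κ C ξ G A B R eA eB ω δ cc) {m : ℕ} {y : Fin (m + 1) → V}
    (hy : IsP G R y) (h0 : 0 < eB (y 0)) (i : Fin (m + 1)) : Rch G R B (i + 1) (y i) :=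
  hy.rch ((h.eBp _ (hy.1 _)).1 h0) i.1 i.2

theorem onA (h : Cmb t k κ C ξ G A B R eA eB ω δ cc) {x : V} (hx : x ∈ R) (h0 : 0 < eA x) :
    Rch G R A 1 x := ⟨hx, (h.eAp _ hx).1 h0⟩

theorem onB (h : Cmb t k κ C ξ G A B R eA eB ω δ cc) {x : V} (hx : x ∈ R) (h0 : 0 < eB x) :
    Rch G R B 1 x := ⟨hx, (h.eBp _ hx).1 h0⟩

/-- a walk from a vertex reached from `B` to a vertex near `A` -/
theorem rcw (h : Cmb t k κ C ξ G A B R eA eB ω δ cc) {l : ℕ} {x y : V} (hx : Rch G R B l x)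
    (hy : y ∈ R) (h2 : 0 < eA y) (p : G.Walk x y) (he : p.length + l = 2 * t + 1) :
    eA y ≤ 2 * κ := by
  obtain ⟨w, hw, hb, q, hq⟩ := rw' hx
  refine (rct h hw hy ((h.eBp _ hw).2 hb) h2 (q.append p) ?_ ?_).2.2
  · rw [SimpleGraph.Walk.length_append]
    exact ⟨t, by omega⟩
  · rw [SimpleGraph.Walk.length_append]
    omega

theorem main (hκ : 0 < κ) (h : Cmb t k κ C ξ G A B R eA eB ω δ cc) :
    Gfa t k κ C G A B R eA eB cc where
  i1 := fun y hy => by
    obtain ⟨h0, h1, h2⟩ := hy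
    obtain ⟨p, hp⟩ := wk h0 0 (Fin.last (2 * t)) (Nat.zero_le _)
    have hp' : p.length = 2 * t := by
      rw [hp]
      simp
    exact rct h (h0.1 _) (h0.1 _) h1 h2 p (by rw [hp']; exact even_two_mul t) hp'.le
  i2 := fun y hy i => by
    obtain ⟨h0, h1, h2⟩ := hy
    have hB := chB h h0 h1 i
    have hA := chA' h h0 h2 i
    have hi := i.2
    constructor
    · intro hpos
      by_contra hne
      have h3 : 0 < eB (y i) := lt_of_le_of_ne (h.eB0 _) (Ne.symm hne)
      have h4 := onB h (h0.1 i) h3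
      rcases Nat.even_or_odd (i : ℕ) with he | ho
      · have := og1 h.og h.cor hA h4 (by
          rcases he with ⟨r, hr⟩
          exact ⟨t + 1 - r, by omega⟩)
        omega
      · have := ogB h.og h.cor hB h4 (by
          rcases ho with ⟨r, hr⟩
          exact ⟨r + 1, by omega⟩)
        omega
    · intro hlt
      by_contra hne
      have h3 : 0 < eA (y i) := lt_of_le_of_ne (h.eA0 _) (Ne.symm hne)
      have h4 := onA h (h0.1 i) h3
      rcases Nat.even_or_odd (i : ℕ) with he | ho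
      · have := og1 h.og h.cor h4 hB (by
          rcases he with ⟨r, hr⟩
          exact ⟨r + 1, by omega⟩)
        omega
      · have := ogA h.og h.cor hA h4 (by
          rcases ho with ⟨r, hr⟩
          exact ⟨t - r, by omega⟩)
        omega
  i3 := fun y hy i => by
    obtain ⟨h0, h1, h2⟩ := hy
    refine ⟨chB h h0 h1 i, ?_⟩
    have := chA' h h0 h2 i
    have e : 2 * t + 2 - ((i : ℕ) + 1) = 2 * t + 1 - i := by omega
    rw [e]
    exact this
  i4 := fun y hy i l hl => by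
    obtain ⟨h0, h1, h2⟩ := hy
    have h3 : y i ∈ Vl t G R A B (i + 1) := by
      refine ⟨chB h h0 h1 i, ?_⟩
      have := chA' h h0 h2 i
      have e : 2 * t + 2 - ((i : ℕ) + 1) = 2 * t + 1 - i := by omega
      rw [e]
      exact this
    exact Vl_disj h.og h.cor h3 hl
  a1 := fun y hy => by
    obtain ⟨h0, h1, h2⟩ := hy
    obtain ⟨p, hp⟩ := wk h0 0 (Fin.last (2 * t + 1)) (Nat.zero_le _)
    have hp' : p.length = 2 * t + 1 := by
      rw [hp]
      simp
    refine h.sA _ (h0.1 _) _ (h0.1 _) fun a _ hadj => ?_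
    exact wk_no_common h.og p (by rw [hp']; exact ⟨t, rfl⟩) hp'.le hadj
  a2 := fun y hy i => by
    obtain ⟨h0, h1, h2⟩ := hy
    rcases (h.eB0 (y i)).eq_or_lt with h3 | h3
    · rw [← h3]
      linarith
    have h4 := onB h (h0.1 i) h3
    have hi := i.2
    rcases Nat.even_or_odd (i : ℕ) with he | ho
    · have h5 := og1 h.og h.cor (chA h h0 h1 i) h4 (by
        rcases he with ⟨r, hr⟩
        exact ⟨r + 1, by omega⟩)
      have hi2 : (i : ℕ) = 2 * t := by
        rcases he with ⟨r, hr⟩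
        omega
      obtain ⟨p, hp⟩ := wk h0 0 i (Nat.zero_le _)
      have hp' : p.reverse.length = 2 * t := by
        rw [SimpleGraph.Walk.length_reverse, hp, hi2]
        simp
      exact (rct h (h0.1 _) (h0.1 _) h3 h1 p.reverse (by rw [hp']; exact even_two_mul t)
        hp'.le).2.1
    · have h5 := og1 h.og h.cor (chA' h h0 h2 i) h4 (by
        rcases ho with ⟨r, hr⟩
        exact ⟨t + 1 - r, by omega⟩)
      have hi2 : (i : ℕ) = 1 := by
        rcases ho with ⟨r, hr⟩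
        omega
      obtain ⟨p, hp⟩ := wk h0 i (Fin.last (2 * t + 1)) (by rw [Fin.val_last]; omega)
      have hp' : p.length = 2 * t := by
        rw [hp, hi2]
        simp
      exact (rct h (h0.1 _) (h0.1 _) h3 h2 p (by rw [hp']; exact even_two_mul t) hp'.le).2.1
  a3 := fun y hy i hi1 hi2 => by
    obtain ⟨h0, h1, h2⟩ := hy
    by_contra hne
    have h3 : 0 < eA (y i) := lt_of_le_of_ne (h.eA0 _) (Ne.symm hne)
    have h4 := onA h (h0.1 i) h3
    rcases Nat.even_or_odd (i : ℕ) with he | ho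
    · have := ogA h.og h.cor (chA' h h0 h2 i) h4 (by
        rcases he with ⟨r, hr⟩
        exact ⟨t + 1 - r, by omega⟩)
      omega
    · have := ogA h.og h.cor (chA h h0 h1 i) h4 (by
        rcases ho with ⟨r, hr⟩
        exact ⟨r + 1, by omega⟩)
      omega
  a4 := fun y hy heq => by
    obtain ⟨h0, h1, h2⟩ := hy
    obtain ⟨p, hp⟩ := wk h0 0 (Fin.last (2 * t + 1)) (Nat.zero_le _)
    have hp' : p.length = 2 * t + 1 := by
      rw [hp]
      simp
    have key := h.og _ (p.copy heq rfl) (by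
      rw [SimpleGraph.Walk.length_copy, hp']
      exact ⟨t, rfl⟩)
    rw [SimpleGraph.Walk.length_copy, hp'] at key
    omega
  ab := fun x hx h1 h2 => by
    have h3 := og1 h.og h.cor (onA h hx h1) (onB h hx h2) ⟨1, rfl⟩
    have ht : t = 0 := by omega
    have h4 := rct h hx hx h2 h1 SimpleGraph.Walk.nil ⟨0, rfl⟩ (Nat.zero_le _)
    exact ⟨h4.2.2, h4.2.1, ht⟩
  va := fun y hy i l hl => by
    obtain ⟨h0, h1, h2⟩ := hy
    obtain ⟨h3, h4⟩ := hl
    have hl1 := h3.pos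
    have hl2 := h4.pos
    have hi := i.2
    have h5 := chA h h0 h1 i
    have h6 := chA' h h0 h2 i
    rcases Nat.even_or_odd ((i : ℕ) + l) with he | ho
    · left
      have g1 := ogA h.og h.cor h5 h4 (by
        rcases he with ⟨r, hr⟩
        exact ⟨t + 1 + r - l, by omega⟩)
      have g2 := og1 h.og h.cor h6 h3 (by
        rcases he with ⟨r, hr⟩
        exact ⟨t + 1 + r - i, by omega⟩)
      have hil : (i : ℕ) = l := by omega
      obtain ⟨p, hp⟩ := wk h0 i (Fin.last (2 * t + 1)) (by rw [Fin.val_last]; omega)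
      refine ⟨hil, rcw h h3 (h0.1 _) h2 p ?_⟩
      rw [hp, Fin.val_last]
      omega
    · right
      have g1 := og1 h.og h.cor h5 h3 (by
        rcases ho with ⟨r, hr⟩
        exact ⟨r + 1, by omega⟩)
      have g2 := ogA h.og h.cor h6 h4 (by
        rcases ho with ⟨r, hr⟩
        exact ⟨2 * t + 1 - r, by omega⟩)
      obtain ⟨p, hp⟩ := wk h0 0 i (Nat.zero_le _)
      refine ⟨by omega, rcw h h3 (h0.1 _) h1 p.reverse ?_⟩
      rw [SimpleGraph.Walk.length_reverse, hp]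
      simp only [Fin.val_zero]
      omega

end

end GRA_

theorem gra_proof : Stmt_GRA := by
  intro V _ t k κ C ξ G A B R eA eB ω δ cc hκ h
  exact GRA_.main hκ h

end Pool.Agent.OCX
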