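import Pool.Agent.OCX.Stmts
import Pool.Agent.OCX.Lib

/-!
# GRB: graph facts about the sets `Gj`
-/

namespace Pool.Agent.OCX

namespace GRB_

variable {V : Type} {G : SimpleGraph V} {A B R : Set V} {t : ℕ}

theorem walk' {m : ℕ} {y : Fin m → V} (hy : IsP G R y) (i j : Fin m) (hij : (i : ℕ) ≤ j) :
    ∃ p : G.Walk (y i) (y j), p.length = (j : ℕ) - i := by
  obtain ⟨p, hp⟩ := hy.walk (i : ℕ) ((j : ℕ) - i) (by have := j.2; omega)
  have e1 : (⟨(i : ℕ), by have := i.2; omega⟩ : Fin m) = i := rfl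
  have e2 : (⟨(i : ℕ) + ((j : ℕ) - i), by have := j.2; omega⟩ : Fin m) = j := by
    apply Fin.ext
    show (i : ℕ) + ((j : ℕ) - i) = j
    omega
  refine ⟨p.copy (by rw [e1]) (by rw [e2]), ?_⟩
  rw [SimpleGraph.Walk.length_copy, hp]

variable [Fintype V] {k : ℕ} {κ κ0 C ξ δ cc : ℝ} {eA eB ω : V → ℝ}

theorem rectW (h : Cmb t k κ C ξ G A B R eA eB ω δ cc) {p q : V} (hp : p ∈ R) (hq : q ∈ R)
    (w : G.Walk p q) (hw : w.length = 2 * t) (h1 : 0 < eB p) (h2 : 0 < eA q) :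
    eB p ≤ 2 * κ ∧ eA q ≤ 2 * κ := by
  have key := h.rect p hp q hq h1 h2 (fun b _ a _ hpb hqa =>
    wk_no_edge h.og w (by rw [hw]; exact even_two_mul t) hw.le hpb hqa)
  exact key.2

/-- two paths meeting in a vertex: facts for a path with fat start -/
theorem zfacts (h : Cmb t k κ C ξ G A B R eA eB ω δ cc) {z : Fin (2 * t + 2) → V}
    (hz : TyC t G R eA z) {j : ℕ} (hj : j < 2 * t + 2) :
    Rch G R A (j + 1) (z ⟨j, hj⟩) ∧ Rch G R A (2 * t + 2 - j) (z ⟨j, hj⟩) := by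
  obtain ⟨h1, h2, h3⟩ := hz
  have a1 := (h.eAp _ (h1.1 0)).1 h2
  have a2 := (h.eAp _ (h1.1 _)).1 h3
  exact ⟨h1.rch a1 j hj, h1.rch_last a2 j hj⟩

omit [Fintype V] in
/-- glueing -/
theorem glue {y z : Fin (2 * t + 2) → V} (hz : TyC t G R eA z) (hz0 : κ0 < eA (z 0))
    (hy : TyC t G R eA y) (i : Fin (2 * t + 2)) (hi : z i = y i) :
    ∃ w, TyC t G R eA w ∧ κ0 < eA (w 0) ∧ ∀ r : Fin (2 * t + 2), (i : ℕ) ≤ r → w r = y r := by
  have w0 : (if ((0 : Fin (2 * t + 2)) : ℕ) < (i : ℕ) then z 0 else y 0) = z 0 := by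
    split_ifs with hh
    · rfl
    · have : i = 0 := by
        apply Fin.ext
        simp only [Fin.val_zero] at hh ⊢
        omega
      rw [← this, hi]
  refine ⟨fun r => if (r : ℕ) < (i : ℕ) then z r else y r, ⟨⟨fun r => ?_, fun r s hrs => ?_⟩,
    ?_, ?_⟩, ?_, fun r hr => ?_⟩
  · show (if (r : ℕ) < (i : ℕ) then z r else y r) ∈ R
    split_ifs
    · exact hz.1.1 r
    · exact hy.1.1 r
  · show G.Adj (if (r : ℕ) < (i : ℕ) then z r else y r) (if (s : ℕ) < (i : ℕ) then z s else y s)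
    by_cases h1 : (s : ℕ) < (i : ℕ)
    · rw [if_pos h1, if_pos (by omega)]
      exact hz.1.2 r s hrs
    · rw [if_neg h1]
      by_cases h2 : (r : ℕ) < (i : ℕ)
      · rw [if_pos h2]
        have : s = i := by
          apply Fin.ext
          omega
        rw [this, ← hi, ← this]
        exact hz.1.2 r s hrs
      · rw [if_neg h2]
        exact hy.1.2 r s hrs
  · show 0 < eA (if ((0 : Fin (2 * t + 2)) : ℕ) < (i : ℕ) then z 0 else y 0)
    rw [w0]
    exact hz.2.1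
  · show 0 < eA (if ((Fin.last (2 * t + 1) : Fin (2 * t + 2)) : ℕ) < (i : ℕ) then z _ else y _)
    rw [if_neg (by rw [Fin.val_last]; have := i.2; omega)]
    exact hy.2.2
  · show κ0 < eA (if ((0 : Fin (2 * t + 2)) : ℕ) < (i : ℕ) then z 0 else y 0)
    rw [w0]
    exact hz0
  · show (if (r : ℕ) < (i : ℕ) then z r else y r) = y r
    rw [if_neg (by omega)]

theorem g1 (h : Cmb t k κ C ξ G A B R eA eB ω δ cc) (h2 : 2 * κ ≤ κ0)
    (y : Fin (2 * t + 1) → V) (hy : TyI t G R eA eB y) (i : Fin (2 * t + 1)) (j : ℕ)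
    (hj : y i ∈ Gj t G R eA κ0 j) : (i : ℕ) + 1 = j := by
  obtain ⟨z, hz, hz0, hjt, hzj⟩ := hj
  have hi := i.2
  obtain ⟨r1, r2⟩ := zfacts h hz hjt
  rw [hzj] at r1 r2
  have b1 := (h.eBp _ (hy.1.1 0)).1 hy.2.1
  have a1 := (h.eAp _ (hy.1.1 _)).1 hy.2.2
  have s1 : Rch G R B ((i : ℕ) + 1) (y i) := hy.1.rch b1 i i.2
  have s2 : Rch G R A (2 * t + 1 - (i : ℕ)) (y i) := hy.1.rch_last a1 i i.2
  rcases Nat.even_or_odd ((i : ℕ) + j) with he | ho
  · exfalso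
    have q1 := og1 h.og h.cor r1 s1 (by
      rcases he with ⟨r, hr⟩
      exact ⟨r + 1, by omega⟩)
    have q2 := ogA h.og h.cor r2 s2 (by
      rcases he with ⟨r, hr⟩
      exact ⟨2 * t + 1 - r, by omega⟩)
    obtain ⟨p, hp⟩ := walk' hy.1 0 i (Nat.zero_le _)
    obtain ⟨q, hq⟩ := walk' hz.1 0 ⟨j, hjt⟩ (Nat.zero_le _)
    rw [hzj] at q
    obtain ⟨q', hq'⟩ : ∃ q' : G.Walk (z 0) (y i), q'.length = j := by
      obtain ⟨q, hq⟩ := walk' hz.1 0 ⟨j, hjt⟩ (Nat.zero_le _)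
      exact ⟨q.copy rfl hzj, by rw [SimpleGraph.Walk.length_copy, hq]; rfl⟩
    have key := rectW h (hy.1.1 0) (hz.1.1 0) (p.append q'.reverse) (by
      rw [SimpleGraph.Walk.length_append, SimpleGraph.Walk.length_reverse, hp, hq']
      simp only [Fin.val_zero]
      omega) hy.2.1 hz.2.1
    linarith [key.2]
  · have q1 := og1 h.og h.cor r2 s1 (by
      rcases ho with ⟨r, hr⟩
      exact ⟨t + r + 2 - j, by omega⟩)
    have q2 := ogA h.og h.cor r1 s2 (by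
      rcases ho with ⟨r, hr⟩
      exact ⟨t + 1 + r - i, by omega⟩)
    omega

theorem g2 (h : Cmb t k κ C ξ G A B R eA eB ω δ cc)
    (y : Fin (2 * t + 2) → V) (hy : TyC t G R eA y) (i : Fin (2 * t + 2)) (j : ℕ)
    (hj : y i ∈ Gj t G R eA κ0 j) :
    ((i : ℕ) = j ∧ ∃ z, TyC t G R eA z ∧ κ0 < eA (z 0) ∧
      (∀ r : Fin (2 * t + 2), (i : ℕ) ≤ r → z r = y r)) ∨
    ((i : ℕ) + j = 2 * t + 1 ∧ ∃ z, TyC t G R eA z ∧ κ0 < eA (z 0) ∧
      (∀ r : Fin (2 * t + 2), (r : ℕ) ≤ i → z r.rev = y r)) := by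
  obtain ⟨z, hz, hz0, hjt, hzj⟩ := hj
  have hi := i.2
  obtain ⟨r1, r2⟩ := zfacts h hz hjt
  rw [hzj] at r1 r2
  have s : Rch G R A ((i : ℕ) + 1) (y i) ∧ Rch G R A (2 * t + 2 - (i : ℕ)) (y i) :=
    zfacts h hy i.2
  obtain ⟨s1, s2⟩ := s
  rcases Nat.even_or_odd ((i : ℕ) + j) with he | ho
  · left
    have q1 := ogA h.og h.cor r2 s1 (by
      rcases he with ⟨r, hr⟩
      exact ⟨t + 1 + r - j, by omega⟩)
    have q2 := ogA h.og h.cor r1 s2 (by
      rcases he with ⟨r, hr⟩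
      exact ⟨t + 1 + r - i, by omega⟩)
    have hij : (i : ℕ) = j := by omega
    refine ⟨hij, ?_⟩
    have e : (⟨j, hjt⟩ : Fin (2 * t + 2)) = i := Fin.ext hij.symm
    rw [e] at hzj
    exact glue hz hz0 hy i hzj
  · right
    have q1 := ogA h.og h.cor r1 s1 (by
      rcases ho with ⟨r, hr⟩
      exact ⟨r + 1, by omega⟩)
    have q2 := ogA h.og h.cor r2 s2 (by
      rcases ho with ⟨r, hr⟩
      exact ⟨2 * t + 1 - r, by omega⟩)
    have hij : (i : ℕ) + j = 2 * t + 1 := by omega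
    refine ⟨hij, ?_⟩
    have hy' : TyC t G R eA (fun r => y r.rev) := by
      refine ⟨hy.1.rev, ?_, ?_⟩
      · show 0 < eA (y (Fin.rev 0))
        rw [Fin.rev_zero]
        exact hy.2.2
      · show 0 < eA (y (Fin.rev (Fin.last _)))
        rw [Fin.rev_last]
        exact hy.2.1
    have e : (⟨j, hjt⟩ : Fin (2 * t + 2)) = i.rev := by
      apply Fin.ext
      rw [Fin.val_rev]
      show j = _
      omega
    rw [e] at hzj
    obtain ⟨w, hw, hw0, hwr⟩ := glue hz hz0 hy' i.rev (by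
      show z i.rev = y i.rev.rev
      rw [Fin.rev_rev, hzj])
    refine ⟨w, hw, hw0, fun r hr => ?_⟩
    rw [hwr r.rev (by rw [Fin.val_rev, Fin.val_rev]; omega)]
    show y r.rev.rev = y r
    rw [Fin.rev_rev]

theorem g3 (h : Cmb t k κ C ξ G A B R eA eB ω δ cc) (h2 : 2 * κ ≤ κ0)
    (y : Fin (2 * t + 2) → V) (hy : TyC t G R eB y) (i : Fin (2 * t + 2)) (j : ℕ)
    (hj : y i ∈ Gj t G R eA κ0 j) :
    ((i : ℕ) + 1 = j ∧ eB (y 0) ≤ 2 * κ) ∨
      ((i : ℕ) + j = 2 * t + 2 ∧ eB (y (Fin.last (2 * t + 1))) ≤ 2 * κ) := by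
  obtain ⟨z, hz, hz0, hjt, hzj⟩ := hj
  have hi := i.2
  obtain ⟨r1, r2⟩ := zfacts h hz hjt
  rw [hzj] at r1 r2
  have s : Rch G R B ((i : ℕ) + 1) (y i) ∧ Rch G R B (2 * t + 2 - (i : ℕ)) (y i) :=
    zfacts h.swap hy i.2
  obtain ⟨s1, s2⟩ := s
  -- walks from `y i`
  obtain ⟨p0, hp0⟩ := walk' hy.1 0 i (Nat.zero_le _)
  obtain ⟨p1, hp1⟩ := walk' hy.1 i (Fin.last _) (by rw [Fin.val_last]; omega)
  obtain ⟨q0, hq0⟩ : ∃ q' : G.Walk (z 0) (y i), q'.length = j := by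
    obtain ⟨q, hq⟩ := walk' hz.1 0 ⟨j, hjt⟩ (Nat.zero_le _)
    exact ⟨q.copy rfl hzj, by rw [SimpleGraph.Walk.length_copy, hq]; rfl⟩
  obtain ⟨q1, hq1⟩ : ∃ q' : G.Walk (y i) (z (Fin.last _)), q'.length = 2 * t + 1 - j := by
    obtain ⟨q, hq⟩ := walk' hz.1 ⟨j, hjt⟩ (Fin.last _) (by
      rw [Fin.val_last]
      show j ≤ _
      omega)
    refine ⟨q.copy hzj rfl, ?_⟩
    rw [SimpleGraph.Walk.length_copy, hq, Fin.val_last]
  rw [Fin.val_last] at hp1
  simp only [Fin.val_zero, Nat.sub_zero] at hp0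
  rcases Nat.even_or_odd ((i : ℕ) + j) with he | ho
  · have c1 := og1 h.og h.cor r1 s1 (by
      rcases he with ⟨r, hr⟩
      exact ⟨r + 1, by omega⟩)
    have c2 := og1 h.og h.cor r2 s2 (by
      rcases he with ⟨r, hr⟩
      exact ⟨2 * t + 2 - r, by omega⟩)
    have hcase : (i : ℕ) + j = 2 * t ∨ (i : ℕ) + j = 2 * t + 2 := by
      rcases he with ⟨r, hr⟩
      omega
    rcases hcase with hc | hc
    · exfalso
      have key := rectW h (hy.1.1 0) (hz.1.1 0) (p0.append q0.reverse) (by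
        rw [SimpleGraph.Walk.length_append, SimpleGraph.Walk.length_reverse, hp0, hq0]
        exact hc) hy.2.1 hz.2.1
      linarith [key.2]
    · right
      refine ⟨hc, ?_⟩
      have key := rectW h (hy.1.1 _) (hz.1.1 _) (p1.reverse.append q1) (by
        rw [SimpleGraph.Walk.length_append, SimpleGraph.Walk.length_reverse, hp1, hq1]
        omega) hy.2.2 hz.2.2
      exact key.1
  · have c1 := og1 h.og h.cor r2 s1 (by
      rcases ho with ⟨r, hr⟩
      exact ⟨t + r + 2 - j, by omega⟩)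
    have c2 := og1 h.og h.cor r1 s2 (by
      rcases ho with ⟨r, hr⟩
      exact ⟨t + r + 2 - i, by omega⟩)
    have hcase : (i : ℕ) + 1 = j ∨ j + 1 = (i : ℕ) := by
      rcases ho with ⟨r, hr⟩
      omega
    rcases hcase with hc | hc
    · left
      refine ⟨hc, ?_⟩
      have key := rectW h (hy.1.1 0) (hz.1.1 _) (p0.append q1) (by
        rw [SimpleGraph.Walk.length_append, hp0, hq1]
        omega) hy.2.1 hz.2.2
      exact key.1
    · exfalso
      have key := rectW h (hy.1.1 _) (hz.1.1 0) (p1.reverse.append q0.reverse) (by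
        rw [SimpleGraph.Walk.length_append, SimpleGraph.Walk.length_reverse,
          SimpleGraph.Walk.length_reverse, hp1, hq0]
        omega) hy.2.2 hz.2.1
      linarith [key.2]

end GRB_

theorem grb_proof : Stmt_GRB := by
  intro t k κ κ0 C V _ G A B R eA eB ω ξ δ cc _ h2 h
  exact ⟨GRB_.g1 h h2, GRB_.g2 h, GRB_.g3 h h2⟩

end Pool.Agent.OCX
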