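import Pool.Agent.OCX.Stmts

/-!
# OCX, module INJ: injective closed walks
-/

set_option autoImplicit false

open scoped BigOperators

namespace Pool.Agent.OCX

namespace INJ_

theorem card_eq_le {V : Type} [Fintype V] {k : ℕ} {i j : Fin k} (hij : i ≠ j) :
    ({y : Fin k → V | y i = y j}).ncard ≤ Fintype.card V ^ (k - 1) := by
  classical
  let T := {l : Fin k // l ≠ i} → V
  let r : (Fin k → V) → T := fun y l => y l
  have hinj : Set.InjOn r {y : Fin k → V | y i = y j} := by
    intro y hy z hz hyz
    have hyz' : ∀ l : Fin k, l ≠ i → y l = z l := fun l hl => congrFun hyz ⟨l, hl⟩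
    funext l
    by_cases hl : l = i
    · rw [hl]
      have h1 : y i = y j := hy
      have h2 : z i = z j := hz
      rw [h1, h2]
      exact hyz' j hij.symm
    · exact hyz' l hl
  have hcard : Fintype.card T = Fintype.card V ^ (k - 1) := by
    rw [Fintype.card_fun]
    congr 1
    rw [Fintype.card_subtype_compl]
    simp
  rw [← hcard]
  calc ({y : Fin k → V | y i = y j}).ncard ≤ (Set.univ : Set T).ncard :=
        Set.ncard_le_ncard_of_injOn r (fun _ _ => Set.mem_univ _) hinj (Set.toFinite _)
    _ = Fintype.card T := by rw [Set.ncard_univ, Nat.card_eq_fintype_card]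

end INJ_

open INJ_ in
theorem inj_proof : Stmt_INJ := by
  classical
  intro V _ G k _
  constructor
  · unfold lc cwn
    exact Set.ncard_le_ncard (fun y hy => hy.1) (Set.toFinite _)
  · let P : Finset (Fin k × Fin k) := Finset.univ.filter fun p => p.1 ≠ p.2
    let E : Fin k × Fin k → Finset (Fin k → V) := fun p =>
      Finset.univ.filter fun y => y p.1 = y p.2
    have hE : ∀ p ∈ P, (E p).card ≤ Fintype.card V ^ (k - 1) := by
      intro p hp
      have h1 : ({y : Fin k → V | y p.1 = y p.2} : Set _) = (E p : Set (Fin k → V)) := by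
        ext y
        simp [E]
      have h2 := card_eq_le (V := V) (Finset.mem_filter.mp hp).2
      rw [h1, Set.ncard_coe_finset] at h2
      exact h2
    have hsub : cws G k ⊆ {y : Fin k → V | y ∈ cws G k ∧ Function.Injective y} ∪
        ((P.biUnion E : Finset (Fin k → V)) : Set (Fin k → V)) := by
      intro y hy
      by_cases hinj : Function.Injective y
      · exact Or.inl ⟨hy, hinj⟩
      · right
        unfold Function.Injective at hinj
        push Not at hinj
        obtain ⟨i, j, hij, hne⟩ := hinj
        rw [Finset.mem_coe, Finset.mem_biUnion]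
        exact ⟨(i, j), Finset.mem_filter.mpr ⟨Finset.mem_univ _, hne⟩,
          Finset.mem_filter.mpr ⟨Finset.mem_univ _, hij⟩⟩
    have hU : (P.biUnion E).card ≤ k ^ 2 * Fintype.card V ^ (k - 1) := by
      calc (P.biUnion E).card ≤ ∑ p ∈ P, (E p).card := Finset.card_biUnion_le
        _ ≤ ∑ _p ∈ P, Fintype.card V ^ (k - 1) := Finset.sum_le_sum hE
        _ = P.card * Fintype.card V ^ (k - 1) := by rw [Finset.sum_const, smul_eq_mul]
        _ ≤ k ^ 2 * Fintype.card V ^ (k - 1) := by
          apply Nat.mul_le_mul_right
          calc P.card ≤ Fintype.card (Fin k × Fin k) := Finset.card_le_univ P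
            _ = k ^ 2 := by rw [Fintype.card_prod, Fintype.card_fin, sq]
    unfold cwn lc
    calc (cws G k).ncard ≤ ({y : Fin k → V | y ∈ cws G k ∧ Function.Injective y} ∪
        ((P.biUnion E : Finset (Fin k → V)) : Set (Fin k → V))).ncard :=
          Set.ncard_le_ncard hsub (Set.toFinite _)
      _ ≤ ({y : Fin k → V | y ∈ cws G k ∧ Function.Injective y}).ncard +
        (((P.biUnion E : Finset (Fin k → V)) : Set (Fin k → V))).ncard := Set.ncard_union_le _ _
      _ ≤ _ := by
        rw [Set.ncard_coe_finset]
        exact Nat.add_le_add_left hU _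

end Pool.Agent.OCX
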