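import Pool.Agent.OCX.Stmts
import Pool.Agent.OCX.Lib

namespace Pool.Agent.OCX

namespace LBL_

open SimpleGraph

variable {V : Type} {k : ℕ}

/-- copies are the same as injective closed walks -/
def eqv (G : SimpleGraph V) (k : ℕ) :
    Copy (cycleGraph k) G ≃ {y : Fin k → V // y ∈ cws G k ∧ Function.Injective y} where
  toFun f := ⟨f.toHom, fun _ _ h => f.toHom.map_adj h, f.injective'⟩
  invFun y := ⟨⟨y.1, fun {i j} h => y.2.1 i j h⟩, y.2.2⟩
  left_inv _ := rfl
  right_inv _ := rfl

theorem lc_eq (G : SimpleGraph V) (k : ℕ) : lc G k = Nat.card (Copy (cycleGraph k) G) := by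
  rw [Nat.card_congr (eqv G k)]
  rfl

theorem toSubgraph_comp {A : SimpleGraph (Fin k)} {G : SimpleGraph V} (f : Copy A G)
    (σ : A ≃g A) : (f.comp σ.toCopy).toSubgraph = f.toSubgraph := by
  apply Subgraph.ext
  · ext x
    simp only [Subgraph.map_verts, Subgraph.verts_top, Set.image_univ, Set.mem_range]
    constructor
    · rintro ⟨a, ha⟩
      exact ⟨σ a, ha⟩
    · rintro ⟨a, ha⟩
      refine ⟨σ.symm a, ?_⟩
      have : (f.comp σ.toCopy).toHom (σ.symm a) = f.toHom (σ (σ.symm a)) := rfl
      rw [this, σ.apply_symm_apply]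
      exact ha
  · ext x y
    simp only [Subgraph.map_adj, Subgraph.top_adj, Relation.map_apply]
    constructor
    · rintro ⟨a, b, hab, ha, hb⟩
      exact ⟨σ a, σ b, σ.map_adj_iff.2 hab, ha, hb⟩
    · rintro ⟨a, b, hab, ha, hb⟩
      refine ⟨σ.symm a, σ.symm b, σ.symm.map_adj_iff.2 hab, ?_, ?_⟩
      · have : (f.comp σ.toCopy).toHom (σ.symm a) = f.toHom (σ (σ.symm a)) := rfl
        rw [this, σ.apply_symm_apply]
        exact ha
      · have : (f.comp σ.toCopy).toHom (σ.symm b) = f.toHom (σ (σ.symm b)) := rfl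
        rw [this, σ.apply_symm_apply]
        exact hb

theorem exists_pre {A : SimpleGraph (Fin k)} {G : SimpleGraph V} {f g : Copy A G}
    (h : f.toSubgraph = g.toSubgraph) (a : Fin k) : ∃ b, g b = f a := by
  have h1 : f a ∈ f.toSubgraph.verts := by
    simp only [Subgraph.map_verts, Subgraph.verts_top, Set.image_univ, Set.mem_range]
    exact ⟨a, rfl⟩
  rw [h] at h1
  simp only [Subgraph.map_verts, Subgraph.verts_top, Set.image_univ, Set.mem_range] at h1
  exact h1

theorem adj_pre {A : SimpleGraph (Fin k)} {G : SimpleGraph V} {f g : Copy A G}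
    (h : f.toSubgraph = g.toSubgraph) {a a' b b' : Fin k} (hb : g b = f a) (hb' : g b' = f a')
    (hA : A.Adj a a') : A.Adj b b' := by
  have h1 : f.toSubgraph.Adj (f a) (f a') := by
    simp only [Subgraph.map_adj, Subgraph.top_adj, Relation.map_apply]
    exact ⟨a, a', hA, rfl, rfl⟩
  rw [h] at h1
  simp only [Subgraph.map_adj, Subgraph.top_adj, Relation.map_apply] at h1
  obtain ⟨c, c', hc, h2, h3⟩ := h1
  have h4 : c = b := g.injective (h2.trans hb.symm)
  have h5 : c' = b' := g.injective (h3.trans hb'.symm)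
  rwa [← h4, ← h5]

theorem exists_iso {A : SimpleGraph (Fin k)} {G : SimpleGraph V} {f g : Copy A G}
    (h : f.toSubgraph = g.toSubgraph) : ∃ σ : A ≃g A, g.comp σ.toCopy = f := by
  choose s hs using exists_pre h
  choose r hr using exists_pre h.symm
  have h1 : ∀ a, r (s a) = a := fun a => f.injective ((hr (s a)).trans (hs a))
  have h2 : ∀ a, s (r a) = a := fun a => g.injective ((hs (r a)).trans (hr a))
  refine ⟨⟨⟨s, r, h1, h2⟩, ?_⟩, ?_⟩
  · intro a b
    constructor
    · intro hab
      exact adj_pre h.symm (hs a).symm (hs b).symm hab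
    · intro hab
      exact adj_pre h (hs a) (hs b) hab
  · apply Copy.ext
    intro a
    exact hs a

theorem card_fib [Fintype V] {A : SimpleGraph (Fin k)} {G : SimpleGraph V} (g : Copy A G) :
    Nat.card {f : Copy A G // f.toSubgraph = g.toSubgraph} = Nat.card (A ≃g A) := by
  symm
  refine Nat.card_congr (Equiv.ofBijective
    (fun σ => ⟨g.comp σ.toCopy, toSubgraph_comp g σ⟩) ⟨?_, ?_⟩)
  · intro σ τ h
    have h1 : g.comp σ.toCopy = g.comp τ.toCopy := congrArg Subtype.val h
    apply RelIso.ext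
    intro a
    have h2 : g.comp σ.toCopy a = g.comp τ.toCopy a := by rw [h1]
    exact g.injective h2
  · rintro ⟨f, hf⟩
    obtain ⟨σ, hσ⟩ := exists_iso hf
    exact ⟨σ, Subtype.ext hσ⟩

theorem card_copy [Fintype V] (A : SimpleGraph (Fin k)) (G : SimpleGraph V) :
    Nat.card (Copy A G) = Nat.card (A ≃g A) * G.copyCount A := by
  classical
  rw [copyCount_eq_card_image_copyToSubgraph, Nat.card_eq_fintype_card, ← Finset.card_univ,
    Finset.card_eq_sum_card_image Copy.toSubgraph (Finset.univ : Finset (Copy A G)),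
    Finset.sum_const_nat (m := Nat.card (A ≃g A))]
  · rw [mul_comm]
  · intro G' hG'
    obtain ⟨g, -, rfl⟩ := Finset.mem_image.1 hG'
    rw [← card_fib g, Nat.card_eq_fintype_card, Fintype.card_subtype]

end LBL_

theorem lbl_proof : Stmt_LBL := by
  intro n k G G' _ h
  rw [LBL_.lc_eq, LBL_.lc_eq, LBL_.card_copy, LBL_.card_copy]
  exact Nat.mul_le_mul_left _ h

end Pool.Agent.OCX
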