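import Pool.Agent.OCX.Stmts
import Pool.Agent.OCX.Lib

/-!
# The optimal blow-up
-/

open scoped BigOperators
open Filter Topology

namespace Pool.Agent.OCX

namespace LOW_

/-- prescribed class sizes -/
theorem exists_classes {n g : ℕ} (hg : 0 < g) (s : Fin g → ℕ) (h : ∑ i, s i ≤ n) :
    ∃ F : Fin n → Fin g, ∀ i, s i ≤ {x | F x = i}.ncard := by
  classical
  haveI : NeZero g := ⟨hg.ne'⟩
  have hc : Fintype.card (Σ i : Fin g, Fin (s i)) ≤ Fintype.card (Fin n) := by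
    rw [Fintype.card_sigma, Fintype.card_fin]
    simpa using h
  obtain ⟨e⟩ := Function.Embedding.nonempty_of_card_le hc
  refine ⟨fun x => if hx : ∃ p, e p = x then hx.choose.1 else 0, ?_⟩
  intro i
  have h1 : (Set.univ : Set (Fin (s i))).ncard = s i := by
    rw [Set.ncard_univ, Nat.card_eq_fintype_card, Fintype.card_fin]
  rw [← h1]
  apply Set.ncard_le_ncard_of_injOn (fun r => e ⟨i, r⟩)
  · intro r _
    show (if hx : ∃ p, e p = e ⟨i, r⟩ then hx.choose.1 else 0) = i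
    have hx : ∃ p, e p = e ⟨i, r⟩ := ⟨_, rfl⟩
    rw [dif_pos hx]
    have := e.injective hx.choose_spec
    rw [this]
  · intro r _ r' _ hr
    have h2 : (⟨i, r⟩ : Σ i : Fin g, Fin (s i)) = ⟨i, r'⟩ := e.injective hr
    simpa using h2

/-- the sizes -/
def sz (t A B C : ℕ) (i : Fin (2 * t + 5)) : ℕ :=
  if (i : ℕ) ≤ 1 then A else if (i : ℕ) = 2 ∨ (i : ℕ) = 2 * t + 4 then B else C

theorem sum_sz (t A B C : ℕ) : ∑ i, sz t A B C i = 2 * A + 2 * B + (2 * t + 1) * C := by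
  have e0 : ∀ i : Fin (2 * t + 5), (i : ℕ) ≤ 1 → sz t A B C i = A := by
    intro i hi
    unfold sz
    rw [if_pos hi]
  have e1 : ∀ i : Fin (2 * t + 5), (i : ℕ) = 2 ∨ (i : ℕ) = 2 * t + 4 → sz t A B C i = B := by
    intro i hi
    unfold sz
    rw [if_neg (by omega), if_pos hi]
  have e2 : ∀ i : Fin (2 * t + 5), 3 ≤ (i : ℕ) → (i : ℕ) ≤ 2 * t + 3 → sz t A B C i = C := by
    intro i h1 h2
    unfold sz
    rw [if_neg (by omega), if_neg (by omega)]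
  rw [Fin.sum_univ_succ, Fin.sum_univ_succ, Fin.sum_univ_succ, Fin.sum_univ_castSucc]
  rw [e0 _ (by simp), e0 _ (by simp), e1 _ (by left; simp), e1 _ (by right; simp)]
  rw [Finset.sum_congr rfl (fun i _ => e2 _ (by simp) (by
    have := i.2
    simp
    omega))]
  rw [Finset.sum_const, Finset.card_univ, Fintype.card_fin, smul_eq_mul]
  ring

/-- the limit in `k` -/
theorem lim_k (t : ℕ) : Tendsto (fun k : ℕ =>
    4 * ((1 - (2 * t + 1 : ℝ) / k) / 2 - 1 / (2 * Real.sqrt k)) ^ 2 *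
      (1 + (-(2 * t + 1 : ℝ)) / k) ^ k *
      (1 + -(1 / ((k : ℝ) * (1 - (2 * t + 1 : ℝ) / k) ^ 2))) ^ k) atTop
    (𝓝 (Real.exp (-(2 * t + 2)))) := by
  have hk : Tendsto (fun k : ℕ => (k : ℝ)) atTop atTop := tendsto_natCast_atTop_atTop
  have h1 : Tendsto (fun k : ℕ => (2 * t + 1 : ℝ) / k) atTop (𝓝 0) :=
    tendsto_const_nhds.div_atTop hk
  have h2 : Tendsto (fun k : ℕ => 1 / (2 * Real.sqrt k)) atTop (𝓝 0) := by
    apply tendsto_const_nhds.div_atTop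
    apply Tendsto.const_mul_atTop (by norm_num)
    exact Real.tendsto_sqrt_atTop.comp hk
  have h3 : Tendsto (fun k : ℕ => 1 - (2 * t + 1 : ℝ) / k) atTop (𝓝 1) := by
    have := (tendsto_const_nhds (x := (1 : ℝ))).sub h1
    rwa [sub_zero] at this
  have h4 : Tendsto (fun k : ℕ =>
      4 * ((1 - (2 * t + 1 : ℝ) / k) / 2 - 1 / (2 * Real.sqrt k)) ^ 2) atTop (𝓝 1) := by
    have := (((h3.div_const 2).sub h2).pow 2).const_mul 4
    have e : (4 : ℝ) * (1 / 2 - 0) ^ 2 = 1 := by norm_num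
    rwa [e] at this
  have h5 : Tendsto (fun k : ℕ => (1 + (-(2 * t + 1 : ℝ)) / k) ^ k) atTop
      (𝓝 (Real.exp (-(2 * t + 1)))) := Real.tendsto_one_add_div_pow_exp _
  have h6 : Tendsto (fun k : ℕ =>
      (1 + -(1 / ((k : ℝ) * (1 - (2 * t + 1 : ℝ) / k) ^ 2))) ^ k) atTop (𝓝 (Real.exp (-1))) := by
    apply Real.tendsto_one_add_pow_exp_of_tendsto
    have h7 : Tendsto (fun k : ℕ => -(1 / (1 - (2 * t + 1 : ℝ) / k) ^ 2)) atTop (𝓝 (-1)) := by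
      have := ((tendsto_const_nhds (x := (1 : ℝ))).div (h3.pow 2) (by norm_num)).neg
      have e : (-(1 / (1 : ℝ) ^ 2)) = -1 := by norm_num
      rwa [e] at this
    refine h7.congr' ?_
    filter_upwards [eventually_gt_atTop 0] with k hk0
    have : (k : ℝ) ≠ 0 := by exact_mod_cast hk0.ne'
    rw [one_div, one_div, mul_inv, mul_neg, ← mul_assoc, mul_inv_cancel₀ this, one_mul]
  have h8 := (h4.mul h5).mul h6
  rw [one_mul, ← Real.exp_add] at h8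
  have e : (-(2 * (t : ℝ) + 1) + -1) = -(2 * t + 2) := by ring
  rwa [e] at h8

/-- the limit in `n` -/
theorem lim_n (k t : ℕ) (a b p : ℝ) (ha : 0 < a) (hb : 0 < b) (hp : 0 < p) :
    Tendsto (fun n : ℕ =>
      2 * k * ((⌊p * n⌋₊ : ℝ) / n) ^ (2 * t + 1) * ((⌊b * n⌋₊ : ℝ) / n) ^ 2 *
        ((⌊a * n⌋₊ : ℝ) / n) ^ 2 *
        ((⌊a * n⌋₊ : ℝ) / n + (⌊b * n⌋₊ : ℝ) / n) ^ (k - (2 * t + 5)) *
        (1 - (((⌊b * n⌋₊ : ℝ) / n) / ((⌊a * n⌋₊ : ℝ) / n + (⌊b * n⌋₊ : ℝ) / n)) ^ 2) ^ k) atTop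
    (𝓝 (2 * k * p ^ (2 * t + 1) * b ^ 2 * a ^ 2 * (a + b) ^ (k - (2 * t + 5)) *
      (1 - (b / (a + b)) ^ 2) ^ k)) := by
  have hk : Tendsto (fun k : ℕ => (k : ℝ)) atTop atTop := tendsto_natCast_atTop_atTop
  have h1 : ∀ c : ℝ, 0 < c → Tendsto (fun n : ℕ => (⌊c * n⌋₊ : ℝ) / n) atTop (𝓝 c) :=
    fun c hc => (tendsto_nat_floor_mul_div_atTop hc.le).comp hk
  have hA := h1 a ha
  have hB := h1 b hb
  have hC := h1 p hp
  have hab : a + b ≠ 0 := by positivity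
  exact (((((hC.pow _).const_mul _).mul (hB.pow _)).mul (hA.pow _)).mul ((hA.add hB).pow _)).mul
    (((hB.div (hA.add hB) hab).pow _).const_sub 1 |>.pow _)

end LOW_

open LOW_ in
theorem low_proof (h1 : Stmt_LWA) : Stmt_LOW := by
  intro t ξ hξ
  have hlim := lim_k t
  have hexp : Real.exp (-(2 * (t : ℝ) + 2)) * (1 - ξ) < Real.exp (-(2 * t + 2)) := by
    have := Real.exp_pos (-(2 * (t : ℝ) + 2))
    nlinarith
  have hev := hlim.eventually (lt_mem_nhds hexp)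
  have hev2 : ∀ᶠ k : ℕ in atTop, 0 < (1 - (2 * t + 1 : ℝ) / k) / 2 - 1 / (2 * Real.sqrt k) := by
    have hk : Tendsto (fun k : ℕ => (k : ℝ)) atTop atTop := tendsto_natCast_atTop_atTop
    have h1 : Tendsto (fun k : ℕ => (2 * t + 1 : ℝ) / k) atTop (𝓝 0) :=
      tendsto_const_nhds.div_atTop hk
    have h2 : Tendsto (fun k : ℕ => 1 / (2 * Real.sqrt k)) atTop (𝓝 0) := by
      apply tendsto_const_nhds.div_atTop
      apply Tendsto.const_mul_atTop (by norm_num)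
      exact Real.tendsto_sqrt_atTop.comp hk
    have h3 := ((h1.const_sub 1).div_const 2).sub h2
    exact h3.eventually (lt_mem_nhds (by norm_num))
  obtain ⟨k1, hk1⟩ := eventually_atTop.mp (hev.and hev2)
  refine ⟨max k1 (2 * t + 6), ?_⟩
  intro k hk hodd
  have hkk : 2 * t + 6 ≤ k := le_trans (le_max_right _ _) hk
  obtain ⟨hV, hapos⟩ := hk1 k (le_trans (le_max_left _ _) hk)
  have hk0 : (0 : ℝ) < k := by
    have : 0 < k := by omega
    exact_mod_cast this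
  obtain ⟨p, hp⟩ : ∃ p : ℝ, p = 1 / k := ⟨_, rfl⟩
  obtain ⟨b, hb⟩ : ∃ b : ℝ, b = 1 / (2 * Real.sqrt k) := ⟨_, rfl⟩
  obtain ⟨q, hq⟩ : ∃ q : ℝ, q = 1 - (2 * t + 1 : ℝ) / k := ⟨_, rfl⟩
  obtain ⟨a, ha⟩ : ∃ a : ℝ, a = q / 2 - b := ⟨_, rfl⟩
  have hp0 : 0 < p := by rw [hp]; positivity
  have hb0 : 0 < b := by rw [hb]; positivity
  have ha0 : 0 < a := by rw [ha, hq, hb]; exact hapos
  have hq0 : 0 < q := by linarith
  have hq1 : q ≤ 1 := by
    rw [hq]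
    have : 0 ≤ (2 * t + 1 : ℝ) / k := by positivity
    linarith
  have hab : a + b = q / 2 := by rw [ha]; ring
  have hb2 : b ^ 2 = 1 / (4 * k) := by
    rw [hb, div_pow, mul_pow, Real.sq_sqrt hk0.le]
    norm_num
  have hx : (b / (a + b)) ^ 2 = 1 / (k * q ^ 2) := by
    rw [div_pow, hb2, hab]
    field_simp
    norm_num
  obtain ⟨y, hy⟩ : ∃ y : ℝ, y = 1 - (b / (a + b)) ^ 2 := ⟨_, rfl⟩
  have hy0 : 0 ≤ y := by
    rw [hy]
    have : b / (a + b) ≤ 1 := by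
      rw [div_le_one (by linarith)]
      linarith
    have h0 : 0 ≤ b / (a + b) := by positivity
    nlinarith
  have hV' : Real.exp (-(2 * (t : ℝ) + 2)) * (1 - ξ) < 4 * a ^ 2 * q ^ k * y ^ k := by
    have e1 : (1 + (-(2 * t + 1 : ℝ)) / k) = q := by rw [hq]; ring
    have e2 : (1 + -(1 / ((k : ℝ) * (1 - (2 * t + 1 : ℝ) / k) ^ 2))) = y := by
      rw [hy, hx, hq]
      ring
    rw [e1, e2, ← hq, ← hb, ← ha] at hV
    exact hV
  have hqk : q ^ k ≤ q ^ (k - (2 * t + 5)) := pow_le_pow_of_le_one hq0.le hq1 (by omega)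
  obtain ⟨V, hVd⟩ : ∃ V : ℝ, V = 2 * k * p ^ (2 * t + 1) * b ^ 2 * a ^ 2 *
      (a + b) ^ (k - (2 * t + 5)) * (1 - (b / (a + b)) ^ 2) ^ k := ⟨_, rfl⟩
  have hVe : V = (1 / 2) ^ k * 4 ^ (t + 1) * p ^ (2 * t + 1) *
      (4 * a ^ 2 * q ^ (k - (2 * t + 5)) * y ^ k) := by
    rw [hVd, ← hy, hab, hb2]
    obtain ⟨r, hr⟩ : ∃ r, k = r + (2 * t + 5) := ⟨k - (2 * t + 5), by omega⟩
    have e3 : k - (2 * t + 5) = r := by omega
    rw [e3]
    have e4 : (1 / 2 : ℝ) ^ k = (1 / 2) ^ r * (1 / 2) ^ (2 * t + 5) := by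
      rw [hr, pow_add]
    have e5 : (1 / 2 : ℝ) ^ (2 * t + 5) * 4 ^ (t + 1) = 1 / 8 := by
      have : (4 : ℝ) = 2 ^ 2 := by norm_num
      rw [this, ← pow_mul, one_div, inv_pow]
      have e6 : (2 : ℝ) ^ (2 * t + 5) = 2 ^ (2 * (t + 1)) * 8 := by
        rw [show 2 * t + 5 = 2 * (t + 1) + 3 by ring, pow_add]
        norm_num
      rw [e6]
      field_simp
    have e7 : (q / 2) ^ r = q ^ r * (1 / 2) ^ r := by rw [← mul_pow]; congr 1; ring
    rw [e4, e7]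
    have e8 : (1 / 2 : ℝ) ^ r * (1 / 2) ^ (2 * t + 5) * 4 ^ (t + 1) = (1 / 2) ^ r * (1 / 8) := by
      rw [mul_assoc, e5]
    rw [e8]
    field_simp
    ring
  have hlowV : lowb t k * (1 - ξ) < V := by
    unfold lowb
    rw [hVe, ← hp]
    have hc : 0 < (1 / 2 : ℝ) ^ k * 4 ^ (t + 1) * p ^ (2 * t + 1) := by positivity
    have h7 : 4 * a ^ 2 * q ^ k * y ^ k ≤ 4 * a ^ 2 * q ^ (k - (2 * t + 5)) * y ^ k := by
      gcongr
    calc (1 / 2 : ℝ) ^ k * 4 ^ (t + 1) * p ^ (2 * t + 1) * Real.exp (-(2 * t + 2)) * (1 - ξ)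
        = ((1 / 2 : ℝ) ^ k * 4 ^ (t + 1) * p ^ (2 * t + 1)) *
          (Real.exp (-(2 * t + 2)) * (1 - ξ)) := by ring
      _ < ((1 / 2 : ℝ) ^ k * 4 ^ (t + 1) * p ^ (2 * t + 1)) *
          (4 * a ^ 2 * q ^ (k - (2 * t + 5)) * y ^ k) := by
        apply mul_lt_mul_of_pos_left _ hc
        linarith
  have hlimn := lim_n k t a b p ha0 hb0 hp0
  rw [← hVd] at hlimn
  have hev3 := hlimn.eventually (lt_mem_nhds hlowV)
  obtain ⟨n1, hn1⟩ := eventually_atTop.mp hev3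
  refine ⟨max n1 (⌈1 / a⌉₊ + 1), ?_⟩
  intro n hn
  have hn' := hn1 n (le_trans (le_max_left _ _) hn)
  have hna : 1 / a ≤ (n : ℝ) := by
    have : ⌈1 / a⌉₊ ≤ n := by
      have := le_trans (le_max_right n1 (⌈1 / a⌉₊ + 1)) hn
      omega
    exact le_trans (Nat.le_ceil _) (by exact_mod_cast this)
  have hn0 : (0 : ℝ) < n := lt_of_lt_of_le (by positivity) hna
  have hA1 : 1 ≤ ⌊a * n⌋₊ := by
    apply Nat.le_floor
    rw [div_le_iff₀ ha0] at hna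
    push_cast
    linarith
  have hsum : ∑ i, sz t ⌊a * n⌋₊ ⌊b * n⌋₊ ⌊p * n⌋₊ i ≤ n := by
    rw [sum_sz]
    have f1 : (⌊a * n⌋₊ : ℝ) ≤ a * n := Nat.floor_le (by positivity)
    have f2 : (⌊b * n⌋₊ : ℝ) ≤ b * n := Nat.floor_le (by positivity)
    have f3 : (⌊p * n⌋₊ : ℝ) ≤ p * n := Nat.floor_le (by positivity)
    have f4 : 2 * (⌊a * n⌋₊ : ℝ) + 2 * ⌊b * n⌋₊ + (2 * t + 1) * ⌊p * n⌋₊ ≤ n := by
      have f5 : (2 * t + 1 : ℝ) * ⌊p * n⌋₊ ≤ (2 * t + 1) * (p * n) := by gcongr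
      have f6 : 2 * (a * n) + 2 * (b * n) + (2 * t + 1) * (p * n) = n := by
        have : 2 * (a + b) + (2 * t + 1) * p = 1 := by
          rw [hab, hq, hp]
          ring
        calc 2 * (a * n) + 2 * (b * n) + (2 * t + 1) * (p * n)
            = (2 * (a + b) + (2 * t + 1) * p) * n := by ring
          _ = n := by rw [this, one_mul]
      linarith
    exact_mod_cast f4
  obtain ⟨F, hF⟩ := exists_classes (n := n) (g := 2 * t + 5) (by omega) _ hsum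
  refine ⟨F, ?_⟩
  have hw := h1 t k n (⌊a * n⌋₊ : ℝ) (⌊b * n⌋₊ : ℝ) (⌊p * n⌋₊ : ℝ) F hodd (by omega)
    (by exact_mod_cast hA1) (Nat.cast_nonneg _) (Nat.cast_nonneg _)
    (by
      intro i hi
      have := hF i
      unfold sz at this
      rw [if_pos hi] at this
      exact_mod_cast this)
    (by
      intro i hi
      have := hF i
      unfold sz at this
      rw [if_neg (by omega), if_pos hi] at this
      exact_mod_cast this)
    (by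
      intro i hi1 hi2
      have := hF i
      unfold sz at this
      rw [if_neg (by omega), if_neg (by omega)] at this
      exact_mod_cast this)
  refine le_trans ?_ hw
  have hnk : (n : ℝ) ^ k = (n : ℝ) ^ (2 * t + 1) * (n : ℝ) ^ 2 * (n : ℝ) ^ 2 *
      (n : ℝ) ^ (k - (2 * t + 5)) := by
    rw [← pow_add, ← pow_add, ← pow_add]
    congr 1
    omega
  have hfin : 2 * k * ((⌊p * n⌋₊ : ℝ) / n) ^ (2 * t + 1) * ((⌊b * n⌋₊ : ℝ) / n) ^ 2 *
        ((⌊a * n⌋₊ : ℝ) / n) ^ 2 *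
        ((⌊a * n⌋₊ : ℝ) / n + (⌊b * n⌋₊ : ℝ) / n) ^ (k - (2 * t + 5)) *
        (1 - (((⌊b * n⌋₊ : ℝ) / n) / ((⌊a * n⌋₊ : ℝ) / n + (⌊b * n⌋₊ : ℝ) / n)) ^ 2) ^ k * n ^ k =
      2 * k * (⌊p * n⌋₊ : ℝ) ^ (2 * t + 1) * (⌊b * n⌋₊ : ℝ) ^ 2 * (⌊a * n⌋₊ : ℝ) ^ 2 *
        ((⌊a * n⌋₊ : ℝ) + ⌊b * n⌋₊) ^ (k - (2 * t + 5)) *
        (1 - ((⌊b * n⌋₊ : ℝ) / ((⌊a * n⌋₊ : ℝ) + ⌊b * n⌋₊)) ^ 2) ^ k := by
    rw [← add_div, div_div_div_cancel_right₀ hn0.ne', hnk, div_pow, div_pow, div_pow, div_pow]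
    field_simp
  rw [← hfin]
  exact mul_le_mul_of_nonneg_right hn'.le (by positivity)

end Pool.Agent.OCX
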