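import Pool.Agent.OCX.Stmts
import Pool.Agent.OCX.Lib

/-!
# Module LWA: counting closed walks in the blow-up
-/

set_option linter.unusedSectionVars false

open scoped BigOperators

namespace Pool.Agent.OCX

noncomputable section

namespace LWA_

/-! ### sequences without two adjacent ones -/

/-- no two adjacent ones -/
def NA {m : ℕ} (s : Fin (m + 1) → Bool) : Prop :=
  ∀ i : Fin m, ¬ (s i.castSucc = true ∧ s i.succ = true)

instance {m : ℕ} (s : Fin (m + 1) → Bool) : Decidable (NA s) := by unfold NA; infer_instance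

/-- weight -/
def wt (α β : ℝ) (b : Bool) : ℝ := if b then β else α

/-- weight of the admissible sequences following `b` -/
def U (α β : ℝ) (m : ℕ) (b : Bool) : ℝ :=
  ∑ s : Fin m → Bool, if NA (Fin.cons b s : Fin (m + 1) → Bool) then ∏ i, wt α β (s i) else 0

theorem NA_cons {m : ℕ} (b b' : Bool) (s : Fin m → Bool) :
    NA (Fin.cons b (Fin.cons b' s : Fin (m + 1) → Bool) : Fin (m + 2) → Bool) ↔
      ¬ (b = true ∧ b' = true) ∧ NA (Fin.cons b' s : Fin (m + 1) → Bool) := by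
  unfold NA
  rw [Fin.forall_fin_succ]
  constructor
  · rintro ⟨h1, h2⟩
    exact ⟨h1, fun i => h2 i⟩
  · rintro ⟨h1, h2⟩
    exact ⟨h1, fun i => h2 i⟩

theorem U_zero (α β : ℝ) (b : Bool) : U α β 0 b = 1 := by
  unfold U
  rw [Fintype.sum_unique, Fin.prod_univ_zero, if_pos]
  intro i
  exact i.elim0

theorem U_succ (α β : ℝ) (m : ℕ) (b : Bool) :
    U α β (m + 1) b = α * U α β m false + (if b then 0 else β * U α β m true) := by
  unfold U
  rw [← (Fin.consEquiv fun _ => Bool).sum_comp, Fintype.sum_prod_type, Fintype.sum_bool, add_comm]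
  have key : ∀ b' : Bool, ∑ s : Fin m → Bool,
      (if NA (Fin.cons b ((Fin.consEquiv fun _ => Bool) (b', s)) : Fin (m + 2) → Bool) then
        ∏ i, wt α β ((Fin.consEquiv fun _ => Bool) (b', s) i) else 0) =
      if b = true ∧ b' = true then 0 else wt α β b' * ∑ s : Fin m → Bool,
        if NA (Fin.cons b' s : Fin (m + 1) → Bool) then ∏ i, wt α β (s i) else 0 := by
    intro b'
    have hc : ∀ s : Fin m → Bool, ((Fin.consEquiv fun _ => Bool) (b', s) : Fin (m + 1) → Bool) =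
      Fin.cons b' s := fun s => rfl
    simp only [hc]
    by_cases hb : b = true ∧ b' = true
    · rw [if_pos hb]
      refine Finset.sum_eq_zero fun s _ => if_neg ?_
      intro h
      exact ((NA_cons b b' s).1 h).1 hb
    · rw [if_neg hb, Finset.mul_sum]
      refine Finset.sum_congr rfl fun s _ => ?_
      by_cases h : NA (Fin.cons b' s : Fin (m + 1) → Bool)
      · rw [if_pos h, if_pos ((NA_cons b b' s).2 ⟨hb, h⟩), Fin.prod_univ_succ]
        rfl
      · rw [if_neg h, if_neg fun h2 => h ((NA_cons b b' s).1 h2).2, mul_zero]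
  rw [key false, key true, if_neg (by simp)]
  cases b <;> simp [wt]

theorem U_nonneg {α β : ℝ} (hα : 0 ≤ α) (hβ : 0 ≤ β) (m : ℕ) (b : Bool) : 0 ≤ U α β m b := by
  unfold U
  refine Finset.sum_nonneg fun s _ => ?_
  split_ifs
  · exact Finset.prod_nonneg fun i _ => by unfold wt; split_ifs <;> assumption
  · exact le_refl _

theorem U_bound {α β : ℝ} (hα : 0 < α) (hβ : 0 ≤ β) (m : ℕ) :
    (α + β) * (1 - (β / (α + β)) ^ 2) * U α β m false ≤ U α β (m + 1) false ∧
      U α β (m + 1) false ≤ (α + β) * U α β m false := by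
  have hS : 0 < α + β := by linarith
  have hid : (α + β) * (1 - (β / (α + β)) ^ 2) = α * (1 + β / (α + β)) := by
    field_simp
    ring
  have hx0 : 0 ≤ β / (α + β) := div_nonneg hβ hS.le
  rw [hid]
  induction m with
  | zero =>
    rw [U_succ, U_zero, U_zero]
    simp only [Bool.false_eq_true, if_false, mul_one]
    refine ⟨?_, le_refl _⟩
    have : α * (β / (α + β)) ≤ β := by
      rw [mul_div_assoc', div_le_iff₀ hS]
      nlinarith [mul_nonneg hβ hβ]
    nlinarith
  | succ m ih =>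
    obtain ⟨h1, h2⟩ := ih
    have e1 : U α β (m + 1 + 1) false = α * U α β (m + 1) false + β * (α * U α β m false) := by
      rw [U_succ α β (m + 1) false, U_succ α β m true]
      simp
    rw [e1]
    have hU := U_nonneg hα.le hβ m false
    constructor
    · have h3 : β / (α + β) * U α β (m + 1) false ≤ β * U α β m false := by
        calc β / (α + β) * U α β (m + 1) false ≤ β / (α + β) * ((α + β) * U α β m false) :=
              mul_le_mul_of_nonneg_left h2 hx0
          _ = β * U α β m false := by field_simp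
      nlinarith [mul_le_mul_of_nonneg_left h3 hα.le]
    · have h3 : α * U α β m false ≤ U α β (m + 1) false := by
        refine le_trans ?_ h1
        have : α ≤ α * (1 + β / (α + β)) := by nlinarith [mul_nonneg hα.le hx0]
        exact mul_le_mul_of_nonneg_right this hU
      nlinarith [mul_le_mul_of_nonneg_left h3 hβ]

theorem U_ge {α β : ℝ} (hα : 0 < α) (hβ : 0 ≤ β) (m : ℕ) :
    (α + β) ^ m * (1 - (β / (α + β)) ^ 2) ^ m ≤ U α β m false := by
  have hS : 0 < α + β := by linarith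
  have hx1 : (β / (α + β)) ≤ 1 := by rw [div_le_one hS]; linarith
  have hx0 : 0 ≤ β / (α + β) := div_nonneg hβ hS.le
  have hy : 0 ≤ 1 - (β / (α + β)) ^ 2 := by nlinarith
  induction m with
  | zero => rw [U_zero]; simp
  | succ m ih =>
    refine le_trans ?_ (U_bound hα hβ m).1
    calc (α + β) ^ (m + 1) * (1 - (β / (α + β)) ^ 2) ^ (m + 1)
        = (α + β) * (1 - (β / (α + β)) ^ 2) * ((α + β) ^ m * (1 - (β / (α + β)) ^ 2) ^ m) := by ring
      _ ≤ _ := mul_le_mul_of_nonneg_left ih (mul_nonneg hS.le hy)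

/-! ### the pattern -/

/-- extension of a sequence by `false` -/
def ex {m : ℕ} (s : Fin m → Bool) (i : ℕ) : Bool :=
  if h : 1 ≤ i ∧ i ≤ m then s ⟨i - 1, by omega⟩ else false

theorem ex_succ {m : ℕ} (s : Fin m → Bool) (i : Fin m) : ex s (i + 1) = s i := by
  unfold ex
  rw [dif_pos ⟨by omega, by omega⟩]
  rfl

theorem ex_na {m : ℕ} (s : Fin m → Bool) (h : NA (Fin.cons false s : Fin (m + 1) → Bool)) (i : ℕ) :
    ¬ (ex s i = true ∧ ex s (i + 1) = true) := by
  rintro ⟨h1, h2⟩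
  unfold ex at h1 h2
  by_cases hi : 1 ≤ i ∧ i ≤ m
  · by_cases hi2 : 1 ≤ i + 1 ∧ i + 1 ≤ m
    · rw [dif_pos hi] at h1
      rw [dif_pos hi2] at h2
      have h3 := h ⟨i, by omega⟩
      apply h3
      constructor
      · have e : (Fin.castSucc (⟨i, by omega⟩ : Fin m)) = Fin.succ ⟨i - 1, by omega⟩ := by
          apply Fin.ext
          show i = i - 1 + 1
          omega
        rw [e, Fin.cons_succ]
        exact h1
      · rw [Fin.cons_succ]
        exact h2
    · rw [dif_neg hi2] at h2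
      exact Bool.false_ne_true h2
  · rw [dif_neg hi] at h1
    exact Bool.false_ne_true h1

/-- the class at position `j` -/
def Bn (t : ℕ) (e : ℕ → Bool) (j : ℕ) : ℕ :=
  if j ≤ 2 * t + 2 then j + 2 else
    if Even (j - (2 * t + 3)) then (if e (j - (2 * t + 3)) then 2 else 0)
    else (if e (j - (2 * t + 3)) then 2 * t + 4 else 1)

theorem Bn_lt (t : ℕ) (e : ℕ → Bool) (j : ℕ) : Bn t e j < 2 * t + 5 := by
  unfold Bn
  split_ifs <;> omega

theorem Bn_three (t : ℕ) (e : ℕ → Bool) (j : ℕ) (h : Bn t e j = 3) : j = 1 := by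
  unfold Bn at h
  split_ifs at h <;> omega

/-- adjacency in terms of values -/
theorem adj_of_val {t : ℕ} {a b : Fin (2 * t + 5)}
    (h : (a : ℕ) + 1 = b ∨ ((a : ℕ) = 2 * t + 4 ∧ (b : ℕ) = 0)) :
    (SimpleGraph.cycleGraph (2 * t + 5)).Adj a b := by
  have hb : b = a + 1 := by
    apply Fin.ext
    have hv := Fin.val_add_one (n := 2 * t + 4) a
    rcases h with h | ⟨h1, h2⟩
    · rw [if_neg] at hv
      · exact h.symm.trans hv.symm
      · intro h3
        have h4 := congrArg Fin.val h3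
        rw [Fin.val_last] at h4
        have := b.2
        omega
    · rw [if_pos] at hv
      · exact h2.trans hv.symm
      · apply Fin.ext
        rw [Fin.val_last]
        exact h1
  have key : (SimpleGraph.cycleGraph ((2 * t + 3) + 2)).Adj a b := by
    rw [SimpleGraph.cycleGraph_adj]
    right
    show b - a = 1
    rw [hb]
    exact add_sub_cancel_left a 1
  exact key

theorem adj_of_val2 {t : ℕ} {a b : Fin (2 * t + 5)}
    (h : (a : ℕ) + 1 = b ∨ (b : ℕ) + 1 = a ∨ ((a : ℕ) = 2 * t + 4 ∧ (b : ℕ) = 0) ∨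
      ((b : ℕ) = 2 * t + 4 ∧ (a : ℕ) = 0)) :
    (SimpleGraph.cycleGraph (2 * t + 5)).Adj a b := by
  rcases h with h | h | h | h
  · exact adj_of_val (Or.inl h)
  · exact (adj_of_val (Or.inl h)).symm
  · exact adj_of_val (Or.inr h)
  · exact (adj_of_val (Or.inr h)).symm

theorem Bn_low (t : ℕ) (e : ℕ → Bool) {j : ℕ} (h : j ≤ 2 * t + 2) : Bn t e j = j + 2 := by
  unfold Bn
  rw [if_pos h]

theorem Bn_even (t : ℕ) (e : ℕ → Bool) {i : ℕ} (h : Even i) :
    Bn t e (2 * t + 3 + i) = if e i then 2 else 0 := by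
  unfold Bn
  rw [if_neg (by omega), show 2 * t + 3 + i - (2 * t + 3) = i by omega, if_pos h]

theorem Bn_odd (t : ℕ) (e : ℕ → Bool) {i : ℕ} (h : ¬ Even i) :
    Bn t e (2 * t + 3 + i) = if e i then 2 * t + 4 else 1 := by
  unfold Bn
  rw [if_neg (by omega), show 2 * t + 3 + i - (2 * t + 3) = i by omega, if_neg h]

/-- consecutive values are adjacent -/
theorem Bn_step (t : ℕ) (e : ℕ → Bool) (h0 : e 0 = false) (he : ∀ i, ¬ (e i = true ∧ e (i + 1) = true))
    (j : ℕ) : Bn t e j + 1 = Bn t e (j + 1) ∨ Bn t e (j + 1) + 1 = Bn t e j ∨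
      (Bn t e j = 2 * t + 4 ∧ Bn t e (j + 1) = 0) ∨ (Bn t e (j + 1) = 2 * t + 4 ∧ Bn t e j = 0) := by
  by_cases h1 : j + 1 ≤ 2 * t + 2
  · left
    rw [Bn_low t e (by omega), Bn_low t e h1]
  by_cases h2 : j ≤ 2 * t + 2
  · have hj : j = 2 * t + 2 := by omega
    subst hj
    right; right; left
    rw [Bn_low t e (le_refl _), show 2 * t + 2 + 1 = 2 * t + 3 + 0 by omega, Bn_even t e Even.zero, h0]
    simp
  · obtain ⟨i, rfl⟩ : ∃ i, j = 2 * t + 3 + i := ⟨j - (2 * t + 3), by omega⟩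
    have h3 := he i
    rw [show 2 * t + 3 + i + 1 = 2 * t + 3 + (i + 1) by omega]
    by_cases hp : Even i
    · have hp' : ¬ Even (i + 1) := by rw [Nat.even_add_one]; exact fun h => h hp
      rw [Bn_even t e hp, Bn_odd t e hp']
      cases h4 : e i <;> cases h5 : e (i + 1) <;> simp [h4, h5] at h3 ⊢
    · have hp' : Even (i + 1) := by rw [Nat.even_add_one]; exact hp
      rw [Bn_odd t e hp, Bn_even t e hp']
      cases h4 : e i <;> cases h5 : e (i + 1) <;> simp [h4, h5] at h3 ⊢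

section

variable {t m : ℕ}

/-- the basic pattern -/
def bp (t m : ℕ) (s : Fin m → Bool) (j : Fin (m + 2 * t + 5)) : Fin (2 * t + 5) :=
  ⟨Bn t (ex s) j, Bn_lt t (ex s) j⟩

theorem bp_step (hm : Even m) (s : Fin m → Bool) (hs : NA (Fin.cons false s : Fin (m + 1) → Bool))
    (j : Fin (m + 2 * t + 5)) :
    (SimpleGraph.cycleGraph (2 * t + 5)).Adj (bp t m s j) (bp t m s (j + 1)) := by
  have hv := Fin.val_add_one (n := m + 2 * t + 4) j
  by_cases hj : j = Fin.last (m + 2 * t + 4)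
  · rw [if_pos hj] at hv
    apply adj_of_val2
    left
    show Bn t (ex s) j + 1 = Bn t (ex s) ((j + 1 : Fin (m + 2 * t + 4 + 1)) : ℕ)
    have hex : ex s (m + 1) = false := by
      unfold ex
      rw [dif_neg (by omega)]
    have hj' : (j : ℕ) = 2 * t + 3 + (m + 1) := by
      rw [hj, Fin.val_last]
      omega
    rw [hv, hj', Bn_odd t _ (by rw [Nat.even_add_one]; exact fun h => h hm), Bn_low t _ (by omega), hex]
    simp
  · rw [if_neg hj] at hv
    apply adj_of_val2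
    have h1 := Bn_step t (ex s) (by unfold ex; rw [dif_neg (by omega)]) (ex_na s hs) j
    show Bn t (ex s) j + 1 = Bn t (ex s) ((j + 1 : Fin (m + 2 * t + 4 + 1)) : ℕ) ∨
      Bn t (ex s) ((j + 1 : Fin (m + 2 * t + 4 + 1)) : ℕ) + 1 = Bn t (ex s) j ∨
      (Bn t (ex s) j = 2 * t + 4 ∧ Bn t (ex s) ((j + 1 : Fin (m + 2 * t + 4 + 1)) : ℕ) = 0) ∨
      (Bn t (ex s) ((j + 1 : Fin (m + 2 * t + 4 + 1)) : ℕ) = 2 * t + 4 ∧ Bn t (ex s) j = 0)
    rw [hv]
    exact h1

/-- the patterns -/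
def pt (t m : ℕ) (r : Fin (m + 2 * t + 5)) (o : Bool) (s : Fin m → Bool) (j : Fin (m + 2 * t + 5)) :
    Fin (2 * t + 5) :=
  if o then bp t m s (r + j) else bp t m s (r - j)

theorem pt_hom (hm : Even m) (r : Fin (m + 2 * t + 5)) (o : Bool) (s : Fin m → Bool)
    (hs : NA (Fin.cons false s : Fin (m + 1) → Bool)) (i j : Fin (m + 2 * t + 5))
    (hij : (SimpleGraph.cycleGraph (m + 2 * t + 5)).Adj i j) :
    (SimpleGraph.cycleGraph (2 * t + 5)).Adj (pt t m r o s i) (pt t m r o s j) := by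
  have key : ∀ i : Fin (m + 2 * t + 5),
      (SimpleGraph.cycleGraph (2 * t + 5)).Adj (pt t m r o s i) (pt t m r o s (i + 1)) := by
    intro i
    unfold pt
    cases o
    · simp only [Bool.false_eq_true, if_false]
      have h1 := bp_step (t := t) hm s hs (r - (i + 1))
      have h2 : r - (i + 1) + 1 = r - i := by rw [← sub_sub, sub_add_cancel]
      rw [h2] at h1
      exact h1.symm
    · simp only [if_true]
      have h1 := bp_step (t := t) hm s hs (r + i)
      have h2 : r + i + 1 = r + (i + 1) := add_assoc r i 1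
      rw [h2] at h1
      exact h1
  have h1 : i - j = 1 ∨ j - i = 1 := by
    have h2 : (SimpleGraph.cycleGraph ((m + 2 * t + 3) + 2)).Adj i j := hij
    rw [SimpleGraph.cycleGraph_adj] at h2
    exact h2
  rcases h1 with h1 | h1
  · have h2 : i = j + 1 := by rw [← h1, add_sub_cancel]
    rw [h2]
    exact (key j).symm
  · have h2 : j = i + 1 := by rw [← h1, add_sub_cancel]
    rw [h2]
    exact key i

theorem one_val : ((1 : Fin (m + 2 * t + 5)) : ℕ) = 1 := rfl

theorem two_val : ((1 + 1 : Fin (m + 2 * t + 5)) : ℕ) = 2 := by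
  have h := Fin.val_add_one (n := m + 2 * t + 4) (1 : Fin (m + 2 * t + 5))
  rw [if_neg] at h
  · exact h
  · intro h2
    have h3 := congrArg Fin.val h2
    rw [Fin.val_last, one_val] at h3
    omega

theorem bp_eq_three {s : Fin m → Bool} {j : Fin (m + 2 * t + 5)} (h : (bp t m s j : ℕ) = 3) : j = 1 := by
  apply Fin.ext
  rw [one_val]
  exact Bn_three t (ex s) j h

theorem bp_one (s : Fin m → Bool) : (bp t m s 1 : ℕ) = 3 := by
  show Bn t (ex s) ((1 : Fin (m + 2 * t + 5)) : ℕ) = 3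
  rw [one_val]
  unfold Bn
  rw [if_pos (by omega)]

theorem bp_two (s : Fin m → Bool) : (bp t m s (1 + 1) : ℕ) = 4 := by
  show Bn t (ex s) ((1 + 1 : Fin (m + 2 * t + 5)) : ℕ) = 4
  rw [two_val]
  unfold Bn
  rw [if_pos (by omega)]

theorem bp_zero (s : Fin m → Bool) : (bp t m s 0 : ℕ) = 2 := by
  show Bn t (ex s) ((0 : Fin (m + 2 * t + 5)) : ℕ) = 2
  unfold Bn
  rw [if_pos (by simp)]
  simp

theorem bp_inj {s s' : Fin m → Bool} (h : ∀ j, bp t m s j = bp t m s' j) : s = s' := by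
  funext i
  have h1 : Bn t (ex s) (2 * t + 4 + i) = Bn t (ex s') (2 * t + 4 + i) := by
    have h2 := congrArg Fin.val (h ⟨2 * t + 4 + i, by have := i.2; omega⟩)
    exact h2
  rw [show 2 * t + 4 + (i : ℕ) = 2 * t + 3 + (i + 1) by omega] at h1
  by_cases hp : Even ((i : ℕ) + 1)
  · rw [Bn_even t _ hp, Bn_even t _ hp, ex_succ, ex_succ] at h1
    cases h4 : s i <;> cases h5 : s' i <;> simp [h4, h5] at h1 ⊢
  · rw [Bn_odd t _ hp, Bn_odd t _ hp, ex_succ, ex_succ] at h1
    cases h4 : s i <;> cases h5 : s' i <;> simp [h4, h5] at h1 ⊢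

theorem pt_inj {r r' : Fin (m + 2 * t + 5)} {o o' : Bool} {s s' : Fin m → Bool}
    (h : ∀ j, pt t m r o s j = pt t m r' o' s' j) : r = r' ∧ o = o' ∧ s = s' := by
  cases o <;> cases o'
  · have h1 : ∀ j, bp t m s (r - j) = bp t m s' (r' - j) := fun j => h j
    have h2 := h1 (r - 1)
    rw [sub_sub_cancel] at h2
    have h3 := bp_eq_three (t := t) (s := s') (j := r' - (r - 1)) (by rw [← h2]; exact bp_one s)
    have h4 : r = r' := by
      have h5 : r' = 1 + (r - 1) := sub_eq_iff_eq_add.1 h3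
      rw [h5, add_sub_cancel]
    subst h4
    refine ⟨rfl, rfl, bp_inj (t := t) fun j => ?_⟩
    have h6 := h1 (r - j)
    rw [sub_sub_cancel] at h6
    exact h6
  · exfalso
    have h1 : ∀ j, bp t m s (r - j) = bp t m s' (r' + j) := fun j => h j
    have h2 := h1 (r - 1)
    rw [sub_sub_cancel] at h2
    have h3 := bp_eq_three (t := t) (s := s') (j := r' + (r - 1)) (by rw [← h2]; exact bp_one s)
    have h4 := h1 (r - 1 + 1)
    rw [sub_add_cancel, sub_self] at h4
    have h4' : r' + r = 1 + 1 := by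
      have h5 : r' + r = r' + (r - 1) + 1 := by
        rw [add_assoc r' (r - 1) 1, sub_add_cancel]
      rw [h5, h3]
    rw [h4'] at h4
    have h5 := congrArg Fin.val h4
    rw [bp_zero, bp_two] at h5
    omega
  · exfalso
    have h1 : ∀ j, bp t m s (r + j) = bp t m s' (r' - j) := fun j => h j
    have h2 := h1 (1 - r)
    rw [add_sub_cancel] at h2
    have h3 := bp_eq_three (t := t) (s := s') (j := r' - (1 - r)) (by rw [← h2]; exact bp_one s)
    have h4 := h1 (1 - r + 1)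
    rw [← add_assoc, add_sub_cancel, ← sub_sub, h3, sub_self] at h4
    have h5 := congrArg Fin.val h4
    rw [bp_zero, bp_two] at h5
    omega
  · have h1 : ∀ j, bp t m s (r + j) = bp t m s' (r' + j) := fun j => h j
    have h2 := h1 (1 - r)
    rw [add_sub_cancel] at h2
    have h3 := bp_eq_three (t := t) (s := s') (j := r' + (1 - r)) (by rw [← h2]; exact bp_one s)
    have h4 : r = r' := by
      have h5 : r' = 1 - (1 - r) := (sub_eq_of_eq_add h3.symm).symm
      rw [h5, sub_sub_cancel]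
    subst h4
    refine ⟨rfl, rfl, bp_inj (t := t) fun j => ?_⟩
    have h6 := h1 (j - r)
    rw [add_sub_cancel] at h6
    exact h6

/-! ### weights -/

theorem prod_pt (c : Fin (2 * t + 5) → ℝ) (r : Fin (m + 2 * t + 5)) (o : Bool) (s : Fin m → Bool) :
    ∏ j, c (pt t m r o s j) = ∏ j, c (bp t m s j) := by
  cases o
  · refine Fintype.prod_equiv (Equiv.subLeft r) _ _ fun j => ?_
    rfl
  · refine Fintype.prod_equiv (Equiv.addLeft r) _ _ fun j => ?_
    rfl

theorem prod_bp {α β χ : ℝ} (c : Fin (2 * t + 5) → ℝ) (hα : 0 < α) (hβ : 0 ≤ β) (hχ : 0 ≤ χ)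
    (h1 : ∀ i : Fin (2 * t + 5), (i : ℕ) ≤ 1 → α ≤ c i)
    (h2 : ∀ i : Fin (2 * t + 5), (i : ℕ) = 2 ∨ (i : ℕ) = 2 * t + 4 → β ≤ c i)
    (h3 : ∀ i : Fin (2 * t + 5), 3 ≤ (i : ℕ) → (i : ℕ) ≤ 2 * t + 3 → χ ≤ c i) (hm : Even m)
    (s : Fin m → Bool) :
    χ ^ (2 * t + 1) * β ^ 2 * α ^ 2 * ∏ i, wt α β (s i) ≤ ∏ j, c (bp t m s j) := by
  let C : ℕ → ℝ := fun v => if h : v < 2 * t + 5 then c ⟨v, h⟩ else 0
  have hC : ∀ j : Fin (m + 2 * t + 5), c (bp t m s j) = C (Bn t (ex s) j) := by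
    intro j
    show _ = if h : Bn t (ex s) j < 2 * t + 5 then c ⟨Bn t (ex s) j, h⟩ else 0
    rw [dif_pos (Bn_lt t (ex s) j)]
    rfl
  rw [Finset.prod_congr rfl fun j _ => hC j, Fin.prod_univ_eq_prod_range (fun j => C (Bn t (ex s) j))]
  have hCα : ∀ v, v ≤ 1 → α ≤ C v := by
    intro v hv
    show α ≤ if h : v < 2 * t + 5 then c ⟨v, h⟩ else 0
    rw [dif_pos (by omega)]
    exact h1 _ hv
  have hCβ : ∀ v, v = 2 ∨ v = 2 * t + 4 → β ≤ C v := by
    intro v hv
    show β ≤ if h : v < 2 * t + 5 then c ⟨v, h⟩ else 0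
    rw [dif_pos (by omega)]
    exact h2 _ hv
  have hCχ : ∀ v, 3 ≤ v → v ≤ 2 * t + 3 → χ ≤ C v := by
    intro v hv hv2
    show χ ≤ if h : v < 2 * t + 5 then c ⟨v, h⟩ else 0
    rw [dif_pos (by omega)]
    exact h3 _ hv hv2
  have hsplit : m + 2 * t + 5 = (2 * t + 1 + 1 + 1 + 1 + m) + 1 := by omega
  rw [hsplit, Finset.prod_range_succ, Finset.prod_range_add, Finset.prod_range_succ, Finset.prod_range_succ,
    Finset.prod_range_succ']
  -- the factors
  have f1 : χ ^ (2 * t + 1) ≤ ∏ k ∈ Finset.range (2 * t + 1), C (Bn t (ex s) (k + 1)) := by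
    rw [← Finset.card_range (2 * t + 1), ← Finset.prod_const]
    rw [Finset.card_range]
    refine Finset.prod_le_prod (fun _ _ => hχ) fun k hk => ?_
    rw [Finset.mem_range] at hk
    have : Bn t (ex s) (k + 1) = k + 3 := Bn_low t _ (by omega)
    rw [this]
    exact hCχ _ (by omega) (by omega)
  have f2 : β ≤ C (Bn t (ex s) 0) := by
    have : Bn t (ex s) 0 = 2 := Bn_low t _ (by omega)
    rw [this]
    exact hCβ _ (Or.inl rfl)
  have f3 : β ≤ C (Bn t (ex s) (2 * t + 1 + 1)) := by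
    have : Bn t (ex s) (2 * t + 1 + 1) = 2 * t + 4 := Bn_low t _ (by omega)
    rw [this]
    exact hCβ _ (Or.inr rfl)
  have f4 : α ≤ C (Bn t (ex s) (2 * t + 1 + 1 + 1)) := by
    have : Bn t (ex s) (2 * t + 1 + 1 + 1) = 0 := by
      rw [show 2 * t + 1 + 1 + 1 = 2 * t + 3 + 0 by omega, Bn_even t _ Even.zero]
      unfold ex
      rw [dif_neg (by omega)]
      simp
    rw [this]
    exact hCα _ (by omega)
  have f5 : ∏ i, wt α β (s i) ≤ ∏ x ∈ Finset.range m, C (Bn t (ex s) (2 * t + 1 + 1 + 1 + 1 + x)) := by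
    rw [← Fin.prod_univ_eq_prod_range (fun x => C (Bn t (ex s) (2 * t + 1 + 1 + 1 + 1 + x)))]
    refine Finset.prod_le_prod (fun i _ => by unfold wt; split_ifs <;> linarith) fun i _ => ?_
    have : Bn t (ex s) (2 * t + 1 + 1 + 1 + 1 + i) =
        if Even ((i : ℕ) + 1) then (if s i then 2 else 0) else (if s i then 2 * t + 4 else 1) := by
      rw [show 2 * t + 1 + 1 + 1 + 1 + (i : ℕ) = 2 * t + 3 + (i + 1) by omega]
      by_cases hp : Even ((i : ℕ) + 1)
      · rw [Bn_even t _ hp, if_pos hp, ex_succ]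
      · rw [Bn_odd t _ hp, if_neg hp, ex_succ]
    rw [this]
    unfold wt
    split_ifs
    · exact hCβ _ (Or.inl rfl)
    · exact hCβ _ (Or.inr rfl)
    · exact hCα _ (by omega)
    · exact hCα _ (by omega)
  have f6 : α ≤ C (Bn t (ex s) (2 * t + 1 + 1 + 1 + 1 + m)) := by
    have : Bn t (ex s) (2 * t + 1 + 1 + 1 + 1 + m) = 1 := by
      rw [show 2 * t + 1 + 1 + 1 + 1 + m = 2 * t + 3 + (m + 1) by omega,
        Bn_odd t _ (by rw [Nat.even_add_one]; exact fun h => h hm)]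
      unfold ex
      rw [dif_neg (by omega)]
      simp
    rw [this]
    exact hCα _ (by omega)
  have hw : 0 ≤ ∏ i, wt α β (s i) :=
    Finset.prod_nonneg fun i _ => by unfold wt; split_ifs <;> linarith
  calc χ ^ (2 * t + 1) * β ^ 2 * α ^ 2 * ∏ i, wt α β (s i)
      = χ ^ (2 * t + 1) * β * β * α * (∏ i, wt α β (s i)) * α := by ring
    _ ≤ _ := by
      have g0 : 0 ≤ χ ^ (2 * t + 1) := pow_nonneg hχ _
      have g1 : χ ^ (2 * t + 1) * β ≤ _ := mul_le_mul f1 f2 hβ (g0.trans f1)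
      have g2 := mul_le_mul g1 f3 hβ ((mul_nonneg g0 hβ).trans g1)
      have g3 := mul_le_mul g2 f4 hα.le ((mul_nonneg (mul_nonneg g0 hβ) hβ).trans g2)
      have g4 := mul_le_mul g3 f5 hw ((mul_nonneg (mul_nonneg (mul_nonneg g0 hβ) hβ) hα.le).trans g3)
      exact mul_le_mul g4 f6 hα.le
        ((mul_nonneg (mul_nonneg (mul_nonneg (mul_nonneg g0 hβ) hβ) hα.le) hw).trans g4)

end

end LWA_

open LWA_ in
theorem lwa_proof : Stmt_LWA := by
  classical
  intro t k n α β χ F hk hk5 hα hβ hχ h1 h2 h3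
  obtain ⟨m, rfl⟩ : ∃ m, k = m + 2 * t + 5 := ⟨k - (2 * t + 5), by omega⟩
  have hm : Even m := by
    have h4 : ¬ Even (m + 2 * t + 5) := Nat.not_even_iff_odd.2 hk
    by_contra h5
    apply h4
    rw [Nat.not_even_iff_odd] at h5
    obtain ⟨a, rfl⟩ := h5
    exact ⟨a + t + 3, by omega⟩
  have hsub : m + 2 * t + 5 - (2 * t + 5) = m := by omega
  rw [hsub]
  -- class sizes
  let cl : Fin (2 * t + 5) → Finset (Fin n) := fun i => Finset.univ.filter fun x => F x = i
  have hcl : ∀ i, ({x | F x = i}.ncard : ℕ) = (cl i).card := by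
    intro i
    rw [← Set.ncard_coe_finset]
    congr 1
    ext x
    simp [cl]
  let c : Fin (2 * t + 5) → ℝ := fun i => ((cl i).card : ℝ)
  have h1' : ∀ i : Fin (2 * t + 5), (i : ℕ) ≤ 1 → α ≤ c i := fun i hi => by
    have := h1 i hi
    rwa [hcl i] at this
  have h2' : ∀ i : Fin (2 * t + 5), (i : ℕ) = 2 ∨ (i : ℕ) = 2 * t + 4 → β ≤ c i := fun i hi => by
    have := h2 i hi
    rwa [hcl i] at this
  have h3' : ∀ i : Fin (2 * t + 5), 3 ≤ (i : ℕ) → (i : ℕ) ≤ 2 * t + 3 → χ ≤ c i := fun i hi hi' => by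
    have := h3 i hi hi'
    rwa [hcl i] at this
  -- the sets of walks
  let Y : Fin (m + 2 * t + 5) × Bool × (Fin m → Bool) → Finset (Fin (m + 2 * t + 5) → Fin n) :=
    fun a => Fintype.piFinset fun j => cl (pt t m a.1 a.2.1 a.2.2 j)
  let I : Finset (Fin (m + 2 * t + 5) × Bool × (Fin m → Bool)) :=
    Finset.univ ×ˢ Finset.univ ×ˢ Finset.univ.filter fun s => NA (Fin.cons false s : Fin (m + 1) → Bool)
  have hmemY : ∀ a y, y ∈ Y a → ∀ j, F (y j) = pt t m a.1 a.2.1 a.2.2 j := by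
    intro a y hy j
    have := Fintype.mem_piFinset.1 hy j
    exact (Finset.mem_filter.1 this).2
  have hdisj : (I : Set _).PairwiseDisjoint Y := by
    intro a _ a' _ hne
    rw [Function.onFun, Finset.disjoint_left]
    intro y hy hy'
    apply hne
    obtain ⟨e1, e2, e3⟩ := pt_inj (t := t) (m := m) (r := a.1) (r' := a'.1) (o := a.2.1) (o' := a'.2.1)
      (s := a.2.2) (s' := a'.2.2) fun j => (hmemY a y hy j).symm.trans (hmemY a' y hy' j)
    exact Prod.ext e1 (Prod.ext e2 e3)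
  have hsubset : ((I.biUnion Y : Finset _) : Set (Fin (m + 2 * t + 5) → Fin n)) ⊆
      cws (BU t F) (m + 2 * t + 5) := by
    intro y hy
    rw [Finset.mem_coe, Finset.mem_biUnion] at hy
    obtain ⟨a, ha, hy⟩ := hy
    have hs : NA (Fin.cons false a.2.2 : Fin (m + 1) → Bool) := by
      have h4 := (Finset.mem_product.1 ha).2
      have h5 := (Finset.mem_product.1 h4).2
      exact (Finset.mem_filter.1 h5).2
    intro i j hij
    show (SimpleGraph.cycleGraph (2 * t + 5)).Adj (F (y i)) (F (y j))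
    rw [hmemY a y hy i, hmemY a y hy j]
    exact pt_hom hm _ _ _ hs i j hij
  have hcard : (∑ a ∈ I, ((Y a).card : ℝ)) ≤ (cwn (BU t F) (m + 2 * t + 5) : ℝ) := by
    rw [← Nat.cast_sum, ← Finset.card_biUnion fun a ha a' ha' hne => hdisj ha ha' hne, Nat.cast_le,
      ← Set.ncard_coe_finset]
    exact Set.ncard_le_ncard hsubset (Set.toFinite _)
  refine le_trans ?_ hcard
  have hYc : ∀ a, ((Y a).card : ℝ) = ∏ j, c (bp t m a.2.2 j) := by
    intro a
    rw [Fintype.card_piFinset, Nat.cast_prod]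
    exact prod_pt (t := t) (m := m) c a.1 a.2.1 a.2.2
  have hlow : ∀ a ∈ I, χ ^ (2 * t + 1) * β ^ 2 * α ^ 2 * ∏ i, wt α β (a.2.2 i) ≤ ((Y a).card : ℝ) := by
    intro a _
    rw [hYc a]
    exact prod_bp c hα hβ hχ h1' h2' h3' hm a.2.2
  refine le_trans ?_ (Finset.sum_le_sum hlow)
  have hS : 0 < α + β := by linarith
  have hx1 : β / (α + β) ≤ 1 := by rw [div_le_one hS]; linarith
  have hx0 : 0 ≤ β / (α + β) := div_nonneg hβ hS.le
  have hy0 : 0 ≤ 1 - (β / (α + β)) ^ 2 := by nlinarith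
  have hy1 : 1 - (β / (α + β)) ^ 2 ≤ 1 := by nlinarith [sq_nonneg (β / (α + β))]
  have hsum : ∑ a ∈ I, χ ^ (2 * t + 1) * β ^ 2 * α ^ 2 * ∏ i, wt α β (a.2.2 i) =
      2 * ((m + 2 * t + 5 : ℕ) : ℝ) * (χ ^ (2 * t + 1) * β ^ 2 * α ^ 2) * U α β m false := by
    rw [Finset.sum_product]
    have h4 : ∀ r : Fin (m + 2 * t + 5), ∑ b ∈ (Finset.univ : Finset Bool) ×ˢ Finset.univ.filter
        (fun s : Fin m → Bool => NA (Fin.cons false s : Fin (m + 1) → Bool)),
        χ ^ (2 * t + 1) * β ^ 2 * α ^ 2 * ∏ i, wt α β ((r, b).2.2 i) =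
        2 * (χ ^ (2 * t + 1) * β ^ 2 * α ^ 2) * U α β m false := by
      intro r
      rw [Finset.sum_product]
      have h5 : ∀ o : Bool, ∑ s ∈ Finset.univ.filter
          (fun s : Fin m → Bool => NA (Fin.cons false s : Fin (m + 1) → Bool)),
          χ ^ (2 * t + 1) * β ^ 2 * α ^ 2 * ∏ i, wt α β ((r, (o, s)).2.2 i) =
          (χ ^ (2 * t + 1) * β ^ 2 * α ^ 2) * U α β m false := by
        intro o
        rw [← Finset.mul_sum, Finset.sum_filter]
        rfl
      rw [Finset.sum_congr rfl fun o _ => h5 o, Finset.sum_const, Finset.card_univ, Fintype.card_bool,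
        nsmul_eq_mul]
      push_cast
      ring
    rw [Finset.sum_congr rfl fun r _ => h4 r, Finset.sum_const, Finset.card_univ, Fintype.card_fin,
      nsmul_eq_mul]
    ring
  rw [hsum]
  have h6 : (1 - (β / (α + β)) ^ 2) ^ (m + 2 * t + 5) ≤ (1 - (β / (α + β)) ^ 2) ^ m :=
    pow_le_pow_of_le_one hy0 hy1 (by omega)
  have h7 := U_ge hα hβ m
  have hK : 0 ≤ 2 * ((m + 2 * t + 5 : ℕ) : ℝ) * (χ ^ (2 * t + 1) * β ^ 2 * α ^ 2) := by positivity
  calc 2 * ((m + 2 * t + 5 : ℕ) : ℝ) * χ ^ (2 * t + 1) * β ^ 2 * α ^ 2 * (α + β) ^ m *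
        (1 - (β / (α + β)) ^ 2) ^ (m + 2 * t + 5)
      = 2 * ((m + 2 * t + 5 : ℕ) : ℝ) * (χ ^ (2 * t + 1) * β ^ 2 * α ^ 2) *
        ((α + β) ^ m * (1 - (β / (α + β)) ^ 2) ^ (m + 2 * t + 5)) := by ring
    _ ≤ 2 * ((m + 2 * t + 5 : ℕ) : ℝ) * (χ ^ (2 * t + 1) * β ^ 2 * α ^ 2) * U α β m false := by
      refine mul_le_mul_of_nonneg_left ?_ hK
      exact le_trans (mul_le_mul_of_nonneg_left h6 (pow_nonneg hS.le m)) h7

end

end Pool.Agent.OCX
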