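import Pool.Agent.OCX.Stmts
import Pool.Agent.OCX.Lib

open scoped BigOperators

namespace Pool.Agent.OCX

namespace MCO_

theorem log_small (c : ℝ) (hc : 0 < c) (t : ℕ) :
    ∃ k0 : ℕ, ∀ k : ℕ, k0 ≤ k → ((t : ℝ) + 1) * Real.log k / k ≤ c := by
  have h1 : Filter.Tendsto (fun k : ℕ => Real.log (k : ℝ) / (k : ℝ)) Filter.atTop (nhds 0) :=
    (Real.isLittleO_log_id_atTop.tendsto_div_nhds_zero).comp tendsto_natCast_atTop_atTop
  have h2 := h1.const_mul ((t : ℝ) + 1)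
  rw [mul_zero] at h2
  have h3 := h2.eventually (gt_mem_nhds hc)
  rw [Filter.eventually_atTop] at h3
  obtain ⟨k0, hk0⟩ := h3
  refine ⟨k0, fun k hk => ?_⟩
  have := (hk0 k hk).le
  rw [← mul_div_assoc] at this
  exact this

theorem prod_le {a b p q x y s : ℝ} (ha : 0 ≤ a) (hb : 0 ≤ b) (hp : 0 ≤ p) (hq : 0 ≤ q)
    (hx : x ^ 2 ≤ a * p) (hy : y ^ 2 ≤ b * q) (hs : s = (a + b) * (p + q) / 4) :
    x * y ≤ s := by
  have hs0 : 0 ≤ s := by rw [hs]; positivity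
  refine abs_le_of_sq_le_sq' ?_ hs0 |>.2
  have h1 : (x * y) ^ 2 ≤ (a * p) * (b * q) := by
    rw [mul_pow]
    exact mul_le_mul hx hy (sq_nonneg _) (by positivity)
  refine h1.trans ?_
  have h2 : a * b ≤ ((a + b) / 2) ^ 2 := by nlinarith [sq_nonneg (a - b)]
  have h3 : p * q ≤ ((p + q) / 2) ^ 2 := by nlinarith [sq_nonneg (p - q)]
  have h4 : (a * b) * (p * q) ≤ ((a + b) / 2) ^ 2 * ((p + q) / 2) ^ 2 :=
    mul_le_mul h2 h3 (by positivity) (by positivity)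
  rw [hs]
  nlinarith

end MCO_

open MCO_

theorem mco_proof (h1 : Stmt_BAS) : Stmt_MCO := by
  intro t κ hκ hκ2
  obtain ⟨k1, hk1⟩ := h1 t κ hκ hκ2
  obtain ⟨k2, hk2⟩ := log_small (κ ^ 4 / 1280) (by positivity) t
  refine ⟨max 1 (max k1 k2), ?_⟩
  intro k hk V _ G ν γ δ ξ u v hξ hS X Y hX hY hXY
  have kp : 1 ≤ k := (le_max_left _ _).trans hk
  have hB := hk1 k (((le_max_left _ _).trans (le_max_right _ _)).trans hk) V G ν γ δ ξ u v hξ hS
  have hη := hB.eta.trans (hk2 k (((le_max_right _ _).trans (le_max_right _ _)).trans hk))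
  obtain ⟨η, hη'⟩ : ∃ η, η = 1 / 2 - (ν + γ) := ⟨_, rfl⟩
  have hη0 : 0 ≤ η := by have := hS.l2; linarith
  have hphi : ∀ x, Wop G (fun y => u y + v y) x = (ν + γ) * (u x + v x) := by
    intro x
    have e : Wop G (fun y => u y + v y) x = Wop G u x + Wop G v x := avS_add _ _ _
    rw [e, hS.hu, hS.hv]
    ring
  have hsq : av (fun x => (u x + v x) ^ 2) = 1 := by
    have e : (fun x => (u x + v x) ^ 2) = fun x => (u x ^ 2 + 2 * (u x * v x)) + v x ^ 2 := by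
      funext x
      ring
    rw [e, av_add, av_add, av_mul_left, hS.u2, hS.v2, hS.uv]
    norm_num
  have ck := cost_key hB.cor hphi hS.pos hsq
  have hκ1 : κ ^ 2 ≤ 1 / 400 := by nlinarith
  have hd0 := hB.d0
  have hdk := hB.dk
  have hkinv : (1 / (k : ℝ)) ^ 2 ≤ 1 := by
    have hk' : (1 : ℝ) ≤ k := by exact_mod_cast kp
    refine pow_le_one₀ (by positivity) ?_
    rw [div_le_one (by linarith)]
    exact hk'
  have hR2 : ∀ x ∈ cR κ u v, (u x + v x) ^ 2 ≤ 1 := by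
    intro x hx
    obtain ⟨_, _, hom⟩ := hB.Rpos x hx
    have hk := (abs_le.1 (hS.kkt x)).2
    have he := hB.eps
    have he2 : δ * (1 / (k : ℝ)) ^ 2 ≤ δ := by nlinarith
    unfold om at hom
    nlinarith
  obtain ⟨r, hr⟩ : ∃ r, r = ms (cR κ u v) := ⟨_, rfl⟩
  obtain ⟨r2, hr2⟩ : ∃ r2, r2 = avS (cR κ u v) (fun x => (u x + v x) ^ 2) := ⟨_, rfl⟩
  have hr0 : 0 ≤ r := by rw [hr]; exact ms_nonneg _
  have hr20 : 0 ≤ r2 := by rw [hr2]; exact avS_nonneg fun _ _ => sq_nonneg _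
  have hr2r : r2 ≤ r := by
    rw [hr2, hr]
    have := avS_le_mul_ms hR2
    linarith
  have hrη : r ≤ 16 * η / κ ^ 2 := by rw [hr, hη']; exact hB.msR
  have tot1 : ms (cA κ u) + ms (cA κ v) + r = 1 := by
    haveI := hS.ne
    have e := avS_three hB.cor (fun _ => (1 : ℝ))
    rw [av_const] at e
    rw [hr]
    unfold ms
    linarith
  have tot2 : avS (cA κ u) (fun x => (u x + v x) ^ 2) + avS (cA κ v) (fun x => (u x + v x) ^ 2) +
      r2 = 1 := by
    have e := avS_three hB.cor (fun x => (u x + v x) ^ 2)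
    rw [hsq] at e
    rw [hr2]
    linarith
  have cs : ∀ S : Set V, avS S (fun x => u x + v x) ^ 2 ≤
      ms S * avS S (fun x => (u x + v x) ^ 2) := by
    intro S
    have e := avS_sq_le S (fun x => u x + v x) (fun _ => 1)
    simp only [mul_one, one_pow] at e
    rw [mul_comm]
    exact e
  have pr := prod_le (ms_nonneg (cA κ u)) (ms_nonneg (cA κ v))
    (avS_nonneg (S := cA κ u) (f := fun x => (u x + v x) ^ 2) fun _ _ => sq_nonneg _)
    (avS_nonneg (S := cA κ v) (f := fun x => (u x + v x) ^ 2) fun _ _ => sq_nonneg _)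
    (cs (cA κ u)) (cs (cA κ v)) rfl
  rw [← hr2] at ck
  have e1 : ms (cA κ u) + ms (cA κ v) = 1 - r := by linarith
  have e2 : avS (cA κ u) (fun x => (u x + v x) ^ 2) + avS (cA κ v) (fun x => (u x + v x) ^ 2) =
      1 - r2 := by linarith
  rw [e1, e2] at pr
  obtain ⟨M, hM⟩ : ∃ M, M = Mphi G (cA κ u) (cA κ v) (fun x => u x + v x) := ⟨_, rfl⟩
  rw [← hM] at ck
  have hlam : ν + γ = 1 / 2 - η := by linarith
  rw [hlam] at ck
  have hη1 : η ≤ κ ^ 4 / 1280 := by rw [hη']; exact hη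
  have hrr : r ^ 2 / 2 ≤ η / 10 := by
    have a1 : r * κ ^ 2 ≤ 16 * η := by
      rw [le_div_iff₀ (by positivity)] at hrη
      exact hrη
    have a2 : (r * κ ^ 2) ^ 2 ≤ (16 * η) ^ 2 := pow_le_pow_left₀ (by positivity) a1 2
    have a3 : (16 * η) ^ 2 ≤ η * (κ ^ 4 / 5) := by nlinarith
    have a4 : r ^ 2 * κ ^ 4 ≤ η / 5 * κ ^ 4 := by
      calc r ^ 2 * κ ^ 4 = (r * κ ^ 2) ^ 2 := by ring
        _ ≤ η * (κ ^ 4 / 5) := a2.trans a3
        _ = η / 5 * κ ^ 4 := by ring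
    have a5 := le_of_mul_le_mul_right a4 (by positivity)
    linarith
  have hMb : M ≤ 55 / 100 * η := by
    nlinarith [mul_nonneg hη0 hr20, mul_nonneg hr0 (sub_nonneg.2 hr2r)]
  have hge : avS X (fun x => u x + v x) * avS Y (fun x => u x + v x) ≤ M := by
    rw [hM]
    exact Mphi_ge hS.pos hX hY hXY
  have hXv : avS X v ≤ (1 + 3 * δ) * avS X (fun x => u x + v x) := by
    rw [← avS_mul_left]
    refine avS_mono fun x hx => ?_
    have a1 := abs_le.1 (hB.uB x (hX hx))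
    have a2 : 1 - κ ≤ v x := hX hx
    nlinarith
  have hYu : avS Y u ≤ (1 + 3 * δ) * avS Y (fun x => u x + v x) := by
    rw [← avS_mul_left]
    refine avS_mono fun x hx => ?_
    have a1 := abs_le.1 (hB.vA x (hY hx))
    have a2 : 1 - κ ≤ u x := hY hx
    nlinarith
  have hYu0 : 0 ≤ avS Y u := avS_nonneg fun x hx => by
    have a2 : 1 - κ ≤ u x := hY hx
    linarith
  have hX0 : 0 ≤ avS X (fun x => u x + v x) := avS_nonneg fun x _ => hS.pos x
  have hY0 : 0 ≤ avS Y (fun x => u x + v x) := avS_nonneg fun x _ => hS.pos x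
  have hν := hB.nu
  have hν0 : 0 < ν := by linarith
  rw [← hη', div_mul_div_comm, div_le_iff₀ (by positivity)]
  have f1 : avS X v * avS Y u ≤ ((1 + 3 * δ) * avS X (fun x => u x + v x)) *
      ((1 + 3 * δ) * avS Y (fun x => u x + v x)) :=
    mul_le_mul hXv hYu hYu0 (by positivity)
  have f2 : ((1 + 3 * δ) * avS X (fun x => u x + v x)) *
      ((1 + 3 * δ) * avS Y (fun x => u x + v x)) ≤ (1 + 3 * δ) ^ 2 * (55 / 100 * η) := by
    calc ((1 + 3 * δ) * avS X (fun x => u x + v x)) * ((1 + 3 * δ) * avS Y (fun x => u x + v x))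
        = (1 + 3 * δ) ^ 2 * (avS X (fun x => u x + v x) * avS Y (fun x => u x + v x)) := by ring
      _ ≤ (1 + 3 * δ) ^ 2 * (55 / 100 * η) :=
          mul_le_mul_of_nonneg_left (hge.trans hMb) (sq_nonneg _)
  have f3 : (1 + 3 * δ) ^ 2 ≤ 11 / 10 := by nlinarith
  have f4 : (1 + 3 * δ) ^ 2 * (55 / 100 * η) ≤ 11 / 10 * (55 / 100 * η) :=
    mul_le_mul_of_nonneg_right f3 (by positivity)
  have f5 : (12 / 25 : ℝ) ^ 2 ≤ ν * ν := by nlinarith
  have f6 : 6 * η * (12 / 25 : ℝ) ^ 2 ≤ 6 * η * (ν * ν) :=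
    mul_le_mul_of_nonneg_left f5 (by positivity)
  nlinarith

end Pool.Agent.OCX
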