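import Pool.Agent.OCX.Stmts
import Pool.Agent.OCX.Lib

/-!
# The main theorem from the modules
-/

open scoped BigOperators

namespace Pool.Agent.OCX

theorem lowb_pos (t k : ℕ) (hk : 1 ≤ k) : 0 < lowb t k := by
  unfold lowb
  have : (0 : ℝ) < k := by exact_mod_cast hk
  positivity

theorem main_of (h1 : Stmt_CORE) (h2 : Stmt_SPB) (h3 : Stmt_LOW) (h4 : Stmt_BAL) (h5 : Stmt_EXA)
    (h6 : Stmt_LBL) (h7 : Stmt_FRE) (h8 : Stmt_ODD) : MainStatement := by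
  intro l hl hl3
  obtain ⟨t, rfl⟩ : ∃ t, l = 2 * t + 3 := by
    obtain ⟨m, rfl⟩ := hl
    exact ⟨m - 1, by omega⟩
  obtain ⟨ξ0, hξ0, k1, H1⟩ := h1 t
  set ξ : ℝ := min ξ0 (1 / 2) with hξdef
  have hξ : 0 < ξ := lt_min hξ0 (by norm_num)
  have hξa : ξ ≤ ξ0 := min_le_left _ _
  have hξb : ξ ≤ 1 / 2 := min_le_right _ _
  clear_value ξ
  obtain ⟨k2, H2⟩ := h2 t ξ hξ hξb
  obtain ⟨k3, H3⟩ := h3 t (ξ / 4) (by positivity)
  refine ⟨max (max k1 k2) (max k3 (2 * t + 5)), fun k hk hodd => ?_⟩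
  simp only [max_le_iff] at hk
  obtain ⟨⟨hk1, hk2⟩, ⟨hk3, hk5⟩⟩ := hk
  have hk3' : 3 ≤ k := by omega
  have hkpos : (0 : ℝ) < k := by
    have : 0 < k := by omega
    exact_mod_cast this
  obtain ⟨ε2, hε2, H2'⟩ := H2 k hk2 hodd
  obtain ⟨n3, H3'⟩ := H3 k hk3 hodd
  have hc : (0 : ℝ) < 1 / (8 * k) := by positivity
  obtain ⟨ε5, hε5, n5, H5⟩ := h5 t k (1 / (8 * k)) hodd hk5 hc
  have hlow := lowb_pos t k (by omega)
  set ε : ℝ := min (min ε2 ε5) (lowb t k * (ξ / 4)) with hεdef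
  have hε : 0 < ε := lt_min (lt_min hε2 hε5) (by positivity)
  have e2 : ε ≤ ε2 := (min_le_left _ _).trans (min_le_left _ _)
  have e5 : ε ≤ ε5 := (min_le_left _ _).trans (min_le_right _ _)
  have e3 : ε ≤ lowb t k * (ξ / 4) := min_le_right _ _
  clear_value ε
  obtain ⟨n4, H4⟩ := h4 t k ε hk3' hε
  refine ⟨max (max n3 n4) (max n5 1), fun n hn G hG hmax => ?_⟩
  simp only [max_le_iff] at hn
  obtain ⟨⟨hn3, hn4⟩, ⟨hn5, hn1⟩⟩ := hn
  have hM : MxL t k G := by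
    refine ⟨(h7 _ G _).1 hG, fun G' hG' => ?_⟩
    exact h6 n k G G' hk3' (hmax G' ((h7 _ G' _).2 hG'))
  obtain ⟨S, H, hB⟩ := H4 n hn4 G hM
  obtain ⟨F0, hF0⟩ := H3' n hn3
  have hS : Nonempty {x // x ∈ S} := by
    obtain ⟨x, hx⟩ := hB.ne
    exact ⟨⟨x, hx⟩⟩
  have hog : OddG t (H.comap (Subtype.val : {x // x ∈ S} → Fin n)) :=
    (h8 t).2.2 _ _ H Subtype.val hB.og
  have hnpos : (0 : ℝ) < (n : ℝ) ^ k := by
    have : 0 < n := by omega
    have : (0 : ℝ) < n := by exact_mod_cast this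
    positivity
  have hop := hB.op (BU t F0) ((h8 t).2.1 _ _ ((h8 t).1 _ F0))
  have hlb : lowb t k * (1 - ξ / 4) ≤ (cwn (BU t F0) k : ℝ) / n ^ k := by
    rw [le_div_iff₀ hnpos]
    exact hF0
  obtain ⟨ν, γ, δ, u, v, hs⟩ := H2' {x // x ∈ S} (H.comap Subtype.val) hog
    (fun x => (hB.ba x).trans e2) (by nlinarith)
  obtain ⟨f, hf, hfm⟩ := H1 k hk1 {x // x ∈ S} (H.comap Subtype.val) ν γ δ ξ u v hξa hs
  have hB5 : Bal t k ε5 G S H := {
    le := hB.le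
    sm := hB.sm.trans (mul_le_mul_of_nonneg_right e5 (by positivity))
    ed := hB.ed.trans (mul_le_mul_of_nonneg_right e5 (by positivity))
    ne := hB.ne
    og := hB.og
    ba := fun x => (hB.ba x).trans e5
    op := fun G' hG' => by
      have := hB.op G' hG'
      linarith }
  exact H5 n hn5 G hM S H hB5 f hf hfm

end Pool.Agent.OCX
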