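import Pool.Agent.OCX.Stmts
import Pool.Agent.OCX.Lib

/-! Module OCW: odd closed walks contain odd cycles. -/

namespace Pool.Agent.OCX

namespace OCW_

variable {W : Type} {G : SimpleGraph W}

theorem main (L : ℕ) : ∀ z : ℕ → W, (∀ i, i < L → G.Adj (z i) (z (i + 1))) → z L = z 0 → Odd L →
    ∃ (m : ℕ) (y : Fin m → W), Odd m ∧ 3 ≤ m ∧ m ≤ L ∧ y ∈ cws G m ∧ Function.Injective y := by
  induction L using Nat.strong_induction_on with
  | _ L ih =>
    intro z hz h0 hL
    by_cases hinj : ∀ i j, i < j → j < L → z i ≠ z j
    · have h3 : 3 ≤ L := by
        by_contra h
        push Not at h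
        have h1 : L = 1 := by
          rcases hL with ⟨r, hr⟩
          omega
        subst h1
        have := hz 0 (by omega)
        rw [zero_add, h0] at this
        exact this.ne rfl
      refine ⟨L, fun i => z i, hL, h3, le_refl _, ?_, ?_⟩
      · intro i j hij
        have step : ∀ u v : Fin L, (v - u).val = 1 → G.Adj (z u) (z v) := by
          intro u v huv
          have hu := u.2
          have hv := v.2
          rw [Fin.sub_def] at huv
          simp only at huv
          have h5 : (v : ℕ) = u + 1 ∨ ((u : ℕ) + 1 = L ∧ (v : ℕ) = 0) := by
            rcases lt_or_ge (L - (u : ℕ) + v) L with h6 | h6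
            · rw [Nat.mod_eq_of_lt h6] at huv
              right
              omega
            · rw [Nat.mod_eq_sub_mod h6, Nat.mod_eq_of_lt (by omega)] at huv
              left
              omega
          rcases h5 with h5 | ⟨h5, h6⟩
          · rw [h5]; exact hz _ hu
          · have h7 := hz _ hu
            have h8 : z ((u : ℕ) + 1) = z v := by rw [h6, ← h0]; exact congrArg z h5
            rw [h8] at h7
            exact h7
        rw [SimpleGraph.cycleGraph_adj'] at hij
        rcases hij with h | h
        · exact (step j i h).symm
        · exact step i j h
      · intro i j hij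
        simp only at hij
        by_contra hne
        rcases lt_trichotomy (i : ℕ) (j : ℕ) with h | h | h
        · exact hinj _ _ h j.2 hij
        · exact hne (Fin.ext h)
        · exact hinj _ _ h i.2 hij.symm
    · push Not at hinj
      obtain ⟨i, j, hij, hjL, he⟩ := hinj
      rcases Nat.even_or_odd (j - i) with hev | hodd
      · have hodd2 : Odd (L - (j - i)) := by
          rcases hL with ⟨r, hr⟩
          rcases hev with ⟨s, hs⟩
          exact ⟨r - s, by omega⟩
        obtain ⟨m, y, h1, h2, h3, h4, h5⟩ := ih (L - (j - i)) (by omega)
          (fun k => if k ≤ i then z k else z (k + (j - i))) (by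
            intro k hk
            by_cases hki : k < i
            · rw [if_pos (by omega), if_pos (by omega)]
              exact hz k (by omega)
            · by_cases hki2 : k = i
              · subst hki2
                rw [if_pos (le_refl _), if_neg (by omega), he]
                have : k + 1 + (j - k) = j + 1 := by omega
                rw [this]
                exact hz j hjL
              · rw [if_neg (by omega), if_neg (by omega)]
                have : k + 1 + (j - i) = k + (j - i) + 1 := by omega
                rw [this]
                exact hz _ (by omega)) (by
            rw [if_neg (by omega), if_pos (by omega)]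
            have : L - (j - i) + (j - i) = L := by omega
            rw [this, h0]) hodd2
        exact ⟨m, y, h1, h2, by omega, h4, h5⟩
      · obtain ⟨m, y, h1, h2, h3, h4, h5⟩ := ih (j - i) (by omega) (fun k => z (i + k)) (by
            intro k hk
            exact hz (i + k) (by omega)) (by
            have : i + (j - i) = j := by omega
            simp only [this, add_zero, he]) hodd
        exact ⟨m, y, h1, h2, by omega, h4, h5⟩

end OCW_

theorem ocw_proof : Stmt_OCW := by
  intro W G x p hp
  obtain ⟨m, y, h1, h2, h3, h4, h5⟩ := OCW_.main (G := G) p.length (fun i => p.getVert i)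
    (fun i hi => p.adj_getVert_succ hi) (by simp) hp
  exact ⟨m, y, h1, h2, h3, h4, h5⟩

end Pool.Agent.OCX
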