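import Pool.Agent.OCX.Stmts
import Pool.Agent.OCX.Lib

/-!
# OCX, module PKT: the path sums of the amplitude system
-/

open scoped BigOperators

namespace Pool.Agent.OCX

namespace PKT_

variable {V : Type} [Fintype V]

theorem avS_pos {S : Set V} {f : V → ℝ} (h : ∀ x ∈ S, 0 < f x) {a : V} (ha : a ∈ S) :
    0 < avS S f := by
  have : Nonempty V := ⟨a⟩
  have h1 : avS ({a} : Set V) f ≤ avS S f :=
    avS_mono_set (Set.singleton_subset_iff.2 ha) fun x hx => (h x hx).le
  rw [avS_singleton] at h1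
  have h2 : (0 : ℝ) < Fintype.card V := Nat.cast_pos.2 Fintype.card_pos
  exact lt_of_lt_of_le (div_pos (h a ha) h2) h1

theorem aP_nonneg (G : SimpleGraph V) (R : Set V) (e : V → ℝ) (he : ∀ x, 0 ≤ e x) (m : ℕ)
    (x : V) : 0 ≤ aP G R e m x := by
  unfold aP
  refine div_nonneg (mul_nonneg (by positivity) (Finset.sum_nonneg fun y _ => ?_))
    (pow_nonneg (Nat.cast_nonneg _) _)
  exact Set.indicator_nonneg (fun y _ => he (y 0)) y

omit [Fintype V] in
theorem wI_nonneg {t : ℕ} {eA eB : V → ℝ} (hA : ∀ x, 0 ≤ eA x) (hB : ∀ x, 0 ≤ eB x)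
    (y : Fin (2 * t + 1) → V) : 0 ≤ wI t eA eB y := by
  unfold wI
  have := hA (y (Fin.last (2 * t)))
  have := hB (y 0)
  positivity

omit [Fintype V] in
theorem wC_nonneg {t : ℕ} {e : V → ℝ} (he : ∀ x, 0 ≤ e x)
    (y : Fin (2 * t + 2) → V) : 0 ≤ wC t e y := by
  unfold wC
  have := he (y (Fin.last (2 * t + 1)))
  have := he (y 0)
  positivity

theorem Kf_nonneg {t : ℕ} (G : SimpleGraph V) (R : Set V) {eA eB : V → ℝ} (hA : ∀ x, 0 ≤ eA x)
    (hB : ∀ x, 0 ≤ eB x) (S : Set V) : 0 ≤ Kf t G R eA eB S := by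
  unfold Kf
  have h1 : 0 ≤ PS G R (2 * t + 1) (fun y => wI t eA eB y * vis S y) :=
    PS_nonneg fun y _ => mul_nonneg (wI_nonneg hA hB y) (vis_nonneg S y)
  have h2 : 0 ≤ PS G R (2 * t + 2) (fun y => (wC t eA y + wC t eB y) * vis S y) :=
    PS_nonneg fun y _ => mul_nonneg (add_nonneg (wC_nonneg hA y) (wC_nonneg hB y))
      (vis_nonneg S y)
  linarith

theorem Zf_nonneg {t : ℕ} (G : SimpleGraph V) (R : Set V) {eA eB : V → ℝ} (hA : ∀ x, 0 ≤ eA x)
    (hB : ∀ x, 0 ≤ eB x) : 0 ≤ Zf t G R eA eB := by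
  unfold Zf
  have h1 : 0 ≤ PS G R (2 * t + 1) (wI t eA eB) :=
    PS_nonneg fun y _ => wI_nonneg hA hB y
  have h2 : 0 ≤ PS G R (2 * t + 2) (fun y => wC t eA y + wC t eB y) :=
    PS_nonneg fun y _ => add_nonneg (wC_nonneg hA y) (wC_nonneg hB y)
  linarith

/-- bounds for `ee` -/
theorem ee_bd (G : SimpleGraph V) {ν κ : ℝ} {u : V → ℝ} (hν : 12 / 25 ≤ ν) (hκ : κ ≤ 1 / 20)
    (hu : av (fun x => u x ^ 2) = 1 / 2) :
    (∀ x, 0 ≤ ee G ν (cA κ u) u x ∧ ee G ν (cA κ u) u x ≤ 2) ∧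
      ∀ x, (0 < ee G ν (cA κ u) u x ↔ ∃ a ∈ cA κ u, G.Adj x a) := by
  have hpos : ∀ x ∈ cA κ u, 0 < u x := by
    intro x hx
    have : 1 - κ ≤ u x := hx
    linarith
  have hν0 : 0 < ν := by linarith
  refine ⟨fun x => ⟨?_, ?_⟩, fun x => ⟨?_, ?_⟩⟩
  · unfold ee
    exact div_nonneg (avS_nonneg fun y hy => (hpos y hy.2).le) hν0.le
  · unfold ee
    rw [div_le_iff₀ hν0]
    have h1 : avS (G.neighborSet x ∩ cA κ u) u ≤ avS (cA κ u) u :=
      avS_mono_set Set.inter_subset_right fun y hy => (hpos y hy).le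
    have h2 := avS_sq_le (cA κ u) (fun _ => 1) u
    have h3 : avS (cA κ u) (fun _ : V => (1 : ℝ) ^ 2) ≤ 1 := by
      have := ms_le_one (cA κ u)
      simpa [ms] using this
    have h4 : avS (cA κ u) (fun x => u x ^ 2) ≤ 1 / 2 := by
      rw [← hu, ← avS_univ]
      exact avS_mono_set (Set.subset_univ _) fun y _ => sq_nonneg _
    have h5 : 0 ≤ avS (cA κ u) (fun x => u x ^ 2) := avS_nonneg fun y _ => sq_nonneg _
    have h6 : avS (cA κ u) u ^ 2 ≤ 1 / 2 := by
      have e : avS (cA κ u) (fun x => 1 * u x) = avS (cA κ u) u := avS_congr fun x _ => one_mul _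
      rw [e] at h2
      nlinarith
    have h7 : avS (cA κ u) u ≤ 3 / 4 := by
      by_contra hc
      push Not at hc
      nlinarith
    linarith
  · intro h
    by_contra hc
    push Not at hc
    have : G.neighborSet x ∩ cA κ u = ∅ := by
      ext y
      simp only [Set.mem_inter_iff, SimpleGraph.mem_neighborSet, Set.mem_empty_iff_false,
        iff_false, not_and]
      exact fun h1 h2 => hc y h2 h1
    unfold ee at h
    rw [this, avS_empty, zero_div] at h
    exact lt_irrefl _ h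
  · rintro ⟨a, ha, hxa⟩
    unfold ee
    exact div_pos (avS_pos (fun y hy => hpos y hy.2) (a := a) ⟨hxa, ha⟩) hν0

end PKT_

open PKT_ in
theorem pkt_proof (h1 : Stmt_BAS) (h2 : Stmt_BOO) (h3 : Stmt_ST2) (h4 : Stmt_EXP) : Stmt_PKT := by
  intro t ρ hρ hρ1
  obtain ⟨C1, hC1, hboo⟩ := h2 t ρ hρ hρ1
  obtain ⟨C2, hC2, hst⟩ := h3 t ρ hρ hρ1
  obtain ⟨M, hM, hexp⟩ := h4 t
  set L := M * C2 with hL
  set a := C1 ^ (2 * t + 3) * 2 ^ (t + 2) with ha
  set P := (3 * C1 + 2) + C2 + (3 * C1 + 2) * C2 with hP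
  have hL1 : 1 ≤ L := one_le_mul_of_one_le_of_one_le hM hC2
  have ha1 : 1 ≤ a := one_le_mul_of_one_le_of_one_le (one_le_pow₀ hC1) (one_le_pow₀ (by norm_num))
  have hP1 : 1 ≤ P := by
    have : 0 ≤ (3 * C1 + 2) * C2 := by positivity
    rw [hP]; linarith
  have hMa : 1 ≤ M * a := one_le_mul_of_one_le_of_one_le hM ha1
  refine ⟨1 + L * (2 + 2 * (M * a)) + M * a + P + L, by nlinarith, ?_⟩
  set C := 1 + L * (2 + 2 * (M * a)) + M * a + P + L with hC
  intro κ hκ hκ1
  obtain ⟨k1, hk1⟩ := h1 t κ hκ hκ1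
  obtain ⟨k2, hk2⟩ := hboo κ hκ hκ1
  obtain ⟨k3, hk3⟩ := hst κ hκ hκ1
  obtain ⟨k4, hk4⟩ := exists_nat_ge (2 * L)
  obtain ⟨k5, hk5⟩ := exists_nat_ge P
  refine ⟨k1 + k2 + k3 + k4 + k5 + 1, fun k hk V _ G ν γ δ ξ u v hξ hs hR => ?_⟩
  have hb := hk1 k (by omega) V G ν γ δ ξ u v hξ hs
  have hbo := hk2 k (by omega) V G ν γ δ ξ u v hξ hs hR
  have hst2 := hk3 k (by omega) V G ν γ δ ξ u v hξ hs hR
  have hkL : 2 * L ≤ (k : ℝ) := hk4.trans (Nat.cast_le.2 (by omega))
  have hkP : P ≤ (k : ℝ) := hk5.trans (Nat.cast_le.2 (by omega))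
  have hk0 : (1 : ℝ) ≤ k := by exact_mod_cast (show 1 ≤ k by omega)
  have hkp : (0 : ℝ) < k := by linarith
  have hne : Nonempty V := hs.ne
  have hν := hb.nu
  have hν0 : 0 < ν := by linarith
  have hC2k : 0 ≤ C2 / (k : ℝ) := by positivity
  obtain ⟨eA1, eA2⟩ := ee_bd G hν hκ1 hs.u2
  obtain ⟨eB1, eB2⟩ := ee_bd G hν hκ1 hs.v2
  have hLk : L / k ≤ 1 / 2 := by
    rw [div_le_iff₀ hkp]; linarith
  have hMθ : M * (C2 / k) = L / k := by rw [hL]; ring
  have hν2 : ν ≤ 1 / 2 := by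
    have := hs.l2
    have := hs.g0
    linarith
  obtain ⟨g1, g2, g3, g4⟩ := hexp V G (cA κ u) (cA κ v) (cR κ u v) (ee G ν (cA κ u) u)
    (ee G ν (cA κ v) v) u v ν (C2 / k) hs.og hb.cor eA1 eB1 (fun x _ => eA2 x)
    (fun x _ => eB2 x) hC2k (by
      rw [div_le_div_iff₀ hkp (by linarith)]
      rw [hL] at hkL
      nlinarith) hν0 hν2 hst2.nu (fun x hx => by
        have hp := hb.Rpos x hx
        exact ⟨hp.1, by linarith [hx.1], hp.2.1, by linarith [hx.2]⟩) hst2.eu hst2.ev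
  rw [hMθ] at g1 g2 g3 g4
  have eA0 : ∀ x, 0 ≤ ee G ν (cA κ u) u x := fun x => (eA1 x).1
  have eB0 : ∀ x, 0 ≤ ee G ν (cA κ v) v x := fun x => (eB1 x).1
  set eA := ee G ν (cA κ u) u with heA
  set eB := ee G ν (cA κ v) v with heB
  set R := cR κ u v with hRd
  set r := ms R with hr
  have hd0 := hb.d0
  have hr0 : 0 ≤ r := ms_nonneg _
  have hrC : r ≤ C1 / k := hbo.msR
  -- powers
  have hpow : (1 / (k : ℝ)) ^ (2 * t + 1) ≤ 2 ^ (t + 2) * δ := by
    have e1 : 1 ≤ Real.exp (2 * k * (1 / 2 - (ν + γ))) := by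
      apply Real.one_le_exp
      have := hs.l2
      have : 0 ≤ 1 / 2 - (ν + γ) := by linarith
      positivity
    have e2 := hb.dge
    have e3 : (1 / (k : ℝ)) ^ (2 * t + 1) * (1 / 2) ^ (t + 2) ≤
        (1 / (k : ℝ)) ^ (2 * t + 1) * (1 / 2) ^ (t + 2) *
          Real.exp (2 * k * (1 / 2 - (ν + γ))) := by
      apply le_mul_of_one_le_right (by positivity) e1
    have e4 : (1 / (k : ℝ)) ^ (2 * t + 1) * (1 / 2) ^ (t + 2) ≤ δ := e3.trans e2
    have e5 : (1 / (k : ℝ)) ^ (2 * t + 1) =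
        2 ^ (t + 2) * ((1 / (k : ℝ)) ^ (2 * t + 1) * (1 / 2) ^ (t + 2)) := by
      rw [mul_comm ((1 / (k : ℝ)) ^ (2 * t + 1)), ← mul_assoc, ← mul_pow]
      norm_num
    rw [e5]
    exact mul_le_mul_of_nonneg_left e4 (by positivity)
  have hr2 : r ^ (2 * t + 2) ≤ C1 ^ (2 * t + 2) * (1 / (k : ℝ)) ^ (2 * t + 2) := by
    rw [← mul_pow]
    refine pow_le_pow_left₀ hr0 (hrC.trans (le_of_eq (by ring))) _
  have hr3 : r ^ (2 * t + 3) ≤ C1 ^ (2 * t + 3) * (1 / (k : ℝ)) ^ (2 * t + 3) := by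
    rw [← mul_pow]
    refine pow_le_pow_left₀ hr0 (hrC.trans (le_of_eq (by ring))) _
  have hC12 : C1 ^ (2 * t + 2) ≤ C1 ^ (2 * t + 3) := pow_le_pow_right₀ hC1 (by omega)
  have hr2' : r ^ (2 * t + 2) ≤ a * (δ / k) := by
    calc r ^ (2 * t + 2) ≤ C1 ^ (2 * t + 2) * (1 / (k : ℝ)) ^ (2 * t + 2) := hr2
      _ ≤ C1 ^ (2 * t + 3) * (1 / (k : ℝ)) ^ (2 * t + 2) :=
        mul_le_mul_of_nonneg_right hC12 (by positivity)
      _ = C1 ^ (2 * t + 3) * (1 / k) * (1 / (k : ℝ)) ^ (2 * t + 1) := by ring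
      _ ≤ C1 ^ (2 * t + 3) * (1 / k) * (2 ^ (t + 2) * δ) :=
        mul_le_mul_of_nonneg_left hpow (by positivity)
      _ = a * (δ / k) := by rw [ha]; ring
  have hr3' : r ^ (2 * t + 3) ≤ a * (δ / k / k) := by
    calc r ^ (2 * t + 3) ≤ C1 ^ (2 * t + 3) * (1 / (k : ℝ)) ^ (2 * t + 3) := hr3
      _ = C1 ^ (2 * t + 3) * (1 / k) * (1 / k) * (1 / (k : ℝ)) ^ (2 * t + 1) := by ring
      _ ≤ C1 ^ (2 * t + 3) * (1 / k) * (1 / k) * (2 ^ (t + 2) * δ) :=
        mul_le_mul_of_nonneg_left hpow (by positivity)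
      _ = a * (δ / k / k) := by rw [ha]; ring
  have hLC : L ≤ C := by
    have : 0 ≤ L * (2 + 2 * (M * a)) := by positivity
    rw [hC]; linarith
  have hMaC : M * a ≤ C := by
    have : 0 ≤ L * (2 + 2 * (M * a)) := by positivity
    rw [hC]; linarith
  have hC0 : 0 ≤ C := by linarith
  have haC : C1 ^ (2 * t + 2) ≤ a := by
    calc C1 ^ (2 * t + 2) ≤ C1 ^ (2 * t + 3) := hC12
      _ ≤ a := by
        rw [ha]
        exact le_mul_of_one_le_right (by positivity) (one_le_pow₀ (by norm_num))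
  have hfin : M * r ^ (2 * t + 2) ≤ C * (1 / (k : ℝ)) ^ (2 * t + 2) := by
    calc M * r ^ (2 * t + 2) ≤ M * (C1 ^ (2 * t + 2) * (1 / (k : ℝ)) ^ (2 * t + 2)) :=
          mul_le_mul_of_nonneg_left hr2 (by linarith)
      _ = (M * C1 ^ (2 * t + 2)) * (1 / (k : ℝ)) ^ (2 * t + 2) := by ring
      _ ≤ C * (1 / (k : ℝ)) ^ (2 * t + 2) := by
        refine mul_le_mul_of_nonneg_right ?_ (by positivity)
        exact (mul_le_mul_of_nonneg_left haC (by linarith)).trans hMaC
  have hLCk : L / (k : ℝ) ≤ C / k := div_le_div_of_nonneg_right hLC hkp.le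
  refine ⟨?_, ?_, ?_, ?_⟩
  · intro S hS
    obtain ⟨q1, q2⟩ := g1 S hS
    have hK0 : 0 ≤ Kf t G R eA eB S := Kf_nonneg G R eA0 eB0 S
    have hmS : 0 ≤ ms S := ms_nonneg S
    -- uv and om
    have huv : |avS S (fun x => u x * v x) - δ / 4 * avS S (om u v)| ≤
        δ / (4 * k) * ms S := by
      rw [← avS_mul_left, ← avS_sub]
      refine (abs_avS_le _ _).trans (avS_le_mul_ms fun x _ => ?_)
      have e1 := hs.kkt x
      have e2 := hb.eps
      have e3 : u x * v x - δ / 4 * om u v x =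
          (4 * u x * v x - δ * (1 - (u x - v x) ^ 2)) / 4 := by
        unfold om; ring
      rw [e3, abs_div, abs_of_pos (show (0 : ℝ) < 4 by norm_num)]
      have e4 : δ * (1 / (k : ℝ)) ^ 2 ≤ δ / k := by
        have : (1 / (k : ℝ)) ^ 2 ≤ 1 / k := by
          rw [pow_two]
          exact mul_le_of_le_one_right (by positivity) (by rw [div_le_one hkp]; exact hk0)
        calc δ * (1 / (k : ℝ)) ^ 2 ≤ δ * (1 / k) := mul_le_mul_of_nonneg_left this hd0.le
          _ = δ / k := by ring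
      calc |4 * u x * v x - δ * (1 - (u x - v x) ^ 2)| / 4 ≤ (δ / k) / 4 := by linarith
        _ = δ / (4 * k) := by field_simp
    have hom : avS S (om u v) ≤ ms S := by
      have := avS_le_mul_ms (S := S) (f := om u v) (c := 1) fun x _ => by
        unfold om
        linarith [sq_nonneg (u x - v x)]
      linarith
    have hdk : δ / (4 * k) ≤ δ / 4 := by
      apply div_le_div_of_nonneg_left hd0.le (by norm_num) (by linarith)
    obtain ⟨w1, w2⟩ := abs_le.1 huv
    have hK1 : Kf t G R eA eB S ≤ δ * ms S := by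
      have e1 : avS S (fun x => u x * v x) ≤ δ / 2 * ms S := by
        have : δ / 4 * avS S (om u v) ≤ δ / 4 * ms S :=
          mul_le_mul_of_nonneg_left hom (by linarith)
        have : δ / (4 * k) * ms S ≤ δ / 4 * ms S := mul_le_mul_of_nonneg_right hdk hmS
        linarith
      have e2 : 1 / 2 * Kf t G R eA eB S ≤ (1 - L / k) * Kf t G R eA eB S :=
        mul_le_mul_of_nonneg_right (by linarith) hK0
      linarith
    have hLK : L / k * Kf t G R eA eB S ≤ L / k * (δ * ms S) :=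
      mul_le_mul_of_nonneg_left hK1 (by positivity)
    have e5 : δ / (4 * k) * ms S = (1 / 4) / k * δ * ms S := by field_simp
    have e6 : M * r ^ (2 * t + 2) * ms S ≤ M * a / k * δ * ms S := by
      have : M * r ^ (2 * t + 2) ≤ M * (a * (δ / k)) :=
        mul_le_mul_of_nonneg_left hr2' (by linarith)
      calc M * r ^ (2 * t + 2) * ms S ≤ M * (a * (δ / k)) * ms S :=
            mul_le_mul_of_nonneg_right this hmS
        _ = M * a / k * δ * ms S := by ring
    have e7 : (1 / 4) / k * δ * ms S + L / k * (δ * ms S) + M * a / k * δ * ms S ≤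
        C / k * δ * ms S := by
      have : (1 / 4) / k * δ * ms S + L / k * (δ * ms S) + M * a / k * δ * ms S =
        (1 / 4 + L + M * a) * (δ * ms S / k) := by ring
      rw [this]
      have e8 : C / k * δ * ms S = C * (δ * ms S / k) := by ring
      rw [e8]
      refine mul_le_mul_of_nonneg_right ?_ (by positivity)
      have : 0 ≤ L * (2 + 2 * (M * a)) := by positivity
      rw [hC]
      linarith
    have e9 : 0 ≤ M * a / k * δ * ms S := by positivity
    rw [abs_le]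
    constructor
    · linarith
    · linarith
  · set E := avS R (fun x => u x * eA x + v x * eB x) with hE
    set Z := Zf t G R eA eB with hZ
    have hZ0 : 0 ≤ Z := Zf_nonneg G R eA0 eB0
    have hd1 : δ ≤ 1 := by
      have := hb.dk
      nlinarith
    have hlam1 := hs.l2
    have hg0 := hs.g0
    have gam1 := hb.gam1
    have gam2 := hb.gam2
    have hdC : δ ≤ C1 / k := by
      refine hbo.dC.trans ?_
      have : (1 / (k : ℝ)) ^ (2 * t + 1) ≤ 1 / k := by
        calc (1 / (k : ℝ)) ^ (2 * t + 1) ≤ (1 / (k : ℝ)) ^ 1 :=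
              pow_le_pow_of_le_one (by positivity) (by rw [div_le_one hkp]; exact hk0) (by omega)
          _ = 1 / k := pow_one _
      calc C1 * (1 / (k : ℝ)) ^ (2 * t + 1) ≤ C1 * (1 / k) :=
            mul_le_mul_of_nonneg_left this (by linarith)
        _ = C1 / k := by ring
    -- γ / ν
    set h := δ / (2 * k) with hh
    have hh0 : 0 < h := by positivity
    have hγ1 : h * (ν + γ) ≤ γ := by
      calc h * (ν + γ) = δ * (ν + γ) / (2 * k) := by rw [hh]; ring
        _ ≤ γ := gam1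
    have hγ2 : γ ≤ h * (1 + δ) * (ν + γ) := by
      calc γ ≤ δ * (1 + δ) * (ν + γ) / (2 * k) := gam2
        _ = h * (1 + δ) * (ν + γ) := by rw [hh]; ring
    have hh1 : h ≤ 1 / (2 * k) := by
      rw [hh]
      exact div_le_div_of_nonneg_right hd1 (by positivity)
    have hγ3 : γ ≤ ν * (2 / k) := by
      have e1 : h * (1 + δ) * (ν + γ) ≤ 1 / (2 * k) * 2 * (1 / 2) := by
        gcongr
        linarith
      have e2 : 1 / (2 * (k : ℝ)) * 2 * (1 / 2) = 1 / (2 * k) := by ring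
      have e3 : 1 / (2 * (k : ℝ)) ≤ ν * (2 / k) := by
        rw [show ν * (2 / (k : ℝ)) = (4 * ν) / (2 * k) by field_simp; ring]
        exact div_le_div_of_nonneg_right (by linarith) (by positivity)
      linarith
    have hq1 : h ≤ γ / ν := by
      rw [le_div_iff₀ hν0]
      calc h * ν ≤ h * (ν + γ) := mul_le_mul_of_nonneg_left (by linarith) hh0.le
        _ ≤ γ := hγ1
    have hq2 : γ / ν ≤ h * (1 + (3 * C1 + 2) / k) := by
      rw [div_le_iff₀ hν0]
      calc γ ≤ h * (1 + δ) * (ν + γ) := hγ2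
        _ ≤ h * (1 + C1 / k) * (ν + ν * (2 / k)) := by
            gcongr
        _ = h * ((1 + C1 / k) * (1 + 2 / k)) * ν := by ring
        _ ≤ h * (1 + (3 * C1 + 2) / k) * ν := by
            refine mul_le_mul_of_nonneg_right (mul_le_mul_of_nonneg_left ?_ hh0.le) hν0.le
            have e1 : (1 + C1 / k) * (1 + 2 / (k : ℝ)) =
              1 + (C1 + 2) / k + 2 * C1 / k * (1 / k) := by ring
            have e2 : 2 * C1 / k * (1 / (k : ℝ)) ≤ 2 * C1 / k :=
              mul_le_of_le_one_right (by positivity) (by rw [div_le_one hkp]; exact hk0)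
            have e3 : 1 + (3 * C1 + 2) / (k : ℝ) = 1 + (C1 + 2) / k + 2 * C1 / k := by ring
            rw [e1, e3]
            linarith
    -- E
    have hfl := hst2.fl
    have hEf : |E - γ / ν| ≤ C2 / k * (γ / ν) := by
      have e1 : E - γ / ν = (ν * E - γ) / ν := by field_simp
      rw [e1, abs_div, abs_of_pos hν0, div_le_iff₀ hν0]
      calc |ν * E - γ| ≤ C2 / k * γ := hfl
        _ = C2 / k * (γ / ν) * ν := by field_simp
    obtain ⟨f1, f2⟩ := abs_le.1 hEf
    have hkk : (1 : ℝ) / k ≤ 1 := by rw [div_le_one hkp]; exact hk0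
    have hE1 : E ≤ h * (1 + P / k) := by
      have e1 : E ≤ (1 + C2 / k) * (γ / ν) := by linarith
      have e2 : (1 + C2 / k) * (γ / ν) ≤ (1 + C2 / k) * (h * (1 + (3 * C1 + 2) / k)) :=
        mul_le_mul_of_nonneg_left hq2 (by positivity)
      have e3 : (1 + C2 / k) * (h * (1 + (3 * C1 + 2) / k)) =
        h * (1 + ((3 * C1 + 2) + C2) / k + (3 * C1 + 2) * C2 / k * (1 / k)) := by ring
      have e4 : (3 * C1 + 2) * C2 / k * (1 / (k : ℝ)) ≤ (3 * C1 + 2) * C2 / k :=
        mul_le_of_le_one_right (by positivity) hkk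
      have e5 : h * (1 + ((3 * C1 + 2) + C2) / k + (3 * C1 + 2) * C2 / k * (1 / k)) ≤
        h * (1 + ((3 * C1 + 2) + C2) / k + (3 * C1 + 2) * C2 / k) :=
        mul_le_mul_of_nonneg_left (by linarith) hh0.le
      have e6 : h * (1 + ((3 * C1 + 2) + C2) / k + (3 * C1 + 2) * C2 / k) = h * (1 + P / k) := by
        rw [hP]; ring
      linarith
    have hE2 : h * (1 - P / k) ≤ E := by
      have e1 : (1 - C2 / k) * (γ / ν) ≤ E := by linarith
      have hC2P : C2 ≤ P := by
        have : 0 ≤ (3 * C1 + 2) * C2 := by positivity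
        rw [hP]; linarith
      have hC2k1 : C2 / k ≤ 1 := by
        rw [div_le_one hkp]; linarith
      have e2 : (1 - C2 / k) * h ≤ (1 - C2 / k) * (γ / ν) :=
        mul_le_mul_of_nonneg_left hq1 (by linarith)
      have e3 : h * (1 - P / k) ≤ (1 - C2 / k) * h := by
        rw [mul_comm (1 - C2 / k)]
        refine mul_le_mul_of_nonneg_left ?_ hh0.le
        have : C2 / (k : ℝ) ≤ P / k := div_le_div_of_nonneg_right hC2P hkp.le
        linarith
      linarith
    have hPk : P / (k : ℝ) ≤ 1 := by rw [div_le_one hkp]; exact hkP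
    have hE3 : E ≤ δ / k := by
      have e1 : h * (1 + P / k) ≤ h * 2 := mul_le_mul_of_nonneg_left (by linarith) hh0.le
      have e2 : h * 2 = δ / k := by rw [hh]; field_simp
      linarith
    obtain ⟨z1, z2⟩ := abs_le.1 g2
    have hMr : M * r ^ (2 * t + 3) ≤ M * a * (δ / k / k) := by
      calc M * r ^ (2 * t + 3) ≤ M * (a * (δ / k / k)) :=
            mul_le_mul_of_nonneg_left hr3' (by linarith)
        _ = M * a * (δ / k / k) := by ring
    have hdkk : δ / k / k ≤ δ / k := div_le_self (by positivity) hk0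
    have hdkk0 : 0 ≤ δ / k / k := by positivity
    have hdk0 : 0 ≤ δ / k := by positivity
    have hMa0 : 0 ≤ M * a := by linarith
    have hZ1 : Z ≤ (2 + 2 * (M * a)) * (δ / k) := by
      have e1 : 1 / 2 * Z ≤ (1 - L / k) * Z := mul_le_mul_of_nonneg_right (by linarith) hZ0
      have e2 : M * a * (δ / k / k) ≤ M * a * (δ / k) := mul_le_mul_of_nonneg_left hdkk hMa0
      have e3 : (1 - L / k) * Z ≤ E + M * r ^ (2 * t + 3) := by linarith
      have e4 : (2 + 2 * (M * a)) * (δ / k) = 2 * (δ / k) + 2 * (M * a * (δ / k)) := by ring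
      rw [e4]
      linarith
    have hLZ : L / k * Z ≤ L * (2 + 2 * (M * a)) * (δ / k / k) := by
      calc L / k * Z ≤ L / k * ((2 + 2 * (M * a)) * (δ / k)) :=
            mul_le_mul_of_nonneg_left hZ1 (by positivity)
        _ = L * (2 + 2 * (M * a)) * (δ / k / k) := by ring
    have hhP : h * (P / k) ≤ P * (δ / k / k) := by
      have : h * (P / k) = P * (δ / k / k) / 2 := by rw [hh]; field_simp
      rw [this]
      have : 0 ≤ P * (δ / k / k) := by positivity
      linarith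
    have hCe : C / k * (δ / k) = C * (δ / k / k) := by ring
    have hCs : L * (2 + 2 * (M * a)) * (δ / k / k) + M * a * (δ / k / k) + P * (δ / k / k) ≤
        C * (δ / k / k) := by
      rw [← add_mul, ← add_mul]
      refine mul_le_mul_of_nonneg_right ?_ hdkk0
      rw [hC]
      linarith
    rw [hCe, abs_le]
    constructor
    · linarith
    · linarith
  · intro x hx hex
    have e1 := g3 x hx hex
    have e2 : 0 ≤ aP G R eB (2 * t) x + aP G R eA (2 * t + 1) x :=
      add_nonneg (aP_nonneg G R eB eB0 _ x) (aP_nonneg G R eA eA0 _ x)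
    have e3 : (1 + L / k) * (aP G R eB (2 * t) x + aP G R eA (2 * t + 1) x) ≤
        (1 + C / k) * (aP G R eB (2 * t) x + aP G R eA (2 * t + 1) x) :=
      mul_le_mul_of_nonneg_right (by linarith) e2
    linarith
  · intro x hx hex
    have e1 := g4 x hx hex
    have e2 : 0 ≤ aP G R eA (2 * t) x + aP G R eB (2 * t + 1) x :=
      add_nonneg (aP_nonneg G R eA eA0 _ x) (aP_nonneg G R eB eB0 _ x)
    have e3 : (1 + L / k) * (aP G R eA (2 * t) x + aP G R eB (2 * t + 1) x) ≤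
        (1 + C / k) * (aP G R eA (2 * t) x + aP G R eB (2 * t + 1) x) :=
      mul_le_mul_of_nonneg_right (by linarith) e2
    linarith

end Pool.Agent.OCX
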