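import Pool.Agent.OCX.Stmts
import Pool.Agent.OCX.Lib

/-! # OCX module RCA: core vertices with missing neighbours -/

open scoped BigOperators

namespace Pool.Agent.OCX

namespace RCA_

variable {V : Type} [Fintype V]

/-- sets of non-neighbours -/
theorem split {G : SimpleGraph V} {A B R : Set V} (c : Cor G A B R) {z : V} (hz : z ∈ A)
    {X : Set V} (hX : X ⊆ B) (hn : ∀ b ∈ X, ¬ G.Adj z b) (f : V → ℝ) (hf : ∀ x ∈ B, 0 ≤ f x) :
    avS (G.neighborSet z) f = avS (G.neighborSet z ∩ B) f + avS (G.neighborSet z ∩ R) f ∧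
    avS (G.neighborSet z ∩ B) f + avS X f ≤ avS B f := by
  constructor
  · rw [avS_inter_three c (G.neighborSet z) f, nbr_A c hz, avS_empty, zero_add]
  · have hd : Disjoint (G.neighborSet z ∩ B) X := by
      rw [Set.disjoint_left]
      intro b hb hb'
      exact hn b hb' hb.1
    rw [← avS_union hd]
    refine avS_mono_set ?_ hf
    rintro b (hb | hb)
    · exact hb.2
    · exact hX hb

/-- scalar: first estimate -/
theorem sc1 {C2 k δ ν xv xu xp : ℝ} (hk : 0 < k) (hC2 : 1 ≤ C2) (hδ : 0 ≤ δ)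
    (hν : 12 / 25 ≤ ν) (hν2 : ν ≤ 1 / 2) (hνi : 1 / ν ≤ 2 * (1 + C2 / k))
    (hxp : 0 ≤ xp) (he : xp = xu + xv) (hu : |xu| ≤ C2 * δ / k) :
    |xv / ν - 2 * xp| ≤ 10 * C2 / k * xp + 10 * C2 * δ / k := by
  have hν0 : 0 < ν := by linarith
  have h1 : (2 : ℝ) ≤ 1 / ν := by
    rw [le_div_iff₀ hν0]; linarith
  have h2 : 1 / ν ≤ 3 := by
    rw [div_le_iff₀ hν0]; linarith
  have e : xv / ν - 2 * xp = (1 / ν - 2) * xp - 1 / ν * xu := by
    rw [show xv = xp - xu by linarith]
    ring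
  rw [e]
  have h3 : |(1 / ν - 2) * xp| ≤ 2 * (C2 / k) * xp := by
    rw [abs_of_nonneg (mul_nonneg (by linarith) hxp)]
    exact mul_le_mul_of_nonneg_right (by linarith) hxp
  have h4 : |1 / ν * xu| ≤ 3 * (C2 * δ / k) := by
    rw [abs_mul, abs_of_nonneg (by positivity : (0 : ℝ) ≤ 1 / ν)]
    exact mul_le_mul h2 hu (abs_nonneg _) (by norm_num)
  have h5 : 0 ≤ C2 / k * xp := by positivity
  have h6 : 0 ≤ C2 * δ / k := by positivity
  calc |(1 / ν - 2) * xp - 1 / ν * xu| ≤ |(1 / ν - 2) * xp| + |1 / ν * xu| := abs_sub _ _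
    _ ≤ 2 * (C2 / k) * xp + 3 * (C2 * δ / k) := add_le_add h3 h4
    _ ≤ 10 * (C2 / k * xp) + 10 * (C2 * δ / k) := by linarith
    _ = 10 * C2 / k * xp + 10 * C2 * δ / k := by ring

end RCA_

open RCA_ in
theorem rca_proof (h1 : Stmt_BAS) (h2 : Stmt_ST2) : Stmt_RCA := by
  intro t ρ hρ hρ1
  obtain ⟨C2, hC2, hS⟩ := h2 t ρ hρ hρ1
  refine ⟨10 * C2, by linarith, ?_⟩
  intro κ hκ hκ1
  obtain ⟨k1, hk1⟩ := h1 t κ hκ hκ1
  obtain ⟨k2, hk2⟩ := hS κ hκ hκ1
  obtain ⟨k3, hk3⟩ := exists_nat_ge (100 * C2 / κ)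
  refine ⟨max (max k1 k2) (max k3 1), ?_⟩
  intro k hk V _ G ν γ δ ξ u v hξ hsys hR X hX
  have hka : k1 ≤ k := le_trans (le_trans (le_max_left _ _) (le_max_left _ _)) hk
  have hkb : k2 ≤ k := le_trans (le_trans (le_max_right _ _) (le_max_left _ _)) hk
  have hkc : k3 ≤ k := le_trans (le_trans (le_max_left _ _) (le_max_right _ _)) hk
  have hkd : 1 ≤ k := le_trans (le_trans (le_max_right _ _) (le_max_right _ _)) hk
  have hkp : (0 : ℝ) < k := by exact_mod_cast hkd
  have hbas := hk1 k hka V G ν γ δ ξ u v hξ hsys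
  have hst := hk2 k hkb V G ν γ δ ξ u v hξ hsys hR
  have hC2k : C2 / k ≤ κ / 100 := by
    rw [div_le_iff₀ hkp]
    have h3 : 100 * C2 / κ ≤ k := hk3.trans (by exact_mod_cast hkc)
    rw [div_le_iff₀ hκ] at h3
    linarith
  have hC2k0 : 0 < C2 / k := by positivity
  have h1k : 1 / (k : ℝ) ≤ C2 / k := div_le_div_of_nonneg_right hC2 hkp.le
  have hδ0 := hbas.d0
  have hδ1 : δ ≤ 1 / 100 := by
    have := hbas.dk
    nlinarith
  have hν := hbas.nu
  have hν0 : 0 < ν := by linarith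
  have hl2 := hsys.l2
  have hγ0 := hsys.g0
  have hν2 : ν ≤ 1 / 2 := by linarith
  have hcor := hbas.cor
  set A := cA κ u with hA
  set B := cA κ v with hB
  set R := cR κ u v with hRdef
  have hφ0 : ∀ x, 0 ≤ u x + v x := hsys.pos
  -- masses
  have huX : |avS X u| ≤ C2 * δ / k := by
    refine (abs_avS_le _ _).trans ?_
    refine (avS_mono_set hX fun x _ => abs_nonneg _).trans ?_
    exact hst.uB
  have huB : |avS B u| ≤ C2 * δ / k := by
    refine (abs_avS_le _ _).trans ?_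
    exact hst.uB
  have hxp0 : 0 ≤ avS X (fun x => u x + v x) := avS_nonneg fun x _ => hφ0 x
  have hadd : avS X (fun x => u x + v x) = avS X u + avS X v := avS_add X u v
  refine ⟨sc1 hkp hC2 hδ0.le hν hν2 hst.nu hxp0 hadd huX, ?_⟩
  intro z hz hn
  -- mass of phi on B
  have hbφ : avS B (fun x => u x + v x) ≤ 1 / 2 + C2 / k := by
    have h3 := avS_sq_le B (fun _ => (1 : ℝ)) (fun x => u x + v x)
    have e1 : avS B (fun x => 1 * (u x + v x)) = avS B (fun x => u x + v x) :=
      avS_congr fun x _ => one_mul _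
    have e2 : avS B (fun _ => (1 : ℝ) ^ 2) = ms B := by
      unfold ms
      exact avS_congr fun x _ => one_pow _
    rw [e1, e2] at h3
    have h4 : ms B ≤ 1 / 2 + C2 / k := by
      have := (abs_le.1 hst.mB).2
      linarith
    have h5 := hst.pB
    have h6 : ms B * avS B (fun x => (u x + v x) ^ 2) ≤ (1 / 2 + C2 / k) * (1 / 2 + C2 / k) :=
      mul_le_mul h4 h5 (avS_nonneg fun x _ => sq_nonneg _) (by positivity)
    have h7 : avS B (fun x => u x + v x) ^ 2 ≤ (1 / 2 + C2 / k) ^ 2 := by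
      rw [pow_two (1 / 2 + C2 / k)]
      exact h3.trans h6
    exact (abs_le_of_sq_le_sq' h7 (by positivity)).2
  have hrR : ms R ≤ C2 / k := hst.boo.msR
  have hr0 : 0 ≤ ms R := ms_nonneg R
  constructor
  · -- phi z
    obtain ⟨e1, e2⟩ := split hcor hz hX hn (fun x => u x + v x) (fun x _ => hφ0 x)
    have hW : (ν + γ) * (u z + v z) = avS (G.neighborSet z) (fun x => u x + v x) := by
      have hu := hsys.hu z
      have hv := hsys.hv z
      unfold Wop at hu hv
      rw [avS_add]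
      rw [hu, hv]
      ring
    have h3 : avS (G.neighborSet z ∩ R) (fun x => u x + v x) ≤ 11 / 10 * ms R := by
      refine (avS_mono_set Set.inter_subset_right fun x _ => hφ0 x).trans ?_
      exact avS_le_mul_ms fun x _ => hbas.phi0 x
    have hphi := hbas.phi0 z
    have hz0 := hφ0 z
    have heta := hst.boo.eta
    have h4 : (1 / 2 - C2 / k) * (u z + v z) ≤ (ν + γ) * (u z + v z) :=
      mul_le_mul_of_nonneg_right (by linarith) hz0
    have h5 : C2 / k * (u z + v z) ≤ C2 / k * (11 / 10) :=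
      mul_le_mul_of_nonneg_left hphi hC2k0.le
    have e3 : 10 * C2 / (k : ℝ) = 10 * (C2 / k) := by ring
    rw [e3]
    linarith
  · -- v
    have hvB : ∀ x ∈ B, 0 ≤ v x := fun x hx => by
      have : 1 - κ ≤ v x := hx
      linarith
    obtain ⟨e1, e2⟩ := split hcor hz hX hn v hvB
    have hv := hsys.hv z
    unfold Wop at hv
    have h3 : avS (G.neighborSet z ∩ R) v ≤ ms R := by
      have h4 : avS (G.neighborSet z ∩ R) v ≤ 1 * ms (G.neighborSet z ∩ R) := by
        refine avS_le_mul_ms fun x hx => ?_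
        have : v x < 1 - κ := hx.2.2
        linarith
      rw [one_mul] at h4
      exact h4.trans (ms_mono Set.inter_subset_right)
    have hBv : avS B v ≤ 1 / 2 + C2 / k + C2 * δ / k := by
      have h5 : avS B (fun x => u x + v x) = avS B u + avS B v := avS_add B u v
      have := (abs_le.1 huB).1
      linarith
    have hδk : C2 * δ / k ≤ C2 / k := by
      rw [show C2 * δ / (k : ℝ) = C2 / k * δ by ring]
      nlinarith
    have hγ : γ ≤ 1 / k := by
      have h6 := hbas.gam2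
      refine h6.trans ?_
      rw [div_le_div_iff₀ (by positivity) hkp]
      have h7 : δ * (1 + δ) * (ν + γ) ≤ 2 := by
        have h8 : δ * (1 + δ) ≤ 2 := by nlinarith
        have h9 : 0 ≤ δ * (1 + δ) := by positivity
        nlinarith
      nlinarith
    have hvz := hbas.vA z hz
    have huz : 1 - κ ≤ u z := hz
    have h10 : ν * (1 - κ) ≤ ν * u z := mul_le_mul_of_nonneg_left huz hν0.le
    have h11 : -(1 / (k : ℝ)) ≤ γ * v z := by
      have h12 := (abs_le.1 hvz).1
      have h13 : γ * (-(2 * δ)) ≤ γ * v z := mul_le_mul_of_nonneg_left h12 hγ0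
      have h14 : γ * (2 * δ) ≤ γ * 1 := mul_le_mul_of_nonneg_left (by linarith) hγ0
      linarith
    have hνl : 1 / 2 - C2 / k ≤ ν := by
      have := hst.boo.eta
      have h15 : γ ≤ δ * (1 + δ) * (ν + γ) / (2 * k) := hbas.gam2
      have h16 := hst.nu
      rw [div_le_iff₀ hν0] at h16
      nlinarith
    have h17 : (1 / 2 - C2 / k) * (1 - κ) ≤ ν * (1 - κ) :=
      mul_le_mul_of_nonneg_right hνl (by linarith)
    have h18 : C2 / k * (1 - κ) ≤ C2 / k * 1 :=
      mul_le_mul_of_nonneg_left (by linarith) hC2k0.le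
    have hXv : avS X v ≤ κ / 2 + 6 * (C2 / k) := by
      linarith
    have h19 : avS X v ≤ κ * (14 / 25) := by linarith
    rw [div_le_iff₀ hν0]
    nlinarith

end Pool.Agent.OCX
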