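import Pool.Agent.OCX.Stmts
import Pool.Agent.OCX.Lib

/-!
# OCX, module RCT: rectangles of missing edges, deficient vertices
-/

open scoped BigOperators

namespace Pool.Agent.OCX

namespace RCT_

noncomputable section

variable {V : Type} [Fintype V] {G : SimpleGraph V}

theorem Vr_nonneg (A : Set V) (φ : V → ℝ) : 0 ≤ Vr A φ := by
  unfold Vr
  have h := avS_sq_le A (fun _ => (1 : ℝ)) φ
  simp only [one_mul, one_pow] at h
  unfold ms
  linarith

theorem Vr_eq (A : Set V) (φ : V → ℝ) :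
    Vr A φ = ms A * avS A (fun x => (φ x - 1) ^ 2) - (avS A φ - ms A) ^ 2 := by
  have e : avS A (fun x => (φ x - 1) ^ 2) = avS A (fun x => φ x ^ 2) - 2 * avS A φ + ms A := by
    have e1 : avS A (fun x => (φ x - 1) ^ 2) =
        avS A (fun x => (φ x ^ 2 - 2 * φ x) + 1) := by
      congr 1
      funext x
      ring
    rw [e1, avS_add, avS_sub, avS_mul_left]
    rfl
  rw [e]
  unfold Vr
  ring

theorem Vr_lower {A Y : Set V} {φ : V → ℝ} {M r p : ℝ} (hM : 1 ≤ M) (hr0 : 0 ≤ r)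
    (hMr : M * r ≤ 1 / 10) (hYA : Y ⊆ A) (hφY : ∀ z ∈ Y, 1 / 2 ≤ φ z)
    (hφle : ∀ z ∈ A, φ z ≤ 1 + M * r) (hm1 : 1 / 2 - M * r ≤ ms A) (hm2 : ms A ≤ 1 / 2 + M * r)
    (hq : 1 / 2 - M * r ≤ avS A φ) (hp0 : 0 ≤ p) (hp3 : p ≤ 3)
    (hdef : ∀ z ∈ Y, φ z ≤ 1 + M * r - p) (hpq : p * (2 * avS Y φ) ≤ M * r) :
    p ^ 2 * (2 * avS Y φ) / 4 - 9 * M ^ 2 * r ^ 2 ≤ Vr A φ := by
  have hMr0 : 0 ≤ M * r := mul_nonneg (by linarith) hr0
  have hA1 : ms A ≤ 1 := ms_le_one A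
  have hA0 : 0 ≤ ms A := ms_nonneg A
  have hY0 : 0 ≤ ms Y := ms_nonneg Y
  have hYA' : avS Y (fun x => (φ x - 1) ^ 2) ≤ avS A (fun x => (φ x - 1) ^ 2) :=
    avS_mono_set hYA fun x _ => sq_nonneg _
  have hYl : (p ^ 2 - 2 * (M * r) * p) * ms Y ≤ avS Y (fun x => (φ x - 1) ^ 2) := by
    apply mul_ms_le_avS
    intro z hz
    have h := hdef z hz
    nlinarith [sq_nonneg (1 - φ z - p), mul_nonneg hp0 (show (0 : ℝ) ≤ 1 + M * r - p - φ z by linarith)]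
  have hYu : ms Y ≤ 2 * avS Y φ := by
    have := mul_ms_le_avS hφY
    linarith
  have hYw : avS Y φ ≤ (1 + M * r) * ms Y := avS_le_mul_ms fun z hz => hφle z (hYA hz)
  have hAu : avS A φ ≤ (1 + M * r) * ms A := avS_le_mul_ms hφle
  have hsq : (avS A φ - ms A) ^ 2 ≤ 4 * (M * r) ^ 2 := by
    have a1 : -(2 * (M * r)) ≤ avS A φ - ms A := by linarith
    have a2 : avS A φ - ms A ≤ 2 * (M * r) := by nlinarith
    nlinarith
  set q := 2 * avS Y φ with hqdef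
  have hq0 : 0 ≤ q := le_trans hY0 hYu
  have hYlow : q / 2 * (1 - M * r) ≤ ms Y := by
    have e : avS Y φ = q / 2 := by rw [hqdef]; ring
    rw [e] at hYw
    nlinarith [mul_le_mul_of_nonneg_right hYw (show (0 : ℝ) ≤ 1 - M * r by linarith),
      mul_nonneg hMr0 hMr0]
  rw [Vr_eq]
  -- main lower bound
  have m1 : ms A * ((p ^ 2 - 2 * (M * r) * p) * ms Y) ≤
      ms A * avS A (fun x => (φ x - 1) ^ 2) :=
    mul_le_mul_of_nonneg_left (hYl.trans hYA') hA0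
  have m2 : ms A * (2 * (M * r) * p * ms Y) ≤ 2 * (M * r) ^ 2 := by
    have b1 : p * ms Y ≤ M * r := le_trans (mul_le_mul_of_nonneg_left hYu hp0) hpq
    have b2 : 2 * (M * r) * p * ms Y ≤ 2 * (M * r) ^ 2 := by nlinarith
    have b3 : 0 ≤ 2 * (M * r) * p * ms Y := by positivity
    nlinarith
  have m3 : p ^ 2 * q / 4 - 9 / 4 * (M * r) ^ 2 ≤ ms A * (p ^ 2 * ms Y) := by
    have c1 : (1 / 2 - M * r) * (q / 2 * (1 - M * r)) ≤ ms A * ms Y := by
      apply mul_le_mul hm1 hYlow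
      · apply mul_nonneg (by positivity) (by linarith)
      · exact hA0
    have c2 : p ^ 2 * ((1 / 2 - M * r) * (q / 2 * (1 - M * r))) ≤ p ^ 2 * (ms A * ms Y) :=
      mul_le_mul_of_nonneg_left c1 (sq_nonneg _)
    have c3 : p ^ 2 * q / 4 * (1 - 3 * (M * r)) ≤
        p ^ 2 * ((1 / 2 - M * r) * (q / 2 * (1 - M * r))) := by
      have : p ^ 2 * ((1 / 2 - M * r) * (q / 2 * (1 - M * r))) -
          p ^ 2 * q / 4 * (1 - 3 * (M * r)) = p ^ 2 * q / 4 * (2 * (M * r) ^ 2) := by ring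
      have h' : 0 ≤ p ^ 2 * q / 4 * (2 * (M * r) ^ 2) := by positivity
      linarith
    have c4 : p ^ 2 * q / 4 * (3 * (M * r)) ≤ 9 / 4 * (M * r) ^ 2 := by
      have d1 : p ^ 2 * q ≤ 3 * (M * r) := by
        have : p ^ 2 * q = p * (p * q) := by ring
        rw [this]
        calc p * (p * q) ≤ 3 * (p * q) := mul_le_mul_of_nonneg_right hp3 (mul_nonneg hp0 hq0)
          _ ≤ 3 * (M * r) := by linarith
      nlinarith
    linarith
  have e1 : ms A * ((p ^ 2 - 2 * (M * r) * p) * ms Y) =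
      ms A * (p ^ 2 * ms Y) - ms A * (2 * (M * r) * p * ms Y) := by ring
  have e2 : 9 * M ^ 2 * r ^ 2 = 9 * (M * r) ^ 2 := by ring
  rw [e2]
  have h0 : 0 ≤ (M * r) ^ 2 := sq_nonneg _
  linarith

theorem prod_bound {M r p q P Q : ℝ} (hM : 1 ≤ M) (hr0 : 0 ≤ r) (hr1 : r ≤ 1)
    (hp0 : 0 ≤ p) (hq0 : 0 ≤ q) (hp3 : p ≤ 3) (hq3 : q ≤ 3) (hpq : p * q ≤ M * r)
    (hP0 : 0 ≤ P) (hQ0 : 0 ≤ Q)
    (hP : P ≤ p + (M * r * p + M ^ 2 * r ^ 2)) (hQ : Q ≤ q + (M * r * q + M ^ 2 * r ^ 2)) :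
    P * Q ≤ p * q + 24 * M ^ 4 * r ^ 2 ∧
      P * Q * (1 + (P + Q) / 2) ≤ p * q * (1 + (p + q) / 2) + 200 * M ^ 6 * r ^ 2 := by
  have hM0 : (0 : ℝ) ≤ M := by linarith
  have hM2 : 1 ≤ M ^ 2 := one_le_pow₀ hM
  have hM4 : M ^ 2 ≤ M ^ 4 := pow_le_pow_right₀ hM (by norm_num)
  have hM3 : M ^ 3 ≤ M ^ 6 := pow_le_pow_right₀ hM (by norm_num)
  have hM46 : M ^ 4 ≤ M ^ 6 := pow_le_pow_right₀ hM (by norm_num)
  have hMM2 : M ≤ M ^ 2 := by nlinarith
  set dx := M * r * p + M ^ 2 * r ^ 2 with hdx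
  set dy := M * r * q + M ^ 2 * r ^ 2 with hdy
  have hdx0 : 0 ≤ dx := by positivity
  have hdy0 : 0 ≤ dy := by positivity
  have hr2 : r ^ 2 ≤ r := by nlinarith
  have hdx4 : dx ≤ 4 * (M ^ 2 * r) := by
    have a1 : M * r * p ≤ 3 * (M ^ 2 * r) := by
      calc M * r * p ≤ M * r * 3 := mul_le_mul_of_nonneg_left hp3 (by positivity)
        _ = 3 * (M * r) := by ring
        _ ≤ 3 * (M ^ 2 * r) := by nlinarith
    have a2 : M ^ 2 * r ^ 2 ≤ M ^ 2 * r := mul_le_mul_of_nonneg_left hr2 (by positivity)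
    linarith
  have hdy4 : dy ≤ 4 * (M ^ 2 * r) := by
    have a1 : M * r * q ≤ 3 * (M ^ 2 * r) := by
      calc M * r * q ≤ M * r * 3 := mul_le_mul_of_nonneg_left hq3 (by positivity)
        _ = 3 * (M * r) := by ring
        _ ≤ 3 * (M ^ 2 * r) := by nlinarith
    have a2 : M ^ 2 * r ^ 2 ≤ M ^ 2 * r := mul_le_mul_of_nonneg_left hr2 (by positivity)
    linarith
  have hpq0 : 0 ≤ p * q := mul_nonneg hp0 hq0
  have hpdy : p * dy ≤ 4 * (M ^ 4 * r ^ 2) := by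
    have a1 : p * (M * r * q) ≤ M ^ 4 * r ^ 2 := by
      calc p * (M * r * q) = M * r * (p * q) := by ring
        _ ≤ M * r * (M * r) := mul_le_mul_of_nonneg_left hpq (by positivity)
        _ = M ^ 2 * r ^ 2 := by ring
        _ ≤ M ^ 4 * r ^ 2 := mul_le_mul_of_nonneg_right hM4 (by positivity)
    have a2 : p * (M ^ 2 * r ^ 2) ≤ 3 * (M ^ 4 * r ^ 2) := by
      calc p * (M ^ 2 * r ^ 2) ≤ 3 * (M ^ 2 * r ^ 2) :=
            mul_le_mul_of_nonneg_right hp3 (by positivity)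
        _ ≤ 3 * (M ^ 4 * r ^ 2) := by
            have := mul_le_mul_of_nonneg_right hM4 (show (0 : ℝ) ≤ r ^ 2 by positivity)
            linarith
    rw [hdy, mul_add]
    linarith
  have hqdx : q * dx ≤ 4 * (M ^ 4 * r ^ 2) := by
    have a1 : q * (M * r * p) ≤ M ^ 4 * r ^ 2 := by
      calc q * (M * r * p) = M * r * (p * q) := by ring
        _ ≤ M * r * (M * r) := mul_le_mul_of_nonneg_left hpq (by positivity)
        _ = M ^ 2 * r ^ 2 := by ring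
        _ ≤ M ^ 4 * r ^ 2 := mul_le_mul_of_nonneg_right hM4 (by positivity)
    have a2 : q * (M ^ 2 * r ^ 2) ≤ 3 * (M ^ 4 * r ^ 2) := by
      calc q * (M ^ 2 * r ^ 2) ≤ 3 * (M ^ 2 * r ^ 2) :=
            mul_le_mul_of_nonneg_right hq3 (by positivity)
        _ ≤ 3 * (M ^ 4 * r ^ 2) := by
            have := mul_le_mul_of_nonneg_right hM4 (show (0 : ℝ) ≤ r ^ 2 by positivity)
            linarith
    rw [hdx, mul_add]
    linarith
  have hdd : dx * dy ≤ 16 * (M ^ 4 * r ^ 2) := by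
    calc dx * dy ≤ (4 * (M ^ 2 * r)) * (4 * (M ^ 2 * r)) :=
          mul_le_mul hdx4 hdy4 hdy0 (by positivity)
      _ = 16 * (M ^ 4 * r ^ 2) := by ring
  have hPQ : P * Q ≤ p * q + 24 * (M ^ 4 * r ^ 2) := by
    calc P * Q ≤ (p + dx) * (q + dy) := mul_le_mul hP hQ hQ0 (by positivity)
      _ = p * q + p * dy + q * dx + dx * dy := by ring
      _ ≤ p * q + 24 * (M ^ 4 * r ^ 2) := by linarith
  refine ⟨by linarith, ?_⟩
  have hPQ0 : 0 ≤ P * Q := mul_nonneg hP0 hQ0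
  have hd8 : M ^ 2 * r ≤ M ^ 2 := by nlinarith
  have hS : 1 + (P + Q) / 2 ≤ 8 * M ^ 2 := by
    have : P + Q ≤ 6 + 8 * (M ^ 2 * r) := by linarith
    linarith
  have s1 : P * Q * (1 + (P + Q) / 2) ≤ (p * q + 24 * (M ^ 4 * r ^ 2)) * (1 + (P + Q) / 2) :=
    mul_le_mul_of_nonneg_right hPQ (by positivity)
  have s2 : 24 * (M ^ 4 * r ^ 2) * (1 + (P + Q) / 2) ≤ 192 * (M ^ 6 * r ^ 2) := by
    calc 24 * (M ^ 4 * r ^ 2) * (1 + (P + Q) / 2) ≤ 24 * (M ^ 4 * r ^ 2) * (8 * M ^ 2) :=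
          mul_le_mul_of_nonneg_left hS (by positivity)
      _ = 192 * (M ^ 6 * r ^ 2) := by ring
  have s3 : p * q * (1 + (P + Q) / 2) ≤ p * q * (1 + (p + q) / 2) + 4 * (M ^ 3 * r ^ 2) := by
    have : p * q * (1 + (P + Q) / 2) ≤ p * q * (1 + (p + q) / 2 + 4 * (M ^ 2 * r)) :=
      mul_le_mul_of_nonneg_left (by linarith) hpq0
    have h2 : p * q * (4 * (M ^ 2 * r)) ≤ M * r * (4 * (M ^ 2 * r)) :=
      mul_le_mul_of_nonneg_right hpq (by positivity)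
    have e : M * r * (4 * (M ^ 2 * r)) = 4 * (M ^ 3 * r ^ 2) := by ring
    rw [e] at h2
    have e2 : p * q * (1 + (p + q) / 2 + 4 * (M ^ 2 * r)) =
        p * q * (1 + (p + q) / 2) + p * q * (4 * (M ^ 2 * r)) := by ring
    linarith
  have s4 : M ^ 3 * r ^ 2 ≤ M ^ 6 * r ^ 2 := mul_le_mul_of_nonneg_right hM3 (by positivity)
  have e3 : (p * q + 24 * (M ^ 4 * r ^ 2)) * (1 + (P + Q) / 2) =
      p * q * (1 + (P + Q) / 2) + 24 * (M ^ 4 * r ^ 2) * (1 + (P + Q) / 2) := by ring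
  have s5 : 0 ≤ M ^ 6 * r ^ 2 := by positivity
  linarith

theorem part3 {M r κ δ uz vz eX E : ℝ} (hM : 1 ≤ M) (hr0 : 0 < r) (hr1 : r ≤ 1)
    (hκ1 : κ ≤ 1 / 20) (hδ0 : 0 < δ) (hδκ : δ ≤ κ ^ 2 / 100) (hδ : δ ≤ M * r) (hE3 : E ≤ 3)
    (hrca : eX ≤ E + (M * r * E + M ^ 2 * r ^ 2)) (h3 : uz + vz ≤ 1 + M * r - E)
    (hv : |vz| ≤ 2 * δ) (hpos : 0 ≤ uz + vz) (h0 : uz + vz ≤ 11 / 10) (hu : 1 - κ ≤ uz)
    (hkkt : |4 * uz * vz - δ * (1 - (uz - vz) ^ 2)| ≤ r) (hκ : 0 < κ) :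
    1 - (1 + 300 * M ^ 6 * r - eX) ^ 2 - 300 * M ^ 6 * r ≤ 1 - (uz - vz) ^ 2 ∧
      uz ≤ 1 + 300 * M ^ 6 * r - eX := by
  have hM0 : (0 : ℝ) < M := by linarith
  have hM6 : 1 ≤ M ^ 6 := one_le_pow₀ hM
  have hM2 : M ≤ M ^ 6 := by
    calc M = M ^ 1 := (pow_one M).symm
      _ ≤ M ^ 6 := pow_le_pow_right₀ hM (by norm_num)
  have hM26 : M ^ 2 ≤ M ^ 6 := pow_le_pow_right₀ hM (by norm_num)
  have hMr6 : M * r ≤ M ^ 6 * r := mul_le_mul_of_nonneg_right hM2 hr0.le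
  have hMr26 : M ^ 2 * r ≤ M ^ 6 * r := mul_le_mul_of_nonneg_right hM26 hr0.le
  have hMr0 : 0 ≤ M * r := by positivity
  have d1 : M * r * E ≤ 3 * (M * r) := by
    have := mul_le_mul_of_nonneg_left hE3 hMr0
    linarith
  have d2 : M ^ 2 * r ^ 2 ≤ M ^ 2 * r := by
    have : r ^ 2 ≤ r := by
      rw [pow_two]
      exact mul_le_of_le_one_left hr0.le hr1
    exact mul_le_mul_of_nonneg_left this (by positivity)
  have pos6 : 0 ≤ M ^ 6 * r := by positivity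
  have T1 : uz + vz ≤ 1 + 5 * (M ^ 6 * r) - eX := by linarith
  obtain ⟨v1, v2⟩ := abs_le.1 hv
  have T2 : uz ≤ 1 + 7 * (M ^ 6 * r) - eX := by linarith
  refine ⟨?_, by linarith⟩
  obtain ⟨q1, q2⟩ := abs_le.1 hkkt
  have hδs : δ ≤ 1 / 10000 := by
    have hk2 : κ ^ 2 ≤ (1 / 20) ^ 2 := pow_le_pow_left₀ hκ.le hκ1 2
    norm_num at hk2
    linarith
  have hpsi : (uz - vz) ^ 2 ≤ 2 := by
    have a1 : 0 ≤ uz - vz := by linarith
    have a2 : uz - vz ≤ 13 / 10 := by linarith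
    have a3 : (uz - vz) ^ 2 ≤ (13 / 10) ^ 2 := pow_le_pow_left₀ a1 a2 2
    norm_num at a3
    linarith
  have hδom : -δ ≤ δ * (1 - (uz - vz) ^ 2) := by
    have := mul_le_mul_of_nonneg_left hpsi hδ0.le
    have e : δ * (1 - (uz - vz) ^ 2) = δ - δ * (uz - vz) ^ 2 := by ring
    linarith
  have hsq : (uz - vz) ^ 2 ≤ (uz + vz) ^ 2 + δ + r := by
    have e : (uz - vz) ^ 2 = (uz + vz) ^ 2 - 4 * uz * vz := by ring
    linarith
  have hsq2 : (uz + vz) ^ 2 ≤ (1 + 300 * M ^ 6 * r - eX) ^ 2 := by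
    apply pow_le_pow_left₀ hpos
    linarith
  have hrM : r ≤ M ^ 6 * r := by
    have := mul_le_mul_of_nonneg_right hM6 hr0.le
    linarith
  linarith

/-- All data needed for one side. -/
structure Half (k : ℕ) (κ M : ℝ) (G : SimpleGraph V) (ν δ : ℝ) (u v : V → ℝ) : Prop where
  nu : 0 < ν
  phile : ∀ x, u x + v x ≤ 1 + M * (1 / k)
  phi0 : ∀ x, u x + v x ≤ 11 / 10
  pos : ∀ x, 0 ≤ u x + v x
  lowA : ∀ x ∈ cA κ u, 1 / 2 ≤ u x + v x
  vB : ∀ x ∈ cA κ v, 0 ≤ v x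
  vA : ∀ x ∈ cA κ u, |v x| ≤ 2 * δ
  m1 : 1 / 2 - M * (1 / k) ≤ ms (cA κ u)
  m2 : ms (cA κ u) ≤ 1 / 2 + M * (1 / k)
  q : 1 / 2 - M * (1 / k) ≤ avS (cA κ u) (fun x => u x + v x)
  rca : ∀ X : Set V, X ⊆ cA κ v →
    avS X v / ν ≤ 2 * avS X (fun x => u x + v x) +
      (M * (1 / k) * (2 * avS X (fun x => u x + v x)) + M ^ 2 * (1 / k) ^ 2) ∧
    ∀ z ∈ cA κ u, (∀ b ∈ X, ¬ G.Adj z b) →
      u z + v z ≤ 1 + M * (1 / k) - 2 * avS X (fun x => u x + v x) ∧ avS X v / ν ≤ 2 * κ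

theorem mk_half {t k : ℕ} {κ C2 C4 M ν γ δ ξ : ℝ} {u v : V → ℝ}
    (hκ : 0 < κ) (hκ1 : κ ≤ 1 / 20)
    (hM : 1 ≤ M) (h2M : C2 ≤ M) (h4M : C4 ≤ M) (hC2 : 1 ≤ C2) (hC4 : 1 ≤ C4)
    (hk : 1 ≤ k) (hs : Sys t k ξ G ν γ δ u v) (b : Bas t k κ G ν γ δ u v)
    (s : St2 t k κ C2 G ν γ δ u v)
    (rca : ∀ X : Set V, X ⊆ cA κ v →
        |avS X v / ν - 2 * avS X (fun x => u x + v x)| ≤
          C4 / k * avS X (fun x => u x + v x) + C4 * δ / k ∧
        ∀ z ∈ cA κ u, (∀ b ∈ X, ¬ G.Adj z b) →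
          u z + v z ≤ 1 + C4 / k - 2 * avS X (fun x => u x + v x) ∧ avS X v / ν ≤ 2 * κ) :
    Half k κ M G ν δ u v := by
  have hk0 : (0 : ℝ) < k := by exact_mod_cast hk
  have hr0 : (0 : ℝ) < 1 / k := by positivity
  have hr1 : (1 : ℝ) / k ≤ 1 := by
    rw [div_le_one hk0]
    exact_mod_cast hk
  have c2 : C2 / k ≤ M * (1 / k) := by
    rw [div_eq_mul_one_div]
    exact mul_le_mul_of_nonneg_right h2M hr0.le
  have c4 : C4 / k ≤ M * (1 / k) := by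
    rw [div_eq_mul_one_div]
    exact mul_le_mul_of_nonneg_right h4M hr0.le
  have hδ0 := b.d0
  have hδs : δ ≤ 1 / 10000 := by
    have := b.dk
    nlinarith
  have hδ : δ ≤ M * (1 / k) := by
    have h1 := s.boo.dC
    have h2 : (1 / (k : ℝ)) ^ (2 * t + 1) ≤ (1 / (k : ℝ)) := by
      calc (1 / (k : ℝ)) ^ (2 * t + 1) ≤ (1 / (k : ℝ)) ^ 1 :=
            pow_le_pow_of_le_one hr0.le hr1 (by omega)
        _ = 1 / k := pow_one _
    calc δ ≤ C2 * (1 / (k : ℝ)) ^ (2 * t + 1) := h1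
      _ ≤ C2 * (1 / k) := mul_le_mul_of_nonneg_left h2 (by linarith)
      _ ≤ M * (1 / k) := mul_le_mul_of_nonneg_right h2M hr0.le
  have mA := abs_le.1 s.mA
  refine
    { nu := by linarith [b.nu]
      phile := fun x => by linarith [s.phi x]
      phi0 := b.phi0
      pos := hs.pos
      lowA := ?_
      vB := ?_
      vA := b.vA
      m1 := by linarith [mA.1]
      m2 := by linarith [mA.2]
      q := by linarith [s.qA]
      rca := ?_ }
  · intro x hx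
    have h1 : 1 - κ ≤ u x := hx
    have h2 := (abs_le.1 (b.vA x hx)).1
    linarith
  · intro x hx
    have h1 : 1 - κ ≤ v x := hx
    linarith
  · intro X hX
    obtain ⟨r1, r2⟩ := rca X hX
    have hE0 : 0 ≤ avS X (fun x => u x + v x) := avS_nonneg fun x _ => hs.pos x
    refine ⟨?_, ?_⟩
    · have a := (abs_le.1 r1).2
      have a1 : C4 / k * avS X (fun x => u x + v x) ≤
          M * (1 / k) * (2 * avS X (fun x => u x + v x)) := by
        have := mul_le_mul_of_nonneg_right c4 hE0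
        have h' : 0 ≤ M * (1 / k) * avS X (fun x => u x + v x) := by positivity
        linarith
      have a2 : C4 * δ / k ≤ M ^ 2 * (1 / k) ^ 2 := by
        have e : C4 * δ / k = C4 / k * δ := by ring
        rw [e]
        calc C4 / k * δ ≤ (M * (1 / k)) * (M * (1 / k)) :=
              mul_le_mul c4 hδ hδ0.le (by positivity)
          _ = M ^ 2 * (1 / k) ^ 2 := by ring
      linarith
    · intro z hz hn
      obtain ⟨b1, b2⟩ := r2 z hz hn
      exact ⟨by linarith, b2⟩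

end

end RCT_

open RCT_ in
theorem rct_proof (h1 : Stmt_BAS) (h2 : Stmt_ST2) (h3 : Stmt_CST) (h4 : Stmt_RCA) :
    Stmt_RCT := by
  intro t ρ hρ hρ1
  obtain ⟨C2, hC2, h2⟩ := h2 t ρ hρ hρ1
  obtain ⟨C3, hC3, h3⟩ := h3 t ρ hρ hρ1
  obtain ⟨C4, hC4, h4⟩ := h4 t ρ hρ hρ1
  obtain ⟨M, h2M, h3M, h4M⟩ : ∃ M : ℝ, C2 ≤ M ∧ C3 ≤ M ∧ C4 ≤ M :=
    ⟨max C2 (max C3 C4), le_max_left _ _, le_trans (le_max_left _ _) (le_max_right _ _),
      le_trans (le_max_right _ _) (le_max_right _ _)⟩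
  have hM : 1 ≤ M := le_trans hC2 h2M
  have hM0 : (0 : ℝ) < M := by linarith
  have hM6 : 1 ≤ M ^ 6 := one_le_pow₀ hM
  refine ⟨300 * M ^ 6, by linarith, fun κ hκ hκ1 => ?_⟩
  obtain ⟨k1, h1⟩ := h1 t κ hκ hκ1
  obtain ⟨k2, h2⟩ := h2 κ hκ hκ1
  obtain ⟨k3, h3⟩ := h3 κ hκ hκ1
  obtain ⟨k4, h4⟩ := h4 κ hκ hκ1
  obtain ⟨k5, hk5⟩ := exists_nat_ge (10 * M)
  refine ⟨max (max k1 k2) (max (max k3 k4) (max k5 1)), ?_⟩
  intro k hk V _ G ν γ δ ξ u v hξ hs hR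
  have hk1 : k1 ≤ k := le_trans (le_trans (le_max_left _ _) (le_max_left _ _)) hk
  have hk2 : k2 ≤ k := le_trans (le_trans (le_max_right _ _) (le_max_left _ _)) hk
  have hk34 : max (max k3 k4) (max k5 1) ≤ k := le_trans (le_max_right _ _) hk
  have hk3 : k3 ≤ k := le_trans (le_trans (le_max_left _ _) (le_max_left _ _)) hk34
  have hk4 : k4 ≤ k := le_trans (le_trans (le_max_right _ _) (le_max_left _ _)) hk34
  have hk5' : k5 ≤ k := le_trans (le_trans (le_max_left _ _) (le_max_right _ _)) hk34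
  have hkone : 1 ≤ k := le_trans (le_trans (le_max_right _ _) (le_max_right _ _)) hk34
  have hk0 : (0 : ℝ) < k := by exact_mod_cast hkone
  have hkM : 10 * M ≤ k := le_trans hk5 (by exact_mod_cast hk5')
  have hR' : ∀ x ∈ cR κ v u, ρ ≤ om v u x := by
    intro x hx
    rw [om_comm]
    exact hR x (by rw [cR_comm]; exact hx)
  have b := h1 k hk1 V G ν γ δ ξ u v hξ hs
  have s := h2 k hk2 V G ν γ δ ξ u v hξ hs hR
  obtain ⟨_, c0, cC⟩ := h3 k hk3 V G ν γ δ ξ u v hξ hs hR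
  have rca := h4 k hk4 V G ν γ δ ξ u v hξ hs hR
  have rca' := h4 k hk4 V G ν γ δ ξ v u hξ hs.swap hR'
  have H := mk_half (M := M) hκ hκ1 hM h2M h4M hC2 hC4 hkone hs b s rca
  have H' := mk_half (M := M) hκ hκ1 hM h2M h4M hC2 hC4 hkone hs.swap b.swap s.swap rca'
  have hcomm : (fun x => v x + u x) = (fun x => u x + v x) := by
    funext x
    ring
  have hmain := H'.rca
  simp only [hcomm] at hmain
  set r : ℝ := 1 / k with hr
  have hr0 : 0 < r := by positivity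
  have hkr : (k : ℝ) * r = 1 := by
    rw [hr]
    field_simp
  have hMr : M * r ≤ 1 / 10 := by
    have : M * r * k ≤ 1 / 10 * k := by
      calc M * r * k = M * (k * r) := by ring
        _ = M := by rw [hkr, mul_one]
        _ ≤ 1 / 10 * k := by linarith
    exact le_of_mul_le_mul_right this hk0
  have hr1 : r ≤ 1 := by nlinarith
  have hCk : 300 * M ^ 6 / (k : ℝ) = 300 * M ^ 6 * r := by
    rw [hr]
    ring
  have hδ0 := b.d0
  have hδ : δ ≤ M * r := by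
    have h1 := s.boo.dC
    have h2 : (1 / (k : ℝ)) ^ (2 * t + 1) ≤ (1 / (k : ℝ)) := by
      calc (1 / (k : ℝ)) ^ (2 * t + 1) ≤ (1 / (k : ℝ)) ^ 1 :=
            pow_le_pow_of_le_one hr0.le hr1 (by omega)
        _ = 1 / k := pow_one _
    calc δ ≤ C2 * (1 / (k : ℝ)) ^ (2 * t + 1) := h1
      _ ≤ C2 * (1 / k) := mul_le_mul_of_nonneg_left h2 (by linarith)
      _ ≤ M * (1 / k) := mul_le_mul_of_nonneg_right h2M hr0.le
  set φ : V → ℝ := fun x => u x + v x with hφ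
  -- bounds on averages
  have hE0 : ∀ X : Set V, 0 ≤ avS X φ := fun X => avS_nonneg fun x _ => hs.pos x
  have hE3 : ∀ X : Set V, 2 * avS X φ ≤ 3 := by
    intro X
    have h' : avS X φ ≤ 11 / 10 * ms X := avS_le_mul_ms fun x _ => H.phi0 x
    have := ms_le_one X
    linarith
  have hVA := Vr_nonneg (cA κ u) φ
  have hVB := Vr_nonneg (cA κ v) φ
  have hcost : cost k G (cA κ u) (cA κ v) φ =
      4 * k * Mphi G (cA κ u) (cA κ v) φ + 2 * k * (Vr (cA κ u) φ + Vr (cA κ v) φ) := by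
    unfold cost
    ring
  have hcM : cost k G (cA κ u) (cA κ v) φ ≤ M := le_trans cC h3M
  have hMph : 4 * k * Mphi G (cA κ u) (cA κ v) φ ≤ cost k G (cA κ u) (cA κ v) φ := by
    rw [hcost]
    have : 0 ≤ 2 * (k : ℝ) * (Vr (cA κ u) φ + Vr (cA κ v) φ) := by positivity
    linarith
  have hvX : ∀ X : Set V, X ⊆ cA κ v → 0 ≤ avS X v / ν := fun X hX =>
    div_nonneg (avS_nonneg fun x hx => H.vB x (hX hx)) H.nu.le
  have huY : ∀ Y : Set V, Y ⊆ cA κ u → 0 ≤ avS Y u / ν := fun Y hY =>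
    div_nonneg (avS_nonneg fun x hx => H'.vB x (hY hx)) H.nu.le
  refine ⟨?_, ?_, ?_⟩
  · intro X Y hX hY hn
    have rX := H.rca X hX
    have rY := hmain Y hY
    have hMp := Mphi_ge (G := G) (φ := φ) hs.pos hX hY hn
    set p := 2 * avS X φ with hp
    set q := 2 * avS Y φ with hq
    have hp0 : 0 ≤ p := by linarith [hE0 X]
    have hq0 : 0 ≤ q := by linarith [hE0 Y]
    have hp3 : p ≤ 3 := hE3 X
    have hq3 : q ≤ 3 := hE3 Y
    have hkpq : k * (p * q) ≤ cost k G (cA κ u) (cA κ v) φ := by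
      calc (k : ℝ) * (p * q) = 4 * k * (avS X φ * avS Y φ) := by rw [hp, hq]; ring
        _ ≤ 4 * k * Mphi G (cA κ u) (cA κ v) φ := mul_le_mul_of_nonneg_left hMp (by positivity)
        _ ≤ _ := hMph
    have hpq : p * q ≤ M * r := by
      have : (p * q) * k ≤ M * r * k := by
        calc (p * q) * k = k * (p * q) := by ring
          _ ≤ M := le_trans hkpq hcM
          _ = M * r * k := by rw [mul_assoc, mul_comm r, hkr, mul_one]
      exact le_of_mul_le_mul_right this hk0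
    have vA := Vr_lower (A := cA κ u) (Y := Y) (φ := φ) (p := p) hM hr0.le hMr hY
      (fun z hz => H.lowA z (hY hz)) (fun z _ => H.phile z) H.m1 H.m2 H.q hp0 hp3
      (fun z hz => (rX.2 z (hY hz) fun b hb hadj => hn b hb z hz hadj.symm).1) hpq
    have vB := Vr_lower (A := cA κ v) (Y := X) (φ := φ) (p := q) hM hr0.le hMr hX
      (fun z hz => by
        have := H'.lowA z (hX hz)
        show 1 / 2 ≤ u z + v z
        linarith) (fun z _ => H.phile z) H'.m1 H'.m2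
      (by have := H'.q; simp only [hcomm] at this; exact this) hq0 hq3
      (fun z hz => by
        have := (rY.2 z (hX hz) fun a ha hadj => hn z hz a ha hadj).1
        show u z + v z ≤ _
        linarith) (by rw [← hp]; linarith [mul_comm p q])
    rw [← hp] at vB
    rw [← hq] at vA
    have hP0 := hvX X hX
    have hQ0 := huY Y hY
    have key := (prod_bound hM hr0.le hr1 hp0 hq0 hp3 hq3 hpq hP0 hQ0 rX.1 rY.1).2
    refine ⟨?_, ?_, ?_⟩
    · rw [hCk]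
      have l1 : k * (p * q * (1 + (p + q) / 2)) ≤ cost k G (cA κ u) (cA κ v) φ + 36 * M ^ 2 * r := by
        rw [hcost]
        have a1 : (k : ℝ) * (p * q) ≤ 4 * k * Mphi G (cA κ u) (cA κ v) φ := by
          calc (k : ℝ) * (p * q) = 4 * k * (avS X φ * avS Y φ) := by rw [hp, hq]; ring
            _ ≤ 4 * k * Mphi G (cA κ u) (cA κ v) φ :=
              mul_le_mul_of_nonneg_left hMp (by positivity)
        have a2 : 2 * (k : ℝ) * ((p ^ 2 * q / 4 - 9 * M ^ 2 * r ^ 2) +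
            (q ^ 2 * p / 4 - 9 * M ^ 2 * r ^ 2)) ≤
            2 * k * (Vr (cA κ u) φ + Vr (cA κ v) φ) :=
          mul_le_mul_of_nonneg_left (add_le_add vA vB) (by positivity)
        have a3 : 2 * (k : ℝ) * ((p ^ 2 * q / 4 - 9 * M ^ 2 * r ^ 2) +
            (q ^ 2 * p / 4 - 9 * M ^ 2 * r ^ 2)) =
            k * (p * q * ((p + q) / 2)) - 36 * M ^ 2 * r * (k * r) := by ring
        rw [a3, hkr] at a2
        have a4 : (k : ℝ) * (p * q * (1 + (p + q) / 2)) =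
            k * (p * q) + k * (p * q * ((p + q) / 2)) := by ring
        linarith
      have l2 : k * (avS X v / ν * (avS Y u / ν) * (1 + (avS X v / ν + avS Y u / ν) / 2)) ≤
          k * (p * q * (1 + (p + q) / 2)) + 200 * M ^ 6 * r := by
        calc k * (avS X v / ν * (avS Y u / ν) * (1 + (avS X v / ν + avS Y u / ν) / 2)) ≤
            k * (p * q * (1 + (p + q) / 2) + 200 * M ^ 6 * r ^ 2) :=
              mul_le_mul_of_nonneg_left key hk0.le
          _ = k * (p * q * (1 + (p + q) / 2)) + 200 * M ^ 6 * r * (k * r) := by ring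
          _ = _ := by rw [hkr, mul_one]
      have l3 : 36 * M ^ 2 * r ≤ 36 * M ^ 6 * r := by
        have : M ^ 2 ≤ M ^ 6 := pow_le_pow_right₀ hM (by norm_num)
        have := mul_le_mul_of_nonneg_right this hr0.le
        linarith
      have l4 : 0 ≤ M ^ 6 * r := by positivity
      calc k * (avS X v / ν) * (avS Y u / ν) * (1 + (avS X v / ν + avS Y u / ν) / 2) =
          k * (avS X v / ν * (avS Y u / ν) * (1 + (avS X v / ν + avS Y u / ν) / 2)) := by ring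
        _ ≤ cost k G (cA κ u) (cA κ v) φ + 300 * M ^ 6 * r := by linarith
    · rintro ⟨z, hz⟩
      exact (rX.2 z (hY hz) fun b hb hadj => hn b hb z hz hadj.symm).2
    · rintro ⟨z, hz⟩
      exact (rY.2 z (hX hz) fun a ha hadj => hn z hz a ha hadj).2
  · intro X₁ X₂ Y₁ Y₂ hX₁ hX₂ hY₁ hY₂ hd hn₁ hn₂
    have hMp := Mphi_ge2 (G := G) (φ := φ) hs.pos hX₁ hX₂ hY₁ hY₂ hd hn₁ hn₂
    have hsum : k * (2 * avS X₁ φ * (2 * avS Y₁ φ) + 2 * avS X₂ φ * (2 * avS Y₂ φ)) ≤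
        cost k G (cA κ u) (cA κ v) φ := by
      calc (k : ℝ) * (2 * avS X₁ φ * (2 * avS Y₁ φ) + 2 * avS X₂ φ * (2 * avS Y₂ φ)) =
          4 * k * (avS X₁ φ * avS Y₁ φ + avS X₂ φ * avS Y₂ φ) := by ring
        _ ≤ 4 * k * Mphi G (cA κ u) (cA κ v) φ := mul_le_mul_of_nonneg_left hMp (by positivity)
        _ ≤ _ := hMph
    have n1 : 0 ≤ 2 * avS X₁ φ * (2 * avS Y₁ φ) := by
      have := hE0 X₁
      have := hE0 Y₁
      positivity
    have n2 : 0 ≤ 2 * avS X₂ φ * (2 * avS Y₂ φ) := by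
      have := hE0 X₂
      have := hE0 Y₂
      positivity
    have hb : ∀ z : ℝ, 0 ≤ z → k * z ≤ M → z ≤ M * r := by
      intro z _ hz
      have : z * k ≤ M * r * k := by
        calc z * k = k * z := by ring
          _ ≤ M := hz
          _ = M * r * k := by rw [mul_assoc, mul_comm r, hkr, mul_one]
      exact le_of_mul_le_mul_right this hk0
    have hs' : k * (2 * avS X₁ φ * (2 * avS Y₁ φ)) + k * (2 * avS X₂ φ * (2 * avS Y₂ φ)) ≤ M := by
      rw [← mul_add]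
      exact le_trans hsum hcM
    have hpq1 := hb _ n1 (by
      have : 0 ≤ (k : ℝ) * (2 * avS X₂ φ * (2 * avS Y₂ φ)) := mul_nonneg hk0.le n2
      linarith)
    have hpq2 := hb _ n2 (by
      have : 0 ≤ (k : ℝ) * (2 * avS X₁ φ * (2 * avS Y₁ φ)) := mul_nonneg hk0.le n1
      linarith)
    have g : ∀ X Y : Set V, X ⊆ cA κ v → Y ⊆ cA κ u → 2 * avS X φ * (2 * avS Y φ) ≤ M * r →
        avS X v / ν * (avS Y u / ν) ≤ 2 * avS X φ * (2 * avS Y φ) + 24 * M ^ 4 * r ^ 2 := by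
      intro X Y hX hY hpq
      exact (prod_bound hM hr0.le hr1 (by linarith [hE0 X]) (by linarith [hE0 Y]) (hE3 X) (hE3 Y)
        hpq (hvX X hX) (huY Y hY) (H.rca X hX).1 (hmain Y hY).1).1
    have g1 := g X₁ Y₁ hX₁ hY₁ hpq1
    have g2 := g X₂ Y₂ hX₂ hY₂ hpq2
    rw [hCk]
    have l4 : M ^ 4 * r ≤ M ^ 6 * r :=
      mul_le_mul_of_nonneg_right (pow_le_pow_right₀ hM (by norm_num)) hr0.le
    have l5 : 0 ≤ M ^ 6 * r := by positivity
    calc k * (avS X₁ v / ν * (avS Y₁ u / ν) + avS X₂ v / ν * (avS Y₂ u / ν)) ≤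
        k * ((2 * avS X₁ φ * (2 * avS Y₁ φ) + 24 * M ^ 4 * r ^ 2) +
          (2 * avS X₂ φ * (2 * avS Y₂ φ) + 24 * M ^ 4 * r ^ 2)) :=
          mul_le_mul_of_nonneg_left (add_le_add g1 g2) hk0.le
      _ = k * (2 * avS X₁ φ * (2 * avS Y₁ φ) + 2 * avS X₂ φ * (2 * avS Y₂ φ)) +
          48 * M ^ 4 * r * (k * r) := by ring
      _ ≤ cost k G (cA κ u) (cA κ v) φ + 300 * M ^ 6 * r := by
          rw [hkr, mul_one]
          linarith
  · intro z hz X hX hn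
    rw [hCk]
    obtain ⟨r1, r2⟩ := H.rca X hX
    obtain ⟨r3, _⟩ := r2 z hz hn
    have heps : (1 / (k : ℝ)) ^ (10 * t + 20) ≤ r := by
      calc (1 / (k : ℝ)) ^ (10 * t + 20) ≤ (1 / (k : ℝ)) ^ 1 :=
            pow_le_pow_of_le_one hr0.le hr1 (by omega)
        _ = r := pow_one _
    exact part3 hM hr0 hr1 hκ1 hδ0 b.dk hδ (hE3 X) r1 r3 (H.vA z hz) (hs.pos z)
      (H.phi0 z) hz (le_trans (hs.kkt z) heps) hκ

end Pool.Agent.OCX
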