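import Pool.Agent.OCX.Stmts
import Pool.Agent.OCX.Lib

/-!
# REA: few edges lie on short odd cycles (MP_e73810_co)
-/

open scoped BigOperators

namespace Pool.Agent.OCX

namespace REA_

/-- a set of functions whose value at `i` is determined by the other values is small -/
theorem card_det {n k : ℕ} (i : Fin k) (S : Set (Fin k → Fin n))
    (h : ∀ y ∈ S, ∀ y' ∈ S, (∀ j, j ≠ i → y j = y' j) → y i = y' i) :
    S.ncard ≤ n ^ (k - 1) := by
  classical
  have h1 : S.ncard ≤ (Set.univ : Set ({j : Fin k // j ≠ i} → Fin n)).ncard := by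
    refine Set.ncard_le_ncard_of_injOn (fun y j => y j.1) (fun y _ => Set.mem_univ _) ?_
      (Set.toFinite _)
    intro y hy y' hy' hyy
    funext j
    by_cases hj : j = i
    · subst hj
      exact h y hy y' hy' fun j' hj' => congrFun hyy ⟨j', hj'⟩
    · exact congrFun hyy ⟨j, hj⟩
  have h2 : (Set.univ : Set ({j : Fin k // j ≠ i} → Fin n)).ncard = n ^ (k - 1) := by
    rw [Set.ncard_univ, Nat.card_eq_fintype_card, Fintype.card_fun, Fintype.card_fin]
    congr 1
    rw [Fintype.card_subtype_compl, Fintype.card_fin, Fintype.card_subtype_eq]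
  rw [h2] at h1
  exact h1

/-- membership in `cws` through consecutive vertices -/
theorem mem_cws {W : Type} {G : SimpleGraph W} {n : ℕ} {y : Fin (n + 2) → W}
    (h : ∀ i, G.Adj (y i) (y (i + 1))) : y ∈ cws G (n + 2) := by
  intro i j hij
  rw [SimpleGraph.cycleGraph_adj] at hij
  rcases hij with hij | hij
  · have : i = j + 1 := by rw [← hij]; abel
    rw [this]
    exact (h j).symm
  · have : j = i + 1 := by rw [← hij]; abel
    rw [this]
    exact h i

theorem cws_succ {W : Type} {G : SimpleGraph W} {n : ℕ} {y : Fin (n + 2) → W}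
    (h : y ∈ cws G (n + 2)) (i : Fin (n + 2)) : G.Adj (y i) (y (i + 1)) := by
  refine h i (i + 1) ?_
  rw [SimpleGraph.cycleGraph_adj]
  right
  exact add_sub_cancel_left i 1

/-- consecutive vertices of a path -/
theorem fin_succ_eq {n : ℕ} {a b : Fin (n + 2)} (h : (a : ℕ) + 1 = b) : b = a + 1 := by
  have hlt : a < Fin.last (n + 1) := by
    rw [Fin.lt_def, Fin.val_last]
    have := b.isLt
    omega
  apply Fin.ext
  rw [Fin.val_add_one_of_lt hlt, h]

/-- the edges of an `m`-cycle are joined by paths of `m` vertices -/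
theorem path_of_cycle {W : Type} {G : SimpleGraph W} {n : ℕ} {y : Fin (n + 2) → W}
    (hy : y ∈ cws G (n + 2)) (hi : Function.Injective y) {i j : Fin (n + 2)}
    (hij : (SimpleGraph.cycleGraph (n + 2)).Adj i j) :
    ∃ P : Fin (n + 2) → W, Function.Injective P ∧ P 0 = y i ∧ P (Fin.last (n + 1)) = y j ∧
      ∀ a b : Fin (n + 2), (a : ℕ) + 1 = b → G.Adj (P a) (P b) := by
  rw [SimpleGraph.cycleGraph_adj] at hij
  have hl : (Fin.last (n + 1)) + 1 = 0 := Fin.last_add_one (n + 1)
  rcases hij with hij | hij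
  · refine ⟨fun s => y (i + s), fun s s' h => ?_, ?_, ?_, fun a b hab => ?_⟩
    · exact add_left_cancel (hi h)
    · simp
    · have : i + Fin.last (n + 1) = j := by
        have e : i = j + 1 := by rw [← hij]; abel
        rw [e, add_assoc, add_comm 1, hl, add_zero]
      simp only [this]
    · have e := fin_succ_eq hab
      subst e
      have := cws_succ hy (i + a)
      rw [add_assoc] at this
      exact this
  · refine ⟨fun s => y (i - s), fun s s' h => ?_, ?_, ?_, fun a b hab => ?_⟩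
    · exact sub_right_injective (hi h)
    · simp
    · have : i - Fin.last (n + 1) = j := by
        have e : j = i + 1 := by rw [← hij]; abel
        have e2 : Fin.last (n + 1) = -1 := eq_neg_of_add_eq_zero_left hl
        rw [e, e2]
        abel
      simp only [this]
    · have e := fin_succ_eq hab
      subst e
      have := cws_succ hy (i - (a + 1))
      have e2 : i - (a + 1) + 1 = i - a := by abel
      rw [e2] at this
      exact this.symm

/-- replace the edge `y 0, y 1` by a path -/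
theorem glue {W : Type} {G : SimpleGraph W} {m k : ℕ} (hk : 1 ≤ k)
    {P : Fin (m + 2) → W} (hP : Function.Injective P)
    (hPa : ∀ a b : Fin (m + 2), (a : ℕ) + 1 = b → G.Adj (P a) (P b))
    {y : Fin (k + 2) → W} (hy : y ∈ cws G (k + 2)) (hyi : Function.Injective y)
    (h0 : P 0 = y 0) (h1 : P (Fin.last (m + 1)) = y 1)
    (hav : ∀ (i : Fin (k + 2)), 2 ≤ (i : ℕ) → ∀ s, y i ≠ P s) :
    ∃ z ∈ cws G (m + k + 2), Function.Injective z := by
  classical
  refine ⟨fun s => if h : (s : ℕ) < m + 2 then P ⟨s, h⟩ else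
    y ⟨(s : ℕ) - m, by have := s.isLt; omega⟩, ?_, ?_⟩
  · refine mem_cws fun s => ?_
    have hs := s.isLt
    by_cases hlast : s = Fin.last (m + k + 1)
    · have e1 : s + 1 = 0 := by rw [hlast]; exact Fin.last_add_one _
      have e2 : (s : ℕ) = m + k + 1 := by rw [hlast, Fin.val_last]
      rw [e1]
      have h2 : ¬ ((s : ℕ) < m + 2) := by omega
      have h3 : (((0 : Fin (m + k + 2)) : ℕ) < m + 2) := by simp
      rw [dif_neg h2, dif_pos h3]
      have e3 : (⟨((0 : Fin (m + k + 2)) : ℕ), h3⟩ : Fin (m + 2)) = 0 := by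
        apply Fin.ext; simp
      rw [e3, h0]
      have h4 := cws_succ hy (Fin.last (k + 1))
      rw [Fin.last_add_one] at h4
      have e4 : (⟨(s : ℕ) - m, by omega⟩ : Fin (k + 2)) = Fin.last (k + 1) := by
        apply Fin.ext
        rw [Fin.val_last]
        simp only
        omega
      rw [e4]
      exact h4
    · have hlt : s < Fin.last (m + k + 1) := lt_of_le_of_ne (Fin.le_last s) hlast
      have ev : ((s + 1 : Fin (m + k + 2)) : ℕ) = (s : ℕ) + 1 := Fin.val_add_one_of_lt hlt
      have hlt' : (s : ℕ) < m + k + 1 := by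
        have := Fin.lt_def.1 hlt
        rwa [Fin.val_last] at this
      by_cases c1 : (s : ℕ) + 1 < m + 2
      · have c0 : (s : ℕ) < m + 2 := by omega
        have c2 : ((s + 1 : Fin (m + k + 2)) : ℕ) < m + 2 := by omega
        rw [dif_pos c0, dif_pos c2]
        refine hPa _ _ ?_
        simp only
        omega
      · by_cases c2 : (s : ℕ) + 1 = m + 2
        · have c0 : (s : ℕ) < m + 2 := by omega
          have c3 : ¬ (((s + 1 : Fin (m + k + 2)) : ℕ) < m + 2) := by omega
          rw [dif_pos c0, dif_neg c3]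
          have e3 : (⟨(s : ℕ), c0⟩ : Fin (m + 2)) = Fin.last (m + 1) := by
            apply Fin.ext
            rw [Fin.val_last]
            simp only
            omega
          rw [e3, h1]
          have h4 := cws_succ hy 1
          have e4 : (⟨((s + 1 : Fin (m + k + 2)) : ℕ) - m, by omega⟩ : Fin (k + 2)) = 1 + 1 := by
            refine fin_succ_eq ?_
            simp only [Fin.val_one]
            omega
          rw [e4]
          exact h4
        · have c0 : ¬ ((s : ℕ) < m + 2) := by omega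
          have c3 : ¬ (((s + 1 : Fin (m + k + 2)) : ℕ) < m + 2) := by omega
          rw [dif_neg c0, dif_neg c3]
          have h4 := cws_succ hy ⟨(s : ℕ) - m, by omega⟩
          have e4 : (⟨((s + 1 : Fin (m + k + 2)) : ℕ) - m, by omega⟩ : Fin (k + 2)) =
              ⟨(s : ℕ) - m, by omega⟩ + 1 := by
            refine fin_succ_eq ?_
            simp only
            omega
          rw [e4]
          exact h4
  · intro s s' hss
    have hs := s.isLt
    have hs' := s'.isLt
    simp only at hss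
    by_cases c : (s : ℕ) < m + 2
    · by_cases c' : (s' : ℕ) < m + 2
      · rw [dif_pos c, dif_pos c'] at hss
        have := hP hss
        rw [Fin.mk.injEq] at this
        exact Fin.ext this
      · rw [dif_pos c, dif_neg c'] at hss
        exact absurd hss.symm (hav _ (by simp only; omega) _)
    · by_cases c' : (s' : ℕ) < m + 2
      · rw [dif_neg c, dif_pos c'] at hss
        exact absurd hss (hav _ (by simp only; omega) _)
      · rw [dif_neg c, dif_neg c'] at hss
        have := hyi hss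
        rw [Fin.mk.injEq] at this
        apply Fin.ext
        omega

/-- the number of bad functions -/
theorem card_bad {n m k : ℕ} (P : Fin n → Fin n → Fin (m + 2) → Fin n) :
    {y : Fin (k + 2) → Fin n | (∃ i j, i ≠ j ∧ y i = y j) ∨
      ∃ (i : Fin (k + 2)) (s : Fin (m + 2)), 2 ≤ (i : ℕ) ∧ y i = P (y 0) (y 1) s}.ncard ≤
    ((k + 2) * (k + 2) + (k + 2) * (m + 2)) * n ^ (k + 1) := by
  classical
  have h1 : (⋃ p ∈ (Finset.univ : Finset (Fin (k + 2) × Fin (k + 2))),
      {y : Fin (k + 2) → Fin n | p.1 ≠ p.2 ∧ y p.1 = y p.2}).ncard ≤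
      (k + 2) * (k + 2) * n ^ (k + 1) := by
    refine (Finset.set_ncard_biUnion_le _ _).trans ?_
    refine (Finset.sum_le_card_nsmul _ _ (n ^ (k + 1)) fun p _ => ?_).trans ?_
    · refine card_det p.1 _ fun y hy y' hy' h => ?_
      rw [hy.2, hy'.2]
      exact h _ (Ne.symm hy.1)
    · simp
  have h2 : (⋃ p ∈ (Finset.univ : Finset (Fin (k + 2) × Fin (m + 2))),
      {y : Fin (k + 2) → Fin n | 2 ≤ (p.1 : ℕ) ∧ y p.1 = P (y 0) (y 1) p.2}).ncard ≤
      (k + 2) * (m + 2) * n ^ (k + 1) := by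
    refine (Finset.set_ncard_biUnion_le _ _).trans ?_
    refine (Finset.sum_le_card_nsmul _ _ (n ^ (k + 1)) fun p _ => ?_).trans ?_
    · refine card_det p.1 _ fun y hy y' hy' h => ?_
      have e0 : y 0 = y' 0 := by
        refine h 0 fun h0 => ?_
        have := hy.1
        rw [← h0] at this
        simp at this
      have e1 : y 1 = y' 1 := by
        refine h 1 fun h0 => ?_
        have := hy.1
        rw [← h0] at this
        simp at this
      rw [hy.2, hy'.2, e0, e1]
    · simp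
  refine (Set.ncard_le_ncard (t := (⋃ p ∈ (Finset.univ : Finset (Fin (k + 2) × Fin (k + 2))),
      {y : Fin (k + 2) → Fin n | p.1 ≠ p.2 ∧ y p.1 = y p.2}) ∪
      (⋃ p ∈ (Finset.univ : Finset (Fin (k + 2) × Fin (m + 2))),
      {y : Fin (k + 2) → Fin n | 2 ≤ (p.1 : ℕ) ∧ y p.1 = P (y 0) (y 1) p.2})) ?_
      (Set.toFinite _)).trans ((Set.ncard_union_le _ _).trans ?_)
  · rintro y (⟨i, j, hij, h⟩ | ⟨i, s, hi, h⟩)
    · left
      simp only [Set.mem_iUnion]
      exact ⟨(i, j), Finset.mem_univ _, hij, h⟩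
    · right
      simp only [Set.mem_iUnion]
      exact ⟨(i, s), Finset.mem_univ _, hi, h⟩
  · calc _ ≤ (k + 2) * (k + 2) * n ^ (k + 1) + (k + 2) * (m + 2) * n ^ (k + 1) :=
          add_le_add h1 h2
      _ = _ := by ring

end REA_

open REA_ in
theorem rea_proof (h1 : Stmt_EVC) : Stmt_REA := by
  intro t m ε hmo hm3 hmt hε
  obtain ⟨c, hc⟩ := hmo
  obtain ⟨M, rfl⟩ : ∃ M, m = M + 2 := ⟨m - 2, by omega⟩
  obtain ⟨r, K, hr2, hrK, hL⟩ : ∃ r K, 2 ≤ r ∧ 2 * r = K + 2 ∧ M + K + 2 = 2 * t + 3 :=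
    ⟨t + 2 - c, 2 * (t + 2 - c) - 2, by omega, by omega, by omega⟩
  obtain ⟨n0, hn0⟩ := exists_nat_gt
    ((((K + 2) * (K + 2) + (K + 2) * (M + 2) : ℕ) : ℝ) / ε ^ (K + 2))
  refine ⟨n0 + 1, fun n hn G hF => ?_⟩
  by_contra hcon
  rw [not_le] at hcon
  classical
  let G0 : SimpleGraph (Fin n) :=
    { Adj := fun a b => ∃ y ∈ cws G (M + 2), Function.Injective y ∧ ∃ i j : Fin (M + 2),
        (SimpleGraph.cycleGraph (M + 2)).Adj i j ∧ y i = a ∧ y j = b
      symm := ⟨fun a b ⟨y, hy, hi, i, j, hij, ha, hb⟩ => ⟨y, hy, hi, j, i, hij.symm, hb, ha⟩⟩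
      loopless := ⟨fun a ⟨y, hy, hi, i, j, hij, ha, hb⟩ => hij.ne (hi (ha.trans hb.symm))⟩ }
  have hle : G0 ≤ G := by
    rintro a b ⟨y, hy, hi, i, j, hij, ha, hb⟩
    rw [← ha, ← hb]
    exact hy i j hij
  have hpath : ∀ a b, ∃ P : Fin (M + 2) → Fin n, G0.Adj a b → Function.Injective P ∧
      P 0 = a ∧ P (Fin.last (M + 1)) = b ∧
      ∀ c d : Fin (M + 2), (c : ℕ) + 1 = d → G.Adj (P c) (P d) := by
    intro a b
    by_cases hab : G0.Adj a b
    · obtain ⟨y, hy, hi, i, j, hij, ha, hb⟩ := hab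
      obtain ⟨P, hP1, hP2, hP3, hP4⟩ := path_of_cycle hy hi hij
      exact ⟨P, fun _ => ⟨hP1, hP2.trans ha, hP3.trans hb, hP4⟩⟩
    · exact ⟨fun _ => a, fun h => absurd h hab⟩
  choose P hP using hpath
  have hex : ∃ y ∈ cws G0 (K + 2), ¬ ((∃ i j, i ≠ j ∧ y i = y j) ∨
      ∃ (i : Fin (K + 2)) (s : Fin (M + 2)), 2 ≤ (i : ℕ) ∧ y i = P (y 0) (y 1) s) := by
    by_contra hno
    push Not at hno
    have hcard : cwn G0 (K + 2) ≤ ((K + 2) * (K + 2) + (K + 2) * (M + 2)) * n ^ (K + 1) := by
      refine (Set.ncard_le_ncard ?_ (Set.toFinite _)).trans (card_bad P)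
      intro y hy
      by_contra hy'
      exact hy' (hno y hy)
    have h2 := h1 n r G0 hr2
    rw [hrK] at h2
    have hn' : (0 : ℝ) < n := by
      have : 0 < n := by omega
      exact_mod_cast this
    have h3 : ε * n < (({p : Fin n × Fin n | G0.Adj p.1 p.2}.ncard : ℕ) : ℝ) / n := by
      rw [lt_div_iff₀ hn']
      calc ε * n * n = ε * n ^ 2 := by ring
        _ < _ := hcon
    have h4 : (ε * n) ^ (K + 2) < ((({p : Fin n × Fin n | G0.Adj p.1 p.2}.ncard : ℕ) : ℝ) / n) ^
        (K + 2) := pow_lt_pow_left₀ h3 (by positivity) (by omega)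
    have h5 : (cwn G0 (K + 2) : ℝ) ≤
        (((K + 2) * (K + 2) + (K + 2) * (M + 2) : ℕ) : ℝ) * n ^ (K + 1) := by
      exact_mod_cast hcard
    have h6 : (ε * n) ^ (K + 2) < (((K + 2) * (K + 2) + (K + 2) * (M + 2) : ℕ) : ℝ) *
        n ^ (K + 1) := lt_of_lt_of_le h4 (h2.trans h5)
    have h7 : (ε * n) ^ (K + 2) = (ε ^ (K + 2) * n) * (n : ℝ) ^ (K + 1) := by
      rw [mul_pow, pow_succ (n : ℝ) (K + 1)]
      ring
    rw [h7] at h6
    have h8 := lt_of_mul_lt_mul_right h6 (by positivity)
    have h9 : (((K + 2) * (K + 2) + (K + 2) * (M + 2) : ℕ) : ℝ) < ε ^ (K + 2) * n := by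
      rw [div_lt_iff₀ (by positivity)] at hn0
      have : (n0 : ℝ) ≤ n := by exact_mod_cast (by omega : n0 ≤ n)
      have h10 : 0 < ε ^ (K + 2) := by positivity
      nlinarith
    exact lt_irrefl _ (h9.trans h8)
  obtain ⟨y, hy, hgood⟩ := hex
  rw [not_or] at hgood
  obtain ⟨hg1, hg2⟩ := hgood
  have hyi : Function.Injective y := by
    intro i j hij
    by_contra hne
    exact hg1 ⟨i, j, hne, hij⟩
  have hyG : y ∈ cws G (K + 2) := fun i j hij => hle (hy i j hij)
  have h01 : G0.Adj (y 0) (y 1) := by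
    have := cws_succ hy 0
    rwa [zero_add] at this
  obtain ⟨hP1, hP2, hP3, hP4⟩ := hP (y 0) (y 1) h01
  obtain ⟨z, hz, hzi⟩ := glue (by omega) hP1 hP4 hyG hyi hP2 hP3
    (fun i hi s his => hg2 ⟨i, s, hi, his⟩)
  have hF' : Fr (M + K + 2) G := by
    rw [hL]
    exact hF
  exact hF' z hz hzi

end Pool.Agent.OCX
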