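import Pool.Agent.OCX.Stmts
import Pool.Agent.OCX.Lib

/-!
# OCX, module REM: removal lemma
-/

namespace Pool.Agent.OCX

open SimpleGraph

namespace REM_

/-- the pairs on cycles of length `m` -/
def EE {n : ℕ} (G : SimpleGraph (Fin n)) (m : ℕ) : Set (Fin n × Fin n) :=
  {p | ∃ y ∈ cws G m, Function.Injective y ∧ ∃ i j : Fin m,
    (SimpleGraph.cycleGraph m).Adj i j ∧ y i = p.1 ∧ y j = p.2}

theorem EE_symm {n : ℕ} {G : SimpleGraph (Fin n)} {m : ℕ} {a b : Fin n} (h : (a, b) ∈ EE G m) :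
    (b, a) ∈ EE G m := by
  obtain ⟨y, hy, hi, i, j, hij, h1, h2⟩ := h
  exact ⟨y, hy, hi, j, i, hij.symm, h2, h1⟩

/-- the graph without the edges on short odd cycles -/
def HH {n : ℕ} (t : ℕ) (G : SimpleGraph (Fin n)) : SimpleGraph (Fin n) where
  Adj a b := G.Adj a b ∧ ∀ m, Odd m → 3 ≤ m → m ≤ 2 * t + 1 → (a, b) ∉ EE G m
  symm := ⟨fun a b h => ⟨h.1.symm, fun m h1 h2 h3 h4 => h.2 m h1 h2 h3 (EE_symm h4)⟩⟩
  loopless := ⟨fun a h => G.loopless.irrefl a h.1⟩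

end REM_

open REM_ in
theorem rem_proof (h1 : Stmt_OCW) (_h2 : Stmt_ODD) (h3 : Stmt_REA) : Stmt_REM := by
  classical
  intro t ε hε
  set ε' : ℝ := ε / (2 * t + 2) with hε'
  have hε'0 : 0 < ε' := by positivity
  have hm : ∀ m : ℕ, ∃ N : ℕ, ∀ n : ℕ, N ≤ n → ∀ G : SimpleGraph (Fin n), Fr (2 * t + 3) G →
      Odd m → 3 ≤ m → m ≤ 2 * t + 1 → (((EE G m).ncard : ℕ) : ℝ) ≤ ε' * n ^ 2 := by
    intro m
    by_cases hc : Odd m ∧ 3 ≤ m ∧ m ≤ 2 * t + 1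
    · obtain ⟨N, hN⟩ := h3 t m ε' hc.1 hc.2.1 hc.2.2 hε'0
      exact ⟨N, fun n hn G hG _ _ _ => hN n hn G hG⟩
    · exact ⟨0, fun n _ G _ a b c => absurd ⟨a, b, c⟩ hc⟩
  choose N hN using hm
  refine ⟨∑ m ∈ Finset.range (2 * t + 2), N m, fun n hn G hG => ⟨HH t G, ?_, ?_, ?_⟩⟩
  · intro a b h
    exact h.1
  · intro x p hp
    obtain ⟨m, y, hmo, hm3, hml, hy, hyi⟩ := h1 (Fin n) (HH t G) x p hp
    have hyG : y ∈ cws G m := fun i j hij => (hy i j hij).1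
    have hm1 : ¬ m ≤ 2 * t + 1 := by
      intro hle
      obtain ⟨m', rfl⟩ : ∃ m', m = m' + 2 := ⟨m - 2, by omega⟩
      have hadj : (cycleGraph (m' + 2)).Adj 0 1 := by
        rw [cycleGraph_adj]
        right
        simp
      exact (hy 0 1 hadj).2 (m' + 2) hmo hm3 hle ⟨y, hyG, hyi, 0, 1, hadj, rfl, rfl⟩
    have hm2 : m ≠ 2 * t + 3 := by
      rintro rfl
      exact hG y hyG hyi
    obtain ⟨e, he⟩ := hmo
    omega
  · have hsub : {p : Fin n × Fin n | G.Adj p.1 p.2 ∧ ¬ (HH t G).Adj p.1 p.2} ⊆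
        ⋃ m ∈ (Finset.range (2 * t + 2)).filter (fun m => Odd m ∧ 3 ≤ m), EE G m := by
      rintro ⟨a, b⟩ ⟨hab, hnot⟩
      have h4 : ∃ m, Odd m ∧ 3 ≤ m ∧ m ≤ 2 * t + 1 ∧ (a, b) ∈ EE G m := by
        by_contra hcon
        push Not at hcon
        exact hnot ⟨hab, hcon⟩
      obtain ⟨m, h5, h6, h7, h8⟩ := h4
      rw [Set.mem_iUnion₂]
      exact ⟨m, Finset.mem_filter.2 ⟨Finset.mem_range.2 (by omega), h5, h6⟩, h8⟩
    have h4 : ({p : Fin n × Fin n | G.Adj p.1 p.2 ∧ ¬ (HH t G).Adj p.1 p.2}.ncard) ≤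
        ∑ m ∈ (Finset.range (2 * t + 2)).filter (fun m => Odd m ∧ 3 ≤ m), (EE G m).ncard :=
      (Set.ncard_le_ncard hsub (Set.toFinite _)).trans (Finset.set_ncard_biUnion_le _ _)
    have h5 : (({p : Fin n × Fin n | G.Adj p.1 p.2 ∧ ¬ (HH t G).Adj p.1 p.2}.ncard : ℕ) : ℝ) ≤
        ∑ m ∈ (Finset.range (2 * t + 2)).filter (fun m => Odd m ∧ 3 ≤ m), (((EE G m).ncard : ℕ) : ℝ) := by
      exact_mod_cast h4
    refine h5.trans ?_
    have h6 : ∑ m ∈ (Finset.range (2 * t + 2)).filter (fun m => Odd m ∧ 3 ≤ m),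
        (((EE G m).ncard : ℕ) : ℝ) ≤
        ∑ _m ∈ (Finset.range (2 * t + 2)).filter (fun m => Odd m ∧ 3 ≤ m), ε' * n ^ 2 := by
      refine Finset.sum_le_sum fun m hm => ?_
      rw [Finset.mem_filter, Finset.mem_range] at hm
      refine hN m n ?_ G hG hm.2.1 hm.2.2 (by omega)
      exact (Finset.single_le_sum (fun _ _ => Nat.zero_le _) (Finset.mem_range.2 hm.1)).trans hn
    refine h6.trans ?_
    rw [Finset.sum_const, nsmul_eq_mul]
    have h7 : ((((Finset.range (2 * t + 2)).filter (fun m => Odd m ∧ 3 ≤ m)).card : ℕ) : ℝ) ≤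
        2 * t + 2 := by
      have := (Finset.card_filter_le (Finset.range (2 * t + 2)) (fun m => Odd m ∧ 3 ≤ m))
      rw [Finset.card_range] at this
      exact_mod_cast this
    calc _ ≤ (2 * t + 2 : ℝ) * (ε' * n ^ 2) :=
          mul_le_mul_of_nonneg_right h7 (by positivity)
      _ = ε * n ^ 2 := by
        rw [hε']
        field_simp

end Pool.Agent.OCX
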