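import Pool.Agent.OCX.Stmts
import Pool.Agent.OCX.Lib

/-!
# SM: when all ends are small, nearly all crossings are of type I
-/

open scoped BigOperators

namespace Pool.Agent.OCX

namespace SM_

section

variable {V : Type} [Fintype V] {G : SimpleGraph V} {R : Set V}

theorem PS_zero (m : ℕ) : PS G R m (fun _ => 0) = 0 := by
  unfold PS
  simp

theorem PS_sum {ι : Type} {m : ℕ} (s : Finset ι) (F : ι → (Fin m → V) → ℝ) :
    PS G R m (fun y => ∑ i ∈ s, F i y) = ∑ i ∈ s, PS G R m (F i) := by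
  classical
  induction s using Finset.induction_on with
  | empty => simp [PS_zero]
  | insert a s ha ih =>
    rw [Finset.sum_insert ha, ← ih, ← PS_add]
    refine PS_congr fun y _ => ?_
    rw [Finset.sum_insert ha]

theorem PS_vis_le (S : Set V) (m : ℕ) :
    PS G R (m + 1) (fun y => vis S y) ≤ (m + 1) * (ms S * ms R ^ m) := by
  classical
  unfold vis
  rw [PS_sum]
  calc ∑ i : Fin (m + 1), PS G R (m + 1) (fun y => S.indicator (fun _ => (1 : ℝ)) (y i))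
      ≤ ∑ i : Fin (m + 1), ms S * ms R ^ m := by
        refine Finset.sum_le_sum fun i _ => ?_
        have key := PS_le_prod (G := G) (R := R)
          (F := fun y : Fin (m + 1) → V => S.indicator (fun _ => (1 : ℝ)) (y i))
          (fun j => if j = i then S else R) (fun _ _ => 1) (fun _ _ _ => zero_le_one)
          (fun y hy => by
            by_cases hi : y i ∈ S
            · rw [Set.indicator_of_mem hi]
              refine le_of_eq (Eq.symm ?_)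
              refine Finset.prod_eq_one fun j _ => ?_
              refine Set.indicator_of_mem ?_ _
              by_cases hj : j = i
              · rw [if_pos hj, hj]
                exact hi
              · rw [if_neg hj]
                exact hy.1 j
            · rw [Set.indicator_of_notMem hi]
              exact Finset.prod_nonneg fun j _ => Set.indicator_nonneg (fun _ _ => zero_le_one) _)
        refine key.trans (le_of_eq ?_)
        rw [Fin.prod_univ_succAbove _ i]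
        have e : ∀ j : Fin m, avS (if i.succAbove j = i then S else R) (fun _ => 1) = ms R := by
          intro j
          rw [if_neg (Fin.succAbove_ne i j)]
          rfl
        simp only [e, if_true]
        rw [Finset.prod_const, Finset.card_univ, Fintype.card_fin]
        rfl
    _ = (m + 1) * (ms S * ms R ^ m) := by
        rw [Finset.sum_const, Finset.card_univ, Fintype.card_fin, nsmul_eq_mul]
        push_cast
        ring

end

theorem pow_le_lin {x : ℝ} (h0 : 0 ≤ x) (h1 : x ≤ 1) : ∀ n : ℕ, (1 + x) ^ n ≤ 1 + (2 ^ n - 1) * x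
  | 0 => by simp
  | n + 1 => by
    have ih := pow_le_lin h0 h1 n
    have h2 : (1 : ℝ) ≤ 2 ^ n := one_le_pow₀ (by norm_num)
    rw [pow_succ, pow_succ]
    nlinarith [mul_nonneg h0 (sub_nonneg.2 h1), mul_nonneg (mul_nonneg (sub_nonneg.2 h2) h0)
      (sub_nonneg.2 h1)]

theorem log_ineq {D : ℝ} (hD : 0 < D) : (D - 1) ^ 2 ≤ 2 * (1 + D) * (D - 1 - Real.log D) := by
  have hs : 0 < Real.sqrt D := Real.sqrt_pos.2 hD
  have h1 : Real.log D = 2 * Real.log (Real.sqrt D) := by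
    rw [Real.log_sqrt hD.le]
    ring
  have h2 := Real.log_le_sub_one_of_pos hs
  have h3 : Real.sqrt D ^ 2 = D := Real.sq_sqrt hD.le
  have h4 : (Real.sqrt D - 1) ^ 2 ≤ D - 1 - Real.log D := by
    rw [h1]
    nlinarith
  have h5 : (D - 1) ^ 2 = (Real.sqrt D - 1) ^ 2 * (Real.sqrt D + 1) ^ 2 := by
    have : D - 1 = (Real.sqrt D - 1) * (Real.sqrt D + 1) := by
      nlinarith
    rw [this]
    ring
  have h6 : (Real.sqrt D + 1) ^ 2 ≤ 2 * (1 + D) := by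
    nlinarith [sq_nonneg (Real.sqrt D - 1)]
  rw [h5]
  calc (Real.sqrt D - 1) ^ 2 * (Real.sqrt D + 1) ^ 2
      ≤ (Real.sqrt D - 1) ^ 2 * (2 * (1 + D)) := mul_le_mul_of_nonneg_left h6 (sq_nonneg _)
    _ = 2 * (1 + D) * (Real.sqrt D - 1) ^ 2 := by ring
    _ ≤ 2 * (1 + D) * (D - 1 - Real.log D) := mul_le_mul_of_nonneg_left h4 (by positivity)

theorem one_sub_ge_exp {x : ℝ} (h0 : 0 ≤ x) (h1 : x ≤ 1 / 2) : Real.exp (-(2 * x)) ≤ 1 - x := by
  have h2 : 0 < 1 - x := by linarith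
  have h3 : Real.log (1 / (1 - x)) ≤ 1 / (1 - x) - 1 :=
    Real.log_le_sub_one_of_pos (by positivity)
  have h4 : 1 / (1 - x) - 1 ≤ 2 * x := by
    rw [sub_le_iff_le_add, div_le_iff₀ h2]
    nlinarith
  have h5 : -(2 * x) ≤ Real.log (1 - x) := by
    rw [one_div, Real.log_inv] at h3
    rw [one_div] at h4
    linarith
  calc Real.exp (-(2 * x)) ≤ Real.exp (Real.log (1 - x)) := Real.exp_le_exp.2 h5
    _ = 1 - x := Real.exp_log h2


theorem n1 {m κ c : ℝ} (h0 : 0 ≤ m) (h1 : m ≤ 2 * κ) (hc0 : 0 < c) (hc : c ≤ κ ^ 2 / 10)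
    (hκ : 0 < κ) (hκ20 : κ ≤ 1 / 20) : 1 - 5 * κ ^ 2 ≤ 1 - (m + c) ^ 2 := by
  have h2 : c ≤ κ / 10 := by nlinarith
  have h3 : m + c ≤ 21 / 10 * κ := by linarith
  have h4 : (m + c) ^ 2 ≤ (21 / 10 * κ) ^ 2 := pow_le_pow_left₀ (by linarith) h3 2
  nlinarith

/-- `k r ≤ b` from `(1 - 5 κ²) r ≤ E`, `k E ≤ b - 1 + a` and smallness -/
theorem n2 {κ r E k a b : ℝ} (hk : 0 < k) (h1 : (1 - 5 * κ ^ 2) * r ≤ E) (h2 : k * E ≤ b - 1 + a)
    (h3 : a + 5 * (b * κ ^ 2) < 1) (h4 : 5 * κ ^ 2 < 1) : k * r ≤ b := by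
  by_contra hcon
  push Not at hcon
  have e1 : (1 - 5 * κ ^ 2) * (k * r) ≤ b - 1 + a := by
    have := mul_le_mul_of_nonneg_left h1 hk.le
    calc (1 - 5 * κ ^ 2) * (k * r) = k * ((1 - 5 * κ ^ 2) * r) := by ring
      _ ≤ k * E := this
      _ ≤ _ := h2
  have e2 : (1 - 5 * κ ^ 2) * b < (1 - 5 * κ ^ 2) * (k * r) :=
    mul_lt_mul_of_pos_left hcon (by linarith)
  have e3 : (1 - 5 * κ ^ 2) * b = b - 5 * (b * κ ^ 2) := by ring
  linarith

theorem n3 {a b κ : ℝ} (h1 : 0 ≤ a) (h2 : a ≤ 2 * κ) (h3 : 0 ≤ b) (h4 : b ≤ 2 * κ) :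
    a * b ≤ 4 * κ ^ 2 := by
  have := mul_le_mul h2 h4 h3 (by linarith)
  linarith [this, sq_abs κ, (by ring : 2 * κ * (2 * κ) = 4 * κ ^ 2)]

/-- lower bound of the flux of type I -/
theorem n4 {f I J δ k c κ K3 T r : ℝ} (hk : 0 < k) (hδ : 0 < δ) (hT : 0 ≤ T) (hK3 : 1 ≤ K3)
    (hκ : 0 < κ) (hf : f * δ = 4 * k * I)
    (hJR : (2 * T + 2) * J ≤ K3 * κ ^ 2 * δ * r) (hR1 : k * r ≤ 2 * T + 3)
    (hc : c ≤ κ ^ 2 / 10) (htot : δ / (2 * k) - c * (δ / k) ≤ 2 * I + J) :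
    1 - 5 * K3 * κ ^ 2 ≤ f := by
  obtain ⟨X, hX⟩ : ∃ X : ℝ, X = K3 * κ ^ 2 * δ := ⟨_, rfl⟩
  have hXpos : 0 < X := by rw [hX]; positivity
  rw [← hX] at hJR
  have e1 : k * J * (2 * T + 2) ≤ X * (2 * T + 3) := by
    calc k * J * (2 * T + 2) = k * ((2 * T + 2) * J) := by ring
      _ ≤ k * (X * r) := mul_le_mul_of_nonneg_left hJR hk.le
      _ = X * (k * r) := by ring
      _ ≤ X * (2 * T + 3) := mul_le_mul_of_nonneg_left hR1 hXpos.le
  have e2 : k * J ≤ 3 / 2 * X := by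
    by_contra hcon
    push Not at hcon
    have h5 : 3 / 2 * X * (2 * T + 2) < k * J * (2 * T + 2) :=
      mul_lt_mul_of_pos_right hcon (by linarith)
    have h6 : 0 ≤ X * T := by positivity
    nlinarith
  have e4 : δ / 2 - c * δ ≤ 2 * (k * I) + k * J := by
    have := mul_le_mul_of_nonneg_left htot hk.le
    have h8 : k * (δ / (2 * k) - c * (δ / k)) = δ / 2 - c * δ := by
      field_simp
    rw [h8] at this
    linarith
  have e5 : (1 - 5 * K3 * κ ^ 2) * δ ≤ f * δ := by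
    rw [hf]
    have h9 : c * δ ≤ κ ^ 2 / 10 * δ := mul_le_mul_of_nonneg_right hc hδ.le
    have h10 : κ ^ 2 * δ ≤ K3 * (κ ^ 2 * δ) := le_mul_of_one_le_left (by positivity) hK3
    have h11 : (1 - 5 * K3 * κ ^ 2) * δ = δ - 5 * X := by rw [hX]; ring
    have h12 : K3 * (κ ^ 2 * δ) = X := by rw [hX]; ring
    rw [h12] at h10
    linarith
  exact le_of_mul_le_mul_right e5 hδ

/-- lower bound of `cc` -/
theorem n5 {D cc κ K3 K4 : ℝ} (hD : 0 < D) (hK3 : 0 ≤ K3) (hK4 : 0 ≤ K4)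
    (hfD : (1 - 5 * K3 * κ ^ 2) * D ≤ (cc + κ ^ 2) * (1 + K4 * κ ^ 2)) :
    D * (1 - (5 * K3 + K4) * κ ^ 2) - κ ^ 2 ≤ cc := by
  by_contra hcon
  push Not at hcon
  have hp : 0 ≤ K4 * κ ^ 2 := by positivity
  have h5 : cc + κ ^ 2 < D * (1 - (5 * K3 + K4) * κ ^ 2) := by linarith
  have h6 : (cc + κ ^ 2) * (1 + K4 * κ ^ 2) <
      D * (1 - (5 * K3 + K4) * κ ^ 2) * (1 + K4 * κ ^ 2) :=
    mul_lt_mul_of_pos_right h5 (by linarith)
  have h7 : D * (1 - (5 * K3 + K4) * κ ^ 2) * (1 + K4 * κ ^ 2) ≤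
      (1 - 5 * K3 * κ ^ 2) * D := by
    have h8 : 0 ≤ D * ((5 * K3 + K4) * κ ^ 2 * (K4 * κ ^ 2)) := by positivity
    have h9 : D * (1 - (5 * K3 + K4) * κ ^ 2) * (1 + K4 * κ ^ 2) =
        (1 - 5 * K3 * κ ^ 2) * D - D * ((5 * K3 + K4) * κ ^ 2 * (K4 * κ ^ 2)) := by ring
    linarith
  linarith

theorem n6 {D κ K6 : ℝ} (hD : 0 < D) (hκ : 0 < κ) (hK6 : 1 ≤ K6)
    (hlog : D - 1 - Real.log D ≤ K6 * κ ^ 2 * (1 + D)) (hs : 2 * K6 * κ ≤ 1 / 4) :
    D ≤ 2 ∧ |D - 1| ≤ 3 * (2 * K6) * κ := by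
  have hsq : (D - 1) ^ 2 ≤ (2 * K6 * κ * (1 + D)) ^ 2 := by
    have a1 := log_ineq hD
    have a2 : 2 * (1 + D) * (D - 1 - Real.log D) ≤ 2 * (1 + D) * (K6 * κ ^ 2 * (1 + D)) :=
      mul_le_mul_of_nonneg_left hlog (by positivity)
    refine a1.trans (a2.trans ?_)
    have h4 : 2 * (1 + D) * (K6 * κ ^ 2 * (1 + D)) = 2 * K6 * (κ ^ 2 * (1 + D) ^ 2) := by ring
    rw [h4]
    have h3 : (2 * K6 * κ * (1 + D)) ^ 2 = (2 * K6) ^ 2 * (κ ^ 2 * (1 + D) ^ 2) := by ring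
    rw [h3]
    refine mul_le_mul_of_nonneg_right ?_ (by positivity)
    nlinarith
  have habs : |D - 1| ≤ 2 * K6 * κ * (1 + D) := abs_le_of_sq_le_sq hsq (by positivity)
  have h0 : 0 ≤ 2 * K6 * κ := by positivity
  obtain ⟨s, hs'⟩ : ∃ s : ℝ, s = 2 * K6 * κ := ⟨_, rfl⟩
  rw [← hs'] at habs hs h0
  have hD2 : D ≤ 2 := by
    have := (abs_le.1 habs).2
    nlinarith
  refine ⟨hD2, habs.trans ?_⟩
  have : 3 * (2 * K6) * κ = 3 * s := by rw [hs']; ring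
  rw [this]
  nlinarith

theorem n7 {f D cc m κ K3 K4 K6 : ℝ} (hκ : 0 < κ) (hκ20 : κ ≤ 1 / 20) (hK3 : 1 ≤ K3)
    (hK4 : 0 ≤ K4) (hK6 : 1 ≤ K6) (hm : 0 ≤ m) (hcc : 0 ≤ cc) (hD2 : D ≤ 2)
    (hDpos : 0 < D) (hD1 : |D - 1| ≤ 3 * (2 * K6) * κ)
    (hcc1 : cc ≤ 1 + (6 + 3 * (2 * K6)) * κ)
    (hflow : 1 - 5 * K3 * κ ^ 2 ≤ f)
    (p2 : f * D ≤ (cc + κ ^ 2) * m * (1 + K4 * κ ^ 2)) :
    1 - (5 * K3 + 3 * (2 * K6) + (7 + 3 * (2 * K6)) + 8 * K4 + 3 * (2 * K6) * K4) * κ ≤ m := by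
  have hκ2 : κ ^ 2 ≤ κ / 20 := by nlinarith
  have p3 : 1 - (5 * K3 + 3 * (2 * K6)) * κ ≤ f * D := by
    have a2 := (abs_le.1 hD1).1
    have a3 : (1 - 5 * K3 * κ ^ 2) * D ≤ f * D := mul_le_mul_of_nonneg_right hflow hDpos.le
    have a5 : κ ^ 2 * D ≤ κ / 10 := by nlinarith
    have a4 : K3 * (κ ^ 2 * D) ≤ K3 * (κ / 10) := mul_le_mul_of_nonneg_left a5 (by linarith)
    have a6 : (1 - 5 * K3 * κ ^ 2) * D = D - 5 * (K3 * (κ ^ 2 * D)) := by ring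
    have a7 : 0 ≤ K3 * κ := by positivity
    have a8 : (5 * K3 + 3 * (2 * K6)) * κ = 5 * (K3 * κ) + 3 * (2 * K6) * κ := by ring
    have a9 : K3 * (κ / 10) = K3 * κ / 10 := by ring
    rw [a8]
    rw [a6] at a3
    rw [a9] at a4
    linarith
  obtain ⟨b, hb⟩ : ∃ b : ℝ, b = 7 + 3 * (2 * K6) + 8 * K4 + 3 * (2 * K6) * K4 := ⟨_, rfl⟩
  have hb0 : 0 ≤ b := by rw [hb]; positivity
  have hcc2 : cc + κ ^ 2 ≤ 1 + (7 + 3 * (2 * K6)) * κ := by linarith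
  have hbb : (cc + κ ^ 2) * (1 + K4 * κ ^ 2) ≤ 1 + b * κ := by
    have b0 : K4 * κ ^ 2 ≤ K4 * (κ / 20) := mul_le_mul_of_nonneg_left hκ2 hK4
    have b1 : (cc + κ ^ 2) * (1 + K4 * κ ^ 2) ≤
        (1 + (7 + 3 * (2 * K6)) * κ) * (1 + K4 * (κ / 20)) := by
      refine mul_le_mul hcc2 (by linarith) (by positivity) (by positivity)
    refine b1.trans ?_
    have b2 : (7 + 3 * (2 * K6)) * K4 * κ ^ 2 ≤ (7 + 3 * (2 * K6)) * K4 * (κ / 20) :=
      mul_le_mul_of_nonneg_left hκ2 (by positivity)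
    have b3 : (1 + (7 + 3 * (2 * K6)) * κ) * (1 + K4 * (κ / 20)) = 1 + (7 + 3 * (2 * K6)) * κ +
        K4 * κ / 20 + (7 + 3 * (2 * K6)) * K4 * κ ^ 2 / 20 := by ring
    have b4 : 1 + b * κ = 1 + (7 + 3 * (2 * K6)) * κ + 8 * (K4 * κ) + 6 * (K6 * K4 * κ) := by
      rw [hb]; ring
    have b5 : (7 + 3 * (2 * K6)) * K4 * (κ / 20) = 7 / 20 * (K4 * κ) + 6 / 20 * (K6 * K4 * κ) := by
      ring
    have b6 : 0 ≤ K4 * κ := by positivity
    have b7 : 0 ≤ K6 * K4 * κ := by positivity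
    rw [b3, b4]
    rw [b5] at b2
    linarith
  have h8 : (cc + κ ^ 2) * m * (1 + K4 * κ ^ 2) ≤ (1 + b * κ) * m := by
    calc (cc + κ ^ 2) * m * (1 + K4 * κ ^ 2) = ((cc + κ ^ 2) * (1 + K4 * κ ^ 2)) * m := by ring
      _ ≤ _ := mul_le_mul_of_nonneg_right hbb hm
  by_contra hcon
  push Not at hcon
  obtain ⟨K9, hK9⟩ : ∃ K9 : ℝ, K9 = 5 * K3 + 3 * (2 * K6) + (7 + 3 * (2 * K6)) + 8 * K4 +
    3 * (2 * K6) * K4 := ⟨_, rfl⟩
  rw [← hK9] at hcon
  have hK90 : 0 ≤ K9 := by rw [hK9]; positivity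
  have h9 : (1 + b * κ) * m < (1 + b * κ) * (1 - K9 * κ) :=
    mul_lt_mul_of_pos_left hcon (by positivity)
  have h10 : (1 + b * κ) * (1 - K9 * κ) ≤ 1 + b * κ - K9 * κ := by
    have h : 0 ≤ b * κ * (K9 * κ) := by positivity
    have h' : (1 + b * κ) * (1 - K9 * κ) = 1 + b * κ - K9 * κ - b * κ * (K9 * κ) := by ring
    linarith
  have h11 : b * κ - K9 * κ = -((5 * K3 + 3 * (2 * K6)) * κ) := by
    rw [hK9, hb]
    ring
  linarith

end SM_

open SM_ in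
theorem sm_proof (h1 : Stmt_VM) (h2 : Stmt_VI) (h3 : Stmt_TI) : Stmt_SM := by
  intro t
  obtain ⟨K1, hK1, H1⟩ := h1 t
  obtain ⟨K2, hK2, H3⟩ := h3 t
  -- constants
  obtain ⟨T, hT⟩ : ∃ T : ℝ, T = t := ⟨_, rfl⟩
  have hT0 : 0 ≤ T := by rw [hT]; positivity
  obtain ⟨K3, hK3⟩ : ∃ K3 : ℝ, K3 = 2 ^ (2 * t + 5) * (2 * T + 2) * (2 * T + 3) ^ (2 * t + 1) :=
    ⟨_, rfl⟩
  have hK3' : 1 ≤ K3 := by
    rw [hK3]
    have a1 : (1 : ℝ) ≤ 2 ^ (2 * t + 5) := one_le_pow₀ (by norm_num)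
    have a2 : (1 : ℝ) ≤ (2 * T + 3) ^ (2 * t + 1) := one_le_pow₀ (by linarith)
    have a3 : (1 : ℝ) ≤ 2 * T + 2 := by linarith
    exact one_le_mul_of_one_le_of_one_le (one_le_mul_of_one_le_of_one_le a1 a3) a2
  obtain ⟨K4, hK4⟩ : ∃ K4 : ℝ, K4 = 2 ^ (2 * t + 2) * K1 := ⟨_, rfl⟩
  have hK4' : 1 ≤ K4 := by
    rw [hK4]
    exact one_le_mul_of_one_le_of_one_le (one_le_pow₀ (by norm_num)) hK1
  obtain ⟨K6, hK6⟩ : ∃ K6 : ℝ, K6 = 7 + 5 * K3 + K4 := ⟨_, rfl⟩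
  have hK6' : 1 ≤ K6 := by linarith
  obtain ⟨K9, hK9⟩ : ∃ K9 : ℝ, K9 = 5 * K3 + 3 * (2 * K6) + (7 + 3 * (2 * K6)) + 8 * K4 +
    3 * (2 * K6) * K4 := ⟨_, rfl⟩
  have hP : 0 ≤ 3 * (2 * K6) * K4 := by
    have : 0 ≤ K6 := by linarith
    have : 0 ≤ K4 := by linarith
    positivity
  have hK9' : 1 ≤ K9 := by linarith
  obtain ⟨M, hM⟩ : ∃ M : ℝ, M = 20 * (2 * T + 3) + 10 * K3 + 10 * T + 11 + K1 + 8 * K6 + K9 +
    K4 + 40 := ⟨_, rfl⟩
  have hM1 : 20 ≤ M := by linarith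
  have hMpos : 0 < M := by linarith
  refine ⟨K3 + K9 + K1 + 5, by linarith, 1 / M, by positivity, ?_⟩
  intro κ hκ hκM C
  have hMκ : M * κ ≤ 1 := by
    rw [le_div_iff₀ hMpos] at hκM
    linarith
  have hlin : ∀ a : ℝ, a ≤ M → a * κ ≤ 1 := fun a ha =>
    (mul_le_mul_of_nonneg_right ha hκ.le).trans hMκ
  have hκ20 : κ ≤ 1 / 20 := by
    have := hlin 20 hM1
    linarith
  have hκ2 : κ ^ 2 ≤ κ := by
    rw [pow_two]
    exact mul_le_of_le_one_left hκ.le (by linarith)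
  have hκ400 : κ ^ 2 ≤ 1 / 400 := by
    have : κ ^ 2 ≤ (1 / 20) ^ 2 := pow_le_pow_left₀ hκ.le hκ20 2
    linarith
  have hκpos2 : 0 < κ ^ 2 := by positivity
  have hquad : ∀ a : ℝ, 0 ≤ a → a ≤ M → a * κ ^ 2 ≤ 1 := fun a ha0 ha =>
    (mul_le_mul_of_nonneg_left hκ2 ha0).trans (hlin a ha)
  obtain ⟨k1, H1'⟩ := H1 κ hκ hκ20 C
  obtain ⟨k2, H2'⟩ := h2 t κ hκ hκ20 C
  obtain ⟨k3, H3'⟩ := H3 κ hκ hκ20 C
  obtain ⟨k4, hk4⟩ := exists_nat_ge (10 * C / κ ^ 2)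
  refine ⟨max (max k1 k2) (max k3 k4), ?_⟩
  intro k hk V _ G A B R eA eB ω ξ δ cc hξ hc hends
  simp only [max_le_iff] at hk
  obtain ⟨⟨hk1, hk2⟩, ⟨hk3, hk4'⟩⟩ := hk
  have hξ2 : ξ ≤ 1 / 2 := by linarith
  have hkpos : (0 : ℝ) < k := by
    have := hc.k1
    exact_mod_cast this
  have hCk : C / k ≤ κ ^ 2 / 10 := by
    rw [div_le_iff₀ hkpos]
    have : 10 * C / κ ^ 2 ≤ k := hk4.trans (by exact_mod_cast hk4')
    rw [div_le_iff₀ (by positivity)] at this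
    linarith
  have hC1 := hc.C1
  have hCk0 : 0 < C / k := by positivity
  obtain ⟨f0, f1, f2, f3, f4⟩ := H1' k hk1 V G A B R eA eB ω ξ δ cc hξ2 hc
  have g1 := H2' k hk2 V G A B R eA eB ω ξ δ cc hξ2 hc
  have hδ := hc.d0
  obtain ⟨I, hI⟩ : ∃ I : ℝ, I = PS G R (2 * t + 1) (wI t eA eB) := ⟨_, rfl⟩
  obtain ⟨f, hf⟩ : ∃ f : ℝ, f = 4 * k * I / δ := ⟨_, rfl⟩
  obtain ⟨D, hD⟩ : ∃ D : ℝ, D = DD t k δ := ⟨_, rfl⟩
  rw [← hI, ← hf] at f0 f1 f2 g1
  rw [← hD] at f4 g1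
  rw [← hT] at f2
  have f2a := (abs_le.1 f2).1
  have f2b := (abs_le.1 f2).2
  clear f2 H1' H2' H3' h2 H1 H3
  -- pointwise bound for ω
  have hom : ∀ x ∈ R, 1 - 5 * κ ^ 2 ≤ ω x := by
    intro x hx
    refine le_trans ?_ (hc.om1 x hx)
    exact n1 ((hc.eA0 x).trans (le_max_left _ _)) (max_le (hends x hx).1 (hends x hx).2) hCk0 hCk
      hκ hκ20
  have homR : (1 - 5 * κ ^ 2) * ms R ≤ avS R ω := mul_ms_le_avS hom
  have hmsR0 : 0 ≤ ms R := ms_nonneg R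
  have hTκ : 20 * (2 * T + 3) * κ ^ 2 ≤ 1 := hquad _ (by linarith) (by linarith)
  have hR1 : k * ms R ≤ 2 * T + 3 :=
    n2 hkpos homR (a := κ ^ 2) (by linarith) (by linarith) (by linarith)
  have hmsR : ms R ≤ (2 * T + 3) / k := by
    rw [le_div_iff₀ hkpos]
    linarith
  -- k^(-(2t+1)) ≤ 2 δ
  have hkδ : (1 / (k : ℝ)) ^ (2 * t + 1) ≤ 2 * δ := by
    have e : D = δ * (k : ℝ) ^ (2 * t + 1) / 4 ^ (t + 1) := hD
    rw [e, le_div_iff₀ (by positivity)] at f4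
    rw [one_div, inv_pow, inv_le_iff_one_le_mul₀ (by positivity)]
    have h4 : (4 : ℝ) ≤ 4 ^ (t + 1) := by
      have : (1 : ℝ) ≤ 4 ^ t := one_le_pow₀ (by norm_num)
      rw [pow_succ]
      linarith
    linarith
  -- type II sums
  have hJ : ∀ S : Set V, S ⊆ R →
      PS G R (2 * t + 2) (fun y => (wC t eA y + wC t eB y) * vis S y) ≤
        K3 * κ ^ 2 * δ * ms S := by
    intro S hS
    have s1 : PS G R (2 * t + 2) (fun y => (wC t eA y + wC t eB y) * vis S y) ≤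
        PS G R (2 * t + 2) (fun y => (2 ^ (2 * t + 1) * (8 * κ ^ 2)) * vis S y) := by
      refine PS_mono fun y hy => ?_
      refine mul_le_mul_of_nonneg_right ?_ (vis_nonneg S y)
      have hw : ∀ e : V → ℝ, (∀ x, 0 ≤ e x) → (∀ x ∈ R, e x ≤ 2 * κ) →
          wC t e y ≤ 2 ^ (2 * t + 1) * (4 * κ ^ 2) := by
        intro e he he'
        unfold wC
        refine mul_le_mul_of_nonneg_left ?_ (by positivity)
        exact n3 (he _) (he' _ (hy.1 _)) (he _) (he' _ (hy.1 _))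
      have w1 := hw eA hc.eA0 (fun x hx => (hends x hx).1)
      have w2 := hw eB hc.eB0 (fun x hx => (hends x hx).2)
      have w3 : (2 : ℝ) ^ (2 * t + 1) * (8 * κ ^ 2) =
        2 ^ (2 * t + 1) * (4 * κ ^ 2) + 2 ^ (2 * t + 1) * (4 * κ ^ 2) := by ring
      rw [w3]
      exact add_le_add w1 w2
    rw [PS_mul_left] at s1
    have s2 := PS_vis_le (G := G) (R := R) S (2 * t + 1)
    have s3 : ms R ^ (2 * t + 1) ≤ (2 * T + 3) ^ (2 * t + 1) * (2 * δ) := by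
      calc ms R ^ (2 * t + 1) ≤ ((2 * T + 3) / k) ^ (2 * t + 1) :=
            pow_le_pow_left₀ hmsR0 hmsR _
        _ = (2 * T + 3) ^ (2 * t + 1) * (1 / (k : ℝ)) ^ (2 * t + 1) := by
            rw [← mul_pow]
            congr 1
            ring
        _ ≤ (2 * T + 3) ^ (2 * t + 1) * (2 * δ) :=
            mul_le_mul_of_nonneg_left hkδ (by positivity)
    have s4 : (((2 * t + 1 : ℕ) : ℝ) + 1) = 2 * T + 2 := by
      rw [hT]
      push_cast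
      ring
    rw [s4] at s2
    have hS0 := ms_nonneg S
    calc PS G R (2 * t + 2) (fun y => (wC t eA y + wC t eB y) * vis S y)
        ≤ 2 ^ (2 * t + 1) * (8 * κ ^ 2) * PS G R (2 * t + 2) (fun y => vis S y) := s1
      _ ≤ 2 ^ (2 * t + 1) * (8 * κ ^ 2) * ((2 * T + 2) * (ms S * ms R ^ (2 * t + 1))) :=
          mul_le_mul_of_nonneg_left s2 (by positivity)
      _ ≤ 2 ^ (2 * t + 1) * (8 * κ ^ 2) * ((2 * T + 2) *
            (ms S * ((2 * T + 3) ^ (2 * t + 1) * (2 * δ)))) := by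
          refine mul_le_mul_of_nonneg_left ?_ (by positivity)
          refine mul_le_mul_of_nonneg_left ?_ (by linarith)
          exact mul_le_mul_of_nonneg_left s3 hS0
      _ = K3 * κ ^ 2 * δ * ms S := by
          rw [hK3]
          ring
  obtain ⟨J, hJd⟩ : ∃ J : ℝ, J = PS G R (2 * t + 2) (fun y => wC t eA y + wC t eB y) := ⟨_, rfl⟩
  have hJR : (2 * T + 2) * J ≤ K3 * κ ^ 2 * δ * ms R := by
    have := hJ R (le_refl _)
    refine le_trans (le_of_eq ?_) this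
    rw [hJd, ← PS_mul_left]
    refine PS_congr fun y hy => ?_
    rw [vis_of_subset hy.1, hT]
    push_cast
    ring
  have hZ : Zf t G R eA eB = 2 * I + J := by
    rw [hI, hJd]
    rfl
  have htot := hc.tot
  rw [hZ, abs_le] at htot
  have hf' : f * δ = 4 * k * I := by
    rw [hf]
    field_simp
  have hflow : 1 - 5 * K3 * κ ^ 2 ≤ f :=
    n4 hkpos hδ hT0 hK3' hκ hf' hJR hR1 hCk (by linarith [htot.1])
  have hR2 : k * ms R ≤ 2 * T + 2 := by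
    have h5 : (10 * K3 + 10 * T + 11) * κ ^ 2 ≤ 1 := hquad _ (by linarith) (by linarith)
    have h6 : (10 * K3 + 10 * T + 11) * κ ^ 2 =
      2 * (5 * K3 * κ ^ 2) + 5 * ((2 * T + 2) * κ ^ 2) + κ ^ 2 := by ring
    rw [h6] at h5
    have h7 : 0 < 5 * K3 * κ ^ 2 := by positivity
    exact n2 hkpos homR (a := κ ^ 2 + 5 * K3 * κ ^ 2) (by linarith) (by linarith) (by linarith)
  -- the masses
  have hVR : ∀ l, Vl t G R A B l ⊆ R := fun l x hx => hx.1.mem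
  have hm0 : ∀ l, 0 ≤ k * avS (Vl t G R A B l) ω := by
    intro l
    refine mul_nonneg hkpos.le (avS_nonneg fun x hx => ?_)
    have := hc.om2 x (hVR l hx)
    linarith
  obtain ⟨x1, hx1⟩ : ∃ x1 : ℝ, x1 = K1 * κ ^ 2 := ⟨_, rfl⟩
  have hx10 : 0 ≤ x1 := by rw [hx1]; positivity
  have hx1' : x1 ≤ 1 := by
    rw [hx1]
    exact hquad _ (by linarith) (by linarith)
  have hq : (1 + x1) ^ (2 * t + 1) * (1 + κ ^ 2) ≤ 1 + K4 * κ ^ 2 := by
    have a1 : κ ^ 2 ≤ x1 := by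
      rw [hx1]
      exact le_mul_of_one_le_left (by positivity) hK1
    calc (1 + x1) ^ (2 * t + 1) * (1 + κ ^ 2) ≤ (1 + x1) ^ (2 * t + 1) * (1 + x1) :=
          mul_le_mul_of_nonneg_left (by linarith) (by positivity)
      _ = (1 + x1) ^ (2 * t + 2) := by rw [← pow_succ]
      _ ≤ 1 + (2 ^ (2 * t + 2) - 1) * x1 := pow_le_lin hx10 hx1' _
      _ ≤ 1 + K4 * κ ^ 2 := by
          have a2 : K4 * κ ^ 2 = 2 ^ (2 * t + 2) * x1 := by rw [hK4, hx1]; ring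
          rw [a2, sub_mul]
          linarith
  have hmle : ∀ l ∈ Finset.Icc 1 (2 * t + 1), k * avS (Vl t G R A B l) ω ≤ 1 + x1 := by
    intro l hl
    rw [Finset.mem_Icc] at hl
    rw [hx1]
    exact f3 l hl.1 hl.2
  have hprod : ∏ l ∈ Finset.Icc 1 (2 * t + 1), k * avS (Vl t G R A B l) ω ≤
      (1 + x1) ^ (2 * t + 1) := by
    calc ∏ l ∈ Finset.Icc 1 (2 * t + 1), k * avS (Vl t G R A B l) ω
        ≤ ∏ l ∈ Finset.Icc 1 (2 * t + 1), (1 + x1) :=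
          Finset.prod_le_prod (fun l _ => hm0 l) hmle
      _ = (1 + x1) ^ (2 * t + 1) := by
          rw [Finset.prod_const, Nat.card_Icc]
          congr 1
  have hcc0 := hc.c0
  have hDpos : 0 < D := by linarith
  have hfD : (1 - 5 * K3 * κ ^ 2) * D ≤ (cc + κ ^ 2) * (1 + K4 * κ ^ 2) := by
    calc (1 - 5 * K3 * κ ^ 2) * D ≤ f * D := mul_le_mul_of_nonneg_right hflow hDpos.le
      _ ≤ (cc + κ ^ 2) * (∏ l ∈ Finset.Icc 1 (2 * t + 1), k * avS (Vl t G R A B l) ω) *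
            (1 + κ ^ 2) := g1
      _ ≤ (cc + κ ^ 2) * (1 + x1) ^ (2 * t + 1) * (1 + κ ^ 2) := by
          refine mul_le_mul_of_nonneg_right ?_ (by positivity)
          exact mul_le_mul_of_nonneg_left hprod (by positivity)
      _ = (cc + κ ^ 2) * ((1 + x1) ^ (2 * t + 1) * (1 + κ ^ 2)) := by ring
      _ ≤ (cc + κ ^ 2) * (1 + K4 * κ ^ 2) := mul_le_mul_of_nonneg_left hq (by positivity)
  -- the lower bound for D
  have hext : cc ≤ 1 + 6 * κ ^ 2 + Real.log D := by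
    have e0 := hc.ext
    have e1 : Real.exp (-(2 * t + 2) + k * avS R ω + cc) * (1 - ξ - C / k) ≤ D := by
      have : D = δ * (k : ℝ) ^ (2 * t + 1) / 4 ^ (t + 1) := hD
      rw [this, le_div_iff₀ (by positivity)]
      have h5 := mul_le_mul_of_nonneg_right e0 (by positivity : 0 ≤ (k : ℝ) ^ (2 * t + 1))
      refine le_trans (le_of_eq ?_) h5
      rw [one_div, inv_pow]
      field_simp
    have e2 : Real.exp (cc - 1 - 2 * κ ^ 2) ≤ Real.exp (-(2 * t + 2) + k * avS R ω + cc) := by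
      refine Real.exp_le_exp.2 ?_
      rw [← hT]
      linarith
    have e3 : Real.exp (-(2 * (2 * κ ^ 2))) ≤ 1 - 2 * κ ^ 2 :=
      one_sub_ge_exp (by positivity) (by linarith)
    have e4 : Real.exp (cc - 1 - 2 * κ ^ 2) * Real.exp (-(2 * (2 * κ ^ 2))) ≤ D := by
      calc Real.exp (cc - 1 - 2 * κ ^ 2) * Real.exp (-(2 * (2 * κ ^ 2)))
          ≤ Real.exp (cc - 1 - 2 * κ ^ 2) * (1 - 2 * κ ^ 2) :=
            mul_le_mul_of_nonneg_left e3 (Real.exp_pos _).le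
        _ ≤ Real.exp (-(2 * t + 2) + k * avS R ω + cc) * (1 - ξ - C / k) := by
            refine mul_le_mul e2 ?_ ?_ (Real.exp_pos _).le
            · linarith
            · linarith
        _ ≤ D := e1
    rw [← Real.exp_add] at e4
    have e5 := Real.log_le_log (Real.exp_pos _) e4
    rw [Real.log_exp] at e5
    linarith
  have hccD : D * (1 - (5 * K3 + K4) * κ ^ 2) - κ ^ 2 ≤ cc :=
    n5 hDpos (by linarith) (by linarith) hfD
  have hlog : D - 1 - Real.log D ≤ K6 * κ ^ 2 * (1 + D) := by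
    have hp : 0 ≤ κ ^ 2 * D := by positivity
    have hp2 : 0 ≤ (5 * K3 + K4) * κ ^ 2 := by positivity
    have e1 : D * (1 - (5 * K3 + K4) * κ ^ 2) = D - (5 * K3 + K4) * (κ ^ 2 * D) := by ring
    have e2 : K6 * κ ^ 2 * (1 + D) = 7 * κ ^ 2 + (5 * K3 + K4) * κ ^ 2 + 7 * (κ ^ 2 * D) +
      (5 * K3 + K4) * (κ ^ 2 * D) := by rw [hK6]; ring
    rw [e1] at hccD
    rw [e2]
    linarith
  have hs4 : 2 * K6 * κ ≤ 1 / 4 := by
    have h5 : 8 * K6 * κ ≤ 1 := hlin _ (by linarith)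
    linarith
  obtain ⟨hD2, hD1⟩ := n6 hDpos hκ hK6' hlog hs4
  have hcc1 : cc ≤ 1 + (6 + 3 * (2 * K6)) * κ := by
    have a1 := Real.log_le_sub_one_of_pos hDpos
    have a2 := (abs_le.1 hD1).2
    have a3 : (6 + 3 * (2 * K6)) * κ = 6 * κ + 3 * (2 * K6) * κ := by ring
    rw [a3]
    linarith
  have hlower : ∀ l, 1 ≤ l → l ≤ 2 * t + 1 → 1 - K9 * κ ≤ k * avS (Vl t G R A B l) ω := by
    intro l hl1 hl2
    have hl : l ∈ Finset.Icc 1 (2 * t + 1) := Finset.mem_Icc.2 ⟨hl1, hl2⟩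
    obtain ⟨m, hm⟩ : ∃ m : ℝ, m = k * avS (Vl t G R A B l) ω := ⟨_, rfl⟩
    have hm0' : 0 ≤ m := by rw [hm]; exact hm0 l
    have p1 : ∏ l ∈ Finset.Icc 1 (2 * t + 1), k * avS (Vl t G R A B l) ω ≤
        m * (1 + x1) ^ (2 * t + 1) := by
      rw [← Finset.mul_prod_erase _ _ hl, ← hm]
      refine mul_le_mul_of_nonneg_left ?_ hm0'
      calc ∏ l ∈ (Finset.Icc 1 (2 * t + 1)).erase l, k * avS (Vl t G R A B l) ω
          ≤ ∏ l ∈ (Finset.Icc 1 (2 * t + 1)).erase l, (1 + x1) :=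
            Finset.prod_le_prod (fun l _ => hm0 l) (fun i hi => hmle i (Finset.mem_of_mem_erase hi))
        _ = (1 + x1) ^ (2 * t) := by
            rw [Finset.prod_const, Finset.card_erase_of_mem hl, Nat.card_Icc]
            congr 1
        _ ≤ (1 + x1) ^ (2 * t + 1) := pow_le_pow_right₀ (by linarith) (by omega)
    have p2 : f * D ≤ (cc + κ ^ 2) * m * (1 + K4 * κ ^ 2) := by
      calc f * D ≤ (cc + κ ^ 2) *
            (∏ l ∈ Finset.Icc 1 (2 * t + 1), k * avS (Vl t G R A B l) ω) * (1 + κ ^ 2) := g1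
        _ ≤ (cc + κ ^ 2) * (m * (1 + x1) ^ (2 * t + 1)) * (1 + κ ^ 2) := by
            refine mul_le_mul_of_nonneg_right ?_ (by positivity)
            exact mul_le_mul_of_nonneg_left p1 (by positivity)
        _ = (cc + κ ^ 2) * m * ((1 + x1) ^ (2 * t + 1) * (1 + κ ^ 2)) := by ring
        _ ≤ (cc + κ ^ 2) * m * (1 + K4 * κ ^ 2) := mul_le_mul_of_nonneg_left hq (by positivity)
    rw [← hm, hK9]
    exact n7 hκ hκ20 hK3' (by linarith) hK6' hm0' hcc0 hD2 hDpos hD1 hcc1 hflow p2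
  have hKK : K9 ≤ K3 + K9 + K1 + 5 := by linarith
  refine ⟨?_, ?_, ?_, ?_, ?_, ?_, ?_⟩
  · intro x hx
    refine le_trans ?_ (hom x hx)
    have : 5 * κ ^ 2 ≤ (K3 + K9 + K1 + 5) * κ ^ 2 :=
      mul_le_mul_of_nonneg_right (by linarith) (by positivity)
    linarith
  · rw [le_div_iff₀ hkpos, ← hT]
    linarith
  · intro S hS
    refine (hJ S hS).trans ?_
    have h5 : 0 ≤ κ ^ 2 * δ * ms S := mul_nonneg (by positivity) (ms_nonneg S)
    have h6 : K3 * (κ ^ 2 * δ * ms S) ≤ (K3 + K9 + K1 + 5) * (κ ^ 2 * δ * ms S) :=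
      mul_le_mul_of_nonneg_right (by linarith) h5
    refine le_trans (le_of_eq ?_) (h6.trans (le_of_eq ?_))
    · ring
    · ring
  · rw [← hD]
    refine hD1.trans ?_
    refine mul_le_mul_of_nonneg_right ?_ hκ.le
    linarith
  · refine hcc1.trans ?_
    have : (6 + 3 * (2 * K6)) * κ ≤ (K3 + K9 + K1 + 5) * κ := by
      refine mul_le_mul_of_nonneg_right ?_ hκ.le
      linarith
    linarith
  · intro l hl1 hl2
    refine le_trans ?_ (hlower l hl1 hl2)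
    have := mul_le_mul_of_nonneg_right hKK hκ.le
    linarith
  · intro l hl1 hl2
    refine (f3 l hl1 hl2).trans ?_
    have a1 : K1 * κ ^ 2 ≤ K1 * κ := mul_le_mul_of_nonneg_left hκ2 (by positivity)
    have a2 : K1 * κ ≤ (K3 + K9 + K1 + 5) * κ := by
      refine mul_le_mul_of_nonneg_right ?_ hκ.le
      linarith
    linarith

end Pool.Agent.OCX
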