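import Pool.Agent.OCX.Stmts
import Pool.Agent.OCX.Lib

/-!
# SPA: spectral decomposition of the normalised adjacency operator
-/

open scoped BigOperators

namespace Pool.Agent.OCX

namespace SPA_

open Matrix

variable {V : Type} [Fintype V]

/-- orthonormal eigenvectors as plain functions -/
theorem exists_basis [DecidableEq V] (G : SimpleGraph V) : ∃ (mu : V → ℝ) (e : V → V → ℝ),
    (∀ i j, ∑ x, e i x * e j x = if i = j then 1 else 0) ∧
    (∀ x y, ∑ i, e i x * e i y = if x = y then 1 else 0) ∧
    (∀ i x, ∑ y, (G.neighborSet x).indicator (e i) y = mu i * e i x) := by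
  classical
  have hA : (G.adjMatrix ℝ).IsHermitian := by
    rw [Matrix.IsHermitian, Matrix.conjTranspose_eq_transpose_of_trivial]
    exact SimpleGraph.isSymm_adjMatrix G
  set U : Matrix V V ℝ := (hA.eigenvectorUnitary : Matrix V V ℝ) with hU
  have h1 : star U * U = 1 := Unitary.coe_star_mul_self hA.eigenvectorUnitary
  have h2 : U * star U = 1 := Unitary.coe_mul_star_self hA.eigenvectorUnitary
  refine ⟨hA.eigenvalues, fun i x => U x i, ?_, ?_, ?_⟩
  · intro i j
    have h := congrFun (congrFun h1 i) j
    rw [Matrix.mul_apply, Matrix.one_apply] at h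
    rw [← h]
    refine Finset.sum_congr rfl fun x _ => ?_
    rw [Matrix.star_apply, star_trivial]
  · intro x y
    have h := congrFun (congrFun h2 x) y
    rw [Matrix.mul_apply, Matrix.one_apply] at h
    rw [← h]
    refine Finset.sum_congr rfl fun i _ => ?_
    rw [Matrix.star_apply, star_trivial]
  · intro i x
    have h := congrFun (hA.mulVec_eigenvectorBasis i) x
    have h3 : ∀ y, (hA.eigenvectorBasis i) y = U y i := fun y => rfl
    rw [Matrix.mulVec, dotProduct] at h
    have h4 : (hA.eigenvalues i • (⇑(hA.eigenvectorBasis i) : V → ℝ)) x =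
        hA.eigenvalues i * U x i := by
      rw [Pi.smul_apply, smul_eq_mul, h3]
    rw [h4] at h
    rw [← h]
    refine Finset.sum_congr rfl fun y _ => ?_
    rw [SimpleGraph.adjMatrix_apply, h3]
    by_cases hy : G.Adj x y
    · rw [Set.indicator_of_mem (show y ∈ G.neighborSet x from hy), if_pos hy, one_mul]
    · rw [Set.indicator_of_notMem (show y ∉ G.neighborSet x from hy), if_neg hy, zero_mul]

theorem wop_eq (G : SimpleGraph V) (f : V → ℝ) (x : V) :
    Wop G f x = (∑ y, (G.neighborSet x).indicator f y) / (Fintype.card V : ℝ) := rfl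

theorem wop_sum {ι : Type} (s : Finset ι) (G : SimpleGraph V) (c : ι → ℝ) (q : ι → V → ℝ)
    (x : V) : Wop G (fun y => ∑ i ∈ s, c i * q i y) x = ∑ i ∈ s, c i * Wop G (q i) x := by
  have h : ∀ y, (G.neighborSet x).indicator (fun y => ∑ i ∈ s, c i * q i y) y =
      ∑ i ∈ s, c i * (G.neighborSet x).indicator (q i) y := by
    intro y
    by_cases hy : y ∈ G.neighborSet x
    · simp only [Set.indicator_of_mem hy]
    · simp only [Set.indicator_of_notMem hy, mul_zero, Finset.sum_const_zero]
  rw [wop_eq, Finset.sum_congr rfl fun y _ => h y, Finset.sum_comm, Finset.sum_div]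
  refine Finset.sum_congr rfl fun i _ => ?_
  rw [wop_eq, ← Finset.mul_sum, mul_div_assoc]

end SPA_

open SPA_ in
theorem spa_proof : Stmt_SPA := by
  classical
  intro V _ _ G
  obtain ⟨mu, e, h1, h2, h3⟩ := exists_basis G
  have hN : (0 : ℝ) < (Fintype.card V : ℝ) := Nat.cast_pos.2 Fintype.card_pos
  set N : ℝ := (Fintype.card V : ℝ) with hNdef
  have hs : Real.sqrt N * Real.sqrt N = N := Real.mul_self_sqrt hN.le
  have hav : ∀ f : V → ℝ, av f = (∑ x, f x) / N := fun f => rfl
  set lam : V → ℝ := fun i => mu i / N with hlam
  set q : V → V → ℝ := fun i x => Real.sqrt N * e i x with hq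
  have hqq : ∀ i j x, q i x * q j x = N * (e i x * e j x) := by
    intro i j x
    simp only [hq]
    linear_combination e i x * e j x * hs
  have hcomp : ∀ x y, ∑ i, q i x * q i y = if x = y then N else 0 := by
    intro x y
    have h : ∀ i, q i x * q i y = N * (e i x * e i y) := by
      intro i
      simp only [hq]
      linear_combination e i x * e i y * hs
    rw [Finset.sum_congr rfl fun i _ => h i, ← Finset.mul_sum, h2 x y]
    split_ifs <;> ring
  have hW : ∀ i x, Wop G (q i) x = lam i * q i x := by
    intro i x
    have h := h3 i x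
    have h' : ∀ y, (G.neighborSet x).indicator (q i) y =
        Real.sqrt N * (G.neighborSet x).indicator (e i) y := by
      intro y
      by_cases hy : y ∈ G.neighborSet x
      · simp only [Set.indicator_of_mem hy, hq]
      · simp only [Set.indicator_of_notMem hy, mul_zero]
    rw [wop_eq, Finset.sum_congr rfl fun y _ => h' y, ← Finset.mul_sum, h]
    simp only [hlam, hq]
    ring
  have hexp : ∀ (f : V → ℝ) (y : V), f y = ∑ i, av (fun x => f x * q i x) * q i y := by
    intro f y
    have h : ∀ i, av (fun x => f x * q i x) * q i y = (∑ x, f x * (q i x * q i y)) / N := by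
      intro i
      rw [hav, div_mul_eq_mul_div, Finset.sum_mul]
      congr 1
      exact Finset.sum_congr rfl fun x _ => by ring
    rw [Finset.sum_congr rfl fun i _ => h i, ← Finset.sum_div, Finset.sum_comm]
    have h' : ∀ x, ∑ i, f x * (q i x * q i y) = if x = y then f x * N else 0 := by
      intro x
      rw [← Finset.mul_sum, hcomp x y]
      split_ifs <;> ring
    rw [Finset.sum_congr rfl fun x _ => h' x, Finset.sum_ite_eq' Finset.univ y,
      if_pos (Finset.mem_univ y)]
    field_simp
  refine ⟨lam, q, ?_, ?_, hW, ?_, ?_, ?_⟩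
  · intro i
    have h : ∀ x, q i x ^ 2 = N * (e i x * e i x) := fun x => by rw [← hqq]; ring
    rw [hav, Finset.sum_congr rfl fun x _ => h x, ← Finset.mul_sum, h1 i i, if_pos rfl]
    field_simp
  · intro i j hij
    rw [hav, Finset.sum_congr rfl fun x _ => hqq i j x, ← Finset.mul_sum, h1 i j, if_neg hij]
    simp
  · intro k x
    have key : ∀ k : ℕ, (Wop G)^[k] (Set.indicator {x} fun _ => N) =
        fun y => ∑ i, (lam i ^ k * q i x) * q i y := by
      intro k
      induction k with
      | zero =>
        funext y
        have h : ∀ i, (lam i ^ 0 * q i x) * q i y = q i x * q i y := fun i => by ring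
        rw [Function.iterate_zero, id_eq, Finset.sum_congr rfl fun i _ => h i, hcomp x y]
        by_cases hy : x = y
        · rw [if_pos hy, Set.indicator_of_mem (show y ∈ ({x} : Set V) from hy.symm)]
        · rw [if_neg hy, Set.indicator_of_notMem (show y ∉ ({x} : Set V) from
            fun h => hy (Set.mem_singleton_iff.1 h).symm)]
      | succ k ih =>
        rw [Function.iterate_succ_apply', ih]
        funext y
        rw [wop_sum]
        refine Finset.sum_congr rfl fun i _ => ?_
        rw [hW]
        ring
    have h := congrFun (key k) x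
    rw [hh, ← hNdef, h]
    exact Finset.sum_congr rfl fun i _ => by ring
  · intro f
    have h : ∀ x, f x ^ 2 = ∑ i, av (fun y => f y * q i y) * (f x * q i x) := by
      intro x
      have h0 := hexp f x
      calc f x ^ 2 = f x * f x := by ring
        _ = f x * ∑ i, av (fun y => f y * q i y) * q i x := by rw [← h0]
        _ = _ := by
          rw [Finset.mul_sum]
          exact Finset.sum_congr rfl fun i _ => by ring
    rw [hav, Finset.sum_congr rfl fun x _ => h x, Finset.sum_comm, Finset.sum_div]
    refine Finset.sum_congr rfl fun i _ => ?_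
    rw [← Finset.mul_sum, mul_div_assoc, ← hav, sq]
  · intro f
    have hWf : ∀ x, Wop G f x = ∑ i, av (fun y => f y * q i y) * (lam i * q i x) := by
      intro x
      have h0 : f = fun y => ∑ i, av (fun x => f x * q i x) * q i y := funext (hexp f)
      have h5 : Wop G f x = Wop G (fun y => ∑ i, av (fun x => f x * q i x) * q i y) x :=
        congrArg (fun g => Wop G g x) h0
      rw [h5, wop_sum]
      exact Finset.sum_congr rfl fun i _ => by rw [hW]
    have h : ∀ x, f x * Wop G f x =
        ∑ i, (lam i * av (fun y => f y * q i y)) * (f x * q i x) := by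
      intro x
      rw [hWf, Finset.mul_sum]
      exact Finset.sum_congr rfl fun i _ => by ring
    rw [hav, Finset.sum_congr rfl fun x _ => h x, Finset.sum_comm, Finset.sum_div]
    refine Finset.sum_congr rfl fun i _ => ?_
    rw [← Finset.mul_sum, mul_div_assoc, ← hav, sq]
    ring

end Pool.Agent.OCX
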