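import Pool.Agent.OCX.Stmts
import Pool.Agent.OCX.Lib

set_option autoImplicit false

/-!
# OCX, module SPB: from balanced closed walk counts to the amplitude system
-/

open scoped BigOperators

namespace Pool.Agent.OCX

namespace SPB_

theorem ev1 (m : ℕ) (c : ℝ) (hc : 0 < c) :
    ∀ᶠ k : ℕ in Filter.atTop, (1 / 8 : ℝ) ^ k ≤ c * (1 / (k : ℝ)) ^ m := by
  have h := tendsto_pow_const_mul_const_pow_of_abs_lt_one m
    (show |(1 / 8 : ℝ)| < 1 by rw [abs_of_pos (by norm_num)]; norm_num)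
  have h1 := h.eventually (gt_mem_nhds hc)
  filter_upwards [h1, Filter.eventually_ge_atTop 1] with k hk hk1
  have hk0 : (0 : ℝ) < k := by exact_mod_cast hk1
  have h2 : (0 : ℝ) < (k : ℝ) ^ m := pow_pos hk0 m
  have h3 : c * (1 / (k : ℝ)) ^ m = c / (k : ℝ) ^ m := by
    rw [one_div, inv_pow, div_eq_mul_inv]
  rw [h3, le_div_iff₀ h2, mul_comm]
  exact hk.le

theorem tend_log (C : ℝ) (n : ℕ) :
    Filter.Tendsto (fun k : ℕ => C * Real.log (k : ℝ) ^ n / (k : ℝ)) Filter.atTop (nhds 0) := by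
  have h1 : Filter.Tendsto (fun x : ℝ => Real.log x ^ n / x) Filter.atTop (nhds 0) :=
    Real.isLittleO_pow_log_id_atTop.tendsto_div_nhds_zero
  have h2 := (h1.comp tendsto_natCast_atTop_atTop).const_mul C
  rw [mul_zero] at h2
  refine h2.congr ?_
  intro k
  simp only [Function.comp]
  ring

theorem ev2 (C c : ℝ) (hc : 0 < c) :
    ∀ᶠ k : ℕ in Filter.atTop, C * Real.log (k : ℝ) / (k : ℝ) ≤ c := by
  have h := (tend_log C 1).eventually (gt_mem_nhds hc)
  filter_upwards [h] with k hk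
  rw [pow_one] at hk
  exact hk.le

theorem ev3 (C c : ℝ) (hc : 0 < c) :
    ∀ᶠ k : ℕ in Filter.atTop, (C * Real.log (k : ℝ) / (k : ℝ)) ^ 9 * (k : ℝ) ^ 8 ≤ c := by
  have h := (tend_log (C ^ 9) 9).eventually (gt_mem_nhds hc)
  filter_upwards [h, Filter.eventually_ge_atTop 1] with k hk hk1
  have hk0 : (0 : ℝ) < k := by exact_mod_cast hk1
  have h2 : (C * Real.log (k : ℝ) / (k : ℝ)) ^ 9 * (k : ℝ) ^ 8
      = C ^ 9 * Real.log (k : ℝ) ^ 9 / (k : ℝ) := by
    field_simp
  rw [h2]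
  exact hk.le

theorem one_le_log {k : ℕ} (hk : 4 ≤ k) : 1 ≤ Real.log (k : ℝ) := by
  have h1 : Real.exp 1 ≤ k := by
    have h2 := Real.exp_one_lt_d9
    have h3 : (4 : ℝ) ≤ k := by exact_mod_cast hk
    linarith
  have h4 := Real.log_le_log (Real.exp_pos 1) h1
  rwa [Real.log_exp] at h4

/-- the constant part of `lowb` -/
noncomputable def Lc (t k : ℕ) : ℝ := 4 ^ (t + 1) * (1 / (k : ℝ)) ^ (2 * t + 1) * Real.exp (-(2 * t + 2))

theorem lowb_eq (t k : ℕ) : lowb t k = (1 / 2) ^ k * Lc t k := by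
  unfold lowb Lc
  ring

theorem Lc_pos (t : ℕ) {k : ℕ} (hk : 4 ≤ k) : 0 < Lc t k := by
  have hk0 : (0 : ℝ) < k := by exact_mod_cast (by omega : 0 < k)
  unfold Lc
  positivity

theorem eta_bd (t : ℕ) {k : ℕ} (hk : 4 ≤ k) {lam : ℝ} (h0 : 0 ≤ lam)
    (h : lowb t k ≤ lam ^ (k - 2)) : 1 / 2 - lam ≤ (4 * t + 3) * Real.log k / k := by
  have hk0 : (0 : ℝ) < k := by exact_mod_cast (by omega : 0 < k)
  have hk4 : (4 : ℝ) ≤ k := by exact_mod_cast hk
  have hlog := one_le_log hk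
  have hcast : ((k - 2 : ℕ) : ℝ) = (k : ℝ) - 2 := by
    rw [Nat.cast_sub (by omega)]
    norm_num
  -- L / 4 ≤ (2 lam) ^ (k - 2)
  have h1 : Lc t k / 4 ≤ (2 * lam) ^ (k - 2) := by
    have h2 : (2 : ℝ) ^ (k - 2) * lowb t k = Lc t k / 4 := by
      rw [lowb_eq]
      have h3 : (2 : ℝ) ^ (k - 2) * (1 / 2) ^ k = 1 / 4 := by
        have h4 : (1 / 2 : ℝ) ^ k = (1 / 2) ^ (k - 2) * (1 / 2) ^ 2 := by
          rw [← pow_add]
          congr 1
          omega
        rw [h4, ← mul_assoc, ← mul_pow]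
        norm_num
      rw [← mul_assoc, h3]
      ring
    rw [← h2, mul_pow]
    exact mul_le_mul_of_nonneg_left h (by positivity)
  have h2 : (2 * lam) ^ (k - 2) ≤ Real.exp (-(2 * (1 / 2 - lam)) * (k - 2)) := by
    have h3 : 2 * lam ≤ Real.exp (-(2 * (1 / 2 - lam))) := by
      have h4 := Real.add_one_le_exp (-(2 * (1 / 2 - lam)))
      linarith
    calc (2 * lam) ^ (k - 2) ≤ Real.exp (-(2 * (1 / 2 - lam))) ^ (k - 2) :=
          pow_le_pow_left₀ (by positivity) h3 _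
      _ = Real.exp (-(2 * (1 / 2 - lam)) * (k - 2)) := by
          rw [← Real.exp_nat_mul, hcast]
          congr 1
          ring
  have h3 : Real.exp (-((2 * t + 1) * Real.log k) - (2 * t + 2)) ≤ Lc t k / 4 := by
    have h4 : Real.exp (-((2 * t + 1) * Real.log k) - (2 * t + 2))
        = (1 / (k : ℝ)) ^ (2 * t + 1) * Real.exp (-(2 * t + 2)) := by
      rw [sub_eq_add_neg, Real.exp_add]
      congr 1
      rw [one_div, inv_pow, Real.exp_neg]
      congr 1
      have h5 : ((2 * t + 1 : ℕ) : ℝ) * Real.log k = Real.log ((k : ℝ) ^ (2 * t + 1)) := by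
        rw [Real.log_pow]
      have h6 : ((2 : ℝ) * t + 1) * Real.log k = Real.log ((k : ℝ) ^ (2 * t + 1)) := by
        rw [← h5]
        push_cast
        ring
      rw [h6, Real.exp_log (by positivity)]
    rw [h4]
    unfold Lc
    have h5 : (1 : ℝ) ≤ 4 ^ t := one_le_pow₀ (by norm_num)
    have h6 : 0 ≤ (1 / (k : ℝ)) ^ (2 * t + 1) * Real.exp (-(2 * t + 2)) := by positivity
    calc (1 / (k : ℝ)) ^ (2 * t + 1) * Real.exp (-(2 * t + 2))
        ≤ 4 ^ t * ((1 / (k : ℝ)) ^ (2 * t + 1) * Real.exp (-(2 * t + 2))) :=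
          le_mul_of_one_le_left h6 h5
      _ = 4 ^ (t + 1) * (1 / (k : ℝ)) ^ (2 * t + 1) * Real.exp (-(2 * t + 2)) / 4 := by
          rw [pow_succ]
          ring
  have h4 := Real.exp_le_exp.mp (h3.trans (h1.trans h2))
  -- 2 eta (k - 2) ≤ (4 t + 3) log k
  rw [le_div_iff₀ hk0]
  by_cases he : 1 / 2 - lam ≤ 0
  · have h5 : (1 / 2 - lam) * k ≤ 0 := mul_nonpos_of_nonpos_of_nonneg he hk0.le
    have h6 : (0 : ℝ) ≤ (4 * t + 3) * Real.log k := by positivity
    linarith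
  · push Not at he
    have h5 : (1 / 2 - lam) * k ≤ 2 * (1 / 2 - lam) * (k - 2) := by nlinarith
    have h6 : (2 * (t : ℝ) + 2) ≤ (2 * t + 2) * Real.log k := by
      have : (0 : ℝ) ≤ 2 * t + 2 := by positivity
      nlinarith
    nlinarith

theorem dsm_bd {k : ℕ} {lam mu X : ℝ} (hl : 49 / 100 ≤ lam) (hl2 : lam ≤ 1 / 2)
    (hm : 0 < mu) (hml : mu ≤ lam)
    (h3 : lam ^ 3 - mu ^ 3 ≤ 6 * (1 / 2 - lam) * Real.sqrt (6 * (1 / 2 - lam)))
    (hX : 1 / 2 - lam ≤ X) (hXk : X ^ 9 * (k : ℝ) ^ 8 ≤ 1 / 15606 ^ 3) :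
    (1 - (mu / lam) ^ k) ^ 3 * k ≤ 1 := by
  have hl0 : 0 < lam := by linarith
  set e := 1 / 2 - lam with he
  have he0 : 0 ≤ e := by linarith
  set s := Real.sqrt (6 * e) with hs
  have hs0 : 0 ≤ s := Real.sqrt_nonneg _
  have hs2 : s ^ 2 = 6 * e := Real.sq_sqrt (by positivity)
  set d := 1 - (mu / lam) ^ k with hd
  have hd0 : 0 ≤ d := by
    have h1 : (mu / lam) ^ k ≤ 1 := pow_le_one₀ (by positivity) ((div_le_one hl0).mpr hml)
    linarith
  have hb : d ≤ k * (1 - mu / lam) := by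
    have h1 : (-2 : ℝ) ≤ mu / lam - 1 := by
      have : 0 < mu / lam := by positivity
      linarith
    have h2 := one_add_mul_le_pow h1 k
    have h4 : 1 + (mu / lam - 1) = mu / lam := by ring
    rw [h4] at h2
    rw [hd]
    linarith
  have hc : 1 - mu / lam ≤ 51 * (e * s) := by
    have h1 : (1 - mu / lam) * lam ^ 3 ≤ 6 * (e * s) := by
      have h2 : (1 - mu / lam) * lam ^ 3 = (lam - mu) * lam ^ 2 := by
        field_simp
      rw [h2]
      have h4 : (lam - mu) * lam ^ 2 ≤ lam ^ 3 - mu ^ 3 := by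
        have h5 : lam ^ 3 - mu ^ 3 = (lam - mu) * (lam ^ 2 + lam * mu + mu ^ 2) := by ring
        rw [h5]
        apply mul_le_mul_of_nonneg_left _ (by linarith)
        have : 0 ≤ lam * mu := by positivity
        have : 0 ≤ mu ^ 2 := by positivity
        linarith
      linarith
    have h2 : (49 / 100 : ℝ) ^ 3 ≤ lam ^ 3 := pow_le_pow_left₀ (by norm_num) hl 3
    have h4 : 0 ≤ 1 - mu / lam := by
      have := (div_le_one hl0).mpr hml
      linarith
    have h5 : (1 - mu / lam) * (49 / 100) ^ 3 ≤ (1 - mu / lam) * lam ^ 3 :=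
      mul_le_mul_of_nonneg_left h2 h4
    have h6 : 0 ≤ e * s := by positivity
    norm_num at h5
    nlinarith
  have hk0 : (0 : ℝ) ≤ k := Nat.cast_nonneg k
  have hdD : d ≤ 51 * k * (e * s) := by
    calc d ≤ k * (1 - mu / lam) := hb
      _ ≤ k * (51 * (e * s)) := mul_le_mul_of_nonneg_left hc hk0
      _ = 51 * k * (e * s) := by ring
  have hd2 : d ^ 2 ≤ 15606 * k ^ 2 * e ^ 3 := by
    calc d ^ 2 ≤ (51 * k * (e * s)) ^ 2 := pow_le_pow_left₀ hd0 hdD 2
      _ = 2601 * k ^ 2 * e ^ 2 * s ^ 2 := by ring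
      _ = 15606 * k ^ 2 * e ^ 3 := by rw [hs2]; ring
  have hd6 : (d ^ 3 * k) ^ 2 ≤ 1 := by
    calc (d ^ 3 * k) ^ 2 = (d ^ 2) ^ 3 * k ^ 2 := by ring
      _ ≤ (15606 * k ^ 2 * e ^ 3) ^ 3 * k ^ 2 := by
          apply mul_le_mul_of_nonneg_right _ (by positivity)
          exact pow_le_pow_left₀ (by positivity) hd2 3
      _ = 15606 ^ 3 * (e ^ 9 * k ^ 8) := by ring
      _ ≤ 15606 ^ 3 * (X ^ 9 * k ^ 8) := by
          apply mul_le_mul_of_nonneg_left _ (by positivity)
          apply mul_le_mul_of_nonneg_right _ (by positivity)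
          exact pow_le_pow_left₀ he0 hX 9
      _ ≤ 15606 ^ 3 * (1 / 15606 ^ 3) := mul_le_mul_of_nonneg_left hXk (by positivity)
      _ = 1 := by norm_num
  by_contra hcon
  push Not at hcon
  nlinarith

section

variable {V : Type} [Fintype V] [Nonempty V]

theorem main (h1 : Stmt_SPC) (t : ℕ) {ξ : ℝ} (hξ : 0 < ξ) (hξ2 : ξ ≤ 1 / 2) {k : ℕ} (hk : 4 ≤ k)
    (hodd : Odd k) (ha : (1 / 8 : ℝ) ^ k ≤ 1 / 4096 * (1 / (k : ℝ)) ^ (10 * t + 20))
    (hb : (1 / 8 : ℝ) ^ k ≤ ξ / 4096 * Lc t k)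
    (hc : (4 * (t : ℝ) + 3) * Real.log (k : ℝ) / (k : ℝ) ≤ 1 / 6144)
    (hd : ((4 * (t : ℝ) + 3) * Real.log (k : ℝ) / (k : ℝ)) ^ 9 * (k : ℝ) ^ 8 ≤ 1 / 15606 ^ 3)
    {ε : ℝ} (hε0 : 0 < ε) (hε1 : ε ≤ (1 / 4) ^ k * ((1 / (k : ℝ)) ^ (10 * t + 20) / 2))
    (hε2 : ε ≤ (1 / 2) ^ k * (ξ / 4 * Lc t k))
    (G : SimpleGraph V) (hG : OddG t G) (hbal : ∀ x, |hh G k x - av (hh G k)| ≤ ε)
    (hlow : lowb t k * (1 - ξ / 2) - ε ≤ av (hh G k)) :
    ∃ (ν γ δ : ℝ) (u v : V → ℝ), Sys t k ξ G ν γ δ u v := by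
  obtain ⟨lam, hl0, hl2, hl3, hl4⟩ := h1 V G t hG
  have hk0 : (0 : ℝ) < k := by exact_mod_cast (by omega : 0 < k)
  have hL := Lc_pos t hk
  have hlb : lowb t k = (1 / 2) ^ k * Lc t k := lowb_eq t k
  have h2k : (0 : ℝ) < (1 / 2) ^ k := by positivity
  have hlb0 : 0 < lowb t k := by rw [hlb]; positivity
  have hεl : ε ≤ ξ / 4 * lowb t k := by
    rw [hlb]
    linarith [hε2]
  -- the eigenvalue
  have hlow2 : lowb t k ≤ lam ^ (k - 2) := by
    have h3 := hl3 k hodd (by omega)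
    have h5 : ξ * lowb t k ≤ 1 / 2 * lowb t k := mul_le_mul_of_nonneg_right hξ2 hlb0.le
    nlinarith
  have heta := eta_bd t hk hl0 hlow2
  have heta2 : 1 / 2 - lam ≤ 1 / 6144 := heta.trans hc
  obtain ⟨mu, φ, ψ, hm0, hml, -, hcub, hφ, hψ, hφ0, hφ2, hψ2, hφψ, hsp⟩ := hl4 (by linarith)
  have hlam : 49 / 100 ≤ lam := by linarith
  have hlp : 0 < lam := by linarith
  set s := Real.sqrt (6 * (1 / 2 - lam)) with hs
  have hs0 : 0 ≤ s := Real.sqrt_nonneg _
  have hs1 : s ≤ 1 / 32 := by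
    rw [hs]
    apply Real.sqrt_le_iff.mpr
    constructor
    · norm_num
    · norm_num
      linarith
  have hmneg : (-mu) ^ k = -mu ^ k := hodd.neg_pow mu
  have hlk : 0 < lam ^ k := pow_pos hlp k
  -- powers of s
  have hsk : s ^ (k - 2) ≤ 1024 * (1 / 32) ^ k := by
    have h3 : s ^ (k - 2) ≤ (1 / 32) ^ (k - 2) := pow_le_pow_left₀ hs0 hs1 _
    have h4 : (1 / 32 : ℝ) ^ k = (1 / 32) ^ (k - 2) * (1 / 32) ^ 2 := by
      rw [← pow_add]
      congr 1
      omega
    rw [h4]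
    nlinarith
  -- the average
  have hav : |av (hh G k) - (lam ^ k - mu ^ k)| ≤ s ^ (k - 2) := by
    have h3 : av (fun x => hh G k x - (lam ^ k * φ x ^ 2 + (-mu) ^ k * ψ x ^ 2))
        = av (hh G k) - (lam ^ k - mu ^ k) := by
      rw [av_sub, av_add, av_mul_left, av_mul_left, hφ2, hψ2, hmneg]
      ring
    rw [← h3]
    refine (abs_av_le _).trans ?_
    refine (av_mono (fun x => hsp k x (by omega))).trans ?_
    rw [av_const]
  set δ := 1 - (mu / lam) ^ k with hδ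
  have hδl : δ * lam ^ k = lam ^ k - mu ^ k := by
    rw [hδ, div_pow]
    field_simp
  refine ⟨(lam + mu) / 2, (lam - mu) / 2, δ, fun x => (φ x + ψ x) / 2,
    fun x => (φ x - ψ x) / 2, ?_⟩
  have hWu : ∀ x, Wop G (fun x => (φ x + ψ x) / 2) x = (lam * φ x + -mu * ψ x) / 2 := by
    intro x
    have h3 : (fun x => (φ x + ψ x) / 2) = fun x => (φ x + ψ x) * (1 / 2) := by
      funext x
      ring
    have h4 := hφ x
    have h5 := hψ x
    unfold Wop at h4 h5 ⊢
    rw [h3, avS_mul_right, avS_add, h4, h5]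
    ring
  have hWv : ∀ x, Wop G (fun x => (φ x - ψ x) / 2) x = (lam * φ x - -mu * ψ x) / 2 := by
    intro x
    have h3 : (fun x => (φ x - ψ x) / 2) = fun x => (φ x - ψ x) * (1 / 2) := by
      funext x
      ring
    have h4 := hφ x
    have h5 := hψ x
    unfold Wop at h4 h5 ⊢
    rw [h3, avS_mul_right, avS_sub, h4, h5]
    ring
  exact
    { ne := inferInstance
      xi := hξ.le
      og := hG
      hu := by
        intro x
        rw [hWu]
        ring
      hv := by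
        intro x
        rw [hWv]
        ring
      kkt := by
        intro x
        have h3 : 4 * ((φ x + ψ x) / 2) * ((φ x - ψ x) / 2)
            - δ * (1 - ((φ x + ψ x) / 2 - (φ x - ψ x) / 2) ^ 2)
            = φ x ^ 2 - (1 - δ) * ψ x ^ 2 - δ := by ring
        have h4 : (φ x ^ 2 - (1 - δ) * ψ x ^ 2 - δ) * lam ^ k
            = (lam ^ k * φ x ^ 2 + (-mu) ^ k * ψ x ^ 2) - (lam ^ k - mu ^ k) := by
          rw [hmneg]
          have h5 : (1 - δ) * lam ^ k = mu ^ k := by linarith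
          calc (φ x ^ 2 - (1 - δ) * ψ x ^ 2 - δ) * lam ^ k
              = lam ^ k * φ x ^ 2 - ((1 - δ) * lam ^ k) * ψ x ^ 2 - δ * lam ^ k := by ring
            _ = _ := by rw [h5, hδl]; ring
        have h5 : |(φ x ^ 2 - (1 - δ) * ψ x ^ 2 - δ) * lam ^ k| ≤ ε + 2 * s ^ (k - 2) := by
          rw [h4]
          have h6 := hsp k x (by omega)
          have h7 := hbal x
          rw [abs_le] at h6 h7 hav ⊢
          constructor <;> linarith [h6.1, h6.2, h7.1, h7.2, hav.1, hav.2]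
        rw [h3]
        rw [abs_mul, abs_of_pos hlk] at h5
        have h6 : (1 / 4 : ℝ) ^ k ≤ lam ^ k := pow_le_pow_left₀ (by norm_num) (by linarith) k
        have h7 : ε + 2 * s ^ (k - 2) ≤ (1 / 4) ^ k * (1 / (k : ℝ)) ^ (10 * t + 20) := by
          have h8 : (1 / 32 : ℝ) ^ k = (1 / 4) ^ k * (1 / 8) ^ k := by
            rw [← mul_pow]
            norm_num
          have h9 : (1 / 4 : ℝ) ^ k * (1 / 8) ^ k ≤
              (1 / 4) ^ k * (1 / 4096 * (1 / (k : ℝ)) ^ (10 * t + 20)) :=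
            mul_le_mul_of_nonneg_left ha (by positivity)
          rw [h8] at hsk
          linarith
        have h8 : (1 / 4 : ℝ) ^ k * (1 / (k : ℝ)) ^ (10 * t + 20)
            ≤ lam ^ k * (1 / (k : ℝ)) ^ (10 * t + 20) :=
          mul_le_mul_of_nonneg_right h6 (by positivity)
        have h9 : |φ x ^ 2 - (1 - δ) * ψ x ^ 2 - δ| * lam ^ k
            ≤ (1 / (k : ℝ)) ^ (10 * t + 20) * lam ^ k := by linarith
        exact le_of_mul_le_mul_right h9 hlk
      u2 := by
        have h3 : (fun x => ((φ x + ψ x) / 2) ^ 2)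
            = fun x => 1 / 4 * (φ x ^ 2 + ψ x ^ 2) + 1 / 2 * (φ x * ψ x) := by
          funext x
          ring
        rw [h3, av_add, av_mul_left, av_mul_left, av_add, hφ2, hψ2, hφψ]
        norm_num
      v2 := by
        have h3 : (fun x => ((φ x - ψ x) / 2) ^ 2)
            = fun x => 1 / 4 * (φ x ^ 2 + ψ x ^ 2) - 1 / 2 * (φ x * ψ x) := by
          funext x
          ring
        rw [h3, av_sub, av_mul_left, av_mul_left, av_add, hφ2, hψ2, hφψ]
        norm_num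
      uv := by
        have h3 : (fun x => ((φ x + ψ x) / 2) * ((φ x - ψ x) / 2))
            = fun x => 1 / 4 * (φ x ^ 2 - ψ x ^ 2) := by
          funext x
          ring
        rw [h3, av_mul_left, av_sub, hφ2, hψ2]
        norm_num
      pos := by
        intro x
        have h3 : (φ x + ψ x) / 2 + (φ x - ψ x) / 2 = φ x := by ring
        rw [h3]
        exact hφ0 x
      g0 := by linarith
      gn := by linarith
      l2 := by linarith
      del := by
        have h3 : (lam + mu) / 2 - (lam - mu) / 2 = mu := by ring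
        have h4 : (lam + mu) / 2 + (lam - mu) / 2 = lam := by ring
        rw [h3, h4]
      dsm := dsm_bd hlam hl2 hm0 hml hcub heta hd
      ext := by
        have h4 : (lam + mu) / 2 + (lam - mu) / 2 = lam := by ring
        rw [h4]
        -- lower bound of `δ lam ^ k`
        have h5 : lowb t k * (1 - ξ) ≤ δ * lam ^ k := by
          rw [hδl]
          have h6 : s ^ (k - 2) ≤ ξ / 4 * lowb t k := by
            have h7 : (1 / 32 : ℝ) ^ k ≤ (1 / 2) ^ k * (1 / 8) ^ k := by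
              rw [← mul_pow]
              exact pow_le_pow_left₀ (by norm_num) (by norm_num) k
            have h8 : (1 / 2 : ℝ) ^ k * (1 / 8) ^ k ≤ (1 / 2) ^ k * (ξ / 4096 * Lc t k) :=
              mul_le_mul_of_nonneg_left hb h2k.le
            rw [hlb]
            linarith
          rw [abs_le] at hav
          linarith [hav.1, hav.2]
        have h6 : Real.exp (2 * k * (1 / 2 - lam)) * lam ^ k ≤ (1 / 2) ^ k := by
          have h7 : 2 * lam ≤ Real.exp (-(2 * (1 / 2 - lam))) := by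
            have h8 := Real.add_one_le_exp (-(2 * (1 / 2 - lam)))
            linarith
          have h8 : (2 * lam) ^ k ≤ Real.exp (-(2 * (1 / 2 - lam))) ^ k :=
            pow_le_pow_left₀ (by positivity) h7 k
          have h9 : Real.exp (2 * k * (1 / 2 - lam)) * Real.exp (-(2 * (1 / 2 - lam))) ^ k = 1 := by
            rw [← Real.exp_nat_mul, ← Real.exp_add]
            have : 2 * (k : ℝ) * (1 / 2 - lam) + (k : ℝ) * -(2 * (1 / 2 - lam)) = 0 := by ring
            rw [this, Real.exp_zero]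
          have h10 : Real.exp (2 * k * (1 / 2 - lam)) * (2 * lam) ^ k ≤ 1 :=
            (mul_le_mul_of_nonneg_left h8 (Real.exp_pos _).le).trans h9.le
          have h11 : lam ^ k = (1 / 2) ^ k * (2 * lam) ^ k := by
            rw [← mul_pow]
            congr 1
            ring
          calc Real.exp (2 * k * (1 / 2 - lam)) * lam ^ k
              = (1 / 2) ^ k * (Real.exp (2 * k * (1 / 2 - lam)) * (2 * lam) ^ k) := by
                rw [h11]; ring
            _ ≤ (1 / 2) ^ k * 1 := mul_le_mul_of_nonneg_left h10 h2k.le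
            _ = (1 / 2) ^ k := mul_one _
        have h7 : 4 ^ (t + 1) * (1 / (k : ℝ)) ^ (2 * t + 1) *
            Real.exp (-(2 * t + 2) + 2 * k * (1 / 2 - lam)) * (1 - ξ)
            = Lc t k * (1 - ξ) * Real.exp (2 * k * (1 / 2 - lam)) := by
          rw [Real.exp_add]
          unfold Lc
          ring
        rw [h7]
        have h8 : 0 ≤ Lc t k * (1 - ξ) := mul_nonneg hL.le (by linarith)
        have h9 : Lc t k * (1 - ξ) * Real.exp (2 * k * (1 / 2 - lam)) * lam ^ k ≤ δ * lam ^ k := by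
          calc Lc t k * (1 - ξ) * Real.exp (2 * k * (1 / 2 - lam)) * lam ^ k
              = Lc t k * (1 - ξ) * (Real.exp (2 * k * (1 / 2 - lam)) * lam ^ k) := by ring
            _ ≤ Lc t k * (1 - ξ) * (1 / 2) ^ k := mul_le_mul_of_nonneg_left h6 h8
            _ = lowb t k * (1 - ξ) := by rw [hlb]; ring
            _ ≤ δ * lam ^ k := h5
        exact le_of_mul_le_mul_right h9 hlk }

end

end SPB_

theorem spb_proof (h1 : Stmt_SPC) : Stmt_SPB := by
  intro t ξ hξ hξ2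
  have e1 := SPB_.ev1 (10 * t + 20) (1 / 4096) (by norm_num)
  have e2 := SPB_.ev1 (2 * t + 1) (ξ / 4096 * (4 ^ (t + 1) * Real.exp (-(2 * t + 2))))
    (by positivity)
  have e3 := SPB_.ev2 (4 * (t : ℝ) + 3) (1 / 6144) (by norm_num)
  have e4 := SPB_.ev3 (4 * (t : ℝ) + 3) (1 / 15606 ^ 3) (by norm_num)
  obtain ⟨k0, hk0⟩ := Filter.eventually_atTop.mp
    (e1.and (e2.and (e3.and (e4.and (Filter.eventually_ge_atTop 4)))))
  refine ⟨k0, ?_⟩
  intro k hk hodd
  obtain ⟨a1, a2, a3, a4, a5⟩ := hk0 k hk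
  have hkp : (0 : ℝ) < k := by exact_mod_cast (by omega : 0 < k)
  have hL := SPB_.Lc_pos t a5
  refine ⟨min ((1 / 4) ^ k * ((1 / (k : ℝ)) ^ (10 * t + 20) / 2)) ((1 / 2) ^ k * (ξ / 4 * SPB_.Lc t k)),
    lt_min (by positivity) (by positivity), ?_⟩
  intro V _ _ G hG hbal hlow
  refine SPB_.main h1 t hξ hξ2 a5 hodd a1 ?_ a3 a4 (lt_min (by positivity) (by positivity))
    (min_le_left _ _) (min_le_right _ _) G hG hbal hlow
  refine a2.trans (le_of_eq ?_)
  unfold SPB_.Lc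
  ring

end Pool.Agent.OCX
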