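import Pool.Agent.OCX.Stmts
import Pool.Agent.OCX.Lib

open scoped BigOperators

namespace Pool.Agent.OCX

namespace SPC_

theorem av_sum {V : Type} [Fintype V] {ι : Type} (s : Finset ι) (F : ι → V → ℝ) :
    av (fun x => ∑ i ∈ s, F i x) = ∑ i ∈ s, av (F i) := by
  unfold av
  rw [Finset.sum_comm, Finset.sum_div]

theorem abs_form {V : Type} [Fintype V] (G : SimpleGraph V) (q : V → ℝ) :
    |av (fun x => q x * Wop G q x)| ≤ av (fun x => |q x| * Wop G (fun y => |q y|) x) := by
  refine (abs_av_le _).trans (av_mono fun x => ?_)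
  rw [abs_mul]
  exact mul_le_mul_of_nonneg_left (abs_avS_le _ _) (abs_nonneg _)

theorem eq_zero_of_av_sq {V : Type} [Fintype V] [Nonempty V] {f : V → ℝ}
    (h : av (fun x => f x ^ 2) = 0) (x : V) : f x = 0 := by
  have hc : (Fintype.card V : ℝ) ≠ 0 := Nat.cast_ne_zero.2 Fintype.card_ne_zero
  unfold av at h
  rw [div_eq_zero_iff] at h
  rcases h with h | h
  · rw [Finset.sum_eq_zero_iff_of_nonneg fun y _ => sq_nonneg _] at h
    exact pow_eq_zero_iff (two_ne_zero) |>.1 (h x (Finset.mem_univ _))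
  · exact absurd h hc

end SPC_

open SPC_

theorem spc_proof (h1 : Stmt_SPA) (h2 : Stmt_SPT) : Stmt_SPC := by
  classical
  intro V _ _ G t hG
  obtain ⟨lam, q, q1, q2, qW, qh, qP, qF⟩ := h1 V G
  obtain ⟨t1, t0, t2, t3⟩ := h2 V G t hG
  have havk : ∀ k, av (hh G k) = ∑ i, lam i ^ k := by
    intro k
    have : hh G k = fun x => ∑ i, lam i ^ k * q i x ^ 2 := funext fun x => qh k x
    rw [this, av_sum]
    refine Finset.sum_congr rfl fun i _ => ?_
    rw [av_mul_left, q1 i, mul_one]
  have S2 : ∑ i, lam i ^ 2 ≤ 1 / 2 := by rw [← havk]; exact t2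
  have S3 : ∑ i, lam i ^ 3 = 0 := by rw [← havk]; exact t3
  obtain ⟨i0, hi0⟩ := Finite.exists_max lam
  obtain ⟨i1, hi1⟩ := Finite.exists_min lam
  have one0 : lam i0 ^ 2 ≤ ∑ i, lam i ^ 2 :=
    Finset.single_le_sum (f := fun i => lam i ^ 2) (fun i _ => sq_nonneg _) (Finset.mem_univ i0)
  have one1 : lam i1 ^ 2 ≤ ∑ i, lam i ^ 2 :=
    Finset.single_le_sum (f := fun i => lam i ^ 2) (fun i _ => sq_nonneg _) (Finset.mem_univ i1)
  obtain ⟨L, hL⟩ : ∃ L, L = lam i0 := ⟨_, rfl⟩
  obtain ⟨m, hm⟩ : ∃ m, m = - lam i1 := ⟨_, rfl⟩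
  have cub0 : (0 : ℝ) ≤ L * ∑ i, lam i ^ 2 := by
    rw [← S3, Finset.mul_sum]
    refine Finset.sum_le_sum fun i _ => ?_
    have := hi0 i
    have h2' := sq_nonneg (lam i)
    rw [hL]
    nlinarith
  have hL0 : 0 ≤ L := by
    by_contra hneg
    have hneg : L < 0 := not_le.1 hneg
    have hp : 0 < lam i0 ^ 2 := by
      rw [← hL]
      have := hneg.ne
      positivity
    nlinarith
  have cub1 : -m * ∑ i, lam i ^ 2 ≤ 0 := by
    rw [← S3, Finset.mul_sum]
    refine Finset.sum_le_sum fun i _ => ?_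
    have := hi1 i
    have h2' := sq_nonneg (lam i)
    rw [hm]
    nlinarith
  have hm0 : 0 ≤ m := by
    by_contra hneg
    have hneg : m < 0 := not_le.1 hneg
    have hp : 0 < lam i1 ^ 2 := by
      have : lam i1 = -m := by rw [hm]; ring
      rw [this]
      have : -m ≠ 0 := by linarith
      positivity
    nlinarith
  have habs : ∀ i, |lam i| ≤ L := by
    intro i
    have e1 : av (fun x => q i x * Wop G (q i) x) = lam i := by
      have : (fun x => q i x * Wop G (q i) x) = fun x => lam i * q i x ^ 2 := by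
        funext x
        rw [qW]
        ring
      rw [this, av_mul_left, q1, mul_one]
    have e2 := abs_form G (q i)
    rw [e1] at e2
    refine e2.trans ?_
    rw [qF]
    have e3 := qP (fun x => |q i x|)
    have e4 : av (fun x => |q i x| ^ 2) = 1 := by
      simp only [sq_abs]
      exact q1 i
    rw [e4] at e3
    calc ∑ j, lam j * av (fun x => |q i x| * q j x) ^ 2
        ≤ ∑ j, L * av (fun x => |q i x| * q j x) ^ 2 :=
          Finset.sum_le_sum fun j _ =>
            mul_le_mul_of_nonneg_right (hL ▸ hi0 j) (sq_nonneg _)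
      _ = L := by rw [← Finset.mul_sum, ← e3, mul_one]
  have hmL : m ≤ L := by
    have := habs i1
    rw [hm]
    exact (neg_le_abs _).trans this
  have hL2 : L ^ 2 ≤ 1 / 2 := by rw [hL]; linarith
  have key : L ^ 3 ≤ m * (1 / 2 - L ^ 2) := by
    have e1 := Finset.add_sum_erase Finset.univ (fun i => lam i ^ 3) (Finset.mem_univ i0)
    have e2 := Finset.add_sum_erase Finset.univ (fun i => lam i ^ 2) (Finset.mem_univ i0)
    have e3 : -m * ∑ i ∈ Finset.univ.erase i0, lam i ^ 2 ≤
        ∑ i ∈ Finset.univ.erase i0, lam i ^ 3 := by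
      rw [Finset.mul_sum]
      refine Finset.sum_le_sum fun i _ => ?_
      have := hi1 i
      have h2' := sq_nonneg (lam i)
      rw [hm]
      nlinarith
    simp only [← hL] at e1 e2
    rw [S3] at e1
    have e4 : ∑ i ∈ Finset.univ.erase i0, lam i ^ 2 ≤ 1 / 2 - L ^ 2 := by linarith
    nlinarith
  have hLh : L ≤ 1 / 2 := by
    rcases hL0.eq_or_lt with h | h
    · rw [← h]; norm_num
    · have e1 : L ^ 3 ≤ L * (1 / 2 - L ^ 2) :=
        key.trans (mul_le_mul_of_nonneg_right hmL (by linarith))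
      have e2 : L ^ 2 ≤ 1 / 4 := by
        by_contra hc
        have hc : 1 / 4 < L ^ 2 := not_le.1 hc
        nlinarith
      nlinarith
  refine ⟨L, hL0, hLh, ?_, ?_⟩
  · intro k hk hk3
    rw [havk]
    have : ∀ i, lam i ^ k ≤ L ^ (k - 2) * lam i ^ 2 := by
      intro i
      have e1 : lam i ^ k = lam i ^ (k - 2) * lam i ^ 2 := by
        rw [← pow_add]
        congr 1
        omega
      rw [e1]
      refine mul_le_mul_of_nonneg_right ?_ (sq_nonneg _)
      calc lam i ^ (k - 2) ≤ |lam i ^ (k - 2)| := le_abs_self _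
        _ = |lam i| ^ (k - 2) := abs_pow _ _
        _ ≤ L ^ (k - 2) := pow_le_pow_left₀ (abs_nonneg _) (habs i) _
    calc ∑ i, lam i ^ k ≤ ∑ i, L ^ (k - 2) * lam i ^ 2 := Finset.sum_le_sum fun i _ => this i
      _ = L ^ (k - 2) * ∑ i, lam i ^ 2 := by rw [Finset.mul_sum]
      _ ≤ L ^ (k - 2) * (1 / 2) := mul_le_mul_of_nonneg_left S2 (pow_nonneg hL0 _)
      _ = L ^ (k - 2) / 2 := by ring
  · intro hη
    have hLb : 49 / 100 ≤ L := by linarith
    have hmb : 1 / 2 - 5 * (1 / 2 - L) ≤ m := by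
      have hp : 0 < 1 / 2 - L ^ 2 := by nlinarith
      have e : (1 / 2 - 5 * (1 / 2 - L)) * (1 / 2 - L ^ 2) ≤ m * (1 / 2 - L ^ 2) := by
        refine le_trans ?_ key
        have : L ^ 3 - (1 / 2 - 5 * (1 / 2 - L)) * (1 / 2 - L ^ 2) =
            (1 / 2 - L) ^ 2 * (7 - 6 * (1 / 2 - L)) := by ring
        have h3 : 0 ≤ (1 / 2 - L) ^ 2 * (7 - 6 * (1 / 2 - L)) :=
          mul_nonneg (sq_nonneg _) (by linarith)
        linarith
      exact le_of_mul_le_mul_right e hp
    have hmp : 0 < m := by linarith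
    have hne : i1 ≠ i0 := by
      intro h
      rw [h] at hm
      linarith
    have hmem : i1 ∈ Finset.univ.erase i0 := Finset.mem_erase.2 ⟨hne, Finset.mem_univ _⟩
    have l1 : lam i1 = -m := by rw [hm]; ring
    have split : ∀ F : V → ℝ, ∑ i, F i =
        F i0 + (F i1 + ∑ i ∈ (Finset.univ.erase i0).erase i1, F i) := by
      intro F
      rw [Finset.add_sum_erase _ _ hmem, Finset.add_sum_erase _ _ (Finset.mem_univ i0)]
    obtain ⟨O, hO⟩ : ∃ O, O = (Finset.univ.erase i0).erase i1 := ⟨_, rfl⟩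
    simp only [← hO] at split
    obtain ⟨η, hη'⟩ : ∃ η, η = 1 / 2 - L := ⟨_, rfl⟩
    have hη0 : 0 ≤ η := by linarith
    have oth : ∑ i ∈ O, lam i ^ 2 ≤ 6 * η := by
      have e := split fun i => lam i ^ 2
      simp only [← hL, l1] at e
      have e1 : 0 ≤ 1 / 2 - 5 * η := by rw [hη']; linarith
      have e2 : (1 / 2 - 5 * η) ^ 2 ≤ m ^ 2 := pow_le_pow_left₀ e1 (by rw [hη']; exact hmb) 2
      have e3 : L = 1 / 2 - η := by linarith
      rw [e3] at e
      nlinarith
    have othi : ∀ i ∈ O, |lam i| ≤ Real.sqrt (6 * η) := by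
      intro i hi
      refine Real.abs_le_sqrt ?_
      exact (Finset.single_le_sum (f := fun i => lam i ^ 2) (fun i _ => sq_nonneg _) hi).trans oth
    obtain ⟨s, hs⟩ : ∃ s, s = Real.sqrt (6 * η) := ⟨_, rfl⟩
    have hs0 : 0 ≤ s := by rw [hs]; exact Real.sqrt_nonneg _
    have hs2 : s ^ 2 = 6 * η := by rw [hs]; exact Real.sq_sqrt (by linarith)
    have hs4 : s ≤ 1 / 4 := by
      by_contra hc
      have hc : 1 / 4 < s := not_le.1 hc
      have : η ≤ 1 / 100 := by rw [hη']; exact hη
      nlinarith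
    simp only [← hs] at othi
    -- the top eigenfunction
    obtain ⟨c, hc⟩ : ∃ c, c = av (fun x => |q i0 x| * q i0 x) := ⟨_, rfl⟩
    have f1 : av (fun x => |q i0 x| ^ 2) = 1 := by
      simp only [sq_abs]
      exact q1 i0
    have hc2 : 1 ≤ c ^ 2 := by
      have e1 : av (fun x => q i0 x * Wop G (q i0) x) = L := by
        have : (fun x => q i0 x * Wop G (q i0) x) = fun x => L * q i0 x ^ 2 := by
          funext x
          rw [qW, hL]
          ring
        rw [this, av_mul_left, q1, mul_one]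
      have e2 := abs_form G (q i0)
      rw [e1, qF] at e2
      have e2 := (le_abs_self L).trans e2
      have e3 := qP (fun x => |q i0 x|)
      rw [f1] at e3
      have e4 := split fun j => lam j * av (fun x => |q i0 x| * q j x) ^ 2
      have e5 := split fun j => av (fun x => |q i0 x| * q j x) ^ 2
      simp only [← hc, ← hL, l1] at e4 e5
      rw [e4] at e2
      rw [e5] at e3
      have e6 : ∑ j ∈ O, lam j * av (fun x => |q i0 x| * q j x) ^ 2 ≤
          s * ∑ j ∈ O, av (fun x => |q i0 x| * q j x) ^ 2 := by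
        rw [Finset.mul_sum]
        exact Finset.sum_le_sum fun j hj =>
          mul_le_mul_of_nonneg_right ((le_abs_self _).trans (othi j hj)) (sq_nonneg _)
      obtain ⟨d, hd⟩ : ∃ d, d = av (fun x => |q i0 x| * q i1 x) ^ 2 := ⟨_, rfl⟩
      have hd0 : 0 ≤ d := by rw [hd]; exact sq_nonneg _
      obtain ⟨T, hT⟩ : ∃ T, T = ∑ j ∈ O, av (fun x => |q i0 x| * q j x) ^ 2 := ⟨_, rfl⟩
      have hT0 : 0 ≤ T := by rw [hT]; exact Finset.sum_nonneg fun _ _ => sq_nonneg _
      rw [← hd] at e2 e3
      rw [← hT] at e3 e6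
      by_contra hcc
      have hcc : c ^ 2 < 1 := not_le.1 hcc
      nlinarith [mul_nonneg hm0 hd0, mul_nonneg hs0 hT0, mul_nonneg hs0 hd0]
    have hc1 : c ^ 2 = 1 := by
      refine le_antisymm ?_ hc2
      have e3 := qP (fun x => |q i0 x|)
      rw [f1] at e3
      rw [e3, hc]
      exact Finset.single_le_sum (f := fun j => av (fun x => |q i0 x| * q j x) ^ 2)
        (fun i _ => sq_nonneg _) (Finset.mem_univ i0)
    have hfq : ∀ x, |q i0 x| = c * q i0 x := by
      have : av (fun x => (|q i0 x| - c * q i0 x) ^ 2) = 0 := by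
        have e : (fun x => (|q i0 x| - c * q i0 x) ^ 2) =
            fun x => (|q i0 x| ^ 2 - 2 * c * (|q i0 x| * q i0 x)) + c ^ 2 * q i0 x ^ 2 := by
          funext x
          ring
        rw [e, av_add, av_sub, av_mul_left, av_mul_left, f1, q1, ← hc]
        linarith
      intro x
      have := eq_zero_of_av_sq this x
      linarith
    refine ⟨m, fun x => |q i0 x|, q i1, hmp, hmL, hmb, ?_, ?_, ?_, fun x => abs_nonneg _, f1,
      q1 i1, ?_, ?_⟩
    · rw [← hη', ← hs]
      have e := split fun i => lam i ^ 3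
      simp only [S3, ← hL, l1] at e
      have e2 : -(s * (6 * η)) ≤ ∑ i ∈ O, lam i ^ 3 := by
        calc -(s * (6 * η)) ≤ -(s * ∑ i ∈ O, lam i ^ 2) :=
              neg_le_neg (mul_le_mul_of_nonneg_left oth hs0)
          _ = ∑ i ∈ O, -(s * lam i ^ 2) := by rw [Finset.mul_sum, Finset.sum_neg_distrib]
          _ ≤ ∑ i ∈ O, lam i ^ 3 := by
              refine Finset.sum_le_sum fun i hi => ?_
              have h3 := neg_le_of_abs_le (othi i hi)
              nlinarith [sq_nonneg (lam i)]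
      nlinarith
    · intro x
      have : (fun y => |q i0 y|) = fun y => c * q i0 y := funext hfq
      rw [this]
      show Wop G (fun y => c * q i0 y) x = L * (c * q i0 x)
      have e : Wop G (fun y => c * q i0 y) x = c * Wop G (q i0) x := avS_mul_left _ _ _
      rw [e, qW, hL]
      ring
    · intro x
      rw [qW, l1]
    · have : (fun x => |q i0 x| * q i1 x) = fun x => c * (q i0 x * q i1 x) := by
        funext x
        rw [hfq]
        ring
      rw [this, av_mul_left, q2 i0 i1 hne.symm, mul_zero]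
    · intro k x hk
      rw [← hη', ← hs]
      have e := split fun i => lam i ^ k * q i x ^ 2
      rw [← qh k x] at e
      simp only [← hL, l1] at e
      have e2 : hh G k x - (L ^ k * |q i0 x| ^ 2 + (-m) ^ k * q i1 x ^ 2) =
          ∑ i ∈ O, lam i ^ k * q i x ^ 2 := by
        rw [e, sq_abs]
        ring
      rw [e2]
      calc |∑ i ∈ O, lam i ^ k * q i x ^ 2| ≤ ∑ i ∈ O, |lam i ^ k * q i x ^ 2| :=
            Finset.abs_sum_le_sum_abs _ _
        _ ≤ ∑ i ∈ O, s ^ (k - 2) * (lam i ^ 2 * q i x ^ 2) := by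
            refine Finset.sum_le_sum fun i hi => ?_
            have e1 : lam i ^ k = lam i ^ (k - 2) * lam i ^ 2 := by
              rw [← pow_add]
              congr 1
              omega
            rw [e1, abs_mul, abs_mul, abs_pow, abs_of_nonneg (sq_nonneg (lam i)),
              abs_of_nonneg (sq_nonneg (q i x)), mul_assoc]
            exact mul_le_mul_of_nonneg_right
              (pow_le_pow_left₀ (abs_nonneg _) (othi i hi) _)
              (mul_nonneg (sq_nonneg _) (sq_nonneg _))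
        _ = s ^ (k - 2) * ∑ i ∈ O, lam i ^ 2 * q i x ^ 2 := by rw [Finset.mul_sum]
        _ ≤ s ^ (k - 2) * 1 := by
            refine mul_le_mul_of_nonneg_left ?_ (pow_nonneg hs0 _)
            refine le_trans ?_ (t1 x)
            rw [qh 2 x]
            refine Finset.sum_le_sum_of_subset_of_nonneg (Finset.subset_univ _) fun i _ _ => ?_
            exact mul_nonneg (sq_nonneg _) (sq_nonneg _)
        _ = s ^ (k - 2) := mul_one _

end Pool.Agent.OCX
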