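import Pool.Agent.OCX.Stmts
import Pool.Agent.OCX.Lib

/-!
# SPT: traces
-/

open scoped BigOperators

namespace Pool.Agent.OCX

namespace SPT_

variable {V : Type} [Fintype V] {G : SimpleGraph V}

theorem wop1 [Nonempty V] (x : V) :
    Wop G (Set.indicator {x} fun _ => (Fintype.card V : ℝ)) =
      (G.neighborSet x).indicator fun _ => 1 := by
  classical
  have hN : (Fintype.card V : ℝ) ≠ 0 := by
    have := Fintype.card_pos (α := V)
    positivity
  funext y
  unfold Wop avS av
  rw [Finset.sum_eq_single x]
  · by_cases h : G.Adj x y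
    · have h1 : x ∈ G.neighborSet y := h.symm
      rw [Set.indicator_of_mem h1, Set.indicator_of_mem (Set.mem_singleton x),
        Set.indicator_of_mem (show y ∈ G.neighborSet x from h), div_self hN]
    · have h1 : x ∉ G.neighborSet y := fun h' => h (G.adj_symm h')
      rw [Set.indicator_of_notMem h1, Set.indicator_of_notMem (show y ∉ G.neighborSet x from h),
        zero_div]
  · intro z _ hz
    by_cases h : z ∈ G.neighborSet y
    · rw [Set.indicator_of_mem h]
      exact Set.indicator_of_notMem (fun h' : z ∈ ({x} : Set V) => hz h') _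
    · exact Set.indicator_of_notMem h _
  · intro h
    exact (h (Finset.mem_univ x)).elim

theorem wop2 (S : Set V) (y : V) :
    Wop G (S.indicator fun _ => 1) y = ms (G.neighborSet y ∩ S) := by
  unfold Wop ms avS
  congr 1
  rw [← Set.indicator_indicator]

theorem hh2 [Nonempty V] (x : V) : hh G 2 x = ms (G.neighborSet x) := by
  unfold hh
  change Wop G (Wop G _) x = _
  rw [wop1, wop2, Set.inter_self]

omit [Fintype V] in
theorem disj {t : ℕ} (og : OddG t G) {x y : V} (h : G.Adj x y) :
    G.neighborSet x ∩ G.neighborSet y = ∅ := by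
  by_contra hne
  obtain ⟨z, hz1, hz2⟩ := Set.nonempty_iff_ne_empty.2 hne
  have hz1' : G.Adj x z := hz1
  have hz2' : G.Adj y z := hz2
  have := og x (SimpleGraph.Walk.cons h (SimpleGraph.Walk.cons hz2'
    (SimpleGraph.Walk.cons hz1'.symm SimpleGraph.Walk.nil))) (by
      simp only [SimpleGraph.Walk.length_cons, SimpleGraph.Walk.length_nil]
      decide)
  simp only [SimpleGraph.Walk.length_cons, SimpleGraph.Walk.length_nil] at this
  omega

theorem hh3 [Nonempty V] {t : ℕ} (og : OddG t G) (x : V) : hh G 3 x = 0 := by
  unfold hh
  change Wop G (Wop G (Wop G _)) x = _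
  rw [wop1]
  have h : Wop G (Wop G ((G.neighborSet x).indicator fun _ => 1)) x =
      avS (G.neighborSet x) (Wop G ((G.neighborSet x).indicator fun _ => 1)) := rfl
  rw [h, avS_congr (g := fun _ => 0), avS_const, zero_mul]
  intro y hy
  rw [wop2, disj og (show G.Adj y x from (show G.Adj x y from hy).symm)]
  exact avS_empty _

theorem dd {t : ℕ} (og : OddG t G) {x y : V} (h : G.Adj x y) :
    ms (G.neighborSet x) + ms (G.neighborSet y) ≤ 1 := by
  have h1 : ms (G.neighborSet x ∪ G.neighborSet y) =
      ms (G.neighborSet x) + ms (G.neighborSet y) :=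
    avS_union (Set.disjoint_iff_inter_eq_empty.2 (disj og h)) _
  rw [← h1]
  exact ms_le_one _

theorem avd [Nonempty V] {t : ℕ} (og : OddG t G) :
    av (fun x => ms (G.neighborSet x)) ≤ 1 / 2 := by
  set d : V → ℝ := fun x => ms (G.neighborSet x) with hd
  have h1 : av (fun x => d x * d x) = av fun x => avS (G.neighborSet x) fun _ => d x := by
    congr 1
    funext x
    rw [avS_const]
  have h2 : av (fun x => d x * d x) = av fun x => avS (G.neighborSet x) fun y => d y := by
    have := avS_symm G Set.univ Set.univ d (fun _ => 1)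
    simp only [avS_univ, Set.inter_univ, one_mul] at this
    exact this
  have h3 : av (fun x => d x * d x) + av (fun x => d x * d x) ≤ av d := by
    calc _ = av (fun x => avS (G.neighborSet x) (fun _ => d x) +
          avS (G.neighborSet x) fun y => d y) := by
          rw [av_add, ← h1, ← h2]
      _ ≤ av d := by
          refine av_mono fun x => ?_
          rw [← avS_add]
          change _ ≤ avS (G.neighborSet x) fun _ => 1
          exact avS_mono fun y hy => dd og hy
  have h4 : av d ^ 2 ≤ av (fun x => d x * d x) := by
    have := avS_sq_le (Set.univ : Set V) d (fun _ => 1)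
    simp only [avS_univ, mul_one, one_pow, av_const] at this
    calc _ ≤ _ := this
      _ = _ := by
        congr 1
        funext x
        ring
  nlinarith [sq_nonneg (av d), sq_nonneg (av d - 1 / 2)]

end SPT_

theorem spt_proof : Stmt_SPT := by
  intro V _ _ G t og
  refine ⟨fun x => ?_, fun x => ?_, ?_, ?_⟩
  · rw [SPT_.hh2]
    exact ms_le_one _
  · rw [SPT_.hh2]
    exact ms_nonneg _
  · have : hh G 2 = fun x => ms (G.neighborSet x) := by
      funext x
      exact SPT_.hh2 x
    rw [this]
    exact SPT_.avd og
  · have : hh G 3 = fun _ => 0 := by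
      funext x
      exact SPT_.hh3 og x
    rw [this, av_const]

end Pool.Agent.OCX
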