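import Pool.Agent.OCX.Stmts
import Pool.Agent.OCX.Lib

/-!
# ST2: refined bounds
-/

open scoped BigOperators

namespace Pool.Agent.OCX

namespace ST2_

noncomputable section

variable {V : Type} [Fintype V]

/-- the data -/
structure Dat (G : SimpleGraph V) (ν γ δ ε s κ ρ : ℝ) (A B R : Set V) (u v : V → ℝ) : Prop where
  cor : Cor G A B R
  hu : ∀ x, Wop G u x = ν * v x + γ * u x
  hv : ∀ x, Wop G v x = ν * u x + γ * v x
  kkt : ∀ x, |4 * (u x * v x) - δ * om u v x| ≤ ε
  u2 : av (fun x => u x ^ 2) = 1 / 2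
  v2 : av (fun x => v x ^ 2) = 1 / 2
  uv : av (fun x => u x * v x) = 0
  ne : Nonempty V
  pos : ∀ x, 0 ≤ u x + v x
  nu : 12 / 25 ≤ ν
  g0 : 0 ≤ γ
  g2 : γ ≤ δ * s / 2
  l1 : 1 / 2 - s ≤ ν + γ
  l2 : ν + γ ≤ 1 / 2
  d0 : 0 < δ
  ds : δ ≤ s
  dk : δ ≤ κ ^ 2 / 100
  s0 : 0 < s
  s1 : s ≤ 1 / 100
  k0 : 0 < κ
  k1 : κ ≤ 1 / 20
  r0 : 0 < ρ
  r1 : ρ ≤ 1
  e1 : ε ≤ δ * s
  e2 : ε ≤ δ * ρ / 5
  phi2 : av (fun x => (u x + v x - 1) ^ 2) ≤ 4 * s
  uR : ∀ x ∈ R, 0 < u x ∧ u x < 1
  vR : ∀ x ∈ R, 0 < v x ∧ v x < 1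
  oR : ∀ x ∈ R, κ / 2 ≤ om u v x
  pR : ∀ x ∈ R, ρ ≤ om u v x
  msR : ms R ≤ s
  omR : avS R (om u v) ≤ s
  uA : ∀ x ∈ A, 19 / 20 ≤ u x
  vB : ∀ x ∈ B, 19 / 20 ≤ v x
  vA : ∀ x ∈ A, |v x| ≤ 2 * δ
  uB : ∀ x ∈ B, |u x| ≤ 2 * δ

variable {G : SimpleGraph V} {ν γ δ ε s κ ρ : ℝ} {A B R : Set V} {u v : V → ℝ}

theorem Dat.swap (D : Dat G ν γ δ ε s κ ρ A B R u v) : Dat G ν γ δ ε s κ ρ B A R v u where
  cor := D.cor.swap
  hu := D.hv
  hv := D.hu
  kkt := fun x => by
    rw [om_comm, mul_comm (v x)]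
    exact D.kkt x
  u2 := D.v2
  v2 := D.u2
  uv := by
    rw [← D.uv]
    congr 1
    funext x
    ring
  ne := D.ne
  pos := fun x => by
    rw [add_comm]
    exact D.pos x
  nu := D.nu
  g0 := D.g0
  g2 := D.g2
  l1 := D.l1
  l2 := D.l2
  d0 := D.d0
  ds := D.ds
  dk := D.dk
  s0 := D.s0
  s1 := D.s1
  k0 := D.k0
  k1 := D.k1
  r0 := D.r0
  r1 := D.r1
  e1 := D.e1
  e2 := D.e2
  phi2 := by
    have := D.phi2
    simp only [add_comm (v _)]
    exact this
  uR := D.vR
  vR := D.uR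
  oR := fun x hx => by
    rw [om_comm]
    exact D.oR x hx
  pR := fun x hx => by
    rw [om_comm]
    exact D.pR x hx
  msR := D.msR
  omR := by
    rw [om_comm]
    exact D.omR
  uA := D.vB
  vB := D.uA
  vA := D.uB
  uB := D.vA

theorem Dat.e0 (D : Dat G ν γ δ ε s κ ρ A B R u v) : 0 ≤ ε := by
  obtain ⟨x⟩ := D.ne
  exact (abs_nonneg _).trans (D.kkt x)

theorem Dat.d1 (D : Dat G ν γ δ ε s κ ρ A B R u v) : δ ≤ 1 / 40000 := by
  have h1 := D.dk
  have h2 := D.k0
  have h3 := D.k1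
  nlinarith

/-- `4 δ ^ 2 ≤ s / 1000` -/
theorem Dat.dd (D : Dat G ν γ δ ε s κ ρ A B R u v) : (2 * δ) ^ 2 ≤ s / 1000 := by
  have h1 := D.d1
  have h2 := D.d0
  have h3 := D.ds
  nlinarith

theorem sqB (D : Dat G ν γ δ ε s κ ρ A B R u v) : avS B (fun x => u x ^ 2) ≤ s / 1000 := by
  have h1 : avS B (fun x => u x ^ 2) ≤ (2 * δ) ^ 2 * ms B := by
    refine avS_le_mul_ms fun x hx => ?_
    have := D.uB x hx
    exact sq_le_sq' (by linarith [(abs_le.1 this).1]) (abs_le.1 this).2
  have h2 := ms_le_one B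
  have h3 := ms_nonneg B
  have h4 := D.dd
  have h5 : 0 ≤ (2 * δ) ^ 2 := sq_nonneg _
  nlinarith

theorem sqR (D : Dat G ν γ δ ε s κ ρ A B R u v) : avS R (fun x => u x ^ 2) ≤ s := by
  have h1 : avS R (fun x => u x ^ 2) ≤ 1 * ms R := by
    refine avS_le_mul_ms fun x hx => ?_
    have := D.uR x hx
    nlinarith
  linarith [D.msR]

theorem sqA (D : Dat G ν γ δ ε s κ ρ A B R u v) :
    1 / 2 - s - s / 1000 ≤ avS A (fun x => u x ^ 2) ∧ avS A (fun x => u x ^ 2) ≤ 1 / 2 := by
  have h1 := sqB D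
  have h2 := sqR D
  have h3 := D.u2
  rw [avS_three D.cor] at h3
  have h4 : 0 ≤ avS B (fun x => u x ^ 2) := avS_nonneg fun x _ => sq_nonneg _
  have h5 : 0 ≤ avS R (fun x => u x ^ 2) := avS_nonneg fun x _ => sq_nonneg _
  constructor <;> linarith

theorem small (D : Dat G ν γ δ ε s κ ρ A B R u v) :
    |avS R (fun x => u x * avS (G.neighborSet x ∩ B) u)| ≤ avS B (fun x => |u x|) * s := by
  refine (abs_avS_le _ _).trans ?_
  have h0 : avS R (fun x => |u x * avS (G.neighborSet x ∩ B) u|) ≤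
      avS B (fun x => |u x|) * ms R := by
    refine avS_le_mul_ms fun x hx => ?_
    rw [abs_mul]
    have h1 : |u x| ≤ 1 := by
      rw [abs_of_pos (D.uR x hx).1]
      exact (D.uR x hx).2.le
    have h2 : |avS (G.neighborSet x ∩ B) u| ≤ avS B (fun x => |u x|) :=
      (abs_avS_le _ _).trans (avS_mono_set Set.inter_subset_right fun y _ => abs_nonneg _)
    calc |u x| * |avS (G.neighborSet x ∩ B) u| ≤ 1 * avS B (fun x => |u x|) :=
          mul_le_mul h1 h2 (abs_nonneg _) zero_le_one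
      _ = avS B (fun x => |u x|) := one_mul _
  exact h0.trans (mul_le_mul_of_nonneg_left D.msR (avS_nonneg fun x _ => abs_nonneg _))

theorem crude (D : Dat G ν γ δ ε s κ ρ A B R u v) : avS B (fun x => |u x|) ≤ 2 * δ := by
  have h1 : avS B (fun x => |u x|) ≤ (2 * δ) * ms B := avS_le_mul_ms fun x hx => D.uB x hx
  have h2 := ms_le_one B
  have h3 := ms_nonneg B
  have h4 := D.d0
  nlinarith

theorem Qpos (D : Dat G ν γ δ ε s κ ρ A B R u v) :
    0 ≤ avS R (fun x => u x * avS (G.neighborSet x ∩ A) u) :=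
  avS_nonneg fun x hx => mul_nonneg (D.uR x hx).1.le
    (avS_nonneg fun y hy => by linarith [D.uA y hy.2])

/-- the flux identities added -/
theorem flux2 (hF : Stmt_FLX) (D : Dat G ν γ δ ε s κ ρ A B R u v) :
    avS R (fun x => u x * avS (G.neighborSet x ∩ A) u) +
      avS R (fun x => v x * avS (G.neighborSet x ∩ B) v) =
    γ * (avS A (fun x => u x ^ 2) - avS B (fun x => u x ^ 2) + avS B (fun x => v x ^ 2) -
      avS A (fun x => v x ^ 2)) + avS R (fun x => u x * avS (G.neighborSet x ∩ B) u) +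
      avS R (fun x => v x * avS (G.neighborSet x ∩ A) v) := by
  have h1 := hF V G ν γ u v A B R D.hu D.cor
  have h2 := hF V G ν γ v u B A R D.hv D.cor.swap
  have e1 : avS B (fun x => v x * u x) = avS B (fun x => u x * v x) :=
    avS_congr fun x _ => mul_comm _ _
  have e2 : avS A (fun x => v x * u x) = avS A (fun x => u x * v x) :=
    avS_congr fun x _ => mul_comm _ _
  rw [e1, e2] at h2
  linarith

/-- flux estimate -/
theorem fluxE (hF : Stmt_FLX) (D : Dat G ν γ δ ε s κ ρ A B R u v) :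
    |avS R (fun x => u x * avS (G.neighborSet x ∩ A) u) +
      avS R (fun x => v x * avS (G.neighborSet x ∩ B) v) - γ| ≤
    3 * s * γ + (avS B (fun x => |u x|) + avS A (fun x => |v x|)) * s := by
  have h1 := flux2 hF D
  have h2 := small D
  have h3 := small D.swap
  have a1 := sqA D
  have a2 := sqA D.swap
  have b1 := sqB D
  have b2 := sqB D.swap
  have c1 : 0 ≤ avS B (fun x => u x ^ 2) := avS_nonneg fun x _ => sq_nonneg _
  have c2 : 0 ≤ avS A (fun x => v x ^ 2) := avS_nonneg fun x _ => sq_nonneg _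
  have s0 := D.s0
  set X := avS A (fun x => u x ^ 2) - avS B (fun x => u x ^ 2) + avS B (fun x => v x ^ 2) -
      avS A (fun x => v x ^ 2) with hX
  have x1 : X ≤ 1 := by linarith [a1.2, a2.2]
  have x2 : 1 - 3 * s ≤ X := by linarith [a1.1, a2.1]
  have g0 := D.g0
  have y1 : γ * X ≤ γ := by nlinarith
  have y2 : γ - 3 * s * γ ≤ γ * X := by nlinarith
  have z1 := abs_le.1 h2
  have z2 := abs_le.1 h3
  have w : 0 ≤ 3 * s * γ := by positivity
  rw [h1, abs_le]
  constructor <;> linarith [z1.1, z1.2, z2.1, z2.2]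

theorem fluxD (hF : Stmt_FLX) (D : Dat G ν γ δ ε s κ ρ A B R u v) :
    |avS A (fun x => u x * v x) - avS B (fun x => u x * v x)| ≤ 17 * (δ * s) := by
  have h1 := hF V G ν γ u v A B R D.hu D.cor
  have h2 := small D
  have h4 := crude D
  have h5 := crude D.swap
  have h6 := fluxE hF D
  have q1 := Qpos D
  have q2 := Qpos D.swap
  have s0 := D.s0
  have s1 := D.s1
  have d0 := D.d0
  have g0 := D.g0
  have g2 := D.g2
  have a1 := sqA D
  have b1 := sqB D
  have c1 : 0 ≤ avS B (fun x => u x ^ 2) := avS_nonneg fun x _ => sq_nonneg _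
  have m1 : avS B (fun x => |u x|) * s ≤ 2 * δ * s := mul_le_mul_of_nonneg_right h4 s0.le
  have m2 : avS A (fun x => |v x|) * s ≤ 2 * δ * s := mul_le_mul_of_nonneg_right h5 s0.le
  have ds0 : 0 < δ * s := by positivity
  have m3 : 3 * s * γ ≤ δ * s := by nlinarith
  have z1 := abs_le.1 h2
  have z6 := abs_le.1 h6
  set Q := avS R (fun x => u x * avS (G.neighborSet x ∩ A) u) with hQ
  have hQ5 : Q ≤ 6 * (δ * s) := by
    have := z6.2
    have e : (avS B (fun x => |u x|) + avS A (fun x => |v x|)) * s ≤ 4 * (δ * s) := by linarith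
    linarith
  set Y := avS A (fun x => u x * v x) - avS B (fun x => u x * v x) with hY
  have hν : ν * Y = Q - avS R (fun x => u x * avS (G.neighborSet x ∩ B) u) -
      γ * (avS A (fun x => u x ^ 2) - avS B (fun x => u x ^ 2)) := by
    have e : ν * (avS B (fun x => u x * v x) - avS A (fun x => u x * v x)) = - (ν * Y) := by
      rw [hY]; ring
    rw [e] at h1
    linarith
  have w1 : γ * (avS A (fun x => u x ^ 2) - avS B (fun x => u x ^ 2)) ≤ γ / 2 := by
    nlinarith [a1.2]
  have w2 : 0 ≤ γ * (avS A (fun x => u x ^ 2) - avS B (fun x => u x ^ 2)) := by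
    refine mul_nonneg g0 ?_
    linarith [a1.1]
  have hν1 : ν * Y ≤ 8 * (δ * s) := by
    rw [hν]; linarith [z1.1]
  have hν2 : - (8 * (δ * s)) ≤ ν * Y := by
    rw [hν]; linarith [z1.2]
  have hn := D.nu
  rw [abs_le]
  constructor
  · by_contra hc
    push Not at hc
    nlinarith
  · by_contra hc
    push Not at hc
    nlinarith

theorem kktS (D : Dat G ν γ δ ε s κ ρ A B R u v) (S : Set V) :
    |4 * avS S (fun x => u x * v x) - δ * avS S (om u v)| ≤ ε := by
  have e : 4 * avS S (fun x => u x * v x) - δ * avS S (om u v) =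
      avS S (fun x => 4 * (u x * v x) - δ * om u v x) := by
    rw [avS_sub, avS_mul_left, avS_mul_left]
  rw [e]
  refine (abs_avS_le _ _).trans ?_
  have h1 : avS S (fun x => |4 * (u x * v x) - δ * om u v x|) ≤ ε * ms S :=
    avS_le_mul_ms fun x _ => D.kkt x
  have h2 := ms_le_one S
  have h3 := D.e0
  nlinarith [ms_nonneg S]

theorem om0 (D : Dat G ν γ δ ε s κ ρ A B R u v) :
    avS A (om u v) + avS B (om u v) + avS R (om u v) = 0 := by
  rw [← avS_three D.cor]
  have e : om u v = fun x => 1 - (u x ^ 2 + v x ^ 2 - 2 * (u x * v x)) := by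
    funext x
    unfold om
    ring
  have := D.ne
  rw [e, av_sub, av_const, av_sub, av_add, av_mul_left, D.u2, D.v2, D.uv]
  norm_num

theorem omAe (hF : Stmt_FLX) (D : Dat G ν γ δ ε s κ ρ A B R u v) :
    |avS A (om u v)| ≤ 36 * s := by
  have h1 := om0 D
  have h2 : 0 ≤ avS R (om u v) := avS_nonneg fun x hx => D.r0.le.trans (D.pR x hx)
  have h3 := D.omR
  have h4 := abs_le.1 (fluxD hF D)
  have h5 := abs_le.1 (kktS D A)
  have h6 := abs_le.1 (kktS D B)
  have d0 := D.d0
  have e1 := D.e1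
  set a := avS A (om u v)
  set b := avS B (om u v)
  have k1 : δ * (a - b) ≤ δ * (70 * s) := by linarith [h4.1, h4.2, h5.1, h5.2, h6.1, h6.2]
  have k2 : δ * (b - a) ≤ δ * (70 * s) := by linarith [h4.1, h4.2, h5.1, h5.2, h6.1, h6.2]
  have k3 := le_of_mul_le_mul_left k1 d0
  have k4 := le_of_mul_le_mul_left k2 d0
  rw [abs_le]
  constructor <;> linarith

theorem uvA (hF : Stmt_FLX) (D : Dat G ν γ δ ε s κ ρ A B R u v) :
    |avS A (fun x => u x * v x)| ≤ 10 * (δ * s) := by
  have h1 := abs_le.1 (omAe hF D)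
  have h2 := abs_le.1 (kktS D A)
  have d0 := D.d0
  have e1 := D.e1
  have s0 := D.s0
  have ds0 : 0 < δ * s := by positivity
  have k1 : δ * avS A (om u v) ≤ δ * (36 * s) := mul_le_mul_of_nonneg_left h1.2 d0.le
  have k2 : δ * (-(36 * s)) ≤ δ * avS A (om u v) := mul_le_mul_of_nonneg_left h1.1 d0.le
  rw [abs_le]
  constructor <;> linarith [h2.1, h2.2]

theorem msA (hF : Stmt_FLX) (D : Dat G ν γ δ ε s κ ρ A B R u v) :
    |ms A - 1 / 2| ≤ 40 * s := by
  have h1 := abs_le.1 (omAe hF D)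
  have h2 := abs_le.1 (uvA hF D)
  have h3 := sqA D
  have h4 := sqB D.swap
  have c2 : 0 ≤ avS A (fun x => v x ^ 2) := avS_nonneg fun x _ => sq_nonneg _
  have e : avS A (om u v) = ms A - (avS A (fun x => u x ^ 2) + avS A (fun x => v x ^ 2) -
      2 * avS A (fun x => u x * v x)) := by
    have e : om u v = fun x => 1 - (u x ^ 2 + v x ^ 2 - 2 * (u x * v x)) := by
      funext x
      unfold om
      ring
    rw [e, avS_sub, avS_sub, avS_add, avS_mul_left, avS_const, one_mul]
  have d0 := D.d0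
  have d1 := D.d1
  have s0 := D.s0
  have ds0 : δ * s ≤ s / 40000 := by nlinarith
  rw [abs_le]
  constructor <;> linarith [h1.1, h1.2, h2.1, h2.2, h3.1, h3.2]

theorem phA (hF : Stmt_FLX) (D : Dat G ν γ δ ε s κ ρ A B R u v) :
    avS A (fun x => (u x + v x) ^ 2) ≤ 1 / 2 + s ∧
      1 / 2 - 2 * s ≤ avS A (fun x => (u x + v x) ^ 2) := by
  have h2 := abs_le.1 (uvA hF D)
  have h3 := sqA D
  have h4 := sqB D.swap
  have c2 : 0 ≤ avS A (fun x => v x ^ 2) := avS_nonneg fun x _ => sq_nonneg _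
  have e : avS A (fun x => (u x + v x) ^ 2) = avS A (fun x => u x ^ 2) +
      avS A (fun x => v x ^ 2) + 2 * avS A (fun x => u x * v x) := by
    rw [← avS_add, ← avS_mul_left, ← avS_add]
    exact avS_congr fun x _ => by ring
  have d0 := D.d0
  have d1 := D.d1
  have s0 := D.s0
  have ds0 : δ * s ≤ s / 40000 := by nlinarith
  rw [e]
  constructor <;> linarith [h2.1, h2.2, h3.1, h3.2]

theorem qA (hF : Stmt_FLX) (D : Dat G ν γ δ ε s κ ρ A B R u v) :
    1 / 2 - 23 * s ≤ avS A (fun x => u x + v x) := by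
  have h1 := phA hF D
  have h2 := abs_le.1 (msA hF D)
  have h3 : avS A (fun x => (u x + v x - 1) ^ 2) ≤ 4 * s := by
    refine le_trans ?_ D.phi2
    rw [← avS_univ]
    exact avS_mono_set (Set.subset_univ _) fun x _ => sq_nonneg _
  have e : avS A (fun x => (u x + v x - 1) ^ 2) = avS A (fun x => (u x + v x) ^ 2) -
      2 * avS A (fun x => u x + v x) + ms A := by
    have e1 : ms A = 1 * ms A := (one_mul _).symm
    rw [e1, ← avS_const, ← avS_mul_left, ← avS_sub, ← avS_add]
    exact avS_congr fun x _ => by ring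
  linarith [h1.2, h2.1]

/-- `φ ≤ 1` on `R` -/
theorem phR (D : Dat G ν γ δ ε s κ ρ A B R u v) {x : V} (hx : x ∈ R) : u x + v x ≤ 1 := by
  have h1 := abs_le.1 (D.kkt x)
  have h2 := D.oR x hx
  have h3 : (u x + v x) ^ 2 = 1 - om u v x + 4 * (u x * v x) := by
    unfold om
    ring
  have d1 := D.d1
  have d0 := D.d0
  have k0 := D.k0
  have k1 := D.k1
  have hp := D.pos x
  have he : ε ≤ κ / 4 := by
    have a1 := D.e1
    have a2 := D.s1
    have a3 := D.dk
    have a4 := D.s0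
    have : δ * s ≤ δ := by nlinarith
    nlinarith
  have h4 : (u x + v x) ^ 2 ≤ 1 := by
    rw [h3]
    nlinarith [h1.2]
  nlinarith

/-- `φ` on `A` -/
theorem phiA (hF : Stmt_FLX) (D : Dat G ν γ δ ε s κ ρ A B R u v) {x : V} (hx : x ∈ A) :
    u x + v x ≤ 1 + 50 * s := by
  have s0 := D.s0
  have s1 := D.s1
  have h1 : avS (G.neighborSet x) (fun y => u y + v y) = (ν + γ) * (u x + v x) := by
    rw [avS_add]
    have a1 := D.hu x
    have a2 := D.hv x
    unfold Wop at a1 a2
    rw [a1, a2]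
    ring
  have h2 := avS_inter_three D.cor (G.neighborSet x) (fun y => u y + v y)
  rw [nbr_A D.cor hx, avS_empty, zero_add] at h2
  have h3 : avS (G.neighborSet x ∩ B) (fun y => u y + v y) ≤ avS B (fun y => u y + v y) :=
    avS_mono_set Set.inter_subset_right fun y _ => D.pos y
  have h4 : avS (G.neighborSet x ∩ R) (fun y => u y + v y) ≤ avS R (fun y => u y + v y) :=
    avS_mono_set Set.inter_subset_right fun y _ => D.pos y
  have h5 : avS R (fun y => u y + v y) ≤ 1 * ms R := avS_le_mul_ms fun y hy => phR D hy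
  have h6 := D.msR
  have h7 : avS B (fun y => u y + v y) ≤ (ms B + avS B (fun y => (u y + v y) ^ 2)) / 2 := by
    have e1 : ms B = 1 * ms B := (one_mul _).symm
    have e : (ms B + avS B (fun y => (u y + v y) ^ 2)) / 2 =
        avS B (fun y => (1 / 2) * (1 + (u y + v y) ^ 2)) := by
      rw [avS_mul_left, avS_add, avS_const, one_mul]
      ring
    rw [e]
    refine avS_mono fun y _ => ?_
    nlinarith [sq_nonneg (u y + v y - 1)]
  have h8 := (abs_le.1 (msA hF D.swap)).2
  have h9 := (phA hF D.swap).1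
  simp only [add_comm (v _)] at h9
  have h10 : (ν + γ) * (u x + v x) ≤ 1 / 2 + 22 * s := by linarith
  have l1 := D.l1
  have hp := D.pos x
  by_contra hc
  push Not at hc
  nlinarith

/-- lower bound for `om` on `A` -/
theorem omlow (hF : Stmt_FLX) (D : Dat G ν γ δ ε s κ ρ A B R u v) {x : V} (hx : x ∈ A) :
    -(130 * s) ≤ om u v x := by
  have h1 := phiA hF D hx
  have h2 := abs_le.1 (D.kkt x)
  have hp := D.pos x
  have h3 : (u x + v x) ^ 2 = 1 - om u v x + 4 * (u x * v x) := by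
    unfold om
    ring
  have s0 := D.s0
  have s1 := D.s1
  have d0 := D.d0
  have d1 := D.d1
  have e1 := D.e1
  have h4 : (u x + v x) ^ 2 ≤ (1 + 50 * s) ^ 2 := by
    exact pow_le_pow_left₀ hp h1 2
  have h5 : (1 + 50 * s) ^ 2 ≤ 1 + 125 * s := by nlinarith
  have h6 : δ * s ≤ s := by nlinarith
  by_contra hc
  push Not at hc
  have h7 : om u v x * (1 - δ) < -(130 * s) * (1 - δ) := by
    refine mul_lt_mul_of_pos_right hc ?_
    linarith
  nlinarith [h2.1]

theorem omA (hF : Stmt_FLX) (D : Dat G ν γ δ ε s κ ρ A B R u v) :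
    avS A (fun x => |om u v x|) ≤ 300 * s := by
  have h1 : avS A (fun x => |om u v x|) ≤ avS A (fun x => om u v x + 260 * s) := by
    refine avS_mono fun x hx => ?_
    have := omlow hF D hx
    have s0 := D.s0
    rw [abs_le]
    constructor <;> linarith
  rw [avS_add, avS_const] at h1
  have h2 := (abs_le.1 (omAe hF D)).2
  have h3 := ms_le_one A
  have s0 := D.s0
  have h4 : 260 * s * ms A ≤ 260 * s := by nlinarith
  have h5 : avS A (fun x => om u v x) = avS A (om u v) := rfl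
  rw [h5] at h1
  linarith

theorem vAe (hF : Stmt_FLX) (D : Dat G ν γ δ ε s κ ρ A B R u v) :
    avS A (fun x => |v x|) ≤ 80 * (δ * s) := by
  have h1 : avS A (fun x => |v x|) ≤ avS A (fun x => 5 / 19 * (δ * |om u v x| + ε)) := by
    refine avS_mono fun x hx => ?_
    have h2 := abs_le.1 (D.kkt x)
    have h3 := D.uA x hx
    have h4 : |4 * (u x * v x)| ≤ δ * |om u v x| + ε := by
      have a1 := D.kkt x
      have a2 : |4 * (u x * v x)| ≤ |δ * om u v x| + |4 * (u x * v x) - δ * om u v x| := by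
        have := abs_add_le (δ * om u v x) (4 * (u x * v x) - δ * om u v x)
        have e : δ * om u v x + (4 * (u x * v x) - δ * om u v x) = 4 * (u x * v x) := by ring
        rw [e] at this
        exact this
      rw [abs_mul δ, abs_of_pos D.d0] at a2
      linarith
    rw [abs_mul, abs_mul, abs_of_pos (by norm_num : (0 : ℝ) < 4),
      abs_of_pos (by linarith : (0 : ℝ) < u x)] at h4
    have h5 := abs_nonneg (v x)
    nlinarith
  rw [avS_mul_left, avS_add, avS_mul_left, avS_const] at h1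
  have h2 := omA hF D
  have h3 := ms_le_one A
  have s0 := D.s0
  have d0 := D.d0
  have h4 : δ * avS A (fun x => |om u v x|) ≤ δ * (300 * s) :=
    mul_le_mul_of_nonneg_left h2 d0.le
  have h5 : ε * ms A ≤ ε := by nlinarith [D.e0]
  have h6 := D.e1
  have ds0 : 0 < δ * s := by positivity
  linarith

theorem ulow (D : Dat G ν γ δ ε s κ ρ A B R u v) {x : V} (hx : x ∈ R) : δ * ρ / 5 ≤ u x := by
  have h1 := abs_le.1 (D.kkt x)
  have h2 := D.pR x hx
  have h3 := D.uR x hx
  have h4 := D.vR x hx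
  have h5 := D.e2
  have h6 : δ * ρ ≤ δ * om u v x := mul_le_mul_of_nonneg_left h2 D.d0.le
  have h7 : u x * v x ≤ u x := by nlinarith
  linarith [h1.1]

theorem euE (hF : Stmt_FLX) (D : Dat G ν γ δ ε s κ ρ A B R u v) {x : V} (hx : x ∈ R) :
    |u x - (ee G ν B v x + avS (G.neighborSet x ∩ R) v / ν)| ≤ 850 / ρ * s * u x := by
  have hn := D.nu
  have hn0 : 0 < ν := by linarith
  have h1 := D.hv x
  unfold Wop at h1
  rw [avS_inter_three D.cor (G.neighborSet x)] at h1
  have e : u x - (ee G ν B v x + avS (G.neighborSet x ∩ R) v / ν) =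
      (avS (G.neighborSet x ∩ A) v - γ * v x) / ν := by
    unfold ee
    field_simp
    linarith
  rw [e, abs_div, abs_of_pos hn0, div_le_iff₀ hn0]
  have h2 : |avS (G.neighborSet x ∩ A) v| ≤ 80 * (δ * s) :=
    ((abs_avS_le _ _).trans (avS_mono_set Set.inter_subset_right fun y _ => abs_nonneg _)).trans
      (vAe hF D)
  have h3 : |γ * v x| ≤ δ * s := by
    have a1 := D.g2
    have a2 := D.g0
    have a3 := D.vR x hx
    have a4 : 0 < δ * s := mul_pos D.d0 D.s0
    rw [abs_of_nonneg (mul_nonneg a2 a3.1.le)]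
    nlinarith [a3.1, a3.2]
  have h4 : |avS (G.neighborSet x ∩ A) v - γ * v x| ≤ 81 * (δ * s) := by
    have := abs_sub (avS (G.neighborSet x ∩ A) v) (γ * v x)
    linarith
  have h5 := ulow D hx
  have r0 := D.r0
  have s0 := D.s0
  have h6 : 170 * (δ * s) ≤ 850 / ρ * s * u x := by
    have : 850 / ρ * s * (δ * ρ / 5) = 170 * (δ * s) := by
      field_simp
      ring
    rw [← this]
    refine mul_le_mul_of_nonneg_left h5 ?_
    positivity
  have h7 : 0 < δ * s := mul_pos D.d0 D.s0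
  have h8 : 850 / ρ * s * u x * (12 / 25) ≤ 850 / ρ * s * u x * ν := by
    refine mul_le_mul_of_nonneg_left hn ?_
    have := (D.uR x hx).1
    positivity
  linarith

theorem flE (hF : Stmt_FLX) (D : Dat G ν γ δ ε s κ ρ A B R u v) {c : ℝ} (hc : 1 ≤ c)
    (hg : 6 / 25 * (δ * s) ≤ c * γ) :
    |ν * avS R (fun x => u x * ee G ν A u x + v x * ee G ν B v x) - γ| ≤ 700 * c * s * γ := by
  have hn := D.nu
  have hn0 : 0 < ν := by linarith
  have e : ν * avS R (fun x => u x * ee G ν A u x + v x * ee G ν B v x) =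
      avS R (fun x => u x * avS (G.neighborSet x ∩ A) u) +
        avS R (fun x => v x * avS (G.neighborSet x ∩ B) v) := by
    rw [← avS_mul_left, ← avS_add]
    refine avS_congr fun x _ => ?_
    unfold ee
    field_simp
  rw [e]
  refine (fluxE hF D).trans ?_
  have h1 := vAe hF D
  have h2 := vAe hF D.swap
  have s0 := D.s0
  have g0 := D.g0
  have h3 : (avS B (fun x => |u x|) + avS A (fun x => |v x|)) * s ≤ 160 * (δ * s) * s := by
    refine mul_le_mul_of_nonneg_right ?_ s0.le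
    linarith
  have h4 : 6 / 25 * (δ * s) * s ≤ c * γ * s := mul_le_mul_of_nonneg_right hg s0.le
  have h5 : 3 * s * γ ≤ 3 * c * s * γ := by
    have : 0 ≤ s * γ := by positivity
    nlinarith
  have h6 : 0 ≤ c * γ * s := by positivity
  nlinarith

end

end ST2_

open ST2_

theorem st2_proof (h1 : Stmt_BAS) (h2 : Stmt_FLX) (h3 : Stmt_BOO) : Stmt_ST2 := by
  intro t ρ hρ0 hρ1
  obtain ⟨c, hc1, hB⟩ := h3 t ρ hρ0 hρ1
  have hCc : c ≤ 2000 * c ^ 2 / ρ := by
    rw [le_div_iff₀ hρ0]
    nlinarith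
  refine ⟨2000 * c ^ 2 / ρ, hc1.trans hCc, fun κ hκ0 hκ1 => ?_⟩
  obtain ⟨k1, hk1⟩ := h1 t κ hκ0 hκ1
  obtain ⟨k2, hk2⟩ := hB κ hκ0 hκ1
  obtain ⟨k3, hk3⟩ := exists_nat_ge (100 * c)
  obtain ⟨k4, hk4⟩ := exists_nat_ge (5 / ρ)
  refine ⟨max (max k1 k2) (max k3 (max k4 1)), fun k hk V _ G ν γ δ ξ u v hξ hS hR => ?_⟩
  have g1 : k1 ≤ k := (le_max_left _ _).trans ((le_max_left _ _).trans hk)
  have g2 : k2 ≤ k := (le_max_right _ _).trans ((le_max_left _ _).trans hk)
  have g3 : k3 ≤ k := (le_max_left _ _).trans ((le_max_right _ _).trans hk)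
  have g4 : k4 ≤ k := (le_max_left _ _).trans ((le_max_right _ _).trans ((le_max_right _ _).trans hk))
  have g5 : 1 ≤ k := (le_max_right _ _).trans ((le_max_right _ _).trans ((le_max_right _ _).trans hk))
  have bas := hk1 k g1 V G ν γ δ ξ u v hξ hS
  have boo := hk2 k g2 V G ν γ δ ξ u v hξ hS hR
  have r3 : 100 * c ≤ (k : ℝ) := hk3.trans (by exact_mod_cast g3)
  have r4 : 5 / ρ ≤ (k : ℝ) := hk4.trans (by exact_mod_cast g4)
  have r5 : (1 : ℝ) ≤ k := by exact_mod_cast g5
  have kp : (0 : ℝ) < k := by linarith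
  have hc0 : 0 < c := by linarith
  have q0 : 0 < 1 / (k : ℝ) := by positivity
  have q1 : 1 / (k : ℝ) ≤ 1 := by
    rw [div_le_one kp]
    exact r5
  have qs : 1 / (k : ℝ) ≤ c / k := by
    exact div_le_div_of_nonneg_right hc1 kp.le
  have s0 : 0 < c / (k : ℝ) := by positivity
  have s1 : c / (k : ℝ) ≤ 1 / 100 := by
    rw [div_le_iff₀ kp]
    linarith
  have qρ : 1 / (k : ℝ) ≤ ρ / 5 := by
    rw [div_le_iff₀ hρ0] at r4
    rw [div_le_iff₀ kp]
    linarith
  have d0 := bas.d0
  have dle : δ ≤ c / k := by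
    refine boo.dC.trans ?_
    have : (1 / (k : ℝ)) ^ (2 * t + 1) ≤ 1 / k := by
      rw [pow_succ]
      have : (1 / (k : ℝ)) ^ (2 * t) ≤ 1 := pow_le_one₀ q0.le q1
      nlinarith
    calc c * (1 / (k : ℝ)) ^ (2 * t + 1) ≤ c * (1 / k) := mul_le_mul_of_nonneg_left this hc0.le
      _ = c / k := by ring
  have dk := bas.dk
  have d1 : δ ≤ 1 := by nlinarith
  have eps : (1 / (k : ℝ)) ^ (10 * t + 20) ≤ δ * (1 / (k : ℝ)) := by
    refine bas.eps.trans (mul_le_mul_of_nonneg_left ?_ d0.le)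
    nlinarith
  have gam1 := bas.gam1
  have gam2 := bas.gam2
  have l2 := hS.l2
  have nu := bas.nu
  have g0 := hS.g0
  have D : Dat G ν γ δ ((1 / (k : ℝ)) ^ (10 * t + 20)) (c / k) κ ρ (cA κ u) (cA κ v) (cR κ u v)
      u v := {
    cor := bas.cor
    hu := hS.hu
    hv := hS.hv
    kkt := fun x => by
      have := hS.kkt x
      unfold om
      rw [← mul_assoc]
      exact this
    u2 := hS.u2
    v2 := hS.v2
    uv := hS.uv
    ne := hS.ne
    pos := hS.pos
    nu := nu
    g0 := g0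
    g2 := by
      refine gam2.trans ?_
      rw [div_le_iff₀ (by positivity)]
      have e : δ * (c / (k : ℝ)) / 2 * (2 * k) = δ * c := by
        field_simp
      rw [e, mul_assoc]
      refine mul_le_mul_of_nonneg_left ?_ d0.le
      nlinarith
    l1 := by linarith [boo.eta]
    l2 := l2
    d0 := d0
    ds := dle
    dk := dk
    s0 := s0
    s1 := s1
    k0 := hκ0
    k1 := hκ1
    r0 := hρ0
    r1 := hρ1
    e1 := eps.trans (mul_le_mul_of_nonneg_left qs d0.le)
    e2 := by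
      refine eps.trans ?_
      rw [mul_div_assoc]
      exact mul_le_mul_of_nonneg_left qρ d0.le
    phi2 := bas.phi2.trans (by linarith [boo.eta])
    uR := fun x hx => ⟨(bas.Rpos x hx).1, by linarith [hx.1]⟩
    vR := fun x hx => ⟨(bas.Rpos x hx).2.1, by linarith [hx.2]⟩
    oR := fun x hx => (bas.Rpos x hx).2.2
    pR := hR
    msR := boo.msR
    omR := by
      have := boo.oR
      rw [le_div_iff₀ kp]
      linarith
    uA := fun x hx => by
      have : 1 - κ ≤ u x := hx
      linarith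
    vB := fun x hx => by
      have : 1 - κ ≤ v x := hx
      linarith
    vA := bas.vA
    uB := bas.uB }
  have D' := D.swap
  -- constants
  have Ck : 2000 * c ^ 2 / ρ / k = 2000 * (c / ρ) * (c / k) := by
    field_simp
  have cρ : 1 ≤ c / ρ := by
    rw [le_div_iff₀ hρ0]
    linarith
  have hC : ∀ a : ℝ, a ≤ 2000 → a * (c / k) ≤ 2000 * c ^ 2 / ρ / k := by
    intro a ha
    rw [Ck]
    refine mul_le_mul_of_nonneg_right ?_ s0.le
    nlinarith
  have hC1 : c / k ≤ 2000 * c ^ 2 / ρ / k := by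
    have := hC 1 (by norm_num)
    linarith
  have hCd : ∀ a : ℝ, a ≤ 2000 → a * (δ * (c / k)) ≤ 2000 * c ^ 2 / ρ * δ / k := by
    intro a ha
    have e : 2000 * c ^ 2 / ρ * δ / k = (2000 * c ^ 2 / ρ / k) * δ := by ring
    rw [e]
    have := mul_le_mul_of_nonneg_right (hC a ha) d0.le
    linarith
  refine ⟨⟨?_, ?_, ?_, ?_⟩, ?_, ?_, ?_, ?_, ?_, ?_, ?_, ?_, ?_, ?_, ?_, ?_, ?_, ?_, ?_⟩
  · exact boo.eta.trans hC1
  · exact boo.msR.trans hC1
  · exact boo.oR.trans hCc
  · exact boo.dC.trans (mul_le_mul_of_nonneg_right hCc (by positivity))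
  · exact (msA h2 D).trans (hC 40 (by norm_num))
  · exact (msA h2 D').trans (hC 40 (by norm_num))
  · have := (phA h2 D).1
    linarith
  · have := (phA h2 D').1
    simp only [add_comm (v _)] at this
    linarith
  · have := qA h2 D
    have := hC 23 (by norm_num)
    linarith
  · have := qA h2 D'
    simp only [add_comm (v _)] at this
    have := hC 23 (by norm_num)
    linarith
  · intro x
    have h50 := hC 50 (by norm_num)
    rcases bas.cor.cov x with hx | hx | hx
    · linarith [phiA h2 D hx]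
    · linarith [phiA h2 D' hx]
    · linarith [phR D hx]
  · exact (omA h2 D).trans (hC 300 (by norm_num))
  · have := omA h2 D'
    rw [om_comm] at this
    exact this.trans (hC 300 (by norm_num))
  · exact (vAe h2 D).trans (hCd 80 (by norm_num))
  · exact (vAe h2 D').trans (hCd 80 (by norm_num))
  · have hν : 1 / 2 - 2 * (c / k) ≤ ν := by
      have a1 := D.l1
      have a2 := D.g2
      nlinarith
    have h10 := hC 10 (by norm_num)
    have h11 : 1 / ν ≤ 2 * (1 + 10 * (c / k)) := by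
      rw [div_le_iff₀ (by linarith)]
      nlinarith
    linarith
  · intro x hx
    refine (euE h2 D hx).trans ?_
    have hu := (D.uR x hx).1
    refine mul_le_mul_of_nonneg_right ?_ hu.le
    rw [Ck]
    refine mul_le_mul_of_nonneg_right ?_ s0.le
    have : 850 / ρ = 850 * (1 / ρ) := by ring
    rw [this]
    have : 1 / ρ ≤ c / ρ := div_le_div_of_nonneg_right hc1 hρ0.le
    have : 0 < 1 / ρ := by positivity
    linarith
  · intro x hx
    have hu := (D.vR x hx).1
    have := euE h2 D' hx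
    refine this.trans ?_
    refine mul_le_mul_of_nonneg_right ?_ hu.le
    rw [Ck]
    refine mul_le_mul_of_nonneg_right ?_ s0.le
    have : 850 / ρ = 850 * (1 / ρ) := by ring
    rw [this]
    have : 1 / ρ ≤ c / ρ := div_le_div_of_nonneg_right hc1 hρ0.le
    have : 0 < 1 / ρ := by positivity
    linarith
  · have hg : 6 / 25 * (δ * (c / k)) ≤ c * γ := by
      have a1 : δ * (12 / 25) / (2 * k) ≤ γ := by
        refine le_trans ?_ gam1
        refine div_le_div_of_nonneg_right ?_ (by positivity)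
        refine mul_le_mul_of_nonneg_left ?_ d0.le
        linarith
      have e : 6 / 25 * (δ * (c / k)) = c * (δ * (12 / 25) / (2 * k)) := by
        field_simp
        ring
      rw [e]
      exact mul_le_mul_of_nonneg_left a1 hc0.le
    refine (flE h2 D hc1 hg).trans ?_
    refine mul_le_mul_of_nonneg_right ?_ g0
    rw [Ck]
    refine mul_le_mul_of_nonneg_right ?_ s0.le
    have : c ≤ c / ρ := by
      rw [le_div_iff₀ hρ0]
      nlinarith
    linarith

end Pool.Agent.OCX
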