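import Pool.Agent.OCX.Stmts
import Pool.Agent.OCX.Lib

/-! # OCX module TI: the normalised amplitude is at least `1 - K κ` -/

open scoped BigOperators

namespace Pool.Agent.OCX

namespace TI_

theorem pow_bound {K a : ℝ} (hK : 0 ≤ K) (ha : 0 ≤ a) (ha1 : a ≤ 1) (n : ℕ) :
    (1 + K * a) ^ n ≤ 1 + ((1 + K) ^ n - 1) * a := by
  induction n with
  | zero => simp
  | succ n ih =>
    have h1 : (1 : ℝ) ≤ (1 + K) ^ n := one_le_pow₀ (by linarith)
    have h2 : 0 ≤ 1 + K * a := by positivity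
    calc (1 + K * a) ^ (n + 1) = (1 + K * a) ^ n * (1 + K * a) := pow_succ _ _
      _ ≤ (1 + ((1 + K) ^ n - 1) * a) * (1 + K * a) := mul_le_mul_of_nonneg_right ih h2
      _ = 1 + ((1 + K) ^ n - 1) * a + K * a + K * ((1 + K) ^ n - 1) * (a * a) := by ring
      _ ≤ 1 + ((1 + K) ^ n - 1) * a + K * a + K * ((1 + K) ^ n - 1) * a := by
          have h3 : a * a ≤ a := by nlinarith
          have h4 : 0 ≤ K * ((1 + K) ^ n - 1) := mul_nonneg hK (by linarith)
          have := mul_le_mul_of_nonneg_left h3 h4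
          linarith
      _ = 1 + ((1 + K) ^ (n + 1) - 1) * a := by
          rw [pow_succ]; ring

theorem log_bound {x : ℝ} (hx : 0 ≤ x) (hx1 : x < 1) : Real.log (1 - x) ≤ -x - x ^ 2 / 2 := by
  have h1 : |x| < 1 := by
    rw [abs_of_nonneg hx]; exact hx1
  have h2 := Real.hasSum_pow_div_log_of_abs_lt_one h1
  have h3 := sum_le_hasSum (Finset.range 2) (fun i _ => by positivity) h2
  rw [Finset.sum_range_succ, Finset.sum_range_one] at h3
  norm_num at h3
  linarith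

theorem exp_bound {y : ℝ} (hy : 0 ≤ y) (hy1 : y ≤ 1 / 2) : Real.exp (-(2 * y)) ≤ 1 - y := by
  rw [Real.exp_neg]
  have h1 : 2 * y + 1 ≤ Real.exp (2 * y) := Real.add_one_le_exp _
  have h2 : 0 < 2 * y + 1 := by linarith
  calc (Real.exp (2 * y))⁻¹ ≤ (2 * y + 1)⁻¹ := by
        apply inv_anti₀ h2 h1
    _ ≤ 1 - y := by
        rw [inv_eq_one_div, div_le_iff₀ h2]
        nlinarith

/-- the final scalar estimate -/
theorem scalar {κ f D cc K2 W E s : ℝ} (hκ : 0 < κ) (hκ1 : κ ≤ 1 / 20) (hK2 : 0 ≤ K2)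
    (f0 : 0 ≤ f) (f1 : f ≤ 1 + κ ^ 2) (D0 : 1 / 8 ≤ D) (D1 : D < 1)
    (hcc : f * D ≤ (cc + κ ^ 2) * (1 + K2 * κ ^ 2))
    (hW : |W - (E - f)| ≤ κ ^ 2)
    (hs : 1 - 2 * κ ^ 2 ≤ s) (hext : Real.exp (-E + W + cc) * s ≤ D) :
    1 - (4 * K2 + 14) * κ ≤ D := by
  have hk2 : κ ^ 2 ≤ 1 / 400 := by nlinarith
  have hk0 : 0 < κ ^ 2 := by positivity
  have hfD : f * D ≤ 2 := by nlinarith
  have hfD0 : 0 ≤ f * D := by nlinarith
  have c1 : f * D - 2 * K2 * κ ^ 2 - κ ^ 2 ≤ cc := by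
    by_contra hcon
    push Not at hcon
    have h1 : (cc + κ ^ 2) * (1 + K2 * κ ^ 2) <
        (f * D - 2 * K2 * κ ^ 2) * (1 + K2 * κ ^ 2) := by
      apply mul_lt_mul_of_pos_right (by linarith)
      positivity
    have h2 : (f * D - 2 * K2 * κ ^ 2) * (1 + K2 * κ ^ 2) ≤ f * D := by
      have e : (f * D - 2 * K2 * κ ^ 2) * (1 + K2 * κ ^ 2) =
        f * D - (2 - f * D) * (K2 * κ ^ 2) - 2 * (K2 * κ ^ 2) ^ 2 := by ring
      rw [e]
      have h3 : 0 ≤ (2 - f * D) * (K2 * κ ^ 2) := mul_nonneg (by linarith) (by positivity)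
      have h4 : 0 ≤ (K2 * κ ^ 2) ^ 2 := sq_nonneg _
      linarith
    linarith
  have hWl := (abs_le.1 hW).1
  have c2 : -(1 - D) - (2 * K2 + 3) * κ ^ 2 ≤ -E + W + cc := by
    have h1 : f * (1 - D) ≤ (1 + κ ^ 2) * (1 - D) :=
      mul_le_mul_of_nonneg_right f1 (by linarith)
    nlinarith
  have c3 : Real.exp (-(4 * κ ^ 2)) ≤ s := by
    have := exp_bound (y := 2 * κ ^ 2) (by positivity) (by linarith)
    rw [show -(2 * (2 * κ ^ 2)) = -(4 * κ ^ 2) by ring] at this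
    linarith
  have c4 : Real.exp (-(1 - D) - (2 * K2 + 7) * κ ^ 2) ≤ D := by
    calc Real.exp (-(1 - D) - (2 * K2 + 7) * κ ^ 2)
        = Real.exp (-(1 - D) - (2 * K2 + 3) * κ ^ 2) * Real.exp (-(4 * κ ^ 2)) := by
          rw [← Real.exp_add]
          congr 1
          ring
      _ ≤ Real.exp (-E + W + cc) * s :=
          mul_le_mul (Real.exp_le_exp.2 c2) c3 (Real.exp_pos _).le (Real.exp_pos _).le
      _ ≤ D := hext
  have c5 : -(1 - D) - (2 * K2 + 7) * κ ^ 2 ≤ Real.log D :=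
    (Real.le_log_iff_exp_le (by linarith)).2 c4
  have c6 := log_bound (x := 1 - D) (by linarith) (by linarith)
  rw [show 1 - (1 - D) = D by ring] at c6
  have c7 : (1 - D) ^ 2 ≤ (4 * K2 + 14) * κ ^ 2 := by linarith
  have c8 : (1 - D) ^ 2 ≤ ((4 * K2 + 14) * κ) ^ 2 := by
    refine c7.trans ?_
    rw [mul_pow]
    apply mul_le_mul_of_nonneg_right _ hk0.le
    nlinarith
  have c9 : 1 - D ≤ (4 * K2 + 14) * κ := by
    have := abs_le_of_sq_le_sq' c8 (by positivity)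
    linarith [this.2]
  linarith

end TI_

open TI_ in
theorem ti_proof (h1 : Stmt_VM) (h2 : Stmt_VI) : Stmt_TI := by
  intro t
  obtain ⟨K1, hK1, hVM⟩ := h1 t
  refine ⟨4 * ((1 + K1) ^ (2 * t + 2) - 1) + 14, ?_, ?_⟩
  · have : (1 : ℝ) ≤ (1 + K1) ^ (2 * t + 2) := one_le_pow₀ (by linarith)
    linarith
  intro κ hκ hκ1 C
  obtain ⟨k1, hk1⟩ := hVM κ hκ hκ1 C
  obtain ⟨k2, hk2⟩ := h2 t κ hκ hκ1 C
  obtain ⟨k3, hk3⟩ := exists_nat_ge (C / κ ^ 2)
  refine ⟨max (max k1 k2) (max k3 1), ?_⟩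
  intro k hk V _ G A B R eA eB ω ξ δ cc hξ hC
  have hka : k1 ≤ k := le_trans (le_trans (le_max_left _ _) (le_max_left _ _)) hk
  have hkb : k2 ≤ k := le_trans (le_trans (le_max_right _ _) (le_max_left _ _)) hk
  have hkc : k3 ≤ k := le_trans (le_trans (le_max_left _ _) (le_max_right _ _)) hk
  have hkd : 1 ≤ k := le_trans (le_trans (le_max_right _ _) (le_max_right _ _)) hk
  have hκs : κ ^ 2 ≤ 1 / 400 := by nlinarith
  have hκp : 0 < κ ^ 2 := by positivity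
  have hξ2 : ξ ≤ 1 / 2 := by linarith
  obtain ⟨f0, f1, hW, hm, hD⟩ := hk1 k hka V G A B R eA eB ω ξ δ cc hξ2 hC
  have hvi := hk2 k hkb V G A B R eA eB ω ξ δ cc hξ2 hC
  set f := 4 * k * PS G R (2 * t + 1) (wI t eA eB) / δ with hf
  set D := DD t k δ with hDdef
  have hK2 : 0 ≤ (1 + K1) ^ (2 * t + 2) - 1 := by
    have : (1 : ℝ) ≤ (1 + K1) ^ (2 * t + 2) := one_le_pow₀ (by linarith)
    linarith
  by_cases hD1 : 1 ≤ D
  · have : 0 ≤ (4 * ((1 + K1) ^ (2 * t + 2) - 1) + 14) * κ := by positivity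
    linarith
  push Not at hD1
  have hkpos : (0 : ℝ) < k := by exact_mod_cast hkd
  have hCk : C / k ≤ κ ^ 2 := by
    rw [div_le_iff₀ hkpos]
    have h3 : C / κ ^ 2 ≤ k := hk3.trans (by exact_mod_cast hkc)
    rw [div_le_iff₀ hκp] at h3
    linarith
  have hprod : (∏ l ∈ Finset.Icc 1 (2 * t + 1), k * avS (Vl t G R A B l) ω) ≤
      (1 + K1 * κ ^ 2) ^ (2 * t + 1) := by
    calc (∏ l ∈ Finset.Icc 1 (2 * t + 1), k * avS (Vl t G R A B l) ω)
        ≤ ∏ _l ∈ Finset.Icc 1 (2 * t + 1), (1 + K1 * κ ^ 2) := by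
          refine Finset.prod_le_prod (fun l _ => ?_) (fun l hl => ?_)
          · refine mul_nonneg hkpos.le (avS_nonneg fun x hx => ?_)
            have := hC.om2 x hx.1.mem
            linarith
          · rw [Finset.mem_Icc] at hl
            exact hm l hl.1 hl.2
      _ = (1 + K1 * κ ^ 2) ^ (2 * t + 1) := by
          rw [Finset.prod_const, Nat.card_Icc]
          rfl
  have hprod0 : 0 ≤ (∏ l ∈ Finset.Icc 1 (2 * t + 1), k * avS (Vl t G R A B l) ω) := by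
    refine Finset.prod_nonneg (fun l _ => ?_)
    refine mul_nonneg hkpos.le (avS_nonneg fun x hx => ?_)
    have := hC.om2 x hx.1.mem
    linarith
  have hcc : f * D ≤ (cc + κ ^ 2) * (1 + ((1 + K1) ^ (2 * t + 2) - 1) * κ ^ 2) := by
    have hc0 := hC.c0
    refine hvi.trans ?_
    rw [mul_assoc]
    refine mul_le_mul_of_nonneg_left ?_ (by positivity)
    have hpb := pow_bound (K := K1) (a := κ ^ 2) (by linarith) hκp.le (by linarith) (2 * t + 2)
    refine le_trans ?_ hpb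
    calc (∏ l ∈ Finset.Icc 1 (2 * t + 1), k * avS (Vl t G R A B l) ω) * (1 + κ ^ 2)
        ≤ (1 + K1 * κ ^ 2) ^ (2 * t + 1) * (1 + K1 * κ ^ 2) := by
          refine mul_le_mul hprod ?_ (by positivity) (by positivity)
          nlinarith
      _ = (1 + K1 * κ ^ 2) ^ (2 * t + 2) := (pow_succ _ _).symm
  have hs : 1 - 2 * κ ^ 2 ≤ 1 - ξ - C / k := by linarith
  have hext : Real.exp (-(2 * t + 2 : ℝ) + k * avS R ω + cc) * (1 - ξ - C / k) ≤ D := by
    have h3 := hC.ext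
    rw [hDdef]
    unfold DD
    rw [le_div_iff₀ (by positivity)]
    have h4 : (0 : ℝ) < k ^ (2 * t + 1) := by positivity
    have h5 := mul_le_mul_of_nonneg_right h3 h4.le
    refine le_trans (le_of_eq ?_) h5
    rw [one_div, inv_pow]
    field_simp
  exact scalar hκ hκ1 hK2 f0 f1 hD hD1 hcc hW hs hext

end Pool.Agent.OCX
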