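import Pool.Agent.OCX.Stmts
import Pool.Agent.OCX.Lib

/-!
# TJ: no crossing of type II has two fat ends
-/

set_option autoImplicit false

open scoped BigOperators

namespace Pool.Agent.OCX

namespace TJ_

section

variable {V : Type} [Fintype V] {G : SimpleGraph V} {A B R : Set V} {t k : ℕ}
  {κ κ0 C ξ δ cc : ℝ} {eA eB ω : V → ℝ}

/-- the indicator of the vertex `σ` -/
noncomputable def ind (σ x : V) : ℝ := ({σ} : Set V).indicator (fun _ => (1 : ℝ)) x

omit [Fintype V] in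
lemma ind_self (σ : V) : ind σ σ = 1 := Set.indicator_of_mem (Set.mem_singleton σ) _

omit [Fintype V] in
lemma ind_ne {σ x : V} (h : x ≠ σ) : ind σ x = 0 :=
  Set.indicator_of_notMem (fun h' => h (Set.mem_singleton_iff.1 h')) _

omit [Fintype V] in
lemma ind_nonneg (σ x : V) : 0 ≤ ind σ x := Set.indicator_nonneg (fun _ _ => zero_le_one) _

omit [Fintype V] in
lemma TyC.rev {e : V → ℝ} {y : Fin (2 * t + 2) → V} (h : TyC t G R e y) :
    TyC t G R e (fun i => y i.rev) := by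
  refine ⟨h.1.rev, ?_, ?_⟩
  · have : (0 : Fin (2 * t + 2)).rev = Fin.last (2 * t + 1) := Fin.rev_zero _
    simp only [this]
    exact h.2.2
  · have : (Fin.last (2 * t + 1)).rev = 0 := Fin.rev_last _
    simp only [this]
    exact h.2.1

lemma PS_zero {m : ℕ} {F : (Fin m → V) → ℝ} (h : ∀ y, IsP G R y → F y = 0) : PS G R m F = 0 := by
  rw [PS_congr (F' := fun _ => 0) h]
  unfold PS
  simp

omit [Fintype V] in
lemma vis_zero {σ : V} {m : ℕ} {y : Fin m → V} (h : ∀ i, y i ≠ σ) : vis {σ} y = 0 := by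
  unfold vis
  exact Finset.sum_eq_zero fun i _ =>
    Set.indicator_of_notMem (fun h' => h i (Set.mem_singleton_iff.1 h')) _

/-- only the paths of type A pass `σ`, in the middle -/
lemma Kf_le (hC : Cmb t k κ C ξ G A B R eA eB ω δ cc) (fb : Gfb t κ κ0 G R eA eB) {σ : V}
    (h1 : σ ∈ Gj t G R eA κ0 t) (h2 : σ ∈ Gj t G R eA κ0 (t + 1)) :
    Kf t G R eA eB {σ} ≤
      PS G R (2 * t + 2) (fun y => wC t eA y * ind σ (y ⟨t, by omega⟩)) := by
  have e1 : PS G R (2 * t + 1) (fun y => wI t eA eB y * vis {σ} y) = 0 := by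
    refine PS_zero fun y hy => ?_
    by_cases hT : 0 < eB (y 0) ∧ 0 < eA (y (Fin.last (2 * t)))
    · have hTy : TyI t G R eA eB y := ⟨hy, hT.1, hT.2⟩
      rw [vis_zero, mul_zero]
      intro i hi
      have a1 := fb.g1 y hTy i t (by rw [hi]; exact h1)
      have a2 := fb.g1 y hTy i (t + 1) (by rw [hi]; exact h2)
      omega
    · unfold wI
      rcases not_and_or.1 hT with h | h
      · rw [le_antisymm (not_lt.1 h) (hC.eB0 _)]
        ring
      · rw [le_antisymm (not_lt.1 h) (hC.eA0 _)]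
        ring
  have e2 : PS G R (2 * t + 2) (fun y => (wC t eA y + wC t eB y) * vis {σ} y) ≤
      PS G R (2 * t + 2) (fun y => wC t eA y * ind σ (y ⟨t, by omega⟩) +
        wC t eA y * ind σ (y ⟨t + 1, by omega⟩)) := by
    refine PS_mono fun y hy => ?_
    have eB_zero : wC t eB y * vis {σ} y = 0 := by
      by_cases hT : 0 < eB (y 0) ∧ 0 < eB (y (Fin.last (2 * t + 1)))
      · have hTy : TyC t G R eB y := ⟨hy, hT.1, hT.2⟩
        rw [vis_zero, mul_zero]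
        intro i hi
        have a1 := fb.g3 y hTy i t (by rw [hi]; exact h1)
        have a2 := fb.g3 y hTy i (t + 1) (by rw [hi]; exact h2)
        omega
      · unfold wC
        rcases not_and_or.1 hT with h | h
        · rw [le_antisymm (not_lt.1 h) (hC.eB0 _)]
          ring
        · rw [le_antisymm (not_lt.1 h) (hC.eB0 _)]
          ring
    rw [add_mul, eB_zero, add_zero, ← mul_add]
    by_cases hT : 0 < eA (y 0) ∧ 0 < eA (y (Fin.last (2 * t + 1)))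
    · have hTy : TyC t G R eA y := ⟨hy, hT.1, hT.2⟩
      have hw : 0 ≤ wC t eA y := by
        unfold wC
        have := hT.1
        have := hT.2
        positivity
      refine mul_le_mul_of_nonneg_left ?_ hw
      have hloc : ∀ i, y i = σ → (i : ℕ) = t ∨ (i : ℕ) = t + 1 := by
        intro i hi
        rcases fb.g2 y hTy i t (by rw [hi]; exact h1) with ⟨h, -⟩ | ⟨h, -⟩
        · exact Or.inl h
        · exact Or.inr (by omega)
      unfold vis
      calc ∑ i, ({σ} : Set V).indicator (fun _ => (1 : ℝ)) (y i)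
          ≤ ∑ i : Fin (2 * t + 2), ((if i = ⟨t, by omega⟩ then ind σ (y ⟨t, by omega⟩) else 0) +
              (if i = ⟨t + 1, by omega⟩ then ind σ (y ⟨t + 1, by omega⟩) else 0)) := by
            refine Finset.sum_le_sum fun i _ => ?_
            by_cases hi : y i = σ
            · rcases hloc i hi with h | h
              · have hi' : i = ⟨t, by omega⟩ := Fin.ext h
                have hne : i ≠ ⟨t + 1, by omega⟩ := by
                  intro h'
                  rw [h'] at h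
                  simp only at h
                  omega
                rw [if_pos hi', if_neg hne, add_zero, ← hi']
                exact le_rfl
              · have hi' : i = ⟨t + 1, by omega⟩ := Fin.ext h
                have hne : i ≠ ⟨t, by omega⟩ := by
                  intro h'
                  rw [h'] at h
                  simp only at h
                  omega
                rw [if_pos hi', if_neg hne, zero_add, ← hi']
                exact le_rfl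
            · rw [Set.indicator_of_notMem (fun h' => hi (Set.mem_singleton_iff.1 h'))]
              have n1 := ind_nonneg σ (y ⟨t, by omega⟩)
              have n2 := ind_nonneg σ (y ⟨t + 1, by omega⟩)
              split_ifs <;> linarith
        _ = ind σ (y ⟨t, by omega⟩) + ind σ (y ⟨t + 1, by omega⟩) := by
            rw [Finset.sum_add_distrib, Finset.sum_ite_eq', Finset.sum_ite_eq']
            simp
    · have hw : wC t eA y = 0 := by
        unfold wC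
        rcases not_and_or.1 hT with h | h
        · rw [le_antisymm (not_lt.1 h) (hC.eA0 _)]
          ring
        · rw [le_antisymm (not_lt.1 h) (hC.eA0 _)]
          ring
      rw [hw, zero_mul, zero_mul]
  have e3 : PS G R (2 * t + 2) (fun y => wC t eA y * ind σ (y ⟨t + 1, by omega⟩)) =
      PS G R (2 * t + 2) (fun y => wC t eA y * ind σ (y ⟨t, by omega⟩)) := by
    rw [← PS_rev (fun y => wC t eA y * ind σ (y ⟨t, by omega⟩))]
    refine PS_congr fun y _ => ?_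
    simp only [wC_rev]
    have : (⟨t, by omega⟩ : Fin (2 * t + 2)).rev = ⟨t + 1, by omega⟩ := by
      apply Fin.ext
      rw [Fin.val_rev]
      simp only
      omega
    rw [this]
  unfold Kf
  rw [e1]
  rw [PS_add, e3] at e2
  linarith

/-- the possible vertices at place `i` -/
def SS (t : ℕ) (G : SimpleGraph V) (R : Set V) (eA : V → ℝ) (σ : V) (i : Fin (2 * t + 2)) :
    Set V :=
  {x | ∃ y : Fin (2 * t + 2) → V, TyC t G R eA y ∧ y ⟨t, by omega⟩ = σ ∧ y i = x}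

omit [Fintype V] in
/-- facts on the paths through `σ` -/
lemma facts (ga : Gfa t k κ C G A B R eA eB cc) (fb : Gfb t κ κ0 G R eA eB) {σ : V}
    (h1 : σ ∈ Gj t G R eA κ0 t) (h2 : σ ∈ Gj t G R eA κ0 (t + 1))
    {y : Fin (2 * t + 2) → V} (hy : TyC t G R eA y) (hσ : y ⟨t, by omega⟩ = σ) :
    (∀ r : Fin (2 * t + 2), t ≤ (r : ℕ) → y r ∈ Gj t G R eA κ0 r) ∧
    (∀ r : Fin (2 * t + 2), (r : ℕ) ≤ t → y r ∈ Gj t G R eA κ0 (r.rev : Fin (2 * t + 2))) ∧
    eA (y 0) ≤ 1 - κ0 + C / k ∧ eA (y (Fin.last (2 * t + 1))) ≤ 1 - κ0 + C / k := by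
  have q1 := fb.g2 y hy ⟨t, by omega⟩ t (by rw [hσ]; exact h1)
  have q2 := fb.g2 y hy ⟨t, by omega⟩ (t + 1) (by rw [hσ]; exact h2)
  simp only at q1 q2
  rcases q1 with ⟨-, z, hz, hz0, hzr⟩ | ⟨hbad, -⟩
  swap
  · omega
  rcases q2 with ⟨hbad, -⟩ | ⟨-, z', hz', hz0', hzr'⟩
  · omega
  refine ⟨?_, ?_, ?_, ?_⟩
  · intro r hr
    refine ⟨z, hz, hz0, r.2, ?_⟩
    exact hzr r hr
  · intro r hr
    refine ⟨z', hz', hz0', (r.rev).2, ?_⟩
    exact hzr' r hr
  · have := hzr' 0 (by simp)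
    have e0 : (0 : Fin (2 * t + 2)).rev = Fin.last (2 * t + 1) := Fin.rev_zero _
    rw [e0] at this
    have h3 := ga.a1 z' hz'
    rw [this] at h3
    linarith
  · have := hzr (Fin.last (2 * t + 1)) (by simp only [Fin.val_last]; omega)
    have h3 := ga.a1 z hz
    rw [this] at h3
    linarith

/-- disjointness of the possible vertices at opposite places -/
lemma disj (hC : Cmb t k κ C ξ G A B R eA eB ω δ cc) {σ : V} {i : Fin (2 * t + 2)}
    (hi : t + 2 ≤ (i : ℕ)) : Disjoint (SS t G R eA σ i) (SS t G R eA σ i.rev) := by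
  rw [Set.disjoint_left]
  rintro x ⟨y, hy, hyσ, hyx⟩ ⟨y', hy', hyσ', hyx'⟩
  have hi2 := i.2
  obtain ⟨p, hp⟩ := hy.1.walk t ((i : ℕ) - t) (by omega)
  obtain ⟨p', hp'⟩ := hy'.1.walk (2 * t + 1 - (i : ℕ)) ((i : ℕ) - t - 1) (by omega)
  have e1 : (⟨t + ((i : ℕ) - t), by omega⟩ : Fin (2 * t + 2)) = i := by
    apply Fin.ext
    simp only
    omega
  have e2 : (⟨2 * t + 1 - (i : ℕ), by omega⟩ : Fin (2 * t + 2)) = i.rev := by
    apply Fin.ext
    rw [Fin.val_rev]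
    simp only
    omega
  have e3 : (⟨2 * t + 1 - (i : ℕ) + ((i : ℕ) - t - 1), by omega⟩ : Fin (2 * t + 2)) =
      ⟨t, by omega⟩ := by
    apply Fin.ext
    simp only
    omega
  have key := hC.og σ ((p.copy hyσ (by rw [e1, hyx])).append
    (p'.copy (by rw [e2, hyx']) (by rw [e3, hyσ'])))
  rw [SimpleGraph.Walk.length_append, SimpleGraph.Walk.length_copy,
    SimpleGraph.Walk.length_copy, hp, hp'] at key
  have := key ⟨(i : ℕ) - t - 1, by omega⟩
  omega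

/-- product over the places -/
lemma prod_bound {m : Fin (2 * t + 2) → ℝ} {c s : ℝ} (hm : ∀ i, 0 ≤ m i) (hc : 0 < c)
    (hs : 0 ≤ s) (h1 : ∀ i : Fin (2 * t + 2), t + 2 ≤ (i : ℕ) → m i + m i.rev ≤ 2 * c)
    (h2 : m ⟨t, by omega⟩ ≤ s) (h3 : m ⟨t + 1, by omega⟩ ≤ c) :
    ∏ i, m i ≤ c ^ (2 * t + 1) * s := by
  have hrev : ∏ i : Fin (2 * t + 2), m i.rev = ∏ i, m i := Fintype.prod_equiv Fin.revPerm _ _ fun i => rfl
  have hsq : (∏ i, m i) ^ 2 ≤ (c ^ (2 * t + 1) * s) ^ 2 := by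
    have e : (∏ i, m i) ^ 2 = ∏ i, m i * m i.rev := by
      rw [Finset.prod_mul_distrib, hrev, sq]
    rw [e]
    have hb : ∀ i : Fin (2 * t + 2), m i * m i.rev ≤ c ^ 2 *
        ((if i = ⟨t, by omega⟩ then s / c else 1) * (if i = ⟨t + 1, by omega⟩ then s / c else 1)) := by
      intro i
      have hms : m ⟨t, by omega⟩ * m ⟨t + 1, by omega⟩ ≤ s * c :=
        mul_le_mul h2 h3 (hm _) hs
      have hne : (⟨t, by omega⟩ : Fin (2 * t + 2)) ≠ ⟨t + 1, by omega⟩ := by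
        intro h
        have := congrArg Fin.val h
        simp only at this
        omega
      have hcs : c ^ 2 * (s / c) = s * c := by
        field_simp
      by_cases ha : i = ⟨t, by omega⟩
      · have hr : i.rev = ⟨t + 1, by omega⟩ := by
          rw [ha]
          apply Fin.ext
          rw [Fin.val_rev]
          simp only
          omega
        rw [if_pos ha, if_neg (by rw [ha]; exact hne), mul_one, hcs, hr, ha]
        exact hms
      · by_cases hb : i = ⟨t + 1, by omega⟩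
        · have hr : i.rev = ⟨t, by omega⟩ := by
            rw [hb]
            apply Fin.ext
            rw [Fin.val_rev]
            simp only
            omega
          rw [if_neg ha, if_pos hb, one_mul, hcs, hr, hb, mul_comm]
          exact hms
        · rw [if_neg ha, if_neg hb, mul_one, mul_one]
          have hsum : m i + m i.rev ≤ 2 * c := by
            have ha' : (i : ℕ) ≠ t := fun h => ha (Fin.ext h)
            have hb' : (i : ℕ) ≠ t + 1 := fun h => hb (Fin.ext h)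
            rcases Nat.lt_or_ge (i : ℕ) t with hlt | hge
            · have h5 := h1 i.rev (by rw [Fin.val_rev]; have := i.2; omega)
              rw [Fin.rev_rev] at h5
              linarith
            · exact h1 i (by omega)
          nlinarith [hm i, hm i.rev, sq_nonneg (m i - m i.rev)]
    refine (Finset.prod_le_prod (fun i _ => mul_nonneg (hm i) (hm _)) fun i _ => hb i).trans ?_
    rw [Finset.prod_mul_distrib, Finset.prod_mul_distrib, Finset.prod_ite_eq',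
      Finset.prod_ite_eq']
    simp only [Finset.mem_univ, if_true, Finset.prod_const, Finset.card_univ, Fintype.card_fin]
    refine le_of_eq ?_
    have : c ≠ 0 := hc.ne'
    rw [← pow_mul, mul_pow, ← pow_mul]
    have e2 : c ^ (2 * (2 * t + 2)) = c ^ ((2 * t + 1) * 2) * c ^ 2 := by
      rw [← pow_add]
      congr 1
      ring
    rw [e2]
    field_simp
  exact le_of_sq_le_sq hsq (mul_nonneg (pow_nonneg hc.le _) hs)
where
  le_of_sq_le_sq {a b : ℝ} (h : a ^ 2 ≤ b ^ 2) (hb : 0 ≤ b) : a ≤ b := abs_le_of_sq_le_sq' h hb |>.2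

/-- elementary bound for the end factors -/
lemma fbl {κ0 a b : ℝ} (h0 : 0 < κ0) (h1 : κ0 ≤ 1 / 4) (ha : 0 ≤ a) (hb : 0 ≤ b)
    (ha1 : a ≤ 1 - κ0 + κ0 ^ 2 / 120) (hb1 : b ≤ 1 - κ0 + κ0 ^ 2 / 120)
    (hab : a + b ≤ 1 + κ0 ^ 2 / 120) :
    a * b ≤ 1 / 2 * (1 - κ0 / 4) *
      ((1 - (a + κ0 ^ 2 / 120) ^ 2) * (1 - (b + κ0 ^ 2 / 120) ^ 2)) := by
  obtain ⟨h, hh⟩ : ∃ h, h = κ0 ^ 2 / 120 := ⟨_, rfl⟩
  rw [← hh] at ha1 hb1 hab ⊢
  have hh0 : 0 < h := by rw [hh]; positivity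
  have hh1 : h ≤ κ0 / 480 := by rw [hh]; nlinarith
  obtain ⟨p, hp⟩ : ∃ p, p = a * b := ⟨_, rfl⟩
  obtain ⟨s, hs⟩ : ∃ s, s = a + b := ⟨_, rfl⟩
  have hp0 : 0 ≤ p := by rw [hp]; exact mul_nonneg ha hb
  have hs0 : 0 ≤ s := by rw [hs]; exact add_nonneg ha hb
  have hM : (1 - κ0 + h) * (s - (1 - κ0 + h)) ≤ p := by
    rw [hp, hs]
    nlinarith [mul_nonneg (sub_nonneg.2 ha1) (sub_nonneg.2 hb1)]
  have key : 0 ≤ 1 - (s + 2 * h) ^ 2 + p * (p - 8 * κ0 / 15) := by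
    rcases lt_or_ge s (1 - κ0 / 8) with hlt | hge
    · have e1 : κ0 / 8 - 2 * h ≤ 1 - (s + 2 * h) ^ 2 := by nlinarith
      have e2 : -(4 * κ0 / 15) ^ 2 ≤ p * (p - 8 * κ0 / 15) := by
        nlinarith [sq_nonneg (p - 4 * κ0 / 15)]
      nlinarith
    · have e1 : 13 / 20 * κ0 ≤ p := by nlinarith
      have e2 : 13 / 20 * κ0 * (13 / 20 * κ0 - 8 * κ0 / 15) ≤ p * (p - 8 * κ0 / 15) := by
        apply mul_le_mul e1 (by linarith) (by linarith) hp0
      have e3 : (s + 2 * h) ^ 2 ≤ (1 + 3 * h) ^ 2 := by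
        apply pow_le_pow_left₀ (by linarith)
        rw [← hs] at hab
        linarith
      have e4 : (1 + 3 * h) ^ 2 ≤ 1 + 7 * h := by nlinarith
      have e5 : 7 * h = 7 * κ0 ^ 2 / 120 := by rw [hh]; ring
      nlinarith
  have e6 : (1 + p) ^ 2 - (s + 2 * h) ^ 2 ≤ (1 - (a + h) ^ 2) * (1 - (b + h) ^ 2) := by
    have e7 : (1 - (a + h) ^ 2) * (1 - (b + h) ^ 2) =
        (1 + (a + h) * (b + h)) ^ 2 - (s + 2 * h) ^ 2 := by rw [hs]; ring
    rw [e7]
    have e8 : 1 + p ≤ 1 + (a + h) * (b + h) := by rw [hp]; nlinarith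
    have e9 : (1 + p) ^ 2 ≤ (1 + (a + h) * (b + h)) ^ 2 :=
      pow_le_pow_left₀ (by linarith) e8 2
    linarith
  have e10 : 2 * p + 8 * κ0 / 15 * p ≤ (1 - (a + h) ^ 2) * (1 - (b + h) ^ 2) := by nlinarith
  have e11 : p ≤ 1 / 2 * (1 - κ0 / 4) * (2 * p + 8 * κ0 / 15 * p) := by
    have : 1 / 2 * (1 - κ0 / 4) * (2 * p + 8 * κ0 / 15 * p) - p =
        p * κ0 * (1 / 60 - κ0 / 15) := by ring
    have h2 : 0 ≤ p * κ0 * (1 / 60 - κ0 / 15) :=
      mul_nonneg (mul_nonneg hp0 h0.le) (by linarith)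
    linarith
  rw [← hp]
  refine e11.trans (mul_le_mul_of_nonneg_left e10 ?_)
  have : 0 ≤ 1 - κ0 / 4 := by linarith
  positivity

omit [Fintype V] in
/-- the weight of a path of type A through `σ` -/
lemma weight {ω : V → ℝ} {h : ℝ} (om1 : ∀ x ∈ R, 1 - (max (eA x) (eB x) + C / k) ^ 2 ≤ ω x)
    (e0 : ∀ x, 0 ≤ eA x)
    (ga : Gfa t k κ C G A B R eA eB cc) (hκ : 0 < κ) (hκ2 : κ ≤ 1 / 64) (hκ0 : 16 * κ ≤ κ0)
    (hκ1 : κ0 ≤ 1 / 4) (hh : h = κ0 ^ 2 / 120) (hC0 : 0 ≤ C / k) (hCh : C / k ≤ h)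
    (hCκ : C / k ≤ κ)
    {y : Fin (2 * t + 2) → V} (hy : TyC t G R eA y) (h1 : eA (y 0) ≤ 1 - κ0 + C / k)
    (h2 : eA (y (Fin.last (2 * t + 1))) ≤ 1 - κ0 + C / k) :
    wC t eA y ≤ 2 ^ (2 * t) * (1 - κ0 / 4) / (1 - 9 * κ ^ 2) ^ (2 * t) * ∏ i, ω (y i) := by
  have hκ00 : 0 < κ0 := by linarith
  have hq : 0 < 1 - 9 * κ ^ 2 := by nlinarith
  obtain ⟨a, ha⟩ : ∃ a, a = max (eA (y 0)) (2 * κ) := ⟨_, rfl⟩
  obtain ⟨b, hb⟩ : ∃ b, b = max (eA (y (Fin.last (2 * t + 1)))) (2 * κ) := ⟨_, rfl⟩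
  have ha0 : 2 * κ ≤ a := ha ▸ le_max_right _ _
  have hb0 : 2 * κ ≤ b := hb ▸ le_max_right _ _
  have ha1 : a ≤ 1 - κ0 + h := by
    rw [ha]
    exact max_le (by linarith) (by linarith)
  have hb1 : b ≤ 1 - κ0 + h := by
    rw [hb]
    exact max_le (by linarith) (by linarith)
  have hab : a + b ≤ 1 + h := by
    have q1 := ga.a1 y hy
    rw [ha, hb]
    rcases max_cases (eA (y 0)) (2 * κ) with ⟨m1, -⟩ | ⟨m1, -⟩ <;>
      rcases max_cases (eA (y (Fin.last (2 * t + 1)))) (2 * κ) with ⟨m2, -⟩ | ⟨m2, -⟩ <;>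
      rw [m1, m2] <;> linarith
  have hfb := fbl hκ00 hκ1 (a := a) (b := b) (by linarith) (by linarith)
    (by rw [← hh]; exact ha1) (by rw [← hh]; exact hb1) (by rw [← hh]; exact hab)
  rw [← hh] at hfb
  have hh1 : h ≤ κ0 / 480 := by rw [hh]; nlinarith
  have hh0 : 0 ≤ h := hC0.trans hCh
  have A1 : 0 ≤ 1 - (a + h) ^ 2 := by nlinarith
  have B1 : 0 ≤ 1 - (b + h) ^ 2 := by nlinarith
  have A2 : 1 - (a + h) ^ 2 ≤ ω (y 0) := by
    refine le_trans ?_ (om1 _ (hy.1.1 0))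
    have q1 : max (eA (y 0)) (eB (y 0)) ≤ a := by
      rw [ha]
      exact max_le_max le_rfl (ga.a2 y hy 0)
    have q2 : 0 ≤ max (eA (y 0)) (eB (y 0)) := le_max_of_le_left (e0 _)
    have q3 : (max (eA (y 0)) (eB (y 0)) + C / k) ^ 2 ≤ (a + h) ^ 2 :=
      pow_le_pow_left₀ (by linarith) (by linarith) 2
    linarith
  have B2 : 1 - (b + h) ^ 2 ≤ ω (y (Fin.last (2 * t + 1))) := by
    refine le_trans ?_ (om1 _ (hy.1.1 _))
    have q1 : max (eA (y (Fin.last (2 * t + 1)))) (eB (y (Fin.last (2 * t + 1)))) ≤ b := by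
      rw [hb]
      exact max_le_max le_rfl (ga.a2 y hy _)
    have q2 : 0 ≤ max (eA (y (Fin.last (2 * t + 1)))) (eB (y (Fin.last (2 * t + 1)))) :=
      le_max_of_le_left (e0 _)
    have q3 : (max (eA (y (Fin.last (2 * t + 1)))) (eB (y (Fin.last (2 * t + 1)))) + C / k) ^ 2 ≤
        (b + h) ^ 2 := pow_le_pow_left₀ (by linarith) (by linarith) 2
    linarith
  have I1 : ∀ i : Fin (2 * t + 2), 0 < (i : ℕ) → (i : ℕ) < 2 * t + 1 →
      1 - 9 * κ ^ 2 ≤ ω (y i) := by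
    intro i hi0 hi1
    refine le_trans ?_ (om1 _ (hy.1.1 i))
    have q0 := ga.a3 y hy i hi0 hi1
    have q1 : max (eA (y i)) (eB (y i)) ≤ 2 * κ := by
      rw [q0]
      exact max_le (by linarith) (ga.a2 y hy i)
    have q2 : 0 ≤ max (eA (y i)) (eB (y i)) := le_max_of_le_left (e0 _)
    have q3 : (max (eA (y i)) (eB (y i)) + C / k) ^ 2 ≤ (3 * κ) ^ 2 :=
      pow_le_pow_left₀ (by linarith) (by linarith) 2
    nlinarith
  have P1 : (1 - 9 * κ ^ 2) ^ (2 * t) * (ω (y 0) * ω (y (Fin.last (2 * t + 1)))) ≤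
      ∏ i, ω (y i) := by
    rw [Fin.prod_univ_succ, Fin.prod_univ_castSucc]
    have q1 : (1 - 9 * κ ^ 2) ^ (2 * t) ≤
        ∏ i : Fin (2 * t), ω (y (Fin.castSucc i).succ) := by
      calc (1 - 9 * κ ^ 2) ^ (2 * t) = ∏ _i : Fin (2 * t), (1 - 9 * κ ^ 2) := by
            rw [Finset.prod_const, Finset.card_univ, Fintype.card_fin]
        _ ≤ _ := by
            refine Finset.prod_le_prod (fun i _ => hq.le) fun i _ => I1 _ ?_ ?_
            · simp
            · have := i.2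
              simp only [Fin.val_succ, Fin.val_castSucc]
              omega
    have q2 : (Fin.last (2 * t)).succ = Fin.last (2 * t + 1) := Fin.succ_last _
    rw [q2]
    have q3 : 0 ≤ ω (y 0) := A1.trans A2
    have q4 : 0 ≤ ω (y (Fin.last (2 * t + 1))) := B1.trans B2
    have q5 := mul_le_mul_of_nonneg_right q1 (mul_nonneg q3 q4)
    refine q5.trans (le_of_eq ?_)
    ring
  have W1 : wC t eA y ≤ 2 ^ (2 * t) * (1 - κ0 / 4) * (ω (y 0) * ω (y (Fin.last (2 * t + 1)))) := by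
    unfold wC
    have q1 : eA (y 0) * eA (y (Fin.last (2 * t + 1))) ≤ a * b :=
      mul_le_mul (ha ▸ le_max_left _ _) (hb ▸ le_max_left _ _) (e0 _) (by linarith)
    have q2 : (1 - (a + h) ^ 2) * (1 - (b + h) ^ 2) ≤ ω (y 0) * ω (y (Fin.last (2 * t + 1))) :=
      mul_le_mul A2 B2 B1 (A1.trans A2)
    have q3 : 0 ≤ 1 / 2 * (1 - κ0 / 4) := by linarith
    have q4 : eA (y 0) * eA (y (Fin.last (2 * t + 1))) ≤
        1 / 2 * (1 - κ0 / 4) * (ω (y 0) * ω (y (Fin.last (2 * t + 1)))) :=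
      (q1.trans hfb).trans (mul_le_mul_of_nonneg_left q2 q3)
    calc (2 : ℝ) ^ (2 * t + 1) * (eA (y 0) * eA (y (Fin.last (2 * t + 1))))
        ≤ 2 ^ (2 * t + 1) * (1 / 2 * (1 - κ0 / 4) * (ω (y 0) * ω (y (Fin.last (2 * t + 1))))) :=
          mul_le_mul_of_nonneg_left q4 (by positivity)
      _ = _ := by
          rw [pow_succ]
          ring
  have hq2 : 0 < (1 - 9 * κ ^ 2) ^ (2 * t) := pow_pos hq _
  refine W1.trans ?_
  rw [div_mul_eq_mul_div, le_div_iff₀ hq2]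
  have q6 : 0 ≤ 2 ^ (2 * t) * (1 - κ0 / 4) := mul_nonneg (by positivity) (by linarith)
  have := mul_le_mul_of_nonneg_left P1 q6
  refine le_trans (le_of_eq ?_) this
  ring

/-- the final estimate -/
lemma final {h : ℝ} (hC : Cmb t k κ C ξ G A B R eA eB ω δ cc)
    (ga : Gfa t k κ C G A B R eA eB cc) (fb : Gfb t κ κ0 G R eA eB)
    (gm : ∀ j, k * avS (Gj t G R eA κ0 j) ω ≤ 2 * (1 + κ ^ 2)) {σ : V}
    (h1 : σ ∈ Gj t G R eA κ0 t) (h2 : σ ∈ Gj t G R eA κ0 (t + 1))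
    (hN : avS (G.neighborSet σ ∩ Gj t G R eA κ0 (t + 1)) ω ≤ (1 + κ ^ 2) / k)
    (hκ : 0 < κ) (hκ2 : κ ≤ 1 / 64) (hκ0 : 16 * κ ≤ κ0)
    (hκ1 : κ0 ≤ 1 / 4) (hh : h = κ0 ^ 2 / 120) (hCh : C / k ≤ h) (hCκ : C / k ≤ κ ^ 2 / 8) :
    DD t k δ * (1 - κ) * (1 - 9 * κ ^ 2) ^ (2 * t) ≤
      (1 - κ0 / 4) * (1 + κ ^ 2) ^ (2 * t + 1) := by
  have hk0 : (0 : ℝ) < k := by
    have := hC.k1
    exact_mod_cast this
  have hC0 : 0 ≤ C / k := div_nonneg (by linarith [hC.C1]) hk0.le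
  have hCκ' : C / k ≤ κ := by nlinarith
  have hκ00 : 0 < κ0 := by linarith
  haveI := hC.ne
  have hNV : (0 : ℝ) < (Fintype.card V : ℝ) := by exact_mod_cast Fintype.card_pos
  have hq : 0 < 1 - 9 * κ ^ 2 := by nlinarith
  have hq2 : 0 < (1 - 9 * κ ^ 2) ^ (2 * t) := pow_pos hq _
  have hσR : σ ∈ R := by
    obtain ⟨z, hz, -, hj, hz2⟩ := h1
    rw [← hz2]
    exact hz.1.1 _
  obtain ⟨Λ, hΛ⟩ : ∃ Λ, Λ = 2 ^ (2 * t) * (1 - κ0 / 4) / (1 - 9 * κ ^ 2) ^ (2 * t) := ⟨_, rfl⟩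
  have hΛ0 : 0 ≤ Λ := by
    rw [hΛ]
    exact div_nonneg (mul_nonneg (by positivity) (by linarith)) hq2.le
  obtain ⟨c, hc⟩ : ∃ c : ℝ, c = (1 + κ ^ 2) / k := ⟨_, rfl⟩
  have hc0 : 0 < c := by rw [hc]; positivity
  have hω : ∀ x ∈ R, 0 ≤ ω x := fun x hx => by linarith [hC.om2 x hx]
  have hSR : ∀ i, SS t G R eA σ i ⊆ R := by
    rintro i x ⟨y, hy, -, rfl⟩
    exact hy.1.1 i
  have hGR : ∀ j, Gj t G R eA κ0 j ⊆ R := by
    rintro j x ⟨y, hy, -, hj, rfl⟩
    exact hy.1.1 _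
  have hgm : ∀ j, avS (Gj t G R eA κ0 j) ω ≤ 2 * c := by
    intro j
    have := gm j
    rw [hc, mul_div_assoc', le_div_iff₀ hk0]
    linarith
  -- the masses
  have hprod : ∏ i, avS (SS t G R eA σ i) ω ≤ c ^ (2 * t + 1) * (ω σ / (Fintype.card V : ℝ)) := by
    refine prod_bound (fun i => avS_nonneg fun x hx => hω x (hSR i hx)) hc0
      (div_nonneg (hω σ hσR) hNV.le) ?_ ?_ ?_
    · intro i hi
      rw [← avS_union (disj hC hi)]
      refine (avS_mono_set ?_ fun x hx => hω x (hGR i hx)).trans (hgm i)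
      rintro x (⟨y, hy, hyσ, rfl⟩ | ⟨y, hy, hyσ, rfl⟩)
      · exact (facts ga fb h1 h2 hy hyσ).1 i (by omega)
      · have := (facts ga fb h1 h2 hy hyσ).2.1 i.rev (by rw [Fin.val_rev]; omega)
        rw [Fin.rev_rev] at this
        exact this
    · rw [← avS_singleton]
      refine avS_mono_set ?_ fun x hx => ?_
      · rintro x ⟨y, hy, hyσ, rfl⟩
        rw [hyσ]
        exact Set.mem_singleton σ
      · rw [Set.mem_singleton_iff.1 hx]
        exact hω σ hσR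
    · rw [hc]
      refine (avS_mono_set ?_ fun x hx => hω x (hGR _ hx.2)).trans hN
      rintro x ⟨y, hy, hyσ, rfl⟩
      refine ⟨?_, (facts ga fb h1 h2 hy hyσ).1 ⟨t + 1, by omega⟩ (by simp)⟩
      rw [SimpleGraph.mem_neighborSet, ← hyσ]
      exact hy.1.2 _ _ rfl
  -- the path sum
  have hPS : PS G R (2 * t + 2) (fun y => wC t eA y * ind σ (y ⟨t, by omega⟩)) ≤
      Λ * (c ^ (2 * t + 1) * (ω σ / (Fintype.card V : ℝ))) := by
    have q1 : PS G R (2 * t + 2) (fun y => wC t eA y * ind σ (y ⟨t, by omega⟩)) ≤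
        PS G R (2 * t + 2) (fun y => Λ * ∏ i, (SS t G R eA σ i).indicator ω (y i)) := by
      refine PS_mono fun y hy => ?_
      have hr0 : 0 ≤ Λ * ∏ i, (SS t G R eA σ i).indicator ω (y i) :=
        mul_nonneg hΛ0 (Finset.prod_nonneg fun i _ =>
          Set.indicator_nonneg (fun x hx => hω x (hSR i hx)) _)
      by_cases hσ : y ⟨t, by omega⟩ = σ
      · by_cases hT : 0 < eA (y 0) ∧ 0 < eA (y (Fin.last (2 * t + 1)))
        · have hTy : TyC t G R eA y := ⟨hy, hT.1, hT.2⟩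
          obtain ⟨-, -, f1, f2⟩ := facts ga fb h1 h2 hTy hσ
          rw [hσ, ind_self, mul_one]
          have e1 : ∏ i, (SS t G R eA σ i).indicator ω (y i) = ∏ i, ω (y i) := by
            refine Finset.prod_congr rfl fun i _ => ?_
            exact Set.indicator_of_mem (show y i ∈ SS t G R eA σ i from ⟨y, hTy, hσ, rfl⟩) _
          rw [e1, hΛ]
          exact weight hC.om1 hC.eA0 ga hκ hκ2 hκ0 hκ1 hh hC0 hCh hCκ' hTy f1 f2
        · have hw : wC t eA y = 0 := by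
            unfold wC
            rcases not_and_or.1 hT with h | h
            · rw [le_antisymm (not_lt.1 h) (hC.eA0 _)]
              ring
            · rw [le_antisymm (not_lt.1 h) (hC.eA0 _)]
              ring
          rw [hw, zero_mul]
          exact hr0
      · rw [ind_ne hσ, mul_zero]
        exact hr0
    refine q1.trans ?_
    rw [PS_mul_left]
    refine mul_le_mul_of_nonneg_left ?_ hΛ0
    refine le_trans ?_ hprod
    exact PS_le_prod (fun i => SS t G R eA σ i) (fun _ => ω) (fun i x hx => hω x (hSR i hx))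
      fun y _ => le_rfl
  -- kkt
  have hkkt := (abs_le.1 (hC.kkt {σ} (Set.singleton_subset_iff.2 hσR))).1
  rw [avS_singleton, ms_singleton] at hkkt
  have hKf := (Kf_le hC fb h1 h2).trans hPS
  have s1 : δ / 4 * (ω σ / (Fintype.card V : ℝ)) - C / k * δ * (1 / (Fintype.card V : ℝ)) ≤
      Λ * (c ^ (2 * t + 1) * (ω σ / (Fintype.card V : ℝ))) := by linarith
  have s2 : δ / 4 * (ω σ - 4 * (C / k)) ≤ Λ * c ^ (2 * t + 1) * ω σ := by
    have e1 : δ / 4 * (ω σ / (Fintype.card V : ℝ)) - C / k * δ * (1 / (Fintype.card V : ℝ)) =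
        (δ / 4 * (ω σ - 4 * (C / k))) / (Fintype.card V : ℝ) := by ring
    have e2 : Λ * (c ^ (2 * t + 1) * (ω σ / (Fintype.card V : ℝ))) =
        (Λ * c ^ (2 * t + 1) * ω σ) / (Fintype.card V : ℝ) := by ring
    rw [e1, e2] at s1
    exact (div_le_div_iff_of_pos_right hNV).1 s1
  have hωσ := hC.om2 σ hσR
  have s3 : ω σ * (1 - κ) ≤ ω σ - 4 * (C / k) := by nlinarith
  have s4 : δ / 4 * (ω σ * (1 - κ)) ≤ Λ * c ^ (2 * t + 1) * ω σ :=
    (mul_le_mul_of_nonneg_left s3 (by linarith [hC.d0])).trans s2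
  have s5 : δ / 4 * (1 - κ) ≤ Λ * c ^ (2 * t + 1) := by
    have hpos : 0 < ω σ := by linarith
    refine le_of_mul_le_mul_right ?_ hpos
    linarith
  have e3 : DD t k δ = δ / 4 * ((k : ℝ) ^ (2 * t + 1) / 4 ^ t) := by
    unfold DD
    rw [pow_succ (4 : ℝ)]
    field_simp
  have e4 : c ^ (2 * t + 1) * (k : ℝ) ^ (2 * t + 1) = (1 + κ ^ 2) ^ (2 * t + 1) := by
    rw [← mul_pow, hc, div_mul_cancel₀ _ hk0.ne']
  have e5 : Λ * (1 - 9 * κ ^ 2) ^ (2 * t) = 4 ^ t * (1 - κ0 / 4) := by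
    rw [hΛ, div_mul_cancel₀ _ hq2.ne', pow_mul]
    norm_num
  have s6 : DD t k δ * (1 - κ) * (1 - 9 * κ ^ 2) ^ (2 * t) =
      (δ / 4 * (1 - κ)) * ((k : ℝ) ^ (2 * t + 1) / 4 ^ t * (1 - 9 * κ ^ 2) ^ (2 * t)) := by
    rw [e3]
    ring
  have s7 : (1 - κ0 / 4) * (1 + κ ^ 2) ^ (2 * t + 1) =
      (Λ * c ^ (2 * t + 1)) * ((k : ℝ) ^ (2 * t + 1) / 4 ^ t * (1 - 9 * κ ^ 2) ^ (2 * t)) := by
    rw [← e4]
    have : (Λ * c ^ (2 * t + 1)) * ((k : ℝ) ^ (2 * t + 1) / 4 ^ t * (1 - 9 * κ ^ 2) ^ (2 * t)) =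
        (Λ * (1 - 9 * κ ^ 2) ^ (2 * t)) / 4 ^ t * (c ^ (2 * t + 1) * (k : ℝ) ^ (2 * t + 1)) := by
      ring
    rw [this, e5]
    field_simp
  rw [s6, s7]
  refine mul_le_mul_of_nonneg_right s5 ?_
  positivity

end

/-- final arithmetic -/
lemma arith {κ κ0 K1 D : ℝ} {t : ℕ} (hκ : 0 < κ) (hκ2 : κ ≤ 1 / 64) (hK1 : 1 ≤ K1)
    (hK : 4 * (K1 + 20 * t + 3) * κ ≤ κ0) (hκ1 : κ0 ≤ 1 / 4) (hD : 1 - K1 * κ ≤ D)
    (h : D * (1 - κ) * (1 - 9 * κ ^ 2) ^ (2 * t) ≤ (1 - κ0 / 4) * (1 + κ ^ 2) ^ (2 * t + 1)) :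
    False := by
  have ht : (0 : ℝ) ≤ t := Nat.cast_nonneg t
  have hK1κ : K1 * κ ≤ 1 / 16 := by nlinarith [mul_nonneg ht hκ.le]
  obtain ⟨x, hx⟩ : ∃ x : ℝ, x = (1 - 9 * κ ^ 2) ^ (2 * t) := ⟨_, rfl⟩
  obtain ⟨z, hz⟩ : ∃ z : ℝ, z = (1 - κ ^ 2) ^ (2 * t + 1) := ⟨_, rfl⟩
  have hq : 0 ≤ 1 - 9 * κ ^ 2 := by nlinarith
  have hx0 : 0 ≤ x := by rw [hx]; exact pow_nonneg hq _
  have hx1 : x ≤ 1 := by rw [hx]; exact pow_le_one₀ hq (by nlinarith)
  have hx2 : 1 - 18 * t * κ ≤ x := by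
    have := one_add_mul_le_pow (a := -(9 * κ ^ 2)) (by nlinarith) (2 * t)
    rw [hx]
    have e : (1 : ℝ) + -(9 * κ ^ 2) = 1 - 9 * κ ^ 2 := by ring
    rw [e] at this
    push_cast at this
    nlinarith [mul_nonneg ht hκ.le]
  have hz0 : 0 ≤ z := by rw [hz]; exact pow_nonneg (by nlinarith) _
  have hz1 : z ≤ 1 := by rw [hz]; exact pow_le_one₀ (by nlinarith) (by nlinarith)
  have hz2 : 1 - (2 * t + 1) * κ ≤ z := by
    have := one_add_mul_le_pow (a := -(κ ^ 2)) (by nlinarith) (2 * t + 1)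
    rw [hz]
    have e : (1 : ℝ) + -(κ ^ 2) = 1 - κ ^ 2 := by ring
    rw [e] at this
    push_cast at this
    nlinarith [mul_nonneg ht hκ.le]
  have hzz : (1 + κ ^ 2) ^ (2 * t + 1) * z ≤ 1 := by
    rw [hz, ← mul_pow]
    apply pow_le_one₀
    · nlinarith
    · nlinarith [sq_nonneg (κ ^ 2)]
  rw [← hx] at h
  have h3 : (1 - K1 * κ) * (1 - κ) * x ≤ D * (1 - κ) * x :=
    mul_le_mul_of_nonneg_right (mul_le_mul_of_nonneg_right hD (by linarith)) hx0
  have h4 : (1 - K1 * κ) * (1 - κ) * x * z ≤ 1 - κ0 / 4 := by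
    have h5 : (1 - K1 * κ) * (1 - κ) * x * z ≤
        (1 - κ0 / 4) * (1 + κ ^ 2) ^ (2 * t + 1) * z :=
      mul_le_mul_of_nonneg_right (h3.trans h) hz0
    have h6 : (1 - κ0 / 4) * ((1 + κ ^ 2) ^ (2 * t + 1) * z) ≤ (1 - κ0 / 4) * 1 :=
      mul_le_mul_of_nonneg_left hzz (by linarith)
    nlinarith
  obtain ⟨w, hw⟩ : ∃ w : ℝ, w = (1 - K1 * κ) * (1 - κ) := ⟨_, rfl⟩
  have hw2 : 1 - (K1 + 1) * κ ≤ w := by
    rw [hw]
    nlinarith [mul_nonneg (mul_nonneg (by linarith : (0 : ℝ) ≤ K1) hκ.le) hκ.le]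
  have hw1 : w ≤ 1 := by
    rw [hw]
    nlinarith
  have hw0 : 0 ≤ w := by
    rw [hw]
    exact mul_nonneg (by linarith) (by linarith)
  rw [← hw] at h4
  have h7 : w + x - 1 ≤ w * x := by nlinarith [mul_nonneg (sub_nonneg.2 hw1) (sub_nonneg.2 hx1)]
  have hwx0 : 0 ≤ w * x := mul_nonneg hw0 hx0
  have hwx1 : w * x ≤ 1 := by nlinarith
  have h8 : w * x + z - 1 ≤ w * x * z := by
    nlinarith [mul_nonneg (sub_nonneg.2 hwx1) (sub_nonneg.2 hz1)]
  nlinarith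

end TJ_

open TJ_

theorem tj_proof (hGRA : Stmt_GRA) (hGRB : Stmt_GRB) (hTI : Stmt_TI) (hGM2 : Stmt_GM2)
    (_hFB : Stmt_FB) : Stmt_TJ := by
  intro t
  obtain ⟨K1, hK1, hTI'⟩ := hTI t
  have ht : (0 : ℝ) ≤ t := Nat.cast_nonneg t
  refine ⟨4 * (K1 + 20 * t + 3), by linarith, 1 / 4, by norm_num, ?_⟩
  intro κ κ0 hκ hK hκ1 C
  have hκ0 : 16 * κ ≤ κ0 := by nlinarith [mul_nonneg ht hκ.le]
  have hκ2 : κ ≤ 1 / 64 := by linarith
  have hκ00 : 0 < κ0 := by linarith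
  obtain ⟨k1, hk1⟩ := hTI' κ hκ (by linarith) C
  obtain ⟨k2, hk2⟩ := hGM2 t κ κ0 hκ (by linarith) (by linarith) C
  obtain ⟨h, hh⟩ : ∃ h, h = κ0 ^ 2 / 120 := ⟨_, rfl⟩
  have hh0 : 0 < h := by rw [hh]; positivity
  obtain ⟨s, hs0, hs1, hs2⟩ : ∃ s : ℝ, 0 < s ∧ s ≤ h ∧ s ≤ κ ^ 2 / 8 :=
    ⟨min h (κ ^ 2 / 8), lt_min hh0 (by positivity), min_le_left _ _, min_le_right _ _⟩
  obtain ⟨k3, hk3⟩ := exists_nat_gt (|C| / s)
  refine ⟨max (max k1 k2) k3, fun k hk V _ G A B R eA eB ω ξ δ cc hξ hC y hy h0 hlast => ?_⟩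
  have hka : k1 ≤ k := (le_max_left _ _).trans ((le_max_left _ _).trans hk)
  have hkb : k2 ≤ k := (le_max_right _ _).trans ((le_max_left _ _).trans hk)
  have hkc : k3 ≤ k := (le_max_right _ _).trans hk
  have hk0 : (0 : ℝ) < k := by
    have := hC.k1
    exact_mod_cast this
  have hCs : C / k ≤ s := by
    rw [div_le_iff₀ hk0]
    have h3 : |C| / s < k := hk3.trans_le (by exact_mod_cast hkc)
    rw [div_lt_iff₀ hs0] at h3
    linarith [le_abs_self C]
  have hξ2 : ξ ≤ 1 / 2 := by nlinarith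
  have ga := hGRA t k κ C V G A B R eA eB ω ξ δ cc hκ hC
  have fb := hGRB t k κ κ0 C V G A B R eA eB ω ξ δ cc hκ (by linarith) hC
  have gm := hk2 k hkb V G A B R eA eB ω ξ δ cc hξ2 hC
  have hD := hk1 k hka V G A B R eA eB ω ξ δ cc hξ hC
  have hyr := TyC.rev hy
  have hω : ∀ x ∈ R, 0 ≤ ω x := fun x hx => by linarith [hC.om2 x hx]
  have hGR : ∀ j, Gj t G R eA κ0 j ⊆ R := by
    rintro j x ⟨y, hy, -, hj, rfl⟩
    exact hy.1.1 _
  have r0 : (0 : Fin (2 * t + 2)).rev = Fin.last (2 * t + 1) := Fin.rev_zero _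
  have r1 : (⟨t, by omega⟩ : Fin (2 * t + 2)).rev = ⟨t + 1, by omega⟩ := by
    apply Fin.ext
    rw [Fin.val_rev]
    simp only
    omega
  have r2 : (⟨t + 1, by omega⟩ : Fin (2 * t + 2)).rev = ⟨t, by omega⟩ := by
    apply Fin.ext
    rw [Fin.val_rev]
    simp only
    omega
  have m1 : y ⟨t, by omega⟩ ∈ Gj t G R eA κ0 t := ⟨y, hy, h0, by omega, rfl⟩
  have m2 : y ⟨t, by omega⟩ ∈ Gj t G R eA κ0 (t + 1) :=
    ⟨fun i => y i.rev, hyr, by simp only [r0]; exact hlast, by omega, by simp only [r2]⟩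
  have m3 : y ⟨t + 1, by omega⟩ ∈ Gj t G R eA κ0 (t + 1) := ⟨y, hy, h0, by omega, rfl⟩
  have m4 : y ⟨t + 1, by omega⟩ ∈ Gj t G R eA κ0 t :=
    ⟨fun i => y i.rev, hyr, by simp only [r0]; exact hlast, by omega, by simp only [r1]⟩
  have hadj : G.Adj (y ⟨t, by omega⟩) (y ⟨t + 1, by omega⟩) := hy.1.2 _ _ rfl
  have hdis : Disjoint (G.neighborSet (y ⟨t, by omega⟩) ∩ Gj t G R eA κ0 (t + 1))
      (G.neighborSet (y ⟨t + 1, by omega⟩) ∩ Gj t G R eA κ0 (t + 1)) := by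
    rw [Set.disjoint_left]
    rintro x ⟨hx1, -⟩ ⟨hx2, -⟩
    rw [SimpleGraph.mem_neighborSet] at hx1 hx2
    have := hC.og _ (SimpleGraph.Walk.cons hadj (SimpleGraph.Walk.cons hx2
      (SimpleGraph.Walk.cons hx1.symm SimpleGraph.Walk.nil))) (by
        simp only [SimpleGraph.Walk.length_cons, SimpleGraph.Walk.length_nil]
        decide)
    simp only [SimpleGraph.Walk.length_cons, SimpleGraph.Walk.length_nil] at this
    omega
  have hsum : avS (G.neighborSet (y ⟨t, by omega⟩) ∩ Gj t G R eA κ0 (t + 1)) ω +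
      avS (G.neighborSet (y ⟨t + 1, by omega⟩) ∩ Gj t G R eA κ0 (t + 1)) ω ≤
      2 * ((1 + κ ^ 2) / k) := by
    rw [← avS_union hdis]
    refine (avS_mono_set (T := Gj t G R eA κ0 (t + 1)) ?_ fun x hx => hω x (hGR _ hx)).trans ?_
    · rintro x (hx | hx)
      · exact hx.2
      · exact hx.2
    · have := gm (t + 1)
      rw [mul_div_assoc', le_div_iff₀ hk0]
      linarith
  rcases le_total (avS (G.neighborSet (y ⟨t, by omega⟩) ∩ Gj t G R eA κ0 (t + 1)) ω)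
    (avS (G.neighborSet (y ⟨t + 1, by omega⟩) ∩ Gj t G R eA κ0 (t + 1)) ω) with hc | hc
  · exact arith hκ hκ2 hK1 hK hκ1 hD (final hC ga fb gm m1 m2 (by linarith) hκ hκ2 hκ0 hκ1 hh
      (hCs.trans hs1) (hCs.trans hs2))
  · exact arith hκ hκ2 hK1 hK hκ1 hD (final hC ga fb gm m4 m3 (by linarith) hκ hκ2 hκ0 hκ1 hh
      (hCs.trans hs1) (hCs.trans hs2))

end Pool.Agent.OCX
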