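import Pool.Agent.OCX.Stmts
import Pool.Agent.OCX.Lib

/-!
# Module TK: there are no fat vertices
-/

open scoped BigOperators

namespace Pool.Agent.OCX
namespace TK_

/-- the elementary inequality (FB with the explicit value `h = κ0 ^ 2 / 120`) -/
theorem fb {κ0 a b h : ℝ} (hκ : 0 < κ0) (hκ' : κ0 ≤ 1 / 4) (hh : h = κ0 ^ 2 / 120)
    (ha : 0 ≤ a) (hb : 0 ≤ b) (ha' : a ≤ 1 - κ0 + h) (hb' : b ≤ 1 - κ0 + h) (hab : a + b ≤ 1 + h) :
    a * b ≤ 1 / 2 * (1 - κ0 / 4) * ((1 - (a + h) ^ 2) * (1 - (b + h) ^ 2)) := by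
  have hh0 : 0 < h := by rw [hh]; positivity
  have hh1 : h ≤ κ0 / 480 := by rw [hh]; nlinarith
  set p := a * b with hp
  set s := a + b with hs
  have hp0 : 0 ≤ p := mul_nonneg ha hb
  have hs0 : 0 ≤ s := add_nonneg ha hb
  have key : 0 ≤ 1 - (s + 2 * h) ^ 2 + p * (p - 8 * κ0 / 15) := by
    rcases lt_or_ge s (1 - κ0 / 8) with h1 | h1
    · have e1 : κ0 / 8 - 2 * h ≤ 1 - (s + 2 * h) ^ 2 := by
        have : s + 2 * h ≤ 1 := by linarith
        nlinarith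
      have e2 : -(4 * κ0 / 15) ^ 2 ≤ p * (p - 8 * κ0 / 15) := by
        nlinarith [sq_nonneg (p - 4 * κ0 / 15)]
      nlinarith
    · have e1 : 65 / 100 * κ0 ≤ p := by
        have e3 : 0 ≤ (1 - κ0 + h - a) * (1 - κ0 + h - b) :=
          mul_nonneg (by linarith) (by linarith)
        have e4 : (1 - κ0 + h) * (s - (1 - κ0 + h)) ≤ p := by
          rw [hp, hs]; nlinarith
        have e5 : 65 / 100 * κ0 ≤ (1 - κ0 + h) * (s - (1 - κ0 + h)) := by
          have e6 : 3 / 4 ≤ 1 - κ0 + h := by linarith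
          have e7 : 7 / 8 * κ0 - h ≤ s - (1 - κ0 + h) := by linarith
          nlinarith
        linarith
      have e2 : 7 / 120 * κ0 ^ 2 ≤ p * (p - 8 * κ0 / 15) := by
        have : 0 ≤ (p - 65 / 100 * κ0) * (p + 65 / 100 * κ0 - 8 * κ0 / 15) :=
          mul_nonneg (by linarith) (by nlinarith)
        nlinarith
      have e3 : (s + 2 * h) ^ 2 ≤ 1 + 7 * h := by
        have : s + 2 * h ≤ 1 + 3 * h := by linarith
        nlinarith
      have e4 : 7 * h = 7 / 120 * κ0 ^ 2 := by rw [hh]; ring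
      linarith
  have e1 : (1 + p) ^ 2 - (s + 2 * h) ^ 2 ≤ (1 - (a + h) ^ 2) * (1 - (b + h) ^ 2) := by
    have e2 : (1 - (a + h) ^ 2) * (1 - (b + h) ^ 2) =
        (1 + (a + h) * (b + h)) ^ 2 - (s + 2 * h) ^ 2 := by rw [hs]; ring
    rw [e2]
    have e3 : p ≤ (a + h) * (b + h) := by rw [hp]; nlinarith
    nlinarith
  have e4 : 0 < 1 - κ0 / 4 := by linarith
  have e5 : 2 * p ≤ (1 - κ0 / 4) * ((1 + p) ^ 2 - (s + 2 * h) ^ 2) := by
    have e6 : 2 * p + 8 * κ0 / 15 * p ≤ (1 + p) ^ 2 - (s + 2 * h) ^ 2 := by nlinarith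
    have e7 : (1 - κ0 / 4) * (2 * p + 8 * κ0 / 15 * p) ≤
        (1 - κ0 / 4) * ((1 + p) ^ 2 - (s + 2 * h) ^ 2) := mul_le_mul_of_nonneg_left e6 e4.le
    have e8 : 2 * p ≤ (1 - κ0 / 4) * (2 * p + 8 * κ0 / 15 * p) := by
      have : 0 ≤ p * κ0 * (1 / 30 - 2 * κ0 / 15) :=
        mul_nonneg (mul_nonneg hp0 hκ.le) (by linarith)
      nlinarith
    linarith
  have e6 := mul_le_mul_of_nonneg_left e1 e4.le
  linarith

/-- the final numerical contradiction -/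
theorem fin_ineq {K1 K3 κ κ0 : ℝ} {t : ℕ} (hK1 : 1 ≤ K1) (hK3 : 1 ≤ K3) (hκ : 0 < κ)
    (hκ' : κ ≤ 1 / 20) (h1 : 16 * (K1 + 1 + t) * κ ≤ κ0) (h2 : κ0 ≤ 1 / 4)
    (h3 : (32 * (2 * t + 1) * K3) * κ0 ≤ 1)
    (h : (1 - K1 * κ) * (1 - κ) * (1 - 9 * κ ^ 2) ^ (2 * t) ≤
      (1 - κ0 / 4) * (1 + K3 * κ0 ^ 2) ^ (2 * t + 1)) : False := by
  have ht : (0 : ℝ) ≤ t := Nat.cast_nonneg t
  have hκ0 : 0 < κ0 := by
    have : 0 < 16 * (K1 + 1 + t) * κ := by positivity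
    linarith
  have e1 : 1 - 18 * t * κ ^ 2 ≤ (1 - 9 * κ ^ 2) ^ (2 * t) := by
    have := one_add_mul_le_pow (show (-2 : ℝ) ≤ -(9 * κ ^ 2) by nlinarith) (2 * t)
    push_cast at this
    calc 1 - 18 * t * κ ^ 2 = 1 + (2 * t) * (-(9 * κ ^ 2)) := by ring
      _ ≤ (1 + -(9 * κ ^ 2)) ^ (2 * t) := this
      _ = _ := by rw [← sub_eq_add_neg]
  have hx0 : 0 ≤ K3 * κ0 ^ 2 := by positivity
  have hx1 : (2 * t + 1) * (K3 * κ0 ^ 2) ≤ κ0 / 32 := by nlinarith
  have hx2 : K3 * κ0 ^ 2 ≤ 1 := by nlinarith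
  have e2 : (1 + K3 * κ0 ^ 2) ^ (2 * t + 1) * (1 - κ0 / 32) ≤ 1 := by
    have e3 : 1 - κ0 / 32 ≤ (1 - K3 * κ0 ^ 2) ^ (2 * t + 1) := by
      have := one_add_mul_le_pow (show (-2 : ℝ) ≤ -(K3 * κ0 ^ 2) by linarith) (2 * t + 1)
      push_cast at this
      calc 1 - κ0 / 32 ≤ 1 + (2 * t + 1) * (-(K3 * κ0 ^ 2)) := by linarith
        _ ≤ (1 + -(K3 * κ0 ^ 2)) ^ (2 * t + 1) := this
        _ = _ := by rw [← sub_eq_add_neg]
    calc (1 + K3 * κ0 ^ 2) ^ (2 * t + 1) * (1 - κ0 / 32)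
        ≤ (1 + K3 * κ0 ^ 2) ^ (2 * t + 1) * (1 - K3 * κ0 ^ 2) ^ (2 * t + 1) :=
          mul_le_mul_of_nonneg_left e3 (by positivity)
      _ = ((1 + K3 * κ0 ^ 2) * (1 - K3 * κ0 ^ 2)) ^ (2 * t + 1) := by rw [mul_pow]
      _ ≤ 1 := pow_le_one₀ (mul_nonneg (by linarith) (by linarith)) (by nlinarith)
  have e4 : 1 - κ0 / 16 ≤ (1 - K1 * κ) * (1 - κ) * (1 - 9 * κ ^ 2) ^ (2 * t) := by
    have f0 : K1 * κ ≤ κ0 / 16 := by nlinarith [mul_nonneg ht hκ.le]
    have f1 : 0 ≤ (1 - K1 * κ) * (1 - κ) := mul_nonneg (by linarith) (by linarith)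
    have f2 : (1 - K1 * κ) * (1 - κ) * (1 - 18 * t * κ ^ 2) ≤
        (1 - K1 * κ) * (1 - κ) * (1 - 9 * κ ^ 2) ^ (2 * t) := mul_le_mul_of_nonneg_left e1 f1
    have f3 : 1 - K1 * κ - κ ≤ (1 - K1 * κ) * (1 - κ) := by nlinarith [mul_pos hκ hκ]
    have f4 : (1 - K1 * κ) * (1 - κ) ≤ 1 := by nlinarith [mul_pos hκ hκ]
    have f5 : 18 * t * κ ^ 2 ≤ t * κ := by nlinarith [mul_nonneg ht hκ.le]
    have f6 : 0 ≤ 18 * t * κ ^ 2 := by positivity
    nlinarith
  have e5 : (1 - κ0 / 16) * (1 - κ0 / 32) ≤ 1 - κ0 / 4 := by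
    have g1 : 1 - κ0 / 16 ≤ (1 - κ0 / 4) * (1 + K3 * κ0 ^ 2) ^ (2 * t + 1) := e4.trans h
    have g2 := mul_le_mul_of_nonneg_right g1 (show (0 : ℝ) ≤ 1 - κ0 / 32 by linarith)
    have g3 : (1 - κ0 / 4) * ((1 + K3 * κ0 ^ 2) ^ (2 * t + 1) * (1 - κ0 / 32)) ≤
        (1 - κ0 / 4) * 1 := mul_le_mul_of_nonneg_left e2 (by linarith)
    nlinarith
  nlinarith

section

variable {V : Type} [Fintype V] {G : SimpleGraph V} {A B R : Set V} {t k : ℕ}

theorem vis_eq_zero {V : Type} {z : V} {m : ℕ} {y : Fin m → V} (h : ∀ i, y i ≠ z) :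
    vis {z} y = 0 := by
  unfold vis
  refine Finset.sum_eq_zero fun i _ => ?_
  exact Set.indicator_of_notMem (by simpa using h i) _

omit [Fintype V] in
theorem wI_zero {eA eB : V → ℝ} (hA : ∀ x, 0 ≤ eA x) (hB : ∀ x, 0 ≤ eB x)
    {y : Fin (2 * t + 1) → V} (hy : IsP G R y) (h : ¬ TyI t G R eA eB y) : wI t eA eB y = 0 := by
  unfold wI
  by_cases h1 : 0 < eB (y 0)
  · have h2 : ¬ 0 < eA (y (Fin.last (2 * t))) := fun h2 => h ⟨hy, h1, h2⟩
    rw [le_antisymm (not_lt.mp h2) (hA _)]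
    ring
  · rw [le_antisymm (not_lt.mp h1) (hB _)]
    ring

omit [Fintype V] in
theorem wC_zero {e : V → ℝ} (hA : ∀ x, 0 ≤ e x)
    {y : Fin (2 * t + 2) → V} (hy : IsP G R y) (h : ¬ TyC t G R e y) : wC t e y = 0 := by
  unfold wC
  by_cases h1 : 0 < e (y 0)
  · have h2 : ¬ 0 < e (y (Fin.last (2 * t + 1))) := fun h2 => h ⟨hy, h1, h2⟩
    rw [le_antisymm (not_lt.mp h2) (hA _)]
    ring
  · rw [le_antisymm (not_lt.mp h1) (hA _)]
    ring

omit [Fintype V] in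
theorem wC_nonneg {e : V → ℝ} (hA : ∀ x, 0 ≤ e x) (y : Fin (2 * t + 2) → V) : 0 ≤ wC t e y := by
  unfold wC
  have := hA (y 0)
  have := hA (y (Fin.last (2 * t + 1)))
  positivity

/-- the total visits at a fat vertex are those at the ends -/
theorem Kf_le {κ C cc κ0 : ℝ} {eA eB : V → ℝ} (hA : ∀ x, 0 ≤ eA x) (hB : ∀ x, 0 ≤ eB x)
    (g : Gfa t k κ C G A B R eA eB cc) (g' : Gfa t k κ C G B A R eB eA cc) {z : V}
    (h2 : 2 * κ ≤ κ0) (h0 : κ0 < eA z) (hκ : 0 < κ) :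
    Kf t G R eA eB {z} ≤
      PS G R (2 * t + 2) (fun y => wC t eA y * Set.indicator {z} (fun _ => (1 : ℝ)) (y 0)) := by
  have e1 : PS G R (2 * t + 1) (fun y => wI t eA eB y * vis {z} y) ≤ 0 := by
    have : PS G R (2 * t + 1) (fun y => wI t eA eB y * vis {z} y) ≤
        PS G R (2 * t + 1) (fun _ => 0) := by
      refine PS_mono fun y hy => ?_
      by_cases ht : TyI t G R eA eB y
      · have : ∀ i, y i ≠ z := by
          intro i hi
          have h3 := g.i2 y ht i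
          rcases Nat.lt_or_ge (i : ℕ) (2 * t) with h4 | h4
          · have := h3.2 h4
            rw [hi] at this
            linarith
          · have h5 : i = Fin.last (2 * t) := Fin.ext (by simp only [Fin.val_last]; omega)
            have h6 := (g.i1 y ht).2.2
            rw [← h5, hi] at h6
            linarith
        rw [vis_eq_zero this, mul_zero]
      · rw [wI_zero hA hB hy ht, zero_mul]
    refine this.trans (le_of_eq ?_)
    unfold PS
    simp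
  have e2 : PS G R (2 * t + 2) (fun y => (wC t eA y + wC t eB y) * vis {z} y) ≤
      PS G R (2 * t + 2) (fun y => wC t eA y * Set.indicator {z} (fun _ => (1 : ℝ)) (y 0) +
        wC t eA y * Set.indicator {z} (fun _ => (1 : ℝ)) (y (Fin.last (2 * t + 1)))) := by
    refine PS_mono fun y hy => ?_
    have f1 : wC t eB y * vis {z} y = 0 := by
      by_cases ht : TyC t G R eB y
      · have : ∀ i, y i ≠ z := by
          intro i hi
          have h3 := g'.a2 y ht i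
          rw [hi] at h3
          linarith
        rw [vis_eq_zero this, mul_zero]
      · rw [wC_zero hB hy ht, zero_mul]
    have f2 : wC t eA y * vis {z} y = wC t eA y * Set.indicator {z} (fun _ => (1 : ℝ)) (y 0) +
        wC t eA y * Set.indicator {z} (fun _ => (1 : ℝ)) (y (Fin.last (2 * t + 1))) := by
      by_cases ht : TyC t G R eA y
      · rw [← mul_add]
        congr 1
        unfold vis
        rw [Fin.sum_univ_succ, Fin.sum_univ_castSucc]
        have f3 : ∑ i : Fin (2 * t), Set.indicator {z} (fun _ => (1 : ℝ)) (y i.castSucc.succ) = 0 := by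
          refine Finset.sum_eq_zero fun i _ => ?_
          refine Set.indicator_of_notMem ?_ _
          intro hi
          have h3 := g.a3 y ht i.castSucc.succ (by simp) (by simp)
          rw [Set.mem_singleton_iff.mp hi] at h3
          linarith
        rw [f3, zero_add]
        rfl
      · rw [wC_zero hA hy ht]
        ring
    rw [add_mul, f1, add_zero, f2]
  have e3 : PS G R (2 * t + 2) (fun y => wC t eA y *
      Set.indicator {z} (fun _ => (1 : ℝ)) (y (Fin.last (2 * t + 1)))) =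
      PS G R (2 * t + 2) (fun y => wC t eA y * Set.indicator {z} (fun _ => (1 : ℝ)) (y 0)) := by
    rw [← PS_rev (fun y => wC t eA y * Set.indicator {z} (fun _ => (1 : ℝ)) (y 0))]
    refine PS_congr fun y _ => ?_
    have f1 : (0 : Fin (2 * t + 2)).rev = Fin.last (2 * t + 1) := Fin.rev_zero _
    rw [wC_rev]
    simp only [f1]
  rw [PS_add, e3] at e2
  unfold Kf
  linarith

/-- the paths starting at a fat vertex -/
theorem PS_le {κ C cc κ0 : ℝ} {eA eB ω : V → ℝ} (hA : ∀ x, 0 ≤ eA x)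
    (g : Gfa t k κ C G A B R eA eB cc) {z : V} (hz : z ∈ R)
    (om1 : ∀ x ∈ R, 1 - (max (eA x) (eB x) + C / k) ^ 2 ≤ ω x)
    (om2 : ∀ x ∈ R, κ / 2 ≤ ω x)
    (hκ : 0 < κ) (hκ' : κ ≤ 1 / 20) (h2 : 2 * κ ≤ κ0) (h4 : κ0 ≤ 1 / 4)
    (h0 : κ0 < eA z) (h1 : eA z < 1 - κ0) (hC0 : 0 ≤ C / k) (hC1 : C / k ≤ κ)
    (hC2 : C / k ≤ κ0 ^ 2 / 120)
    (hTJ : ∀ y : Fin (2 * t + 2) → V, TyC t G R eA y → κ0 < eA (y 0) →
        ¬ κ0 < eA (y (Fin.last (2 * t + 1)))) :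
    PS G R (2 * t + 2) (fun y => wC t eA y * Set.indicator {z} (fun _ => (1 : ℝ)) (y 0)) ≤
      2 ^ (2 * t) * (1 - κ0 / 4) / (1 - 9 * κ ^ 2) ^ (2 * t) *
        (ω z / (Fintype.card V : ℝ) * ∏ i : Fin (2 * t + 1),
          avS (Gj t G R eA κ0 ((i : ℕ) + 1)) ω) := by
  have hκ0 : 0 < κ0 := by linarith
  have hq : 0 < 1 - 9 * κ ^ 2 := by nlinarith
  set M : ℝ := 2 ^ (2 * t) * (1 - κ0 / 4) / (1 - 9 * κ ^ 2) ^ (2 * t) with hM
  have hM0 : 0 ≤ M := by
    rw [hM]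
    have : 0 ≤ 1 - κ0 / 4 := by linarith
    positivity
  let S : Fin (2 * t + 2) → Set V := Fin.cons {z} (fun i => Gj t G R eA κ0 ((i : ℕ) + 1))
  have hS0 : S 0 = {z} := rfl
  have hSs : ∀ i : Fin (2 * t + 1), S i.succ = Gj t G R eA κ0 ((i : ℕ) + 1) := fun i => rfl
  have hSR : ∀ i x, x ∈ S i → x ∈ R := by
    intro i x
    refine Fin.cases ?_ (fun i => ?_) i
    · intro hx
      rw [hS0] at hx
      rw [Set.mem_singleton_iff.mp hx]
      exact hz
    · intro hx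
      rw [hSs] at hx
      obtain ⟨y, hy, -, hj, rfl⟩ := hx
      exact hy.1.1 _
  have hω : ∀ x ∈ R, 0 ≤ ω x := fun x hx => (by positivity : (0 : ℝ) ≤ κ / 2).trans (om2 x hx)
  have hprod : PS G R (2 * t + 2) (fun y => ∏ i, (S i).indicator ω (y i)) ≤
      ∏ i, avS (S i) ω :=
    PS_le_prod S (fun _ => ω) (fun i x hx => hω x (hSR i x hx)) fun y _ => le_refl _
  have hpt : ∀ y, IsP G R y → wC t eA y * Set.indicator {z} (fun _ => (1 : ℝ)) (y 0) ≤
      M * ∏ i, (S i).indicator ω (y i) := by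
    intro y hy
    have hR0 : 0 ≤ M * ∏ i, (S i).indicator ω (y i) := by
      refine mul_nonneg hM0 (Finset.prod_nonneg fun i _ => ?_)
      exact Set.indicator_nonneg (fun x hx => hω x (hSR i x hx)) _
    by_cases hyz : y 0 = z
    swap
    · rw [Set.indicator_of_notMem (by simpa using hyz), mul_zero]
      exact hR0
    by_cases hT : TyC t G R eA y
    swap
    · rw [wC_zero hA hy hT, zero_mul]
      exact hR0
    have hfat : κ0 < eA (y 0) := by rw [hyz]; exact h0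
    have hmem : ∀ i, y i ∈ S i := by
      intro i
      refine Fin.cases ?_ (fun i => ?_) i
      · rw [hS0, hyz]
        rfl
      · rw [hSs]
        exact ⟨y, hT, hfat, i.succ.2, rfl⟩
    have hP : ∏ i, (S i).indicator ω (y i) = ∏ i, ω (y i) :=
      Finset.prod_congr rfl fun i _ => Set.indicator_of_mem (hmem i) _
    rw [hP, Set.indicator_of_mem (show y 0 ∈ ({z} : Set V) by rw [hyz]; rfl), mul_one]
    rw [Fin.prod_univ_succ, Fin.prod_univ_castSucc]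
    have hint : (1 - 9 * κ ^ 2) ^ (2 * t) ≤ ∏ i : Fin (2 * t), ω (y i.castSucc.succ) := by
      have : ∏ i : Fin (2 * t), (1 - 9 * κ ^ 2) ≤ ∏ i : Fin (2 * t), ω (y i.castSucc.succ) := by
        refine Finset.prod_le_prod (fun i _ => hq.le) fun i _ => ?_
        have h5 := g.a3 y hT i.castSucc.succ (by simp) (by simp)
        have h6 := g.a2 y hT i.castSucc.succ
        have h7 := om1 _ (hy.1 i.castSucc.succ)
        refine le_trans ?_ h7
        have h8 : max (eA (y i.castSucc.succ)) (eB (y i.castSucc.succ)) ≤ 2 * κ :=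
          max_le (by rw [h5]; linarith) h6
        have h9 : 0 ≤ max (eA (y i.castSucc.succ)) (eB (y i.castSucc.succ)) :=
          le_max_of_le_left (hA _)
        have h10 : (max (eA (y i.castSucc.succ)) (eB (y i.castSucc.succ)) + C / k) ^ 2 ≤
            (3 * κ) ^ 2 := pow_le_pow_left₀ (by linarith) (by linarith) 2
        linarith
      simpa using this
    have hlast : y (Fin.last (2 * t)).succ = y (Fin.last (2 * t + 1)) := rfl
    rw [hlast]
    set e' := eA (y (Fin.last (2 * t + 1))) with he'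
    have he'0 : 0 ≤ e' := hA _
    have he'1 : e' ≤ κ0 := not_lt.mp (hTJ y hT hfat)
    have hsum := g.a1 y hT
    rw [hyz] at hsum
    set b := max e' (2 * κ) with hb
    have hb0 : 0 ≤ b := le_max_of_le_left he'0
    have hb1 : b ≤ κ0 := max_le he'1 h2
    set h := κ0 ^ 2 / 120 with hh
    have hh0 : 0 < h := by rw [hh]; positivity
    have hh1 : h ≤ κ0 / 480 := by rw [hh]; nlinarith
    have hab : eA z + b ≤ 1 + h := by
      rcases max_cases e' (2 * κ) with ⟨h5, -⟩ | ⟨h5, -⟩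
      · rw [hb, h5]
        have : eA z + e' ≤ 1 + C / k := hsum
        linarith
      · rw [hb, h5]
        linarith
    have key := fb (a := eA z) (b := b) hκ0 h4 hh (hA z) hb0 (by linarith) (by linarith) hab
    have hz1 : 1 - (eA z + h) ^ 2 ≤ ω (y 0) := by
      refine le_trans ?_ (om1 _ (hy.1 0))
      have h5 : eB (y 0) ≤ 2 * κ := g.a2 y hT 0
      have h6 : max (eA (y 0)) (eB (y 0)) = eA z := by
        rw [hyz] at h5 ⊢
        exact max_eq_left (by linarith)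
      rw [h6]
      have : (eA z + C / k) ^ 2 ≤ (eA z + h) ^ 2 :=
        pow_le_pow_left₀ (add_nonneg (hA z) hC0) (by linarith) 2
      linarith
    have hl1 : 1 - (b + h) ^ 2 ≤ ω (y (Fin.last (2 * t + 1))) := by
      refine le_trans ?_ (om1 _ (hy.1 _))
      have h5 : eB (y (Fin.last (2 * t + 1))) ≤ 2 * κ := g.a2 y hT _
      have h6 : max (eA (y (Fin.last (2 * t + 1)))) (eB (y (Fin.last (2 * t + 1)))) ≤ b :=
        max_le_max (le_refl _) h5
      have h7 : 0 ≤ max (eA (y (Fin.last (2 * t + 1)))) (eB (y (Fin.last (2 * t + 1)))) :=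
        le_max_of_le_left (hA _)
      have : (max (eA (y (Fin.last (2 * t + 1)))) (eB (y (Fin.last (2 * t + 1)))) + C / k) ^ 2 ≤
          (b + h) ^ 2 := pow_le_pow_left₀ (by linarith) (by linarith) 2
      linarith
    have hz2 : 0 ≤ 1 - (eA z + h) ^ 2 := by
      have : eA z + h ≤ 1 := by linarith
      have := hA z
      nlinarith
    have hl2 : 0 ≤ 1 - (b + h) ^ 2 := by
      have : b + h ≤ 1 := by linarith
      nlinarith
    have hprod2 : (1 - (eA z + h) ^ 2) * (1 - (b + h) ^ 2) ≤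
        ω (y 0) * ω (y (Fin.last (2 * t + 1))) := mul_le_mul hz1 hl1 hl2 (hz2.trans hz1)
    have hw : wC t eA y ≤ 2 ^ (2 * t) * (1 - κ0 / 4) *
        (ω (y 0) * ω (y (Fin.last (2 * t + 1)))) := by
      have h5 : wC t eA y = 2 ^ (2 * t + 1) * (eA z * e') := by
        unfold wC
        rw [hyz]
      have h6 : eA z * e' ≤ eA z * b := mul_le_mul_of_nonneg_left (le_max_left _ _) (hA z)
      have h7 : 1 / 2 * (1 - κ0 / 4) * ((1 - (eA z + h) ^ 2) * (1 - (b + h) ^ 2)) ≤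
          1 / 2 * (1 - κ0 / 4) * (ω (y 0) * ω (y (Fin.last (2 * t + 1)))) :=
        mul_le_mul_of_nonneg_left hprod2 (by linarith)
      have h8 : eA z * e' ≤ 1 / 2 * (1 - κ0 / 4) * (ω (y 0) * ω (y (Fin.last (2 * t + 1)))) := by
        linarith
      rw [h5]
      calc (2 : ℝ) ^ (2 * t + 1) * (eA z * e')
          ≤ 2 ^ (2 * t + 1) * (1 / 2 * (1 - κ0 / 4) *
            (ω (y 0) * ω (y (Fin.last (2 * t + 1))))) :=
            mul_le_mul_of_nonneg_left h8 (by positivity)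
        _ = _ := by rw [pow_succ]; ring
    have hX0 : 0 ≤ ω (y 0) * ω (y (Fin.last (2 * t + 1))) :=
      mul_nonneg (hω _ (hy.1 _)) (hω _ (hy.1 _))
    have hpow : 0 < (1 - 9 * κ ^ 2) ^ (2 * t) := pow_pos hq _
    have h9 : 2 ^ (2 * t) * (1 - κ0 / 4) = M * (1 - 9 * κ ^ 2) ^ (2 * t) := by
      rw [hM]
      field_simp
    rw [h9] at hw
    refine hw.trans ?_
    calc M * (1 - 9 * κ ^ 2) ^ (2 * t) * (ω (y 0) * ω (y (Fin.last (2 * t + 1))))
        = M * (ω (y 0) * ω (y (Fin.last (2 * t + 1)))) * (1 - 9 * κ ^ 2) ^ (2 * t) := by ring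
      _ ≤ M * (ω (y 0) * ω (y (Fin.last (2 * t + 1)))) *
          ∏ i : Fin (2 * t), ω (y i.castSucc.succ) :=
          mul_le_mul_of_nonneg_left hint (mul_nonneg hM0 hX0)
      _ = _ := by ring
  calc PS G R (2 * t + 2) (fun y => wC t eA y * Set.indicator {z} (fun _ => (1 : ℝ)) (y 0))
      ≤ PS G R (2 * t + 2) (fun y => M * ∏ i, (S i).indicator ω (y i)) := PS_mono hpt
    _ = M * PS G R (2 * t + 2) (fun y => ∏ i, (S i).indicator ω (y i)) := PS_mul_left _ _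
    _ ≤ M * ∏ i, avS (S i) ω := mul_le_mul_of_nonneg_left hprod hM0
    _ = _ := by
      rw [Fin.prod_univ_succ, hS0, avS_singleton]
      simp only [hSs]

end

end TK_

theorem tk_proof (h1 : Stmt_GRA) (h2 : Stmt_TI) (h3 : Stmt_TJ) (h4 : Stmt_GM1)
    (_ : Stmt_FB) : Stmt_TK := by
  intro t
  obtain ⟨K1, hK1, hTI⟩ := h2 t
  obtain ⟨K2, hK2, κs2, hκs2, hTJ⟩ := h3 t
  obtain ⟨K3, hK3, hGM⟩ := h4 t
  have ht : (0 : ℝ) ≤ t := Nat.cast_nonneg t
  refine ⟨16 * (K1 + 1 + t) + K2, by nlinarith, min κs2 (min (1 / 4) (1 / (32 * (2 * t + 1) * K3))),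
    ?_, ?_⟩
  · have : 0 < 1 / (32 * (2 * t + 1) * K3) := by positivity
    exact lt_min hκs2 (lt_min (by norm_num) this)
  intro κ κ0 hκ hKκ hκ0 C
  have hs2 : κ0 ≤ κs2 := hκ0.trans (min_le_left _ _)
  have hs3 : κ0 ≤ 1 / 4 := hκ0.trans ((min_le_right _ _).trans (min_le_left _ _))
  have hs4 : κ0 ≤ 1 / (32 * (2 * t + 1) * K3) :=
    hκ0.trans ((min_le_right _ _).trans (min_le_right _ _))
  have hs5 : (32 * (2 * t + 1) * K3) * κ0 ≤ 1 := by
    have : 0 < 32 * (2 * (t : ℝ) + 1) * K3 := by positivity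
    rw [le_div_iff₀ this] at hs4
    linarith
  have htκ : 0 ≤ t * κ := mul_nonneg ht hκ.le
  have hK2κ : K2 * κ ≤ κ0 := by nlinarith [mul_pos (show 0 < K1 by linarith) hκ]
  have h16 : 16 * (K1 + 1 + t) * κ ≤ κ0 := by nlinarith [mul_pos (show 0 < K2 by linarith) hκ]
  have h2κ : 2 * κ ≤ κ0 := by nlinarith
  have hκ20 : κ ≤ 1 / 20 := by nlinarith
  obtain ⟨k1, hk1⟩ := hTI κ hκ hκ20 C
  obtain ⟨k2, hk2⟩ := hTJ κ κ0 hκ hK2κ hs2 C
  obtain ⟨k3, hk3⟩ := hGM κ κ0 hκ hκ20 h2κ hs3 C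
  have hκ0p : 0 < κ0 := by linarith
  set ε := min (κ ^ 2 / 8) (κ0 ^ 2 / 120) with hε
  have hε0 : 0 < ε := lt_min (by positivity) (by positivity)
  obtain ⟨m, hm⟩ := exists_nat_ge (C / ε)
  refine ⟨k1 + k2 + k3 + m + 1, fun k hk V _ G A B R eA eB ω ξ δ cc hξ hc z hz h0 => ?_⟩
  by_contra hlt
  have hlt' : eA z < 1 - κ0 := not_le.mp hlt
  have hξ2 : ξ ≤ 1 / 2 := by nlinarith
  have hTI' := hk1 k (by omega) V G A B R eA eB ω ξ δ cc hξ hc
  have hTJ' := hk2 k (by omega) V G A B R eA eB ω ξ δ cc hξ hc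
  have hGM' := hk3 k (by omega) V G A B R eA eB ω ξ δ cc hξ2 hc hTJ'
  have hkpos : (0 : ℝ) < k := by
    have : 0 < k := by omega
    exact_mod_cast this
  have hCk : C / k ≤ ε := by
    rw [div_le_iff₀ hkpos]
    rw [div_le_iff₀ hε0] at hm
    have : (m : ℝ) ≤ k := by exact_mod_cast (by omega : m ≤ k)
    nlinarith
  have hC0 : 0 ≤ C / k := div_nonneg (by linarith [hc.C1]) hkpos.le
  have hCκ : C / k ≤ κ ^ 2 / 8 := hCk.trans (min_le_left _ _)
  have hCκ0 : C / k ≤ κ0 ^ 2 / 120 := hCk.trans (min_le_right _ _)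
  have g := h1 t k κ C V G A B R eA eB ω ξ δ cc hκ hc
  have g' := h1 t k κ C V G B A R eB eA ω ξ δ cc hκ hc.swap
  have hup := TK_.Kf_le (κ0 := κ0) hc.eA0 hc.eB0 g g' h2κ h0 hκ
  have hps := TK_.PS_le (κ0 := κ0) hc.eA0 g hz hc.om1 hc.om2 hκ hκ20 h2κ hs3 h0 hlt' hC0
    (by nlinarith) hCκ0 hTJ'
  have hkkt := (abs_le.mp (hc.kkt {z} (Set.singleton_subset_iff.mpr hz))).1
  rw [avS_singleton, ms_singleton] at hkkt
  have := hc.ne
  have hN : (0 : ℝ) < (Fintype.card V : ℝ) := by exact_mod_cast Fintype.card_pos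
  have hωz : κ / 2 ≤ ω z := hc.om2 z hz
  have hωz0 : 0 < ω z := by linarith
  have hωR : ∀ x ∈ R, 0 ≤ ω x := fun x hx => (by positivity : (0 : ℝ) ≤ κ / 2).trans (hc.om2 x hx)
  have hprod : ∏ i : Fin (2 * t + 1), avS (Gj t G R eA κ0 ((i : ℕ) + 1)) ω ≤
      ((1 + K3 * κ0 ^ 2) / k) ^ (2 * t + 1) := by
    have : ∏ i : Fin (2 * t + 1), avS (Gj t G R eA κ0 ((i : ℕ) + 1)) ω ≤
        ∏ _i : Fin (2 * t + 1), ((1 + K3 * κ0 ^ 2) / k) := by
      refine Finset.prod_le_prod (fun i _ => ?_) fun i _ => ?_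
      · refine avS_nonneg fun x hx => ?_
        obtain ⟨y, hy, -, hj, rfl⟩ := hx
        exact hωR _ (hy.1.1 _)
      · rw [le_div_iff₀ hkpos, mul_comm]
        exact hGM' _ (by omega)
    rw [Finset.prod_const, Finset.card_univ, Fintype.card_fin] at this
    exact this
  have hq : 0 < 1 - 9 * κ ^ 2 := by nlinarith
  have hQ : 0 < (1 - 9 * κ ^ 2) ^ (2 * t) := pow_pos hq _
  have h1κ0 : 0 < 1 - κ0 / 4 := by linarith
  -- the main inequality
  have hmain : δ / 4 * (ω z / (Fintype.card V : ℝ)) - C / k * δ * (1 / (Fintype.card V : ℝ)) ≤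
      2 ^ (2 * t) * (1 - κ0 / 4) / (1 - 9 * κ ^ 2) ^ (2 * t) *
        (ω z / (Fintype.card V : ℝ) * ((1 + K3 * κ0 ^ 2) / k) ^ (2 * t + 1)) := by
    have e1 : 2 ^ (2 * t) * (1 - κ0 / 4) / (1 - 9 * κ ^ 2) ^ (2 * t) *
        (ω z / (Fintype.card V : ℝ) * ∏ i : Fin (2 * t + 1),
          avS (Gj t G R eA κ0 ((i : ℕ) + 1)) ω) ≤
        2 ^ (2 * t) * (1 - κ0 / 4) / (1 - 9 * κ ^ 2) ^ (2 * t) *
        (ω z / (Fintype.card V : ℝ) * ((1 + K3 * κ0 ^ 2) / k) ^ (2 * t + 1)) := by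
      refine mul_le_mul_of_nonneg_left ?_ (by positivity)
      exact mul_le_mul_of_nonneg_left hprod (by positivity)
    linarith
  have hmain2 : δ / 4 * (1 - κ) ≤
      2 ^ (2 * t) * (1 - κ0 / 4) / (1 - 9 * κ ^ 2) ^ (2 * t) *
        ((1 + K3 * κ0 ^ 2) / k) ^ (2 * t + 1) := by
    have e1 : C / k ≤ κ / 4 * ω z := by nlinarith
    have e2 : δ / 4 * (1 - κ) * (ω z / (Fintype.card V : ℝ)) ≤
        δ / 4 * (ω z / (Fintype.card V : ℝ)) - C / k * δ * (1 / (Fintype.card V : ℝ)) := by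
      have e3 : C / k * δ * (1 / (Fintype.card V : ℝ)) ≤
          κ / 4 * ω z * δ * (1 / (Fintype.card V : ℝ)) := by
        refine mul_le_mul_of_nonneg_right ?_ (by positivity)
        exact mul_le_mul_of_nonneg_right e1 hc.d0.le
      have e4 : κ / 4 * ω z * δ * (1 / (Fintype.card V : ℝ)) =
          δ / 4 * κ * (ω z / (Fintype.card V : ℝ)) := by ring
      rw [e4] at e3
      linarith
    have e5 := e2.trans hmain
    have e6 : 0 < ω z / (Fintype.card V : ℝ) := div_pos hωz0 hN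
    have e7 : 2 ^ (2 * t) * (1 - κ0 / 4) / (1 - 9 * κ ^ 2) ^ (2 * t) *
        (ω z / (Fintype.card V : ℝ) * ((1 + K3 * κ0 ^ 2) / k) ^ (2 * t + 1)) =
        2 ^ (2 * t) * (1 - κ0 / 4) / (1 - 9 * κ ^ 2) ^ (2 * t) *
        ((1 + K3 * κ0 ^ 2) / k) ^ (2 * t + 1) * (ω z / (Fintype.card V : ℝ)) := by ring
    rw [e7] at e5
    exact le_of_mul_le_mul_right e5 e6
  have hmain3 : DD t k δ * (1 - κ) * (1 - 9 * κ ^ 2) ^ (2 * t) ≤
      (1 - κ0 / 4) * (1 + K3 * κ0 ^ 2) ^ (2 * t + 1) := by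
    have e1 : DD t k δ * (1 - κ) * (1 - 9 * κ ^ 2) ^ (2 * t) =
        (δ / 4 * (1 - κ)) * ((k : ℝ) ^ (2 * t + 1) / 2 ^ (2 * t) *
          (1 - 9 * κ ^ 2) ^ (2 * t)) := by
      unfold DD
      have : (4 : ℝ) ^ (t + 1) = 4 * 2 ^ (2 * t) := by
        rw [pow_succ, pow_mul]; norm_num; ring
      rw [this]
      have h2t : (2 : ℝ) ^ (2 * t) ≠ 0 := by positivity
      field_simp
    rw [e1]
    have e2 : 0 ≤ (k : ℝ) ^ (2 * t + 1) / 2 ^ (2 * t) * (1 - 9 * κ ^ 2) ^ (2 * t) := by positivity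
    refine (mul_le_mul_of_nonneg_right hmain2 e2).trans (le_of_eq ?_)
    rw [div_pow]
    have hk0 : (k : ℝ) ^ (2 * t + 1) ≠ 0 := by positivity
    have h2t : (2 : ℝ) ^ (2 * t) ≠ 0 := by positivity
    field_simp
  refine TK_.fin_ineq hK1 hK3 hκ hκ20 h16 hs3 hs5 ((?_ : _ ≤ _).trans hmain3)
  have e1 : (1 - K1 * κ) * (1 - κ) ≤ DD t k δ * (1 - κ) :=
    mul_le_mul_of_nonneg_right hTI' (by linarith)
  exact mul_le_mul_of_nonneg_right e1 hQ.le

end Pool.Agent.OCX
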