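import Pool.Agent.OCX.Stmts
import Pool.Agent.OCX.Lib

/-!
# OCX module TM: the structure of `R`
-/

open scoped BigOperators

namespace Pool.Agent.OCX

namespace TM_

variable {V : Type} [Fintype V] {t k : ℕ} {κ C ξ : ℝ} {G : SimpleGraph V} {A B R : Set V}
  {eA eB ω : V → ℝ} {δ cc : ℝ}

/-- lower bound for the number of type I crossings through a vertex -/
theorem star (h : Cmb t k κ C ξ G A B R eA eB ω δ cc) {K : ℝ}
    (s1 : ∀ x ∈ R, 1 - K * κ ^ 2 ≤ ω x)
    (s3 : ∀ S : Set V, S ⊆ R →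
        PS G R (2 * t + 2) (fun y => (wC t eA y + wC t eB y) * vis S y) ≤
          K * κ ^ 2 * δ * ms S)
    (hC : 4 * (C / k) ≤ K * κ ^ 2) {x : V} (hx : x ∈ R) :
    δ / (4 * (Fintype.card V : ℝ)) * (1 - 4 * (K * κ ^ 2)) ≤
      PS G R (2 * t + 1) (fun y => wI t eA eB y * vis {x} y) := by
  have hne := h.ne
  have hN : (0 : ℝ) < Fintype.card V := Nat.cast_pos.2 Fintype.card_pos
  set N : ℝ := ((Fintype.card V : ℕ) : ℝ) with hNdef
  have kk := h.kkt {x} (Set.singleton_subset_iff.2 hx)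
  have s3' := s3 {x} (Set.singleton_subset_iff.2 hx)
  rw [avS_singleton, ms_singleton] at kk
  rw [ms_singleton] at s3'
  rw [← hNdef] at kk s3'
  have kk1 := (abs_le.1 kk).1
  unfold Kf at kk1
  have hd : 0 < δ / N := div_pos h.d0 hN
  have e1 : δ / 4 * (ω x / N) = δ / N * ω x / 4 := by ring
  have e2 : C / k * δ * (1 / N) = δ / N * (C / k) := by ring
  have e3 : K * κ ^ 2 * δ * (1 / N) = δ / N * (K * κ ^ 2) := by ring
  have e4 : δ / (4 * N) * (1 - 4 * (K * κ ^ 2)) = δ / N * (1 - 4 * (K * κ ^ 2)) / 4 := by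
    field_simp
  rw [e1, e2] at kk1
  rw [e3] at s3'
  rw [e4]
  have m1 : δ / N * (1 - K * κ ^ 2) ≤ δ / N * ω x := mul_le_mul_of_nonneg_left (s1 x hx) hd.le
  have m2 : δ / N * (4 * (C / k)) ≤ δ / N * (K * κ ^ 2) := mul_le_mul_of_nonneg_left hC hd.le
  nlinarith

/-- volume bound -/
theorem low (h : Cmb t k κ C ξ G A B R eA eB ω δ cc) (g : Gfa t k κ C G A B R eA eB cc) {K : ℝ}
    (hD : 1 - K * κ ≤ DD t k δ) (hK : 0 ≤ 1 - 4 * (K * κ ^ 2)) {x : V}
    (hs : δ / (4 * (Fintype.card V : ℝ)) * (1 - 4 * (K * κ ^ 2)) ≤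
      PS G R (2 * t + 1) (fun y => wI t eA eB y * vis {x} y))
    {l : ℕ} (hx : x ∈ Vl t G R A B l) {W : ℝ} (hW : 0 ≤ W) (S : Fin (2 * t + 1) → Set V)
    (hS : ∀ y, TyI t G R eA eB y → (∀ i : Fin (2 * t + 1), (i : ℕ) + 1 = l → y i = x) →
      (∀ i, y i ∈ S i) ∧ eB (y 0) * eA (y (Fin.last (2 * t))) ≤ W) :
    (1 - K * κ) * (1 - 4 * (K * κ ^ 2)) ≤
      W * ((Fintype.card V : ℝ) * (k : ℝ) ^ (2 * t + 1) * ∏ i, ms (S i)) := by
  have hne := h.ne
  have hN : (0 : ℝ) < Fintype.card V := Nat.cast_pos.2 Fintype.card_pos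
  have hk : (0 : ℝ) < k := Nat.cast_pos.2 (by have := h.k1; omega)
  set N : ℝ := ((Fintype.card V : ℕ) : ℝ) with hNdef
  have hP : PS G R (2 * t + 1) (fun y => wI t eA eB y * vis {x} y) ≤
      2 ^ (2 * t) * W * ∏ i, ms (S i) := by
    have step1 : PS G R (2 * t + 1) (fun y => wI t eA eB y * vis {x} y) ≤
        PS G R (2 * t + 1) (fun y => (2 ^ (2 * t) * W) *
          ∏ i, (S i).indicator (fun _ => (1 : ℝ)) (y i)) := by
      refine PS_mono fun y hy => ?_
      have hprod : 0 ≤ ∏ i, (S i).indicator (fun _ => (1 : ℝ)) (y i) :=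
        Finset.prod_nonneg fun i _ => Set.indicator_nonneg (fun _ _ => zero_le_one) _
      have hrhs : 0 ≤ (2 ^ (2 * t) * W) * ∏ i, (S i).indicator (fun _ => (1 : ℝ)) (y i) := by
        positivity
      by_cases hpos : 0 < eB (y 0) ∧ 0 < eA (y (Fin.last (2 * t)))
      · have hT : TyI t G R eA eB y := ⟨hy, hpos.1, hpos.2⟩
        by_cases hv : ∃ i, y i = x
        · obtain ⟨i, hi⟩ := hv
          have hil : (i : ℕ) + 1 = l := g.i4 y hT i l (by rw [hi]; exact hx)
          have huniq : ∀ j, y j ∈ ({x} : Set V) → (j : ℕ) + 1 = l := fun j hj =>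
            g.i4 y hT j l (by rw [Set.mem_singleton_iff.1 hj]; exact hx)
          have hvis : vis {x} y ≤ 1 := by
            refine vis_le_of_unique fun i j h1 h2 => ?_
            have a1 := huniq i h1
            have a2 := huniq j h2
            exact Fin.ext (by omega)
          have hcond : ∀ j : Fin (2 * t + 1), (j : ℕ) + 1 = l → y j = x := by
            intro j hj
            have : j = i := Fin.ext (by omega)
            rw [this, hi]
          obtain ⟨h1, h2⟩ := hS y hT hcond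
          have hp1 : ∏ i, (S i).indicator (fun _ => (1 : ℝ)) (y i) = 1 :=
            Finset.prod_eq_one fun i _ => Set.indicator_of_mem (h1 i) _
          rw [hp1, mul_one]
          have hw : 0 ≤ wI t eA eB y := by
            unfold wI
            have := hpos.1
            have := hpos.2
            positivity
          calc wI t eA eB y * vis {x} y ≤ wI t eA eB y * 1 :=
                mul_le_mul_of_nonneg_left hvis hw
            _ = 2 ^ (2 * t) * (eB (y 0) * eA (y (Fin.last (2 * t)))) := by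
                rw [mul_one]; rfl
            _ ≤ 2 ^ (2 * t) * W := mul_le_mul_of_nonneg_left h2 (by positivity)
        · have hv0 : vis {x} y = 0 := by
            unfold vis
            refine Finset.sum_eq_zero fun i _ => Set.indicator_of_notMem ?_ _
            intro hi
            exact hv ⟨i, Set.mem_singleton_iff.1 hi⟩
          rw [hv0, mul_zero]
          exact hrhs
      · have hw : wI t eA eB y = 0 := by
          unfold wI
          rw [not_and_or, not_lt, not_lt] at hpos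
          rcases hpos with h' | h'
          · rw [le_antisymm h' (h.eB0 _)]
            ring
          · rw [le_antisymm h' (h.eA0 _)]
            ring
        rw [hw, zero_mul]
        exact hrhs
    have step2 : PS G R (2 * t + 1) (fun y => ∏ i, (S i).indicator (fun _ => (1 : ℝ)) (y i)) ≤
        ∏ i, ms (S i) :=
      PS_le_prod S (fun _ _ => 1) (fun _ _ _ => zero_le_one) fun y _ => le_rfl
    rw [PS_mul_left] at step1
    exact step1.trans (mul_le_mul_of_nonneg_left step2 (by positivity))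
  have hc : 0 < N * (k : ℝ) ^ (2 * t + 1) / 4 ^ t := by positivity
  have h1 := mul_le_mul_of_nonneg_right (hs.trans hP) hc.le
  have e1 : δ / (4 * N) * (1 - 4 * (K * κ ^ 2)) * (N * (k : ℝ) ^ (2 * t + 1) / 4 ^ t) =
      DD t k δ * (1 - 4 * (K * κ ^ 2)) := by
    unfold DD
    rw [pow_succ (4 : ℝ) t]
    field_simp
  have e2 : 2 ^ (2 * t) * W * (∏ i, ms (S i)) * (N * (k : ℝ) ^ (2 * t + 1) / 4 ^ t) =
      W * (N * (k : ℝ) ^ (2 * t + 1) * ∏ i, ms (S i)) := by
    have e3 : (2 : ℝ) ^ (2 * t) = 4 ^ t := by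
      rw [pow_mul]; norm_num
    rw [e3]
    field_simp
  rw [e1, e2] at h1
  exact (mul_le_mul_of_nonneg_right hD hK).trans h1

theorem prod_two {m : ℕ} (i0 i1 : Fin m) (a b q : ℝ) :
    ∏ i : Fin m, ((if i = i0 then a else 1) * (if i = i1 then b else 1) * q) = a * b * q ^ m := by
  rw [Finset.prod_mul_distrib, Finset.prod_mul_distrib, Finset.prod_ite_eq',
    Finset.prod_ite_eq']
  simp

theorem prod_one' {m : ℕ} (i0 : Fin m) (a q : ℝ) :
    ∏ i : Fin m, ((if i = i0 then a else 1) * q) = a * q ^ m := by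
  rw [Finset.prod_mul_distrib, Finset.prod_ite_eq']
  simp

/-- Bernoulli -/
theorem bern {x X : ℝ} (hx0 : 0 ≤ x) (hx1 : x ≤ 1) (hX : 0 ≤ X) (n : ℕ)
    (h : 1 - x ≤ (1 + x) ^ n * X) : 1 - (n + 1 : ℕ) * x ≤ X := by
  have h1 : 0 ≤ (1 - x) ^ n := pow_nonneg (by linarith) _
  have h2 := mul_le_mul_of_nonneg_left h h1
  have h3 : (1 - x) ^ n * ((1 + x) ^ n * X) = (1 - x ^ 2) ^ n * X := by
    rw [← mul_assoc, ← mul_pow]
    congr 2
    ring
  have h4 : (1 - x ^ 2) ^ n ≤ 1 := pow_le_one₀ (by nlinarith) (by nlinarith)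
  have h5 : (1 - x) ^ n * (1 - x) = (1 - x) ^ (n + 1) := (pow_succ _ _).symm
  rw [h3, h5] at h2
  have h6 := one_add_mul_le_pow (a := -x) (by linarith) (n + 1)
  have h7 : (1 + -x) ^ (n + 1) = (1 - x) ^ (n + 1) := by ring
  rw [h7] at h6
  have h8 : (1 - x ^ 2) ^ n * X ≤ X := by nlinarith
  push_cast at h6 ⊢
  linarith

/-- the output for one side -/
structure Half (t k : ℕ) (κ K : ℝ) (G : SimpleGraph V) (A B R : Set V) (eA eB : V → ℝ)
    (δ cc : ℝ) : Prop where
  part : ∀ x ∈ R, ∃ l, 1 ≤ l ∧ l ≤ 2 * t + 1 ∧ x ∈ Vl t G R A B l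
  mV1 : ∀ l, 1 ≤ l → l ≤ 2 * t + 1 → (1 - K * κ) / k ≤ ms (Vl t G R A B l)
  mV2 : ∀ l, 1 ≤ l → l ≤ 2 * t + 1 → ms (Vl t G R A B l) ≤ (1 + K * κ) / k
  up : ∀ l, 1 ≤ l → l ≤ 2 * t → ∀ x ∈ Vl t G R A B l,
    (1 - K * κ) / k ≤ ms (G.neighborSet x ∩ Vl t G R A B (l + 1))
  pr : t = 0 → ∀ x ∈ R, (1 - K * κ) / k ≤ eA x * eB x
  cle : cc ≤ 1 + K * κ
  D1 : 1 - K * κ ≤ DD t k δ
  D2 : DD t k δ ≤ 1 + K * κ
  lA : ∀ x ∈ Vl t G R A B (2 * t + 1), 1 / (8 * κ * k) ≤ eA x

omit [Fintype V] in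
theorem Vl_sub {l : ℕ} : Vl t G R A B l ⊆ R := fun _ hx => hx.1.mem

theorem half (h : Cmb t k κ C ξ G A B R eA eB ω δ cc) (g : Gfa t k κ C G A B R eA eB cc)
    {K : ℝ} (hK1 : 1 ≤ K) (hκ : 0 < κ) (hκs : κ ≤ 1 / (16 * (t + 1) * K))
    (hsm : ∀ x ∈ R, eA x ≤ 2 * κ ∧ eB x ≤ 2 * κ)
    (s1 : ∀ x ∈ R, 1 - K * κ ^ 2 ≤ ω x)
    (s3 : ∀ S : Set V, S ⊆ R →
        PS G R (2 * t + 2) (fun y => (wC t eA y + wC t eB y) * vis S y) ≤
          K * κ ^ 2 * δ * ms S)
    (s4 : |DD t k δ - 1| ≤ K * κ) (s5 : cc ≤ 1 + K * κ)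
    (s6 : ∀ l, 1 ≤ l → l ≤ 2 * t + 1 → 1 - K * κ ≤ k * avS (Vl t G R A B l) ω)
    (s7 : ∀ l, 1 ≤ l → l ≤ 2 * t + 1 → k * avS (Vl t G R A B l) ω ≤ 1 + K * κ)
    (hC : 4 * (C / k) ≤ κ ^ 2) : Half t k κ ((4 * t + 6) * K) G A B R eA eB δ cc := by
  have hne := h.ne
  have hN : (0 : ℝ) < ((Fintype.card V : ℕ) : ℝ) := Nat.cast_pos.2 Fintype.card_pos
  have hk : (0 : ℝ) < k := Nat.cast_pos.2 (by have := h.k1; omega)
  set N : ℝ := ((Fintype.card V : ℕ) : ℝ) with hNdef
  have ht0 : (0 : ℝ) ≤ t := Nat.cast_nonneg _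
  have hKκ : K * κ * (16 * (t + 1)) ≤ 1 := by
    rw [le_div_iff₀ (by positivity)] at hκs
    linarith
  have hKκ0 : 0 < K * κ := by positivity
  have hKκ1 : K * κ ≤ 1 / 16 := by nlinarith
  have hκ1 : κ ≤ 1 / 16 := by nlinarith
  have hKκ2 : K * κ ^ 2 ≤ K * κ / 16 := by nlinarith
  have hKκ20 : 0 < K * κ ^ 2 := by positivity
  have hCk : 4 * (C / k) ≤ K * κ ^ 2 := by nlinarith [sq_nonneg κ]
  have hCk2 : C / k ≤ K * κ := by nlinarith
  have hC0 : 0 ≤ C / k := div_nonneg (by linarith [h.C1]) hk.le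
  have hK4 : 0 ≤ 1 - 4 * (K * κ ^ 2) := by linarith
  have hD1 : 1 - K * κ ≤ DD t k δ := by
    have := (abs_le.1 s4).1
    linarith
  have hD2 : DD t k δ ≤ 1 + K * κ := by
    have := (abs_le.1 s4).2
    linarith
  have hbig : K * κ ≤ (4 * t + 6) * K * κ := by nlinarith
  -- masses
  have hmV1 : ∀ l, 1 ≤ l → l ≤ 2 * t + 1 → (1 - K * κ) / k ≤ ms (Vl t G R A B l) := by
    intro l h1 h2
    rw [div_le_iff₀ hk]
    have a1 := s6 l h1 h2
    have a2 : avS (Vl t G R A B l) ω ≤ 1 * ms (Vl t G R A B l) :=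
      avS_le_mul_ms fun x hx => h.om3 x (Vl_sub hx)
    nlinarith
  have hmV2 : ∀ l, 1 ≤ l → l ≤ 2 * t + 1 → ms (Vl t G R A B l) ≤ (1 + 2 * (K * κ)) / k := by
    intro l h1 h2
    rw [le_div_iff₀ hk]
    have a1 := s7 l h1 h2
    have a2 : (1 - K * κ ^ 2) * ms (Vl t G R A B l) ≤ avS (Vl t G R A B l) ω :=
      mul_ms_le_avS fun x hx => s1 x (Vl_sub hx)
    have a3 : (k : ℝ) * ((1 - K * κ ^ 2) * ms (Vl t G R A B l)) ≤ 1 + K * κ :=
      (mul_le_mul_of_nonneg_left a2 hk.le).trans a1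
    have a4 : 1 + K * κ ≤ (1 + 2 * (K * κ)) * (1 - K * κ ^ 2) := by nlinarith
    have a5 : 0 < 1 - K * κ ^ 2 := by linarith
    have a6 : (ms (Vl t G R A B l) * k) * (1 - K * κ ^ 2) ≤
        (1 + 2 * (K * κ)) * (1 - K * κ ^ 2) := by
      calc (ms (Vl t G R A B l) * k) * (1 - K * κ ^ 2) =
            k * ((1 - K * κ ^ 2) * ms (Vl t G R A B l)) := by ring
        _ ≤ _ := a3.trans a4
    exact le_of_mul_le_mul_right a6 a5
  set P : ℝ := 1 + 2 * (K * κ) with hP
  have hP0 : 0 < P := by linarith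
  have hP1 : 1 ≤ P := by linarith
  set q : ℝ := P / k with hq
  have hq0 : 0 < q := div_pos hP0 hk
  have hkq : ∀ n : ℕ, (k : ℝ) ^ n * q ^ n = P ^ n := by
    intro n
    rw [← mul_pow, hq, mul_div_cancel₀ _ hk.ne']
  have hlhs : 1 - 2 * (K * κ) ≤ (1 - K * κ) * (1 - 4 * (K * κ ^ 2)) := by nlinarith
  have hstar : ∀ x ∈ R, δ / (4 * N) * (1 - 4 * (K * κ ^ 2)) ≤
      PS G R (2 * t + 1) (fun y => wI t eA eB y * vis {x} y) := fun x hx =>
    star h s1 s3 hCk hx
  have hx0 : (0 : ℝ) ≤ 2 * (K * κ) := by linarith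
  have hx1 : 2 * (K * κ) ≤ 1 := by linarith
  -- the cost
  set W : ℝ := (cc + C / k) / k with hWdef
  have hW0 : 0 ≤ W := div_nonneg (by linarith [h.c0]) hk.le
  have hWk : W * k ≤ P := by
    rw [hWdef, div_mul_cancel₀ _ hk.ne', hP]
    linarith
  have hWy : ∀ y, TyI t G R eA eB y → eB (y 0) * eA (y (Fin.last (2 * t))) ≤ W := by
    intro y hy
    rw [hWdef, le_div_iff₀ hk]
    have a1 := (g.i1 y hy).1
    have b1 := hy.2.1
    have b2 := hy.2.2
    have : 0 < (k : ℝ) * eB (y 0) * eA (y (Fin.last (2 * t))) := by positivity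
    nlinarith
  refine ⟨?_, ?_, ?_, ?_, ?_, ?_, ?_, ?_, ?_⟩
  · -- part
    intro x hx
    have h1 := hstar x hx
    have hpos : 0 < δ / (4 * N) * (1 - 4 * (K * κ ^ 2)) := by
      have := h.d0
      have : 0 < 1 - 4 * (K * κ ^ 2) := by linarith
      positivity
    obtain ⟨y, hy, hF⟩ := exists_of_PS_pos (lt_of_lt_of_le hpos h1)
    have hv0 := vis_nonneg {x} y
    have hw : 0 < wI t eA eB y ∧ 0 < vis {x} y := by
      have hw0 : 0 ≤ wI t eA eB y := by
        unfold wI
        have := h.eB0 (y 0)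
        have := h.eA0 (y (Fin.last (2 * t)))
        positivity
      constructor
      · rcases hw0.lt_or_eq with h' | h'
        · exact h'
        · rw [← h', zero_mul] at hF
          exact absurd hF (lt_irrefl _)
      · rcases hv0.lt_or_eq with h' | h'
        · exact h'
        · rw [← h', mul_zero] at hF
          exact absurd hF (lt_irrefl _)
    have hT : TyI t G R eA eB y := by
      have hw1 := hw.1
      unfold wI at hw1
      have hw2 : 0 < eB (y 0) * eA (y (Fin.last (2 * t))) := by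
        by_contra hc
        rw [not_lt] at hc
        have : (2 : ℝ) ^ (2 * t) * (eB (y 0) * eA (y (Fin.last (2 * t)))) ≤ 0 :=
          mul_nonpos_of_nonneg_of_nonpos (by positivity) hc
        linarith
      refine ⟨hy, ?_, ?_⟩
      · rcases (h.eB0 (y 0)).lt_or_eq with h' | h'
        · exact h'
        · rw [← h', zero_mul] at hw2
          exact absurd hw2 (lt_irrefl _)
      · rcases (h.eA0 (y (Fin.last (2 * t)))).lt_or_eq with h' | h'
        · exact h'
        · rw [← h', mul_zero] at hw2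
          exact absurd hw2 (lt_irrefl _)
    have hex : ∃ i, y i = x := by
      by_contra hc
      have : vis {x} y = 0 := by
        unfold vis
        refine Finset.sum_eq_zero fun i _ => Set.indicator_of_notMem ?_ _
        intro hi
        exact hc ⟨i, Set.mem_singleton_iff.1 hi⟩
      rw [this] at hw
      exact absurd hw.2 (lt_irrefl _)
    obtain ⟨i, hi⟩ := hex
    have hi3 := g.i3 y hT i
    rw [hi] at hi3
    exact ⟨i + 1, by omega, by have := i.2; omega, hi3⟩
  · -- mV1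
    intro l h1 h2
    refine le_trans ?_ (hmV1 l h1 h2)
    exact div_le_div_of_nonneg_right (by linarith) hk.le
  · -- mV2
    intro l h1 h2
    refine (hmV2 l h1 h2).trans ?_
    refine div_le_div_of_nonneg_right ?_ hk.le
    rw [hP]
    nlinarith
  · -- up
    intro l h1 h2 x hx
    have hxR := Vl_sub hx
    set m : ℝ := ms (G.neighborSet x ∩ Vl t G R A B (l + 1)) with hm
    have hm0 : 0 ≤ m := ms_nonneg _
    set i0 : Fin (2 * t + 1) := ⟨l - 1, by omega⟩ with hi0
    set i1 : Fin (2 * t + 1) := ⟨l, by omega⟩ with hi1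
    have hne01 : i1 ≠ i0 := by
      intro hc
      have := congrArg Fin.val hc
      simp only [hi0, hi1] at this
      omega
    set S : Fin (2 * t + 1) → Set V := fun i =>
      if i = i0 then {x} else if i = i1 then G.neighborSet x ∩ Vl t G R A B (l + 1)
        else Vl t G R A B (i + 1) with hS
    have key := low h g hD1 hK4 (hstar x hxR) hx hW0 S (by
      intro y hy hcond
      refine ⟨fun i => ?_, hWy y hy⟩
      have hy0 : y i0 = x := hcond i0 (by simp only [hi0]; omega)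
      by_cases c0 : i = i0
      · rw [hS]
        simp only [c0, if_true]
        rw [hy0]
        rfl
      · by_cases c1 : i = i1
        · rw [hS]
          simp only [c1, hne01, if_false, if_true]
          refine ⟨?_, ?_⟩
          · have := hy.1.2 i0 i1 (by simp only [hi0, hi1]; omega)
            rw [hy0] at this
            exact this
          · have := g.i3 y hy i1
            simpa only [hi1] using this
        · rw [hS]
          simp only [c0, c1, if_false]
          exact g.i3 y hy i)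
    have hprod : ∏ i, ms (S i) ≤ (1 / N) / q * (m / q) * q ^ (2 * t + 1) := by
      rw [← prod_two i0 i1]
      refine Finset.prod_le_prod (fun i _ => ms_nonneg _) fun i _ => ?_
      by_cases c0 : i = i0
      · rw [hS]
        simp only [c0, if_true, hne01.symm, if_false, mul_one]
        rw [ms_singleton, div_mul_cancel₀ _ hq0.ne']
      · by_cases c1 : i = i1
        · rw [hS]
          simp only [c1, hne01, if_false, if_true, one_mul]
          rw [div_mul_cancel₀ _ hq0.ne']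
        · rw [hS]
          simp only [c0, c1, if_false, one_mul]
          exact hmV2 _ (by omega) (by have := i.2; omega)
    have hfin : (1 - K * κ) * (1 - 4 * (K * κ ^ 2)) ≤
        W * (N * (k : ℝ) ^ (2 * t + 1) * ((1 / N) / q * (m / q) * q ^ (2 * t + 1))) :=
      key.trans (mul_le_mul_of_nonneg_left (mul_le_mul_of_nonneg_left hprod (by positivity)) hW0)
    have e1 : W * (N * (k : ℝ) ^ (2 * t + 1) * ((1 / N) / q * (m / q) * q ^ (2 * t + 1))) =
        (W * k) * (k * m) * ((k : ℝ) ^ (2 * t + 1) * q ^ (2 * t + 1)) / ((k * q) ^ 2) := by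
      field_simp
    have e2 : (k : ℝ) * q = P := by rw [hq, mul_div_cancel₀ _ hk.ne']
    rw [e1, hkq, e2] at hfin
    have hX : 0 ≤ (k : ℝ) * m := by positivity
    have hPpow : P ^ (2 * t + 1) / P ^ 2 ≤ P ^ (2 * t + 1) := by
      rw [div_le_iff₀ (by positivity)]
      have : 1 ≤ P ^ 2 := one_le_pow₀ hP1
      have h3 : 0 < P ^ (2 * t + 1) := by positivity
      nlinarith
    have hfin2 : 1 - 2 * (K * κ) ≤ (1 + 2 * (K * κ)) ^ (2 * t + 2) * (k * m) := by
      refine hlhs.trans (hfin.trans ?_)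
      calc W * k * (k * m) * P ^ (2 * t + 1) / P ^ 2 =
            (W * k) * ((k * m) * (P ^ (2 * t + 1) / P ^ 2)) := by ring
        _ ≤ P * ((k * m) * P ^ (2 * t + 1)) := by
            refine mul_le_mul hWk (mul_le_mul_of_nonneg_left hPpow hX) (by positivity) hP0.le
        _ = P ^ (2 * t + 2) * (k * m) := by ring
    have hb := bern hx0 hx1 hX (2 * t + 2) hfin2
    rw [div_le_iff₀ hk]
    push_cast at hb
    nlinarith
  · -- pr
    intro ht x hx
    subst ht
    have h1 := hstar x hx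
    have hW' : 0 ≤ eA x * eB x := mul_nonneg (h.eA0 x) (h.eB0 x)
    obtain ⟨l, hl1, hl2, hxl⟩ : ∃ l, 1 ≤ l ∧ l ≤ 2 * 0 + 1 ∧ x ∈ Vl 0 G R A B l := by
      have hpos : 0 < δ / (4 * N) * (1 - 4 * (K * κ ^ 2)) := by
        have := h.d0
        have : 0 < 1 - 4 * (K * κ ^ 2) := by linarith
        positivity
      obtain ⟨y, hy, hF⟩ := exists_of_PS_pos (lt_of_lt_of_le hpos h1)
      have hw : 0 < eB (y 0) ∧ 0 < eA (y (Fin.last (2 * 0))) ∧ y 0 = x := by
        have hv : vis {x} y ≠ 0 := by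
          intro h'
          rw [h', mul_zero] at hF
          exact absurd hF (lt_irrefl _)
        have hwI : wI 0 eA eB y ≠ 0 := by
          intro h'
          rw [h', zero_mul] at hF
          exact absurd hF (lt_irrefl _)
        unfold wI at hwI
        refine ⟨?_, ?_, ?_⟩
        · rcases (h.eB0 (y 0)).lt_or_eq with h' | h'
          · exact h'
          · rw [← h'] at hwI
            simp at hwI
        · rcases (h.eA0 (y (Fin.last (2 * 0)))).lt_or_eq with h' | h'
          · exact h'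
          · rw [← h'] at hwI
            simp at hwI
        · by_contra hc
          apply hv
          unfold vis
          refine Finset.sum_eq_zero fun i _ => Set.indicator_of_notMem ?_ _
          intro hi
          apply hc
          rw [← Set.mem_singleton_iff.1 hi]
          congr 1
          exact Fin.ext (by have := i.2; simp only [Fin.val_zero]; omega)
      have hT : TyI 0 G R eA eB y := ⟨hy, hw.1, hw.2.1⟩
      have h3 := g.i3 y hT 0
      rw [hw.2.2] at h3
      exact ⟨_, by simp, by simp, h3⟩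
    have key := low h g hD1 hK4 h1 hxl hW' (fun _ => {x}) (by
      intro y hy hcond
      have hy0 : ∀ i, y i = x := by
        intro i
        apply hcond
        have := i.2
        omega
      refine ⟨fun i => Set.mem_singleton_iff.2 (hy0 i), ?_⟩
      rw [hy0, hy0, mul_comm])
    have e1 : ∏ i : Fin (2 * 0 + 1), ms ({x} : Set V) = 1 / N := by
      rw [Finset.prod_const, ms_singleton]
      simp [hNdef]
    rw [e1] at key
    have e2 : eA x * eB x * (N * (k : ℝ) ^ (2 * 0 + 1) * (1 / N)) = eA x * eB x * k := by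
      field_simp
      norm_num
    rw [e2] at key
    rw [div_le_iff₀ hk]
    push_cast
    nlinarith
  · linarith
  · linarith
  · linarith
  · -- lA
    intro x hx
    have hxR := Vl_sub hx
    have hW' : 0 ≤ 2 * κ * eA x := mul_nonneg (by linarith) (h.eA0 x)
    set i0 : Fin (2 * t + 1) := Fin.last (2 * t) with hi0
    set S : Fin (2 * t + 1) → Set V := fun i =>
      if i = i0 then {x} else Vl t G R A B (i + 1) with hS
    have key := low h g hD1 hK4 (hstar x hxR) hx hW' S (by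
      intro y hy hcond
      have hy0 : y i0 = x := hcond i0 (by simp only [hi0, Fin.val_last])
      refine ⟨fun i => ?_, ?_⟩
      · by_cases c0 : i = i0
        · rw [hS]
          simp only [c0, if_true]
          rw [hy0]
          rfl
        · rw [hS]
          simp only [c0, if_false]
          exact g.i3 y hy i
      · rw [← hi0, hy0]
        exact mul_le_mul_of_nonneg_right (hsm _ (hy.1.1 0)).2 (h.eA0 x))
    have hprod : ∏ i, ms (S i) ≤ (1 / N) / q * q ^ (2 * t + 1) := by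
      rw [← prod_one' i0]
      refine Finset.prod_le_prod (fun i _ => ms_nonneg _) fun i _ => ?_
      by_cases c0 : i = i0
      · rw [hS]
        simp only [c0, if_true]
        rw [ms_singleton, div_mul_cancel₀ _ hq0.ne']
      · rw [hS]
        simp only [c0, if_false, one_mul]
        exact hmV2 _ (by omega) (by have := i.2; omega)
    have hfin : (1 - K * κ) * (1 - 4 * (K * κ ^ 2)) ≤
        2 * κ * eA x * (N * (k : ℝ) ^ (2 * t + 1) * ((1 / N) / q * q ^ (2 * t + 1))) :=
      key.trans (mul_le_mul_of_nonneg_left (mul_le_mul_of_nonneg_left hprod (by positivity)) hW')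
    have e1 : 2 * κ * eA x * (N * (k : ℝ) ^ (2 * t + 1) * ((1 / N) / q * q ^ (2 * t + 1))) =
        (2 * κ * eA x * k) * ((k : ℝ) ^ (2 * t + 1) * q ^ (2 * t + 1)) / (k * q) := by
      field_simp
    have e2 : (k : ℝ) * q = P := by rw [hq, mul_div_cancel₀ _ hk.ne']
    rw [e1, hkq, e2] at hfin
    have hX : 0 ≤ 2 * κ * eA x * k := by positivity
    have hPpow : P ^ (2 * t + 1) / P ≤ P ^ (2 * t + 1) := by
      rw [div_le_iff₀ hP0]
      have h3 : 0 < P ^ (2 * t + 1) := by positivity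
      nlinarith
    have hfin2 : 1 - 2 * (K * κ) ≤ (1 + 2 * (K * κ)) ^ (2 * t + 1) * (2 * κ * eA x * k) := by
      refine hlhs.trans (hfin.trans ?_)
      calc 2 * κ * eA x * k * P ^ (2 * t + 1) / P =
            (2 * κ * eA x * k) * (P ^ (2 * t + 1) / P) := by ring
        _ ≤ (2 * κ * eA x * k) * P ^ (2 * t + 1) := mul_le_mul_of_nonneg_left hPpow hX
        _ = P ^ (2 * t + 1) * (2 * κ * eA x * k) := by ring
    have hb := bern hx0 hx1 hX (2 * t + 1) hfin2
    push_cast at hb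
    have hq4 : 1 / 4 ≤ 2 * κ * eA x * k := by nlinarith
    rw [div_le_iff₀ (by positivity)]
    nlinarith

end TM_

open TM_ in
/-- TM. -/
theorem tm_proof (h1 : Stmt_GRA) (h2 : Stmt_SM) : Stmt_TM := by
  intro t
  obtain ⟨K, hK1, κs, hκs, hSM⟩ := h2 t
  have ht0 : (0 : ℝ) ≤ t := Nat.cast_nonneg _
  refine ⟨(4 * t + 6) * K, by nlinarith, min κs (1 / (16 * (t + 1) * K)),
    lt_min hκs (by positivity), ?_⟩
  intro κ hκ hκ2 C
  obtain ⟨k1, hk1⟩ := hSM κ hκ (hκ2.trans (min_le_left _ _)) C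
  obtain ⟨k2, hk2⟩ := exists_nat_ge (4 * C / κ ^ 2)
  refine ⟨max k1 k2, ?_⟩
  intro k hk V _ G A B R eA eB ω ξ δ cc hξ h hsm
  have hk0 : (0 : ℝ) < k := Nat.cast_pos.2 (by have := h.k1; omega)
  have hC : 4 * (C / k) ≤ κ ^ 2 := by
    have a1 : 4 * C / κ ^ 2 ≤ k := hk2.trans (Nat.cast_le.2 ((le_max_right _ _).trans hk))
    rw [div_le_iff₀ (by positivity)] at a1
    rw [← mul_div_assoc, div_le_iff₀ hk0]
    linarith
  have hkk : k1 ≤ k := (le_max_left _ _).trans hk
  obtain ⟨s1, -, s3, s4, s5, s6, s7⟩ := hk1 k hkk V G A B R eA eB ω ξ δ cc hξ h hsm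
  have hsm' : ∀ x ∈ R, eB x ≤ 2 * κ ∧ eA x ≤ 2 * κ := fun x hx => ⟨(hsm x hx).2, (hsm x hx).1⟩
  obtain ⟨-, -, s3', -, -, s6', s7'⟩ := hk1 k hkk V G B A R eB eA ω ξ δ cc hξ h.swap hsm'
  have g := h1 t k κ C V G A B R eA eB ω ξ δ cc hκ h
  have g' := h1 t k κ C V G B A R eB eA ω ξ δ cc hκ h.swap
  have hκ3 := hκ2.trans (min_le_right _ _)
  have H := half h g hK1 hκ hκ3 hsm s1 s3 s4 s5 s6 s7 hC
  have H' := half h.swap g' hK1 hκ hκ3 hsm' s1 s3' s4 s5 s6' s7' hC
  refine ⟨H.part, H.mV1, H.mV2, H.up, ?_, H.pr, H.cle, H.D1, H.D2, H.lA, ?_⟩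
  · intro l h1 h2 x hx
    have e1 : Vl t G R A B (l + 1) = Vl t G R B A (2 * t + 1 - l) := by
      rw [Vl_swap (by omega)]
      congr 1
      omega
    have e2 : Vl t G R A B l = Vl t G R B A (2 * t + 1 - l + 1) := by
      rw [Vl_swap (by omega)]
      congr 1
      omega
    rw [e1] at hx
    rw [e2]
    exact H'.up _ (by omega) (by omega) x hx
  · intro x hx
    apply H'.lA
    rw [Vl_swap (by omega)]
    have e : 2 * t + 2 - (2 * t + 1) = 1 := by omega
    rw [e]
    exact hx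

end Pool.Agent.OCX
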