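import Pool.Agent.OCX.Stmts
import Pool.Agent.OCX.Lib

/-! OCX, module TN: core vertices adjacent to `V_(2 t + 1)`. -/

open scoped BigOperators

namespace Pool.Agent.OCX
namespace TN_

section

variable {V : Type} [Fintype V] {G : SimpleGraph V} {R A B : Set V}

theorem aP_le {m : ℕ} {e : V → ℝ} {x : V} (S : Fin m → Set V) {E : ℝ} (hE : 0 ≤ E)
    (h : ∀ y : Fin (m + 1) → V, IsP G R y → y (Fin.last m) = x →
      e (y 0) ≤ 0 ∨ (e (y 0) ≤ E ∧ ∀ i : Fin m, y i.castSucc ∈ S i)) :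
    aP G R e m x ≤ 2 ^ m * (E * ∏ i, ms (S i)) := by
  classical
  have key : (∑ y : Fin (m + 1) → V, {y | IsP G R y ∧ y (Fin.last m) = x}.indicator
      (fun y => e (y 0)) y) ≤ E * ∏ i : Fin m, ∑ w, (S i).indicator (fun _ => (1 : ℝ)) w := by
    have e1 : E * ∏ i : Fin m, ∑ w, (S i).indicator (fun _ => (1 : ℝ)) w =
        ∑ y : Fin (m + 1) → V, E * ∏ i : Fin (m + 1),
          ((Fin.snoc (α := fun _ => Set V) S {x} : Fin (m + 1) → Set V) i).indicator
            (fun _ => (1 : ℝ)) (y i) := by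
      rw [← Finset.mul_sum]
      congr 1
      have e2 := Finset.prod_univ_sum (fun _ : Fin (m + 1) => (Finset.univ : Finset V))
        (fun (i : Fin (m + 1)) (w : V) =>
          ((Fin.snoc (α := fun _ => Set V) S {x} : Fin (m + 1) → Set V) i).indicator
            (fun _ => (1 : ℝ)) w)
      rw [Fintype.piFinset_univ] at e2
      rw [← e2, Fin.prod_univ_castSucc]
      simp only [Fin.snoc_castSucc, Fin.snoc_last]
      have e3 : ∑ w : V, ({x} : Set V).indicator (fun _ => (1 : ℝ)) w = 1 := by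
        rw [Finset.sum_eq_single x]
        · rw [Set.indicator_of_mem (Set.mem_singleton x)]
        · intro y _ hy
          exact Set.indicator_of_notMem (show y ∉ ({x} : Set V) from hy) _
        · intro h
          exact absurd (Finset.mem_univ x) h
      rw [e3, mul_one]
    rw [e1]
    refine Finset.sum_le_sum fun y _ => ?_
    have hnn : 0 ≤ ∏ i : Fin (m + 1),
          ((Fin.snoc (α := fun _ => Set V) S {x} : Fin (m + 1) → Set V) i).indicator
            (fun _ => (1 : ℝ)) (y i) :=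
      Finset.prod_nonneg fun i _ => Set.indicator_nonneg (fun _ _ => zero_le_one) _
    by_cases hy : IsP G R y ∧ y (Fin.last m) = x
    · rw [Set.indicator_of_mem (show y ∈ {y | IsP G R y ∧ y (Fin.last m) = x} from hy)]
      rcases h y hy.1 hy.2 with h1 | ⟨h1, h2⟩
      · exact h1.trans (mul_nonneg hE hnn)
      · have e4 : ∏ i : Fin (m + 1),
          ((Fin.snoc (α := fun _ => Set V) S {x} : Fin (m + 1) → Set V) i).indicator
            (fun _ => (1 : ℝ)) (y i) = 1 := by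
          rw [Fin.prod_univ_castSucc]
          simp only [Fin.snoc_castSucc, Fin.snoc_last]
          rw [Finset.prod_eq_one, Set.indicator_of_mem (show y (Fin.last m) ∈ ({x} : Set V) from hy.2),
            mul_one]
          intro i _
          exact Set.indicator_of_mem (h2 i) _
        rw [e4, mul_one]
        exact h1
    · rw [Set.indicator_of_notMem (show y ∉ {y | IsP G R y ∧ y (Fin.last m) = x} from hy)]
      exact mul_nonneg hE hnn
  unfold aP
  rw [mul_div_assoc]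
  refine mul_le_mul_of_nonneg_left ?_ (by positivity)
  have e5 : ∏ i, ms (S i) = (∏ i : Fin m, ∑ w, (S i).indicator (fun _ => (1 : ℝ)) w) /
      (Fintype.card V : ℝ) ^ m := by
    unfold ms avS av
    rw [Finset.prod_div_distrib, Finset.prod_const, Finset.card_univ, Fintype.card_fin]
  rw [e5, ← mul_div_assoc]
  exact div_le_div_of_nonneg_right key (pow_nonneg (Nat.cast_nonneg _) _)

theorem ms_le_sum {t : ℕ} (h : ∀ x ∈ R, ∃ l, 1 ≤ l ∧ l ≤ 2 * t + 1 ∧ x ∈ Vl t G R A B l) :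
    ms R ≤ ∑ l ∈ Finset.Icc 1 (2 * t + 1), ms (Vl t G R A B l) := by
  classical
  unfold ms avS av
  rw [← Finset.sum_div, Finset.sum_comm]
  refine div_le_div_of_nonneg_right (Finset.sum_le_sum fun x _ => ?_) (Nat.cast_nonneg _)
  have hnn : ∀ l ∈ Finset.Icc 1 (2 * t + 1),
      0 ≤ (Vl t G R A B l).indicator (fun _ => (1 : ℝ)) x :=
    fun l _ => Set.indicator_nonneg (fun _ _ => zero_le_one) _
  by_cases hx : x ∈ R
  · rw [Set.indicator_of_mem hx]
    obtain ⟨l, h1, h2, h3⟩ := h x hx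
    have := Finset.single_le_sum hnn (Finset.mem_Icc.2 ⟨h1, h2⟩)
    rw [Set.indicator_of_mem h3] at this
    exact this
  · rw [Set.indicator_of_notMem hx]
    exact Finset.sum_nonneg hnn

end

theorem pow_small {a : ℝ} (n : ℕ) (ha : 0 ≤ a) (h : n * a ≤ 1) : (1 + a) ^ n ≤ 1 + 2 * (n * a) := by
  have h1 : (1 + a) ^ n ≤ Real.exp (n * a) := by
    rw [Real.exp_nat_mul]
    exact pow_le_pow_left₀ (by linarith) (by linarith [Real.add_one_le_exp a]) n
  have h0 : 0 ≤ (n : ℝ) * a := by positivity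
  have h2 := Real.abs_exp_sub_one_le (x := n * a) (by rw [abs_of_nonneg h0]; exact h)
  rw [abs_of_nonneg h0] at h2
  have h3 := (abs_le.1 h2).2
  linarith

theorem num1 {k κ C D T m F P δ U K' vz uz om S ν : ℝ}
    (hk : 1 ≤ k) (hκ : 0 < κ) (hκ1 : κ ≤ 1) (hC : 1 ≤ C) (hc : C / k ≤ κ) (hD0 : 0 ≤ D)
    (hD2 : D ≤ 2) (hT0 : 0 < T) (hT2 : 1 / (8 * κ * k) ≤ T)
    (hF : 1 ≤ F) (hP : 0 < P) (hδ : δ = 4 * D * F * P / k) (hU : U = F * P * T * (1 + K' * κ))
    (hm : 0 ≤ m) (hK' : 0 ≤ K')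
    (h1 : 1 - (1 + C / k - T) ^ 2 - C / k ≤ om) (h2 : |uz * vz - δ / 4 * om| ≤ C * δ / k ^ 2)
    (h3 : |vz - S / ν| ≤ C * δ / k) (hS : S ≤ U * m) (hν : 1 / ν ≤ 2 * (1 + C / k)) (hν0 : 0 < ν)
    (huz : 0 < uz) (huz' : uz ≤ 1 + C / k - T) :
    D * (2 - T) ≤ 2 * (1 + κ) ^ 2 * (m * k) * (1 + K' * κ) + 256 * κ * C := by
  have hk0 : 0 < k := by linarith
  have hc0 : 0 < C / k := by positivity
  have hδ0 : 0 ≤ δ := by rw [hδ]; positivity
  have hU0 : 0 ≤ U := by rw [hU]; positivity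
  set c := C / k with hcdef
  have e1 : C * δ / k = c * δ := by rw [hcdef]; ring
  have e2 : C * δ / k ^ 2 = c * δ * (1 / k) := by rw [hcdef]; field_simp
  rw [e1] at h3
  rw [e2] at h2
  have hk1 : 1 / k ≤ 1 := by rw [div_le_one hk0]; exact hk
  have hk2 : 0 < 1 / k := by positivity
  have hcd : 0 ≤ c * δ := mul_nonneg hc0.le hδ0
  -- bound for vz
  have hSν : S / ν ≤ U * m * (2 * (1 + c)) := by
    calc S / ν = S * (1 / ν) := by ring
      _ ≤ (U * m) * (1 / ν) := mul_le_mul_of_nonneg_right hS (by positivity)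
      _ ≤ (U * m) * (2 * (1 + c)) := mul_le_mul_of_nonneg_left hν (mul_nonneg hU0 hm)
  have hv : vz ≤ U * m * (2 * (1 + c)) + c * δ := by
    have := (abs_le.1 h3).2
    linarith
  have hX0 : 0 ≤ U * m * (2 * (1 + c)) + c * δ := by positivity
  have huv : uz * vz ≤ (1 + c) * (U * m * (2 * (1 + c)) + c * δ) := by
    calc uz * vz ≤ uz * (U * m * (2 * (1 + c)) + c * δ) := mul_le_mul_of_nonneg_left hv huz.le
      _ ≤ (1 + c) * (U * m * (2 * (1 + c)) + c * δ) :=
        mul_le_mul_of_nonneg_right (by linarith) hX0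
  have hom : T * (2 - T) - 4 * c ≤ om := by
    have : T * (2 - T) - 4 * c ≤ 1 - (1 + c - T) ^ 2 - c := by nlinarith
    linarith
  have hkk : δ / 4 * om ≤ uz * vz + c * δ := by
    have := (abs_le.1 h2).1
    have h5 : c * δ * (1 / k) ≤ c * δ := by nlinarith
    linarith
  have h6 : δ / 4 * (T * (2 - T) - 4 * c) ≤ δ / 4 * om :=
    mul_le_mul_of_nonneg_left hom (by positivity)
  have h7 : δ / 4 * (T * (2 - T)) ≤ 2 * (1 + κ) ^ 2 * (U * m) + 4 * (c * δ) := by
    have h8 : (1 + c) * (U * m * (2 * (1 + c)) + c * δ) ≤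
        2 * (1 + κ) ^ 2 * (U * m) + 2 * (c * δ) := by
      have h9 : (1 + c) * (1 + c) ≤ (1 + κ) ^ 2 := by nlinarith
      have h10 : 0 ≤ U * m := mul_nonneg hU0 hm
      nlinarith
    nlinarith
  -- multiply by k / (F P T)
  have hW : 0 < F * P * T := by positivity
  have h11 : δ / 4 * (T * (2 - T)) = (F * P * T / k) * (D * (2 - T)) := by
    rw [hδ]; ring
  have h12 : 2 * (1 + κ) ^ 2 * (U * m) =
      (F * P * T / k) * (2 * (1 + κ) ^ 2 * (m * k) * (1 + K' * κ)) := by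
    rw [hU]; field_simp
  have h13 : 4 * (c * δ) ≤ (F * P * T / k) * (256 * κ * C) := by
    have h14 : 4 * (c * δ) = (F * P / k) * (16 * c * D) := by rw [hδ]; ring
    have h15 : (F * P * T / k) * (256 * κ * C) = (F * P / k) * (256 * κ * C * T) := by ring
    rw [h14, h15]
    refine mul_le_mul_of_nonneg_left ?_ (by positivity)
    have h16 : 16 * c * D ≤ 32 * c := by nlinarith
    have h17 : 1 ≤ T * (8 * κ * k) := by
      rw [div_le_iff₀ (by positivity)] at hT2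
      exact hT2
    have h18 : C = c * k := by rw [hcdef]; field_simp
    rw [h18]
    have h19 : c * 1 ≤ c * (T * (8 * κ * k)) := mul_le_mul_of_nonneg_left h17 hc0.le
    nlinarith
  have h20 : (F * P * T / k) * (D * (2 - T)) ≤
      (F * P * T / k) * (2 * (1 + κ) ^ 2 * (m * k) * (1 + K' * κ) + 256 * κ * C) := by
    rw [← h11, mul_add, ← h12]
    linarith
  exact le_of_mul_le_mul_left h20 (by positivity)

theorem num2 {k κ C D T m K' K1 : ℝ} (hk : 1 ≤ k) (hκ : 0 < κ) (hκ1 : κ ≤ 1) (hC : 1 ≤ C)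
    (hK1 : 0 ≤ K1) (hK' : 0 ≤ K') (hD : 1 - K1 * κ ≤ D) (hK1κ : K1 * κ ≤ 1) (hT : T ≤ 2 * κ)
    (hm : 0 ≤ m)
    (h : D * (2 - T) ≤ 2 * (1 + κ) ^ 2 * (m * k) * (1 + K' * κ) + 256 * κ * C) :
    (1 - (4 + 4 * K' + 128 * C + K1) * κ) / k ≤ m := by
  have hk0 : 0 < k := by linarith
  rw [div_le_iff₀ hk0]
  by_contra hcon
  rw [not_le] at hcon
  set K := 4 + 4 * K' + 128 * C + K1 with hK
  have hmk : 0 ≤ m * k := by positivity
  have h1 : (1 - K1 * κ) * (2 - 2 * κ) ≤ D * (2 - T) := by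
    have a1 : 0 ≤ 1 - K1 * κ := by linarith
    have a2 : 0 ≤ 2 - 2 * κ := by linarith
    exact mul_le_mul hD (by linarith) a2 (by linarith)
  have h2 : (1 + κ) ^ 2 * (1 + K' * κ) ≤ 1 + (3 + 4 * K') * κ := by
    have a1 : (1 + κ) ^ 2 ≤ 1 + 3 * κ := by nlinarith
    have a2 : 0 ≤ K' * κ := by positivity
    have a3 : K' * κ * κ ≤ K' * κ := by nlinarith
    calc (1 + κ) ^ 2 * (1 + K' * κ) ≤ (1 + 3 * κ) * (1 + K' * κ) :=
          mul_le_mul_of_nonneg_right a1 (by linarith)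
      _ = 1 + 3 * κ + K' * κ + 3 * (K' * κ * κ) := by ring
      _ ≤ 1 + (3 + 4 * K') * κ := by nlinarith
  have h3 : 2 * (1 + κ) ^ 2 * (m * k) * (1 + K' * κ) ≤
      2 * (1 + (3 + 4 * K') * κ) * (1 - K * κ) := by
    have a1 : 0 ≤ 1 + (3 + 4 * K') * κ := by positivity
    calc 2 * (1 + κ) ^ 2 * (m * k) * (1 + K' * κ)
        = 2 * ((1 + κ) ^ 2 * (1 + K' * κ)) * (m * k) := by ring
      _ ≤ 2 * (1 + (3 + 4 * K') * κ) * (m * k) := by
          exact mul_le_mul_of_nonneg_right (by linarith) hmk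
      _ ≤ 2 * (1 + (3 + 4 * K') * κ) * (1 - K * κ) := by
          exact mul_le_mul_of_nonneg_left hcon.le (by positivity)
  have h4 : 2 * (1 + (3 + 4 * K') * κ) * (1 - K * κ) ≤ 2 + 2 * ((3 + 4 * K') - K) * κ := by
    have : 0 ≤ (3 + 4 * K') * κ * (K * κ) := by positivity
    nlinarith
  have h5 : 2 * ((3 + 4 * K') - K) * κ = -2 * κ - 256 * κ * C - 2 * (K1 * κ) := by
    rw [hK]; ring
  have h6 : 0 < K1 * κ * κ ∨ K1 * κ * κ = 0 := by
    rcases (mul_nonneg (mul_nonneg hK1 hκ.le) hκ.le).lt_or_eq with h | h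
    · exact Or.inl h
    · exact Or.inr h.symm
  have h7 : 2 * (1 + κ) ^ 2 * (m * k) * (1 + K' * κ) < 2 * (1 + (3 + 4 * K') * κ) * (1 - K * κ) := by
    calc 2 * (1 + κ) ^ 2 * (m * k) * (1 + K' * κ)
        = 2 * ((1 + κ) ^ 2 * (1 + K' * κ)) * (m * k) := by ring
      _ ≤ 2 * (1 + (3 + 4 * K') * κ) * (m * k) := by
          exact mul_le_mul_of_nonneg_right (by linarith) hmk
      _ < 2 * (1 + (3 + 4 * K') * κ) * (1 - K * κ) := by
          exact mul_lt_mul_of_pos_left hcon (by positivity)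
  nlinarith [mul_nonneg (mul_nonneg hK1 hκ.le) hκ.le]

theorem num3 {k κ C T F P K1 M c a1 a2 q1 q2 : ℝ} {t : ℕ} (hk : 1 ≤ k) (hκ : 0 < κ) (hκ1 : κ ≤ 1)
    (hC : 1 ≤ C) (hcdef : c = C / k) (hc : c ≤ κ) (hK1 : 0 ≤ K1) (hM : 0 ≤ M) (hT0 : 0 < T)
    (hT2 : 1 / (8 * κ * k) ≤ T) (hF : 1 ≤ F) (hP : 0 < P)
    (hq1 : q1 ≤ 1 + 4 * t * K1 * κ) (hq2 : q2 ≤ 3)
    (h1 : a1 ≤ F * T * (P * q1)) (h2 : a2 ≤ 4 * F * κ * (M * q2 * (P * (1 / k)))) :
    (1 + c) * (a1 + a2) + C * (P * (1 / k) ^ 2) ≤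
      F * P * T * (1 + (1 + 2 * (4 * t * K1 + 96 * M) + 8 * C) * κ) := by
  have hk0 : 0 < k := by linarith
  have hc0 : 0 < c := by rw [hcdef]; positivity
  have hk1 : 1 / k ≤ 1 := by rw [div_le_one hk0]; exact hk
  have hk2 : 0 < 1 / k := by positivity
  have hkT : 1 / k ≤ 8 * κ * T := by
    rw [div_le_iff₀ (by positivity)] at hT2 ⊢
    linarith
  have hW : 0 < F * P * T := by positivity
  have ht : 0 ≤ 4 * (t : ℝ) * K1 * κ := by positivity
  have b1 : a1 ≤ F * P * T * (1 + 4 * t * K1 * κ) := by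
    calc a1 ≤ F * T * (P * q1) := h1
      _ = F * P * T * q1 := by ring
      _ ≤ F * P * T * (1 + 4 * t * K1 * κ) := mul_le_mul_of_nonneg_left hq1 hW.le
  have b2 : a2 ≤ F * P * T * (96 * M * κ) := by
    calc a2 ≤ 4 * F * κ * (M * q2 * (P * (1 / k))) := h2
      _ ≤ 4 * F * κ * (M * 3 * (P * (1 / k))) := by
          refine mul_le_mul_of_nonneg_left ?_ (by positivity)
          refine mul_le_mul_of_nonneg_right ?_ (by positivity)
          exact mul_le_mul_of_nonneg_left hq2 hM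
      _ ≤ 4 * F * κ * (M * 3 * (P * (8 * κ * T))) := by
          refine mul_le_mul_of_nonneg_left ?_ (by positivity)
          refine mul_le_mul_of_nonneg_left ?_ (by positivity)
          exact mul_le_mul_of_nonneg_left hkT hP.le
      _ = F * P * T * (96 * M * κ) * κ := by ring
      _ ≤ F * P * T * (96 * M * κ) := by
          have : 0 ≤ F * P * T * (96 * M * κ) := by positivity
          nlinarith
  have b3 : C * (P * (1 / k) ^ 2) ≤ F * P * T * (8 * C * κ) := by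
    calc C * (P * (1 / k) ^ 2) = C * P * ((1 / k) * (1 / k)) := by ring
      _ ≤ C * P * (8 * κ * T * 1) := by
          refine mul_le_mul_of_nonneg_left ?_ (by positivity)
          exact mul_le_mul hkT hk1 hk2.le (by positivity)
      _ = 1 * (P * T * (8 * C * κ)) := by ring
      _ ≤ F * (P * T * (8 * C * κ)) := mul_le_mul_of_nonneg_right hF (by positivity)
      _ = F * P * T * (8 * C * κ) := by ring
  have b4 : (1 + c) * (a1 + a2) ≤
      F * P * T * (1 + (1 + 2 * (4 * t * K1 + 96 * M)) * κ) := by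
    have x0 : 0 ≤ 4 * (t : ℝ) * K1 + 96 * M := by positivity
    calc (1 + c) * (a1 + a2)
        ≤ (1 + c) * (F * P * T * (1 + (4 * t * K1 + 96 * M) * κ)) := by
          refine mul_le_mul_of_nonneg_left ?_ (by linarith)
          have : F * P * T * (1 + (4 * t * K1 + 96 * M) * κ) =
            F * P * T * (1 + 4 * t * K1 * κ) + F * P * T * (96 * M * κ) := by ring
          rw [this]
          exact add_le_add b1 b2
      _ ≤ (1 + κ) * (F * P * T * (1 + (4 * t * K1 + 96 * M) * κ)) := by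
          refine mul_le_mul_of_nonneg_right (by linarith) (by positivity)
      _ = F * P * T * ((1 + κ) * (1 + (4 * t * K1 + 96 * M) * κ)) := by ring
      _ ≤ F * P * T * (1 + (1 + 2 * (4 * t * K1 + 96 * M)) * κ) := by
          refine mul_le_mul_of_nonneg_left ?_ hW.le
          have : (4 * (t : ℝ) * K1 + 96 * M) * κ * κ ≤ (4 * t * K1 + 96 * M) * κ := by
            have : 0 ≤ (4 * (t : ℝ) * K1 + 96 * M) * κ := by positivity
            nlinarith
          nlinarith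
  calc (1 + c) * (a1 + a2) + C * (P * (1 / k) ^ 2)
      ≤ F * P * T * (1 + (1 + 2 * (4 * t * K1 + 96 * M)) * κ) + F * P * T * (8 * C * κ) :=
        add_le_add b4 b3
    _ = F * P * T * (1 + (1 + 2 * (4 * t * K1 + 96 * M) + 8 * C) * κ) := by ring

end TN_

open TN_ in
theorem tn_proof (h1 : Stmt_GRA) : Stmt_TN := by
  intro t C K0
  set K1 : ℝ := |K0| with hK1def
  have hK1 : 0 ≤ K1 := abs_nonneg _
  set M : ℝ := (2 * (t : ℝ) + 1) ^ (2 * t + 1) with hMdef
  have hM : 0 ≤ M := by positivity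
  set K' : ℝ := 1 + 2 * (4 * t * K1 + 96 * M) + 8 * |C| with hK'def
  have hK' : 0 ≤ K' := by positivity
  refine ⟨4 + 4 * K' + 128 * |C| + K1, by nlinarith [abs_nonneg C], 1 / ((2 * t + 2) * (K1 + 1)),
    by positivity, ?_⟩
  intro κ hκ hκs
  obtain ⟨k0, hk0⟩ := exists_nat_ge (|C| / κ + 1)
  refine ⟨k0, ?_⟩
  intro k hkk0 V _ G ν δ ξ cc u v hc he hR hs z hz x hx hzx
  have g := h1 t k κ C V G _ _ _ _ _ _ ξ δ cc hκ hc
  set A := cA κ u with hA
  set B := cA κ v with hB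
  set R := cR κ u v with hRdef
  set eA := ee G ν A u with heA
  set eB := ee G ν B v with heB
  -- numbers
  have hC1 : 1 ≤ C := hc.C1
  have hCabs : |C| = C := abs_of_pos (by linarith)
  have hkR : (k0 : ℝ) ≤ k := by exact_mod_cast hkk0
  have hk1 : (1 : ℝ) ≤ k := by
    have : 0 ≤ |C| / κ := by positivity
    linarith
  have hk0' : (0 : ℝ) < k := by linarith
  have hcκ : C / k ≤ κ := by
    rw [div_le_iff₀ hk0']
    have h2 : |C| / κ ≤ k := by linarith
    rw [div_le_iff₀ hκ, hCabs] at h2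
    linarith
  have hs1 : κ * ((2 * t + 2) * (K1 + 1)) ≤ 1 := by
    rw [le_div_iff₀ (by positivity)] at hκs
    exact hκs
  have ht0 : (0 : ℝ) ≤ t := Nat.cast_nonneg _
  have hκ1 : κ ≤ 1 := by
    have : 1 ≤ (2 * (t : ℝ) + 2) * (K1 + 1) := by nlinarith
    nlinarith
  have hκK : (2 * t + 2) * (K1 * κ) ≤ 1 := by
    have : (2 * (t : ℝ) + 2) * (K1 * κ) ≤ κ * ((2 * t + 2) * (K1 + 1)) := by nlinarith
    linarith
  have hK1κ : K1 * κ ≤ 1 := by
    have : 0 ≤ K1 * κ := by positivity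
    nlinarith
  have hK1κ0 : 0 ≤ K1 * κ := by positivity
  -- neighbours of `z` in `R`
  have hnb : ∀ x' ∈ R, G.Adj z x' → x' ∈ Vl t G R A B (2 * t + 1) := by
    intro x' hx' hzx'
    obtain ⟨l, hl1, hl2, hl3⟩ := hs.part x' hx'
    have hA1 : Rch G R A 1 x' := ⟨hx', z, hz, hzx'.symm⟩
    rcases Nat.even_or_odd l with hev | hod
    · exfalso
      have ho : Odd (1 + (2 * t + 2 - l)) := by
        rcases hev with ⟨r, hr⟩
        exact ⟨t + 1 - r, by omega⟩
      have := ogA hc.og hc.cor hA1 hl3.2 ho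
      omega
    · have he' : Even (1 + l) := by
        rcases hod with ⟨r, hr⟩
        exact ⟨r + 1, by omega⟩
      have := og1 hc.og hc.cor hA1 hl3.1 he'
      have hl : l = 2 * t + 1 := by omega
      rw [← hl]
      exact hl3
  have heAz : ∀ x' ∈ R, G.Adj z x' → 0 < eA x' := fun x' hx' hzx' =>
    (hc.eAp x' hx').2 ⟨z, hz, hzx'.symm⟩
  -- the maximal amplitude `T`
  have hset : {y : Fin (2 * t + 1) → V | TyI t G R eA eB y ∧
      G.Adj z (y (Fin.last (2 * t)))}.Nonempty := by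
    obtain ⟨y, hy1, hy2, hy3⟩ := Rch.path (hnb x hx hzx).1
    refine ⟨y, ⟨hy1, (hc.eBp _ (hy1.1 0)).2 hy2, ?_⟩, ?_⟩
    · rw [hy3]
      exact heAz x hx hzx
    · rw [hy3]
      exact hzx
  obtain ⟨ys, ⟨hysI, hysz⟩, hmax⟩ := Set.exists_max_image _ (fun y => eB (y 0))
    (Set.toFinite _) hset
  set T := eB (ys 0) with hTdef
  have hT0 : 0 < T := hysI.2.1
  have hT2 : 1 / (8 * κ * k) ≤ T := by
    apply hs.lB
    have := g.i3 ys hysI 0
    simpa using this
  have hTκ : T ≤ 2 * κ := (g.i1 ys hysI).2.1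
  -- omA
  have hXn : ∀ b ∈ G.neighborSet (ys 0) ∩ B, ¬ G.Adj z b := by
    intro b hb hzb
    have hw := hysI.1.walk 0 (2 * t) (by omega)
    have e0 : (⟨0 + 2 * t, by omega⟩ : Fin (2 * t + 1)) = Fin.last (2 * t) := by
      apply Fin.ext
      simp
    rw [e0] at hw
    obtain ⟨p, hp⟩ := hw
    exact wk_no_edge hc.og p (by rw [hp]; exact ⟨t, by omega⟩) (by rw [hp]) hb.1 hysz.symm hzb.symm
  obtain ⟨hom, huz'⟩ := he.omA z hz (G.neighborSet (ys 0) ∩ B) Set.inter_subset_right hXn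
  have hT' : avS (G.neighborSet (ys 0) ∩ B) v / ν = T := rfl
  rw [hT'] at hom huz'
  have hν0 : 0 < ν := by linarith [he.nu]
  -- masses
  have hmV : ∀ l, 1 ≤ l → l ≤ 2 * t + 1 → ms (Vl t G R A B l) ≤ (1 + K1 * κ) / k := by
    intro l hl1 hl2
    refine (hs.mV2 l hl1 hl2).trans ?_
    refine div_le_div_of_nonneg_right ?_ hk0'.le
    have : K0 * κ ≤ K1 * κ := mul_le_mul_of_nonneg_right (le_abs_self K0) hκ.le
    linarith
  have hmR : ms R ≤ (2 * t + 1) * ((1 + K1 * κ) / k) := by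
    refine (ms_le_sum hs.part).trans ?_
    calc ∑ l ∈ Finset.Icc 1 (2 * t + 1), ms (Vl t G R A B l)
        ≤ ∑ l ∈ Finset.Icc 1 (2 * t + 1), (1 + K1 * κ) / k := by
          refine Finset.sum_le_sum fun l hl => ?_
          rw [Finset.mem_Icc] at hl
          exact hmV l hl.1 hl.2
      _ = (2 * t + 1) * ((1 + K1 * κ) / k) := by
          rw [Finset.sum_const, Nat.card_Icc, nsmul_eq_mul]
          push_cast
          ring
  have heA2 : ∀ w ∈ R, eA w ≤ 2 * κ := by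
    intro w hw
    have a1 := (abs_le.1 (he.vR w hw)).1
    have a2 := (hR w hw).2
    have a3 : ee G ν (cA κ u) u w = eA w := rfl
    rw [a3] at a1
    linarith
  -- bound for `u`
  have hub : ∀ x' ∈ G.neighborSet z ∩ R, u x' ≤ 4 ^ t * (1 / (k : ℝ)) ^ (2 * t) * T *
      (1 + K' * κ) := by
    rintro x' ⟨hzx', hx'⟩
    have hzx'' : G.Adj z x' := hzx'
    have hpos : 0 < eA x' := heAz x' hx' hzx''
    have b0 := he.exu x' hx' hpos
    have b1 : aP G R eB (2 * t) x' ≤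
        2 ^ (2 * t) * (T * ∏ i : Fin (2 * t), ms (Vl t G R A B ((i : ℕ) + 1))) := by
      refine aP_le (fun i : Fin (2 * t) => Vl t G R A B ((i : ℕ) + 1)) hT0.le ?_
      intro y hy hyl
      by_cases hy0 : eB (y 0) ≤ 0
      · exact Or.inl hy0
      · right
        rw [not_le] at hy0
        have hyI : TyI t G R eA eB y := ⟨hy, hy0, by rw [hyl]; exact hpos⟩
        refine ⟨hmax y ⟨hyI, by rw [hyl]; exact hzx''⟩, ?_⟩
        intro i
        exact g.i3 y hyI i.castSucc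
    have b2 : aP G R eA (2 * t + 1) x' ≤
        2 ^ (2 * t + 1) * (2 * κ * ∏ _i : Fin (2 * t + 1), ms R) := by
      refine aP_le (fun _ : Fin (2 * t + 1) => R) (by positivity) ?_
      intro y hy _
      right
      exact ⟨heA2 _ (hy.1 0), fun i => hy.1 _⟩
    have b3 : (∏ i : Fin (2 * t), ms (Vl t G R A B ((i : ℕ) + 1))) ≤
        ((1 + K1 * κ) / k) ^ (2 * t) := by
      have : ((1 + K1 * κ) / (k : ℝ)) ^ (2 * t) = ∏ _i : Fin (2 * t), (1 + K1 * κ) / (k : ℝ) := by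
        rw [Finset.prod_const, Finset.card_univ, Fintype.card_fin]
      rw [this]
      refine Finset.prod_le_prod (fun i _ => ms_nonneg _) fun i _ => ?_
      exact hmV _ (by omega) (by have := i.2; omega)
    have b4 : (∏ _i : Fin (2 * t + 1), ms R) ≤ ((2 * t + 1) * ((1 + K1 * κ) / k)) ^ (2 * t + 1) := by
      rw [Finset.prod_const, Finset.card_univ, Fintype.card_fin]
      exact pow_le_pow_left₀ (ms_nonneg _) hmR _
    have b5 : aP G R eB (2 * t) x' ≤
        4 ^ t * T * ((1 / (k : ℝ)) ^ (2 * t) * (1 + K1 * κ) ^ (2 * t)) := by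
      refine b1.trans ?_
      have : (4 : ℝ) ^ t * T * ((1 / (k : ℝ)) ^ (2 * t) * (1 + K1 * κ) ^ (2 * t)) =
          2 ^ (2 * t) * (T * ((1 + K1 * κ) / k) ^ (2 * t)) := by
        have f1 : (2 : ℝ) ^ (2 * t) = 4 ^ t := by
          rw [pow_mul]
          norm_num
        have f2 : (1 + K1 * κ) / (k : ℝ) = (1 + K1 * κ) * (1 / k) := by ring
        rw [f1, f2, mul_pow]
        ring
      rw [this]
      refine mul_le_mul_of_nonneg_left ?_ (by positivity)
      exact mul_le_mul_of_nonneg_left b3 hT0.le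
    have b6 : aP G R eA (2 * t + 1) x' ≤
        4 * 4 ^ t * κ * (M * (1 + K1 * κ) ^ (2 * t + 1) * ((1 / (k : ℝ)) ^ (2 * t) * (1 / k))) := by
      refine b2.trans ?_
      have : 4 * (4 : ℝ) ^ t * κ * (M * (1 + K1 * κ) ^ (2 * t + 1) *
          ((1 / (k : ℝ)) ^ (2 * t) * (1 / k))) =
          2 ^ (2 * t + 1) * (2 * κ * ((2 * t + 1) * ((1 + K1 * κ) / k)) ^ (2 * t + 1)) := by
        have f1 : (2 : ℝ) ^ (2 * t + 1) = 4 ^ t * 2 := by
          rw [pow_succ, pow_mul]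
          norm_num
        have f2 : (1 + K1 * κ) / (k : ℝ) = (1 + K1 * κ) * (1 / k) := by ring
        rw [f1, f2, mul_pow, mul_pow, ← hMdef, pow_succ (1 / (k : ℝ)) (2 * t)]
        ring
      rw [this]
      refine mul_le_mul_of_nonneg_left ?_ (by positivity)
      exact mul_le_mul_of_nonneg_left b4 (by positivity)
    have q1 : (1 + K1 * κ) ^ (2 * t) ≤ 1 + 4 * t * K1 * κ := by
      have := pow_small (a := K1 * κ) (2 * t) hK1κ0 (by push_cast; nlinarith)
      push_cast at this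
      linarith
    have q2 : (1 + K1 * κ) ^ (2 * t + 1) ≤ 3 := by
      have := pow_small (a := K1 * κ) (2 * t + 1) hK1κ0 (by push_cast; nlinarith)
      push_cast at this
      nlinarith
    have b7 := num3 (t := t) hk1 hκ hκ1 hC1 rfl hcκ hK1 hM hT0 hT2
      (one_le_pow₀ (by norm_num : (1 : ℝ) ≤ 4)) (by positivity : (0 : ℝ) < (1 / (k : ℝ)) ^ (2 * t))
      q1 q2 b5 b6
    have e5 : (1 / (k : ℝ)) ^ (2 * t + 2) = (1 / (k : ℝ)) ^ (2 * t) * (1 / k) ^ 2 := by
      rw [← pow_add]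
    rw [e5] at b0
    rw [hK'def, hCabs]
    exact b0.trans b7
  -- mass of the neighbourhood
  set m := ms (G.neighborSet z ∩ Vl t G R A B (2 * t + 1)) with hmdef
  have hm0 : 0 ≤ m := ms_nonneg _
  have hmm : ms (G.neighborSet z ∩ R) ≤ m := by
    refine ms_mono ?_
    rintro w ⟨hw1, hw2⟩
    exact ⟨hw1, hnb w hw2 hw1⟩
  have hU0 : 0 ≤ 4 ^ t * (1 / (k : ℝ)) ^ (2 * t) * T * (1 + K' * κ) := by positivity
  have hS : avS (G.neighborSet z ∩ R) u ≤
      (4 ^ t * (1 / (k : ℝ)) ^ (2 * t) * T * (1 + K' * κ)) * m := by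
    refine (avS_le_mul_ms hub).trans ?_
    exact mul_le_mul_of_nonneg_left hmm hU0
  -- δ
  have hD1 : 1 - K1 * κ ≤ DD t k δ := by
    have : K0 * κ ≤ K1 * κ := mul_le_mul_of_nonneg_right (le_abs_self K0) hκ.le
    linarith [hs.D1]
  have hD2 : DD t k δ ≤ 2 := by
    have : K0 * κ ≤ K1 * κ := mul_le_mul_of_nonneg_right (le_abs_self K0) hκ.le
    linarith [hs.D2]
  have hδ : δ = 4 * DD t k δ * 4 ^ t * (1 / (k : ℝ)) ^ (2 * t) / k := by
    unfold DD
    rw [pow_succ (4 : ℝ), pow_succ (k : ℝ) (2 * t), one_div, inv_pow]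
    field_simp
  have huz0 : 0 < u z := by
    have hz' : 1 - κ ≤ u z := hz
    have hu1 : u z ≤ 1 + C / k - T := huz'
    by_contra hcon
    rw [not_lt] at hcon
    have hκ1' : κ = 1 := by linarith
    have h2t : κ * 2 ≤ κ * ((2 * t + 2) * (K1 + 1)) := by
      refine mul_le_mul_of_nonneg_left ?_ hκ.le
      nlinarith
    linarith
  have hn1 := num1 hk1 hκ hκ1 hC1 hcκ (by linarith) hD2 hT0 hT2
    (one_le_pow₀ (by norm_num : (1 : ℝ) ≤ 4)) (by positivity : (0 : ℝ) < (1 / (k : ℝ)) ^ (2 * t))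
    hδ rfl hm0 hK' hom (he.kkt z) (he.vA z hz) hS he.nui hν0 huz0 huz'
  have hn2 := num2 hk1 hκ hκ1 hC1 hK1 hK' hD1 hK1κ hTκ hm0 hn1
  rw [hCabs]
  exact hn2

end Pool.Agent.OCX
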