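import Pool.Agent.OCX.Stmts
import Pool.Agent.OCX.Lib

/-!
# TO: the homomorphism to the cycle
-/

open scoped BigOperators

namespace Pool.Agent.OCX

namespace TO_

theorem adj_succ {t : ℕ} {a b : Fin (2 * t + 5)} (h : (a : ℕ) + 1 = b) :
    (SimpleGraph.cycleGraph (2 * t + 5)).Adj a b := by
  rw [SimpleGraph.cycleGraph_adj']
  right
  rw [Fin.sub_val_of_le (by rw [Fin.le_def]; omega)]
  omega

theorem adj_zero_last {t : ℕ} {a b : Fin (2 * t + 5)} (ha : (a : ℕ) = 0)
    (hb : (b : ℕ) = 2 * t + 4) : (SimpleGraph.cycleGraph (2 * t + 5)).Adj a b := by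
  rw [SimpleGraph.cycleGraph_adj']
  left
  rw [Fin.sub_def]
  simp only
  rw [ha, hb]
  have e : 2 * t + 5 - (2 * t + 4) + 0 = 1 := by omega
  rw [e]
  exact Nat.mod_eq_of_lt (by omega)

variable {V : Type} [Fintype V]

/-- the masses on one side -/
theorem half {k : ℕ} {κ C K0 K1 ν : ℝ} {G : SimpleGraph V} {A R W : Set V} {u : V → ℝ}
    (hk : 1 ≤ k) (h0 : 0 < κ) (h1 : κ ≤ 1 / 100) (hC : C / k ≤ κ / 100)
    (hK0 : K0 * κ ≤ 1 / 10) (hK1 : K1 * κ ≤ 1 / 10)
    (hν : 12 / 25 ≤ ν) (hν2 : ν ≤ 1 / 2)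
    (hA : |ms A - 1 / 2| ≤ C / k)
    (hW1 : (1 - K0 * κ) / k ≤ ms W) (hW2 : ms W ≤ (1 + K0 * κ) / k) (hWR : W ⊆ R)
    (he1 : ∀ x ∈ W, 1 / (8 * κ * k) ≤ ee G ν A u x)
    (he2 : ∀ x ∈ R, ee G ν A u x ≤ κ + C / k)
    (hu1 : ∀ x ∈ A, 1 - κ ≤ u x) (hu2 : ∀ x ∈ A, u x ≤ 1 + C / k)
    (hz : ∀ z ∈ A, ∀ x ∈ R, G.Adj z x → (1 - K1 * κ) / k ≤ ms (G.neighborSet z ∩ W)) :
    1 / (8 * k) ≤ ms {z | z ∈ A ∧ ∃ x ∈ R, G.Adj z x} ∧
      1 / (8 * k) ≤ ms {z | z ∈ A ∧ ¬ ∃ x ∈ R, G.Adj z x} := by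
  have hk' : (1 : ℝ) ≤ k := by exact_mod_cast hk
  have hk0 : (0 : ℝ) < k := by linarith
  have hν0 : 0 < ν := by linarith
  set Y : Set V := {z | z ∈ A ∧ ∃ x ∈ R, G.Adj z x} with hY
  set Z : Set V := {z | z ∈ A ∧ ¬ ∃ x ∈ R, G.Adj z x} with hZ
  have hWpos : 0 < ms W := by
    refine lt_of_lt_of_le ?_ hW1
    apply div_pos _ hk0
    linarith
  obtain ⟨x0, hx0⟩ := exists_mem_of_ms_pos hWpos
  have i8 : (1 : ℝ) / (8 * k) ≤ 1 / 8 := by
    apply one_div_le_one_div_of_le <;> linarith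
  constructor
  · -- the vertices with a neighbour in `R`
    have s1 : G.neighborSet x0 ∩ A ⊆ Y := by
      intro z hz'
      exact ⟨hz'.2, x0, hWR hx0, hz'.1.symm⟩
    have s2 := ms_mono s1
    have s3 : avS (G.neighborSet x0 ∩ A) u ≤ (1 + C / k) * ms (G.neighborSet x0 ∩ A) :=
      avS_le_mul_ms fun x hx => hu2 x hx.2
    have s4 := he1 x0 hx0
    unfold ee at s4
    rw [le_div_iff₀ hν0] at s4
    have m0 := ms_nonneg (G.neighborSet x0 ∩ A)
    have s5 : (1 + C / k) * ms (G.neighborSet x0 ∩ A) ≤ 11 / 10 * ms (G.neighborSet x0 ∩ A) :=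
      mul_le_mul_of_nonneg_right (by linarith) m0
    have s6 : 1 / (8 * κ * k) * (12 / 25) ≤ 1 / (8 * κ * k) * ν := by
      apply mul_le_mul_of_nonneg_left hν
      positivity
    have s7 : 11 / 10 * (1 / (8 * (k : ℝ))) ≤ 1 / (8 * κ * k) * (12 / 25) := by
      have e : 1 / (8 * κ * k) * (12 / 25) = 1 / (8 * (k : ℝ)) * (12 / 25 / κ) := by
        field_simp
      rw [e, mul_comm]
      apply mul_le_mul_of_nonneg_left _ (by positivity)
      rw [le_div_iff₀ h0]
      linarith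
    linarith
  · have hAYZ : ms A = ms Y + ms Z := by
      have e : A = Y ∪ Z := by
        ext z
        constructor
        · intro hz'
          by_cases h : ∃ x ∈ R, G.Adj z x
          · exact Or.inl ⟨hz', h⟩
          · exact Or.inr ⟨hz', h⟩
        · rintro (h | h)
          · exact h.1
          · exact h.1
      have d : Disjoint Y Z := Set.disjoint_left.2 fun z h h' => h'.2 h.2
      calc ms A = ms (Y ∪ Z) := by rw [← e]
        _ = ms Y + ms Z := avS_union d _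
    have t1 : (1 - K1 * κ) / k * ms Y ≤ κ * ms W := by
      have a1 : (1 - K1 * κ) / k * ms Y ≤ avS Y (fun z => 1 * avS (G.neighborSet z ∩ W)
          (fun _ => 1)) := by
        refine mul_ms_le_avS fun z hz' => ?_
        obtain ⟨hzA, x, hx, hzx⟩ := hz'
        rw [one_mul]
        exact hz z hzA x hx hzx
      rw [avS_symm G Y W (fun _ => 1) (fun _ => 1)] at a1
      refine a1.trans (avS_le_mul_ms fun x hx => ?_)
      rw [one_mul]
      have b1 : avS (G.neighborSet x ∩ Y) (fun _ => (1 : ℝ)) ≤ ms (G.neighborSet x ∩ A) :=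
        ms_mono (Set.inter_subset_inter_right _ fun z hz' => hz'.1)
      have b2 : (1 - κ) * ms (G.neighborSet x ∩ A) ≤ avS (G.neighborSet x ∩ A) u :=
        mul_ms_le_avS fun z hz' => hu1 z hz'.2
      have b3 := he2 x (hWR hx)
      unfold ee at b3
      rw [div_le_iff₀ hν0] at b3
      have b4 : (κ + C / k) * ν ≤ (κ + κ / 100) * (1 / 2) := by
        apply mul_le_mul _ hν2 hν0.le (by linarith)
        linarith
      have m0 := ms_nonneg (G.neighborSet x ∩ A)
      have b5 : 1 / 2 * ms (G.neighborSet x ∩ A) ≤ (1 - κ) * ms (G.neighborSet x ∩ A) := by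
        apply mul_le_mul_of_nonneg_right _ m0
        linarith
      have b6 : (1 - κ) * ms (G.neighborSet x ∩ A) ≤ (κ + κ / 100) * (1 / 2) := by linarith
      have b7 : 99 / 100 * ms (G.neighborSet x ∩ A) ≤ (1 - κ) * ms (G.neighborSet x ∩ A) := by
        apply mul_le_mul_of_nonneg_right _ m0
        linarith
      linarith
    have t2 : ms Y ≤ 3 * κ := by
      have c1 : κ * ms W ≤ κ * ((1 + K0 * κ) / k) := mul_le_mul_of_nonneg_left hW2 h0.le
      have c2 : (1 - K1 * κ) / k * ms Y ≤ κ * ((1 + K0 * κ) / k) := t1.trans c1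
      have c3 : (1 - K1 * κ) * ms Y ≤ κ * (1 + K0 * κ) := by
        have e1 : (1 - K1 * κ) / k * ms Y = ((1 - K1 * κ) * ms Y) / k := by ring
        have e2 : κ * ((1 + K0 * κ) / k) = (κ * (1 + K0 * κ)) / k := by ring
        rw [e1, e2] at c2
        exact (div_le_div_iff_of_pos_right hk0).1 c2
      have m0 := ms_nonneg Y
      have c4 : 9 / 10 * ms Y ≤ (1 - K1 * κ) * ms Y := by
        apply mul_le_mul_of_nonneg_right _ m0
        linarith
      have c5 : κ * (1 + K0 * κ) ≤ κ * (11 / 10) := by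
        apply mul_le_mul_of_nonneg_left _ h0.le
        linarith
      linarith
    have t3 := (abs_le.1 hA).1
    linarith

end TO_

open Classical in
theorem to_proof (h1 : Stmt_TO1) : Stmt_TO := by
  intro t C K0 K1
  obtain ⟨κ1, hκ1, H1⟩ := h1 t C K0 K1
  have hden : (0 : ℝ) < 100 * (1 + |K0| + |K1|) := by positivity
  refine ⟨min κ1 (1 / (100 * (1 + |K0| + |K1|))), lt_min hκ1 (by positivity), ?_⟩
  intro κ hκ hκs
  have hκa : κ ≤ κ1 := hκs.trans (min_le_left _ _)
  have hκb : κ * (100 * (1 + |K0| + |K1|)) ≤ 1 := by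
    have := hκs.trans (min_le_right _ _)
    rwa [le_div_iff₀ hden] at this
  obtain ⟨k1, Hk1⟩ := H1 κ hκ hκa
  obtain ⟨m, hm⟩ := exists_nat_ge (100 * |C| / κ)
  refine ⟨max k1 m, ?_⟩
  intro k hk V _ G ν δ ξ cc u v hCmb hExt hsm hStc hzA hzB
  have hE := Hk1 k ((le_max_left _ _).trans hk) V G ν δ ξ cc u v hCmb hExt hStc hzA hzB
  have hkm : m ≤ k := (le_max_right _ _).trans hk
  have hk1 := hCmb.k1
  have hk' : (1 : ℝ) ≤ k := by exact_mod_cast hk1
  have hk0 : (0 : ℝ) < k := by linarith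
  have b0 : 0 ≤ |K0| := abs_nonneg _
  have b1 : 0 ≤ |K1| := abs_nonneg _
  have hκK0 : K0 * κ ≤ 1 / 100 := by
    have : K0 * κ ≤ |K0| * κ := mul_le_mul_of_nonneg_right (le_abs_self _) hκ.le
    nlinarith [mul_nonneg b1 hκ.le]
  have hκK1 : K1 * κ ≤ 1 / 100 := by
    have : K1 * κ ≤ |K1| * κ := mul_le_mul_of_nonneg_right (le_abs_self _) hκ.le
    nlinarith [mul_nonneg b0 hκ.le]
  have hκ100 : κ ≤ 1 / 100 := by
    nlinarith [mul_nonneg b0 hκ.le, mul_nonneg b1 hκ.le]
  have hCk : C / k ≤ κ / 100 := by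
    have hmk : (m : ℝ) ≤ k := by exact_mod_cast hkm
    have : 100 * |C| / κ ≤ k := hm.trans hmk
    rw [div_le_iff₀ hκ] at this
    rw [div_le_iff₀ hk0]
    have := le_abs_self C
    linarith
  have og := hCmb.og
  have cor := hCmb.cor
  -- the masses
  have mA := TO_.half (K0 := K0) (K1 := K1)
    (W := Vl t G (cR κ u v) (cA κ u) (cA κ v) (2 * t + 1)) hk1 hκ hκ100 hCk
    (by linarith) (by linarith) hExt.nu hExt.nu2 hExt.mA (hStc.mV1 _ (by omega) le_rfl)
    (hStc.mV2 _ (by omega) le_rfl) (fun x hx => hx.1.mem) hStc.lA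
    (fun x hx => by
      have h2 := (hsm x hx).2
      have h3 := (abs_le.1 (hExt.vR x hx)).1
      linarith) (fun x hx => hx) hExt.uA hzA
  have mB := TO_.half (K0 := K0) (K1 := K1)
    (W := Vl t G (cR κ u v) (cA κ u) (cA κ v) 1) hk1 hκ hκ100 hCk
    (by linarith) (by linarith) hExt.nu hExt.nu2 hExt.mB (hStc.mV1 _ le_rfl (by omega))
    (hStc.mV2 _ le_rfl (by omega)) (fun x hx => hx.1.mem) hStc.lB
    (fun x hx => by
      have h2 := (hsm x hx).1
      have h3 := (abs_le.1 (hExt.uR x hx)).1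
      linarith) (fun x hx => hx) hExt.vB hzB
  -- the level of the vertices of `R`
  choose lv hlv1 hlv2 hlv3 using hStc.part
  have lv_eq : ∀ l x (hx : x ∈ cR κ u v), x ∈ Vl t G (cR κ u v) (cA κ u) (cA κ v) l →
      lv x hx = l := fun l x hx h => Vl_disj og cor (hlv3 x hx) h
  let g : V → ℕ := fun x =>
    if x ∈ cA κ u then (if ∃ r ∈ cR κ u v, G.Adj x r then 2 else 0)
    else if x ∈ cA κ v then (if ∃ r ∈ cR κ u v, G.Adj x r then 2 * t + 4 else 1)
    else if h : x ∈ cR κ u v then 2 * t + 4 - lv x h else 0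
  have gA1 : ∀ x ∈ cA κ u, (∃ r ∈ cR κ u v, G.Adj x r) → g x = 2 := by
    intro x hx h
    simp only [g]
    rw [if_pos hx, if_pos h]
  have gA0 : ∀ x ∈ cA κ u, (¬ ∃ r ∈ cR κ u v, G.Adj x r) → g x = 0 := by
    intro x hx h
    simp only [g]
    rw [if_pos hx, if_neg h]
  have gB1 : ∀ x ∈ cA κ v, (∃ r ∈ cR κ u v, G.Adj x r) → g x = 2 * t + 4 := by
    intro x hx h
    have hx' : x ∉ cA κ u := fun h' => cor.dAB x h' hx
    simp only [g]
    rw [if_neg hx', if_pos hx, if_pos h]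
  have gB0 : ∀ x ∈ cA κ v, (¬ ∃ r ∈ cR κ u v, G.Adj x r) → g x = 1 := by
    intro x hx h
    have hx' : x ∉ cA κ u := fun h' => cor.dAB x h' hx
    simp only [g]
    rw [if_neg hx', if_pos hx, if_neg h]
  have gR : ∀ l, ∀ x ∈ Vl t G (cR κ u v) (cA κ u) (cA κ v) l, g x = 2 * t + 4 - l := by
    intro l x hxl
    have hx : x ∈ cR κ u v := hxl.1.mem
    have hx' : x ∉ cA κ u := fun h' => cor.dAR x h' hx
    have hx'' : x ∉ cA κ v := fun h' => cor.dBR x h' hx
    simp only [g]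
    rw [if_neg hx', if_neg hx'', dif_pos hx, lv_eq l x hx hxl]
  have glt : ∀ x, g x < 2 * t + 5 := by
    intro x
    rcases cor.cov x with h | h | h
    · by_cases h' : ∃ r ∈ cR κ u v, G.Adj x r
      · rw [gA1 x h h']; omega
      · rw [gA0 x h h']; omega
    · by_cases h' : ∃ r ∈ cR κ u v, G.Adj x r
      · rw [gB1 x h h']; omega
      · rw [gB0 x h h']; omega
    · rw [gR _ x (hlv3 x h)]; omega
  refine ⟨fun x => ⟨g x, glt x⟩, ?_, ?_⟩
  · -- edges; first the ordered version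
    have key : ∀ x y, G.Adj x y → g x + 1 = g y ∨ g y + 1 = g x ∨ (g x = 0 ∧ g y = 2 * t + 4) ∨
        (g y = 0 ∧ g x = 2 * t + 4) := by
      have kAB : ∀ x ∈ cA κ u, ∀ y ∈ cA κ v, G.Adj x y → g x + 1 = g y ∨ g y + 1 = g x ∨
          (g x = 0 ∧ g y = 2 * t + 4) ∨ (g y = 0 ∧ g x = 2 * t + 4) := by
        intro x hx y hy hxy
        by_cases h' : ∃ r ∈ cR κ u v, G.Adj x r
        · by_cases h'' : ∃ r ∈ cR κ u v, G.Adj y r
          · obtain ⟨r, hr, hxr⟩ := h'
            obtain ⟨r', hr', hyr'⟩ := h''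
            exact absurd hxy (hE.yx x hx y hy r hr r' hr' hxr hyr')
          · rw [gA1 x hx h', gB0 y hy h'']; omega
        · by_cases h'' : ∃ r ∈ cR κ u v, G.Adj y r
          · rw [gA0 x hx h', gB1 y hy h'']; omega
          · rw [gA0 x hx h', gB0 y hy h'']; omega
      have kAR : ∀ x ∈ cA κ u, ∀ y ∈ cR κ u v, G.Adj x y → g x + 1 = g y := by
        intro x hx y hy hxy
        rw [gA1 x hx ⟨y, hy, hxy⟩, gR _ y (hE.ar x hx y hy hxy)]; omega
      have kBR : ∀ x ∈ cA κ v, ∀ y ∈ cR κ u v, G.Adj x y → g y + 1 = g x := by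
        intro x hx y hy hxy
        rw [gB1 x hx ⟨y, hy, hxy⟩, gR _ y (hE.br x hx y hy hxy)]; omega
      have kRR : ∀ x ∈ cR κ u v, ∀ y ∈ cR κ u v, G.Adj x y → g x + 1 = g y ∨ g y + 1 = g x := by
        intro x hx y hy hxy
        have h1 := hlv1 x hx
        have h2 := hlv2 x hx
        have h3 := hlv1 y hy
        have h4 := hlv2 y hy
        have := hE.rr _ _ h1 h2 h3 h4 x (hlv3 x hx) y (hlv3 y hy) hxy
        rw [gR _ x (hlv3 x hx), gR _ y (hlv3 y hy)]
        omega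
      intro x y hxy
      rcases cor.cov x with hx | hx | hx
      · rcases cor.cov y with hy | hy | hy
        · exact absurd hxy (cor.indA x hx y hy)
        · exact kAB x hx y hy hxy
        · exact Or.inl (kAR x hx y hy hxy)
      · rcases cor.cov y with hy | hy | hy
        · have := kAB y hy x hx hxy.symm
          omega
        · exact absurd hxy (cor.indB x hx y hy)
        · exact Or.inr (Or.inl (kBR x hx y hy hxy))
      · rcases cor.cov y with hy | hy | hy
        · exact Or.inr (Or.inl (kAR y hy x hx hxy.symm))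
        · exact Or.inl (kBR y hy x hx hxy.symm)
        · rcases kRR x hx y hy hxy with h | h
          · exact Or.inl h
          · exact Or.inr (Or.inl h)
    intro x y hxy
    rcases key x y hxy with h | h | h | h
    · exact TO_.adj_succ h
    · exact (TO_.adj_succ h).symm
    · exact TO_.adj_zero_last h.1 h.2
    · exact (TO_.adj_zero_last h.1 h.2).symm
  · intro i
    have hsub : ∀ S : Set V, (∀ x ∈ S, g x = i) →
        ms S ≤ ms {x | (⟨g x, glt x⟩ : Fin (2 * t + 5)) = i} := by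
      intro S hS
      refine ms_mono fun x hx => ?_
      exact Fin.ext (hS x hx)
    have hi := i.2
    rcases Nat.lt_or_ge (i : ℕ) 3 with h3 | h3
    · interval_cases hi' : (i : ℕ)
      · exact mA.2.trans (hsub _ fun x hx => gA0 x hx.1 hx.2)
      · exact mB.2.trans (hsub _ fun x hx => gB0 x hx.1 hx.2)
      · exact mA.1.trans (hsub _ fun x hx => gA1 x hx.1 hx.2)
    · rcases Nat.lt_or_ge (i : ℕ) (2 * t + 4) with h4 | h4
      · have e1 := hStc.mV1 (2 * t + 4 - i) (by omega) (by omega)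
        have e2 : 1 / (8 * (k : ℝ)) ≤ (1 - K0 * κ) / k := by
          rw [div_le_div_iff₀ (by linarith) hk0]
          nlinarith
        refine (e2.trans e1).trans (hsub _ fun x hx => ?_)
        rw [gR _ x hx]
        omega
      · refine mB.1.trans (hsub _ fun x hx => ?_)
        rw [gB1 x hx.1 hx.2]
        omega

end Pool.Agent.OCX
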