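import Pool.Agent.OCX.Stmts
import Pool.Agent.OCX.Lib

set_option autoImplicit false

/-!
# OCX, module TO1: the edges
-/

open scoped BigOperators

namespace Pool.Agent.OCX

noncomputable section

namespace TO1_

variable {V : Type} [Fintype V]

theorem inter_nonempty {X Y Z : Set V} {a b c : ℝ} (hX : X ⊆ Z) (hY : Y ⊆ Z) (ha : a ≤ ms X)
    (hb : b ≤ ms Y) (hc : ms Z ≤ c) (h : c < a + b) : ∃ x, x ∈ X ∧ x ∈ Y := by
  by_contra hcon
  push Not at hcon
  have hd : Disjoint X Y := Set.disjoint_left.2 hcon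
  have h1 := avS_union hd (fun _ : V => (1 : ℝ))
  have h2 : ms (X ∪ Y) = ms X + ms Y := h1
  have h3 : ms (X ∪ Y) ≤ ms Z := ms_mono (Set.union_subset hX hY)
  linarith

variable {G : SimpleGraph V} {A B R : Set V} {t k : ℕ} {κ K : ℝ} {eA eB : V → ℝ} {δ cc : ℝ}

/-- greedy walk -/
theorem greedy (h : Stc t k κ K G A B R eA eB δ cc) (hk : 0 < k) (hκ : 3 * (|K| * κ) < 1)
    (hκ0 : 0 < κ) (l' : ℕ) (hl' : l' ≤ 2 * t + 1) (T : Set V) (hT : T ⊆ Vl t G R A B l') (a : ℝ)
    (ha : a / k ≤ ms T) (ha2 : (1 + K * κ) < a + (1 - K * κ)) :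
    ∀ (d l : ℕ), 1 ≤ l → l + (d + 1) = l' → ∀ x ∈ Vl t G R A B l,
      ∃ y ∈ T, ∃ p : G.Walk x y, p.length = d + 1 := by
  have hk' : (0 : ℝ) < k := by exact_mod_cast hk
  have hKκ : K * κ ≤ |K| * κ := mul_le_mul_of_nonneg_right (le_abs_self K) hκ0.le
  intro d
  induction d with
  | zero =>
    intro l hl hd x hx
    have h1 := h.up l hl (by omega) x hx
    have e : l + 1 = l' := by omega
    rw [e] at h1
    obtain ⟨y, hy1, hy2⟩ := inter_nonempty (Z := Vl t G R A B l') Set.inter_subset_right hT h1 ha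
      (h.mV2 l' (by omega) hl') (by
        rw [← add_div, div_lt_div_iff_of_pos_right hk']
        linarith)
    exact ⟨y, hy2, SimpleGraph.Walk.cons hy1.1 SimpleGraph.Walk.nil, rfl⟩
  | succ d ih =>
    intro l hl hd x hx
    have h1 := h.up l hl (by omega) x hx
    have h2 : 0 < ms (G.neighborSet x ∩ Vl t G R A B (l + 1)) :=
      lt_of_lt_of_le (div_pos (by linarith [abs_nonneg K]) hk') h1
    obtain ⟨z, hz1, hz2⟩ := exists_mem_of_ms_pos h2
    obtain ⟨y, hy, p, hp⟩ := ih (l + 1) (by omega) (by omega) z hz2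
    have q : G.Adj x z := hz1
    exact ⟨y, hy, SimpleGraph.Walk.cons q p, by rw [SimpleGraph.Walk.length_cons, hp]⟩

omit [Fintype V] in
theorem tri (og : OddG t G) {x y z : V} (h1 : G.Adj x y) (h2 : G.Adj y z) (h3 : G.Adj z x) :
    False := by
  have key := og x (SimpleGraph.Walk.cons h1 (SimpleGraph.Walk.cons h2
    (SimpleGraph.Walk.cons h3 SimpleGraph.Walk.nil)))
  simp only [SimpleGraph.Walk.length_cons, SimpleGraph.Walk.length_nil] at key
  have := key ⟨1, by norm_num⟩
  omega

/-- edges in `R`, same parity, `t ≥ 1` -/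
theorem rr_even (og : OddG t G) (h : Stc t k κ K G A B R eA eB δ cc) (hk : 0 < k)
    (hκ : 3 * (|K| * κ) < 1) (hκ0 : 0 < κ) (ht : 1 ≤ t) {l l' : ℕ} (hl : 1 ≤ l) (hll : l ≤ l')
    (hl' : l' ≤ 2 * t + 1) (hs : l + l' = 2 * t + 2) {x x' : V} (hx : x ∈ Vl t G R A B l)
    (hx' : x' ∈ Vl t G R A B l') (hxx : G.Adj x x') : False := by
  have hk' : (0 : ℝ) < k := by exact_mod_cast hk
  have hKκ : K * κ ≤ |K| * κ := mul_le_mul_of_nonneg_right (le_abs_self K) hκ0.le
  rcases Nat.eq_or_lt_of_le hll with e | hlt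
  · subst e
    have hlt : l = t + 1 := by omega
    subst hlt
    have h1 := h.up (t + 1) (by omega) (by omega) x hx
    have h2 := h.up (t + 1) (by omega) (by omega) x' hx'
    obtain ⟨y, hy1, hy2⟩ := inter_nonempty (Z := Vl t G R A B (t + 1 + 1))
      Set.inter_subset_right Set.inter_subset_right h1 h2
      (h.mV2 (t + 1 + 1) (by omega) (by omega)) (by
        rw [← add_div, div_lt_div_iff_of_pos_right hk']
        linarith)
    have a1 : G.Adj x y := hy1.1
    have a2 : G.Adj x' y := hy2.1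
    exact tri og a1 a2.symm hxx.symm
  · have h1 := h.dn (l' - 1) (by omega) (by omega) x' (by
      rw [show l' - 1 + 1 = l' by omega]
      exact hx')
    obtain ⟨y, hy, p, hp⟩ := greedy h hk hκ hκ0 (l' - 1) (by omega)
      (G.neighborSet x' ∩ Vl t G R A B (l' - 1)) Set.inter_subset_right (1 - K * κ) h1
      (by linarith) (l' - l - 2) l hl (by omega) x hx
    have a1 : G.Adj x' y := hy.1
    have key := og x (p.append (SimpleGraph.Walk.cons a1.symm
      (SimpleGraph.Walk.cons hxx.symm SimpleGraph.Walk.nil)))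
    simp only [SimpleGraph.Walk.length_append, SimpleGraph.Walk.length_cons,
      SimpleGraph.Walk.length_nil, hp] at key
    have ho : Odd (l' - l - 2 + 1 + (0 + 1 + 1)) := by
      refine ⟨t + 1 - l, ?_⟩
      omega
    have := key ho
    omega

end TO1_

open TO1_ in
theorem to1_proof : Stmt_TO1 := by
  intro t C K0 K1
  refine ⟨1 / (8 * (|K0| + |K1| + 1)), by positivity, fun κ hκ hκs => ?_⟩
  refine ⟨⌈4 * |C|⌉₊ + 1, fun k hk => ?_⟩
  intro V _ G ν δ ξ cc u v hC hE hS hz hw
  have hk0 : 0 < k := by omega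
  have hk' : (0 : ℝ) < k := by exact_mod_cast hk0
  have hCk : C / k ≤ 1 / 4 := by
    rw [div_le_iff₀ hk']
    have h1 : 4 * |C| ≤ k := (Nat.le_ceil _).trans (by exact_mod_cast (by omega))
    linarith [le_abs_self C]
  have hsm : 8 * ((|K0| + |K1| + 1) * κ) ≤ 1 := by
    have h1 : (0 : ℝ) < 8 * (|K0| + |K1| + 1) := by positivity
    rw [le_div_iff₀ h1] at hκs
    linarith
  have hK0 : 0 ≤ |K0| * κ := by positivity
  have hK1 : 0 ≤ |K1| * κ := by positivity
  have hexp : (|K0| + |K1| + 1) * κ = |K0| * κ + |K1| * κ + κ := by ring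
  rw [hexp] at hsm
  have hK0κ : K0 * κ ≤ |K0| * κ := mul_le_mul_of_nonneg_right (le_abs_self K0) hκ.le
  have hK1κ : K1 * κ ≤ |K1| * κ := mul_le_mul_of_nonneg_right (le_abs_self K1) hκ.le
  have hκ3 : 3 * (|K0| * κ) < 1 := by linarith
  have og := hC.og
  have cor := hC.cor
  refine ⟨?_, ?_, ?_, ?_⟩
  · intro l l' hl1 hl2 hl1' hl2' x hx x' hx' hxx
    have b1 : Rch G (cR κ u v) (cA κ v) (l + 1) x' := hx.1.step hx'.1.mem hxx
    have a1 : Rch G (cR κ u v) (cA κ u) (2 * t + 2 - l + 1) x' := hx.2.step hx'.1.mem hxx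
    rcases Nat.even_or_odd (l + l') with he | ho
    · exfalso
      have e1 : l + l' ≤ 2 * t + 2 := by
        have := ogA og cor hx'.2 a1 (by
          rcases he with ⟨r, hr⟩
          exact ⟨2 * t + 2 - r, by omega⟩)
        omega
      have e2 : 2 * t + 2 ≤ l + l' := by
        have := ogB og cor b1 hx'.1 (by
          rcases he with ⟨r, hr⟩
          exact ⟨r, by omega⟩)
        omega
      rcases Nat.eq_zero_or_pos t with ht | ht
      · subst ht
        have hl : l = 1 := by omega
        have hl' : l' = 1 := by omega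
        subst hl
        subst hl'
        have h1 := hE.rec2 (G.neighborSet x ∩ cA κ v) (G.neighborSet x' ∩ cA κ v)
          (G.neighborSet x ∩ cA κ u) (G.neighborSet x' ∩ cA κ u) Set.inter_subset_right
          Set.inter_subset_right Set.inter_subset_right Set.inter_subset_right
          (Or.inl (Set.disjoint_left.2 fun y hy hy' => by
            have q1 : G.Adj x y := hy.1
            have q2 : G.Adj x' y := hy'.1
            exact tri og q1 q2.symm hxx.symm))
          (fun b hb a ha hba => by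
            have q1 : G.Adj x b := hb.1
            have q2 : G.Adj x a := ha.1
            exact tri og q1 hba q2.symm)
          (fun b hb a ha hba => by
            have q1 : G.Adj x' b := hb.1
            have q2 : G.Adj x' a := ha.1
            exact tri og q1 hba q2.symm)
        have h2 := hS.pr rfl x hx.1.mem
        have h3 := hS.pr rfl x' hx'.1.mem
        have h4 := hS.cle
        rw [div_le_iff₀ hk'] at h2 h3
        unfold ee at h2 h3
        have h5 : (k : ℝ) * (avS (G.neighborSet x ∩ cA κ v) v / ν *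
            (avS (G.neighborSet x ∩ cA κ u) u / ν) + avS (G.neighborSet x' ∩ cA κ v) v / ν *
            (avS (G.neighborSet x' ∩ cA κ u) u / ν)) =
            avS (G.neighborSet x ∩ cA κ u) u / ν * (avS (G.neighborSet x ∩ cA κ v) v / ν) * k +
            avS (G.neighborSet x' ∩ cA κ u) u / ν * (avS (G.neighborSet x' ∩ cA κ v) v / ν) * k := by
          ring
        rw [h5] at h1
        linarith
      · rcases le_total l l' with hll | hll
        · exact rr_even og hS hk0 hκ3 hκ ht hl1 hll hl2' (by omega) hx hx' hxx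
        · exact rr_even og hS hk0 hκ3 hκ ht hl1' hll hl2 (by omega) hx' hx hxx.symm
    · have e1 : l' ≤ l + 1 := by
        have := og1 og cor hx'.2 b1 (by
          rcases ho with ⟨r, hr⟩
          exact ⟨t + 1 + r + 1 - l', by omega⟩)
        omega
      have e2 : l ≤ l' + 1 := by
        have := og1 og cor a1 hx'.1 (by
          rcases ho with ⟨r, hr⟩
          exact ⟨t + 1 + r + 1 - l, by omega⟩)
        omega
      rcases ho with ⟨r, hr⟩
      omega
  · intro z hz x hx hzx
    obtain ⟨l, hl1, hl2, hxl⟩ := hS.part x hx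
    have a1 : Rch G (cR κ u v) (cA κ u) 1 x := ⟨hx, z, hz, hzx.symm⟩
    rcases Nat.even_or_odd l with he | ho
    · exfalso
      have := ogA og cor a1 hxl.2 (by
        rcases he with ⟨r, hr⟩
        exact ⟨t + 1 - r, by omega⟩)
      omega
    · have h1 := og1 og cor a1 hxl.1 (by
        rcases ho with ⟨r, hr⟩
        exact ⟨r + 1, by omega⟩)
      have e : l = 2 * t + 1 := by omega
      rw [← e]
      exact hxl
  · intro z hz x hx hzx
    obtain ⟨l, hl1, hl2, hxl⟩ := hS.part x hx
    have b1 : Rch G (cR κ u v) (cA κ v) 1 x := ⟨hx, z, hz, hzx.symm⟩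
    rcases Nat.even_or_odd l with he | ho
    · exfalso
      have := ogB og cor b1 hxl.1 (by
        rcases he with ⟨r, hr⟩
        exact ⟨r, by omega⟩)
      omega
    · have h1 := og1 og cor hxl.2 b1 (by
        rcases ho with ⟨r, hr⟩
        exact ⟨t + 1 - r, by omega⟩)
      have e : l = 1 := by omega
      rw [← e]
      exact hxl
  · intro z hzA w hwB x hx x' hx' hzx hwx hzw
    have m1 := hz z hzA x hx hzx
    have m2 := hw w hwB x' hx' hwx
    have m3 : 0 < ms (G.neighborSet w ∩ Vl t G (cR κ u v) (cA κ u) (cA κ v) 1) :=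
      lt_of_lt_of_le (div_pos (by linarith) hk') m2
    rcases Nat.eq_zero_or_pos t with ht | ht
    · subst ht
      obtain ⟨y, hy1, hy2⟩ := inter_nonempty (Z := Vl 0 G (cR κ u v) (cA κ u) (cA κ v) 1)
        Set.inter_subset_right Set.inter_subset_right m1 m2
        (hS.mV2 1 le_rfl le_rfl) (by
          rw [← add_div, div_lt_div_iff_of_pos_right hk']
          linarith)
      have q1 : G.Adj z y := hy1.1
      have q2 : G.Adj w y := hy2.1
      exact tri og q1 q2.symm hzw.symm
    · obtain ⟨y1, hy1, hy1'⟩ := exists_mem_of_ms_pos m3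
      obtain ⟨y, hy, p, hp⟩ := greedy hS hk0 hκ3 hκ (2 * t + 1) le_rfl
        (G.neighborSet z ∩ Vl t G (cR κ u v) (cA κ u) (cA κ v) (2 * t + 1))
        Set.inter_subset_right (1 - K1 * κ) m1 (by linarith) (2 * t - 1) 1 le_rfl (by omega)
        y1 hy1'
      have q1 : G.Adj w y1 := hy1
      have q2 : G.Adj z y := hy.1
      have key := og w (SimpleGraph.Walk.cons q1 (p.append (SimpleGraph.Walk.cons q2.symm
        (SimpleGraph.Walk.cons hzw SimpleGraph.Walk.nil))))
      simp only [SimpleGraph.Walk.length_append, SimpleGraph.Walk.length_cons,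
        SimpleGraph.Walk.length_nil, hp] at key
      have := key ⟨t + 1, by omega⟩
      omega

end

end Pool.Agent.OCX
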