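import Pool.Agent.OCX.Stmts
import Pool.Agent.OCX.Lib

/-! # OCX module TRC: powers of the adjacency operator count closed walks -/

open scoped BigOperators

namespace Pool.Agent.OCX

namespace TRC_

open Classical in
/-- indicator of the walks `y 0, ..., y m, x` starting at `z` -/
noncomputable def q {V : Type} (G : SimpleGraph V) (x : V) (m : ℕ) (z : V)
    (y : Fin (m + 1) → V) : ℝ :=
  if y 0 = z ∧ (∀ i : Fin m, G.Adj (y i.castSucc) (y i.succ)) ∧ G.Adj (y (Fin.last m)) x
  then 1 else 0

variable {V : Type} [Fintype V]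

/-- number of these walks -/
noncomputable def c (G : SimpleGraph V) (x : V) (m : ℕ) (z : V) : ℝ := ∑ y, q G x m z y

open Classical in
theorem avS_eq (S : Set V) (f : V → ℝ) :
    avS S f = (∑ a, if a ∈ S then f a else 0) / (Fintype.card V : ℝ) := by
  unfold avS av
  congr 1

open Classical in
theorem c_zero (G : SimpleGraph V) (x z : V) : c G x 0 z = if G.Adj z x then 1 else 0 := by
  unfold c
  rw [Fintype.sum_equiv (Equiv.funUnique (Fin 1) V) (q G x 0 z)
    (fun a => if a = z ∧ G.Adj a x then (1 : ℝ) else 0)]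
  · rw [Finset.sum_eq_single z]
    · simp
    · intro b _ hb
      simp [hb]
    · intro h
      exact absurd (Finset.mem_univ _) h
  · intro y
    unfold q
    have e1 : (Equiv.funUnique (Fin 1) V) y = y 0 := rfl
    rw [e1]
    have e2 : (Fin.last 0 : Fin 1) = 0 := rfl
    simp only [e2]
    congr 1
    simp

open Classical in
theorem c_succ (G : SimpleGraph V) (x z : V) (m : ℕ) :
    c G x (m + 1) z = ∑ a, if a ∈ G.neighborSet z then c G x m a else 0 := by
  have h1 : c G x (m + 1) z = ∑ a : V, ∑ w : Fin (m + 1) → V, q G x (m + 1) z (Fin.cons a w) := by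
    unfold c
    rw [← Fintype.sum_prod_type']
    exact (Fintype.sum_equiv (Fin.consEquiv fun _ : Fin (m + 2) => V)
      (fun p => q G x (m + 1) z (Fin.cons p.1 p.2)) _ (fun p => rfl)).symm
  rw [h1]
  have h2 : ∀ (a : V) (w : Fin (m + 1) → V), q G x (m + 1) z (Fin.cons a w) =
      if a = z ∧ G.Adj z (w 0) ∧ (∀ i : Fin m, G.Adj (w i.castSucc) (w i.succ)) ∧
        G.Adj (w (Fin.last m)) x then 1 else 0 := by
    intro a w
    unfold q
    have e : ((Fin.cons a w : Fin (m + 2) → V) 0 = z ∧
        (∀ i : Fin (m + 1), G.Adj ((Fin.cons a w : Fin (m + 2) → V) i.castSucc)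
          ((Fin.cons a w : Fin (m + 2) → V) i.succ)) ∧
        G.Adj ((Fin.cons a w : Fin (m + 2) → V) (Fin.last (m + 1))) x) ↔
        (a = z ∧ G.Adj z (w 0) ∧ (∀ i : Fin m, G.Adj (w i.castSucc) (w i.succ)) ∧
        G.Adj (w (Fin.last m)) x) := by
      rw [Fin.forall_fin_succ]
      have e1 : (Fin.cons a w : Fin (m + 2) → V) 0 = a := rfl
      have e2 : (Fin.cons a w : Fin (m + 2) → V) (Fin.castSucc 0) = a := rfl
      have e3 : (Fin.cons a w : Fin (m + 2) → V) (Fin.succ 0) = w 0 := rfl
      have e4 : ∀ i : Fin m, (Fin.cons a w : Fin (m + 2) → V) (Fin.castSucc i.succ) =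
        w i.castSucc := fun i => rfl
      have e5 : ∀ i : Fin m, (Fin.cons a w : Fin (m + 2) → V) (Fin.succ i.succ) =
        w i.succ := fun i => rfl
      have e6 : (Fin.cons a w : Fin (m + 2) → V) (Fin.last (m + 1)) = w (Fin.last m) := rfl
      simp only [e1, e2, e3, e4, e5, e6]
      constructor
      · rintro ⟨h, ⟨h5, h6⟩, h7⟩
        subst h
        exact ⟨rfl, h5, h6, h7⟩
      · rintro ⟨h, h5, h6, h7⟩
        subst h
        exact ⟨rfl, ⟨h5, h6⟩, h7⟩
    by_cases hc : (a = z ∧ G.Adj z (w 0) ∧ (∀ i : Fin m, G.Adj (w i.castSucc) (w i.succ)) ∧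
        G.Adj (w (Fin.last m)) x)
    · rw [if_pos hc, if_pos (e.2 hc)]
    · rw [if_neg hc, if_neg (fun h => hc (e.1 h))]
  simp only [h2]
  rw [Finset.sum_eq_single z]
  · simp only [true_and]
    have h3 : ∀ a : V, (if a ∈ G.neighborSet z then c G x m a else 0) =
        ∑ w : Fin (m + 1) → V, if a ∈ G.neighborSet z then q G x m a w else 0 := by
      intro a
      by_cases ha : a ∈ G.neighborSet z
      · simp only [if_pos ha]
        rfl
      · simp only [if_neg ha, Finset.sum_const_zero]
    simp only [h3]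
    rw [Finset.sum_comm]
    refine Finset.sum_congr rfl fun w _ => ?_
    rw [Finset.sum_eq_single (w 0)]
    · unfold q
      by_cases hz : G.Adj z (w 0)
      · have hz' : w 0 ∈ G.neighborSet z := hz
        simp only [hz, hz', true_and, if_true]
      · have hz' : w 0 ∉ G.neighborSet z := hz
        simp only [hz, hz', false_and, if_false]
    · intro b _ hb
      unfold q
      have : ¬ (w 0 = b) := fun h => hb h.symm
      simp [this]
    · intro h
      exact absurd (Finset.mem_univ _) h
  · intro b _ hb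
    simp [hb]
  · intro h
    exact absurd (Finset.mem_univ _) h

open Classical in
theorem iter [Nonempty V] (G : SimpleGraph V) (x : V) (m : ℕ) : ∀ z,
    (Wop G)^[m + 1] (Set.indicator {x} fun _ => (Fintype.card V : ℝ)) z *
      (Fintype.card V : ℝ) ^ m = c G x m z := by
  have hN : (Fintype.card V : ℝ) ≠ 0 := by
    have := Fintype.card_pos (α := V)
    positivity
  induction m with
  | zero =>
    intro z
    rw [zero_add, Function.iterate_one, pow_zero, mul_one, c_zero]
    unfold Wop
    rw [avS_eq]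
    rw [Finset.sum_eq_single x]
    · by_cases h : G.Adj z x
      · have h' : x ∈ G.neighborSet z := h
        simp only [h, h', if_true, Set.indicator_of_mem (Set.mem_singleton x)]
        exact div_self hN
      · have h' : x ∉ G.neighborSet z := h
        simp only [h, h', if_false, zero_div]
    · intro b _ hb
      have : b ∉ ({x} : Set V) := hb
      simp [Set.indicator_of_notMem this]
    · intro h
      exact absurd (Finset.mem_univ _) h
  | succ m ih =>
    intro z
    rw [Function.iterate_succ_apply', c_succ]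
    show avS (G.neighborSet z) _ * _ = _
    rw [avS_eq, pow_succ', ← mul_assoc, div_mul_cancel₀ _ hN, Finset.sum_mul]
    refine Finset.sum_congr rfl fun a _ => ?_
    by_cases h : a ∈ G.neighborSet z
    · rw [if_pos h, if_pos h, ih a]
    · rw [if_neg h, if_neg h, zero_mul]

omit [Fintype V] in
theorem cws_iff (G : SimpleGraph V) (n : ℕ) (y : Fin (n + 2) → V) :
    y ∈ cws G (n + 2) ↔ (∀ i : Fin (n + 1), G.Adj (y i.castSucc) (y i.succ)) ∧
      G.Adj (y (Fin.last (n + 1))) (y 0) := by
  constructor
  · intro h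
    refine ⟨fun i => h _ _ ?_, h _ _ ?_⟩
    · rw [SimpleGraph.cycleGraph_adj]
      right
      rw [← Fin.coeSucc_eq_succ]
      exact add_sub_cancel_left _ _
    · rw [SimpleGraph.cycleGraph_adj]
      right
      rw [← Fin.last_add_one]
      simp
  · rintro ⟨h1, h2⟩
    have key : ∀ v : Fin (n + 2), G.Adj (y v) (y (v + 1)) := by
      intro v
      refine Fin.lastCases ?_ (fun i => ?_) v
      · rw [Fin.last_add_one]
        exact h2
      · rw [Fin.coeSucc_eq_succ]
        exact h1 i
    intro i j hij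
    rw [SimpleGraph.cycleGraph_adj] at hij
    rcases hij with h | h
    · have : i = j + 1 := by
        rw [← h]; simp
      rw [this]
      exact (key j).symm
    · have : j = i + 1 := by
        rw [← h]; simp
      rw [this]
      exact key i

end TRC_

open TRC_ in
theorem trc_proof : Stmt_TRC := by
  classical
  intro V _ _ G k x hk
  obtain ⟨n, rfl⟩ : ∃ n, k = n + 2 := ⟨k - 2, by omega⟩
  have h1 := iter G x (n + 1) x
  have e1 : n + 2 - 1 = n + 1 := by omega
  rw [e1]
  unfold hh
  rw [h1]
  unfold c cwx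
  rw [Set.ncard_eq_toFinset_card', Set.toFinset_ofPred, Finset.card_filter]
  push_cast
  refine Finset.sum_congr rfl fun y _ => ?_
  unfold q
  have e : (y 0 = x ∧ (∀ i : Fin (n + 1), G.Adj (y i.castSucc) (y i.succ)) ∧
      G.Adj (y (Fin.last (n + 1))) x) ↔
      (y ∈ cws G (n + 2) ∧ ∀ i : Fin (n + 2), (i : ℕ) = 0 → y i = x) := by
    rw [cws_iff]
    constructor
    · rintro ⟨h, h1, h2⟩
      refine ⟨⟨h1, by rw [h]; exact h2⟩, fun i hi => ?_⟩
      have : i = 0 := Fin.ext hi
      rw [this]
      exact h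
    · rintro ⟨⟨h1, h2⟩, h⟩
      have h0 := h 0 rfl
      exact ⟨h0, h1, by rw [← h0]; exact h2⟩
  by_cases hc : (y ∈ cws G (n + 2) ∧ ∀ i : Fin (n + 2), (i : ℕ) = 0 → y i = x)
  · rw [if_pos hc, if_pos (e.2 hc)]
  · rw [if_neg hc, if_neg (fun h => hc (e.1 h))]

end Pool.Agent.OCX
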