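import Pool.Agent.OCX.Stmts
import Pool.Agent.OCX.Lib

open scoped BigOperators

namespace Pool.Agent.OCX

namespace VM_

variable {V : Type} [Fintype V] {G : SimpleGraph V} {A B R : Set V}

lemma wI_nonneg {t : ℕ} {eA eB : V → ℝ} (hA : ∀ x, 0 ≤ eA x) (hB : ∀ x, 0 ≤ eB x)
    (y : Fin (2 * t + 1) → V) : 0 ≤ wI t eA eB y := by
  unfold wI
  have := hB (y 0)
  have := hA (y (Fin.last (2 * t)))
  positivity

lemma wC_nonneg {t : ℕ} {e : V → ℝ} (he : ∀ x, 0 ≤ e x) (y : Fin (2 * t + 2) → V) :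
    0 ≤ wC t e y := by
  unfold wC
  have := he (y 0)
  have := he (y (Fin.last (2 * t + 1)))
  positivity

/-- path sums of crossings of type II with small ends -/
lemma small_ends {t k : ℕ} {κ C : ℝ} {eA eB : V → ℝ} {cc : ℝ} (g : Gfa t k κ C G A B R eA eB cc)
    (hA : ∀ x, 0 ≤ eA x) (hκ : 0 < κ) {b : (Fin (2 * t + 2) → V) → ℝ}
    (hb2 : ∀ y, b y ≤ 1) (hb : ∀ y, ¬ (eA (y 0) ≤ 2 * κ ∧ eA (y (Fin.last (2 * t + 1))) ≤ 2 * κ) →
      b y = 0) :
    PS G R (2 * t + 2) (fun y => wC t eA y * b y) ≤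
      2 ^ (2 * t + 1) * (2 * κ) ^ 2 * ms {x | x ∈ R ∧ eA x ≤ 2 * κ ∧ eB x ≤ 2 * κ} ^ (2 * t + 2) := by
  set S : Set V := {x | x ∈ R ∧ eA x ≤ 2 * κ ∧ eB x ≤ 2 * κ} with hS
  have h1 : PS G R (2 * t + 2) (fun y => wC t eA y * b y) ≤
      PS G R (2 * t + 2) (fun y => (2 ^ (2 * t + 1) * (2 * κ) ^ 2) *
        ∏ i, S.indicator (fun _ => (1 : ℝ)) (y i)) := by
    refine PS_mono fun y hy => ?_
    have hpos : 0 ≤ (2 ^ (2 * t + 1) * (2 * κ) ^ 2) * ∏ i, S.indicator (fun _ => (1 : ℝ)) (y i) := by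
      refine mul_nonneg (by positivity) (Finset.prod_nonneg fun i _ => ?_)
      exact Set.indicator_nonneg (fun _ _ => zero_le_one) _
    by_cases hz : 0 < eA (y 0) ∧ 0 < eA (y (Fin.last (2 * t + 1)))
    · by_cases hs : eA (y 0) ≤ 2 * κ ∧ eA (y (Fin.last (2 * t + 1))) ≤ 2 * κ
      · have hT : TyC t G R eA y := ⟨hy, hz.1, hz.2⟩
        have hm : ∀ i, y i ∈ S := by
          intro i
          refine ⟨hy.1 i, ?_, g.a2 y hT i⟩
          rcases Nat.eq_zero_or_pos (i : ℕ) with h0 | h0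
          · have : i = 0 := Fin.ext h0
            rw [this]
            exact hs.1
          · by_cases h2 : (i : ℕ) < 2 * t + 1
            · rw [g.a3 y hT i h0 h2]
              positivity
            · have : i = Fin.last (2 * t + 1) := by
                apply Fin.ext
                have := i.2
                simp only [Fin.val_last]
                omega
              rw [this]
              exact hs.2
        have hp : ∏ i, S.indicator (fun _ => (1 : ℝ)) (y i) = 1 :=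
          Finset.prod_eq_one fun i _ => Set.indicator_of_mem (hm i) _
        rw [hp, mul_one]
        have hw : wC t eA y ≤ 2 ^ (2 * t + 1) * (2 * κ) ^ 2 := by
          unfold wC
          refine mul_le_mul_of_nonneg_left ?_ (by positivity)
          rw [sq]
          exact mul_le_mul hs.1 hs.2 (hA _) (by positivity)
        calc wC t eA y * b y ≤ wC t eA y * 1 :=
              mul_le_mul_of_nonneg_left (hb2 y) (wC_nonneg hA y)
          _ ≤ _ := by rw [mul_one]; exact hw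
      · change wC t eA y * b y ≤ _
        rw [hb y hs, mul_zero]
        exact hpos
    · have hw : wC t eA y = 0 := by
        unfold wC
        rw [not_and_or, not_lt, not_lt] at hz
        rcases hz with h | h
        · rw [le_antisymm h (hA _)]
          ring
        · rw [le_antisymm h (hA _)]
          ring
      change wC t eA y * b y ≤ _
      rw [hw, zero_mul]
      exact hpos
  refine h1.trans ?_
  rw [PS_mul_left]
  refine mul_le_mul_of_nonneg_left ?_ (by positivity)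
  have h2 := PS_le_prod (G := G) (R := R) (m := 2 * t + 2)
    (F := fun y => ∏ i, S.indicator (fun _ => (1 : ℝ)) (y i)) (fun _ => S) (fun _ _ => 1)
    (fun _ _ _ => zero_le_one) (fun y _ => le_rfl)
  refine h2.trans (le_of_eq ?_)
  rw [Finset.prod_const, Finset.card_univ, Fintype.card_fin]
  rfl

/-- the number of visits of `V_l` -/
lemma vis_bd {t k : ℕ} {κ C : ℝ} {eA eB : V → ℝ} {cc : ℝ} (g : Gfa t k κ C G A B R eA eB cc)
    {l : ℕ} (hl1 : 1 ≤ l) (hl2 : l ≤ 2 * t + 1) {b : (Fin (2 * t + 2) → V) → ℝ}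
    (hb0 : ∀ y, 0 ≤ b y)
    (hb : ∀ y, (eA (y 0) ≤ 2 * κ ∧ eA (y (Fin.last (2 * t + 1))) ≤ 2 * κ) → b y = 1)
    (y : Fin (2 * t + 2) → V) (hy : TyC t G R eA y) : vis (Vl t G R A B l) y ≤ 1 + b y := by
  by_cases hs : eA (y 0) ≤ 2 * κ ∧ eA (y (Fin.last (2 * t + 1))) ≤ 2 * κ
  · rw [hb y hs]
    have h2 := vis_le_two (S := Vl t G R A B l) (y := y) ⟨l, by omega⟩ ⟨2 * t + 2 - l - 1, by omega⟩
      (fun r hr => by
        rcases g.va y hy r l hr with h | h
        · left
          exact Fin.ext h.1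
        · right
          apply Fin.ext
          simp only
          have := h.1
          omega)
    linarith
  · have h1 : vis (Vl t G R A B l) y ≤ 1 := by
      apply vis_le_of_unique
      intro i j hi hj
      rcases g.va y hy i l hi with h | h <;> rcases g.va y hy j l hj with h' | h'
      · exact Fin.ext (h.1.trans h'.1.symm)
      · exact absurd ⟨h'.2, h.2⟩ hs
      · exact absurd ⟨h.2, h'.2⟩ hs
      · apply Fin.ext
        have := h.1
        have := h'.1
        omega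
    have := hb0 y
    linarith

end VM_

open VM_

theorem vm_proof (h1 : Stmt_GRA) : Stmt_VM := by
  intro t
  refine ⟨64 * (4 * t + 6) ^ (2 * t + 2) + 2, ?_, ?_⟩
  · have : (0 : ℝ) ≤ 64 * (4 * t + 6) ^ (2 * t + 2) := by positivity
    linarith
  intro κ hκ hκ1 C
  refine ⟨⌈(8 * C ^ 2 + 4 * C * (t + 1) + 100 * C) / κ ^ 3⌉₊ + 1, ?_⟩
  intro k hk V _ G A B R eA eB ω ξ δ cc hξ h
  have hkn : 0 < k := by omega
  have hk0 : (0 : ℝ) < k := by exact_mod_cast hkn
  have hC1 := h.C1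
  have hd0 := h.d0
  have ht0 : (0 : ℝ) ≤ t := Nat.cast_nonneg t
  have hκ3 : 0 < κ ^ 3 := by positivity
  have hT : 8 * C ^ 2 + 4 * C * (t + 1) + 100 * C ≤ κ ^ 3 * k := by
    have a1 := Nat.le_ceil ((8 * C ^ 2 + 4 * C * (t + 1) + 100 * C) / κ ^ 3)
    have a2 : ((⌈(8 * C ^ 2 + 4 * C * (t + 1) + 100 * C) / κ ^ 3⌉₊ : ℕ) : ℝ) ≤ k := by
      exact_mod_cast (by omega : ⌈(8 * C ^ 2 + 4 * C * (t + 1) + 100 * C) / κ ^ 3⌉₊ ≤ k)
    have a3 := a1.trans a2
    rw [div_le_iff₀ hκ3] at a3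
    linarith
  have hκ2 : κ ^ 2 ≤ 1 / 400 := by nlinarith only [hκ, hκ1]
  have hκ32 : κ ^ 3 ≤ κ ^ 2 / 20 := by nlinarith only [sq_nonneg κ, hκ, hκ1]
  -- the quantities
  set I := PS G R (2 * t + 1) (wI t eA eB) with hI
  have hI0 : 0 ≤ I := PS_nonneg fun y _ => wI_nonneg h.eA0 h.eB0 y
  have hJ0 : 0 ≤ PS G R (2 * t + 2) (fun y => wC t eA y + wC t eB y) :=
    PS_nonneg fun y _ => add_nonneg (wC_nonneg h.eA0 y) (wC_nonneg h.eB0 y)
  have hZI : 2 * I ≤ Zf t G R eA eB := by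
    unfold Zf
    linarith
  have htot := abs_le.1 h.tot
  have hqk : C / k * k = C := by field_simp
  have hq0 : 0 < C / k := div_pos (by linarith) hk0
  have hq1 : 100 * (C / k) ≤ κ ^ 3 := by
    rw [← mul_div_assoc, div_le_iff₀ hk0]
    have a1 : 0 ≤ C * (t + 1) := mul_nonneg (by linarith only [hC1]) (by linarith only [ht0])
    nlinarith only [hT, a1, sq_nonneg C]
  have hq2 : 8 * C * (C / k) + 4 * (t + 1) * (C / k) ≤ κ ^ 3 := by
    have : 8 * C * (C / k) + 4 * (t + 1) * (C / k) = (8 * C ^ 2 + 4 * C * (t + 1)) / k := by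
      field_simp
    rw [this, div_le_iff₀ hk0]
    linarith
  have hZ : 2 * k * Zf t G R eA eB / δ ≤ 1 + 2 * (C / k) := by
    rw [div_le_iff₀ hd0]
    have a1 := htot.2
    have a2 : Zf t G R eA eB ≤ δ / (2 * k) + C / k * (δ / k) := by linarith
    calc 2 * k * Zf t G R eA eB ≤ 2 * k * (δ / (2 * k) + C / k * (δ / k)) :=
          mul_le_mul_of_nonneg_left a2 (by positivity)
      _ = (1 + 2 * (C / k)) * δ := by field_simp
  have hf0 : 0 ≤ 4 * k * I / δ := by positivity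
  have hf1 : 4 * k * I / δ ≤ 1 + 2 * (C / k) := by
    refine le_trans ?_ hZ
    refine div_le_div_of_nonneg_right ?_ hd0.le
    have := mul_le_mul_of_nonneg_left hZI (by positivity : (0 : ℝ) ≤ 2 * k)
    linarith only [this]
  have hf2 : 4 * k * I / δ ≤ 1 + κ ^ 2 := by linarith only [hf1, hq1, hq0, hκ32, sq_nonneg κ]
  -- the mass of `R`
  have hmR : k * ms R ≤ 2 * C / κ := by
    have a1 := mul_ms_le_avS (S := R) (f := ω) (c := κ / 2) h.om2
    have a2 := h.oR
    rw [le_div_iff₀ hκ]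
    have a3 := mul_le_mul_of_nonneg_left a1 hk0.le
    linarith only [a2, a3]
  have hCm : 4 * C * ms R ≤ 8 * C * (C / k) / κ := by
    have e : 8 * C * (C / k) / κ = 4 * C * (2 * C / κ) / k := by field_simp; ring
    rw [e, le_div_iff₀ hk0]
    have := mul_le_mul_of_nonneg_left hmR (by linarith : (0 : ℝ) ≤ 4 * C)
    linarith
  have hCm2 : 4 * C * ms R + 4 * (t + 1) * (C / k) ≤ κ ^ 2 := by
    have b0 : 0 ≤ 4 * (t + 1) * (C / k) := by positivity
    have b1 : 4 * (t + 1) * (C / k) ≤ 4 * (t + 1) * (C / k) / κ := by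
      rw [le_div_iff₀ hκ]
      exact mul_le_of_le_one_right b0 (by linarith only [hκ1])
    have b2 : (8 * C * (C / k) + 4 * (t + 1) * (C / k)) / κ ≤ κ ^ 2 := by
      rw [div_le_iff₀ hκ]
      calc _ ≤ κ ^ 3 := hq2
        _ = κ ^ 2 * κ := by ring
    rw [add_div] at b2
    linarith
  have hR : |k * avS R ω - (2 * t + 2 - 4 * k * I / δ)| ≤ κ ^ 2 := by
    have e : k * avS R ω - (2 * t + 2 - 4 * k * I / δ) =
        -(4 * k / δ * (Kf t G R eA eB R - δ / 4 * avS R ω)) +
          4 * k / δ * (t + 1) * (Zf t G R eA eB - δ / (2 * k)) := by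
      rw [Kf_R, ← hI]
      field_simp
      ring
    have a1 := h.kkt R le_rfl
    have a2 := h.tot
    have hp : 0 < 4 * k / δ := by positivity
    rw [e]
    refine (abs_add_le _ _).trans ?_
    rw [abs_neg, abs_mul, abs_mul, abs_of_pos hp, abs_of_pos (mul_pos hp (by positivity))]
    have c1 : 4 * k / δ * |Kf t G R eA eB R - δ / 4 * avS R ω| ≤ 4 * C * ms R := by
      refine (mul_le_mul_of_nonneg_left a1 hp.le).trans (le_of_eq ?_)
      field_simp
    have c2 : 4 * k / δ * (t + 1) * |Zf t G R eA eB - δ / (2 * k)| ≤ 4 * (t + 1) * (C / k) := by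
      refine (mul_le_mul_of_nonneg_left a2 (by positivity)).trans (le_of_eq ?_)
      field_simp
    linarith
  -- the lower bound of `D`
  have hD : 1 / 8 ≤ DD t k δ := by
    have a1 := h.ext
    have a2 := (abs_le.1 hR).1
    have e1 : -1 + -(2 * κ ^ 2) ≤ -(2 * t + 2) + k * avS R ω + cc := by
      have := h.c0
      linarith
    have e2 : Real.exp (-1) * (1 - 2 * κ ^ 2) ≤ Real.exp (-(2 * t + 2) + k * avS R ω + cc) := by
      refine le_trans ?_ (Real.exp_le_exp.2 e1)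
      rw [Real.exp_add]
      refine mul_le_mul_of_nonneg_left ?_ (Real.exp_pos _).le
      have := Real.add_one_le_exp (-(2 * κ ^ 2))
      linarith
    have e3 : (36 : ℝ) / 100 ≤ Real.exp (-1) := by
      have := Real.exp_neg_one_gt_d9
      linarith
    have e4 : (1 : ℝ) / 8 ≤ Real.exp (-(2 * t + 2) + k * avS R ω + cc) * (1 - ξ - C / k) := by
      have e5 : (35 : ℝ) / 100 ≤ Real.exp (-(2 * t + 2) + k * avS R ω + cc) := by
        refine le_trans ?_ e2
        nlinarith only [e3, hκ2, sq_nonneg κ]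
      have e6 : (49 : ℝ) / 100 ≤ 1 - ξ - C / k := by
        linarith only [hξ, hq1, hκ32, hκ2]
      nlinarith only [e5, e6]
    unfold DD
    rw [le_div_iff₀ (by positivity)]
    have hkp : (0 : ℝ) < (k : ℝ) ^ (2 * t + 1) := by positivity
    have e7 : 4 ^ (t + 1) * (1 / (k : ℝ)) ^ (2 * t + 1) *
        Real.exp (-(2 * t + 2) + k * avS R ω + cc) * (1 - ξ - C / k) * (k : ℝ) ^ (2 * t + 1) =
        4 ^ (t + 1) * (Real.exp (-(2 * t + 2) + k * avS R ω + cc) * (1 - ξ - C / k)) := by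
      rw [one_div, inv_pow]
      field_simp
    have e8 := mul_le_mul_of_nonneg_right a1 hkp.le
    rw [e7] at e8
    refine le_trans ?_ e8
    rw [mul_comm]
    exact mul_le_mul_of_nonneg_left e4 (by positivity)
  refine ⟨hf0, hf2, hR, ?_, hD⟩
  intro l hl1 hl2
  have g := h1 t k κ C V G A B R eA eB ω ξ δ cc hκ h
  have g' := h1 t k κ C V G B A R eB eA ω ξ δ cc hκ h.swap
  classical
  let bA : (Fin (2 * t + 2) → V) → ℝ := fun y =>
    if eA (y 0) ≤ 2 * κ ∧ eA (y (Fin.last (2 * t + 1))) ≤ 2 * κ then 1 else 0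
  let bB : (Fin (2 * t + 2) → V) → ℝ := fun y =>
    if eB (y 0) ≤ 2 * κ ∧ eB (y (Fin.last (2 * t + 1))) ≤ 2 * κ then 1 else 0
  have bA0 : ∀ y, 0 ≤ bA y := fun y => by
    simp only [bA]; split_ifs <;> norm_num
  have bA1 : ∀ y, bA y ≤ 1 := fun y => by
    simp only [bA]; split_ifs <;> norm_num
  have bB0 : ∀ y, 0 ≤ bB y := fun y => by
    simp only [bB]; split_ifs <;> norm_num
  have bB1 : ∀ y, bB y ≤ 1 := fun y => by
    simp only [bB]; split_ifs <;> norm_num
  have hVR : Vl t G R A B l ⊆ R := fun x hx => hx.1.mem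
  have hKf : Kf t G R eA eB (Vl t G R A B l) ≤ 1 / 2 * Zf t G R eA eB +
      1 / 2 * PS G R (2 * t + 2) (fun y => wC t eA y * bA y + wC t eB y * bB y) := by
    refine Kf_le_add h.eA0 h.eB0 ?_ ?_ ?_
    · intro y hy
      apply vis_le_of_unique
      intro i j hi hj
      apply Fin.ext
      have a1 := g.i4 y hy i l hi
      have a2 := g.i4 y hy j l hj
      omega
    · exact vis_bd g hl1 hl2 bA0 fun y hs => if_pos hs
    · have e : Vl t G R A B l = Vl t G R B A (2 * t + 2 - l) := Vl_swap (by omega)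
      rw [e]
      exact vis_bd g' (by omega) (by omega) bB0 fun y hs => if_pos hs
  -- the small set
  set S : Set V := {x | x ∈ R ∧ eA x ≤ 2 * κ ∧ eB x ≤ 2 * κ} with hS
  have hS' : {x | x ∈ R ∧ eB x ≤ 2 * κ ∧ eA x ≤ 2 * κ} = S := by
    ext x
    simp only [hS, Set.mem_ofPred_eq]
    tauto
  have hSR : S ⊆ R := fun x hx => hx.1
  have hmS : k * ms S ≤ 4 * t + 6 := by
    have a1 : 1 / 2 * ms S ≤ avS S ω := by
      refine mul_ms_le_avS fun x hx => ?_
      refine le_trans ?_ (h.om1 x hx.1)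
      have m1 : max (eA x) (eB x) ≤ 2 * κ := max_le hx.2.1 hx.2.2
      have m0 : 0 ≤ max (eA x) (eB x) := le_max_of_le_left (h.eA0 x)
      have m2 : C / k ≤ κ := by nlinarith only [hq1, hκ32, hκ, hκ1, sq_nonneg κ]
      have m3 : max (eA x) (eB x) + C / k ≤ 3 / 20 := by linarith only [m1, m2, hκ1]
      nlinarith only [m0, m3, hq0]
    have a2 : avS S ω ≤ avS R ω := avS_mono_set hSR fun x hx => by
      have := h.om2 x hx
      linarith
    have a3 := (abs_le.1 hR).2
    have a4 := mul_le_mul_of_nonneg_left (a1.trans a2) hk0.le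
    linarith only [a3, a4, hf0, hκ2, ht0]
  have hP : ∀ {P : ℝ}, P ≤ 2 ^ (2 * t + 1) * (2 * κ) ^ 2 * ms S ^ (2 * t + 2) →
      P ≤ 16 * κ ^ 2 * (4 * t + 6) ^ (2 * t + 2) * (δ / k) := by
    intro P hP
    refine hP.trans ?_
    have hms : ms S ≤ (4 * t + 6) / k := by
      rw [le_div_iff₀ hk0]
      linarith
    have a1 : ms S ^ (2 * t + 2) ≤ ((4 * t + 6) / k) ^ (2 * t + 2) :=
      pow_le_pow_left₀ (ms_nonneg _) hms _
    have a2 : (1 / (k : ℝ)) ^ (2 * t + 1) ≤ 8 * δ / 4 ^ (t + 1) := by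
      unfold DD at hD
      rw [le_div_iff₀ (by positivity)] at hD
      rw [le_div_iff₀ (by positivity), one_div, inv_pow, inv_mul_le_iff₀ (by positivity)]
      linarith
    calc 2 ^ (2 * t + 1) * (2 * κ) ^ 2 * ms S ^ (2 * t + 2)
        ≤ 2 ^ (2 * t + 1) * (2 * κ) ^ 2 * ((4 * t + 6) / k) ^ (2 * t + 2) :=
          mul_le_mul_of_nonneg_left a1 (by positivity)
      _ = (2 ^ (2 * t + 1) * 4 * κ ^ 2 * (4 * t + 6) ^ (2 * t + 2) / k) * (1 / (k : ℝ)) ^ (2 * t + 1) := by
          rw [div_pow, one_div, inv_pow, pow_succ (k : ℝ) (2 * t + 1)]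
          field_simp
          ring
      _ ≤ (2 ^ (2 * t + 1) * 4 * κ ^ 2 * (4 * t + 6) ^ (2 * t + 2) / k) * (8 * δ / 4 ^ (t + 1)) :=
          mul_le_mul_of_nonneg_left a2 (by positivity)
      _ = 16 * κ ^ 2 * (4 * t + 6) ^ (2 * t + 2) * (δ / k) := by
          have e4 : (4 : ℝ) ^ (t + 1) = 2 ^ (2 * t + 1) * 2 := by
            rw [← pow_succ, show (4 : ℝ) = 2 ^ 2 by norm_num, ← pow_mul]
            congr 1
          rw [e4]
          field_simp
          ring
  have hPA := hP (small_ends g h.eA0 hκ bA1 fun y hs => if_neg hs)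
  have hPB := hP (P := PS G R (2 * t + 2) (fun y => wC t eB y * bB y)) (by
    rw [← hS']
    exact small_ends g' h.eB0 hκ bB1 fun y hs => if_neg hs)
  have hkkt := (abs_le.1 (h.kkt (Vl t G R A B l) hVR)).1
  rw [PS_add] at hKf
  have hmV : ms (Vl t G R A B l) ≤ ms R := ms_mono hVR
  have hfin : δ / 4 * avS (Vl t G R A B l) ω ≤ 1 / 2 * Zf t G R eA eB +
      16 * κ ^ 2 * (4 * t + 6) ^ (2 * t + 2) * (δ / k) + C / k * δ * ms R := by
    have : C / k * δ * ms (Vl t G R A B l) ≤ C / k * δ * ms R :=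
      mul_le_mul_of_nonneg_left hmV (by positivity)
    linarith
  have hp : 0 < 4 * k / δ := by positivity
  have hfin2 := mul_le_mul_of_nonneg_left hfin hp.le
  have e1 : 4 * k / δ * (δ / 4 * avS (Vl t G R A B l) ω) = k * avS (Vl t G R A B l) ω := by
    field_simp
  have e2 : 4 * k / δ * (1 / 2 * Zf t G R eA eB + 16 * κ ^ 2 * (4 * t + 6) ^ (2 * t + 2) * (δ / k) +
      C / k * δ * ms R) = 2 * k * Zf t G R eA eB / δ + 64 * κ ^ 2 * (4 * t + 6) ^ (2 * t + 2) +
      4 * C * ms R := by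
    field_simp
    ring
  rw [e1, e2] at hfin2
  have b0 : 0 ≤ 4 * (t + 1) * (C / k) := by positivity
  linarith only [hfin2, hZ, hCm2, b0, hq1, hκ32, sq_nonneg κ]

end Pool.Agent.OCX
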