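import Pool.Agent.OCX.Asm
import Pool.Agent.OCX.MainH
import Pool.Agent.OCX.ALP
import Pool.Agent.OCX.BAL
import Pool.Agent.OCX.BAS
import Pool.Agent.OCX.BAS1
import Pool.Agent.OCX.BLA
import Pool.Agent.OCX.BOO
import Pool.Agent.OCX.BUE
import Pool.Agent.OCX.CMA
import Pool.Agent.OCX.CMX
import Pool.Agent.OCX.CST
import Pool.Agent.OCX.CYW
import Pool.Agent.OCX.EMB
import Pool.Agent.OCX.EVC
import Pool.Agent.OCX.EX1
import Pool.Agent.OCX.EX2
import Pool.Agent.OCX.EX2A
import Pool.Agent.OCX.EX2B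
import Pool.Agent.OCX.EX3A
import Pool.Agent.OCX.EX3B
import Pool.Agent.OCX.EX4
import Pool.Agent.OCX.EX5
import Pool.Agent.OCX.EXP
import Pool.Agent.OCX.FB
import Pool.Agent.OCX.FEX
import Pool.Agent.OCX.FLX
import Pool.Agent.OCX.FRE
import Pool.Agent.OCX.GM1
import Pool.Agent.OCX.GM2
import Pool.Agent.OCX.GRA
import Pool.Agent.OCX.GRB
import Pool.Agent.OCX.INJ
import Pool.Agent.OCX.LBL
import Pool.Agent.OCX.LOW
import Pool.Agent.OCX.LWA
import Pool.Agent.OCX.MCO
import Pool.Agent.OCX.OCW
import Pool.Agent.OCX.ODD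
import Pool.Agent.OCX.PKT
import Pool.Agent.OCX.RCA
import Pool.Agent.OCX.RCT
import Pool.Agent.OCX.REA
import Pool.Agent.OCX.REM
import Pool.Agent.OCX.SM
import Pool.Agent.OCX.SPA
import Pool.Agent.OCX.SPB
import Pool.Agent.OCX.SPC
import Pool.Agent.OCX.SPT
import Pool.Agent.OCX.ST2
import Pool.Agent.OCX.TI
import Pool.Agent.OCX.TJ
import Pool.Agent.OCX.TK
import Pool.Agent.OCX.TM
import Pool.Agent.OCX.TN
import Pool.Agent.OCX.TO
import Pool.Agent.OCX.TO1
import Pool.Agent.OCX.TRC
import Pool.Agent.OCX.VI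
import Pool.Agent.OCX.VM

/-!
# The closed main theorem
-/

namespace Pool.Agent.OCX

theorem basC : Stmt_BAS := bas_proof bas1_proof

theorem expC : Stmt_EXP := exp_proof alp_proof

theorem mcoC : Stmt_MCO := mco_proof basC

theorem fexC : Stmt_FEX := fex_proof basC flx_proof

theorem booC : Stmt_BOO := boo_proof basC fexC expC mcoC

theorem st2C : Stmt_ST2 := st2_proof basC flx_proof booC

theorem cstC : Stmt_CST := cst_proof basC booC st2C

theorem rcaC : Stmt_RCA := rca_proof basC st2C

theorem rctC : Stmt_RCT := rct_proof basC st2C cstC rcaC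

theorem pktC : Stmt_PKT := pkt_proof basC booC st2C expC

theorem cmbC : Stmt_CMB :=
  cmb_proof (cma_proof basC booC st2C cstC rctC pktC) (cmx_proof basC booC st2C rctC pktC)

theorem vmC : Stmt_VM := vm_proof gra_proof

theorem viC : Stmt_VI := vi_proof gra_proof

theorem tiC : Stmt_TI := ti_proof vmC viC

theorem gm2C : Stmt_GM2 := gm2_proof grb_proof

theorem tjC : Stmt_TJ := tj_proof gra_proof grb_proof tiC gm2C fb_proof

theorem gm1C : Stmt_GM1 := gm1_proof gra_proof grb_proof vmC

theorem tkC : Stmt_TK := tk_proof gra_proof tiC tjC gm1C fb_proof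

theorem smC : Stmt_SM := sm_proof vmC viC tiC

theorem tmC : Stmt_TM := tm_proof gra_proof smC

theorem tnC : Stmt_TN := tn_proof gra_proof

theorem toC : Stmt_TO := to_proof to1_proof

theorem gapC : Stmt_GAP := gap_proof basC cmbC tkC

theorem coreC : Stmt_CORE := core_proof basC cmbC gapC tmC tnC toC

theorem spcC : Stmt_SPC := spc_proof spa_proof spt_proof

theorem spbC : Stmt_SPB := spb_proof spcC

theorem evcC : Stmt_EVC := evc_proof spa_proof trc_proof

theorem remC : Stmt_REM := rem_proof ocw_proof odd_proof (rea_proof evcC)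

theorem lowC : Stmt_LOW := low_proof lwa_proof

theorem balC : Stmt_BAL := bal_proof bla_proof inj_proof remC odd_proof trc_proof

theorem ex1C : Stmt_EX1 := ex1_proof (bue_proof cyw_proof) inj_proof odd_proof trc_proof

theorem ex2C : Stmt_EX2 := ex2_proof ex2a_proof ex2b_proof

theorem ex3C : Stmt_EX3 := ex3_proof (ex3a_proof cyw_proof emb_proof) (ex3b_proof cyw_proof)

theorem ex4C : Stmt_EX4 := ex4_proof cyw_proof emb_proof

theorem ex5C : Stmt_EX5 := ex5_proof cyw_proof odd_proof

theorem exaC : Stmt_EXA := exa_proof ex1C ex2C ex3C ex4C ex5C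

/-- The main theorem. -/
theorem main : MainStatement :=
  main_of coreC spbC lowC balC exaC lbl_proof fre_proof odd_proof

end Pool.Agent.OCX
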