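import Pool.Agent.OCX.Stmts
import Pool.Agent.OCX.Lib

/-!
# Assembly of the first parts
-/

open scoped BigOperators

namespace Pool.Agent.OCX

theorem cmb_proof (h1 : Stmt_CMA) (h2 : Stmt_CMX) : Stmt_CMB := by
  intro t ρ hρ hρ'
  obtain ⟨C1, hC1, H1⟩ := h1 t ρ hρ hρ'
  obtain ⟨C2, hC2, H2⟩ := h2 t ρ hρ hρ'
  refine ⟨max C1 C2, hC1.trans (le_max_left _ _), fun κ hκ hκ' => ?_⟩
  obtain ⟨k1, H1'⟩ := H1 (max C1 C2) (le_max_left _ _) κ hκ hκ'
  obtain ⟨k2, H2'⟩ := H2 (max C1 C2) (le_max_right _ _) κ hκ hκ'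
  refine ⟨max k1 k2, fun k hk V _ G ν γ δ ξ u v hξ hs hr => ⟨?_, ?_⟩⟩
  · exact H1' k ((le_max_left _ _).trans hk) V G ν γ δ ξ u v hξ hs hr
  · exact H2' k ((le_max_right _ _).trans hk) V G ν γ δ ξ u v hξ hs hr

theorem gap_proof (h1 : Stmt_BAS) (h2 : Stmt_CMB) (h3 : Stmt_TK) : Stmt_GAP := by
  intro t
  obtain ⟨K, hK, κs, hκs, H3⟩ := h3 t
  refine ⟨min κs (1 / 20), lt_min hκs (by norm_num), fun κ hκ hκ' => ?_⟩
  have hκs' : κ ≤ κs := hκ'.trans (min_le_left _ _)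
  have hκ20 : κ ≤ 1 / 20 := hκ'.trans (min_le_right _ _)
  have hKpos : 0 < K := lt_of_lt_of_le one_pos hK
  set κ0 : ℝ := κ / 2 with hκ0
  set κ1 : ℝ := κ0 / K with hκ1
  have hκ0pos : 0 < κ0 := by positivity
  have hκ1pos : 0 < κ1 := by positivity
  have hκ1le : κ1 ≤ κ0 := div_le_self hκ0pos.le hK
  have hκ0le : κ0 ≤ κ := by rw [hκ0]; linarith
  have hκ1s : κ1 ≤ 1 / 20 := by linarith
  have hK1 : K * κ1 ≤ κ0 := by
    rw [hκ1]
    field_simp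
    exact le_refl _
  obtain ⟨C, hC, H2⟩ := h2 t (κ1 / 2) (by positivity) (by linarith)
  obtain ⟨kC, H2'⟩ := H2 κ1 hκ1pos hκ1s
  obtain ⟨kT, H3'⟩ := H3 κ1 κ0 hκ1pos hK1 (by linarith) C
  obtain ⟨kB, H1'⟩ := h1 t κ1 hκ1pos hκ1s
  obtain ⟨k3, hk3⟩ := exists_nat_ge (C / κ0)
  refine ⟨κ1 ^ 2, by positivity, max (max kC kT) (max kB (max k3 1)), ?_⟩
  intro k hk V _ G ν γ δ ξ u v hξ hs x
  have hkC : kC ≤ k := ((le_max_left _ _).trans (le_max_left _ _)).trans hk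
  have hkT : kT ≤ k := ((le_max_right _ _).trans (le_max_left _ _)).trans hk
  have hkB : kB ≤ k := ((le_max_left _ _).trans (le_max_right _ _)).trans hk
  have hk3' : k3 ≤ k := ((le_max_left _ _).trans ((le_max_right _ _).trans (le_max_right _ _))).trans hk
  have hk1 : 1 ≤ k := ((le_max_right _ _).trans ((le_max_right _ _).trans (le_max_right _ _))).trans hk
  have hξ2 : ξ ≤ 1 / 2 := by nlinarith
  have hkpos : (0 : ℝ) < k := by exact_mod_cast hk1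
  have hCk : C / k ≤ κ0 := by
    rw [div_le_iff₀ hkpos]
    have : C / κ0 ≤ k := hk3.trans (by exact_mod_cast hk3')
    rw [div_le_iff₀ hκ0pos] at this
    linarith
  have hb := H1' k hkB V G ν γ δ ξ u v hξ2 hs
  have hc := H2' k hkC V G ν γ δ ξ u v hξ2 hs (fun x hx => (hb.Rpos x hx).2.2)
  obtain ⟨hc, he⟩ := hc
  have t1 := H3' k hkT V G _ _ _ _ _ _ ξ δ _ hξ hc
  have t2 := H3' k hkT V G _ _ _ _ _ _ ξ δ _ hξ hc.swap
  rcases hb.cor.cov x with hx | hx | hx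
  · right; left
    have : 1 - κ1 ≤ u x := hx
    linarith
  · right; right
    have : 1 - κ1 ≤ v x := hx
    linarith
  · have e1 := he.uR x hx
    have e2 := he.vR x hx
    rw [abs_le] at e1 e2
    by_cases hA : κ0 < ee G ν (cA κ1 u) u x
    · right; right
      have := t1 x hx hA
      linarith
    · by_cases hB : κ0 < ee G ν (cA κ1 v) v x
      · right; left
        have := t2 x hx hB
        linarith
      · left
        push Not at hA hB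
        constructor <;> linarith

theorem core_proof (h1 : Stmt_BAS) (h2 : Stmt_CMB) (h3 : Stmt_GAP) (h4 : Stmt_TM) (h5 : Stmt_TN)
    (h6 : Stmt_TO) : Stmt_CORE := by
  intro t
  obtain ⟨κg, hκg, H3⟩ := h3 t
  obtain ⟨C, hC, H2⟩ := h2 t (1 / 2) (by norm_num) (by norm_num)
  obtain ⟨K0, hK0, κm, hκm, H4⟩ := h4 t
  obtain ⟨K1, hK1, κn, hκn, H5⟩ := h5 t C K0
  obtain ⟨κo, hκo, H6⟩ := h6 t C K0 K1
  set κ : ℝ := min (min κg κm) (min (min κn κo) (1 / 20)) with hκdef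
  have hκ : 0 < κ := lt_min (lt_min hκg hκm) (lt_min (lt_min hκn hκo) (by norm_num))
  have hκ1 : κ ≤ κg := (min_le_left _ _).trans (min_le_left _ _)
  have hκ2 : κ ≤ κm := (min_le_left _ _).trans (min_le_right _ _)
  have hκ3 : κ ≤ κn := (min_le_right _ _).trans ((min_le_left _ _).trans (min_le_left _ _))
  have hκ4 : κ ≤ κo := (min_le_right _ _).trans ((min_le_left _ _).trans (min_le_right _ _))
  have hκ5 : κ ≤ 1 / 20 := (min_le_right _ _).trans (min_le_right _ _)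
  clear_value κ
  obtain ⟨ξ0, hξ0, kg, H3'⟩ := H3 κ hκ hκ1
  obtain ⟨kc, H2'⟩ := H2 κ hκ hκ5
  obtain ⟨km, H4'⟩ := H4 κ hκ hκ2 C
  obtain ⟨kn, H5'⟩ := H5 κ hκ hκ3
  obtain ⟨ko, H6'⟩ := H6 κ hκ hκ4
  obtain ⟨kb, H1'⟩ := h1 t κ hκ hκ5
  obtain ⟨k3, hk3⟩ := exists_nat_ge (C / κ)
  refine ⟨min ξ0 (κ ^ 2), lt_min hξ0 (by positivity),
    max (max (max kg kc) (max km kn)) (max (max ko kb) (max k3 1)), ?_⟩
  intro k hk V _ G ν γ δ ξ u v hξ hs
  simp only [max_le_iff] at hk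
  obtain ⟨⟨⟨hkg, hkc⟩, ⟨hkm, hkn⟩⟩, ⟨⟨hko, hkb⟩, ⟨hk3', hk1⟩⟩⟩ := hk
  have hξ1 : ξ ≤ ξ0 := hξ.trans (min_le_left _ _)
  have hξ2 : ξ ≤ κ ^ 2 := hξ.trans (min_le_right _ _)
  have hξ3 : ξ ≤ 1 / 2 := by nlinarith
  have hkpos : (0 : ℝ) < k := by exact_mod_cast hk1
  have hCk : C / k ≤ κ := by
    rw [div_le_iff₀ hkpos]
    have : C / κ ≤ k := hk3.trans (by exact_mod_cast hk3')
    rw [div_le_iff₀ hκ] at this
    linarith
  have hgap := H3' k hkg V G ν γ δ ξ u v hξ1 hs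
  have hb := H1' k hkb V G ν γ δ ξ u v hξ3 hs
  have hsmall : ∀ x ∈ cR κ u v, u x ≤ κ ∧ v x ≤ κ := by
    intro x hx
    rcases hgap x with h | h | h
    · exact h
    · exact absurd hx.1 (not_lt.2 h)
    · exact absurd hx.2 (not_lt.2 h)
  have hom : ∀ x ∈ cR κ u v, 1 / 2 ≤ om u v x := by
    intro x hx
    obtain ⟨a1, a2⟩ := hsmall x hx
    obtain ⟨b1, b2, -⟩ := hb.Rpos x hx
    unfold om
    have c1 : u x - v x ≤ κ := by linarith
    have c2 : -κ ≤ u x - v x := by linarith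
    nlinarith [abs_le.2 ⟨c2, c1⟩, sq_abs (u x - v x), abs_nonneg (u x - v x)]
  obtain ⟨hc, he⟩ := H2' k hkc V G ν γ δ ξ u v hξ3 hs hom
  have hends : ∀ x ∈ cR κ u v, ee G ν (cA κ u) u x ≤ 2 * κ ∧ ee G ν (cA κ v) v x ≤ 2 * κ := by
    intro x hx
    have e1 := he.uR x hx
    have e2 := he.vR x hx
    rw [abs_le] at e1 e2
    obtain ⟨a1, a2⟩ := hsmall x hx
    constructor <;> linarith
  have hstc := H4' k hkm V G _ _ _ _ _ _ ξ δ _ hξ2 hc hends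
  have hn1 := H5' k hkn V G ν δ ξ _ u v hc he hsmall hstc
  have hn2 := H5' k hkn V G ν δ ξ (cost k G (cA κ u) (cA κ v) (fun x => u x + v x)) v u
    (by
      have := hc.swap
      rw [cR_comm κ u v, om_comm u v] at this
      exact this) he.swap
    (by
      intro x hx
      rw [cR_comm] at hx
      exact (hsmall x hx).symm)
    (by
      have := hstc.swap
      rw [cR_comm κ u v] at this
      exact this)
  refine H6' k hko V G ν δ ξ _ u v hc he hsmall hstc hn1 ?_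
  intro z hz x hx hzx
  have key := hn2 z hz x (by rw [cR_comm]; exact hx) hzx
  rw [Vl_swap (by omega), show 2 * t + 2 - (2 * t + 1) = 1 by omega, cR_comm] at key
  exact key

theorem NB.mono {t k n : ℕ} {c ε ε' τ : ℝ} {G : SimpleGraph (Fin n)} {F : Fin n → Fin (2 * t + 5)}
    (h : NB t k c ε τ G F) (hε : ε ≤ ε') : NB t k c ε' τ G F where
  cl := h.cl
  mis := h.mis.trans (mul_le_mul_of_nonneg_right hε (by positivity))
  bad := h.bad.trans (mul_le_mul_of_nonneg_right hε (by positivity))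
  bal := fun x => (h.bal x).trans hε

theorem Bal.mono {t k n : ℕ} {ε ε' : ℝ} {G : SimpleGraph (Fin n)} {S : Finset (Fin n)}
    {H : SimpleGraph (Fin n)} (h : Bal t k ε G S H) (hε : ε ≤ ε') : Bal t k ε' G S H where
  le := h.le
  sm := h.sm.trans (mul_le_mul_of_nonneg_right hε (by positivity))
  ed := h.ed.trans (mul_le_mul_of_nonneg_right hε (by positivity))
  ne := h.ne
  og := h.og
  ba := fun x => (h.ba x).trans hε
  op := fun G' hG' => by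
    have := h.op G' hG'
    linarith

theorem ex3_proof (h1 : Stmt_EX3A) (h2 : Stmt_EX3B) : Stmt_EX3 := by
  intro t k c θ hk hk5 hc hθ
  obtain ⟨ε1, hε1, n1, H2⟩ := h2 t k c θ hk hk5 hc hθ
  obtain ⟨ε2, hε2, n2, H1⟩ := h1 t c ε1 hc hε1
  refine ⟨min ε1 ε2, lt_min hε1 hε2, max n1 n2, ?_⟩
  intro n hn G hG τ F hF hz
  have hF1 : NB t k c ε1 τ G F := hF.mono (min_le_left _ _)
  have hF2 : NB t k c ε2 τ G F := hF.mono (min_le_right _ _)
  have H1' := H1 n ((le_max_right _ _).trans hn) G F hG hF2.cl hF2.mis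
  choose F' hF' using H1'
  refine ⟨F', fun z j hj => ?_⟩
  refine H2 n ((le_max_left _ _).trans hn) G τ F hF1 z (F' z) (hF' z) ?_ j hj
  have := hz z
  have := min_le_left ε1 ε2
  linarith

theorem exa_proof (h1 : Stmt_EX1) (h2 : Stmt_EX2) (h3 : Stmt_EX3) (h4 : Stmt_EX4)
    (h5 : Stmt_EX5) : Stmt_EXA := by
  intro t k c hk hk5 hc
  have hc2 : 0 < c / 2 := by positivity
  obtain ⟨θ4, hθ4, ε4, hε4, n4, H4⟩ := h4 t k (c / 2) hc2
  obtain ⟨ε3, hε3, n3, H3⟩ := h3 t k (c / 2) θ4 hk hk5 hc2 hθ4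
  obtain ⟨ε2, hε2, n2, H2⟩ := h2 t k (c / 2) ε3 hk hk5 hc2 hε3
  have hε : 0 < min (min ε2 ε3) ε4 := lt_min (lt_min hε2 hε3) hε4
  obtain ⟨ε, hεp, n1, H1⟩ := h1 t k c (min (min ε2 ε3) ε4) hk hk5 hc hε
  refine ⟨ε, hεp, max (max n1 n2) (max n3 n4), ?_⟩
  intro n hn G hG S H hB f hf hm
  simp only [max_le_iff] at hn
  obtain ⟨⟨hn1, hn2⟩, ⟨hn3, hn4⟩⟩ := hn
  obtain ⟨τ, F, hF⟩ := H1 n hn1 G hG S H hB f hf hm
  have hF2 : NB t k (c / 2) ε2 τ G F :=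
    hF.mono ((min_le_left _ _).trans (min_le_left _ _))
  have hF3 : NB t k (c / 2) ε3 τ G F :=
    hF.mono ((min_le_left _ _).trans (min_le_right _ _))
  have hF4 : NB t k (c / 2) ε4 τ G F := hF.mono (min_le_right _ _)
  have hz := H2 n hn2 G hG τ F hF2
  obtain ⟨F', hF'⟩ := H3 n hn3 G hG.1 τ F hF3 hz
  obtain ⟨g1, g2⟩ := H4 n hn4 G hG.1 τ F F' hF4 hF'
  exact ⟨F', h5 t k n G F' hk hk5 hG g1 g2⟩

end Pool.Agent.OCX
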