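import Pool.Agent.OCX.Defs

/-!
# Basic lemmas: reachability, parity, reversal of paths, symmetry `A ↔ B`
-/

open scoped BigOperators

namespace Pool.Agent.OCX

section

variable {V : Type} {G : SimpleGraph V} {A B R : Set V} {t : ℕ}

theorem Rch.mem : ∀ {n : ℕ} {x : V}, Rch G R A n x → x ∈ R
  | 0, _, h => h.elim
  | 1, _, h => h.1
  | _ + 2, _, h => h.1

theorem Rch.pos {n : ℕ} {x : V} (h : Rch G R A n x) : 1 ≤ n := by
  cases n with
  | zero => exact h.elim
  | succ n => omega

theorem Rch.step {n : ℕ} {x y : V} (h : Rch G R A n x) (hy : y ∈ R) (ha : G.Adj x y) :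
    Rch G R A (n + 1) y := by
  cases n with
  | zero => exact h.elim
  | succ n => exact ⟨hy, x, h, ha⟩

theorem Rch.walk : ∀ {n : ℕ} {x : V}, Rch G R A n x → ∃ a ∈ A, ∃ p : G.Walk a x, p.length = n
  | 0, _, h => h.elim
  | 1, x, h => by
    obtain ⟨-, a, ha, hx⟩ := h
    exact ⟨a, ha, SimpleGraph.Walk.cons hx.symm SimpleGraph.Walk.nil, rfl⟩
  | n + 2, x, h => by
    obtain ⟨-, y, hy, hyx⟩ := h
    obtain ⟨a, ha, p, hp⟩ := Rch.walk hy
    refine ⟨a, ha, p.concat hyx, ?_⟩
    rw [SimpleGraph.Walk.length_concat, hp]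

/-- type I paths have at least `2 t + 1` vertices -/
theorem og1 (og : OddG t G) (c : Cor G A B R) {i j : ℕ} {x : V} (h1 : Rch G R A i x)
    (h2 : Rch G R B j x) (he : Even (i + j)) : 2 * t + 2 ≤ i + j := by
  obtain ⟨a, ha, p, hp⟩ := h1.walk
  obtain ⟨b, hb, q, hq⟩ := h2.walk
  obtain ⟨z, -, w, -, h3, h4, h5⟩ := c.conAB a ha b hb
  have key := og a (p.append (q.reverse.append (SimpleGraph.Walk.cons h5.symm
    (SimpleGraph.Walk.cons h4.symm (SimpleGraph.Walk.cons h3.symm SimpleGraph.Walk.nil)))))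
  simp only [SimpleGraph.Walk.length_append, SimpleGraph.Walk.length_reverse, hp, hq,
    SimpleGraph.Walk.length_cons, SimpleGraph.Walk.length_nil] at key
  have ho : Odd (i + (j + (0 + 1 + 1 + 1))) := by
    rcases he with ⟨r, hr⟩
    exact ⟨r + 1, by omega⟩
  have := key ho
  omega

/-- type II paths (from `A` to `A`) have at least `2 t + 2` vertices -/
theorem ogA (og : OddG t G) (c : Cor G A B R) {i j : ℕ} {x : V} (h1 : Rch G R A i x)
    (h2 : Rch G R A j x) (he : Odd (i + j)) : 2 * t + 3 ≤ i + j := by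
  obtain ⟨a, ha, p, hp⟩ := h1.walk
  obtain ⟨b, hb, q, hq⟩ := h2.walk
  obtain ⟨z, -, h3, h4⟩ := c.conA b hb a ha
  have key := og a (p.append (q.reverse.append (SimpleGraph.Walk.cons h3
    (SimpleGraph.Walk.cons h4.symm SimpleGraph.Walk.nil))))
  simp only [SimpleGraph.Walk.length_append, SimpleGraph.Walk.length_reverse, hp, hq,
    SimpleGraph.Walk.length_cons, SimpleGraph.Walk.length_nil] at key
  have ho : Odd (i + (j + (0 + 1 + 1))) := by
    rcases he with ⟨r, hr⟩
    exact ⟨r + 1, by omega⟩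
  have := key ho
  omega

/-- symmetry -/
theorem Cor.swap (c : Cor G A B R) : Cor G B A R where
  dAB := fun x hx hx' => c.dAB x hx' hx
  dAR := c.dBR
  dBR := c.dAR
  cov := fun x => by
    rcases c.cov x with h | h | h
    · exact Or.inr (Or.inl h)
    · exact Or.inl h
    · exact Or.inr (Or.inr h)
  indA := c.indB
  indB := c.indA
  conA := c.conB
  conB := c.conA
  conAB := fun x hx y hy => by
    obtain ⟨z, hz, w, hw, h1, h2, h3⟩ := c.conAB y hy x hx
    exact ⟨w, hw, z, hz, h3.symm, h2.symm, h1.symm⟩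

theorem ogB (og : OddG t G) (c : Cor G A B R) {i j : ℕ} {x : V} (h1 : Rch G R B i x)
    (h2 : Rch G R B j x) (he : Odd (i + j)) : 2 * t + 3 ≤ i + j :=
  ogA og c.swap h1 h2 he

/-- closed walks through two vertices joined by a walk -/
theorem wk_no_common (og : OddG t G) {x y a : V} (p : G.Walk x y) (hp : Odd p.length)
    (hl : p.length ≤ 2 * t + 1) (h1 : G.Adj x a) : ¬ G.Adj y a := by
  intro h2
  have key := og a (SimpleGraph.Walk.cons h1.symm (p.append (SimpleGraph.Walk.cons h2
    SimpleGraph.Walk.nil)))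
  simp only [SimpleGraph.Walk.length_append, SimpleGraph.Walk.length_cons,
    SimpleGraph.Walk.length_nil] at key
  have ho : Odd (p.length + (0 + 1) + 1) := by
    rcases hp with ⟨r, hr⟩
    exact ⟨r + 1, by omega⟩
  have := key ho
  omega

theorem wk_no_edge (og : OddG t G) {x y a b : V} (p : G.Walk x y) (hp : Even p.length)
    (hl : p.length ≤ 2 * t) (h1 : G.Adj x b) (h2 : G.Adj y a) : ¬ G.Adj b a := by
  intro h3
  have key := og b (SimpleGraph.Walk.cons h1.symm (p.append (SimpleGraph.Walk.cons h2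
    (SimpleGraph.Walk.cons h3.symm SimpleGraph.Walk.nil))))
  simp only [SimpleGraph.Walk.length_append, SimpleGraph.Walk.length_cons,
    SimpleGraph.Walk.length_nil] at key
  have ho : Odd (p.length + (0 + 1 + 1) + 1) := by
    rcases hp with ⟨r, hr⟩
    exact ⟨r + 1, by omega⟩
  have := key ho
  omega

/-- the sets `V_l`, `1 ≤ l ≤ 2 t + 1`, are disjoint -/
theorem Vl_disj (og : OddG t G) (c : Cor G A B R) {l l' : ℕ} {x : V} (h : x ∈ Vl t G R A B l)
    (h' : x ∈ Vl t G R A B l') : l = l' := by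
  obtain ⟨h1, h2⟩ := h
  obtain ⟨h3, h4⟩ := h'
  have hl := h1.pos
  have hl' := h3.pos
  have hm := h2.pos
  have hm' := h4.pos
  rcases Nat.even_or_odd (l + l') with he | ho
  · have e1 : Even (2 * t + 2 - l' + l) := by
      rcases he with ⟨r, hr⟩
      exact ⟨t + 1 + r - l', by omega⟩
    have e2 : Even (2 * t + 2 - l + l') := by
      rcases he with ⟨r, hr⟩
      exact ⟨t + 1 + r - l, by omega⟩
    have a1 := og1 og c h4 h1 e1
    have a2 := og1 og c h2 h3 e2
    omega
  · have a1 := ogB og c h1 h3 ho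
    have e2 : Odd (2 * t + 2 - l + (2 * t + 2 - l')) := by
      rcases ho with ⟨r, hr⟩
      exact ⟨2 * t + 1 - r, by omega⟩
    have a2 := ogA og c h2 h4 e2
    omega

/-! ### paths -/

theorem IsP.rch {m : ℕ} {y : Fin (m + 1) → V} (hy : IsP G R y) (h0 : ∃ a ∈ A, G.Adj (y 0) a) :
    ∀ (n : ℕ) (hn : n < m + 1), Rch G R A (n + 1) (y ⟨n, hn⟩) := by
  intro n
  induction n with
  | zero =>
    intro hn
    exact ⟨hy.1 _, h0⟩
  | succ n ih =>
    intro hn
    exact (ih (by omega)).step (hy.1 _) (hy.2 _ _ rfl)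

theorem IsP.rev {m : ℕ} {y : Fin m → V} (hy : IsP G R y) : IsP G R (fun i => y i.rev) := by
  refine ⟨fun i => hy.1 _, fun i j hij => ?_⟩
  refine (hy.2 _ _ ?_).symm
  rw [Fin.val_rev, Fin.val_rev]
  omega

theorem isP_rev {m : ℕ} {y : Fin m → V} : IsP G R (fun i => y i.rev) ↔ IsP G R y := by
  constructor
  · intro h
    have := h.rev
    simpa using this
  · exact IsP.rev

theorem IsP.rch_last {m : ℕ} {y : Fin (m + 1) → V} (hy : IsP G R y)
    (h0 : ∃ a ∈ A, G.Adj (y (Fin.last m)) a) (n : ℕ) (hn : n < m + 1) :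
    Rch G R A (m + 1 - n) (y ⟨n, hn⟩) := by
  have h1 : ∃ a ∈ A, G.Adj ((fun i : Fin (m + 1) => y i.rev) 0) a := by
    simpa using h0
  have h2 := hy.rev.rch h1 (m - n) (by omega)
  have e1 : (m - n) + 1 = m + 1 - n := by omega
  have e2 : (Fin.rev ⟨m - n, by omega⟩ : Fin (m + 1)) = ⟨n, hn⟩ := by
    apply Fin.ext
    rw [Fin.val_rev]
    simp only
    omega
  rw [e1] at h2
  simp only [e2] at h2
  exact h2

/-- walk between two vertices of a path -/
theorem IsP.walk {m : ℕ} {y : Fin m → V} (hy : IsP G R y) (i : ℕ) :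
    ∀ (n : ℕ) (h : i + n < m), ∃ p : G.Walk (y ⟨i, by omega⟩) (y ⟨i + n, h⟩), p.length = n := by
  intro n
  induction n with
  | zero =>
    intro h
    exact ⟨SimpleGraph.Walk.nil, rfl⟩
  | succ n ih =>
    intro h
    obtain ⟨p, hp⟩ := ih (by omega)
    refine ⟨p.concat (hy.2 ⟨i + n, by omega⟩ ⟨i + (n + 1), h⟩ (by simp only; omega)), ?_⟩
    rw [SimpleGraph.Walk.length_concat, hp]

/-- every `Rch` comes from a path -/
theorem Rch.path : ∀ {m : ℕ} {x : V}, Rch G R A (m + 1) x →
    ∃ y : Fin (m + 1) → V, IsP G R y ∧ (∃ a ∈ A, G.Adj (y 0) a) ∧ y (Fin.last m) = x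
  | 0, x, h => by
    refine ⟨fun _ => x, ⟨fun _ => h.1, fun i j hij => ?_⟩, h.2, rfl⟩
    have := i.2
    have := j.2
    omega
  | m + 1, x, h => by
    obtain ⟨hx, z, hz, hzx⟩ := h
    obtain ⟨y, hy, h0, hl⟩ := Rch.path hz
    refine ⟨Fin.snoc y x, ⟨fun i => ?_, fun i j hij => ?_⟩, ?_, ?_⟩
    · refine Fin.lastCases ?_ (fun i => ?_) i
      · rw [Fin.snoc_last]; exact hx
      · rw [Fin.snoc_castSucc]; exact hy.1 i
    · revert hij
      refine Fin.lastCases ?_ (fun j => ?_) j
      · intro hij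
        have hi : i = Fin.castSucc (Fin.last m) := by
          apply Fin.ext
          simp only [Fin.val_last] at hij
          simp only [Fin.val_castSucc, Fin.val_last]
          omega
        rw [hi, Fin.snoc_last, Fin.snoc_castSucc, hl]
        exact hzx
      · intro hij
        have hi' : (i : ℕ) < m + 1 := by
          have := j.2
          simp only [Fin.val_castSucc] at hij
          omega
        have hi : i = Fin.castSucc ⟨i, hi'⟩ := by
          apply Fin.ext
          rfl
        rw [hi, Fin.snoc_castSucc, Fin.snoc_castSucc]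
        refine hy.2 _ _ ?_
        simpa using hij
    · obtain ⟨a, ha, h1⟩ := h0
      refine ⟨a, ha, ?_⟩
      have : (Fin.snoc y x : Fin (m + 2) → V) 0 = y 0 := by
        have : (0 : Fin (m + 2)) = Fin.castSucc 0 := rfl
        rw [this, Fin.snoc_castSucc]
      rw [this]
      exact h1
    · rw [Fin.snoc_last]

end

section

variable {V : Type} [Fintype V] {G : SimpleGraph V} {A B R : Set V} {t : ℕ}

theorem PS_congr {m : ℕ} {F F' : (Fin m → V) → ℝ} (h : ∀ y, IsP G R y → F y = F' y) :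
    PS G R m F = PS G R m F' := by
  unfold PS
  congr 1
  refine Finset.sum_congr rfl fun y _ => ?_
  by_cases hy : IsP G R y
  · rw [Set.indicator_of_mem (show y ∈ {y | IsP G R y} from hy),
      Set.indicator_of_mem (show y ∈ {y | IsP G R y} from hy), h y hy]
  · rw [Set.indicator_of_notMem (show y ∉ {y | IsP G R y} from hy),
      Set.indicator_of_notMem (show y ∉ {y | IsP G R y} from hy)]

theorem PS_rev {m : ℕ} (F : (Fin m → V) → ℝ) :
    PS G R m (fun y => F fun i => y i.rev) = PS G R m F := by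
  unfold PS
  congr 1
  refine Fintype.sum_equiv (Equiv.arrowCongr Fin.revPerm (Equiv.refl V)) _ _ fun y => ?_
  have e : (Equiv.arrowCongr Fin.revPerm (Equiv.refl V)) y = fun i => y i.rev := by
    funext i
    simp [Equiv.arrowCongr]
  rw [e]
  by_cases hy : IsP G R y
  · rw [Set.indicator_of_mem (show y ∈ {y | IsP G R y} from hy),
      Set.indicator_of_mem (show (fun i => y i.rev) ∈ {y | IsP G R y} from hy.rev)]
  · rw [Set.indicator_of_notMem (show y ∉ {y | IsP G R y} from hy),
      Set.indicator_of_notMem (show (fun i => y i.rev) ∉ {y | IsP G R y} from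
        fun h => hy (isP_rev.1 h))]

omit [Fintype V] in
theorem vis_rev (S : Set V) {m : ℕ} (y : Fin m → V) : vis S (fun i => y i.rev) = vis S y := by
  unfold vis
  exact Fintype.sum_equiv Fin.revPerm _ _ fun i => rfl

omit [Fintype V] in
theorem vis_nonneg (S : Set V) {m : ℕ} (y : Fin m → V) : 0 ≤ vis S y :=
  Finset.sum_nonneg fun _ _ => Set.indicator_nonneg (fun _ _ => zero_le_one) _

omit [Fintype V] in
theorem wI_rev (eA eB : V → ℝ) (y : Fin (2 * t + 1) → V) :
    wI t eA eB (fun i => y i.rev) = wI t eB eA y := by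
  unfold wI
  have e1 : (0 : Fin (2 * t + 1)).rev = Fin.last (2 * t) := Fin.rev_zero _
  have e2 : (Fin.last (2 * t)).rev = 0 := Fin.rev_last _
  simp only [e1, e2]
  ring

omit [Fintype V] in
theorem wC_rev (e : V → ℝ) (y : Fin (2 * t + 2) → V) :
    wC t e (fun i => y i.rev) = wC t e y := by
  unfold wC
  have e1 : (0 : Fin (2 * t + 2)).rev = Fin.last (2 * t + 1) := Fin.rev_zero _
  have e2 : (Fin.last (2 * t + 1)).rev = 0 := Fin.rev_last _
  simp only [e1, e2]
  ring

theorem Kf_swap (eA eB : V → ℝ) (S : Set V) : Kf t G R eB eA S = Kf t G R eA eB S := by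
  have e1 : PS G R (2 * t + 1) (fun y => wI t eB eA y * vis S y) =
      PS G R (2 * t + 1) (fun y => wI t eA eB y * vis S y) := by
    rw [← PS_rev (fun y => wI t eA eB y * vis S y)]
    refine PS_congr fun y _ => ?_
    rw [vis_rev, wI_rev]
  have e2 : PS G R (2 * t + 2) (fun y => (wC t eB y + wC t eA y) * vis S y) =
      PS G R (2 * t + 2) (fun y => (wC t eA y + wC t eB y) * vis S y) :=
    PS_congr fun y _ => by rw [add_comm (wC t eB y)]
  unfold Kf
  rw [e1, e2]

theorem Zf_swap (eA eB : V → ℝ) : Zf t G R eB eA = Zf t G R eA eB := by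
  have e1 : PS G R (2 * t + 1) (wI t eB eA) = PS G R (2 * t + 1) (wI t eA eB) := by
    rw [← PS_rev (wI t eA eB)]
    refine PS_congr fun y _ => ?_
    rw [wI_rev]
  have e2 : PS G R (2 * t + 2) (fun y => wC t eB y + wC t eA y) =
      PS G R (2 * t + 2) (fun y => wC t eA y + wC t eB y) :=
    PS_congr fun y _ => by rw [add_comm (wC t eB y)]
  unfold Zf
  rw [e1, e2]

/-- symmetry of the combinatorial system -/
theorem Cmb.swap {k : ℕ} {κ C ξ : ℝ} {eA eB ω : V → ℝ} {δ cc : ℝ}
    (h : Cmb t k κ C ξ G A B R eA eB ω δ cc) : Cmb t k κ C ξ G B A R eB eA ω δ cc where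
  ne := h.ne
  k1 := h.k1
  C1 := h.C1
  og := h.og
  cor := h.cor.swap
  eA0 := h.eB0
  eB0 := h.eA0
  eAp := h.eBp
  eBp := h.eAp
  sA := h.sB
  sB := h.sA
  om1 := fun x hx => by
    rw [max_comm]
    exact h.om1 x hx
  om2 := h.om2
  om3 := h.om3
  rect := fun x hx y hy h1 h2 h3 => by
    have key := h.rect y hy x hx h2 h1 (fun b hb a ha hyb hxa hba => h3 a ha b hb hxa hyb hba.symm)
    refine ⟨?_, key.2.2, key.2.1⟩
    have e : (k : ℝ) * eA x * eB y * (1 + (eA x + eB y) / 2) =
        k * eB y * eA x * (1 + (eB y + eA x) / 2) := by ring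
    rw [e]
    exact key.1
  kkt := fun S hS => by
    rw [Kf_swap]
    exact h.kkt S hS
  tot := by
    rw [Zf_swap]
    exact h.tot
  d0 := h.d0
  dC := h.dC
  c0 := h.c0
  cC := h.cC
  oR := h.oR
  ext := h.ext

end

section

variable {V : Type} [Fintype V]

/-- symmetry of the amplitude system -/
theorem Sys.swap {t k : ℕ} {ξ : ℝ} {G : SimpleGraph V} {ν γ δ : ℝ} {u v : V → ℝ}
    (h : Sys t k ξ G ν γ δ u v) : Sys t k ξ G ν γ δ v u where
  ne := h.ne
  xi := h.xi
  og := h.og
  hu := h.hv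
  hv := h.hu
  kkt := fun x => by
    have key := h.kkt x
    have e : 4 * v x * u x - δ * (1 - (v x - u x) ^ 2) =
        4 * u x * v x - δ * (1 - (u x - v x) ^ 2) := by ring
    rw [e]
    exact key
  u2 := h.v2
  v2 := h.u2
  uv := by
    rw [← h.uv]
    congr 1
    funext x
    ring
  pos := fun x => by
    rw [add_comm]
    exact h.pos x
  g0 := h.g0
  gn := h.gn
  l2 := h.l2
  del := h.del
  dsm := h.dsm
  ext := h.ext

end


section

variable {V : Type} [Fintype V] {G : SimpleGraph V} {A B R : Set V} {t k : ℕ}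

omit [Fintype V] in
theorem om_comm (u v : V → ℝ) : om u v = om v u := by
  funext x
  unfold om
  ring

omit [Fintype V] in
theorem cR_comm (κ : ℝ) (u v : V → ℝ) : cR κ u v = cR κ v u := by
  ext x
  exact and_comm

omit [Fintype V] in
theorem Vl_swap {l : ℕ} (hl : l ≤ 2 * t + 2) : Vl t G R B A l = Vl t G R A B (2 * t + 2 - l) := by
  ext x
  show (Rch G R A l x ∧ Rch G R B (2 * t + 2 - l) x) ↔
    (Rch G R B (2 * t + 2 - l) x ∧ Rch G R A (2 * t + 2 - (2 * t + 2 - l)) x)
  rw [show 2 * t + 2 - (2 * t + 2 - l) = l by omega]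
  exact and_comm

theorem Bas1.swap {κ ν γ δ : ℝ} {u v : V → ℝ} (h : Bas1 t k κ ν γ δ u v) :
    Bas1 t k κ ν γ δ v u where
  eta := h.eta
  nu := h.nu
  d0 := h.d0
  dk := h.dk
  dge := h.dge
  eps := h.eps
  gam1 := h.gam1
  gam2 := h.gam2
  phi2 := by
    have := h.phi2
    simp only [add_comm (v _)]
    exact this
  ome := by
    rw [om_comm]
    exact h.ome
  phi3 := fun x => by
    rw [add_comm]
    exact h.phi3 x
  Rpos := fun x hx => by
    rw [cR_comm] at hx
    have := h.Rpos x hx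
    rw [om_comm]
    exact ⟨this.2.1, this.1, this.2.2⟩
  phiR := fun x hx => by
    rw [cR_comm] at hx
    rw [add_comm]
    exact h.phiR x hx
  msR := by
    rw [cR_comm]
    exact h.msR

theorem Bas.swap {κ ν γ δ : ℝ} {u v : V → ℝ} (h : Bas t k κ G ν γ δ u v) :
    Bas t k κ G ν γ δ v u where
  eta := h.eta
  nu := h.nu
  d0 := h.d0
  dk := h.dk
  dge := h.dge
  eps := h.eps
  gam1 := h.gam1
  gam2 := h.gam2
  phi2 := by
    have := h.phi2
    simp only [add_comm (v _)]
    exact this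
  ome := by
    rw [om_comm]
    exact h.ome
  Rpos := fun x hx => by
    rw [cR_comm] at hx
    have := h.Rpos x hx
    rw [om_comm]
    exact ⟨this.2.1, this.1, this.2.2⟩
  msR := by
    rw [cR_comm]
    exact h.msR
  mA := by
    rw [cR_comm]
    exact h.mB
  mB := by
    rw [cR_comm]
    exact h.mA
  phi1 := fun x => by
    rw [cR_comm, add_comm (v x)]
    exact h.phi1 x
  phi0 := fun x => by
    rw [add_comm]
    exact h.phi0 x
  vA := h.uB
  uB := h.vA
  degA := h.degB
  degB := h.degA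
  cor := by
    rw [cR_comm]
    exact h.cor.swap

theorem Boo.swap {κ C ν γ δ : ℝ} {u v : V → ℝ} (h : Boo t k κ C ν γ δ u v) :
    Boo t k κ C ν γ δ v u where
  eta := h.eta
  msR := by
    rw [cR_comm]
    exact h.msR
  oR := by
    rw [cR_comm, om_comm]
    exact h.oR
  dC := h.dC

theorem St2.swap {κ C ν γ δ : ℝ} {u v : V → ℝ} (h : St2 t k κ C G ν γ δ u v) :
    St2 t k κ C G ν γ δ v u where
  boo := h.boo.swap
  mA := h.mB
  mB := h.mA
  pA := by
    have := h.pB
    simp only [add_comm (v _)]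
    exact this
  pB := by
    have := h.pA
    simp only [add_comm (v _)]
    exact this
  qA := by
    have := h.qB
    simp only [add_comm (v _)]
    exact this
  qB := by
    have := h.qA
    simp only [add_comm (v _)]
    exact this
  phi := fun x => by
    rw [add_comm]
    exact h.phi x
  omA := by
    rw [om_comm]
    exact h.omB
  omB := by
    rw [om_comm]
    exact h.omA
  vA := h.uB
  uB := h.vA
  nu := h.nu
  eu := by
    rw [cR_comm]
    exact h.ev
  ev := by
    rw [cR_comm]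
    exact h.eu
  fl := by
    rw [cR_comm]
    have := h.fl
    simp only [add_comm (v _ * _)]
    exact this

theorem Ext.swap {κ C ν δ cc : ℝ} {u v : V → ℝ} (h : Ext t k κ C G ν δ cc u v) :
    Ext t k κ C G ν δ cc v u where
  nu := h.nu
  nu2 := h.nu2
  nui := h.nui
  mA := h.mB
  mB := h.mA
  degA := h.degB
  degB := h.degA
  uR := by
    rw [cR_comm]
    exact h.vR
  vR := by
    rw [cR_comm]
    exact h.uR
  uA := h.vB
  vB := h.uA
  omA := by
    rw [om_comm]
    exact h.omB
  omB := by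
    rw [om_comm]
    exact h.omA
  vA := by
    rw [cR_comm]
    exact h.uB
  uB := by
    rw [cR_comm]
    exact h.vA
  kkt := fun x => by
    rw [om_comm, mul_comm (v x)]
    exact h.kkt x
  exu := by
    rw [cR_comm]
    exact h.exv
  exv := by
    rw [cR_comm]
    exact h.exu
  rec2 := fun X₁ X₂ Y₁ Y₂ h1 h2 h3 h4 hd h5 h6 => by
    have := h.rec2 Y₁ Y₂ X₁ X₂ h3 h4 h1 h2 hd.symm (fun b hb a ha hab => h5 a ha b hb hab.symm)
      (fun b hb a ha hab => h6 a ha b hb hab.symm)
    rw [mul_comm (avS X₁ u / ν), mul_comm (avS X₂ u / ν)]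
    exact this

theorem Stc.swap {κ K : ℝ} {eA eB : V → ℝ} {δ cc : ℝ} (h : Stc t k κ K G A B R eA eB δ cc) :
    Stc t k κ K G B A R eB eA δ cc where
  part := fun x hx => by
    obtain ⟨l, h1, h2, h3⟩ := h.part x hx
    refine ⟨2 * t + 2 - l, by omega, by omega, ?_⟩
    rw [Vl_swap (by omega), show 2 * t + 2 - (2 * t + 2 - l) = l by omega]
    exact h3
  mV1 := fun l h1 h2 => by
    rw [Vl_swap (by omega)]
    exact h.mV1 _ (by omega) (by omega)
  mV2 := fun l h1 h2 => by
    rw [Vl_swap (by omega)]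
    exact h.mV2 _ (by omega) (by omega)
  up := fun l h1 h2 x hx => by
    rw [Vl_swap (by omega)] at hx ⊢
    have e : 2 * t + 2 - l = (2 * t + 2 - (l + 1)) + 1 := by omega
    rw [e] at hx
    exact h.dn _ (by omega) (by omega) x hx
  dn := fun l h1 h2 x hx => by
    rw [Vl_swap (by omega)] at hx ⊢
    have e : 2 * t + 2 - l = (2 * t + 2 - (l + 1)) + 1 := by omega
    rw [e]
    exact h.up _ (by omega) (by omega) x hx
  pr := fun h0 x hx => by
    rw [mul_comm (eB x)]
    exact h.pr h0 x hx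
  cle := h.cle
  D1 := h.D1
  D2 := h.D2
  lA := fun x hx => by
    rw [Vl_swap (by omega), show 2 * t + 2 - (2 * t + 1) = 1 by omega] at hx
    exact h.lB x hx
  lB := fun x hx => by
    rw [Vl_swap (by omega), show 2 * t + 2 - 1 = 2 * t + 1 by omega] at hx
    exact h.lA x hx

end

end Pool.Agent.OCX
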