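import Mathlib

/-!
# Odd cycles: graphs without `C_l` maximising the number of `k`-cycles (MP_e73810_co)

Notation: `l = 2 t + 3`, `g = l + 2 = 2 t + 5`.  Definitions shared by all modules.
Recipes: /team-store/MP_e73810_OCX.md
-/

open scoped BigOperators

namespace Pool.Agent.OCX

noncomputable section

variable {V : Type} [Fintype V]

/-! ## Averages -/

/-- average of a function over all vertices -/
def av (f : V → ℝ) : ℝ := (∑ x, f x) / (Fintype.card V : ℝ)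

/-- average over all vertices of `1_S f` -/
def avS (S : Set V) (f : V → ℝ) : ℝ := av (S.indicator f)

/-- mass of a set -/
def ms (S : Set V) : ℝ := avS S fun _ => 1

/-- normalised adjacency operator -/
def Wop (G : SimpleGraph V) (f : V → ℝ) (x : V) : ℝ := avS (G.neighborSet x) f

/-- all odd closed walks have length at least `2 t + 5` -/
def OddG (t : ℕ) (G : SimpleGraph V) : Prop :=
  ∀ (x : V) (p : G.Walk x x), Odd p.length → 2 * t + 5 ≤ p.length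

/-! ## The amplitude system -/

/-- The amplitude system: `u + v` is the top eigenfunction (eigenvalue `ν + γ`), `u - v` the bottom
eigenfunction (eigenvalue `-(ν - γ)`), `kkt` says that all vertices lie on the same number of closed
`k`-walks, `ext` that the number of closed `k`-walks is at least that of the optimal blow-up. -/
structure Sys (t k : ℕ) (ξ : ℝ) (G : SimpleGraph V) (ν γ δ : ℝ) (u v : V → ℝ) : Prop where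
  ne : Nonempty V
  xi : 0 ≤ ξ
  og : OddG t G
  hu : ∀ x, Wop G u x = ν * v x + γ * u x
  hv : ∀ x, Wop G v x = ν * u x + γ * v x
  kkt : ∀ x, |4 * u x * v x - δ * (1 - (u x - v x) ^ 2)| ≤ (1 / (k : ℝ)) ^ (10 * t + 20)
  u2 : av (fun x => u x ^ 2) = 1 / 2
  v2 : av (fun x => v x ^ 2) = 1 / 2
  uv : av (fun x => u x * v x) = 0
  pos : ∀ x, 0 ≤ u x + v x
  g0 : 0 ≤ γ
  gn : γ < ν
  l2 : ν + γ ≤ 1 / 2
  del : δ = 1 - ((ν - γ) / (ν + γ)) ^ k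
  dsm : δ ^ 3 * k ≤ 1
  ext : 4 ^ (t + 1) * (1 / (k : ℝ)) ^ (2 * t + 1) *
    Real.exp (-(2 * t + 2) + 2 * k * (1 / 2 - (ν + γ))) * (1 - ξ) ≤ δ

/-- `1 - ψ ^ 2` -/
def om (u v : V → ℝ) (x : V) : ℝ := 1 - (u x - v x) ^ 2

/-- the core sets are `cA κ u` and `cA κ v` -/
def cA (κ : ℝ) (u : V → ℝ) : Set V := {x | 1 - κ ≤ u x}

/-- the rest -/
def cR (κ : ℝ) (u v : V → ℝ) : Set V := {x | u x < 1 - κ ∧ v x < 1 - κ}

/-- amplitude received from the set `A` : `eA = ee G ν (cA κ u) u`, `eB = ee G ν (cA κ v) v` -/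
def ee (G : SimpleGraph V) (ν : ℝ) (A : Set V) (u : V → ℝ) (x : V) : ℝ :=
  avS (G.neighborSet x ∩ A) u / ν

/-! ## Paths in `R` -/

/-- `y` is a path (walk) of `m` vertices in `R` -/
def IsP (G : SimpleGraph V) (R : Set V) {m : ℕ} (y : Fin m → V) : Prop :=
  (∀ i, y i ∈ R) ∧ ∀ i j : Fin m, (i : ℕ) + 1 = j → G.Adj (y i) (y j)

/-- normalised sum over the paths of `m` vertices in `R` -/
def PS (G : SimpleGraph V) (R : Set V) (m : ℕ) (F : (Fin m → V) → ℝ) : ℝ :=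
  (∑ y : Fin m → V, {y | IsP G R y}.indicator F y) / (Fintype.card V : ℝ) ^ m

/-- number of visits to `S` -/
def vis (S : Set V) {m : ℕ} (y : Fin m → V) : ℝ := ∑ i, S.indicator (fun _ => (1 : ℝ)) (y i)

/-- weight of a crossing path of type I (from `B` to `A`), `2 t + 1` vertices -/
def wI (t : ℕ) (eA eB : V → ℝ) (y : Fin (2 * t + 1) → V) : ℝ :=
  2 ^ (2 * t) * (eB (y 0) * eA (y (Fin.last (2 * t))))

/-- weight of a crossing path of type II (`e = eA`: from `A` to `A`), `2 t + 2` vertices -/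
def wC (t : ℕ) (e : V → ℝ) (y : Fin (2 * t + 2) → V) : ℝ :=
  2 ^ (2 * t + 1) * (e (y 0) * e (y (Fin.last (2 * t + 1))))

/-- `Rch G R A n x`: there is a path of `n` vertices in `R` ending at `x` whose first vertex has a
neighbour in `A` -/
def Rch (G : SimpleGraph V) (R A : Set V) : ℕ → V → Prop
  | 0, _ => False
  | 1, x => x ∈ R ∧ ∃ a ∈ A, G.Adj x a
  | n + 2, x => x ∈ R ∧ ∃ y, Rch G R A (n + 1) y ∧ G.Adj y x

/-- the vertices at position `l` of a type I path -/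
def Vl (t : ℕ) (G : SimpleGraph V) (R A B : Set V) (l : ℕ) : Set V :=
  {x | Rch G R B l x ∧ Rch G R A (2 * t + 2 - l) x}

/-- amplitude of the paths of `m` vertices in `R` starting near the core and ending at `x` -/
def aP (G : SimpleGraph V) (R : Set V) (e : V → ℝ) (m : ℕ) (x : V) : ℝ :=
  2 ^ m * (∑ y : Fin (m + 1) → V, {y | IsP G R y ∧ y (Fin.last m) = x}.indicator
    (fun y => e (y 0)) y) / (Fintype.card V : ℝ) ^ m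

/-- the same by recursion: `al G R e (m + 1) = aP G R e m` on `R` -/
def al (G : SimpleGraph V) (R : Set V) (e : V → ℝ) : ℕ → V → ℝ
  | 0 => fun _ => 0
  | 1 => R.indicator e
  | n + 2 => R.indicator fun x => 2 * avS (G.neighborSet x ∩ R) (al G R e (n + 1))

/-- connectivity of the cores -/
structure Cor (G : SimpleGraph V) (A B R : Set V) : Prop where
  dAB : ∀ x, x ∈ A → x ∉ B
  dAR : ∀ x, x ∈ A → x ∉ R
  dBR : ∀ x, x ∈ B → x ∉ R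
  cov : ∀ x, x ∈ A ∨ x ∈ B ∨ x ∈ R
  indA : ∀ x ∈ A, ∀ y ∈ A, ¬ G.Adj x y
  indB : ∀ x ∈ B, ∀ y ∈ B, ¬ G.Adj x y
  conA : ∀ x ∈ A, ∀ y ∈ A, ∃ z ∈ B, G.Adj x z ∧ G.Adj y z
  conB : ∀ x ∈ B, ∀ y ∈ B, ∃ z ∈ A, G.Adj x z ∧ G.Adj y z
  conAB : ∀ x ∈ A, ∀ y ∈ B, ∃ z ∈ B, ∃ w ∈ A, G.Adj x z ∧ G.Adj z w ∧ G.Adj w y

/-- path sums -/
def Kf (t : ℕ) (G : SimpleGraph V) (R : Set V) (eA eB : V → ℝ) (S : Set V) : ℝ :=
  PS G R (2 * t + 1) (fun y => wI t eA eB y * vis S y) +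
    1 / 2 * PS G R (2 * t + 2) (fun y => (wC t eA y + wC t eB y) * vis S y)

/-- total path sum -/
def Zf (t : ℕ) (G : SimpleGraph V) (R : Set V) (eA eB : V → ℝ) : ℝ :=
  2 * PS G R (2 * t + 1) (wI t eA eB) + PS G R (2 * t + 2) (fun y => wC t eA y + wC t eB y)

/-- The combinatorial system.  `cc` is `2 k` times the cost of the missing edges between the cores. -/
structure Cmb (t k : ℕ) (κ C ξ : ℝ) (G : SimpleGraph V) (A B R : Set V) (eA eB ω : V → ℝ)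
    (δ cc : ℝ) : Prop where
  ne : Nonempty V
  k1 : 1 ≤ k
  C1 : 1 ≤ C
  og : OddG t G
  cor : Cor G A B R
  eA0 : ∀ x, 0 ≤ eA x
  eB0 : ∀ x, 0 ≤ eB x
  eAp : ∀ x ∈ R, (0 < eA x ↔ ∃ a ∈ A, G.Adj x a)
  eBp : ∀ x ∈ R, (0 < eB x ↔ ∃ b ∈ B, G.Adj x b)
  sA : ∀ x ∈ R, ∀ y ∈ R, (∀ a ∈ A, G.Adj x a → ¬ G.Adj y a) → eA x + eA y ≤ 1 + C / k
  sB : ∀ x ∈ R, ∀ y ∈ R, (∀ b ∈ B, G.Adj x b → ¬ G.Adj y b) → eB x + eB y ≤ 1 + C / k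
  om1 : ∀ x ∈ R, 1 - (max (eA x) (eB x) + C / k) ^ 2 ≤ ω x
  om2 : ∀ x ∈ R, κ / 2 ≤ ω x
  om3 : ∀ x ∈ R, ω x ≤ 1
  rect : ∀ x ∈ R, ∀ y ∈ R, 0 < eB x → 0 < eA y →
    (∀ b ∈ B, ∀ a ∈ A, G.Adj x b → G.Adj y a → ¬ G.Adj b a) →
    k * eB x * eA y * (1 + (eB x + eA y) / 2) ≤ cc + C / k ∧ eB x ≤ 2 * κ ∧ eA y ≤ 2 * κ
  kkt : ∀ S : Set V, S ⊆ R → |Kf t G R eA eB S - δ / 4 * avS S ω| ≤ C / k * δ * ms S
  tot : |Zf t G R eA eB - δ / (2 * k)| ≤ C / k * (δ / k)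
  d0 : 0 < δ
  dC : δ ≤ C * (1 / (k : ℝ)) ^ (2 * t + 1)
  c0 : 0 ≤ cc
  cC : cc ≤ C
  oR : k * avS R ω ≤ C
  ext : 4 ^ (t + 1) * (1 / (k : ℝ)) ^ (2 * t + 1) *
    Real.exp (-(2 * t + 2) + k * avS R ω + cc) * (1 - ξ - C / k) ≤ δ

/-- crossing of type I -/
def TyI (t : ℕ) (G : SimpleGraph V) (R : Set V) (eA eB : V → ℝ) (y : Fin (2 * t + 1) → V) : Prop :=
  IsP G R y ∧ 0 < eB (y 0) ∧ 0 < eA (y (Fin.last (2 * t)))

/-- crossing of type II -/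
def TyC (t : ℕ) (G : SimpleGraph V) (R : Set V) (e : V → ℝ) (y : Fin (2 * t + 2) → V) : Prop :=
  IsP G R y ∧ 0 < e (y 0) ∧ 0 < e (y (Fin.last (2 * t + 1)))

/-- The vertices at position `j` (counted from `0`) of the type II crossings with fat start. -/
def Gj (t : ℕ) (G : SimpleGraph V) (R : Set V) (eA : V → ℝ) (κ0 : ℝ) (j : ℕ) : Set V :=
  {x | ∃ y : Fin (2 * t + 2) → V, TyC t G R eA y ∧ κ0 < eA (y 0) ∧
    ∃ h : j < 2 * t + 2, y ⟨j, h⟩ = x}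

/-- Graph facts about the crossings.  The facts for the crossings of type II from `B` to `B`
follow by symmetry (`Cmb.swap`). -/
structure Gfa (t k : ℕ) (κ C : ℝ) (G : SimpleGraph V) (A B R : Set V) (eA eB : V → ℝ)
    (cc : ℝ) : Prop where
  i1 : ∀ y, TyI t G R eA eB y →
    k * eB (y 0) * eA (y (Fin.last (2 * t))) * (1 + (eB (y 0) + eA (y (Fin.last (2 * t)))) / 2) ≤
      cc + C / k ∧ eB (y 0) ≤ 2 * κ ∧ eA (y (Fin.last (2 * t))) ≤ 2 * κ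
  i2 : ∀ y, TyI t G R eA eB y → ∀ i : Fin (2 * t + 1), (0 < (i : ℕ) → eB (y i) = 0) ∧
    ((i : ℕ) < 2 * t → eA (y i) = 0)
  i3 : ∀ y, TyI t G R eA eB y → ∀ i : Fin (2 * t + 1), y i ∈ Vl t G R A B (i + 1)
  i4 : ∀ y, TyI t G R eA eB y → ∀ (i : Fin (2 * t + 1)) (l : ℕ), y i ∈ Vl t G R A B l →
    (i : ℕ) + 1 = l
  a1 : ∀ y, TyC t G R eA y → eA (y 0) + eA (y (Fin.last (2 * t + 1))) ≤ 1 + C / k
  a2 : ∀ y, TyC t G R eA y → ∀ i, eB (y i) ≤ 2 * κ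
  a3 : ∀ y, TyC t G R eA y → ∀ i : Fin (2 * t + 2), 0 < (i : ℕ) → (i : ℕ) < 2 * t + 1 →
    eA (y i) = 0
  a4 : ∀ y, TyC t G R eA y → y 0 ≠ y (Fin.last (2 * t + 1))
  ab : ∀ x ∈ R, 0 < eA x → 0 < eB x → eA x ≤ 2 * κ ∧ eB x ≤ 2 * κ ∧ t = 0
  va : ∀ y, TyC t G R eA y → ∀ (i : Fin (2 * t + 2)) (l : ℕ), y i ∈ Vl t G R A B l →
    ((i : ℕ) = l ∧ eA (y (Fin.last (2 * t + 1))) ≤ 2 * κ) ∨
      ((i : ℕ) + 1 = 2 * t + 2 - l ∧ eA (y 0) ≤ 2 * κ)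

/-- Graph facts about the sets `Gj`. -/
structure Gfb (t : ℕ) (κ κ0 : ℝ) (G : SimpleGraph V) (R : Set V) (eA eB : V → ℝ) : Prop where
  g1 : ∀ y, TyI t G R eA eB y → ∀ (i : Fin (2 * t + 1)) (j : ℕ), y i ∈ Gj t G R eA κ0 j →
    (i : ℕ) + 1 = j
  g2 : ∀ y, TyC t G R eA y → ∀ (i : Fin (2 * t + 2)) (j : ℕ), y i ∈ Gj t G R eA κ0 j →
    ((i : ℕ) = j ∧ ∃ z, TyC t G R eA z ∧ κ0 < eA (z 0) ∧
      (∀ r : Fin (2 * t + 2), (i : ℕ) ≤ r → z r = y r)) ∨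
    ((i : ℕ) + j = 2 * t + 1 ∧ ∃ z, TyC t G R eA z ∧ κ0 < eA (z 0) ∧
      (∀ r : Fin (2 * t + 2), (r : ℕ) ≤ i → z r.rev = y r))
  g3 : ∀ y, TyC t G R eB y → ∀ (i : Fin (2 * t + 2)) (j : ℕ), y i ∈ Gj t G R eA κ0 j →
    ((i : ℕ) + 1 = j ∧ eB (y 0) ≤ 2 * κ) ∨
      ((i : ℕ) + j = 2 * t + 2 ∧ eB (y (Fin.last (2 * t + 1))) ≤ 2 * κ)

/-- The normalised amplitude `D`. -/
def DD (t k : ℕ) (δ : ℝ) : ℝ := δ * (k : ℝ) ^ (2 * t + 1) / 4 ^ (t + 1)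

/-- first consequences of the amplitude system, part 1 -/
structure Bas1 (t k : ℕ) (κ ν γ δ : ℝ) (u v : V → ℝ) : Prop where
  eta : 1 / 2 - (ν + γ) ≤ (t + 1) * Real.log k / k
  nu : 12 / 25 ≤ ν
  d0 : 0 < δ
  dk : δ ≤ κ ^ 2 / 100
  dge : (1 / (k : ℝ)) ^ (2 * t + 1) * (1 / 2) ^ (t + 2) *
    Real.exp (2 * k * (1 / 2 - (ν + γ))) ≤ δ
  eps : (1 / (k : ℝ)) ^ (10 * t + 20) ≤ δ * (1 / (k : ℝ)) ^ 2
  gam1 : δ * (ν + γ) / (2 * k) ≤ γ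
  gam2 : γ ≤ δ * (1 + δ) * (ν + γ) / (2 * k)
  phi2 : av (fun x => (u x + v x - 1) ^ 2) ≤ 4 * (1 / 2 - (ν + γ))
  ome : av (fun x => |om u v x|) ≤ 5 * Real.sqrt (1 / 2 - (ν + γ)) + 4 * δ
  phi3 : ∀ x, u x + v x ≤ 21 / 10
  Rpos : ∀ x ∈ cR κ u v, 0 < u x ∧ 0 < v x ∧ κ / 2 ≤ om u v x
  phiR : ∀ x ∈ cR κ u v, u x + v x ≤ 1 - κ / 2
  msR : ms (cR κ u v) ≤ 16 * (1 / 2 - (ν + γ)) / κ ^ 2

/-- first consequences of the amplitude system -/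
structure Bas (t k : ℕ) (κ : ℝ) (G : SimpleGraph V) (ν γ δ : ℝ) (u v : V → ℝ) : Prop where
  eta : 1 / 2 - (ν + γ) ≤ (t + 1) * Real.log k / k
  nu : 12 / 25 ≤ ν
  d0 : 0 < δ
  dk : δ ≤ κ ^ 2 / 100
  dge : (1 / (k : ℝ)) ^ (2 * t + 1) * (1 / 2) ^ (t + 2) *
    Real.exp (2 * k * (1 / 2 - (ν + γ))) ≤ δ
  eps : (1 / (k : ℝ)) ^ (10 * t + 20) ≤ δ * (1 / (k : ℝ)) ^ 2
  gam1 : δ * (ν + γ) / (2 * k) ≤ γ
  gam2 : γ ≤ δ * (1 + δ) * (ν + γ) / (2 * k)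
  phi2 : av (fun x => (u x + v x - 1) ^ 2) ≤ 4 * (1 / 2 - (ν + γ))
  ome : av (fun x => |om u v x|) ≤ 5 * Real.sqrt (1 / 2 - (ν + γ)) + 4 * δ
  Rpos : ∀ x ∈ cR κ u v, 0 < u x ∧ 0 < v x ∧ κ / 2 ≤ om u v x
  msR : ms (cR κ u v) ≤ 16 * (1 / 2 - (ν + γ)) / κ ^ 2
  mA : |ms (cA κ u) - 1 / 2| ≤ 2 * Real.sqrt (1 / 2 - (ν + γ) + ms (cR κ u v))
  mB : |ms (cA κ v) - 1 / 2| ≤ 2 * Real.sqrt (1 / 2 - (ν + γ) + ms (cR κ u v))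
  phi1 : ∀ x, u x + v x ≤ 1 + 10 * Real.sqrt (1 / 2 - (ν + γ) + ms (cR κ u v))
  phi0 : ∀ x, u x + v x ≤ 11 / 10
  vA : ∀ x ∈ cA κ u, |v x| ≤ 2 * δ
  uB : ∀ x ∈ cA κ v, |u x| ≤ 2 * δ
  degA : ∀ a ∈ cA κ u, ms (cA κ v \ G.neighborSet a) ≤ κ
  degB : ∀ b ∈ cA κ v, ms (cA κ u \ G.neighborSet b) ≤ κ
  cor : Cor G (cA κ u) (cA κ v) (cR κ u v)

/-- cost of the missing edges between `A` and `B` -/
def Mphi (G : SimpleGraph V) (A B : Set V) (φ : V → ℝ) : ℝ :=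
  avS A fun x => φ x * avS (B \ G.neighborSet x) φ

/-- variance -/
def Vr (A : Set V) (φ : V → ℝ) : ℝ := ms A * avS A (fun x => φ x ^ 2) - avS A φ ^ 2

/-- normalised cost -/
def cost (k : ℕ) (G : SimpleGraph V) (A B : Set V) (φ : V → ℝ) : ℝ :=
  2 * k * (2 * Mphi G A B φ + Vr A φ + Vr B φ)

/-- bounds after bootstrapping -/
structure Boo (t k : ℕ) (κ C : ℝ) (ν γ δ : ℝ) (u v : V → ℝ) : Prop where
  eta : 1 / 2 - (ν + γ) ≤ C / k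
  msR : ms (cR κ u v) ≤ C / k
  oR : k * avS (cR κ u v) (om u v) ≤ C
  dC : δ ≤ C * (1 / (k : ℝ)) ^ (2 * t + 1)

/-- refined bounds -/
structure St2 (t k : ℕ) (κ C : ℝ) (G : SimpleGraph V) (ν γ δ : ℝ) (u v : V → ℝ) : Prop where
  boo : Boo t k κ C ν γ δ u v
  mA : |ms (cA κ u) - 1 / 2| ≤ C / k
  mB : |ms (cA κ v) - 1 / 2| ≤ C / k
  pA : avS (cA κ u) (fun x => (u x + v x) ^ 2) ≤ 1 / 2 + C / k
  pB : avS (cA κ v) (fun x => (u x + v x) ^ 2) ≤ 1 / 2 + C / k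
  qA : 1 / 2 - C / k ≤ avS (cA κ u) (fun x => u x + v x)
  qB : 1 / 2 - C / k ≤ avS (cA κ v) (fun x => u x + v x)
  phi : ∀ x, u x + v x ≤ 1 + C / k
  omA : avS (cA κ u) (fun x => |om u v x|) ≤ C / k
  omB : avS (cA κ v) (fun x => |om u v x|) ≤ C / k
  vA : avS (cA κ u) (fun x => |v x|) ≤ C * δ / k
  uB : avS (cA κ v) (fun x => |u x|) ≤ C * δ / k
  nu : 1 / ν ≤ 2 * (1 + C / k)
  eu : ∀ x ∈ cR κ u v, |u x - (ee G ν (cA κ v) v x + avS (G.neighborSet x ∩ cR κ u v) v / ν)| ≤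
    C / k * u x
  ev : ∀ x ∈ cR κ u v, |v x - (ee G ν (cA κ u) u x + avS (G.neighborSet x ∩ cR κ u v) u / ν)| ≤
    C / k * v x
  fl : |ν * avS (cR κ u v) (fun x => u x * ee G ν (cA κ u) u x + v x * ee G ν (cA κ v) v x) - γ| ≤
    C / k * γ

/-- Additional facts at the level of the amplitudes (constant `C`). -/
structure Ext (t k : ℕ) (κ C : ℝ) (G : SimpleGraph V) (ν δ cc : ℝ) (u v : V → ℝ) : Prop where
  nu : 12 / 25 ≤ ν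
  nu2 : ν ≤ 1 / 2
  nui : 1 / ν ≤ 2 * (1 + C / k)
  mA : |ms (cA κ u) - 1 / 2| ≤ C / k
  mB : |ms (cA κ v) - 1 / 2| ≤ C / k
  degA : ∀ a ∈ cA κ u, ms (cA κ v \ G.neighborSet a) ≤ κ
  degB : ∀ b ∈ cA κ v, ms (cA κ u \ G.neighborSet b) ≤ κ
  uR : ∀ x ∈ cR κ u v, |u x - ee G ν (cA κ v) v x| ≤ C / k
  vR : ∀ x ∈ cR κ u v, |v x - ee G ν (cA κ u) u x| ≤ C / k
  uA : ∀ x ∈ cA κ u, u x ≤ 1 + C / k
  vB : ∀ x ∈ cA κ v, v x ≤ 1 + C / k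
  omA : ∀ z ∈ cA κ u, ∀ X : Set V, X ⊆ cA κ v → (∀ b ∈ X, ¬ G.Adj z b) →
    1 - (1 + C / k - avS X v / ν) ^ 2 - C / k ≤ om u v z ∧ u z ≤ 1 + C / k - avS X v / ν
  omB : ∀ z ∈ cA κ v, ∀ X : Set V, X ⊆ cA κ u → (∀ a ∈ X, ¬ G.Adj z a) →
    1 - (1 + C / k - avS X u / ν) ^ 2 - C / k ≤ om u v z ∧ v z ≤ 1 + C / k - avS X u / ν
  vA : ∀ z ∈ cA κ u, |v z - avS (G.neighborSet z ∩ cR κ u v) u / ν| ≤ C * δ / k
  uB : ∀ z ∈ cA κ v, |u z - avS (G.neighborSet z ∩ cR κ u v) v / ν| ≤ C * δ / k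
  kkt : ∀ x, |u x * v x - δ / 4 * om u v x| ≤ C * δ / k ^ 2
  exu : ∀ x ∈ cR κ u v, 0 < ee G ν (cA κ u) u x →
    u x ≤ (1 + C / k) * (aP G (cR κ u v) (ee G ν (cA κ v) v) (2 * t) x +
      aP G (cR κ u v) (ee G ν (cA κ u) u) (2 * t + 1) x) + C * (1 / (k : ℝ)) ^ (2 * t + 2)
  exv : ∀ x ∈ cR κ u v, 0 < ee G ν (cA κ v) v x →
    v x ≤ (1 + C / k) * (aP G (cR κ u v) (ee G ν (cA κ u) u) (2 * t) x +
      aP G (cR κ u v) (ee G ν (cA κ v) v) (2 * t + 1) x) + C * (1 / (k : ℝ)) ^ (2 * t + 2)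
  rec2 : ∀ X₁ X₂ Y₁ Y₂ : Set V, X₁ ⊆ cA κ v → X₂ ⊆ cA κ v → Y₁ ⊆ cA κ u → Y₂ ⊆ cA κ u →
    (Disjoint X₁ X₂ ∨ Disjoint Y₁ Y₂) → (∀ b ∈ X₁, ∀ a ∈ Y₁, ¬ G.Adj b a) →
    (∀ b ∈ X₂, ∀ a ∈ Y₂, ¬ G.Adj b a) →
    k * ((avS X₁ v / ν) * (avS Y₁ u / ν) + (avS X₂ v / ν) * (avS Y₂ u / ν)) ≤ cc + C / k

/-- The structure obtained when there is a gap (constant `K` depending only on `t`). -/
structure Stc (t k : ℕ) (κ K : ℝ) (G : SimpleGraph V) (A B R : Set V) (eA eB : V → ℝ)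
    (δ cc : ℝ) : Prop where
  part : ∀ x ∈ R, ∃ l, 1 ≤ l ∧ l ≤ 2 * t + 1 ∧ x ∈ Vl t G R A B l
  mV1 : ∀ l, 1 ≤ l → l ≤ 2 * t + 1 → (1 - K * κ) / k ≤ ms (Vl t G R A B l)
  mV2 : ∀ l, 1 ≤ l → l ≤ 2 * t + 1 → ms (Vl t G R A B l) ≤ (1 + K * κ) / k
  up : ∀ l, 1 ≤ l → l ≤ 2 * t → ∀ x ∈ Vl t G R A B l,
    (1 - K * κ) / k ≤ ms (G.neighborSet x ∩ Vl t G R A B (l + 1))
  dn : ∀ l, 1 ≤ l → l ≤ 2 * t → ∀ x ∈ Vl t G R A B (l + 1),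
    (1 - K * κ) / k ≤ ms (G.neighborSet x ∩ Vl t G R A B l)
  pr : t = 0 → ∀ x ∈ R, (1 - K * κ) / k ≤ eA x * eB x
  cle : cc ≤ 1 + K * κ
  D1 : 1 - K * κ ≤ DD t k δ
  D2 : DD t k δ ≤ 1 + K * κ
  lA : ∀ x ∈ Vl t G R A B (2 * t + 1), 1 / (8 * κ * k) ≤ eA x
  lB : ∀ x ∈ Vl t G R A B 1, 1 / (8 * κ * k) ≤ eB x

/-- the edges with an end in `R`, and the edges between `A` and `B` -/
structure Edg (t : ℕ) (G : SimpleGraph V) (A B R : Set V) : Prop where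
  rr : ∀ l l', 1 ≤ l → l ≤ 2 * t + 1 → 1 ≤ l' → l' ≤ 2 * t + 1 → ∀ x ∈ Vl t G R A B l,
    ∀ x' ∈ Vl t G R A B l', G.Adj x x' → l + 1 = l' ∨ l' + 1 = l
  ar : ∀ z ∈ A, ∀ x ∈ R, G.Adj z x → x ∈ Vl t G R A B (2 * t + 1)
  br : ∀ z ∈ B, ∀ x ∈ R, G.Adj z x → x ∈ Vl t G R A B 1
  yx : ∀ z ∈ A, ∀ w ∈ B, ∀ x ∈ R, ∀ x' ∈ R, G.Adj z x → G.Adj w x' → ¬ G.Adj z w

/-! ## Closed walks -/

/-- number of closed `k`-walks at `x`, divided by `N ^ (k - 1)` -/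
def hh (G : SimpleGraph V) (k : ℕ) (x : V) : ℝ :=
  (Wop G)^[k] (Set.indicator {x} fun _ => (Fintype.card V : ℝ)) x

/-- closed `k`-walks -/
def cws (G : SimpleGraph V) (k : ℕ) : Set (Fin k → V) :=
  {y | ∀ i j : Fin k, (SimpleGraph.cycleGraph k).Adj i j → G.Adj (y i) (y j)}

/-- number of closed `k`-walks -/
def cwn (G : SimpleGraph V) (k : ℕ) : ℕ := (cws G k).ncard

/-- number of closed `k`-walks starting at `x` -/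
def cwx (G : SimpleGraph V) (k : ℕ) (x : V) : ℕ :=
  {y : Fin k → V | y ∈ cws G k ∧ ∀ i : Fin k, (i : ℕ) = 0 → y i = x}.ncard

/-- number of injective closed `k`-walks (labelled `k`-cycles) -/
def lc (G : SimpleGraph V) (k : ℕ) : ℕ :=
  {y : Fin k → V | y ∈ cws G k ∧ Function.Injective y}.ncard

/-- no cycle of length `l` -/
def Fr (l : ℕ) (G : SimpleGraph V) : Prop := ∀ y ∈ cws G l, ¬ Function.Injective y

/-- extremal graphs -/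
def MxL (t k : ℕ) {n : ℕ} (G : SimpleGraph (Fin n)) : Prop :=
  Fr (2 * t + 3) G ∧ ∀ G' : SimpleGraph (Fin n), Fr (2 * t + 3) G' → lc G' k ≤ lc G k

/-- the value of the optimal blow-up -/
def lowb (t k : ℕ) : ℝ :=
  (1 / 2) ^ k * 4 ^ (t + 1) * (1 / (k : ℝ)) ^ (2 * t + 1) * Real.exp (-(2 * t + 2))

/-- the blow-up of the cycle `C_(2 t + 5)` with classes given by `F` -/
def BU (t : ℕ) {W : Type} (F : W → Fin (2 * t + 5)) : SimpleGraph W :=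
  (SimpleGraph.cycleGraph (2 * t + 5)).comap F

/-- the graph with the neighbourhood of `z` replaced by `N` -/
def rpl {W : Type} (G : SimpleGraph W) (z : W) (N : Set W) : SimpleGraph W where
  Adj a b := (a ≠ z ∧ b ≠ z ∧ G.Adj a b) ∨ (a = z ∧ b ≠ z ∧ b ∈ N) ∨ (b = z ∧ a ≠ z ∧ a ∈ N)
  symm := ⟨fun a b h => by
    rcases h with ⟨h1, h2, h3⟩ | h | h
    · exact Or.inl ⟨h2, h1, h3.symm⟩
    · exact Or.inr (Or.inr h)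
    · exact Or.inr (Or.inl h)⟩
  loopless := ⟨fun a h => by
    rcases h with ⟨_, _, h⟩ | ⟨h1, h2, _⟩ | ⟨h1, h2, _⟩
    · exact h.ne rfl
    · exact h2 h1
    · exact h2 h1⟩

/-- output of the balancing step: `S` is almost everything, `H` almost all of `G` -/
structure Bal (t k : ℕ) {n : ℕ} (ε : ℝ) (G : SimpleGraph (Fin n)) (S : Finset (Fin n))
    (H : SimpleGraph (Fin n)) : Prop where
  le : H ≤ G
  sm : (n : ℝ) - S.card ≤ ε * n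
  ed : (({p : Fin n × Fin n | G.Adj p.1 p.2 ∧ ¬ H.Adj p.1 p.2}.ncard : ℕ) : ℝ) ≤ ε * n ^ 2
  ne : S.Nonempty
  og : OddG t H
  ba : ∀ x : {x // x ∈ S}, |hh (H.comap (Subtype.val : {x // x ∈ S} → Fin n)) k x -
    av (hh (H.comap (Subtype.val : {x // x ∈ S} → Fin n)) k)| ≤ ε
  op : ∀ G' : SimpleGraph (Fin n), Fr (2 * t + 3) G' →
    (cwn G' k : ℝ) / n ^ k - ε ≤ av (hh (H.comap (Subtype.val : {x // x ∈ S} → Fin n)) k)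

/-- near blow-up of `C_(2 t + 5)` -/
structure NB (t k : ℕ) {n : ℕ} (c ε τ : ℝ) (G : SimpleGraph (Fin n))
    (F : Fin n → Fin (2 * t + 5)) : Prop where
  cl : ∀ i, c * n ≤ (({x | F x = i}.ncard : ℕ) : ℝ)
  mis : (({p : Fin n × Fin n | (BU t F).Adj p.1 p.2 ∧ ¬ G.Adj p.1 p.2}.ncard : ℕ) : ℝ) ≤ ε * n ^ 2
  bad : (({p : Fin n × Fin n | G.Adj p.1 p.2 ∧ ¬ (BU t F).Adj p.1 p.2}.ncard : ℕ) : ℝ) ≤ ε * n ^ 2
  bal : ∀ x, |(cwx (BU t F) k x : ℝ) / n ^ (k - 1) - τ| ≤ ε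

/-- robust adjacency -/
def Rob (t : ℕ) {n : ℕ} (θ : ℝ) (G : SimpleGraph (Fin n)) (F F' : Fin n → Fin (2 * t + 5)) : Prop :=
  ∀ z j, (SimpleGraph.cycleGraph (2 * t + 5)).Adj (F' z) j →
    (1 - θ) * (({x | F x = j}.ncard : ℕ) : ℝ) ≤ (({x | F x = j ∧ G.Adj z x}.ncard : ℕ) : ℝ)

end

end Pool.Agent.OCX
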