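import Pool.Agent.OCX.Stmts
import Pool.Agent.OCX.Lib

/-!
# EX2B: replacing a neighbourhood in an extremal graph (MP_e73810_co)
-/

namespace Pool.Agent.OCX

namespace EX2B_

/-- a set of functions whose values at `i` and `0` are determined by the other values -/
theorem card_det {n k : ℕ} (z : Fin n) (i : Fin (k + 2)) (h0 : i ≠ 0)
    (S : Set (Fin (k + 2) → Fin n)) (hz : ∀ y ∈ S, y 0 = z)
    (h : ∀ y ∈ S, ∀ y' ∈ S, (∀ j, j ≠ i → y j = y' j) → y i = y' i) :
    S.ncard ≤ n ^ k := by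
  classical
  have h1 : S.ncard ≤ (Set.univ : Set ({j : Fin (k + 2) // j ≠ i ∧ j ≠ 0} → Fin n)).ncard := by
    refine Set.ncard_le_ncard_of_injOn (fun y j => y j.1) (fun y _ => Set.mem_univ _) ?_
      (Set.toFinite _)
    intro y hy y' hy' hyy
    have hne : ∀ j, j ≠ i → y j = y' j := by
      intro j hj
      by_cases hj0 : j = 0
      · rw [hj0, hz y hy, hz y' hy']
      · exact congrFun hyy ⟨j, hj, hj0⟩
    funext j
    by_cases hj : j = i
    · subst hj
      exact h y hy y' hy' hne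
    · exact hne j hj
  have h2 : (Set.univ : Set ({j : Fin (k + 2) // j ≠ i ∧ j ≠ 0} → Fin n)).ncard = n ^ k := by
    rw [Set.ncard_univ, Nat.card_eq_fintype_card, Fintype.card_fun, Fintype.card_fin]
    congr 1
    have e : Fintype.card {j : Fin (k + 2) // j ≠ i ∧ j ≠ 0} =
        (Finset.univ.erase i |>.erase 0).card := by
      rw [Fintype.card_subtype]
      congr 1
      ext j
      simp only [Finset.mem_filter, Finset.mem_univ, true_and, Finset.mem_erase]
      tauto
    rw [e, Finset.card_erase_of_mem (by simp [h0.symm]), Finset.card_erase_of_mem (by simp)]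
    simp
  rw [h2] at h1
  exact h1

/-- rotations of closed walks -/
theorem rot_mem {W : Type} {G : SimpleGraph W} {k : ℕ} {y : Fin (k + 2) → W}
    (h : y ∈ cws G (k + 2)) (i : Fin (k + 2)) : (fun s => y (s - i)) ∈ cws G (k + 2) := by
  intro a b hab
  refine h _ _ ?_
  rw [SimpleGraph.cycleGraph_adj] at hab ⊢
  rw [sub_sub_sub_cancel_right, sub_sub_sub_cancel_right]
  exact hab

theorem hit_card {n k : ℕ} (G : SimpleGraph (Fin n)) (z : Fin n) :
    {y | y ∈ cws G (k + 2) ∧ Function.Injective y ∧ ∃ i, y i = z}.ncard =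
      (k + 2) * {y | y ∈ cws G (k + 2) ∧ Function.Injective y ∧ y 0 = z}.ncard := by
  classical
  have e : {y | y ∈ cws G (k + 2) ∧ Function.Injective y ∧ ∃ i, y i = z} =
      (fun p : Fin (k + 2) × (Fin (k + 2) → Fin n) => fun s => p.2 (s - p.1)) ''
        ((Set.univ : Set (Fin (k + 2))) ×ˢ
          {y | y ∈ cws G (k + 2) ∧ Function.Injective y ∧ y 0 = z}) := by
    ext y
    constructor
    · rintro ⟨hy, hi, i, hz⟩
      refine ⟨(i, fun s => y (s - (-i))), ⟨Set.mem_univ _, rot_mem hy (-i), ?_, ?_⟩, ?_⟩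
      · intro a b hab
        exact sub_left_injective (hi hab)
      · simpa using hz
      · funext s
        simp
    · rintro ⟨⟨i, w⟩, ⟨_, hw, hi, hz⟩, rfl⟩
      refine ⟨rot_mem hw i, fun a b hab => sub_left_injective (hi hab), i, ?_⟩
      simpa using hz
  rw [e, Set.InjOn.ncard_image, Set.ncard_prod, Set.ncard_univ, Nat.card_eq_fintype_card,
    Fintype.card_fin]
  rintro ⟨i, y⟩ ⟨_, hy, hi, hz⟩ ⟨i', y'⟩ ⟨_, hy', hi', hz'⟩ h
  simp only at h hi hi' hz hz'
  have h1 : i' = i := by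
    have := congrFun h i
    simp only [sub_self, hz] at this
    rw [← hz'] at this
    have h2 := hi' this
    exact (sub_eq_zero.1 h2.symm).symm
  subst h1
  have h2 : y = y' := by
    funext s
    have := congrFun h (s + i')
    simpa using this
  rw [h2]

end EX2B_

open EX2B_ in
theorem ex2b_proof : Stmt_EX2B := by
  intro t k n G z N hk hM hF
  classical
  obtain ⟨K, rfl⟩ : ∃ K, k = K + 2 := ⟨k - 2, by omega⟩
  have hlc := hM.2 _ hF
  -- split into the cycles avoiding `z` and the others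
  have hsplit : ∀ G' : SimpleGraph (Fin n), lc G' (K + 2) =
      {y | y ∈ cws G' (K + 2) ∧ Function.Injective y ∧ ¬ ∃ i, y i = z}.ncard +
      (K + 2) * {y | y ∈ cws G' (K + 2) ∧ Function.Injective y ∧ y 0 = z}.ncard := by
    intro G'
    rw [← hit_card, ← Set.ncard_union_eq]
    · unfold lc
      congr 1
      ext y
      simp only [Set.mem_ofPred_eq, Set.mem_union]
      tauto
    · rw [Set.disjoint_left]
      rintro y ⟨_, _, h⟩ ⟨_, _, h'⟩
      exact h h'
  have havoid : {y | y ∈ cws (rpl G z N) (K + 2) ∧ Function.Injective y ∧ ¬ ∃ i, y i = z} =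
      {y | y ∈ cws G (K + 2) ∧ Function.Injective y ∧ ¬ ∃ i, y i = z} := by
    ext y
    refine and_congr_left fun h => ?_
    obtain ⟨_, h⟩ := h
    push Not at h
    constructor
    · intro hy a b hab
      rcases hy a b hab with ⟨_, _, h3⟩ | ⟨h3, _⟩ | ⟨h3, _⟩
      · exact h3
      · exact absurd h3 (h a)
      · exact absurd h3 (h b)
    · intro hy a b hab
      exact Or.inl ⟨h a, h b, hy a b hab⟩
  rw [hsplit, hsplit, havoid] at hlc
  have hle : {y | y ∈ cws (rpl G z N) (K + 2) ∧ Function.Injective y ∧ y 0 = z}.ncard ≤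
      {y | y ∈ cws G (K + 2) ∧ Function.Injective y ∧ y 0 = z}.ncard :=
    Nat.le_of_mul_le_mul_left (Nat.le_of_add_le_add_left hlc) (by omega)
  have hnon : {y : Fin (K + 2) → Fin n | y 0 = z ∧ ∃ i j, i ≠ j ∧ y i = y j}.ncard ≤
      (K + 2) ^ 2 * n ^ K := by
    have h1 : (⋃ p ∈ (Finset.univ : Finset (Fin (K + 2) × Fin (K + 2))),
        {y : Fin (K + 2) → Fin n | y 0 = z ∧ p.1 ≠ 0 ∧ p.1 ≠ p.2 ∧ y p.1 = y p.2}).ncard ≤
        (K + 2) ^ 2 * n ^ K := by
      refine (Finset.set_ncard_biUnion_le _ _).trans ?_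
      refine (Finset.sum_le_card_nsmul _ _ (n ^ K) fun p _ => ?_).trans ?_
      · by_cases hp : p.1 = 0
        · have : {y : Fin (K + 2) → Fin n | y 0 = z ∧ p.1 ≠ 0 ∧ p.1 ≠ p.2 ∧ y p.1 = y p.2} = ∅ := by
            ext y
            simp [hp]
          rw [this]
          simp
        · refine card_det z p.1 hp _ (fun y hy => hy.1) fun y hy y' hy' h => ?_
          rw [hy.2.2.2, hy'.2.2.2]
          exact h _ (Ne.symm hy.2.2.1)
      · rw [Finset.card_univ, Fintype.card_prod, Fintype.card_fin, smul_eq_mul, ← sq]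
    refine (Set.ncard_le_ncard ?_ (Set.toFinite _)).trans h1
    rintro y ⟨h0, i, j, hij, h⟩
    simp only [Set.mem_iUnion]
    by_cases hi : i = 0
    · exact ⟨(j, i), Finset.mem_univ _, h0, fun h' => hij (hi.trans h'.symm), hij.symm, h.symm⟩
    · exact ⟨(i, j), Finset.mem_univ _, h0, hi, hij, h⟩
  have hup : cwx (rpl G z N) (K + 2) z ≤
      {y | y ∈ cws (rpl G z N) (K + 2) ∧ Function.Injective y ∧ y 0 = z}.ncard +
      {y : Fin (K + 2) → Fin n | y 0 = z ∧ ∃ i j, i ≠ j ∧ y i = y j}.ncard := by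
    refine (Set.ncard_le_ncard ?_ (Set.toFinite _)).trans (Set.ncard_union_le _ _)
    rintro y ⟨hy, h⟩
    have h0 : y 0 = z := h 0 (by simp)
    by_cases hi : Function.Injective y
    · exact Or.inl ⟨hy, hi, h0⟩
    · right
      unfold Function.Injective at hi
      push Not at hi
      obtain ⟨i, j, h1, h2⟩ := hi
      exact ⟨h0, i, j, h2, h1⟩
  have hdn : {y | y ∈ cws G (K + 2) ∧ Function.Injective y ∧ y 0 = z}.ncard ≤
      cwx G (K + 2) z := by
    refine Set.ncard_le_ncard ?_ (Set.toFinite _)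
    rintro y ⟨hy, _, h0⟩
    refine ⟨hy, fun i hi => ?_⟩
    have : i = 0 := Fin.ext (by simpa using hi)
    rw [this, h0]
  have : K + 2 - 2 = K := rfl
  rw [this]
  omega

end Pool.Agent.OCX
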