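import Pool.Agent.OCX.Stmts
import Pool.Agent.OCX.Lib

namespace Pool.Agent.OCX

namespace ODD_

theorem adj_int {t : ℕ} {u v : Fin (2 * t + 5)}
    (h : (SimpleGraph.cycleGraph (2 * t + 5)).Adj u v) :
    ∃ s : ℤ, |s| = 1 ∧ ((2 * t + 5 : ℕ) : ℤ) ∣ ((v : ℕ) : ℤ) - ((u : ℕ) : ℤ) - s := by
  have h' : u - v = 1 ∨ v - u = 1 :=
    (SimpleGraph.cycleGraph_adj (n := 2 * t + 3) (u := u) (v := v)).1 h
  rcases h' with h' | h'
  · refine ⟨-1, by simp, ?_⟩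
    have h1 : u = 1 + v := sub_eq_iff_eq_add.1 h'
    have h2 : (u : ℕ) = (((1 : Fin (2 * t + 5)) : ℕ) + (v : ℕ)) % (2 * t + 5) := by
      conv_lhs => rw [h1]
      exact Fin.val_add _ _
    have h3 : ((1 : Fin (2 * t + 5)) : ℕ) = 1 := by
      have := Fin.val_one (2 * t + 3)
      exact this
    rw [h3] at h2
    have h4 := Nat.div_add_mod (1 + (v : ℕ)) (2 * t + 5)
    refine ⟨((1 + (v : ℕ)) / (2 * t + 5) : ℕ), ?_⟩
    have h5 : (((2 * t + 5) * ((1 + (v : ℕ)) / (2 * t + 5)) + (1 + (v : ℕ)) % (2 * t + 5) : ℕ) : ℤ)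
        = ((1 + (v : ℕ) : ℕ) : ℤ) := by rw [h4]
    rw [← h2] at h5
    push_cast at h5 ⊢
    linarith
  · refine ⟨1, by simp, ?_⟩
    have h1 : v = 1 + u := sub_eq_iff_eq_add.1 h'
    have h2 : (v : ℕ) = (((1 : Fin (2 * t + 5)) : ℕ) + (u : ℕ)) % (2 * t + 5) := by
      conv_lhs => rw [h1]
      exact Fin.val_add _ _
    have h3 : ((1 : Fin (2 * t + 5)) : ℕ) = 1 := by
      have := Fin.val_one (2 * t + 3)
      exact this
    rw [h3] at h2
    have h4 := Nat.div_add_mod (1 + (u : ℕ)) (2 * t + 5)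
    refine ⟨-((1 + (u : ℕ)) / (2 * t + 5) : ℕ), ?_⟩
    have h5 : (((2 * t + 5) * ((1 + (u : ℕ)) / (2 * t + 5)) + (1 + (u : ℕ)) % (2 * t + 5) : ℕ) : ℤ)
        = ((1 + (u : ℕ) : ℕ) : ℤ) := by rw [h4]
    rw [← h2] at h5
    push_cast at h5 ⊢
    linarith

theorem walk_int {t : ℕ} {W : Type} (F : W → Fin (2 * t + 5)) {a b : W}
    (p : (BU t F).Walk a b) :
    ∃ z : ℤ, |z| ≤ p.length ∧ z % 2 = (p.length : ℤ) % 2 ∧
      ((2 * t + 5 : ℕ) : ℤ) ∣ ((F b : ℕ) : ℤ) - ((F a : ℕ) : ℤ) - z := by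
  induction p with
  | nil => exact ⟨0, by simp, by simp, by simp⟩
  | @cons a c b h q ih =>
    obtain ⟨z, h1, h2, h3⟩ := ih
    have hadj : (SimpleGraph.cycleGraph (2 * t + 5)).Adj (F a) (F c) := h
    obtain ⟨s, hs1, hs2⟩ := adj_int hadj
    refine ⟨z + s, ?_, ?_, ?_⟩
    · rw [SimpleGraph.Walk.length_cons]
      push_cast
      calc |z + s| ≤ |z| + |s| := abs_add_le z s
        _ ≤ _ := by rw [hs1]; linarith
    · rw [SimpleGraph.Walk.length_cons]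
      push_cast
      rcases abs_eq (by norm_num : (0 : ℤ) ≤ 1) |>.1 hs1 with h | h <;> subst h <;> omega
    · have := dvd_add h3 hs2
      have h4 : ((F b : ℕ) : ℤ) - ((F c : ℕ) : ℤ) - z + (((F c : ℕ) : ℤ) - ((F a : ℕ) : ℤ) - s)
          = ((F b : ℕ) : ℤ) - ((F a : ℕ) : ℤ) - (z + s) := by ring
      rwa [h4] at this

theorem part1 (t : ℕ) (W : Type) (F : W → Fin (2 * t + 5)) : OddG t (BU t F) := by
  intro x p hp
  obtain ⟨z, h1, h2, h3⟩ := walk_int F p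
  have h4 : ((2 * t + 5 : ℕ) : ℤ) ∣ z := by
    have h5 : ((F x : ℕ) : ℤ) - ((F x : ℕ) : ℤ) - z = -z := by ring
    rw [h5] at h3
    exact (dvd_neg).1 h3
  have hz : z ≠ 0 := by
    rintro rfl
    obtain ⟨m, hm⟩ := hp
    rw [hm] at h2
    push_cast at h2
    omega
  have h6 := Int.le_of_dvd (abs_pos.2 hz) ((dvd_abs _ _).2 h4)
  have h7 : ((2 * t + 5 : ℕ) : ℤ) ≤ (p.length : ℤ) := le_trans h6 h1
  exact_mod_cast h7

theorem walk_to {W : Type} {G : SimpleGraph W} {t : ℕ} {y : Fin (2 * t + 3) → W}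
    (hy : y ∈ cws G (2 * t + 3)) : ∀ (i : ℕ) (hi : i < 2 * t + 3),
    ∃ p : G.Walk (y ⟨0, by omega⟩) (y ⟨i, hi⟩), p.length = i := by
  intro i
  induction i with
  | zero => intro hi; exact ⟨SimpleGraph.Walk.nil, rfl⟩
  | succ i ih =>
    intro hi
    obtain ⟨p, hp⟩ := ih (by omega)
    have hadj : (SimpleGraph.cycleGraph (2 * t + 3)).Adj ⟨i, by omega⟩ ⟨i + 1, hi⟩ := by
      refine (SimpleGraph.cycleGraph_adj (n := 2 * t + 1)).2 (Or.inr ?_)
      rw [sub_eq_iff_eq_add]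
      apply Fin.ext
      rw [Fin.val_add]
      have h3 : ((1 : Fin (2 * t + 3)) : ℕ) = 1 := Fin.val_one (2 * t + 1)
      rw [h3]
      have h6 : (1 + i) % (2 * t + 3) = 1 + i := Nat.mod_eq_of_lt (by omega)
      show i + 1 = (1 + i) % (2 * t + 3)
      rw [h6]; omega
    refine ⟨p.concat (hy _ _ hadj), ?_⟩
    rw [SimpleGraph.Walk.length_concat, hp]

theorem part2 (t : ℕ) (W : Type) (G : SimpleGraph W) (h : OddG t G) : Fr (2 * t + 3) G := by
  intro y hy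
  exfalso
  obtain ⟨p, hp⟩ := walk_to hy (2 * t + 2) (by omega)
  have hadj : (SimpleGraph.cycleGraph (2 * t + 3)).Adj ⟨2 * t + 2, by omega⟩ ⟨0, by omega⟩ := by
    refine (SimpleGraph.cycleGraph_adj (n := 2 * t + 1)).2 (Or.inr ?_)
    rw [sub_eq_iff_eq_add]
    apply Fin.ext
    rw [Fin.val_add]
    have h3 : ((1 : Fin (2 * t + 3)) : ℕ) = 1 := Fin.val_one (2 * t + 1)
    rw [h3]
    show 0 = (1 + (2 * t + 2)) % (2 * t + 3)
    have h6 : 1 + (2 * t + 2) = 2 * t + 3 := by omega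
    rw [h6, Nat.mod_self]
  have h8 := h _ (p.concat (hy _ _ hadj)) (by
    rw [SimpleGraph.Walk.length_concat, hp]
    exact ⟨t + 1, by omega⟩)
  rw [SimpleGraph.Walk.length_concat, hp] at h8
  omega

theorem part3 (t : ℕ) (W W' : Type) (G : SimpleGraph W) (π : W' → W) (h : OddG t G) :
    OddG t (G.comap π) := by
  intro x p hp
  let f : G.comap π →g G := ⟨π, fun {a b} hab => hab⟩
  have h1 := h (f x) (p.map f) (by rw [SimpleGraph.Walk.length_map]; exact hp)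
  rwa [SimpleGraph.Walk.length_map] at h1

end ODD_

theorem odd_proof : Stmt_ODD := fun t =>
  ⟨ODD_.part1 t, ODD_.part2 t, ODD_.part3 t⟩

end Pool.Agent.OCX
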