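import Pool.Agent.OCX.Base

/-!
# Odd cycles: exact statements of the modules.  Recipes: /team-store/MP_e73810_OCX.md
-/

open scoped BigOperators

namespace Pool.Agent.OCX

noncomputable section

/-! ## Part 1: amplitudes -/

/-- BAS1. First consequences of the amplitude system, part 1. -/
def Stmt_BAS1 : Prop :=
  ∀ (t : ℕ) (κ : ℝ), 0 < κ → κ ≤ 1 / 20 → ∃ k0 : ℕ, ∀ k : ℕ, k0 ≤ k →
    ∀ (V : Type) [Fintype V] (G : SimpleGraph V) (ν γ δ ξ : ℝ) (u v : V → ℝ), ξ ≤ 1 / 2 →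
      Sys t k ξ G ν γ δ u v → Bas1 t k κ ν γ δ u v

/-- BAS. First consequences of the amplitude system. -/
def Stmt_BAS : Prop :=
  ∀ (t : ℕ) (κ : ℝ), 0 < κ → κ ≤ 1 / 20 → ∃ k0 : ℕ, ∀ k : ℕ, k0 ≤ k →
    ∀ (V : Type) [Fintype V] (G : SimpleGraph V) (ν γ δ ξ : ℝ) (u v : V → ℝ), ξ ≤ 1 / 2 →
      Sys t k ξ G ν γ δ u v → Bas t k κ G ν γ δ u v

/-- FLX. The flux identity. -/
def Stmt_FLX : Prop :=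
  ∀ (V : Type) [Fintype V] (G : SimpleGraph V) (ν γ : ℝ) (u v : V → ℝ) (A B R : Set V),
    (∀ x, Wop G u x = ν * v x + γ * u x) → Cor G A B R →
    γ * avS A (fun x => u x ^ 2) - γ * avS B (fun x => u x ^ 2) =
      avS R (fun x => u x * avS (G.neighborSet x ∩ A) u) +
        ν * (avS B (fun x => u x * v x) - avS A (fun x => u x * v x)) -
        avS R (fun x => u x * avS (G.neighborSet x ∩ B) u)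

/-- ALP. The amplitudes `al`. -/
def Stmt_ALP : Prop :=
  ∀ (V : Type) [Fintype V] (G : SimpleGraph V) (R : Set V),
    (∀ (e : V → ℝ) (m : ℕ), ∀ x ∈ R, al G R e (m + 1) x = aP G R e m x) ∧
    (∀ (e : V → ℝ) (m : ℕ), ∀ x, x ∉ R → al G R e m x = 0) ∧
    (∀ (e : V → ℝ), (∀ x ∈ R, 0 ≤ e x) → ∀ (m : ℕ) (x : V), 0 ≤ al G R e m x) ∧
    (∀ (e : V → ℝ) (c : ℝ), 0 ≤ c → (∀ x ∈ R, 0 ≤ e x ∧ e x ≤ c) → ∀ (m : ℕ) (x : V),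
      al G R e (m + 1) x ≤ c * (2 * ms R) ^ m) ∧
    (∀ (e : V → ℝ) (A : Set V), (∀ x ∈ R, 0 ≤ e x) → (∀ x ∈ R, 0 < e x → ∃ a ∈ A, G.Adj x a) →
      ∀ (m : ℕ) (x : V), al G R e m x ≠ 0 → Rch G R A m x) ∧
    (∀ (e f : V → ℝ) (S : Set V) (p q : ℕ),
      avS S (fun x => al G R e (p + 1) x * al G R f (q + 1) x) =
        PS G R (p + q + 1) (fun y => 2 ^ (p + q) * (e (y 0) * f (y (Fin.last (p + q)))) *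
          S.indicator (fun _ => 1) (y ⟨p, by omega⟩))) ∧
    (∀ (t : ℕ) (eA eB : V → ℝ) (S : Set V),
      ∑ l ∈ Finset.Icc 1 (2 * t + 1),
        avS S (fun x => al G R eB l x * al G R eA (2 * t + 2 - l) x) =
        PS G R (2 * t + 1) (fun y => wI t eA eB y * vis S y)) ∧
    (∀ (t : ℕ) (e : V → ℝ) (S : Set V),
      ∑ l ∈ Finset.Icc 1 (2 * t + 2),
        avS S (fun x => al G R e l x * al G R e (2 * t + 3 - l) x) =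
        PS G R (2 * t + 2) (fun y => wC t e y * vis S y))

/-- EXP. The path expansion. -/
def Stmt_EXP : Prop :=
  ∀ t : ℕ, ∃ M : ℝ, 1 ≤ M ∧ ∀ (V : Type) [Fintype V] [Nonempty V] (G : SimpleGraph V)
    (A B R : Set V) (eA eB u v : V → ℝ) (ν ϑ : ℝ), OddG t G → Cor G A B R →
    (∀ x, 0 ≤ eA x ∧ eA x ≤ 2) → (∀ x, 0 ≤ eB x ∧ eB x ≤ 2) →
    (∀ x ∈ R, (0 < eA x ↔ ∃ a ∈ A, G.Adj x a)) → (∀ x ∈ R, (0 < eB x ↔ ∃ b ∈ B, G.Adj x b)) →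
    0 ≤ ϑ → ϑ ≤ 1 / M → 0 < ν → ν ≤ 1 / 2 → 1 / ν ≤ 2 * (1 + ϑ) →
    (∀ x ∈ R, 0 < u x ∧ u x ≤ 1 ∧ 0 < v x ∧ v x ≤ 1) →
    (∀ x ∈ R, |u x - (eB x + avS (G.neighborSet x ∩ R) v / ν)| ≤ ϑ * u x) →
    (∀ x ∈ R, |v x - (eA x + avS (G.neighborSet x ∩ R) u / ν)| ≤ ϑ * v x) →
    (∀ S ⊆ R, (1 - M * ϑ) * Kf t G R eA eB S ≤ avS S (fun x => u x * v x) ∧
      avS S (fun x => u x * v x) ≤ (1 + M * ϑ) * Kf t G R eA eB S +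
        M * ms R ^ (2 * t + 2) * ms S) ∧
    |avS R (fun x => u x * eA x + v x * eB x) - Zf t G R eA eB| ≤
      M * ϑ * Zf t G R eA eB + M * ms R ^ (2 * t + 3) ∧
    (∀ x ∈ R, 0 < eA x → u x ≤ (1 + M * ϑ) * (aP G R eB (2 * t) x + aP G R eA (2 * t + 1) x) +
      M * ms R ^ (2 * t + 2)) ∧
    (∀ x ∈ R, 0 < eB x → v x ≤ (1 + M * ϑ) * (aP G R eA (2 * t) x + aP G R eB (2 * t + 1) x) +
      M * ms R ^ (2 * t + 2))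

/-- MCO. Crude cost inequality. -/
def Stmt_MCO : Prop :=
  ∀ (t : ℕ) (κ : ℝ), 0 < κ → κ ≤ 1 / 20 → ∃ k0 : ℕ, ∀ k : ℕ, k0 ≤ k →
    ∀ (V : Type) [Fintype V] (G : SimpleGraph V) (ν γ δ ξ : ℝ) (u v : V → ℝ), ξ ≤ 1 / 2 →
      Sys t k ξ G ν γ δ u v →
      ∀ X Y : Set V, X ⊆ cA κ v → Y ⊆ cA κ u → (∀ b ∈ X, ∀ a ∈ Y, ¬ G.Adj b a) →
        (avS X v / ν) * (avS Y u / ν) ≤ 6 * (1 / 2 - (ν + γ))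

/-- FEX. Smallness of the error terms and the flux, before bootstrapping. -/
def Stmt_FEX : Prop :=
  ∀ (t : ℕ) (κ ρ θ : ℝ), 0 < κ → κ ≤ 1 / 20 → 0 < ρ → ρ ≤ 1 → 0 < θ → ∃ k0 : ℕ, ∀ k : ℕ, k0 ≤ k →
    ∀ (V : Type) [Fintype V] (G : SimpleGraph V) (ν γ δ ξ : ℝ) (u v : V → ℝ), ξ ≤ 1 / 2 →
      Sys t k ξ G ν γ δ u v → (∀ x ∈ cR κ u v, ρ ≤ om u v x) →
      1 / ν ≤ 2 * (1 + θ) ∧
      (∀ x ∈ cR κ u v, |u x - (ee G ν (cA κ v) v x +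
        avS (G.neighborSet x ∩ cR κ u v) v / ν)| ≤ θ * u x) ∧
      (∀ x ∈ cR κ u v, |v x - (ee G ν (cA κ u) u x +
        avS (G.neighborSet x ∩ cR κ u v) u / ν)| ≤ θ * v x) ∧
      |ν * avS (cR κ u v) (fun x => u x * ee G ν (cA κ u) u x + v x * ee G ν (cA κ v) v x) - γ| ≤
        θ * (γ + δ * ms (cR κ u v))

/-- BOO. Bootstrapping. -/
def Stmt_BOO : Prop :=
  ∀ (t : ℕ) (ρ : ℝ), 0 < ρ → ρ ≤ 1 → ∃ C : ℝ, 1 ≤ C ∧ ∀ κ : ℝ, 0 < κ → κ ≤ 1 / 20 →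
    ∃ k0 : ℕ, ∀ k : ℕ, k0 ≤ k →
    ∀ (V : Type) [Fintype V] (G : SimpleGraph V) (ν γ δ ξ : ℝ) (u v : V → ℝ), ξ ≤ 1 / 2 →
      Sys t k ξ G ν γ δ u v → (∀ x ∈ cR κ u v, ρ ≤ om u v x) → Boo t k κ C ν γ δ u v

/-- ST2. Refined bounds. -/
def Stmt_ST2 : Prop :=
  ∀ (t : ℕ) (ρ : ℝ), 0 < ρ → ρ ≤ 1 → ∃ C : ℝ, 1 ≤ C ∧ ∀ κ : ℝ, 0 < κ → κ ≤ 1 / 20 →
    ∃ k0 : ℕ, ∀ k : ℕ, k0 ≤ k →
    ∀ (V : Type) [Fintype V] (G : SimpleGraph V) (ν γ δ ξ : ℝ) (u v : V → ℝ), ξ ≤ 1 / 2 →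
      Sys t k ξ G ν γ δ u v → (∀ x ∈ cR κ u v, ρ ≤ om u v x) → St2 t k κ C G ν γ δ u v

/-- CST. The cost inequality. -/
def Stmt_CST : Prop :=
  ∀ (t : ℕ) (ρ : ℝ), 0 < ρ → ρ ≤ 1 → ∃ C : ℝ, 1 ≤ C ∧ ∀ κ : ℝ, 0 < κ → κ ≤ 1 / 20 →
    ∃ k0 : ℕ, ∀ k : ℕ, k0 ≤ k →
    ∀ (V : Type) [Fintype V] (G : SimpleGraph V) (ν γ δ ξ : ℝ) (u v : V → ℝ), ξ ≤ 1 / 2 →
      Sys t k ξ G ν γ δ u v → (∀ x ∈ cR κ u v, ρ ≤ om u v x) →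
      k * avS (cR κ u v) (om u v) + cost k G (cA κ u) (cA κ v) (fun x => u x + v x) ≤
        2 * k * (1 / 2 - (ν + γ)) + C / k ∧
      0 ≤ cost k G (cA κ u) (cA κ v) (fun x => u x + v x) ∧
      cost k G (cA κ u) (cA κ v) (fun x => u x + v x) ≤ C

/-- RCA. Auxiliary bounds. -/
def Stmt_RCA : Prop :=
  ∀ (t : ℕ) (ρ : ℝ), 0 < ρ → ρ ≤ 1 → ∃ C : ℝ, 1 ≤ C ∧ ∀ κ : ℝ, 0 < κ → κ ≤ 1 / 20 →
    ∃ k0 : ℕ, ∀ k : ℕ, k0 ≤ k →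
    ∀ (V : Type) [Fintype V] (G : SimpleGraph V) (ν γ δ ξ : ℝ) (u v : V → ℝ), ξ ≤ 1 / 2 →
      Sys t k ξ G ν γ δ u v → (∀ x ∈ cR κ u v, ρ ≤ om u v x) →
      ∀ X : Set V, X ⊆ cA κ v →
        |avS X v / ν - 2 * avS X (fun x => u x + v x)| ≤
          C / k * avS X (fun x => u x + v x) + C * δ / k ∧
        ∀ z ∈ cA κ u, (∀ b ∈ X, ¬ G.Adj z b) →
          u z + v z ≤ 1 + C / k - 2 * avS X (fun x => u x + v x) ∧ avS X v / ν ≤ 2 * κ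

/-- RCT. Rectangles of missing edges, deficient vertices. -/
def Stmt_RCT : Prop :=
  ∀ (t : ℕ) (ρ : ℝ), 0 < ρ → ρ ≤ 1 → ∃ C : ℝ, 1 ≤ C ∧ ∀ κ : ℝ, 0 < κ → κ ≤ 1 / 20 →
    ∃ k0 : ℕ, ∀ k : ℕ, k0 ≤ k →
    ∀ (V : Type) [Fintype V] (G : SimpleGraph V) (ν γ δ ξ : ℝ) (u v : V → ℝ), ξ ≤ 1 / 2 →
      Sys t k ξ G ν γ δ u v → (∀ x ∈ cR κ u v, ρ ≤ om u v x) →
      (∀ X Y : Set V, X ⊆ cA κ v → Y ⊆ cA κ u → (∀ b ∈ X, ∀ a ∈ Y, ¬ G.Adj b a) →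
        k * (avS X v / ν) * (avS Y u / ν) * (1 + (avS X v / ν + avS Y u / ν) / 2) ≤
          cost k G (cA κ u) (cA κ v) (fun x => u x + v x) + C / k ∧
        (Y.Nonempty → avS X v / ν ≤ 2 * κ) ∧ (X.Nonempty → avS Y u / ν ≤ 2 * κ)) ∧
      (∀ X₁ X₂ Y₁ Y₂ : Set V, X₁ ⊆ cA κ v → X₂ ⊆ cA κ v → Y₁ ⊆ cA κ u → Y₂ ⊆ cA κ u →
        (Disjoint X₁ X₂ ∨ Disjoint Y₁ Y₂) → (∀ b ∈ X₁, ∀ a ∈ Y₁, ¬ G.Adj b a) →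
        (∀ b ∈ X₂, ∀ a ∈ Y₂, ¬ G.Adj b a) →
        k * ((avS X₁ v / ν) * (avS Y₁ u / ν) + (avS X₂ v / ν) * (avS Y₂ u / ν)) ≤
          cost k G (cA κ u) (cA κ v) (fun x => u x + v x) + C / k) ∧
      (∀ z ∈ cA κ u, ∀ X : Set V, X ⊆ cA κ v → (∀ b ∈ X, ¬ G.Adj z b) →
        1 - (1 + C / k - avS X v / ν) ^ 2 - C / k ≤ om u v z ∧ u z ≤ 1 + C / k - avS X v / ν)

/-- PKT. The path sums of the amplitude system. -/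
def Stmt_PKT : Prop :=
  ∀ (t : ℕ) (ρ : ℝ), 0 < ρ → ρ ≤ 1 → ∃ C : ℝ, 1 ≤ C ∧ ∀ κ : ℝ, 0 < κ → κ ≤ 1 / 20 →
    ∃ k0 : ℕ, ∀ k : ℕ, k0 ≤ k →
    ∀ (V : Type) [Fintype V] (G : SimpleGraph V) (ν γ δ ξ : ℝ) (u v : V → ℝ), ξ ≤ 1 / 2 →
      Sys t k ξ G ν γ δ u v → (∀ x ∈ cR κ u v, ρ ≤ om u v x) →
      (∀ S ⊆ cR κ u v, |Kf t G (cR κ u v) (ee G ν (cA κ u) u) (ee G ν (cA κ v) v) S -
        δ / 4 * avS S (om u v)| ≤ C / k * δ * ms S) ∧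
      |Zf t G (cR κ u v) (ee G ν (cA κ u) u) (ee G ν (cA κ v) v) - δ / (2 * k)| ≤
        C / k * (δ / k) ∧
      (∀ x ∈ cR κ u v, 0 < ee G ν (cA κ u) u x →
        u x ≤ (1 + C / k) * (aP G (cR κ u v) (ee G ν (cA κ v) v) (2 * t) x +
          aP G (cR κ u v) (ee G ν (cA κ u) u) (2 * t + 1) x) + C * (1 / (k : ℝ)) ^ (2 * t + 2)) ∧
      (∀ x ∈ cR κ u v, 0 < ee G ν (cA κ v) v x →
        v x ≤ (1 + C / k) * (aP G (cR κ u v) (ee G ν (cA κ u) u) (2 * t) x +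
          aP G (cR κ u v) (ee G ν (cA κ v) v) (2 * t + 1) x) + C * (1 / (k : ℝ)) ^ (2 * t + 2))

/-- CMA. The combinatorial system, part 1. -/
def Stmt_CMA : Prop :=
  ∀ (t : ℕ) (ρ : ℝ), 0 < ρ → ρ ≤ 1 → ∃ C0 : ℝ, 1 ≤ C0 ∧ ∀ C : ℝ, C0 ≤ C →
    ∀ κ : ℝ, 0 < κ → κ ≤ 1 / 20 → ∃ k0 : ℕ, ∀ k : ℕ, k0 ≤ k →
    ∀ (V : Type) [Fintype V] (G : SimpleGraph V) (ν γ δ ξ : ℝ) (u v : V → ℝ), ξ ≤ 1 / 2 →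
      Sys t k ξ G ν γ δ u v → (∀ x ∈ cR κ u v, ρ ≤ om u v x) →
      Cmb t k κ C ξ G (cA κ u) (cA κ v) (cR κ u v) (ee G ν (cA κ u) u) (ee G ν (cA κ v) v)
        (om u v) δ (cost k G (cA κ u) (cA κ v) (fun x => u x + v x))

/-- CMX. The combinatorial system, part 2. -/
def Stmt_CMX : Prop :=
  ∀ (t : ℕ) (ρ : ℝ), 0 < ρ → ρ ≤ 1 → ∃ C0 : ℝ, 1 ≤ C0 ∧ ∀ C : ℝ, C0 ≤ C →
    ∀ κ : ℝ, 0 < κ → κ ≤ 1 / 20 → ∃ k0 : ℕ, ∀ k : ℕ, k0 ≤ k →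
    ∀ (V : Type) [Fintype V] (G : SimpleGraph V) (ν γ δ ξ : ℝ) (u v : V → ℝ), ξ ≤ 1 / 2 →
      Sys t k ξ G ν γ δ u v → (∀ x ∈ cR κ u v, ρ ≤ om u v x) →
      Ext t k κ C G ν δ (cost k G (cA κ u) (cA κ v) (fun x => u x + v x)) u v

/-- CMB. The combinatorial system. -/
def Stmt_CMB : Prop :=
  ∀ (t : ℕ) (ρ : ℝ), 0 < ρ → ρ ≤ 1 → ∃ C : ℝ, 1 ≤ C ∧ ∀ κ : ℝ, 0 < κ → κ ≤ 1 / 20 →
    ∃ k0 : ℕ, ∀ k : ℕ, k0 ≤ k →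
    ∀ (V : Type) [Fintype V] (G : SimpleGraph V) (ν γ δ ξ : ℝ) (u v : V → ℝ), ξ ≤ 1 / 2 →
      Sys t k ξ G ν γ δ u v → (∀ x ∈ cR κ u v, ρ ≤ om u v x) →
      Cmb t k κ C ξ G (cA κ u) (cA κ v) (cR κ u v) (ee G ν (cA κ u) u) (ee G ν (cA κ v) v)
        (om u v) δ (cost k G (cA κ u) (cA κ v) (fun x => u x + v x)) ∧
      Ext t k κ C G ν δ (cost k G (cA κ u) (cA κ v) (fun x => u x + v x)) u v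

/-! ## Part 2: the combinatorial system -/

/-- GRA. Graph facts about crossings. -/
def Stmt_GRA : Prop :=
  ∀ (t k : ℕ) (κ C : ℝ) (V : Type) [Fintype V] (G : SimpleGraph V) (A B R : Set V)
    (eA eB ω : V → ℝ) (ξ δ cc : ℝ), 0 < κ →
    Cmb t k κ C ξ G A B R eA eB ω δ cc → Gfa t k κ C G A B R eA eB cc

/-- GRB. Graph facts about the sets `Gj`. -/
def Stmt_GRB : Prop :=
  ∀ (t k : ℕ) (κ κ0 C : ℝ) (V : Type) [Fintype V] (G : SimpleGraph V) (A B R : Set V)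
    (eA eB ω : V → ℝ) (ξ δ cc : ℝ), 0 < κ → 2 * κ ≤ κ0 →
    Cmb t k κ C ξ G A B R eA eB ω δ cc → Gfb t κ κ0 G R eA eB

/-- VM. Masses. -/
def Stmt_VM : Prop :=
  ∀ t : ℕ, ∃ K : ℝ, 1 ≤ K ∧ ∀ κ : ℝ, 0 < κ → κ ≤ 1 / 20 → ∀ C : ℝ, ∃ k0 : ℕ, ∀ k : ℕ, k0 ≤ k →
    ∀ (V : Type) [Fintype V] (G : SimpleGraph V) (A B R : Set V) (eA eB ω : V → ℝ) (ξ δ cc : ℝ),
      ξ ≤ 1 / 2 → Cmb t k κ C ξ G A B R eA eB ω δ cc →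
      0 ≤ 4 * k * PS G R (2 * t + 1) (wI t eA eB) / δ ∧
      4 * k * PS G R (2 * t + 1) (wI t eA eB) / δ ≤ 1 + κ ^ 2 ∧
      |k * avS R ω - (2 * t + 2 - 4 * k * PS G R (2 * t + 1) (wI t eA eB) / δ)| ≤ κ ^ 2 ∧
      (∀ l, 1 ≤ l → l ≤ 2 * t + 1 → k * avS (Vl t G R A B l) ω ≤ 1 + K * κ ^ 2) ∧
      1 / 8 ≤ DD t k δ

/-- VI. The bound for the crossings of type I. -/
def Stmt_VI : Prop :=
  ∀ (t : ℕ) (κ : ℝ), 0 < κ → κ ≤ 1 / 20 → ∀ C : ℝ, ∃ k0 : ℕ, ∀ k : ℕ, k0 ≤ k →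
    ∀ (V : Type) [Fintype V] (G : SimpleGraph V) (A B R : Set V) (eA eB ω : V → ℝ) (ξ δ cc : ℝ),
      ξ ≤ 1 / 2 → Cmb t k κ C ξ G A B R eA eB ω δ cc →
      4 * k * PS G R (2 * t + 1) (wI t eA eB) / δ * DD t k δ ≤
        (cc + κ ^ 2) * (∏ l ∈ Finset.Icc 1 (2 * t + 1), k * avS (Vl t G R A B l) ω) *
          (1 + κ ^ 2)

/-- TI. `D ≥ 1 - K κ`. -/
def Stmt_TI : Prop :=
  ∀ t : ℕ, ∃ K : ℝ, 1 ≤ K ∧ ∀ κ : ℝ, 0 < κ → κ ≤ 1 / 20 → ∀ C : ℝ, ∃ k0 : ℕ, ∀ k : ℕ, k0 ≤ k →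
    ∀ (V : Type) [Fintype V] (G : SimpleGraph V) (A B R : Set V) (eA eB ω : V → ℝ) (ξ δ cc : ℝ),
      ξ ≤ κ ^ 2 → Cmb t k κ C ξ G A B R eA eB ω δ cc → 1 - K * κ ≤ DD t k δ

/-- GM2. Each `G_j` has mass at most `2 / k`. (`j` is the position minus one.) -/
def Stmt_GM2 : Prop :=
  ∀ (t : ℕ) (κ κ0 : ℝ), 0 < κ → κ ≤ 1 / 20 → 2 * κ ≤ κ0 → ∀ C : ℝ, ∃ k0 : ℕ, ∀ k : ℕ, k0 ≤ k →
    ∀ (V : Type) [Fintype V] (G : SimpleGraph V) (A B R : Set V) (eA eB ω : V → ℝ) (ξ δ cc : ℝ),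
      ξ ≤ 1 / 2 → Cmb t k κ C ξ G A B R eA eB ω δ cc →
      ∀ j, k * avS (Gj t G R eA κ0 j) ω ≤ 2 * (1 + κ ^ 2)

/-- FB. The elementary bound for the end factors of crossings of type II. -/
def Stmt_FB : Prop :=
  ∀ κ0 : ℝ, 0 < κ0 → κ0 ≤ 1 / 4 → ∃ h : ℝ, 0 < h ∧ ∀ a b : ℝ, 0 ≤ a → 0 ≤ b →
    a ≤ 1 - κ0 + h → b ≤ 1 - κ0 + h → a + b ≤ 1 + h →
    a * b ≤ 1 / 2 * (1 - κ0 / 4) * ((1 - (a + h) ^ 2) * (1 - (b + h) ^ 2))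

/-- TJ. No crossing of type II has two fat ends. -/
def Stmt_TJ : Prop :=
  ∀ t : ℕ, ∃ K : ℝ, 1 ≤ K ∧ ∃ κs : ℝ, 0 < κs ∧ ∀ κ κ0 : ℝ, 0 < κ → K * κ ≤ κ0 → κ0 ≤ κs →
    ∀ C : ℝ, ∃ k0 : ℕ, ∀ k : ℕ, k0 ≤ k →
    ∀ (V : Type) [Fintype V] (G : SimpleGraph V) (A B R : Set V) (eA eB ω : V → ℝ) (ξ δ cc : ℝ),
      ξ ≤ κ ^ 2 → Cmb t k κ C ξ G A B R eA eB ω δ cc →
      ∀ y : Fin (2 * t + 2) → V, TyC t G R eA y → κ0 < eA (y 0) →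
        ¬ κ0 < eA (y (Fin.last (2 * t + 1)))

/-- GM1. Under the conclusion of TJ each `G_j`, `1 ≤ j`, has mass at most `(1 + K κ0 ^ 2) / k`. -/
def Stmt_GM1 : Prop :=
  ∀ t : ℕ, ∃ K : ℝ, 1 ≤ K ∧ ∀ κ κ0 : ℝ, 0 < κ → κ ≤ 1 / 20 → 2 * κ ≤ κ0 → κ0 ≤ 1 / 4 →
    ∀ C : ℝ, ∃ k0 : ℕ, ∀ k : ℕ, k0 ≤ k →
    ∀ (V : Type) [Fintype V] (G : SimpleGraph V) (A B R : Set V) (eA eB ω : V → ℝ) (ξ δ cc : ℝ),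
      ξ ≤ 1 / 2 → Cmb t k κ C ξ G A B R eA eB ω δ cc →
      (∀ y : Fin (2 * t + 2) → V, TyC t G R eA y → κ0 < eA (y 0) →
        ¬ κ0 < eA (y (Fin.last (2 * t + 1)))) →
      ∀ j, 1 ≤ j → k * avS (Gj t G R eA κ0 j) ω ≤ 1 + K * κ0 ^ 2

/-- TK. There are no fat vertices. -/
def Stmt_TK : Prop :=
  ∀ t : ℕ, ∃ K : ℝ, 1 ≤ K ∧ ∃ κs : ℝ, 0 < κs ∧ ∀ κ κ0 : ℝ, 0 < κ → K * κ ≤ κ0 → κ0 ≤ κs →
    ∀ C : ℝ, ∃ k0 : ℕ, ∀ k : ℕ, k0 ≤ k →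
    ∀ (V : Type) [Fintype V] (G : SimpleGraph V) (A B R : Set V) (eA eB ω : V → ℝ) (ξ δ cc : ℝ),
      ξ ≤ κ ^ 2 → Cmb t k κ C ξ G A B R eA eB ω δ cc →
      ∀ z ∈ R, κ0 < eA z → 1 - κ0 ≤ eA z

/-- GAP. -/
def Stmt_GAP : Prop :=
  ∀ t : ℕ, ∃ κs : ℝ, 0 < κs ∧ ∀ κ : ℝ, 0 < κ → κ ≤ κs → ∃ ξ0 : ℝ, 0 < ξ0 ∧ ∃ k0 : ℕ, ∀ k : ℕ,
    k0 ≤ k → ∀ (V : Type) [Fintype V] (G : SimpleGraph V) (ν γ δ ξ : ℝ) (u v : V → ℝ), ξ ≤ ξ0 →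
      Sys t k ξ G ν γ δ u v → ∀ x, (u x ≤ κ ∧ v x ≤ κ) ∨ 1 - κ ≤ u x ∨ 1 - κ ≤ v x

/-- SM. When all ends are small, nearly all crossings are of type I. -/
def Stmt_SM : Prop :=
  ∀ t : ℕ, ∃ K : ℝ, 1 ≤ K ∧ ∃ κs : ℝ, 0 < κs ∧ ∀ κ : ℝ, 0 < κ → κ ≤ κs → ∀ C : ℝ,
    ∃ k0 : ℕ, ∀ k : ℕ, k0 ≤ k →
    ∀ (V : Type) [Fintype V] (G : SimpleGraph V) (A B R : Set V) (eA eB ω : V → ℝ) (ξ δ cc : ℝ),
      ξ ≤ κ ^ 2 → Cmb t k κ C ξ G A B R eA eB ω δ cc → (∀ x ∈ R, eA x ≤ 2 * κ ∧ eB x ≤ 2 * κ) →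
      (∀ x ∈ R, 1 - K * κ ^ 2 ≤ ω x) ∧ ms R ≤ (2 * t + 2) / k ∧
      (∀ S : Set V, S ⊆ R →
        PS G R (2 * t + 2) (fun y => (wC t eA y + wC t eB y) * vis S y) ≤
          K * κ ^ 2 * δ * ms S) ∧
      |DD t k δ - 1| ≤ K * κ ∧ cc ≤ 1 + K * κ ∧
      (∀ l, 1 ≤ l → l ≤ 2 * t + 1 → 1 - K * κ ≤ k * avS (Vl t G R A B l) ω) ∧
      (∀ l, 1 ≤ l → l ≤ 2 * t + 1 → k * avS (Vl t G R A B l) ω ≤ 1 + K * κ)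

/-- TM. The structure of `R`. -/
def Stmt_TM : Prop :=
  ∀ t : ℕ, ∃ K : ℝ, 1 ≤ K ∧ ∃ κs : ℝ, 0 < κs ∧ ∀ κ : ℝ, 0 < κ → κ ≤ κs → ∀ C : ℝ,
    ∃ k0 : ℕ, ∀ k : ℕ, k0 ≤ k →
    ∀ (V : Type) [Fintype V] (G : SimpleGraph V) (A B R : Set V) (eA eB ω : V → ℝ) (ξ δ cc : ℝ),
      ξ ≤ κ ^ 2 → Cmb t k κ C ξ G A B R eA eB ω δ cc → (∀ x ∈ R, eA x ≤ 2 * κ ∧ eB x ≤ 2 * κ) →
      Stc t k κ K G A B R eA eB δ cc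

/-- TN. Core vertices adjacent to `V_(2 t + 1)`. -/
def Stmt_TN : Prop :=
  ∀ (t : ℕ) (C K0 : ℝ), ∃ K : ℝ, 1 ≤ K ∧ ∃ κs : ℝ, 0 < κs ∧ ∀ κ : ℝ, 0 < κ → κ ≤ κs →
    ∃ k0 : ℕ, ∀ k : ℕ, k0 ≤ k →
    ∀ (V : Type) [Fintype V] (G : SimpleGraph V) (ν δ ξ cc : ℝ) (u v : V → ℝ),
      Cmb t k κ C ξ G (cA κ u) (cA κ v) (cR κ u v) (ee G ν (cA κ u) u) (ee G ν (cA κ v) v)
        (om u v) δ cc →
      Ext t k κ C G ν δ cc u v → (∀ x ∈ cR κ u v, u x ≤ κ ∧ v x ≤ κ) →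
      Stc t k κ K0 G (cA κ u) (cA κ v) (cR κ u v) (ee G ν (cA κ u) u) (ee G ν (cA κ v) v) δ cc →
      ∀ z ∈ cA κ u, ∀ x ∈ cR κ u v, G.Adj z x →
        (1 - K * κ) / k ≤
          ms (G.neighborSet z ∩ Vl t G (cR κ u v) (cA κ u) (cA κ v) (2 * t + 1))

/-- TO1. The edges. -/
def Stmt_TO1 : Prop :=
  ∀ (t : ℕ) (C K0 K1 : ℝ), ∃ κs : ℝ, 0 < κs ∧ ∀ κ : ℝ, 0 < κ → κ ≤ κs →
    ∃ k0 : ℕ, ∀ k : ℕ, k0 ≤ k →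
    ∀ (V : Type) [Fintype V] (G : SimpleGraph V) (ν δ ξ cc : ℝ) (u v : V → ℝ),
      Cmb t k κ C ξ G (cA κ u) (cA κ v) (cR κ u v) (ee G ν (cA κ u) u) (ee G ν (cA κ v) v)
        (om u v) δ cc →
      Ext t k κ C G ν δ cc u v →
      Stc t k κ K0 G (cA κ u) (cA κ v) (cR κ u v) (ee G ν (cA κ u) u) (ee G ν (cA κ v) v) δ cc →
      (∀ z ∈ cA κ u, ∀ x ∈ cR κ u v, G.Adj z x → (1 - K1 * κ) / k ≤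
        ms (G.neighborSet z ∩ Vl t G (cR κ u v) (cA κ u) (cA κ v) (2 * t + 1))) →
      (∀ z ∈ cA κ v, ∀ x ∈ cR κ u v, G.Adj z x → (1 - K1 * κ) / k ≤
        ms (G.neighborSet z ∩ Vl t G (cR κ u v) (cA κ u) (cA κ v) 1)) →
      Edg t G (cA κ u) (cA κ v) (cR κ u v)

/-- TO. The homomorphism to the cycle. -/
def Stmt_TO : Prop :=
  ∀ (t : ℕ) (C K0 K1 : ℝ), ∃ κs : ℝ, 0 < κs ∧ ∀ κ : ℝ, 0 < κ → κ ≤ κs →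
    ∃ k0 : ℕ, ∀ k : ℕ, k0 ≤ k →
    ∀ (V : Type) [Fintype V] (G : SimpleGraph V) (ν δ ξ cc : ℝ) (u v : V → ℝ),
      Cmb t k κ C ξ G (cA κ u) (cA κ v) (cR κ u v) (ee G ν (cA κ u) u) (ee G ν (cA κ v) v)
        (om u v) δ cc →
      Ext t k κ C G ν δ cc u v → (∀ x ∈ cR κ u v, u x ≤ κ ∧ v x ≤ κ) →
      Stc t k κ K0 G (cA κ u) (cA κ v) (cR κ u v) (ee G ν (cA κ u) u) (ee G ν (cA κ v) v) δ cc →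
      (∀ z ∈ cA κ u, ∀ x ∈ cR κ u v, G.Adj z x → (1 - K1 * κ) / k ≤
        ms (G.neighborSet z ∩ Vl t G (cR κ u v) (cA κ u) (cA κ v) (2 * t + 1))) →
      (∀ z ∈ cA κ v, ∀ x ∈ cR κ u v, G.Adj z x → (1 - K1 * κ) / k ≤
        ms (G.neighborSet z ∩ Vl t G (cR κ u v) (cA κ u) (cA κ v) 1)) →
      ∃ f : V → Fin (2 * t + 5),
        (∀ x y, G.Adj x y → (SimpleGraph.cycleGraph (2 * t + 5)).Adj (f x) (f y)) ∧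
        ∀ i, 1 / (8 * k) ≤ ms {x | f x = i}

/-- CORE. -/
def Stmt_CORE : Prop :=
  ∀ t : ℕ, ∃ ξ0 : ℝ, 0 < ξ0 ∧ ∃ k0 : ℕ, ∀ k : ℕ, k0 ≤ k →
    ∀ (V : Type) [Fintype V] (G : SimpleGraph V) (ν γ δ ξ : ℝ) (u v : V → ℝ), ξ ≤ ξ0 →
      Sys t k ξ G ν γ δ u v → ∃ f : V → Fin (2 * t + 5),
        (∀ x y, G.Adj x y → (SimpleGraph.cycleGraph (2 * t + 5)).Adj (f x) (f y)) ∧
        ∀ i, 1 / (8 * k) ≤ ms {x | f x = i}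

/-! ## Part 3: spectral theory -/

/-- SPA. The spectral theorem. -/
def Stmt_SPA : Prop :=
  ∀ (V : Type) [Fintype V] [Nonempty V] (G : SimpleGraph V), ∃ (lam : V → ℝ) (q : V → V → ℝ),
    (∀ i, av (fun x => q i x ^ 2) = 1) ∧ (∀ i j, i ≠ j → av (fun x => q i x * q j x) = 0) ∧
    (∀ i x, Wop G (q i) x = lam i * q i x) ∧
    (∀ k x, hh G k x = ∑ i, lam i ^ k * q i x ^ 2) ∧
    (∀ f : V → ℝ, av (fun x => f x ^ 2) = ∑ i, av (fun x => f x * q i x) ^ 2) ∧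
    (∀ f : V → ℝ, av (fun x => f x * Wop G f x) = ∑ i, lam i * av (fun x => f x * q i x) ^ 2)

/-- SPT. Traces. -/
def Stmt_SPT : Prop :=
  ∀ (V : Type) [Fintype V] [Nonempty V] (G : SimpleGraph V) (t : ℕ), OddG t G →
    (∀ x, hh G 2 x ≤ 1) ∧ (∀ x, 0 ≤ hh G 2 x) ∧ av (hh G 2) ≤ 1 / 2 ∧ av (hh G 3) = 0

/-- SPC. The extreme eigenvalues. -/
def Stmt_SPC : Prop :=
  ∀ (V : Type) [Fintype V] [Nonempty V] (G : SimpleGraph V) (t : ℕ), OddG t G →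
    ∃ lam : ℝ, 0 ≤ lam ∧ lam ≤ 1 / 2 ∧ (∀ k, Odd k → 3 ≤ k → av (hh G k) ≤ lam ^ (k - 2) / 2) ∧
      (1 / 2 - lam ≤ 1 / 100 → ∃ (mu : ℝ) (φ ψ : V → ℝ), 0 < mu ∧ mu ≤ lam ∧
        1 / 2 - 5 * (1 / 2 - lam) ≤ mu ∧
        lam ^ 3 - mu ^ 3 ≤ 6 * (1 / 2 - lam) * Real.sqrt (6 * (1 / 2 - lam)) ∧
        (∀ x, Wop G φ x = lam * φ x) ∧ (∀ x, Wop G ψ x = -mu * ψ x) ∧ (∀ x, 0 ≤ φ x) ∧
        av (fun x => φ x ^ 2) = 1 ∧ av (fun x => ψ x ^ 2) = 1 ∧ av (fun x => φ x * ψ x) = 0 ∧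
        ∀ k x, 2 ≤ k → |hh G k x - (lam ^ k * φ x ^ 2 + (-mu) ^ k * ψ x ^ 2)| ≤
          Real.sqrt (6 * (1 / 2 - lam)) ^ (k - 2))

/-- SPB. From balanced closed walk counts to the amplitude system. -/
def Stmt_SPB : Prop :=
  ∀ (t : ℕ) (ξ : ℝ), 0 < ξ → ξ ≤ 1 / 2 → ∃ k0 : ℕ, ∀ k : ℕ, k0 ≤ k → Odd k → ∃ ε : ℝ, 0 < ε ∧
    ∀ (V : Type) [Fintype V] [Nonempty V] (G : SimpleGraph V), OddG t G →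
      (∀ x, |hh G k x - av (hh G k)| ≤ ε) → lowb t k * (1 - ξ / 2) - ε ≤ av (hh G k) →
      ∃ (ν γ δ : ℝ) (u v : V → ℝ), Sys t k ξ G ν γ δ u v

/-! ## Part 4: extremal graphs -/

/-- TRC. -/
def Stmt_TRC : Prop :=
  ∀ (V : Type) [Fintype V] [Nonempty V] (G : SimpleGraph V) (k : ℕ) (x : V), 3 ≤ k →
    hh G k x * (Fintype.card V : ℝ) ^ (k - 1) = cwx G k x

/-- LBL. -/
def Stmt_LBL : Prop :=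
  ∀ (n k : ℕ) (G G' : SimpleGraph (Fin n)), 3 ≤ k →
    G'.copyCount (SimpleGraph.cycleGraph k) ≤ G.copyCount (SimpleGraph.cycleGraph k) →
    lc G' k ≤ lc G k

/-- FRE. -/
def Stmt_FRE : Prop :=
  ∀ (V : Type) [Fintype V] (G : SimpleGraph V) (l : ℕ),
    (SimpleGraph.cycleGraph l).Free G ↔ Fr l G

/-- INJ. -/
def Stmt_INJ : Prop :=
  ∀ (V : Type) [Fintype V] (G : SimpleGraph V) (k : ℕ), 3 ≤ k →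
    lc G k ≤ cwn G k ∧ cwn G k ≤ lc G k + k ^ 2 * Fintype.card V ^ (k - 1)

/-- ODD. -/
def Stmt_ODD : Prop :=
  ∀ t : ℕ, (∀ (W : Type) (F : W → Fin (2 * t + 5)), OddG t (BU t F)) ∧
    (∀ (W : Type) (G : SimpleGraph W), OddG t G → Fr (2 * t + 3) G) ∧
    (∀ (W W' : Type) (G : SimpleGraph W) (π : W' → W), OddG t G → OddG t (G.comap π))

/-- OCW. Odd closed walks contain odd cycles. -/
def Stmt_OCW : Prop :=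
  ∀ (W : Type) (G : SimpleGraph W) (x : W) (p : G.Walk x x), Odd p.length →
    ∃ (m : ℕ) (y : Fin m → W), Odd m ∧ 3 ≤ m ∧ m ≤ p.length ∧ y ∈ cws G m ∧
      Function.Injective y

/-- REA. Few edges lie on short odd cycles. -/
def Stmt_REA : Prop :=
  ∀ (t m : ℕ) (ε : ℝ), Odd m → 3 ≤ m → m ≤ 2 * t + 1 → 0 < ε → ∃ n0 : ℕ, ∀ n : ℕ, n0 ≤ n →
    ∀ G : SimpleGraph (Fin n), Fr (2 * t + 3) G →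
      (({p : Fin n × Fin n | ∃ y ∈ cws G m, Function.Injective y ∧ ∃ i j : Fin m,
        (SimpleGraph.cycleGraph m).Adj i j ∧ y i = p.1 ∧ y j = p.2}.ncard : ℕ) : ℝ) ≤ ε * n ^ 2

/-- REM. Removal lemma. -/
def Stmt_REM : Prop :=
  ∀ (t : ℕ) (ε : ℝ), 0 < ε → ∃ n0 : ℕ, ∀ n : ℕ, n0 ≤ n → ∀ G : SimpleGraph (Fin n),
    Fr (2 * t + 3) G → ∃ H : SimpleGraph (Fin n), H ≤ G ∧ OddG t H ∧
      (({p : Fin n × Fin n | G.Adj p.1 p.2 ∧ ¬ H.Adj p.1 p.2}.ncard : ℕ) : ℝ) ≤ ε * n ^ 2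

/-- EVC. Supersaturation for even closed walks. -/
def Stmt_EVC : Prop :=
  ∀ (n r : ℕ) (G : SimpleGraph (Fin n)), 2 ≤ r →
    ((({p : Fin n × Fin n | G.Adj p.1 p.2}.ncard : ℕ) : ℝ) / n) ^ (2 * r) ≤ cwn G (2 * r)

/-- LWA. Counting closed walks in the blow-up. -/
def Stmt_LWA : Prop :=
  ∀ (t k n : ℕ) (α β χ : ℝ) (F : Fin n → Fin (2 * t + 5)), Odd k → 2 * t + 5 ≤ k →
    0 < α → 0 ≤ β → 0 ≤ χ →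
    (∀ i : Fin (2 * t + 5), (i : ℕ) ≤ 1 → α ≤ (({x | F x = i}.ncard : ℕ) : ℝ)) →
    (∀ i : Fin (2 * t + 5), (i : ℕ) = 2 ∨ (i : ℕ) = 2 * t + 4 →
      β ≤ (({x | F x = i}.ncard : ℕ) : ℝ)) →
    (∀ i : Fin (2 * t + 5), 3 ≤ (i : ℕ) → (i : ℕ) ≤ 2 * t + 3 →
      χ ≤ (({x | F x = i}.ncard : ℕ) : ℝ)) →
    2 * k * χ ^ (2 * t + 1) * β ^ 2 * α ^ 2 * (α + β) ^ (k - (2 * t + 5)) *
      (1 - (β / (α + β)) ^ 2) ^ k ≤ cwn (BU t F) k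

/-- LOW. The optimal blow-up. -/
def Stmt_LOW : Prop :=
  ∀ (t : ℕ) (ξ : ℝ), 0 < ξ → ∃ k0 : ℕ, ∀ k : ℕ, k0 ≤ k → Odd k → ∃ n0 : ℕ, ∀ n : ℕ, n0 ≤ n →
    ∃ F : Fin n → Fin (2 * t + 5), lowb t k * (1 - ξ) * n ^ k ≤ cwn (BU t F) k

/-- BLA. Cloning. -/
def Stmt_BLA : Prop :=
  ∀ (n k : ℕ) (H : SimpleGraph (Fin n)) (L : Finset (Fin n)) (x : Fin n), 3 ≤ k →
    cwn H k + k * L.card * cwx H k x ≤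
      cwn (H.comap fun y => if y ∈ L then x else y) k + k * ∑ z ∈ L, cwx H k z +
        k ^ 2 * L.card ^ 2 * n ^ (k - 2)

/-- BAL. Balancing. -/
def Stmt_BAL : Prop :=
  ∀ (t k : ℕ) (ε : ℝ), 3 ≤ k → 0 < ε → ∃ n0 : ℕ, ∀ n : ℕ, n0 ≤ n → ∀ G : SimpleGraph (Fin n),
    MxL t k G → ∃ (S : Finset (Fin n)) (H : SimpleGraph (Fin n)), Bal t k ε G S H

/-- BUE. Every edge of the blow-up lies on many closed walks. -/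
def Stmt_BUE : Prop :=
  ∀ (t k n : ℕ) (c : ℝ) (G : SimpleGraph (Fin n)) (F : Fin n → Fin (2 * t + 5)), Odd k →
    2 * t + 5 ≤ k → 0 ≤ c → (∀ i, c * n ≤ (({x | F x = i}.ncard : ℕ) : ℝ)) →
    (cwn (G ⊓ BU t F) k : ℝ) + (c * n) ^ (k - 2) *
      (({p : Fin n × Fin n | (BU t F).Adj p.1 p.2 ∧ ¬ G.Adj p.1 p.2}.ncard : ℕ) : ℝ) ≤
        cwn (BU t F) k

/-- EX1. -/
def Stmt_EX1 : Prop :=
  ∀ (t k : ℕ) (c ε1 : ℝ), Odd k → 2 * t + 5 ≤ k → 0 < c → 0 < ε1 → ∃ ε : ℝ, 0 < ε ∧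
    ∃ n0 : ℕ, ∀ n : ℕ, n0 ≤ n → ∀ G : SimpleGraph (Fin n), MxL t k G →
      ∀ (S : Finset (Fin n)) (H : SimpleGraph (Fin n)), Bal t k ε G S H →
        ∀ f : {x // x ∈ S} → Fin (2 * t + 5),
          (∀ x y, (H.comap (Subtype.val : {x // x ∈ S} → Fin n)).Adj x y →
            (SimpleGraph.cycleGraph (2 * t + 5)).Adj (f x) (f y)) →
          (∀ i, c ≤ ms {x | f x = i}) → ∃ (τ : ℝ) (F : Fin n → Fin (2 * t + 5)),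
            NB t k (c / 2) ε1 τ G F

/-- EX2A. -/
def Stmt_EX2A : Prop :=
  ∀ (t n : ℕ) (G : SimpleGraph (Fin n)) (z : Fin n) (u : Fin (2 * t + 3) → Fin n),
    Fr (2 * t + 3) G → Function.Injective u → (∀ i, u i ≠ z) →
    Fr (2 * t + 3) (rpl G z {w | ∀ i, G.Adj (u i) w})

/-- EX2B. -/
def Stmt_EX2B : Prop :=
  ∀ (t k n : ℕ) (G : SimpleGraph (Fin n)) (z : Fin n) (N : Set (Fin n)), 3 ≤ k →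
    MxL t k G → Fr (2 * t + 3) (rpl G z N) →
    cwx (rpl G z N) k z ≤ cwx G k z + k ^ 2 * n ^ (k - 2)

/-- EX2. -/
def Stmt_EX2 : Prop :=
  ∀ (t k : ℕ) (c θ : ℝ), Odd k → 2 * t + 5 ≤ k → 0 < c → 0 < θ → ∃ ε : ℝ, 0 < ε ∧
    ∃ n0 : ℕ, ∀ n : ℕ, n0 ≤ n → ∀ G : SimpleGraph (Fin n), MxL t k G →
      ∀ (τ : ℝ) (F : Fin n → Fin (2 * t + 5)), NB t k c ε τ G F →
        ∀ z, τ - θ ≤ (cwx G k z : ℝ) / n ^ (k - 1)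

/-- CYW. Walks in the cycle. -/
def Stmt_CYW : Prop :=
  ∀ (t : ℕ) (i j : Fin (2 * t + 5)),
    ((SimpleGraph.cycleGraph (2 * t + 5)).Adj i j ∨
      (∃ p : (SimpleGraph.cycleGraph (2 * t + 5)).Walk i j, p.length = 2 * t + 2)) ∧
    (i = j ∨ (∃ c, (SimpleGraph.cycleGraph (2 * t + 5)).Adj c i ∧
        (SimpleGraph.cycleGraph (2 * t + 5)).Adj c j) ∨
      (∃ p : (SimpleGraph.cycleGraph (2 * t + 5)).Walk i j, p.length = 2 * t + 1)) ∧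
    (∀ k, Odd k → 2 * t + 5 ≤ k → ∀ c, (SimpleGraph.cycleGraph (2 * t + 5)).Adj c i →
        (SimpleGraph.cycleGraph (2 * t + 5)).Adj c j → i ≠ j →
      ∃ p : (SimpleGraph.cycleGraph (2 * t + 5)).Walk i j, p.length = k - 2)

/-- EMB. Embedding lemma in a near blow-up. -/
def Stmt_EMB : Prop :=
  ∀ (t m : ℕ) (θ : ℝ), 0 < θ → ∃ ε : ℝ, 0 < ε ∧ ∃ n0 : ℕ, ∀ n : ℕ, n0 ≤ n →
    ∀ (G : SimpleGraph (Fin n)) (F : Fin n → Fin (2 * t + 5)),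
      (({p : Fin n × Fin n | (BU t F).Adj p.1 p.2 ∧ ¬ G.Adj p.1 p.2}.ncard : ℕ) : ℝ) ≤ ε * n ^ 2 →
      ∀ (S : Fin (m + 1) → Set (Fin n)) (a : Fin (m + 1) → Fin (2 * t + 5)) (X : Finset (Fin n)),
        (∀ i, ∀ x ∈ S i, F x = a i) → (∀ i, θ * n ≤ (((S i).ncard : ℕ) : ℝ)) →
        (∀ i j : Fin (m + 1), (i : ℕ) + 1 = j →
          (SimpleGraph.cycleGraph (2 * t + 5)).Adj (a i) (a j)) → X.card ≤ 4 →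
        ∃ y : Fin (m + 1) → Fin n, Function.Injective y ∧ (∀ i, y i ∈ S i) ∧ (∀ i, y i ∉ X) ∧
          ∀ i j : Fin (m + 1), (i : ℕ) + 1 = j → G.Adj (y i) (y j)

/-- EX3A. -/
def Stmt_EX3A : Prop :=
  ∀ (t : ℕ) (c θ : ℝ), 0 < c → 0 < θ → ∃ ε : ℝ, 0 < ε ∧ ∃ n0 : ℕ, ∀ n : ℕ, n0 ≤ n →
    ∀ (G : SimpleGraph (Fin n)) (F : Fin n → Fin (2 * t + 5)), Fr (2 * t + 3) G →
      (∀ i, c * n ≤ (({x | F x = i}.ncard : ℕ) : ℝ)) →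
      (({p : Fin n × Fin n | (BU t F).Adj p.1 p.2 ∧ ¬ G.Adj p.1 p.2}.ncard : ℕ) : ℝ) ≤ ε * n ^ 2 →
      ∀ z, ∃ i, ∀ j, θ * n ≤ (({x | F x = j ∧ G.Adj z x}.ncard : ℕ) : ℝ) →
        (SimpleGraph.cycleGraph (2 * t + 5)).Adj i j

/-- EX3B. -/
def Stmt_EX3B : Prop :=
  ∀ (t k : ℕ) (c θ : ℝ), Odd k → 2 * t + 5 ≤ k → 0 < c → 0 < θ → ∃ ε : ℝ, 0 < ε ∧
    ∃ n0 : ℕ, ∀ n : ℕ, n0 ≤ n →
    ∀ (G : SimpleGraph (Fin n)) (τ : ℝ) (F : Fin n → Fin (2 * t + 5)), NB t k c ε τ G F →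
      ∀ (z : Fin n) (i : Fin (2 * t + 5)),
        (∀ j, ε * n ≤ (({x | F x = j ∧ G.Adj z x}.ncard : ℕ) : ℝ) →
          (SimpleGraph.cycleGraph (2 * t + 5)).Adj i j) →
        τ - ε ≤ (cwx G k z : ℝ) / n ^ (k - 1) →
        ∀ j, (SimpleGraph.cycleGraph (2 * t + 5)).Adj i j →
          (1 - θ) * (({x | F x = j}.ncard : ℕ) : ℝ) ≤ (({x | F x = j ∧ G.Adj z x}.ncard : ℕ) : ℝ)

/-- EX3. -/
def Stmt_EX3 : Prop :=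
  ∀ (t k : ℕ) (c θ : ℝ), Odd k → 2 * t + 5 ≤ k → 0 < c → 0 < θ → ∃ ε : ℝ, 0 < ε ∧
    ∃ n0 : ℕ, ∀ n : ℕ, n0 ≤ n → ∀ G : SimpleGraph (Fin n), Fr (2 * t + 3) G →
      ∀ (τ : ℝ) (F : Fin n → Fin (2 * t + 5)), NB t k c ε τ G F →
        (∀ z, τ - ε ≤ (cwx G k z : ℝ) / n ^ (k - 1)) →
        ∃ F' : Fin n → Fin (2 * t + 5), Rob t θ G F F'

/-- EX4. -/
def Stmt_EX4 : Prop :=
  ∀ (t k : ℕ) (c : ℝ), 0 < c → ∃ θ : ℝ, 0 < θ ∧ ∃ ε : ℝ, 0 < ε ∧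
    ∃ n0 : ℕ, ∀ n : ℕ, n0 ≤ n → ∀ G : SimpleGraph (Fin n), Fr (2 * t + 3) G →
      ∀ (τ : ℝ) (F F' : Fin n → Fin (2 * t + 5)), NB t k c ε τ G F → Rob t θ G F F' →
        G ≤ BU t F' ∧ ∀ i, k ≤ {x | F' x = i}.ncard

/-- EX5. -/
def Stmt_EX5 : Prop :=
  ∀ (t k n : ℕ) (G : SimpleGraph (Fin n)) (F : Fin n → Fin (2 * t + 5)), Odd k → 2 * t + 5 ≤ k →
    MxL t k G → G ≤ BU t F → (∀ i, k ≤ {x | F x = i}.ncard) → G = BU t F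

/-- EXA. -/
def Stmt_EXA : Prop :=
  ∀ (t k : ℕ) (c : ℝ), Odd k → 2 * t + 5 ≤ k → 0 < c → ∃ ε : ℝ, 0 < ε ∧
    ∃ n0 : ℕ, ∀ n : ℕ, n0 ≤ n → ∀ G : SimpleGraph (Fin n), MxL t k G →
      ∀ (S : Finset (Fin n)) (H : SimpleGraph (Fin n)), Bal t k ε G S H →
        ∀ f : {x // x ∈ S} → Fin (2 * t + 5),
          (∀ x y, (H.comap (Subtype.val : {x // x ∈ S} → Fin n)).Adj x y →
            (SimpleGraph.cycleGraph (2 * t + 5)).Adj (f x) (f y)) →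
          (∀ i, c ≤ ms {x | f x = i}) → ∃ F : Fin n → Fin (2 * t + 5), G = BU t F

/-- The theorem. -/
def MainStatement : Prop :=
  ∀ l : ℕ, Odd l → 3 ≤ l → ∃ k0 : ℕ, ∀ k : ℕ, k0 ≤ k → Odd k → ∃ n0 : ℕ, ∀ n : ℕ, n0 ≤ n →
    ∀ G : SimpleGraph (Fin n), (SimpleGraph.cycleGraph l).Free G →
      (∀ G' : SimpleGraph (Fin n), (SimpleGraph.cycleGraph l).Free G' →
        G'.copyCount (SimpleGraph.cycleGraph k) ≤ G.copyCount (SimpleGraph.cycleGraph k)) →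
      ∃ F : Fin n → Fin (l + 2), G = (SimpleGraph.cycleGraph (l + 2)).comap F

end

end Pool.Agent.OCX
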