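import Pool.Agent.OCX.Stmts
import Pool.Agent.OCX.Lib

/-!
# Odd cycles: VI, the bound for the crossings of type I
-/

open scoped BigOperators

namespace Pool.Agent.OCX

namespace VI_

theorem one_sub_sum_le {ι : Type} (s : Finset ι) (w : ι → ℝ) (h0 : ∀ i ∈ s, 0 ≤ w i)
    (h1 : ∀ i ∈ s, w i ≤ 1) : 1 - ∑ i ∈ s, (1 - w i) ≤ ∏ i ∈ s, w i ∧ ∏ i ∈ s, w i ≤ 1 ∧
      0 ≤ ∏ i ∈ s, w i := by
  classical
  induction s using Finset.induction_on with
  | empty => simp
  | insert a s ha ih =>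
    obtain ⟨i1, i2, i3⟩ := ih (fun i hi => h0 i (Finset.mem_insert_of_mem hi))
      (fun i hi => h1 i (Finset.mem_insert_of_mem hi))
    have a0 := h0 a (Finset.mem_insert_self a s)
    have a1 := h1 a (Finset.mem_insert_self a s)
    rw [Finset.sum_insert ha, Finset.prod_insert ha]
    refine ⟨?_, ?_, ?_⟩
    · nlinarith
    · nlinarith
    · positivity

theorem arith {κ h e e' P T c k : ℝ} (hκ : 0 < κ) (hκ1 : κ ≤ 1 / 20) (h0 : 0 ≤ h) (hT : 1 ≤ T)
    (hh : h * (T + 1) ≤ κ ^ 2) (he : 0 ≤ e) (he' : 0 ≤ e') (he1 : e ≤ 2 * κ) (he1' : e' ≤ 2 * κ)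
    (hP0 : 0 ≤ P) (hP : 1 - (T * h ^ 2 + (e ^ 2 + 2 * h * e) + (e' ^ 2 + 2 * h * e')) ≤ P)
    (hk : 0 ≤ k) (hr : k * e * e' * (1 + (e + e') / 2) ≤ c + h) :
    k * (e * e') ≤ (c + κ ^ 2) * (1 + κ ^ 2) * P := by
  have hhκ : h ≤ κ ^ 2 := by nlinarith
  have hκ2 : κ ^ 2 ≤ 1 / 400 := by nlinarith
  have hTh : T * h ^ 2 ≤ κ ^ 2 / 400 := by
    have : T * h ≤ κ ^ 2 := by nlinarith
    have h2 : h ≤ 1 / 400 := by linarith
    nlinarith
  have key : 1 ≤ (1 + κ ^ 2) * ((1 + (e + e') / 2) * P) := by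
    have e1 : e ^ 2 ≤ 1 / 10 * e := by nlinarith
    have e2 : e' ^ 2 ≤ 1 / 10 * e' := by nlinarith
    have e3 : 2 * h * e ≤ 1 / 200 * e := by nlinarith
    have e4 : 2 * h * e' ≤ 1 / 200 * e' := by nlinarith
    have p1 : 1 - κ ^ 2 / 400 - 21 / 200 * (e + e') ≤ P := by linarith
    have p2 : 1 - κ ^ 2 / 2 ≤ (1 + (e + e') / 2) * P := by
      have s1 : e + e' ≤ 1 / 5 := by linarith
      have s0 : 0 ≤ e + e' := by linarith
      calc 1 - κ ^ 2 / 2 ≤ (1 + (e + e') / 2) * (1 - κ ^ 2 / 400 - 21 / 200 * (e + e')) := by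
            nlinarith
        _ ≤ (1 + (e + e') / 2) * P := mul_le_mul_of_nonneg_left p1 (by linarith)
    nlinarith
  have q0 : 0 ≤ k * (e * e') := by positivity
  calc k * (e * e') ≤ k * (e * e') * ((1 + κ ^ 2) * ((1 + (e + e') / 2) * P)) := by
        nlinarith
    _ = (k * e * e' * (1 + (e + e') / 2)) * ((1 + κ ^ 2) * P) := by ring
    _ ≤ (c + h) * ((1 + κ ^ 2) * P) := mul_le_mul_of_nonneg_right hr (by positivity)
    _ ≤ (c + κ ^ 2) * ((1 + κ ^ 2) * P) :=
        mul_le_mul_of_nonneg_right (by linarith) (by positivity)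
    _ = (c + κ ^ 2) * (1 + κ ^ 2) * P := by ring

theorem max_bd {a b h : ℝ} (ha : 0 ≤ a) (hb : 0 ≤ b) (hh : 0 ≤ h) :
    (max a b + h) ^ 2 ≤ h ^ 2 + (b ^ 2 + 2 * h * b) + (a ^ 2 + 2 * h * a) := by
  rcases max_cases a b with ⟨h1, _⟩ | ⟨h1, _⟩
  · rw [h1]
    nlinarith [mul_nonneg hh hb, sq_nonneg b]
  · rw [h1]
    nlinarith [mul_nonneg hh ha, sq_nonneg a]

theorem prod_Icc (n : ℕ) (f : ℕ → ℝ) :
    ∏ l ∈ Finset.Icc 1 n, f l = ∏ i : Fin n, f (i + 1) := by
  rw [← Finset.prod_range (fun i => f (i + 1))]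
  rw [show Finset.Icc 1 n = Finset.Ico 1 (n + 1) from rfl, Finset.prod_Ico_eq_prod_range]
  refine Finset.prod_congr (by simp) fun i _ => ?_
  rw [add_comm]

end VI_

open VI_ in
theorem vi_proof (h1 : Stmt_GRA) : Stmt_VI := by
  intro t κ hκ hκ1 C
  obtain ⟨n, hn⟩ := exists_nat_ge (C * (2 * t + 2) / κ ^ 2)
  refine ⟨n, fun k hk V _ G A B R eA eB ω ξ δ cc hξ hc => ?_⟩
  have gf := h1 t k κ C V G A B R eA eB ω ξ δ cc hκ hc
  have hk1 : (1 : ℝ) ≤ k := by exact_mod_cast hc.k1
  have hk0 : (0 : ℝ) < k := by linarith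
  have hC0 : (0 : ℝ) ≤ C := by linarith [hc.C1]
  have hh0 : 0 ≤ C / k := by positivity
  have hκ2 : 0 < κ ^ 2 := by positivity
  have hh : C / k * ((2 * t + 1 : ℝ) + 1) ≤ κ ^ 2 := by
    have h2 : C * (2 * t + 2) / κ ^ 2 ≤ k := hn.trans (by exact_mod_cast hk)
    rw [div_le_iff₀ hκ2] at h2
    rw [div_mul_eq_mul_div, div_le_iff₀ hk0]
    linarith
  have hδ : 0 < δ := hc.d0
  have hω : ∀ x ∈ R, 0 ≤ ω x := fun x hx => by
    have := hc.om2 x hx
    linarith
  set c1 : ℝ := (cc + κ ^ 2) * (1 + κ ^ 2) with hc1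
  have hc1p : 0 < c1 := by
    have := hc.c0
    positivity
  have hVR : ∀ l x, x ∈ Vl t G R A B l → x ∈ R := fun l x hx => hx.1.mem
  have key : k / (4 ^ t * c1) * PS G R (2 * t + 1) (wI t eA eB) ≤
      ∏ i : Fin (2 * t + 1), avS (Vl t G R A B (i + 1)) ω := by
    rw [← PS_mul_left]
    refine PS_le_prod (fun i : Fin (2 * t + 1) => Vl t G R A B (i + 1)) (fun _ => ω)
      (fun i x hx => hω x (hVR _ x hx)) fun y hy => ?_
    by_cases hT : 0 < eB (y 0) ∧ 0 < eA (y (Fin.last (2 * t)))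
    · have hTy : TyI t G R eA eB y := ⟨hy, hT.1, hT.2⟩
      have e1 : ∏ i : Fin (2 * t + 1), (Vl t G R A B (i + 1)).indicator ω (y i) =
          ∏ i : Fin (2 * t + 1), ω (y i) :=
        Finset.prod_congr rfl fun i _ => Set.indicator_of_mem (gf.i3 y hTy i) _
      rw [e1]
      obtain ⟨r1, r2, r3⟩ := gf.i1 y hTy
      obtain ⟨p1, _, p3⟩ := one_sub_sum_le Finset.univ (fun i => ω (y i))
        (fun i _ => hω _ (hy.1 i)) (fun i _ => hc.om3 _ (hy.1 i))
      have hsum : ∑ i : Fin (2 * t + 1), (1 - ω (y i)) ≤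
          (2 * t + 1 : ℝ) * (C / k) ^ 2 + (eB (y 0) ^ 2 + 2 * (C / k) * eB (y 0)) +
            (eA (y (Fin.last (2 * t))) ^ 2 + 2 * (C / k) * eA (y (Fin.last (2 * t)))) := by
        calc ∑ i : Fin (2 * t + 1), (1 - ω (y i)) ≤
            ∑ i : Fin (2 * t + 1), ((C / k) ^ 2 +
              (if i = 0 then eB (y 0) ^ 2 + 2 * (C / k) * eB (y 0) else 0) +
              (if i = Fin.last (2 * t) then eA (y (Fin.last (2 * t))) ^ 2 +
                2 * (C / k) * eA (y (Fin.last (2 * t))) else 0)) := by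
              refine Finset.sum_le_sum fun i _ => ?_
              have o1 := hc.om1 (y i) (hy.1 i)
              have o2 := max_bd (hc.eA0 (y i)) (hc.eB0 (y i)) hh0
              have o3 : eB (y i) ^ 2 + 2 * (C / k) * eB (y i) ≤
                  (if i = 0 then eB (y 0) ^ 2 + 2 * (C / k) * eB (y 0) else 0) := by
                by_cases hi : i = 0
                · rw [if_pos hi, hi]
                · rw [if_neg hi]
                  have : 0 < (i : ℕ) := by
                    rcases Nat.eq_zero_or_pos (i : ℕ) with h | h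
                    · exact absurd (Fin.ext h) hi
                    · exact h
                  rw [(gf.i2 y hTy i).1 this]
                  simp
              have o4 : eA (y i) ^ 2 + 2 * (C / k) * eA (y i) ≤
                  (if i = Fin.last (2 * t) then eA (y (Fin.last (2 * t))) ^ 2 +
                    2 * (C / k) * eA (y (Fin.last (2 * t))) else 0) := by
                by_cases hi : i = Fin.last (2 * t)
                · rw [if_pos hi, hi]
                · rw [if_neg hi]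
                  have : (i : ℕ) < 2 * t := by
                    rcases Nat.lt_or_ge (i : ℕ) (2 * t) with h | h
                    · exact h
                    · exact absurd (Fin.ext (le_antisymm (Nat.lt_succ_iff.1 i.2) h)) hi
                  rw [(gf.i2 y hTy i).2 this]
                  simp
              linarith
          _ = _ := by
              rw [Finset.sum_add_distrib, Finset.sum_add_distrib, Finset.sum_ite_eq',
                Finset.sum_ite_eq']
              simp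
      have hP : 1 - ((2 * t + 1 : ℝ) * (C / k) ^ 2 + (eB (y 0) ^ 2 + 2 * (C / k) * eB (y 0)) +
            (eA (y (Fin.last (2 * t))) ^ 2 + 2 * (C / k) * eA (y (Fin.last (2 * t))))) ≤
            ∏ i : Fin (2 * t + 1), ω (y i) := by linarith
      have hT1 : (1 : ℝ) ≤ 2 * t + 1 := by
        have : (0 : ℝ) ≤ t := Nat.cast_nonneg t
        linarith
      have fin := arith hκ hκ1 hh0 hT1 hh (hc.eB0 _) (hc.eA0 _) r2 r3 p3 hP hk0.le r1
      unfold wI
      rw [div_mul_eq_mul_div, div_le_iff₀ (by positivity)]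
      have e4 : (4 : ℝ) ^ t = 2 ^ (2 * t) := by
        rw [pow_mul]
        norm_num
      rw [e4]
      have h2 : (0 : ℝ) < 2 ^ (2 * t) := by positivity
      calc k * (2 ^ (2 * t) * (eB (y 0) * eA (y (Fin.last (2 * t))))) =
          2 ^ (2 * t) * (k * (eB (y 0) * eA (y (Fin.last (2 * t))))) := by ring
        _ ≤ 2 ^ (2 * t) * (c1 * ∏ i : Fin (2 * t + 1), ω (y i)) :=
            mul_le_mul_of_nonneg_left fin h2.le
        _ = _ := by ring
    · have hw : wI t eA eB y = 0 := by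
        unfold wI
        rw [not_and_or, not_lt, not_lt] at hT
        rcases hT with h | h
        · rw [le_antisymm h (hc.eB0 _)]
          ring
        · rw [le_antisymm h (hc.eA0 _)]
          ring
      rw [hw, mul_zero]
      exact Finset.prod_nonneg fun i _ => Set.indicator_nonneg (fun x hx => hω x (hVR _ x hx)) _
  rw [prod_Icc, Finset.prod_mul_distrib, Finset.prod_const, Finset.card_univ, Fintype.card_fin]
  set Q : ℝ := ∏ i : Fin (2 * t + 1), avS (Vl t G R A B (i + 1)) ω with hQ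
  set P : ℝ := PS G R (2 * t + 1) (wI t eA eB) with hP
  have e1 : 4 * k * P / δ * DD t k δ = (k / (4 ^ t * c1) * P) * (c1 * k ^ (2 * t + 1)) := by
    unfold DD
    field_simp
    ring
  rw [e1]
  calc (k / (4 ^ t * c1) * P) * (c1 * (k : ℝ) ^ (2 * t + 1)) ≤ Q * (c1 * k ^ (2 * t + 1)) :=
        mul_le_mul_of_nonneg_right key (by positivity)
    _ = (cc + κ ^ 2) * (k ^ (2 * t + 1) * Q) * (1 + κ ^ 2) := by
        rw [hc1]
        ring

end Pool.Agent.OCX
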